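import Pool.Agent.NH13.Chars
import Pool.Agent.H385R7.BV1

/-!
# All characters of one modulus
-/

set_option autoImplicit false

open Complex MeasureTheory Set Filter Topology

namespace Pool.Agent.NH13

open ArithmeticFunction (vonMangoldt)

lemma omega_le (q : ℕ) (hq : 1 ≤ q) : (q.primeFactors.card : ℝ) ≤ 2 * Real.log q := by
  have h1 : 2 ^ q.primeFactors.card ≤ q := by
    calc 2 ^ q.primeFactors.card = ∏ _p ∈ q.primeFactors, 2 := by rw [Finset.prod_const]
      _ ≤ ∏ p ∈ q.primeFactors, p := Finset.prod_le_prod' fun p hp =>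
          (Nat.prime_of_mem_primeFactors hp).two_le
      _ ≤ q := Nat.le_of_dvd (by omega) (Nat.prod_primeFactors_dvd q)
  have h2 : ((2 : ℝ) ^ q.primeFactors.card) ≤ q := by exact_mod_cast h1
  have h3 := Real.log_le_log (by positivity) h2
  rw [Real.log_pow] at h3
  have := Real.log_two_gt_d9
  have h4 : (0 : ℝ) ≤ q.primeFactors.card := Nat.cast_nonneg _
  nlinarith

lemma psi_diff {q d : ℕ} [NeZero q] [NeZero d] (h : d ∣ q) (ψ : DirichletCharacter ℂ d) {x : ℝ}
    (hx : 1 ≤ x) : ‖psi ψ x - psi (DirichletCharacter.changeLevel h ψ) x‖ ≤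
      2 * Real.log q * Real.log x := by
  have hq : 1 ≤ q := NeZero.one_le
  have hN : 1 ≤ ⌊x⌋₊ := (Nat.one_le_floor_iff x).mpr hx
  unfold psi
  rw [← Finset.sum_sub_distrib]
  have h1 : ∀ n ∈ Finset.Icc 1 ⌊x⌋₊, ‖(vonMangoldt n : ℂ) * ψ (n : ZMod d) -
      (vonMangoldt n : ℂ) * DirichletCharacter.changeLevel h ψ (n : ZMod q)‖ ≤
      if ¬ n.Coprime q then vonMangoldt n else 0 := by
    intro n _
    by_cases hn : n.Coprime q
    · rw [if_neg (by simpa using hn)]
      have h2 := DirichletCharacter.changeLevel_eq_cast_of_dvd' ψ h (a := (n : ℤ))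
        (by exact_mod_cast Nat.isCoprime_iff_coprime.mpr hn)
      push_cast at h2
      rw [h2, sub_self, norm_zero]
    · rw [if_pos hn]
      have h2 : DirichletCharacter.changeLevel h ψ (n : ZMod q) = 0 :=
        MulChar.map_nonunit _ (fun hu => hn ((ZMod.isUnit_iff_coprime n _).mp hu))
      rw [h2, mul_zero, sub_zero]
      exact norm_coef_le ψ n
  refine (norm_sum_le_of_le _ h1).trans ?_
  rw [← Finset.sum_filter]
  have h2 := H385.BV.sum_ncop q ⌊x⌋₊ hq hN
  refine h2.trans ?_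
  have h3 := omega_le q hq
  have h4 : Real.log (⌊x⌋₊ : ℝ) ≤ Real.log x :=
    Real.log_le_log (by exact_mod_cast hN) (Nat.floor_le (by linarith))
  have h5 : 0 ≤ Real.log (⌊x⌋₊ : ℝ) := Real.log_natCast_nonneg _
  have h6 : 0 ≤ Real.log q := Real.log_natCast_nonneg _
  calc _ ≤ (2 * Real.log q) * Real.log (⌊x⌋₊ : ℝ) := by gcongr
    _ ≤ _ := by gcongr

lemma int_log_sq {X : ℝ} (hX : 1 ≤ X) (Y : ℝ) :
    IntegrableOn (fun x : ℝ => Real.log x ^ 2 / x ^ 2) (Ioc X Y) ∧
    ∫ x in Ioc X Y, Real.log x ^ 2 / x ^ 2 ≤ 32 * X ^ (-(1 / 2) : ℝ) := by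
  have hX0 : 0 < X := by linarith
  have hb : ∀ x : ℝ, X < x → Real.log x ^ 2 / x ^ 2 ≤ 16 * x ^ (-(3 / 2) : ℝ) := by
    intro x hx
    have hx1 : 1 < x := by linarith
    have hx0 : 0 < x := by linarith
    have h1 : Real.log x ≤ x ^ (1 / 4 : ℝ) / (1 / 4) := Real.log_le_rpow_div hx0.le (by norm_num)
    have h2 : 0 ≤ Real.log x := Real.log_nonneg hx1.le
    have h3 : Real.log x ^ 2 ≤ 16 * x ^ (1 / 2 : ℝ) := by
      calc Real.log x ^ 2 ≤ (x ^ (1 / 4 : ℝ) / (1 / 4)) ^ 2 := by gcongr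
        _ = 16 * (x ^ (1 / 4 : ℝ)) ^ 2 := by ring
        _ = 16 * x ^ (1 / 2 : ℝ) := by
            rw [← Real.rpow_natCast, ← Real.rpow_mul hx0.le]; norm_num
    rw [div_le_iff₀ (by positivity)]
    refine h3.trans (le_of_eq ?_)
    rw [mul_assoc, ← Real.rpow_natCast x 2, ← Real.rpow_add hx0]
    norm_num
  have hi : IntegrableOn (fun x : ℝ => 16 * x ^ (-(3 / 2) : ℝ)) (Ioi X) :=
    (integrableOn_Ioi_rpow_of_lt (by norm_num) hX0).const_mul 16
  have hi2 : IntegrableOn (fun x : ℝ => Real.log x ^ 2 / x ^ 2) (Ioc X Y) := by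
    refine (hi.mono_set Ioc_subset_Ioi_self).mono' ?_ ?_
    · exact (Real.measurable_log.pow_const 2 |>.div (measurable_id.pow_const 2)).aestronglyMeasurable
    · refine (ae_restrict_mem measurableSet_Ioc).mono fun x hx => ?_
      rw [Real.norm_of_nonneg (by positivity)]
      exact hb x hx.1
  refine ⟨hi2, ?_⟩
  calc ∫ x in Ioc X Y, Real.log x ^ 2 / x ^ 2 ≤ ∫ x in Ioc X Y, 16 * x ^ (-(3 / 2) : ℝ) :=
        setIntegral_mono_on hi2 (hi.mono_set Ioc_subset_Ioi_self) measurableSet_Ioc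
          fun x hx => hb x hx.1
    _ ≤ ∫ x in Ioi X, 16 * x ^ (-(3 / 2) : ℝ) := by
        apply setIntegral_mono_set hi
        · refine (ae_restrict_mem measurableSet_Ioi).mono fun t ht => ?_
          have ht' : X < t := ht
          have ht0 : 0 < t := lt_trans hX0 ht'
          simp only [Pi.zero_apply]
          positivity
        · exact Ioc_subset_Ioi_self.eventuallyLE
    _ = 32 * X ^ (-(1 / 2) : ℝ) := by
        rw [integral_const_mul, integral_Ioi_rpow_of_lt (by norm_num) hX0]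
        norm_num
        ring

open Classical in
/-- all characters modulo `q` whose `ψ(x, χ)` is small in mean square on `(X, Y]` -/
noncomputable def BadAll (q : ℕ) [NeZero q] (X Y η : ℝ) : Finset (DirichletCharacter ℂ q) :=
  Finset.univ.filter (fun χ => ∫ x in Ioc X Y, ‖psi χ x‖ ^ 2 / x ^ 2 ≤ η)

lemma mem_BadAll {q : ℕ} [NeZero q] {X Y η : ℝ} {χ : DirichletCharacter ℂ q} :
    χ ∈ BadAll q X Y η ↔ ∫ x in Ioc X Y, ‖psi χ x‖ ^ 2 / x ^ 2 ≤ η := by
  unfold BadAll; simp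

lemma mem_BadSet {q : ℕ} [NeZero q] {X Y η : ℝ} {χ : DirichletCharacter ℂ q} :
    χ ∈ BadSet q X Y η ↔ χ.IsPrimitive ∧ ∫ x in Ioc X Y, ‖psi χ x‖ ^ 2 / x ^ 2 ≤ η := by
  unfold BadSet
  rw [Finset.mem_filter, mem_Prim]

lemma card_chars (q : ℕ) [NeZero q] : Fintype.card (DirichletCharacter ℂ q) = q.totient := by
  rw [← Nat.card_eq_fintype_card]
  exact DirichletCharacter.card_eq_totient_of_hasEnoughRootsOfUnity ℂ q

/-- the mean square of the inducing primitive character -/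
lemma prim_mean {q d : ℕ} [NeZero q] [NeZero d] (h : d ∣ q) (ψ : DirichletCharacter ℂ d) {X Y Y' : ℝ}
    (hX : 1 ≤ X) (hY : Y' ≤ Y) :
    ∫ x in Ioc X Y', ‖psi ψ x‖ ^ 2 / x ^ 2 ≤
      2 * (∫ x in Ioc X Y, ‖psi (DirichletCharacter.changeLevel h ψ) x‖ ^ 2 / x ^ 2) +
        256 * Real.log q ^ 2 * X ^ (-(1 / 2) : ℝ) := by
  have hX0 : 0 < X := by linarith
  obtain ⟨hl1, hl2⟩ := int_log_sq hX Y
  have h1 : ∫ x in Ioc X Y', ‖psi ψ x‖ ^ 2 / x ^ 2 ≤ ∫ x in Ioc X Y, ‖psi ψ x‖ ^ 2 / x ^ 2 := by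
    apply setIntegral_mono_set (int_psi_sq ψ hX0 Y) (Eventually.of_forall fun x => by positivity)
    exact (Ioc_subset_Ioc_right hY).eventuallyLE
  refine h1.trans ?_
  have h2 : ∫ x in Ioc X Y, ‖psi ψ x‖ ^ 2 / x ^ 2 ≤
      ∫ x in Ioc X Y, (2 * (‖psi (DirichletCharacter.changeLevel h ψ) x‖ ^ 2 / x ^ 2) +
        (8 * Real.log q ^ 2) * (Real.log x ^ 2 / x ^ 2)) := by
    apply setIntegral_mono_on (int_psi_sq ψ hX0 Y)
      (((int_psi_sq _ hX0 Y).const_mul 2).add (hl1.const_mul _)) measurableSet_Ioc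
    intro x hx
    have hx1 : 1 ≤ x := by linarith [hx.1]
    have hx0 : 0 < x := by linarith
    have h3 := psi_diff h ψ hx1
    set a := psi ψ x
    set b := psi (DirichletCharacter.changeLevel h ψ) x
    have h4 : ‖a‖ ≤ ‖b‖ + 2 * Real.log q * Real.log x := by
      have := norm_add_le (a - b) b
      rw [sub_add_cancel] at this
      linarith
    have h5 : ‖a‖ ^ 2 ≤ 2 * ‖b‖ ^ 2 + 8 * Real.log q ^ 2 * Real.log x ^ 2 := by
      have h6 : ‖a‖ ^ 2 ≤ (‖b‖ + 2 * Real.log q * Real.log x) ^ 2 :=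
        pow_le_pow_left₀ (norm_nonneg _) h4 2
      nlinarith [sq_nonneg (‖b‖ - 2 * Real.log q * Real.log x)]
    show ‖a‖ ^ 2 / x ^ 2 ≤ 2 * (‖b‖ ^ 2 / x ^ 2) + (8 * Real.log q ^ 2) * (Real.log x ^ 2 / x ^ 2)
    have e : 2 * (‖b‖ ^ 2 / x ^ 2) + (8 * Real.log q ^ 2) * (Real.log x ^ 2 / x ^ 2) =
        (2 * ‖b‖ ^ 2 + 8 * Real.log q ^ 2 * Real.log x ^ 2) / x ^ 2 := by ring
    rw [e]
    gcongr
  rw [integral_add ((int_psi_sq _ hX0 Y).const_mul 2) (hl1.const_mul _), integral_const_mul,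
    integral_const_mul] at h2
  refine h2.trans ?_
  have h7 : 0 ≤ 8 * Real.log q ^ 2 := by positivity
  have h8 := mul_le_mul_of_nonneg_left hl2 h7
  linarith

theorem all_chars (A δ : ℝ) (hA : 0 < A) (hδ : 0 < δ) : ∃ C : ℝ, 0 < C ∧ ∀ (q : ℕ) [NeZero q],
    3 ≤ q → ∀ κ X : ℝ, 0 < κ → κ ≤ 1 → (q : ℝ) ^ δ ≤ X → X ≤ (q : ℝ) ^ A →
    ((BadAll q X (X * (q : ℝ) ^ (1 + δ)) (Real.exp (-(C * κ * Real.log q)))).card : ℝ) ≤
      C * q / (κ ^ 3 * Real.log q ^ 2) := by
  obtain ⟨C1, hC1, hcm⟩ := chars_main (4 * A) δ (by linarith) hδ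
  -- the threshold
  obtain ⟨κ0, hκ0⟩ : ∃ κ0 : ℝ, κ0 = min (1 / 16) (δ / (8 * C1)) := ⟨_, rfl⟩
  have hκ0p : 0 < κ0 := by rw [hκ0]; exact lt_min (by norm_num) (by positivity)
  have hκ01 : κ0 ≤ 1 / 16 := by rw [hκ0]; exact min_le_left _ _
  have hκ02 : C1 * κ0 ≤ δ / 8 := by
    have : κ0 ≤ δ / (8 * C1) := by rw [hκ0]; exact min_le_right _ _
    calc C1 * κ0 ≤ C1 * (δ / (8 * C1)) := by gcongr
      _ = δ / 8 := by field_simp
  -- a large `ℓ`
  obtain ⟨L0, hL0p, hL0⟩ : ∃ L0 : ℝ, 0 < L0 ∧ ∀ ℓ : ℝ, L0 ≤ ℓ → 512 * ℓ ^ 2 ≤ Real.exp (3 * δ / 8 * ℓ) := by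
    have h1 : Tendsto (fun ℓ : ℝ => ℓ ^ 2 / Real.exp (3 * δ / 8 * ℓ)) atTop (𝓝 0) := by
      have h2 := Real.tendsto_pow_mul_exp_neg_atTop_nhds_zero 2
      have h3 : Tendsto (fun ℓ : ℝ => 3 * δ / 8 * ℓ) atTop atTop :=
        tendsto_id.const_mul_atTop (by positivity)
      have h4 := (h2.comp h3).const_mul ((3 * δ / 8) ^ 2)⁻¹
      rw [mul_zero] at h4
      refine h4.congr fun ℓ => ?_
      simp only [Function.comp]
      rw [Real.exp_neg]
      field_simp
    have h2 : ∀ᶠ ℓ : ℝ in atTop, ℓ ^ 2 / Real.exp (3 * δ / 8 * ℓ) < 1 / 512 :=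
      h1.eventually (gt_mem_nhds (by norm_num))
    obtain ⟨L0, hL0⟩ := eventually_atTop.1 h2
    refine ⟨max L0 1, by positivity, fun ℓ hℓ => ?_⟩
    have h3 := hL0 ℓ ((le_max_left _ _).trans hℓ)
    rw [div_lt_div_iff₀ (Real.exp_pos _) (by norm_num)] at h3
    linarith
  obtain ⟨C', hC'⟩ : ∃ C' : ℝ, C' = 16 * C1 + C1 + 1 + 16 + (64000 + L0 + 8) ^ 2 := ⟨_, rfl⟩
  have hC'1 : 16 * C1 + 16 ≤ C' := by rw [hC']; nlinarith
  have hC'2 : C1 + 1 ≤ C' := by rw [hC']; nlinarith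
  have hC'3 : (64000 + L0 + 8) ^ 2 ≤ C' := by rw [hC']; nlinarith
  have hC'p : 0 < C' := by linarith
  obtain ⟨C, hC⟩ : ∃ C : ℝ, C = C' / κ0 ^ 3 := ⟨_, rfl⟩
  have hκ03 : κ0 ^ 3 ≤ 1 := pow_le_one₀ hκ0p.le (by linarith)
  have hκ03p : 0 < κ0 ^ 3 := by positivity
  have hCC' : C' ≤ C := by
    rw [hC, le_div_iff₀ hκ03p]
    nlinarith
  have hCp : 0 < C := by linarith
  -- the statement for `κ ≤ κ0`
  have main : ∀ (q : ℕ) [NeZero q], 3 ≤ q → ∀ κ X : ℝ, 0 < κ → κ ≤ κ0 → (q : ℝ) ^ δ ≤ X →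
      X ≤ (q : ℝ) ^ A →
      ((BadAll q X (X * (q : ℝ) ^ (1 + δ)) (Real.exp (-(C * κ * Real.log q)))).card : ℝ) ≤
      C' * q / (κ ^ 3 * Real.log q ^ 2) := by
    intro q _ hq κ X hκ hκle hXδ hXA
    have hq0 : (0 : ℝ) < q := by exact_mod_cast NeZero.pos q
    have hq1 : (1 : ℝ) ≤ q := by exact_mod_cast NeZero.one_le
    have hκ1 : κ ≤ 1 / 16 := hκle.trans hκ01
    have hℓ1 : 1 ≤ Real.log q := by
      rw [Real.le_log_iff_exp_le hq0]
      have h1 := Real.exp_one_lt_d9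
      have h2 : (3 : ℝ) ≤ q := by exact_mod_cast hq
      linarith
    obtain ⟨ℓ, hℓ⟩ : ∃ ℓ : ℝ, ℓ = Real.log q := ⟨_, rfl⟩
    rw [← hℓ] at hℓ1 ⊢
    have hℓ0 : 0 < ℓ := by linarith
    have hqexp : ∀ u : ℝ, (q : ℝ) ^ u = Real.exp (ℓ * u) := by
      intro u; rw [Real.rpow_def_of_pos hq0, ← hℓ]
    have hX1 : 1 ≤ X := (Real.one_le_rpow hq1 hδ.le).trans hXδ
    set S := BadAll q X (X * (q : ℝ) ^ (1 + δ)) (Real.exp (-(C * κ * ℓ))) with hS
    have hκ30 : 0 < κ ^ 3 := by positivity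
    have hκ3 : κ ^ 3 ≤ 1 := pow_le_one₀ hκ.le (by linarith)
    have htriv : (S.card : ℝ) ≤ q := by
      have h1 : S.card ≤ Fintype.card (DirichletCharacter ℂ q) := Finset.card_le_univ _
      rw [card_chars] at h1
      exact_mod_cast h1.trans (Nat.totient_le q)
    by_cases hcase : κ ^ 3 * ℓ ^ 2 ≤ C'
    · rw [le_div_iff₀ (by positivity)]
      calc (S.card : ℝ) * (κ ^ 3 * ℓ ^ 2) ≤ q * C' := by gcongr
        _ = _ := mul_comm _ _
    · push Not at hcase
      have hℓ2 : C' ≤ ℓ ^ 2 := by nlinarith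
      have hℓ3 : 64000 + L0 + 8 ≤ ℓ := by
        have : (64000 + L0 + 8) ^ 2 ≤ ℓ ^ 2 := hC'3.trans hℓ2
        exact (pow_le_pow_iff_left₀ (by positivity) hℓ0.le two_ne_zero).mp this
      -- `κ ℓ ≥ 2`
      have hκℓ : 2 ≤ κ * ℓ := by
        by_contra h
        push Not at h
        have h0 : 0 ≤ κ * ℓ := by positivity
        have h1 : κ ^ 3 * ℓ ^ 2 = (κ * ℓ) ^ 2 * κ := by ring
        rw [h1] at hcase
        have h2 : (κ * ℓ) ^ 2 * κ ≤ 2 ^ 2 * 1 := by gcongr; linarith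
        nlinarith
      -- fibres
      have hfib : (S.card : ℝ) = ∑ d ∈ q.divisors,
          (((S.filter (fun χ => χ.conductor = d)).card : ℕ) : ℝ) := by
        rw [Finset.card_eq_sum_card_fiberwise (f := fun χ : DirichletCharacter ℂ q => χ.conductor)
          (t := q.divisors)]
        · push_cast; rfl
        · intro χ _
          simp only [Finset.mem_coe, Nat.mem_divisors]
          exact ⟨χ.conductor_dvd_level, NeZero.ne q⟩
      classical
      have hcardd : ∀ d ∈ q.divisors, ((S.filter (fun χ => χ.conductor = d)).card : ℝ) ≤ d.totient := by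
        intro d hd
        rw [Nat.mem_divisors] at hd
        have h1 := H385.phs_eq_fiber q d hd.1
        have h2 : (S.filter (fun χ => χ.conductor = d)).card ≤
            ((Finset.univ : Finset (DirichletCharacter ℂ q)).filter (fun χ => χ.conductor = d)).card :=
          Finset.card_le_card (Finset.filter_subset_filter _ (Finset.subset_univ _))
        rw [h1] at h2
        have : NeZero d := ⟨by rintro rfl; exact NeZero.ne q (Nat.eq_zero_of_zero_dvd hd.1)⟩
        rw [H385.phs_eq_filter] at h2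
        have h3 := Finset.card_le_univ
          ((Finset.univ : Finset (DirichletCharacter ℂ d)).filter (fun χ => χ.IsPrimitive))
        rw [card_chars] at h3
        exact_mod_cast h2.trans h3
      -- large conductors
      have hbig : ∀ d ∈ q.divisors, (q : ℝ) ^ (1 / 4 : ℝ) ≤ d →
          ((S.filter (fun χ => χ.conductor = d)).card : ℝ) ≤
            16 * C1 / (κ ^ 3 * ℓ ^ 2) * d.totient := by
        intro d hd hdq
        rw [Nat.mem_divisors] at hd
        have hd0 : d ≠ 0 := by rintro rfl; exact NeZero.ne q (Nat.eq_zero_of_zero_dvd hd.1)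
        have : NeZero d := ⟨hd0⟩
        have hdle : d ≤ q := Nat.le_of_dvd (by omega) hd.1
        have hd0' : (0 : ℝ) < d := by exact_mod_cast Nat.pos_of_ne_zero hd0
        have hlogd : ℓ / 4 ≤ Real.log d := by
          have h1 := Real.log_le_log (by positivity) hdq
          rw [Real.log_rpow hq0, ← hℓ] at h1
          linarith
        have hd3 : 3 ≤ d := by
          have h1 : Real.log 3 < Real.log d := by
            have h2 : Real.log 3 ≤ 2 := by
              have := Real.log_le_sub_one_of_pos (show (0 : ℝ) < 3 by norm_num)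
              linarith
            linarith
          have h2 := (Real.log_lt_log_iff (by norm_num) hd0').mp h1
          have h3 : 3 < d := by exact_mod_cast h2
          omega
        have hd1 : (1 : ℝ) ≤ d := by exact_mod_cast (by omega : 1 ≤ d)
        have hdq' : (d : ℝ) ≤ q := by exact_mod_cast hdle
        have hbad := hcm d hd3 κ X hκ hκ1 hX1 (by
          calc X ≤ (q : ℝ) ^ A := hXA
            _ = ((q : ℝ) ^ (1 / 4 : ℝ)) ^ (4 * A) := by rw [← Real.rpow_mul hq0.le]; congr 1; ring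
            _ ≤ (d : ℝ) ^ (4 * A) := by gcongr)
        -- injection
        have hsub : S.filter (fun χ => χ.conductor = d) ⊆
            (BadSet d X (X * (d : ℝ) ^ (1 + δ)) (Real.exp (-(C1 * κ * Real.log d)))).image
              (DirichletCharacter.changeLevel hd.1) := by
          intro χ hχ
          rw [Finset.mem_filter] at hχ
          obtain ⟨hχS, hcond⟩ := hχ
          subst hcond
          rw [Finset.mem_image]
          refine ⟨χ.primitiveCharacter, ?_, χ.changeLevel_primitiveCharacter⟩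
          rw [mem_BadSet]
          refine ⟨χ.primitiveCharacter_isPrimitive, ?_⟩
          rw [hS, mem_BadAll] at hχS
          have hpm := prim_mean hd.1 χ.primitiveCharacter (X := X) (Y := X * (q : ℝ) ^ (1 + δ))
            (Y' := X * (χ.conductor : ℝ) ^ (1 + δ)) hX1 (by gcongr)
          rw [χ.changeLevel_primitiveCharacter] at hpm
          refine hpm.trans ?_
          rw [← hℓ]
          have hXh : X ^ (-(1 / 2) : ℝ) ≤ Real.exp (-(δ / 2 * ℓ)) := by
            calc X ^ (-(1 / 2) : ℝ) ≤ ((q : ℝ) ^ δ) ^ (-(1 / 2) : ℝ) :=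
                  Real.rpow_le_rpow_of_nonpos (by positivity) hXδ (by norm_num)
              _ = Real.exp (-(δ / 2 * ℓ)) := by
                  rw [← Real.rpow_mul hq0.le, hqexp]; congr 1; ring
          have hld : Real.log χ.conductor ≤ ℓ := by
            rw [hℓ]; exact Real.log_le_log hd0' hdq'
          have i1 : 2 * Real.exp (-(C * κ * ℓ)) ≤ Real.exp (-(C1 * κ * Real.log χ.conductor)) / 2 := by
            have h1 : Real.exp (-(C * κ * ℓ)) ≤
                Real.exp (-(C1 * κ * Real.log χ.conductor)) * Real.exp (-2) := by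
              rw [← Real.exp_add]
              apply Real.exp_le_exp.mpr
              have h2 : (C1 + 1) * (κ * ℓ) ≤ C * (κ * ℓ) := by
                have h3 : C1 + 1 ≤ C := hC'2.trans hCC'
                have h0 : 0 ≤ κ * ℓ := by positivity
                gcongr
              have h4 : C1 * κ * Real.log χ.conductor ≤ C1 * κ * ℓ := by gcongr
              nlinarith
            have h2 : Real.exp (-2) ≤ 1 / 4 := by
              rw [Real.exp_neg, ← one_div]
              apply one_div_le_one_div_of_le (by norm_num)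
              have := Real.exp_one_gt_d9
              have e : Real.exp 2 = Real.exp 1 * Real.exp 1 := by rw [← Real.exp_add]; norm_num
              rw [e]; nlinarith
            have h3 := Real.exp_pos (-(C1 * κ * Real.log χ.conductor))
            nlinarith
          have i2 : 256 * ℓ ^ 2 * X ^ (-(1 / 2) : ℝ) ≤
              Real.exp (-(C1 * κ * Real.log χ.conductor)) / 2 := by
            have h1 := hL0 ℓ (by linarith)
            have h2 : Real.exp (-(δ / 8 * ℓ)) ≤ Real.exp (-(C1 * κ * Real.log χ.conductor)) := by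
              apply Real.exp_le_exp.mpr
              have h3 : C1 * κ * Real.log χ.conductor ≤ C1 * κ0 * ℓ := by gcongr
              have h4 : C1 * κ0 * ℓ ≤ δ / 8 * ℓ := by gcongr
              linarith
            have h3 : Real.exp (3 * δ / 8 * ℓ) * Real.exp (-(δ / 2 * ℓ)) = Real.exp (-(δ / 8 * ℓ)) := by
              rw [← Real.exp_add]; congr 1; ring
            calc 256 * ℓ ^ 2 * X ^ (-(1 / 2) : ℝ) ≤ 256 * ℓ ^ 2 * Real.exp (-(δ / 2 * ℓ)) := by gcongr
              _ = (512 * ℓ ^ 2) * Real.exp (-(δ / 2 * ℓ)) / 2 := by ring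
              _ ≤ Real.exp (3 * δ / 8 * ℓ) * Real.exp (-(δ / 2 * ℓ)) / 2 := by gcongr
              _ = Real.exp (-(δ / 8 * ℓ)) / 2 := by rw [h3]
              _ ≤ _ := by gcongr
          have i3 := mul_le_mul_of_nonneg_left hχS (show (0 : ℝ) ≤ 2 by norm_num)
          linarith
        have h1 := (Finset.card_le_card hsub).trans Finset.card_image_le
        have h2 : ((S.filter (fun χ => χ.conductor = d)).card : ℝ) ≤
            ((BadSet d X (X * (d : ℝ) ^ (1 + δ)) (Real.exp (-(C1 * κ * Real.log d)))).card : ℝ) := by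
          exact_mod_cast h1
        refine (h2.trans hbad).trans ?_
        have h3 : ℓ ^ 2 / 16 ≤ Real.log d ^ 2 := by
          have : (ℓ / 4) ^ 2 ≤ Real.log d ^ 2 := by gcongr
          calc ℓ ^ 2 / 16 = (ℓ / 4) ^ 2 := by ring
            _ ≤ _ := this
        have hφ : (0 : ℝ) ≤ d.totient := Nat.cast_nonneg _
        calc C1 * d.totient / (κ ^ 3 * Real.log d ^ 2) ≤ C1 * d.totient / (κ ^ 3 * (ℓ ^ 2 / 16)) := by
              gcongr
          _ = _ := by field_simp
      -- sum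
      set E := 16 * C1 / (κ ^ 3 * ℓ ^ 2) with hE
      have hE0 : 0 ≤ E := by positivity
      have hall : ∀ d ∈ q.divisors, ((S.filter (fun χ => χ.conductor = d)).card : ℝ) ≤
          E * d.totient + (if (d : ℝ) < (q : ℝ) ^ (1 / 4 : ℝ) then (q : ℝ) ^ (1 / 4 : ℝ) else 0) := by
        intro d hd
        have hφ : (0 : ℝ) ≤ d.totient := Nat.cast_nonneg _
        split_ifs with h
        · have h1 := hcardd d hd
          have h2 : (d.totient : ℝ) ≤ d := by exact_mod_cast Nat.totient_le d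
          have : 0 ≤ E * d.totient := by positivity
          linarith
        · push Not at h
          have := hbig d hd h
          linarith
      have hsumd := Finset.sum_le_sum hall
      rw [← hfib, Finset.sum_add_distrib, ← Finset.mul_sum, ← Finset.sum_filter, Finset.sum_const,
        nsmul_eq_mul] at hsumd
      have h1 : ∑ d ∈ q.divisors, (d.totient : ℝ) = q := by
        exact_mod_cast Nat.sum_totient q
      have h2 : (((q.divisors.filter (fun d : ℕ => (d : ℝ) < (q : ℝ) ^ (1 / 4 : ℝ))).card : ℕ) : ℝ) ≤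
          (q : ℝ) ^ (1 / 4 : ℝ) := by
        have h3 : q.divisors.filter (fun d : ℕ => (d : ℝ) < (q : ℝ) ^ (1 / 4 : ℝ)) ⊆
            Finset.Icc 1 ⌊(q : ℝ) ^ (1 / 4 : ℝ)⌋₊ := by
          intro d hd
          rw [Finset.mem_filter, Nat.mem_divisors] at hd
          rw [Finset.mem_Icc]
          refine ⟨?_, Nat.le_floor hd.2.le⟩
          rcases Nat.eq_zero_or_pos d with h | h
          · subst h; exact absurd (Nat.eq_zero_of_zero_dvd hd.1.1) (NeZero.ne q)
          · exact h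
        have h4 := Finset.card_le_card h3
        rw [Nat.card_Icc, Nat.add_sub_cancel] at h4
        calc _ ≤ ((⌊(q : ℝ) ^ (1 / 4 : ℝ)⌋₊ : ℕ) : ℝ) := by exact_mod_cast h4
          _ ≤ _ := Nat.floor_le (by positivity)
      rw [h1] at hsumd
      have h3 : (q : ℝ) ^ (1 / 4 : ℝ) * (q : ℝ) ^ (1 / 4 : ℝ) = (q : ℝ) ^ (1 / 2 : ℝ) := by
        rw [← Real.rpow_add hq0]; norm_num
      have h4 : (S.card : ℝ) ≤ E * q + (q : ℝ) ^ (1 / 2 : ℝ) := by
        refine hsumd.trans ?_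
        rw [← h3]
        gcongr
      have h5 : (q : ℝ) ^ (1 / 2 : ℝ) ≤ 16 / (κ ^ 3 * ℓ ^ 2) * q := by
        have h6 : ℓ ≤ (q : ℝ) ^ (1 / 4 : ℝ) / (1 / 4) := by
          rw [hℓ]; exact Real.log_le_rpow_div hq0.le (by norm_num)
        have h7 : ℓ ^ 2 ≤ 16 * (q : ℝ) ^ (1 / 2 : ℝ) := by
          calc ℓ ^ 2 ≤ ((q : ℝ) ^ (1 / 4 : ℝ) / (1 / 4)) ^ 2 := by gcongr
            _ = 16 * ((q : ℝ) ^ (1 / 4 : ℝ) * (q : ℝ) ^ (1 / 4 : ℝ)) := by ring
            _ = _ := by rw [h3]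
        have h8 : (q : ℝ) ^ (1 / 2 : ℝ) * (q : ℝ) ^ (1 / 2 : ℝ) = q := by
          rw [← Real.rpow_add hq0]; norm_num
        rw [div_mul_eq_mul_div, le_div_iff₀ (by positivity)]
        calc (q : ℝ) ^ (1 / 2 : ℝ) * (κ ^ 3 * ℓ ^ 2) ≤
              (q : ℝ) ^ (1 / 2 : ℝ) * (1 * (16 * (q : ℝ) ^ (1 / 2 : ℝ))) := by gcongr
          _ = 16 * ((q : ℝ) ^ (1 / 2 : ℝ) * (q : ℝ) ^ (1 / 2 : ℝ)) := by ring
          _ = 16 * q := by rw [h8]
      calc (S.card : ℝ) ≤ E * q + 16 / (κ ^ 3 * ℓ ^ 2) * q := by linarith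
        _ = (16 * C1 + 16) * q / (κ ^ 3 * ℓ ^ 2) := by rw [hE]; ring
        _ ≤ _ := by gcongr
  refine ⟨C, hCp, ?_⟩
  intro q _ hq κ X hκ hκ1 hXδ hXA
  have hq0 : (0 : ℝ) < q := by exact_mod_cast NeZero.pos q
  have hℓ0 : 0 < Real.log q := Real.log_pos (by exact_mod_cast (by omega : 1 < q))
  rcases le_total κ κ0 with h | h
  · refine (main q hq κ X hκ h hXδ hXA).trans ?_
    gcongr
  · have h1 := main q hq κ0 X hκ0p le_rfl hXδ hXA
    have h2 : BadAll q X (X * (q : ℝ) ^ (1 + δ)) (Real.exp (-(C * κ * Real.log q))) ⊆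
        BadAll q X (X * (q : ℝ) ^ (1 + δ)) (Real.exp (-(C * κ0 * Real.log q))) := by
      intro χ hχ
      rw [mem_BadAll] at hχ ⊢
      refine hχ.trans (Real.exp_le_exp.mpr ?_)
      have : C * κ0 * Real.log q ≤ C * κ * Real.log q := by gcongr
      linarith
    have h3 : ((BadAll q X (X * (q : ℝ) ^ (1 + δ)) (Real.exp (-(C * κ * Real.log q)))).card : ℝ) ≤
        ((BadAll q X (X * (q : ℝ) ^ (1 + δ)) (Real.exp (-(C * κ0 * Real.log q)))).card : ℝ) := by
      exact_mod_cast Finset.card_le_card h2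
    refine (h3.trans h1).trans ?_
    have h4 : κ ^ 3 ≤ 1 := pow_le_one₀ hκ.le hκ1
    rw [hC]
    have e1 : C' * q / (κ0 ^ 3 * Real.log q ^ 2) = (C' / κ0 ^ 3 * q / Real.log q ^ 2) * 1 := by
      field_simp
    have e2 : C' / κ0 ^ 3 * q / (κ ^ 3 * Real.log q ^ 2) =
        (C' / κ0 ^ 3 * q / Real.log q ^ 2) * (1 / κ ^ 3) := by field_simp
    rw [e1, e2]
    have h5 : 1 ≤ 1 / κ ^ 3 := by
      rw [le_div_iff₀ (by positivity)]; linarith
    gcongr

end Pool.Agent.NH13
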