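import Pool.Agent.NH13.Count

/-!
# Almost all primitive characters have large `ψ(x, χ)` on every window `[X, X q^{1+δ}]`
-/

set_option autoImplicit false

open Complex MeasureTheory Set Filter Topology

namespace Pool.Agent.NH13

open ArithmeticFunction (vonMangoldt)

lemma int_psi_sq {q : ℕ} (χ : DirichletCharacter ℂ q) {X : ℝ} (hX : 0 < X) (Y : ℝ) :
    IntegrableOn (fun t : ℝ => ‖psi χ t‖ ^ 2 / t ^ 2) (Ioc X Y) := by
  obtain ⟨D, hD⟩ : ∃ D, D = ∑ n ∈ Finset.Icc 1 ⌊Y⌋₊, vonMangoldt n := ⟨_, rfl⟩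
  refine Measure.integrableOn_of_bounded (M := D ^ 2 / X ^ 2) (by simp) ?_ ?_
  · exact (((psi_measurable χ).norm.pow_const 2).div (measurable_id.pow_const 2)).aestronglyMeasurable
  · refine (ae_restrict_mem measurableSet_Ioc).mono fun t ht => ?_
    have ht0 : 0 < t := lt_trans hX ht.1
    rw [Real.norm_of_nonneg (by positivity)]
    have h5 := psi_norm_le χ ht.2
    rw [← hD] at h5
    have := ht.1.le
    gcongr

/-- a point of `(U, 2U]` where `ψ` is small -/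
lemma choose_pt {q : ℕ} (χ : DirichletCharacter ℂ q) {U η : ℝ} (hU : 0 < U) (hη : 0 ≤ η)
    (h : ∫ x in Ioc U (2 * U), ‖psi χ x‖ ^ 2 / x ^ 2 ≤ η ^ 2) :
    ∃ x ∈ Ioc U (2 * U), ‖psi χ x‖ ≤ 2 * η * Real.sqrt x := by
  by_contra hcon
  push Not at hcon
  have h1 : ∫ _ in Ioc U (2 * U), 2 * η ^ 2 / U ≤ ∫ x in Ioc U (2 * U), ‖psi χ x‖ ^ 2 / x ^ 2 := by
    apply setIntegral_mono_on (by simp) (int_psi_sq χ hU _) measurableSet_Ioc
    intro x hx
    have hx0 : 0 < x := lt_trans hU hx.1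
    have h2 := (hcon x hx).le
    have h3 : (2 * η * Real.sqrt x) ^ 2 ≤ ‖psi χ x‖ ^ 2 :=
      pow_le_pow_left₀ (by positivity) h2 2
    rw [mul_pow, mul_pow, Real.sq_sqrt hx0.le] at h3
    rw [div_le_div_iff₀ hU (by positivity)]
    calc 2 * η ^ 2 * x ^ 2 = η ^ 2 * x * (2 * x) := by ring
      _ ≤ η ^ 2 * x * (2 * (2 * U)) := by gcongr; exact hx.2
      _ = 2 ^ 2 * η ^ 2 * x * U := by ring
      _ ≤ ‖psi χ x‖ ^ 2 * U := by gcongr
  rw [setIntegral_const] at h1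
  simp only [smul_eq_mul] at h1
  have h4 : (volume : Measure ℝ).real (Ioc U (2 * U)) = U := by
    rw [Real.volume_real_Ioc_of_le (by linarith)]; ring
  rw [h4] at h1
  have h5 : U * (2 * η ^ 2 / U) = 2 * η ^ 2 := by field_simp
  rw [h5] at h1
  have h6 : η ^ 2 ≤ 0 := by linarith
  have h7 : η = 0 := by
    have := sq_nonneg η
    exact pow_eq_zero_iff two_ne_zero |>.mp (le_antisymm h6 this)
  -- then the integral vanishes and `ψ` vanishes somewhere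
  subst h7
  have h8 : ∫ x in Ioc U (2 * U), ‖psi χ x‖ ^ 2 / x ^ 2 = 0 := by
    apply le_antisymm
    · simpa using h
    · exact setIntegral_nonneg measurableSet_Ioc fun x _ => by positivity
  have h9 : 0 < ∫ x in Ioc U (2 * U), ‖psi χ x‖ ^ 2 / x ^ 2 := by
    rw [setIntegral_pos_iff_support_of_nonneg_ae]
    · have : Function.support (fun x : ℝ => ‖psi χ x‖ ^ 2 / x ^ 2) ∩ Ioc U (2 * U) = Ioc U (2 * U) := by
        apply inter_eq_right.mpr
        intro x hx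
        have hx0 : 0 < x := lt_trans hU hx.1
        have h2 := hcon x hx
        rw [mul_zero, zero_mul] at h2
        rw [Function.mem_support]
        positivity
      rw [this, Real.volume_Ioc]
      simp [hU]
    · exact Eventually.of_forall fun x => by positivity
    · exact int_psi_sq χ hU _
  rw [h8] at h9
  exact lt_irrefl _ h9

lemma smallOn_of {q : ℕ} (χ : DirichletCharacter ℂ q) {X Y η : ℝ} (hX : 1 ≤ X) (hη : 0 < η)
    (hXY : 4 * X ≤ Y) (h : ∫ x in Ioc X Y, ‖psi χ x‖ ^ 2 / x ^ 2 ≤ η ^ 2) :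
    ∃ X' Y' : ℝ, X ≤ X' ∧ X' ≤ 2 * X ∧ Y / 2 ≤ Y' ∧ Y' ≤ Y ∧ SmallOn χ X' Y' (2 * η) := by
  have hX0 : 0 < X := by linarith
  have hY0 : 0 < Y := by linarith
  have hnn : ∀ s : Set ℝ, 0 ≤ᵐ[volume.restrict s] fun x : ℝ => ‖psi χ x‖ ^ 2 / x ^ 2 :=
    fun s => Eventually.of_forall fun x => by positivity
  have h1 : ∫ x in Ioc X (2 * X), ‖psi χ x‖ ^ 2 / x ^ 2 ≤ η ^ 2 := by
    refine le_trans (setIntegral_mono_set (int_psi_sq χ hX0 Y) (hnn _) ?_) h
    exact (Ioc_subset_Ioc_right (by linarith)).eventuallyLE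
  have h2 : ∫ x in Ioc (Y / 2) (2 * (Y / 2)), ‖psi χ x‖ ^ 2 / x ^ 2 ≤ η ^ 2 := by
    refine le_trans (setIntegral_mono_set (int_psi_sq χ hX0 Y) (hnn _) ?_) h
    have e : 2 * (Y / 2) = Y := by ring
    rw [e]
    exact (Ioc_subset_Ioc_left (by linarith)).eventuallyLE
  obtain ⟨X', hX', hX2⟩ := choose_pt χ hX0 hη.le h1
  obtain ⟨Y', hY', hY2⟩ := choose_pt χ (by linarith : 0 < Y / 2) hη.le h2
  refine ⟨X', Y', hX'.1.le, hX'.2, hY'.1.le, by linarith [hY'.2], hX2, hY2, ?_⟩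
  have h3 : ∫ x in Ioc X' Y', ‖psi χ x‖ ^ 2 / x ^ 2 ≤ ∫ x in Ioc X Y, ‖psi χ x‖ ^ 2 / x ^ 2 := by
    apply setIntegral_mono_set (int_psi_sq χ hX0 Y) (hnn _)
    exact (Ioc_subset_Ioc hX'.1.le (by linarith [hY'.2])).eventuallyLE
  nlinarith

/-- the set of primitive characters with small mean square of `ψ(x, χ)` over the window -/
noncomputable def BadSet (q : ℕ) [NeZero q] (X Y η : ℝ) : Finset (DirichletCharacter ℂ q) := by
  classical
  exact (Prim q).filter (fun χ => ∫ x in Ioc X Y, ‖psi χ x‖ ^ 2 / x ^ 2 ≤ η)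

lemma aux_exp {u : ℝ} (hu : 40 ≤ u) : 1 + u ^ 3 ≤ Real.exp (u / 2) := by
  have h1 := Real.pow_div_factorial_le_exp (u / 2) (by linarith) 6
  have h2 : (Nat.factorial 6 : ℝ) = 720 := by norm_num [Nat.factorial]
  rw [h2] at h1
  refine le_trans ?_ h1
  rw [le_div_iff₀ (by norm_num)]
  have h3 : (40 : ℝ) ^ 3 ≤ u ^ 3 := by gcongr
  have h4 : (u / 2) ^ 6 = u ^ 3 * u ^ 3 / 64 := by ring
  rw [h4]
  nlinarith

theorem chars_main (A δ : ℝ) (hA : 0 < A) (hδ : 0 < δ) : ∃ C : ℝ, 0 < C ∧ ∀ (q : ℕ) [NeZero q],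
    3 ≤ q → ∀ κ X : ℝ, 0 < κ → κ ≤ 1 / 16 → 1 ≤ X → X ≤ (q : ℝ) ^ A →
    ((BadSet q X (X * (q : ℝ) ^ (1 + δ)) (Real.exp (-(C * κ * Real.log q)))).card : ℝ) ≤
      C * q.totient / (κ ^ 3 * Real.log q ^ 2) := by
  obtain ⟨A', hA'⟩ : ∃ A' : ℝ, A' = A + 2 + δ := ⟨_, rfl⟩
  obtain ⟨C0, hC0, hcb⟩ := count_bound A' (δ / 2) (by linarith) (by linarith)
  obtain ⟨C, hC⟩ : ∃ C : ℝ, C = C0 + 4 * A' + 8 + (64000 + 4 / δ) ^ 2 := ⟨_, rfl⟩
  have hδ' : 0 < 4 / δ := by positivity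
  have hC1 : C0 ≤ C := by rw [hC]; nlinarith
  have hC2 : 4 * A' + 8 ≤ C := by rw [hC]; nlinarith
  have hC3 : (64000 + 4 / δ) ^ 2 ≤ C := by rw [hC]; nlinarith
  have hCpos : 0 < C := by linarith
  refine ⟨C, hCpos, ?_⟩
  intro q _ hq κ X hκ hκ1 hX hXA
  have hq0 : (0 : ℝ) < q := by exact_mod_cast NeZero.pos q
  have hq1 : (1 : ℝ) ≤ q := by exact_mod_cast NeZero.one_le
  have hℓ1 : 1 ≤ Real.log q := by
    rw [Real.le_log_iff_exp_le hq0]
    have h1 := Real.exp_one_lt_d9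
    have h2 : (3 : ℝ) ≤ q := by exact_mod_cast hq
    linarith
  obtain ⟨ℓ, hℓ⟩ : ∃ ℓ : ℝ, ℓ = Real.log q := ⟨_, rfl⟩
  rw [← hℓ] at hℓ1 ⊢
  have hℓ0 : 0 < ℓ := by linarith
  have hqexp : ∀ u : ℝ, (q : ℝ) ^ u = Real.exp (ℓ * u) := by
    intro u; rw [Real.rpow_def_of_pos hq0, ← hℓ]
  set S := BadSet q X (X * (q : ℝ) ^ (1 + δ)) (Real.exp (-(C * κ * ℓ))) with hS
  have hSP : S ⊆ Prim q := by
    rw [hS]; unfold BadSet
    exact Finset.filter_subset _ _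
  have hF0 : (0 : ℝ) ≤ q.totient := Nat.cast_nonneg _
  have htriv : (S.card : ℝ) ≤ q.totient := by
    have : (S.card : ℝ) ≤ (Prim q).card := by exact_mod_cast Finset.card_le_card hSP
    exact this.trans (card_Prim_le q)
  have hκ30 : 0 < κ ^ 3 := by positivity
  have hκ3 : κ ^ 3 ≤ 1 := pow_le_one₀ hκ.le (by linarith)
  by_cases hcase : κ ^ 3 * ℓ ^ 2 ≤ C
  · rw [le_div_iff₀ (by positivity)]
    calc (S.card : ℝ) * (κ ^ 3 * ℓ ^ 2) ≤ q.totient * C := by gcongr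
      _ = _ := mul_comm _ _
  · push Not at hcase
    -- now `ℓ` is large and `κ ≥ ℓ^{-2/3}`
    have hℓ2 : C ≤ ℓ ^ 2 := by nlinarith
    have hℓ3 : 64000 + 4 / δ ≤ ℓ := by
      have : (64000 + 4 / δ) ^ 2 ≤ ℓ ^ 2 := hC3.trans hℓ2
      exact (pow_le_pow_iff_left₀ (by positivity) hℓ0.le two_ne_zero).mp this
    obtain ⟨u, hu⟩ : ∃ u : ℝ, u = ℓ ^ (1 / 3 : ℝ) := ⟨_, rfl⟩
    have hu0 : 0 < u := by rw [hu]; positivity
    have hu3 : u ^ 3 = ℓ := by
      rw [hu, ← Real.rpow_natCast, ← Real.rpow_mul hℓ0.le]; norm_num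
    have hu40 : 40 ≤ u := by
      by_contra h
      push Not at h
      have : u ^ 3 < 40 ^ 3 := pow_lt_pow_left₀ h hu0.le (by norm_num)
      rw [hu3] at this
      linarith
    have hκu : 1 ≤ κ * u ^ 2 := by
      have h1 : 1 ≤ (κ * u ^ 2) ^ 3 := by
        have : (κ * u ^ 2) ^ 3 = κ ^ 3 * ℓ ^ 2 := by rw [mul_pow, ← hu3]; ring
        rw [this]
        have : 1 ≤ C := by linarith
        linarith
      by_contra h
      push Not at h
      have h0 : 0 ≤ κ * u ^ 2 := by positivity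
      have : (κ * u ^ 2) ^ 3 < 1 := pow_lt_one₀ h0 h (by norm_num)
      linarith
    have hκℓ : u ≤ κ * ℓ := by
      rw [← hu3]
      calc u = 1 * u := (one_mul u).symm
        _ ≤ (κ * u ^ 2) * u := by gcongr
        _ = _ := by ring
    -- the conditions of the counting theorem
    obtain ⟨η, hη⟩ : ∃ η : ℝ, η = Real.exp (-(C * κ * ℓ) / 2) := ⟨_, rfl⟩
    have hη0 : 0 < η := by rw [hη]; exact Real.exp_pos _
    have hη2 : η ^ 2 = Real.exp (-(C * κ * ℓ)) := by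
      rw [hη, ← Real.exp_nat_mul]; congr 1; push_cast; ring
    have c1 : (1 + Real.log q) * (q : ℝ) ^ (-(κ / 2)) ≤ 1 := by
      rw [← hℓ, hqexp]
      have h1 : 1 + ℓ ≤ Real.exp (ℓ * (κ / 2)) := by
        rw [← hu3]
        refine (aux_exp hu40).trans (Real.exp_le_exp.mpr ?_)
        rw [hu3]
        linarith
      have h2 : Real.exp (ℓ * -(κ / 2)) = (Real.exp (ℓ * (κ / 2)))⁻¹ := by
        rw [← Real.exp_neg]; congr 1; ring
      rw [h2, mul_inv_le_iff₀ (Real.exp_pos _)]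
      linarith
    have c2 : (2 * η) * (q : ℝ) ^ (2 * A' * κ) ≤ Real.sqrt κ := by
      rw [hqexp, hη]
      have h1 : Real.exp (-(C * κ * ℓ) / 2) * Real.exp (ℓ * (2 * A' * κ)) ≤ Real.exp (-(4 * u)) := by
        rw [← Real.exp_add]
        apply Real.exp_le_exp.mpr
        have h2 : (4 * A' + 8) * (κ * ℓ) ≤ C * (κ * ℓ) := by
          have : 0 ≤ κ * ℓ := by positivity
          gcongr
        nlinarith
      have h2 : 1 / u ≤ Real.sqrt κ := by
        apply Real.le_sqrt_of_sq_le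
        rw [div_pow, one_pow, div_le_iff₀ (by positivity)]
        exact hκu
      have h3 : 2 * Real.exp (-(4 * u)) ≤ 1 / u := by
        rw [le_div_iff₀ hu0, Real.exp_neg]
        have h4 := Real.add_one_le_exp (4 * u)
        have h5 : 2 * (Real.exp (4 * u))⁻¹ * u = (2 * u) / Real.exp (4 * u) := by
          rw [div_eq_mul_inv]; ring
        rw [h5, div_le_one (Real.exp_pos _)]
        linarith
      calc 2 * Real.exp (-(C * κ * ℓ) / 2) * Real.exp (ℓ * (2 * A' * κ))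
          = 2 * (Real.exp (-(C * κ * ℓ) / 2) * Real.exp (ℓ * (2 * A' * κ))) := by ring
        _ ≤ 2 * Real.exp (-(4 * u)) := by gcongr
        _ ≤ 1 / u := h3
        _ ≤ _ := h2
    have h4q : 4 ≤ (q : ℝ) ^ (δ / 2) := by
      rw [hqexp]
      have h1 : 4 / δ ≤ ℓ := by linarith
      have h2 : 2 ≤ ℓ * (δ / 2) := by
        have h3 : 4 / δ * (δ / 2) ≤ ℓ * (δ / 2) := by gcongr
        have h4 : 4 / δ * (δ / 2) = 2 := by field_simp; norm_num
        linarith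
      have h3 : Real.exp 2 ≤ Real.exp (ℓ * (δ / 2)) := Real.exp_le_exp.mpr h2
      have h4 : (4 : ℝ) ≤ Real.exp 2 := by
        have := Real.exp_one_gt_d9
        have e : Real.exp 2 = Real.exp 1 * Real.exp 1 := by rw [← Real.exp_add]; norm_num
        rw [e]; nlinarith
      linarith
    have hsplit : (q : ℝ) ^ (1 + δ) = (q : ℝ) ^ (1 + δ / 2) * (q : ℝ) ^ (δ / 2) := by
      rw [← Real.rpow_add hq0]; congr 1; ring
    have hqd : 1 ≤ (q : ℝ) ^ (1 + δ / 2) := Real.one_le_rpow hq1 (by linarith)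
    have hmain := hcb q hq κ (2 * η) hκ hκ1 c1 (by linarith) c2 S hSP (by
      intro χ hχ
      have hχ' : ∫ x in Ioc X (X * (q : ℝ) ^ (1 + δ)), ‖psi χ x‖ ^ 2 / x ^ 2 ≤ η ^ 2 := by
        rw [hη2]
        rw [hS] at hχ
        unfold BadSet at hχ
        exact (Finset.mem_filter.mp hχ).2
      obtain ⟨X', Y', h1, h2, h3, h4, h5⟩ := smallOn_of χ hX hη0 (by
        rw [hsplit]
        have : 1 * 4 ≤ (q : ℝ) ^ (1 + δ / 2) * (q : ℝ) ^ (δ / 2) := by gcongr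
        nlinarith) hχ'
      refine ⟨X', Y', by linarith, ?_, ?_, h5⟩
      · calc X' * (q : ℝ) ^ (1 + δ / 2) ≤ (2 * X) * (q : ℝ) ^ (1 + δ / 2) := by gcongr
          _ = (X * (q : ℝ) ^ (1 + δ / 2) * 4) / 2 := by ring
          _ ≤ (X * (q : ℝ) ^ (1 + δ / 2) * (q : ℝ) ^ (δ / 2)) / 2 := by gcongr
          _ = (X * (q : ℝ) ^ (1 + δ)) / 2 := by rw [hsplit]; ring
          _ ≤ Y' := h3
      · refine h4.trans ?_
        calc X * (q : ℝ) ^ (1 + δ) ≤ (q : ℝ) ^ A * (q : ℝ) ^ (1 + δ) := by gcongr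
          _ = (q : ℝ) ^ (A + (1 + δ)) := by rw [← Real.rpow_add hq0]
          _ ≤ (q : ℝ) ^ A' := Real.rpow_le_rpow_of_exponent_le hq1 (by rw [hA']; linarith))
    rw [← hℓ] at hmain
    refine hmain.trans ?_
    gcongr

end Pool.Agent.NH13
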