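import Pool.Agent.NH13.AllChars
import Pool.Agent.H256R2.SC.L

/-!
# From characters to residue classes
-/

set_option autoImplicit false

open Complex MeasureTheory Set Filter Topology

namespace Pool.Agent.NH13

open ArithmeticFunction (vonMangoldt)

/-- `φ(q) ≥ c q / log log q` -/
theorem tot_lower : ∃ c : ℝ, 0 < c ∧ ∀ q : ℕ, 16 ≤ q →
    c * q / Real.log (Real.log q) ≤ (q.totient : ℝ) := by
  obtain ⟨C, hC⟩ := Pool.Agent.Helper256.KM.mertens_inv
  refine ⟨(Real.exp (C + 2) * 4)⁻¹, by positivity, ?_⟩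
  intro q hq
  have hq0 : (0 : ℝ) < q := by exact_mod_cast (by omega : 0 < q)
  have hlogq : Real.exp 1 ≤ Real.log q := by
    have h1 : Real.log 16 ≤ Real.log q := Real.log_le_log (by norm_num) (by exact_mod_cast hq)
    have h2 : Real.log 16 = 4 * Real.log 2 := by
      rw [show (16 : ℝ) = 2 ^ 4 by norm_num, Real.log_pow]; norm_num
    have h3 := Real.log_two_gt_d9
    have h4 := Real.exp_one_lt_d9
    linarith
  have hll : 1 ≤ Real.log (Real.log q) := by
    rw [Real.le_log_iff_exp_le (by linarith [Real.exp_pos 1])]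
    exact hlogq
  have he := Real.exp_one_gt_d9
  set y₁ : ℝ := 4 * Real.log q with hy₁
  have hy : 3 ≤ y₁ := by rw [hy₁]; linarith
  have h1 := Pool.Agent.H256R2.SC.LL.bad_prod C hC y₁ hy q.primeFactors (by
    have := omega_le q (by omega)
    rw [hy₁]; linarith)
  have h2 : ∏ p ∈ q.primeFactors, (1 - (p : ℝ)⁻¹)⁻¹ ≤
      ∏ p ∈ ((Finset.Icc 1 ⌊y₁⌋₊) ∪ q.primeFactors.filter (fun p : ℕ => y₁ < p)) with p.Prime,
      (1 - (p : ℝ)⁻¹)⁻¹ := by
    apply Finset.prod_le_prod_of_subset_of_one_le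
    · intro p hp
      have hpp := Nat.prime_of_mem_primeFactors hp
      rw [Finset.mem_filter, Finset.mem_union, Finset.mem_Icc, Finset.mem_filter]
      refine ⟨?_, hpp⟩
      rcases le_or_gt (p : ℝ) y₁ with h | h
      · left; exact ⟨hpp.one_lt.le, Nat.le_floor h⟩
      · right; exact ⟨hp, h⟩
    · intro p hp
      exact (Pool.Agent.H256R2.SC.LL.fac_pos p (Nat.prime_of_mem_primeFactors hp)).le
    · intro p hp _
      rw [Finset.mem_filter] at hp
      have h2 : (2 : ℝ) ≤ p := by exact_mod_cast hp.2.two_le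
      rw [one_le_inv₀]
      · have : 0 < (p : ℝ)⁻¹ := by positivity
        linarith
      · have : (p : ℝ)⁻¹ < 1 := inv_lt_one_of_one_lt₀ (by linarith)
        linarith
  have h3 : (q : ℝ) = q.totient * ∏ p ∈ q.primeFactors, (1 - (p : ℝ)⁻¹)⁻¹ := by
    have h4 := Nat.totient_eq_mul_prod_factors q
    have h5 : (q.totient : ℝ) = q * ∏ p ∈ q.primeFactors, (1 - (p : ℝ)⁻¹) := by
      have h6 := congrArg (fun x : ℚ => (x : ℝ)) h4
      push_cast at h6
      exact h6
    rw [h5, mul_assoc, ← Finset.prod_mul_distrib]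
    have : ∏ p ∈ q.primeFactors, ((1 - (p : ℝ)⁻¹) * (1 - (p : ℝ)⁻¹)⁻¹) = 1 := by
      apply Finset.prod_eq_one
      intro p hp
      have h2 : (2 : ℝ) ≤ p := by exact_mod_cast (Nat.prime_of_mem_primeFactors hp).two_le
      have : (p : ℝ)⁻¹ < 1 := inv_lt_one_of_one_lt₀ (by linarith)
      exact mul_inv_cancel₀ (by linarith)
    rw [this, mul_one]
  have h4 : Real.log y₁ ≤ 4 * Real.log (Real.log q) := by
    rw [hy₁, Real.log_mul (by norm_num) (by linarith)]
    have h5 : Real.log 4 ≤ 3 := by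
      have := Real.log_le_sub_one_of_pos (show (0 : ℝ) < 4 by norm_num)
      linarith
    linarith
  have h5 : (q : ℝ) ≤ q.totient * (Real.exp (C + 2) * (4 * Real.log (Real.log q))) := by
    calc (q : ℝ) = q.totient * ∏ p ∈ q.primeFactors, (1 - (p : ℝ)⁻¹)⁻¹ := h3
      _ ≤ q.totient * (Real.exp (C + 2) * (4 * Real.log (Real.log q))) := by
          gcongr
          refine (h2.trans h1).trans ?_
          gcongr
  rw [div_le_iff₀ (by linarith), inv_mul_le_iff₀ (by positivity)]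
  calc (q : ℝ) ≤ q.totient * (Real.exp (C + 2) * (4 * Real.log (Real.log q))) := h5
    _ = _ := by ring

/-- `ψ(x; q, a)` -/
noncomputable def psiAP (x : ℝ) (q a : ℕ) : ℝ :=
  ∑ n ∈ (Finset.Icc 1 ⌊x⌋₊).filter (fun n => n % q = a), vonMangoldt n

/-- the sum of the squares of the errors over the reduced classes -/
noncomputable def VV (x : ℝ) (q : ℕ) : ℝ :=
  ∑ a ∈ (Finset.range q).filter (fun a => a.Coprime q), (psiAP x q a - x / q.totient) ^ 2

lemma sum_zmod {q : ℕ} [NeZero q] {M : Type*} [AddCommMonoid M] (g : ℕ → M) :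
    ∑ a : ZMod q, g a.val = ∑ n ∈ Finset.range q, g n := by
  have h : (Finset.univ : Finset (ZMod q)) = (Finset.range q).image (fun n : ℕ => (n : ZMod q)) := by
    ext a
    simp only [Finset.mem_univ, Finset.mem_image, Finset.mem_range, true_iff]
    exact ⟨a.val, ZMod.val_lt a, ZMod.natCast_zmod_val a⟩
  rw [h, Finset.sum_image]
  · apply Finset.sum_congr rfl
    intro n hn
    rw [Finset.mem_range] at hn
    rw [ZMod.val_cast_of_lt hn]
  · intro a ha b hb hab
    rw [Finset.mem_coe, Finset.mem_range] at ha hb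
    have := congrArg ZMod.val hab
    rwa [ZMod.val_cast_of_lt ha, ZMod.val_cast_of_lt hb] at this

lemma psi_classes {q : ℕ} [NeZero q] (χ : DirichletCharacter ℂ q) (x : ℝ) :
    psi χ x = ∑ a : ZMod q, χ a * ((psiAP x q a.val : ℝ) : ℂ) := by
  unfold psi psiAP
  rw [← Finset.sum_fiberwise_of_maps_to (g := fun n : ℕ => (n : ZMod q))
    (t := (Finset.univ : Finset (ZMod q))) (fun _ _ => Finset.mem_univ _)]
  apply Finset.sum_congr rfl
  intro a _
  push_cast
  rw [Finset.mul_sum]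
  have h : (Finset.Icc 1 ⌊x⌋₊).filter (fun n : ℕ => (n : ZMod q) = a) =
      (Finset.Icc 1 ⌊x⌋₊).filter (fun n => n % q = a.val) := by
    apply Finset.filter_congr
    intro n _
    constructor
    · intro h; rw [← h, ZMod.val_natCast]
    · intro h
      have : ((n % q : ℕ) : ZMod q) = (a.val : ZMod q) := by rw [h]
      rwa [ZMod.natCast_mod, ZMod.natCast_zmod_val] at this
  rw [← h]
  apply Finset.sum_congr rfl
  intro n hn
  rw [(Finset.mem_filter.mp hn).2, mul_comm]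

/-- Bessel's inequality for the error terms -/
theorem bessel_VV {q : ℕ} [NeZero q] (x : ℝ) (S : Finset (DirichletCharacter ℂ q)) (hS : 1 ∉ S) :
    ∑ χ ∈ S, ‖psi χ x‖ ^ 2 ≤ q.totient * VV x q := by
  classical
  let C : ZMod q → ℂ := fun a => if a.val.Coprime q then
    ((psiAP x q a.val - x / q.totient : ℝ) : ℂ) else 0
  have h1 : ∀ χ ∈ S, psi χ x = ∑ a, χ a * C a := by
    intro χ hχ
    have hne : χ ≠ 1 := fun h => hS (h ▸ hχ)
    have h0 : ∑ a : ZMod q, χ a = 0 := MulChar.sum_eq_zero_of_ne_one hne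
    have h2 : ∀ a : ZMod q, χ a * C a = χ a * ((psiAP x q a.val : ℝ) : ℂ) -
        χ a * ((x / q.totient : ℝ) : ℂ) := by
      intro a
      simp only [C]
      split_ifs with h
      · push_cast; ring
      · have : χ a = 0 := by
          apply MulChar.map_nonunit
          intro hu
          apply h
          have := (ZMod.isUnit_iff_coprime a.val q).mp (by rwa [ZMod.natCast_zmod_val])
          exact this
        rw [this]; ring
    rw [Finset.sum_congr rfl fun a _ => h2 a, Finset.sum_sub_distrib, ← Finset.sum_mul, h0, zero_mul,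
      sub_zero, psi_classes]
  have h2 : ∑ a : ZMod q, ‖C a‖ ^ 2 = VV x q := by
    unfold VV
    rw [Finset.sum_filter]
    have := sum_zmod (q := q) (fun a : ℕ => if a.Coprime q then
      (psiAP x q a - x / q.totient) ^ 2 else 0)
    rw [← this]
    apply Finset.sum_congr rfl
    intro a _
    simp only [C]
    split_ifs with h
    · rw [norm_real, Real.norm_eq_abs, sq_abs]
    · simp
  calc ∑ χ ∈ S, ‖psi χ x‖ ^ 2 = ∑ χ ∈ S, ‖∑ a, χ a * C a‖ ^ 2 :=
        Finset.sum_congr rfl fun χ hχ => by rw [h1 χ hχ]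
    _ ≤ ∑ χ : DirichletCharacter ℂ q, ‖∑ a, χ a * C a‖ ^ 2 :=
        Finset.sum_le_sum_of_subset_of_nonneg (Finset.subset_univ _) fun _ _ _ => by positivity
    _ ≤ (q.totient : ℝ) * ∑ a, ‖C a‖ ^ 2 := Pool.Agent.H442R2.TSM.TaskQJ.planch q C
    _ = _ := by rw [h2]

lemma psiAP_meas (q a : ℕ) : Measurable (fun x : ℝ => psiAP x q a) := by
  have h : Measurable (fun m : ℕ => ∑ n ∈ (Finset.Icc 1 m).filter (fun n => n % q = a),
      vonMangoldt n) := measurable_from_nat
  exact h.comp Nat.measurable_floor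

lemma VV_meas (q : ℕ) : Measurable (fun x : ℝ => VV x q) := by
  unfold VV
  apply Finset.measurable_sum
  intro a _
  exact ((psiAP_meas q a).sub (measurable_id.div_const _)).pow_const 2

lemma VV_nonneg (x : ℝ) (q : ℕ) : 0 ≤ VV x q := Finset.sum_nonneg fun _ _ => sq_nonneg _

lemma int_VV (q : ℕ) {X : ℝ} (hX : 0 < X) (Y : ℝ) :
    IntegrableOn (fun x : ℝ => VV x q / x ^ 2) (Ioc X Y) := by
  obtain ⟨D, hD⟩ : ∃ D, D = ∑ n ∈ Finset.Icc 1 ⌊Y⌋₊, vonMangoldt n := ⟨_, rfl⟩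
  refine Measure.integrableOn_of_bounded (M := (q * (D + |Y|) ^ 2) / X ^ 2) (by simp) ?_ ?_
  · exact ((VV_meas q).div (measurable_id.pow_const 2)).aestronglyMeasurable
  · refine (ae_restrict_mem measurableSet_Ioc).mono fun t ht => ?_
    have ht0 : 0 < t := lt_trans hX ht.1
    rw [Real.norm_of_nonneg (div_nonneg (VV_nonneg _ _) (by positivity))]
    have h1 : VV t q ≤ q * (D + |Y|) ^ 2 := by
      unfold VV
      have h2 : ∀ a ∈ (Finset.range q).filter (fun a => a.Coprime q),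
          (psiAP t q a - t / q.totient) ^ 2 ≤ (D + |Y|) ^ 2 := by
        intro a _
        have h3 : 0 ≤ psiAP t q a := Finset.sum_nonneg fun _ _ =>
          ArithmeticFunction.vonMangoldt_nonneg
        have h4 : psiAP t q a ≤ D := by
          rw [hD]
          unfold psiAP
          apply Finset.sum_le_sum_of_subset_of_nonneg
          · intro n hn
            rw [Finset.mem_filter] at hn
            exact Finset.Icc_subset_Icc_right (Nat.floor_mono ht.2) hn.1
          · intro n _ _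
            exact ArithmeticFunction.vonMangoldt_nonneg
        have h5 : 0 ≤ t / q.totient := by positivity
        have h6 : t / q.totient ≤ |Y| := by
          rcases Nat.eq_zero_or_pos q.totient with h | h
          · rw [h]; simp
          · have : (1 : ℝ) ≤ q.totient := by exact_mod_cast h
            exact (div_le_self ht0.le this).trans (ht.2.trans (le_abs_self _))
        exact sq_le_sq' (by linarith) (by linarith [abs_nonneg Y])
      refine (Finset.sum_le_sum h2).trans ?_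
      rw [Finset.sum_const, nsmul_eq_mul]
      gcongr
      calc ((Finset.range q).filter (fun a => a.Coprime q)).card ≤ (Finset.range q).card :=
            Finset.card_filter_le _ _
        _ = q := Finset.card_range q
    have := ht.1.le
    gcongr

/-- the exponent: `(log q · log log q)^{1/3}` -/
noncomputable def Mexp (q : ℕ) : ℝ := (Real.log q * Real.log (Real.log q)) ^ (1 / 3 : ℝ)

theorem classes_main (A δ : ℝ) (hA : 0 < A) (hδ : 0 < δ) : ∃ C : ℝ, 0 < C ∧ ∃ q₀ : ℕ, ∀ q : ℕ,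
    q₀ ≤ q → ∀ X : ℝ, (q : ℝ) ^ δ ≤ X → X ≤ (q : ℝ) ^ A →
    Real.exp (-(C * Mexp q)) ≤ ∫ x in Ioc X (X * (q : ℝ) ^ (1 + δ)), VV x q / x ^ 2 := by
  obtain ⟨C, hC, hall⟩ := all_chars A δ hA hδ
  obtain ⟨c, hc, htot⟩ := tot_lower
  obtain ⟨lam, hlam⟩ : ∃ lam : ℝ, lam = 4 * C / c + 1 := ⟨_, rfl⟩
  have hlam1 : 1 ≤ lam := by
    rw [hlam]; have : 0 ≤ 4 * C / c := by positivity
    linarith
  have hlam3 : 4 * C / c ≤ lam ^ 3 := by
    have h1 : lam ≤ lam ^ 3 := le_self_pow₀ hlam1 (by norm_num)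
    linarith
  refine ⟨C * lam + 1, by positivity, max 16 (max ⌈Real.exp (lam ^ 3)⌉₊ ⌈(8 / c) ^ 2⌉₊), ?_⟩
  intro q hq X hXδ hXA
  have hq16 : 16 ≤ q := (le_max_left _ _).trans hq
  have hqe : Real.exp (lam ^ 3) ≤ q := by
    have h1 : ⌈Real.exp (lam ^ 3)⌉₊ ≤ q := ((le_max_left _ _).trans (le_max_right _ _)).trans hq
    exact (Nat.le_ceil _).trans (by exact_mod_cast h1)
  have hqc : (8 / c) ^ 2 ≤ q := by
    have h1 : ⌈(8 / c) ^ 2⌉₊ ≤ q := ((le_max_right _ _).trans (le_max_right _ _)).trans hq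
    exact (Nat.le_ceil _).trans (by exact_mod_cast h1)
  have : NeZero q := ⟨by omega⟩
  have hq0 : (0 : ℝ) < q := by exact_mod_cast (by omega : 0 < q)
  have hq1 : (1 : ℝ) ≤ q := by exact_mod_cast (by omega : 1 ≤ q)
  obtain ⟨ℓ, hℓ⟩ : ∃ ℓ : ℝ, ℓ = Real.log q := ⟨_, rfl⟩
  obtain ⟨m, hm⟩ : ∃ m : ℝ, m = Real.log ℓ := ⟨_, rfl⟩
  have hℓe : Real.exp 1 ≤ ℓ := by
    have h1 : Real.log 16 ≤ Real.log q := Real.log_le_log (by norm_num) (by exact_mod_cast hq16)
    have h2 : Real.log 16 = 4 * Real.log 2 := by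
      rw [show (16 : ℝ) = 2 ^ 4 by norm_num, Real.log_pow]; norm_num
    have h3 := Real.log_two_gt_d9
    have h4 := Real.exp_one_lt_d9
    rw [hℓ]; linarith
  have he := Real.exp_one_gt_d9
  have hℓ0 : 0 < ℓ := by linarith
  have hm1 : 1 ≤ m := by
    rw [hm, Real.le_log_iff_exp_le hℓ0]; exact hℓe
  have hmℓ : m ≤ ℓ := by
    rw [hm]; have := Real.log_le_sub_one_of_pos hℓ0; linarith
  have hℓlam : lam ^ 3 ≤ ℓ := by
    rw [hℓ, Real.le_log_iff_exp_le hq0]; exact hqe
  obtain ⟨M, hM⟩ : ∃ M : ℝ, M = Mexp q := ⟨_, rfl⟩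
  have hM3 : M ^ 3 = ℓ * m := by
    rw [hM]; unfold Mexp
    rw [← hℓ, ← hm, ← Real.rpow_natCast, ← Real.rpow_mul (by positivity)]
    norm_num
  have hM0 : 0 ≤ M := by
    rw [hM]; unfold Mexp
    rw [← hℓ, ← hm]; positivity
  have hM1 : 1 ≤ M := by
    by_contra h
    push Not at h
    have h1 : M ^ 3 < 1 := pow_lt_one₀ hM0 h (by norm_num)
    rw [hM3] at h1
    nlinarith
  obtain ⟨κ, hκ⟩ : ∃ κ : ℝ, κ = lam * M / ℓ := ⟨_, rfl⟩
  have hκ0 : 0 < κ := by rw [hκ]; positivity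
  have hκℓ : κ * ℓ = lam * M := by rw [hκ]; field_simp
  have hκ3 : κ ^ 3 * ℓ ^ 2 = lam ^ 3 * m := by
    have h1 : κ ^ 3 * ℓ ^ 2 * ℓ = lam ^ 3 * m * ℓ := by
      calc κ ^ 3 * ℓ ^ 2 * ℓ = (κ * ℓ) ^ 3 := by ring
        _ = lam ^ 3 * M ^ 3 := by rw [hκℓ]; ring
        _ = _ := by rw [hM3]; ring
    exact mul_right_cancel₀ hℓ0.ne' h1
  have hκ1 : κ ≤ 1 := by
    by_contra h
    push Not at h
    have h1 : 1 < κ ^ 3 := one_lt_pow₀ h (by norm_num)
    have h2 : ℓ ^ 2 < κ ^ 3 * ℓ ^ 2 := by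
      have : 0 < ℓ ^ 2 := by positivity
      nlinarith
    rw [hκ3] at h2
    have h3 : lam ^ 3 * m ≤ ℓ * ℓ := by
      have : 0 < lam ^ 3 := by positivity
      gcongr
    nlinarith
  have hX1 : 1 ≤ X := (Real.one_le_rpow hq1 hδ.le).trans hXδ
  have hX0 : 0 < X := by linarith
  set Y := X * (q : ℝ) ^ (1 + δ) with hY
  obtain ⟨η, hη⟩ : ∃ η : ℝ, η = Real.exp (-(C * κ * ℓ)) := ⟨_, rfl⟩
  have hη0 : 0 < η := by rw [hη]; exact Real.exp_pos _
  have hbad := hall q (by omega) κ X hκ0 hκ1 hXδ hXA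
  rw [← hY, ← hℓ, ← hη, hκ3] at hbad
  have hφ := htot q hq16
  rw [← hℓ, ← hm] at hφ
  obtain ⟨F, hF⟩ : ∃ F : ℝ, F = (q.totient : ℝ) := ⟨_, rfl⟩
  rw [← hF] at hφ
  have hF4 : 4 ≤ F := by
    refine le_trans ?_ hφ
    rw [le_div_iff₀ (by linarith)]
    have h1 : ℓ ≤ (q : ℝ) ^ (1 / 2 : ℝ) / (1 / 2) := by
      rw [hℓ]; exact Real.log_le_rpow_div hq0.le (by norm_num)
    have h2 : (q : ℝ) ^ (1 / 2 : ℝ) = Real.sqrt q := (Real.sqrt_eq_rpow _).symm
    rw [h2] at h1
    have h3 : 8 / c ≤ Real.sqrt q := Real.le_sqrt_of_sq_le hqc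
    have h4 : Real.sqrt q * Real.sqrt q = q := Real.mul_self_sqrt hq0.le
    have h5 : 8 ≤ c * Real.sqrt q := by
      rw [div_le_iff₀ hc] at h3; linarith
    have h6 : 0 ≤ Real.sqrt q := Real.sqrt_nonneg _
    nlinarith
  have hbad2 : ((BadAll q X Y η).card : ℝ) ≤ F / 4 := by
    refine hbad.trans ?_
    have h1 : C * q / (lam ^ 3 * m) ≤ (c * q / m) / 4 := by
      rw [div_le_div_iff₀ (by positivity) (by norm_num), div_mul_eq_mul_div,
        le_div_iff₀ (by linarith)]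
      have h2 : 4 * C ≤ c * lam ^ 3 := by
        rw [div_le_iff₀ hc] at hlam3; linarith
      have h3 : 0 ≤ q * m := by positivity
      nlinarith
    linarith
  classical
  set S := (Finset.univ \ BadAll q X Y η).erase (1 : DirichletCharacter ℂ q) with hS
  have hS1 : (1 : DirichletCharacter ℂ q) ∉ S := by rw [hS]; exact Finset.notMem_erase _ _
  have hScard : F / 2 ≤ (S.card : ℝ) := by
    have h1 : (Finset.univ \ BadAll q X Y η).card ≤ S.card + 1 := by
      rw [hS]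
      have := Finset.pred_card_le_card_erase (s := Finset.univ \ BadAll q X Y η)
        (a := (1 : DirichletCharacter ℂ q))
      omega
    have h2 : Fintype.card (DirichletCharacter ℂ q) ≤
        (Finset.univ \ BadAll q X Y η).card + (BadAll q X Y η).card := by
      rw [← Finset.card_univ]
      exact Finset.card_le_card_sdiff_add_card
    rw [card_chars] at h2
    have h3 : F ≤ (S.card : ℝ) + 1 + ((BadAll q X Y η).card : ℝ) := by
      rw [hF]
      have := h2.trans (Nat.add_le_add_right h1 _)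
      exact_mod_cast this
    linarith
  have hSη : ∀ χ ∈ S, η ≤ ∫ x in Ioc X Y, ‖psi χ x‖ ^ 2 / x ^ 2 := by
    intro χ hχ
    rw [hS, Finset.mem_erase, Finset.mem_sdiff, mem_BadAll] at hχ
    exact (not_le.mp hχ.2.2).le
  have h1 : (S.card : ℝ) * η ≤ ∑ χ ∈ S, ∫ x in Ioc X Y, ‖psi χ x‖ ^ 2 / x ^ 2 := by
    have := Finset.sum_le_sum hSη
    rwa [Finset.sum_const, nsmul_eq_mul] at this
  have h2 : ∑ χ ∈ S, ∫ x in Ioc X Y, ‖psi χ x‖ ^ 2 / x ^ 2 ≤
      F * ∫ x in Ioc X Y, VV x q / x ^ 2 := by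
    rw [← integral_finsetSum _ (fun χ _ => int_psi_sq χ hX0 Y), ← integral_const_mul]
    apply setIntegral_mono_on (integrable_finsetSum _ fun χ _ => int_psi_sq χ hX0 Y)
      ((int_VV q hX0 Y).const_mul F) measurableSet_Ioc
    intro x hx
    show ∑ χ ∈ S, ‖psi χ x‖ ^ 2 / x ^ 2 ≤ F * (VV x q / x ^ 2)
    rw [← Finset.sum_div, ← mul_div_assoc, hF]
    have := bessel_VV x S hS1
    gcongr
  have h3 : F / 2 * η ≤ F * ∫ x in Ioc X Y, VV x q / x ^ 2 := by
    refine le_trans ?_ (h1.trans h2)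
    gcongr
  have h4 : η / 2 ≤ ∫ x in Ioc X Y, VV x q / x ^ 2 := by
    have : 0 < F := by linarith
    nlinarith
  refine le_trans ?_ h4
  have h5 : Real.exp (-(M : ℝ)) ≤ 1 / 2 := by
    rw [Real.exp_neg, ← one_div]
    apply one_div_le_one_div_of_le (by norm_num)
    have := Real.add_one_le_exp M
    linarith
  rw [← hM]
  calc Real.exp (-((C * lam + 1) * M)) = Real.exp (-(C * κ * ℓ)) * Real.exp (-M) := by
        rw [← Real.exp_add, mul_assoc C κ ℓ, hκℓ]; congr 1; ring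
    _ ≤ Real.exp (-(C * κ * ℓ)) * (1 / 2) := by gcongr
    _ = η / 2 := by rw [hη]; ring

/-- some class has a large error at some point of the window -/
theorem classes_point (A δ : ℝ) (hA : 0 < A) (hδ : 0 < δ) : ∃ C : ℝ, 0 < C ∧ ∃ q₀ : ℕ, ∀ q : ℕ,
    q₀ ≤ q → ∀ X : ℝ, (q : ℝ) ^ δ ≤ X → X ≤ (q : ℝ) ^ A →
    Real.exp (-(C * Mexp q)) ≤ (∫ x in Ioc X (X * (q : ℝ) ^ (1 + δ)), VV x q / x ^ 2) ∧
    ∃ x ∈ Ioc X (X * (q : ℝ) ^ (1 + δ)), x * Real.exp (-(C * Mexp q)) ≤ VV x q ∧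
      ∃ a : ℕ, a < q ∧ a.Coprime q ∧
        Real.sqrt (x / q) * Real.exp (-(C * Mexp q)) ≤ |psiAP x q a - x / q.totient| := by
  obtain ⟨C, hC, q₁, hmain⟩ := classes_main A δ hA hδ
  -- `log q` is absorbed by the exponential
  obtain ⟨L0, hL0⟩ : ∃ L0 : ℝ, ∀ ℓ : ℝ, L0 ≤ ℓ → (1 + δ) * ℓ ≤ Real.exp (ℓ ^ (1 / 3 : ℝ)) := by
    have h1 := Real.tendsto_pow_mul_exp_neg_atTop_nhds_zero 3
    have h2 : Tendsto (fun ℓ : ℝ => ℓ ^ (1 / 3 : ℝ)) atTop atTop := tendsto_rpow_atTop (by norm_num)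
    have h3 := (h1.comp h2).eventually (gt_mem_nhds (show (0 : ℝ) < 1 / (1 + δ) by positivity))
    obtain ⟨L0, hL0⟩ := eventually_atTop.1 h3
    refine ⟨max L0 1, fun ℓ hℓ => ?_⟩
    have h4 := hL0 ℓ ((le_max_left _ _).trans hℓ)
    have hℓ0 : 0 < ℓ := by linarith [le_max_right L0 1]
    simp only [Function.comp] at h4
    rw [← Real.rpow_natCast, ← Real.rpow_mul hℓ0.le, Real.exp_neg] at h4
    norm_num at h4
    rw [← div_eq_mul_inv, div_lt_iff₀ (Real.exp_pos _)] at h4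
    have h5 : 0 < 1 + δ := by linarith
    have h6 : (1 + δ) * ℓ < (1 + δ) * ((1 + δ)⁻¹ * Real.exp (ℓ ^ (1 / 3 : ℝ))) := by gcongr
    rw [← mul_assoc, mul_inv_cancel₀ h5.ne', one_mul] at h6
    exact h6.le
  refine ⟨C + 2, by linarith, max (max q₁ 16) ⌈Real.exp L0⌉₊, ?_⟩
  intro q hq X hXδ hXA
  have hq₁ : q₁ ≤ q := ((le_max_left _ _).trans (le_max_left _ _)).trans hq
  have hq16 : 16 ≤ q := ((le_max_right _ _).trans (le_max_left _ _)).trans hq
  have hqe : Real.exp L0 ≤ q :=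
    (Nat.le_ceil _).trans (by exact_mod_cast (le_max_right _ _).trans hq)
  have hq0 : (0 : ℝ) < q := by exact_mod_cast (by omega : 0 < q)
  have hq1 : (1 : ℝ) ≤ q := by exact_mod_cast (by omega : 1 ≤ q)
  have hint := hmain q hq₁ X hXδ hXA
  obtain ⟨ℓ, hℓ⟩ : ∃ ℓ : ℝ, ℓ = Real.log q := ⟨_, rfl⟩
  have hℓe : Real.exp 1 ≤ ℓ := by
    have h1 : Real.log 16 ≤ Real.log q := Real.log_le_log (by norm_num) (by exact_mod_cast hq16)
    have h2 : Real.log 16 = 4 * Real.log 2 := by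
      rw [show (16 : ℝ) = 2 ^ 4 by norm_num, Real.log_pow]; norm_num
    have h3 := Real.log_two_gt_d9
    have h4 := Real.exp_one_lt_d9
    rw [hℓ]; linarith
  have he := Real.exp_one_gt_d9
  have hℓ0 : 0 < ℓ := by linarith
  have hll : 1 ≤ Real.log ℓ := by
    rw [Real.le_log_iff_exp_le hℓ0]; exact hℓe
  obtain ⟨M, hM⟩ : ∃ M : ℝ, M = Mexp q := ⟨_, rfl⟩
  have hMℓ : ℓ ^ (1 / 3 : ℝ) ≤ M := by
    rw [hM]; unfold Mexp
    rw [← hℓ]
    apply Real.rpow_le_rpow hℓ0.le _ (by norm_num)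
    nlinarith
  have hM0 : 0 ≤ M := le_trans (by positivity) hMℓ
  have hlog : (1 + δ) * ℓ ≤ Real.exp M := by
    have h1 : L0 ≤ ℓ := by rw [hℓ, Real.le_log_iff_exp_le hq0]; exact hqe
    exact (hL0 ℓ h1).trans (Real.exp_le_exp.mpr hMℓ)
  rw [← hM] at hint ⊢
  have hX1 : 1 ≤ X := (Real.one_le_rpow hq1 hδ.le).trans hXδ
  have hX0 : 0 < X := by linarith
  set Y := X * (q : ℝ) ^ (1 + δ) with hY
  have hXY : X ≤ Y := by
    rw [hY]
    exact le_mul_of_one_le_right hX0.le (Real.one_le_rpow hq1 (by linarith))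
  have hM1 : 0 < M := by
    have h1 : 0 < ℓ ^ (1 / 3 : ℝ) := by positivity
    linarith
  obtain ⟨D, hD⟩ : ∃ D : ℝ, D = C + 2 := ⟨_, rfl⟩
  rw [← hD]
  have hDC : Real.exp (-(D * M)) ≤ Real.exp (-(C * M)) := by
    apply Real.exp_le_exp.mpr
    rw [hD]; nlinarith
  refine ⟨hDC.trans hint, ?_⟩
  have hDp : 0 < Real.exp (-(D * M)) := Real.exp_pos _
  -- a point
  have hpt : ∃ x ∈ Ioc X Y, x * Real.exp (-(D * M)) ≤ VV x q := by
    by_contra hcon
    push Not at hcon
    have hI : IntegrableOn (fun x : ℝ => Real.exp (-(D * M)) * x⁻¹) (Ioc X Y) := by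
      have h1 : ContinuousOn (fun x : ℝ => Real.exp (-(D * M)) * x⁻¹) (Icc X Y) := by
        apply ContinuousOn.mul continuousOn_const
        apply ContinuousOn.inv₀ continuousOn_id
        intro x hx
        exact (lt_of_lt_of_le hX0 hx.1).ne'
      exact (h1.integrableOn_Icc).mono_set Ioc_subset_Icc_self
    have h2 : ∫ x in Ioc X Y, VV x q / x ^ 2 ≤ ∫ x in Ioc X Y, Real.exp (-(D * M)) * x⁻¹ := by
      apply setIntegral_mono_on (int_VV q hX0 Y) hI measurableSet_Ioc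
      intro x hx
      have hx0 : 0 < x := lt_trans hX0 hx.1
      have h3 := (hcon x hx).le
      rw [div_le_iff₀ (by positivity)]
      calc VV x q ≤ x * Real.exp (-(D * M)) := h3
        _ = _ := by field_simp
    have h3 : ∫ x in Ioc X Y, Real.exp (-(D * M)) * x⁻¹ = Real.exp (-(D * M)) * ((1 + δ) * ℓ) := by
      rw [integral_const_mul, ← intervalIntegral.integral_of_le hXY,
        integral_inv_of_pos hX0 (lt_of_lt_of_le hX0 hXY), hY, mul_div_cancel_left₀ _ hX0.ne',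
        Real.log_rpow hq0, ← hℓ]
    rw [h3] at h2
    have h4 : Real.exp (-(D * M)) * ((1 + δ) * ℓ) ≤ Real.exp (-(D * M)) * Real.exp M := by gcongr
    have h5 : Real.exp (-(D * M)) * Real.exp M < Real.exp (-(C * M)) := by
      rw [← Real.exp_add]
      apply Real.exp_lt_exp.mpr
      rw [hD]; nlinarith
    linarith
  obtain ⟨x, hx, hVx⟩ := hpt
  have hx0 : 0 < x := lt_trans hX0 hx.1
  refine ⟨x, hx, hVx, ?_⟩
  by_contra hcon
  push Not at hcon
  have hφ1 : (0 : ℝ) < q.totient := by exact_mod_cast Nat.totient_pos.mpr (by omega)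
  have hne : ((Finset.range q).filter (fun a => a.Coprime q)).Nonempty :=
    ⟨1, by rw [Finset.mem_filter, Finset.mem_range]; exact ⟨by omega, Nat.coprime_one_left q⟩⟩
  have h1 : ∀ a ∈ (Finset.range q).filter (fun a => a.Coprime q),
      (psiAP x q a - x / q.totient) ^ 2 < x / q * Real.exp (-(D * M)) := by
    intro a ha
    rw [Finset.mem_filter, Finset.mem_range] at ha
    have h2 := hcon a ha.1 ha.2
    have h3 : (psiAP x q a - x / q.totient) ^ 2 < (Real.sqrt (x / q) * Real.exp (-(D * M))) ^ 2 := by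
      rw [← sq_abs]
      exact pow_lt_pow_left₀ h2 (abs_nonneg _) two_ne_zero
    rw [mul_pow, Real.sq_sqrt (by positivity)] at h3
    refine h3.trans_le ?_
    have h4 : Real.exp (-(D * M)) ≤ 1 := by
      rw [Real.exp_le_one_iff]
      have : 0 ≤ D := by linarith
      nlinarith
    have h5 : Real.exp (-(D * M)) ^ 2 ≤ Real.exp (-(D * M)) := by nlinarith
    gcongr
  have h2 := Finset.sum_lt_sum_of_nonempty hne h1
  rw [Finset.sum_const, nsmul_eq_mul] at h2
  have h3 : (((Finset.range q).filter (fun a => a.Coprime q)).card : ℝ) ≤ q := by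
    have := Finset.card_filter_le (Finset.range q) (fun a => a.Coprime q)
    rw [Finset.card_range] at this
    exact_mod_cast this
  have h4 : (((Finset.range q).filter (fun a => a.Coprime q)).card : ℝ) *
      (x / q * Real.exp (-(D * M))) ≤ x * Real.exp (-(D * M)) := by
    calc _ ≤ (q : ℝ) * (x / q * Real.exp (-(D * M))) := by gcongr
      _ = _ := by field_simp
  have h5 : VV x q < x * Real.exp (-(D * M)) := lt_of_lt_of_le h2 h4
  linarith

end Pool.Agent.NH13
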