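import Pool.Agent.NH13.Count2
import Pool.Agent.NH13.Classes

/-!
# Almost all characters, with the true order of magnitude
-/

set_option autoImplicit false

open Complex MeasureTheory Set Filter Topology

namespace Pool.Agent.NH13

open ArithmeticFunction (vonMangoldt)
open H385 (phs)

theorem prim2 (A δ : ℝ) (hA : 0 < A) (hδ : 0 < δ) : ∃ C : ℝ, 1 ≤ C ∧ ∀ (q : ℕ) [NeZero q],
    3 ≤ q → ∀ U : ℝ, 1 ≤ U → C * U ≤ Real.log q →
    ∀ S : Finset (DirichletCharacter ℂ q), S ⊆ Prim q →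
    (∀ χ ∈ S, ∃ X Y : ℝ, 1 ≤ X ∧ X * (q : ℝ) ^ (1 + δ) ≤ Y ∧ Y ≤ (q : ℝ) ^ A ∧
      ∫ x in Ioc X Y, ‖psi χ x‖ ^ 2 / x ^ 2 ≤ Real.log q ^ 2 * Real.exp (-(C * U))) →
    (S.card : ℝ) ≤ C * Ph q / U ^ 2 := by
  obtain ⟨C0, U0, hC0, hU0, hcount⟩ := count2 (A + 1) (δ / 2) (by linarith) (by linarith)
  obtain ⟨K, hK⟩ : ∃ K : ℝ, K = (2 * (A + 1) + δ / 2) * U0 := ⟨_, rfl⟩
  have hK0 : 0 ≤ K := by rw [hK]; positivity
  have hδ8 : 0 < 8 / δ := by positivity
  obtain ⟨C, hC⟩ : ∃ C : ℝ, C = C0 + 16 * U0 + 2 * K + 8 + 8 / δ := ⟨_, rfl⟩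
  have hC1 : C0 ≤ C := by rw [hC]; linarith
  have hC2 : 16 * U0 ≤ C := by rw [hC]; linarith
  have hC3 : 2 * K + 8 ≤ C := by rw [hC]; linarith
  have hC4 : 8 / δ ≤ C := by rw [hC]; linarith
  have hCp : 1 ≤ C := by linarith
  refine ⟨C, hCp, ?_⟩
  intro q _ hq U hU hUℓ S hS hex
  have hq0 : (0 : ℝ) < q := by exact_mod_cast NeZero.pos q
  have hq1 : (1 : ℝ) ≤ q := by exact_mod_cast NeZero.one_le
  obtain ⟨ℓ, hℓ⟩ : ∃ ℓ : ℝ, ℓ = Real.log q := ⟨_, rfl⟩
  have hcount' := hcount q hq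
  rw [← hℓ] at hUℓ hcount'
  have hex' : ∀ χ ∈ S, ∃ X Y : ℝ, 1 ≤ X ∧ X * (q : ℝ) ^ (1 + δ) ≤ Y ∧ Y ≤ (q : ℝ) ^ A ∧
      ∫ x in Ioc X Y, ‖psi χ x‖ ^ 2 / x ^ 2 ≤ ℓ ^ 2 * Real.exp (-(C * U)) := by
    rw [hℓ]; exact hex
  have hU0' : 0 < U := by linarith
  have hCU : C ≤ C * U := le_mul_of_one_le_right (by linarith) hU
  have hℓ0 : 0 < ℓ := by linarith
  have hqexp : ∀ u : ℝ, (q : ℝ) ^ u = Real.exp (ℓ * u) := by
    intro u; rw [Real.rpow_def_of_pos hq0, ← hℓ]
  obtain ⟨κ, hκ⟩ : ∃ κ : ℝ, κ = U0 * U / ℓ := ⟨_, rfl⟩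
  have hκℓ : κ * ℓ = U0 * U := by rw [hκ]; field_simp
  have hκ1 : κ ≤ 1 / 16 := by
    rw [hκ, div_le_iff₀ hℓ0]
    have : 16 * U0 * U ≤ C * U := by gcongr
    linarith
  obtain ⟨η, hη⟩ : ∃ η : ℝ, η = ℓ * Real.exp (-(C * U) / 2) := ⟨_, rfl⟩
  have hη0 : 0 < η := by rw [hη]; positivity
  have hη2 : η ^ 2 = ℓ ^ 2 * Real.exp (-(C * U)) := by
    rw [hη, mul_pow, ← Real.exp_nat_mul]; congr 2; push_cast; ring
  have c1 : U0 ≤ κ * ℓ := by
    rw [hκℓ]; exact le_mul_of_one_le_right (by linarith) hU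
  have c2 : (2 * η) * (q : ℝ) ^ ((2 * (A + 1) + δ / 2) * κ) ≤ ℓ := by
    have e1 : (q : ℝ) ^ ((2 * (A + 1) + δ / 2) * κ) = Real.exp (K * U) := by
      rw [hqexp]; congr 1
      calc ℓ * ((2 * (A + 1) + δ / 2) * κ) = (2 * (A + 1) + δ / 2) * (κ * ℓ) := by ring
        _ = _ := by rw [hκℓ, hK]; ring
    rw [e1, hη]
    have e2 : Real.exp (-(C * U) / 2) * Real.exp (K * U) ≤ Real.exp (-4) := by
      rw [← Real.exp_add]
      apply Real.exp_le_exp.mpr
      have : (2 * K + 8) * U ≤ C * U := by gcongr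
      nlinarith
    have e3 : Real.exp (-4) ≤ 1 / 2 := by
      rw [Real.exp_neg, ← one_div]
      apply one_div_le_one_div_of_le (by norm_num)
      have := Real.add_one_le_exp (4 : ℝ)
      linarith
    calc 2 * (ℓ * Real.exp (-(C * U) / 2)) * Real.exp (K * U)
        = 2 * ℓ * (Real.exp (-(C * U) / 2) * Real.exp (K * U)) := by ring
      _ ≤ 2 * ℓ * (1 / 2) := by
          gcongr
          exact e2.trans e3
      _ = ℓ := by ring
  have h4q : 4 ≤ (q : ℝ) ^ (δ / 2) := by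
    rw [hqexp]
    have h1 : 8 / δ ≤ ℓ := by linarith
    have h2 : 4 ≤ ℓ * (δ / 2) := by
      have h3 : 8 / δ * (δ / 2) ≤ ℓ * (δ / 2) := by gcongr
      have h4 : 8 / δ * (δ / 2) = 4 := by field_simp; norm_num
      linarith
    have := Real.add_one_le_exp (ℓ * (δ / 2))
    linarith
  have hsplit : (q : ℝ) ^ (1 + δ) = (q : ℝ) ^ (1 + δ / 2) * (q : ℝ) ^ (δ / 2) := by
    rw [← Real.rpow_add hq0]; congr 1; ring
  have hqd : 1 ≤ (q : ℝ) ^ (1 + δ / 2) := Real.one_le_rpow hq1 (by linarith)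
  have hmain := hcount' κ (2 * η) c1 hκ1 (by linarith) c2 S hS (by
    intro χ hχ
    obtain ⟨X, Y, hX, hXY, hYA, hint⟩ := hex' χ hχ
    rw [← hη2] at hint
    obtain ⟨X', Y', h1, h2, h3, h4, h5⟩ := smallOn_of χ hX hη0 (by
      refine le_trans ?_ hXY
      rw [hsplit]
      have : 1 * 4 ≤ (q : ℝ) ^ (1 + δ / 2) * (q : ℝ) ^ (δ / 2) := by gcongr
      nlinarith) hint
    refine ⟨X', Y', by linarith, ?_, ?_, h5⟩
    · calc X' * (q : ℝ) ^ (1 + δ / 2) ≤ (2 * X) * (q : ℝ) ^ (1 + δ / 2) := by gcongr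
        _ = (X * (q : ℝ) ^ (1 + δ / 2) * 4) / 2 := by ring
        _ ≤ (X * (q : ℝ) ^ (1 + δ / 2) * (q : ℝ) ^ (δ / 2)) / 2 := by gcongr
        _ = (X * (q : ℝ) ^ (1 + δ)) / 2 := by rw [hsplit]; ring
        _ ≤ Y / 2 := by linarith
        _ ≤ Y' := h3
    · refine (h4.trans hYA).trans (Real.rpow_le_rpow_of_exponent_le hq1 (by linarith)))
  rw [hκℓ] at hmain
  refine hmain.trans ?_
  have hP : 1 ≤ Ph q := one_le_Ph q
  have h1 : U ^ 2 ≤ (U0 * U) ^ 2 := by
    have : U ≤ U0 * U := le_mul_of_one_le_left hU0'.le (by linarith)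
    gcongr
  gcongr

lemma tot_dom : ∃ C : ℝ, 1 ≤ C ∧ ∀ q : ℕ, 3 ≤ q →
    (q.divisors.card : ℝ) * (q : ℝ) ^ (31 / 32 : ℝ) * Real.log q ^ 2 ≤ C * q.totient := by
  obtain ⟨c, hc, htot⟩ := tot_lower
  obtain ⟨C3, hC3, hτ⟩ := H353.divisor_bound_real (1 / 128) (by norm_num)
  refine ⟨C3 * 128 ^ 3 / c + 16 * 16 * 256, by
    have : 0 ≤ C3 * 128 ^ 3 / c := by positivity
    linarith, ?_⟩
  intro q hq
  have hq0 : (0 : ℝ) < q := by exact_mod_cast (by omega : 0 < q)
  have hq1 : (1 : ℝ) ≤ q := by exact_mod_cast (by omega : 1 ≤ q)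
  have hφ0 : (0 : ℝ) ≤ q.totient := Nat.cast_nonneg _
  rcases lt_or_ge q 16 with hlt | hge
  · have h1 : (q.divisors.card : ℝ) ≤ 16 := by
      have h2 := Nat.card_divisors_le_self q
      exact_mod_cast (by omega : q.divisors.card ≤ 16)
    have h2 : (q : ℝ) ≤ 16 := by exact_mod_cast hlt.le
    have h3 : (q : ℝ) ^ (31 / 32 : ℝ) ≤ 16 := by
      calc (q : ℝ) ^ (31 / 32 : ℝ) ≤ (q : ℝ) ^ (1 : ℝ) :=
            Real.rpow_le_rpow_of_exponent_le hq1 (by norm_num)
        _ = q := Real.rpow_one _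
        _ ≤ 16 := h2
    have h4 : Real.log q ≤ 16 := by
      have := Real.log_le_sub_one_of_pos hq0
      linarith
    have h5 : 0 ≤ Real.log q := Real.log_natCast_nonneg q
    have h6 : (1 : ℝ) ≤ q.totient := by exact_mod_cast Nat.totient_pos.mpr (by omega)
    have h7 : 0 ≤ C3 * 128 ^ 3 / c := by positivity
    calc (q.divisors.card : ℝ) * (q : ℝ) ^ (31 / 32 : ℝ) * Real.log q ^ 2
        ≤ 16 * 16 * 16 ^ 2 := by gcongr
      _ = (16 * 16 * 256) * 1 := by norm_num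
      _ ≤ (C3 * 128 ^ 3 / c + 16 * 16 * 256) * q.totient := by
          apply mul_le_mul (by linarith) h6 (by norm_num) (by linarith)
  · have h1 := htot q hge
    have h2 := hτ q (by omega)
    obtain ⟨ℓ, hℓ⟩ : ∃ ℓ : ℝ, ℓ = Real.log q := ⟨_, rfl⟩
    rw [← hℓ] at h1 ⊢
    have hℓe : Real.exp 1 ≤ ℓ := by
      have h1 : Real.log 16 ≤ Real.log q := Real.log_le_log (by norm_num) (by exact_mod_cast hge)
      have h2 : Real.log 16 = 4 * Real.log 2 := by
        rw [show (16 : ℝ) = 2 ^ 4 by norm_num, Real.log_pow]; norm_num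
      have h3 := Real.log_two_gt_d9
      have h4 := Real.exp_one_lt_d9
      rw [hℓ]; linarith
    have he := Real.exp_one_gt_d9
    have hℓ0 : 0 < ℓ := by linarith
    have hm1 : 1 ≤ Real.log ℓ := by
      rw [Real.le_log_iff_exp_le hℓ0]; exact hℓe
    have hmℓ : Real.log ℓ ≤ ℓ := by
      have := Real.log_le_sub_one_of_pos hℓ0; linarith
    obtain ⟨v, hv⟩ : ∃ v : ℝ, v = (q : ℝ) ^ (1 / 128 : ℝ) := ⟨_, rfl⟩
    have hv0 : 0 < v := by rw [hv]; positivity
    have hℓv : ℓ ≤ 128 * v := by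
      have := Real.log_le_rpow_div hq0.le (show (0 : ℝ) < 1 / 128 by norm_num)
      rw [← hℓ, ← hv] at this
      linarith
    rw [← hv] at h2
    have hv4 : (q : ℝ) ^ (31 / 32 : ℝ) * v ^ 4 = q := by
      rw [hv, ← Real.rpow_natCast, ← Real.rpow_mul hq0.le, ← Real.rpow_add hq0]
      norm_num
    rw [div_le_iff₀ (by linarith)] at h1
    have h3 : (q.divisors.card : ℝ) * (q : ℝ) ^ (31 / 32 : ℝ) * ℓ ^ 2 * Real.log ℓ ≤
        C3 * 128 ^ 3 * q := by
      calc (q.divisors.card : ℝ) * (q : ℝ) ^ (31 / 32 : ℝ) * ℓ ^ 2 * Real.log ℓ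
          ≤ (C3 * v) * (q : ℝ) ^ (31 / 32 : ℝ) * (128 * v) ^ 2 * (128 * v) := by
            gcongr
            exact hmℓ.trans hℓv
        _ = C3 * 128 ^ 3 * ((q : ℝ) ^ (31 / 32 : ℝ) * v ^ 4) := by ring
        _ = _ := by rw [hv4]
    have h4 : C3 * 128 ^ 3 * q ≤ (C3 * 128 ^ 3 / c) * q.totient * Real.log ℓ := by
      calc C3 * 128 ^ 3 * (q : ℝ) = (C3 * 128 ^ 3 / c) * (c * q) := by field_simp
        _ ≤ (C3 * 128 ^ 3 / c) * (q.totient * Real.log ℓ) := by gcongr
        _ = _ := by ring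
    have h5 : (q.divisors.card : ℝ) * (q : ℝ) ^ (31 / 32 : ℝ) * ℓ ^ 2 ≤
        (C3 * 128 ^ 3 / c) * q.totient :=
      le_of_mul_le_mul_right (h3.trans h4) (by linarith)
    nlinarith

/-- **Almost all characters to every modulus**: the main count -/
theorem all2 (A δ : ℝ) (hA : 0 < A) (hδ : 0 < δ) : ∃ C : ℝ, 1 ≤ C ∧ ∀ (q : ℕ) [NeZero q],
    3 ≤ q → ∀ U : ℝ, 1 ≤ U → U ≤ Real.log q → ∀ S : Finset (DirichletCharacter ℂ q),
    (∀ χ ∈ S, ∃ X : ℝ, (q : ℝ) ^ δ ≤ X ∧ X ≤ (q : ℝ) ^ A ∧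
      ∫ x in Ioc X (X * (q : ℝ) ^ (1 + δ)), ‖psi χ x‖ ^ 2 / x ^ 2 ≤
        Real.log q ^ 2 * Real.exp (-(C * U))) →
    (S.card : ℝ) ≤ C * q.totient / U ^ 2 := by
  obtain ⟨C1, hC1, hprim⟩ := prim2 (2 * (A + 1 + δ)) δ (by linarith) hδ
  obtain ⟨C3, hC3, hdom⟩ := tot_dom
  obtain ⟨C2, hC2⟩ : ∃ C2 : ℝ, C2 = 2 * C1 + 2 / δ * (C1 + 8) + 4 := ⟨_, rfl⟩
  have hδ2 : 0 < 2 / δ * (C1 + 8) := by positivity
  have hC21 : 2 * C1 ≤ C2 := by rw [hC2]; linarith
  have hC22 : 2 / δ * (C1 + 8) ≤ C2 := by rw [hC2]; linarith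
  have hC24 : 4 ≤ C2 := by rw [hC2]; linarith
  obtain ⟨C4, hC4⟩ : ∃ C4 : ℝ, C4 = C1 + 15 + (C1 * (1 + C3) + C3) := ⟨_, rfl⟩
  have hC41 : C1 + 15 ≤ C4 := by rw [hC4]; nlinarith
  have hC42 : C1 * (1 + C3) + C3 ≤ C4 := by rw [hC4]; linarith
  have hC4p : 1 ≤ C4 := by linarith
  -- the statement for moderate `U`
  have main : ∀ (q : ℕ) [NeZero q], 3 ≤ q → ∀ U : ℝ, 1 ≤ U → C2 * U ≤ Real.log q →
      ∀ S : Finset (DirichletCharacter ℂ q),
      (∀ χ ∈ S, ∃ X : ℝ, (q : ℝ) ^ δ ≤ X ∧ X ≤ (q : ℝ) ^ A ∧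
        ∫ x in Ioc X (X * (q : ℝ) ^ (1 + δ)), ‖psi χ x‖ ^ 2 / x ^ 2 ≤
          Real.log q ^ 2 * Real.exp (-(C4 * U))) →
      (S.card : ℝ) ≤ C4 * q.totient / U ^ 2 := by
    intro q _ hq U hU hUℓ S hex
    have hq0 : (0 : ℝ) < q := by exact_mod_cast NeZero.pos q
    have hq1 : (1 : ℝ) ≤ q := by exact_mod_cast NeZero.one_le
    obtain ⟨ℓ, hℓ⟩ : ∃ ℓ : ℝ, ℓ = Real.log q := ⟨_, rfl⟩
    have hdom' := hdom q hq
    rw [← hℓ] at hUℓ hdom'
    have hU0 : 0 < U := by linarith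
    have hℓ4 : 4 ≤ ℓ := by
      have : 4 * 1 ≤ C2 * U := by gcongr
      linarith
    have hℓ0 : 0 < ℓ := by linarith
    have hqexp : ∀ u : ℝ, (q : ℝ) ^ u = Real.exp (ℓ * u) := by
      intro u; rw [Real.rpow_def_of_pos hq0, ← hℓ]
    -- fibres
    have hfib : (S.card : ℝ) = ∑ d ∈ q.divisors,
        (((S.filter (fun χ => χ.conductor = d)).card : ℕ) : ℝ) := by
      rw [Finset.card_eq_sum_card_fiberwise (f := fun χ : DirichletCharacter ℂ q => χ.conductor)
        (t := q.divisors)]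
      · push_cast; rfl
      · intro χ _
        simp only [Finset.mem_coe, Nat.mem_divisors]
        exact ⟨χ.conductor_dvd_level, NeZero.ne q⟩
    classical
    have hsmall : ∀ d ∈ q.divisors, (d : ℝ) < (q : ℝ) ^ (1 / 2 : ℝ) →
        ((S.filter (fun χ => χ.conductor = d)).card : ℝ) ≤ (q : ℝ) ^ (31 / 32 : ℝ) := by
      intro d hd hdq
      rw [Nat.mem_divisors] at hd
      have h1 := H385.phs_eq_fiber q d hd.1
      have h2 : (S.filter (fun χ => χ.conductor = d)).card ≤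
          ((Finset.univ : Finset (DirichletCharacter ℂ q)).filter (fun χ => χ.conductor = d)).card :=
        Finset.card_le_card (Finset.filter_subset_filter _ (Finset.subset_univ _))
      rw [h1] at h2
      have : NeZero d := ⟨by rintro rfl; exact NeZero.ne q (Nat.eq_zero_of_zero_dvd hd.1)⟩
      rw [H385.phs_eq_filter] at h2
      have h3 := Finset.card_le_univ
        ((Finset.univ : Finset (DirichletCharacter ℂ d)).filter (fun χ => χ.IsPrimitive))
      rw [card_chars] at h3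
      have h4 : ((S.filter (fun χ => χ.conductor = d)).card : ℝ) ≤ d := by
        exact_mod_cast (h2.trans h3).trans (Nat.totient_le d)
      refine (h4.trans hdq.le).trans ?_
      exact Real.rpow_le_rpow_of_exponent_le hq1 (by norm_num)
    have hbig : ∀ d ∈ q.divisors, (q : ℝ) ^ (1 / 2 : ℝ) ≤ d →
        ((S.filter (fun χ => χ.conductor = d)).card : ℝ) ≤ C1 * Ph d / U ^ 2 := by
      intro d hd hdq
      rw [Nat.mem_divisors] at hd
      have hd0 : d ≠ 0 := by rintro rfl; exact NeZero.ne q (Nat.eq_zero_of_zero_dvd hd.1)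
      have : NeZero d := ⟨hd0⟩
      have hdle : d ≤ q := Nat.le_of_dvd (by omega) hd.1
      have hd0' : (0 : ℝ) < d := by exact_mod_cast Nat.pos_of_ne_zero hd0
      have hlogd : ℓ / 2 ≤ Real.log d := by
        have h1 := Real.log_le_log (by positivity) hdq
        rw [Real.log_rpow hq0, ← hℓ] at h1
        linarith
      have hd3 : 3 ≤ d := by
        have h1 : Real.log 3 ≤ Real.log d := by
          have h2 : Real.log 3 ≤ 2 := by
            have := Real.log_le_sub_one_of_pos (show (0 : ℝ) < 3 by norm_num)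
            linarith
          linarith
        have h2 := (Real.log_le_log_iff (by norm_num) hd0').mp h1
        exact_mod_cast h2
      have hd1 : (1 : ℝ) ≤ d := by exact_mod_cast (by omega : 1 ≤ d)
      have hdq' : (d : ℝ) ≤ q := by exact_mod_cast hdle
      have hCU : C1 * U ≤ Real.log d := by
        have : 2 * C1 * U ≤ C2 * U := by gcongr
        linarith
      have hkey := hprim d hd3 U hU hCU
        ((S.filter (fun χ => χ.conductor = d)).attach.image (fun χ =>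
          (by
            have h : (χ : DirichletCharacter ℂ q).conductor = d :=
              (Finset.mem_filter.mp χ.2).2
            exact h ▸ (χ : DirichletCharacter ℂ q).primitiveCharacter :
              DirichletCharacter ℂ d)))
      have hT1 : ∀ ψ ∈ ((S.filter (fun χ => χ.conductor = d)).attach.image (fun χ =>
          (by
            have h : (χ : DirichletCharacter ℂ q).conductor = d :=
              (Finset.mem_filter.mp χ.2).2
            exact h ▸ (χ : DirichletCharacter ℂ q).primitiveCharacter :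
              DirichletCharacter ℂ d))), ψ.IsPrimitive ∧
            DirichletCharacter.changeLevel hd.1 ψ ∈ S := by
        intro ψ hψ
        rw [Finset.mem_image] at hψ
        obtain ⟨⟨χ, hχ⟩, -, rfl⟩ := hψ
        obtain ⟨hχS, hcond⟩ := Finset.mem_filter.mp hχ
        subst hcond
        refine ⟨χ.primitiveCharacter_isPrimitive, ?_⟩
        simp only
        rw [χ.changeLevel_primitiveCharacter]
        exact hχS
      obtain ⟨T, hTdef⟩ : ∃ T : Finset (DirichletCharacter ℂ d), T =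
        ((S.filter (fun χ => χ.conductor = d)).attach.image (fun χ =>
          (by
            have h : (χ : DirichletCharacter ℂ q).conductor = d :=
              (Finset.mem_filter.mp χ.2).2
            exact h ▸ (χ : DirichletCharacter ℂ q).primitiveCharacter :
              DirichletCharacter ℂ d))) := ⟨_, rfl⟩
      have hcard : (S.filter (fun χ => χ.conductor = d)).card ≤ T.card := by
        have hsub : S.filter (fun χ => χ.conductor = d) ⊆
            T.image (DirichletCharacter.changeLevel hd.1) := by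
          intro χ hχ
          rw [Finset.mem_image]
          rw [hTdef]
          obtain ⟨hχS, hcond⟩ := Finset.mem_filter.mp hχ
          subst hcond
          refine ⟨χ.primitiveCharacter, ?_, χ.changeLevel_primitiveCharacter⟩
          rw [Finset.mem_image]
          exact ⟨⟨χ, hχ⟩, Finset.mem_attach _ _, rfl⟩
        exact (Finset.card_le_card hsub).trans Finset.card_image_le
      rw [← hTdef] at hkey hT1
      refine le_trans (by exact_mod_cast hcard) (hkey ?_ ?_)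
      · intro ψ hψ
        exact mem_Prim.mpr (hT1 ψ hψ).1
      · intro ψ hψ
        obtain ⟨hp, hψS⟩ := hT1 ψ hψ
        obtain ⟨X, hXδ, hXA, hint⟩ := hex _ hψS
        have hX1 : 1 ≤ X := (Real.one_le_rpow hq1 hδ.le).trans hXδ
        have hX0 : 0 < X := by linarith
        refine ⟨X, X * (q : ℝ) ^ (1 + δ), hX1, by gcongr, ?_, ?_⟩
        · calc X * (q : ℝ) ^ (1 + δ) ≤ (q : ℝ) ^ A * (q : ℝ) ^ (1 + δ) := by gcongr
            _ = ((q : ℝ) ^ (1 / 2 : ℝ)) ^ (2 * (A + 1 + δ)) := by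
                rw [← Real.rpow_add hq0, ← Real.rpow_mul hq0.le]; congr 1; ring
            _ ≤ (d : ℝ) ^ (2 * (A + 1 + δ)) := by gcongr
        · have hpm := prim_mean hd.1 ψ (X := X) (Y := X * (q : ℝ) ^ (1 + δ))
            (Y' := X * (q : ℝ) ^ (1 + δ)) hX1 le_rfl
          refine hpm.trans ?_
          rw [← hℓ] at hint ⊢
          have hXh : X ^ (-(1 / 2) : ℝ) ≤ Real.exp (-(δ / 2 * ℓ)) := by
            calc X ^ (-(1 / 2) : ℝ) ≤ ((q : ℝ) ^ δ) ^ (-(1 / 2) : ℝ) :=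
                  Real.rpow_le_rpow_of_nonpos (by positivity) hXδ (by norm_num)
              _ = Real.exp (-(δ / 2 * ℓ)) := by
                  rw [← Real.rpow_mul hq0.le, hqexp]; congr 1; ring
          obtain ⟨e0, he0⟩ : ∃ e0 : ℝ, e0 = Real.exp (-(C1 * U)) := ⟨_, rfl⟩
          have he0p : 0 < e0 := by rw [he0]; exact Real.exp_pos _
          have h2exp : ∀ k : ℝ, 0 ≤ k → 1 + k ≤ Real.exp k := fun k _ => by
            linarith [Real.add_one_le_exp k]
          have i1 : Real.exp (-(C4 * U)) ≤ e0 / 16 := by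
            have h1 : Real.exp (-(C4 * U)) ≤ e0 * Real.exp (-15) := by
              rw [he0, ← Real.exp_add]
              apply Real.exp_le_exp.mpr
              have : (C1 + 15) * U ≤ C4 * U := by gcongr
              nlinarith
            have h2 : Real.exp (-15) ≤ 1 / 16 := by
              rw [Real.exp_neg, ← one_div]
              apply one_div_le_one_div_of_le (by norm_num)
              linarith [h2exp 15 (by norm_num)]
            calc _ ≤ e0 * Real.exp (-15) := h1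
              _ ≤ e0 * (1 / 16) := by gcongr
              _ = _ := by ring
          have i2 : Real.exp (-(δ / 2 * ℓ)) ≤ e0 / 2048 := by
            have h1 : Real.exp (-(δ / 2 * ℓ)) ≤ e0 * Real.exp (-8) := by
              rw [he0, ← Real.exp_add]
              apply Real.exp_le_exp.mpr
              have h3 : 2 / δ * (C1 + 8) * U ≤ ℓ := by
                refine le_trans ?_ hUℓ
                gcongr
              have h4 : (C1 + 8) * U ≤ δ / 2 * ℓ := by
                have h5 : δ / 2 * (2 / δ * (C1 + 8) * U) ≤ δ / 2 * ℓ := by gcongr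
                have h6 : δ / 2 * (2 / δ * (C1 + 8) * U) = (C1 + 8) * U := by field_simp
                linarith
              nlinarith
            have h2 : Real.exp (-8) ≤ 1 / 2048 := by
              rw [Real.exp_neg, ← one_div]
              apply one_div_le_one_div_of_le (by norm_num)
              have h3 := Real.exp_one_gt_d9
              have h4 : Real.exp 8 = Real.exp 1 ^ 8 := by rw [← Real.exp_nat_mul]; norm_num
              rw [h4]
              calc (2048 : ℝ) ≤ 2.7 ^ 8 := by norm_num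
                _ ≤ _ := by gcongr; linarith
            calc _ ≤ e0 * Real.exp (-8) := h1
              _ ≤ e0 * (1 / 2048) := by gcongr
              _ = _ := by ring
          rw [← he0]
          calc 2 * (∫ x in Ioc X (X * (q : ℝ) ^ (1 + δ)),
                ‖psi (DirichletCharacter.changeLevel hd.1 ψ) x‖ ^ 2 / x ^ 2) +
                256 * ℓ ^ 2 * X ^ (-(1 / 2) : ℝ)
              ≤ 2 * (ℓ ^ 2 * Real.exp (-(C4 * U))) + 256 * ℓ ^ 2 * Real.exp (-(δ / 2 * ℓ)) := by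
                gcongr
            _ ≤ 2 * (ℓ ^ 2 * (e0 / 16)) + 256 * ℓ ^ 2 * (e0 / 2048) := by gcongr
            _ = (ℓ / 2) ^ 2 * e0 := by ring
            _ ≤ Real.log d ^ 2 * e0 := by gcongr
    -- the sum
    have hterm : ∀ d ∈ q.divisors, ((S.filter (fun χ => χ.conductor = d)).card : ℝ) ≤
        C1 * Ph d / U ^ 2 + (q : ℝ) ^ (31 / 32 : ℝ) := by
      intro d hd
      have hd' := Nat.mem_divisors.mp hd
      have : NeZero d := ⟨by rintro rfl; exact NeZero.ne q (Nat.eq_zero_of_zero_dvd hd'.1)⟩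
      have hP : 1 ≤ Ph d := one_le_Ph d
      have h0 : 0 ≤ C1 * Ph d / U ^ 2 := by positivity
      have h1 : 0 ≤ (q : ℝ) ^ (31 / 32 : ℝ) := by positivity
      rcases lt_or_ge (d : ℝ) ((q : ℝ) ^ (1 / 2 : ℝ)) with h | h
      · linarith [hsmall d hd h]
      · linarith [hbig d hd h]
    have hsum := Finset.sum_le_sum hterm
    rw [← hfib, Finset.sum_add_distrib, Finset.sum_const, nsmul_eq_mul, ← Finset.sum_div,
      ← Finset.mul_sum] at hsum
    have hPh : ∑ d ∈ q.divisors, Ph d ≤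
        q.totient + (q.divisors.card : ℝ) * (q : ℝ) ^ (31 / 32 : ℝ) := by
      unfold Ph
      rw [Finset.sum_add_distrib]
      have h1 : ∑ d ∈ q.divisors, (phs d : ℝ) = q.totient := by
        exact_mod_cast H385.sum_phs q (by omega)
      rw [h1]
      gcongr
      have h2 : ∀ d ∈ q.divisors, (d : ℝ) ^ (31 / 32 : ℝ) ≤ (q : ℝ) ^ (31 / 32 : ℝ) := by
        intro d hd
        have h3 : (d : ℝ) ≤ q := by
          exact_mod_cast Nat.le_of_dvd (by omega) (Nat.mem_divisors.mp hd).1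
        gcongr
      have := Finset.sum_le_sum h2
      rwa [Finset.sum_const, nsmul_eq_mul] at this
    obtain ⟨F, hF⟩ : ∃ F : ℝ, F = (q.totient : ℝ) := ⟨_, rfl⟩
    have hF0 : 0 ≤ F := by rw [hF]; exact Nat.cast_nonneg _
    obtain ⟨W, hW⟩ : ∃ W : ℝ, W = (q.divisors.card : ℝ) * (q : ℝ) ^ (31 / 32 : ℝ) := ⟨_, rfl⟩
    have hW0 : 0 ≤ W := by rw [hW]; positivity
    rw [← hF, ← hW] at hPh
    rw [← hW] at hsum
    rw [← hF, ← hW] at hdom'
    have hUℓ' : U ≤ ℓ := by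
      have : 1 * U ≤ C2 * U := by gcongr; linarith
      linarith
    have hWU : W ≤ C3 * F / U ^ 2 := by
      rw [le_div_iff₀ (by positivity)]
      refine le_trans ?_ hdom'
      gcongr
    have hWF : W ≤ C3 * F := by
      refine hWU.trans (div_le_self (by positivity) ?_)
      exact one_le_pow₀ hU
    rw [← hF]
    calc (S.card : ℝ) ≤ C1 * (∑ d ∈ q.divisors, Ph d) / U ^ 2 + W := hsum
      _ ≤ C1 * (F + C3 * F) / U ^ 2 + C3 * F / U ^ 2 := by
          gcongr
          exact hPh.trans (by gcongr)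
      _ = (C1 * (1 + C3) + C3) * F / U ^ 2 := by ring
      _ ≤ C4 * F / U ^ 2 := by gcongr
  obtain ⟨C, hC⟩ : ∃ C : ℝ, C = C4 * C2 ^ 2 := ⟨_, rfl⟩
  have hC22' : 1 ≤ C2 ^ 2 := by nlinarith
  have hCC4 : C4 ≤ C := by rw [hC]; exact le_mul_of_one_le_right (by linarith) hC22'
  refine ⟨C, by linarith, ?_⟩
  intro q _ hq U hU hUℓ S hex
  have hq0 : (0 : ℝ) < q := by exact_mod_cast NeZero.pos q
  have hℓ0 : 0 < Real.log q := by linarith
  have hU0 : 0 < U := by linarith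
  obtain ⟨ℓ, hℓ⟩ : ∃ ℓ : ℝ, ℓ = Real.log q := ⟨_, rfl⟩
  have hmain' := main q hq
  rw [← hℓ] at hUℓ hℓ0 hmain'
  have hCp : 0 ≤ C := by linarith
  have hφ0 : (0 : ℝ) ≤ q.totient := Nat.cast_nonneg _
  have hex' : ∀ V : ℝ, V ≤ U → 0 ≤ V → ∀ χ ∈ S, ∃ X : ℝ, (q : ℝ) ^ δ ≤ X ∧ X ≤ (q : ℝ) ^ A ∧
      ∫ x in Ioc X (X * (q : ℝ) ^ (1 + δ)), ‖psi χ x‖ ^ 2 / x ^ 2 ≤
        ℓ ^ 2 * Real.exp (-(C4 * V)) := by
    intro V hV hV0 χ hχ
    obtain ⟨X, h1, h2, h3⟩ := hex χ hχ
    refine ⟨X, h1, h2, h3.trans ?_⟩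
    rw [← hℓ]
    have : C4 * V ≤ C * U := by gcongr
    gcongr
  rcases le_total (C2 * U) ℓ with h | h
  · refine (hmain' U hU h S (hex' U le_rfl hU0.le)).trans ?_
    gcongr
  · rcases le_total C2 ℓ with h2 | h2
    · have h3 : 1 ≤ ℓ / C2 := by rw [le_div_iff₀ (by linarith)]; linarith
      have h4 : C2 * (ℓ / C2) = ℓ := by field_simp
      have h5 : ℓ / C2 ≤ U := by rw [div_le_iff₀ (by linarith)]; linarith
      refine (hmain' (ℓ / C2) h3 h4.le S (hex' _ h5 (by linarith))).trans ?_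
      have h6 : C4 * (q.totient : ℝ) / (ℓ / C2) ^ 2 = C * q.totient / ℓ ^ 2 := by
        rw [hC]; field_simp
      rw [h6]
      gcongr
    · have h1 : (S.card : ℝ) ≤ q.totient := by
        have h1 : S.card ≤ Fintype.card (DirichletCharacter ℂ q) := Finset.card_le_univ _
        rw [card_chars] at h1
        exact_mod_cast h1
      refine h1.trans ?_
      rw [le_div_iff₀ (by positivity), mul_comm]
      have h3 : U ^ 2 ≤ C2 ^ 2 := by
        have : U ≤ C2 := by linarith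
        gcongr
      have h4 : U ^ 2 ≤ C := by
        rw [hC]
        have : C2 ^ 2 ≤ C4 * C2 ^ 2 := le_mul_of_one_le_left (by positivity) hC4p
        linarith
      gcongr

end Pool.Agent.NH13
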