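import Pool.Agent.NH13.Poly

/-!
# The contour argument for one character
-/

set_option autoImplicit false

open Complex MeasureTheory Set Filter Topology

namespace Pool.Agent.NH13

open ArithmeticFunction (vonMangoldt)

/-- the kernel `K^z exp(z^2)` -/
noncomputable def ker (K : ℝ) (z : ℂ) : ℂ := cexp (z * Real.log K + z ^ 2)

lemma ker_diff (K : ℝ) : Differentiable ℂ (ker K) := by unfold ker; fun_prop

lemma norm_ker {K : ℝ} (hK : 0 < K) (x y : ℝ) :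
    ‖ker K ⟨x, y⟩‖ = K ^ x * Real.exp (x ^ 2) * Real.exp (-(y ^ 2)) := by
  unfold ker
  rw [norm_exp, Real.rpow_def_of_pos hK, ← Real.exp_add, ← Real.exp_add]
  congr 1
  have : ((⟨x, y⟩ : ℂ) ^ 2).re = x ^ 2 - y ^ 2 := by
    rw [pow_two, Complex.mul_re]; ring
  rw [Complex.add_re, this]
  simp
  ring

lemma gauss_dom (y : ℝ) : Real.exp (3 * |y|) * Real.exp (-(y ^ 2)) ≤
    Real.exp 5 * Real.exp (-(y ^ 2 / 2)) := by
  rw [← Real.exp_add, ← Real.exp_add]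
  apply Real.exp_le_exp.mpr
  have : y ^ 2 = |y| ^ 2 := (sq_abs y).symm
  rw [this]
  nlinarith [sq_nonneg (|y| - 3)]

/-- Gaussian decay on a strip for `g(z) K^z e^{z^2}` -/
lemma strip_decay {g : ℂ → ℂ} {K a b D T : ℝ} (hK : 0 < K) (hD : 0 ≤ D)
    (hg : ∀ x ∈ Icc a b, ∀ y : ℝ, ‖g ⟨x, y⟩‖ ≤ D * Real.exp (3 * (T + |y|))) :
    ∃ C : ℝ, ∀ x ∈ Icc a b, ∀ y : ℝ, ‖g ⟨x, y⟩ * ker K ⟨x, y⟩‖ ≤ C * Real.exp (-(y ^ 2 / 2)) := by
  obtain ⟨E, hE⟩ : ∃ E : ℝ, ∀ x ∈ Icc a b, K ^ x * Real.exp (x ^ 2) ≤ E := by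
    have hc : ContinuousOn (fun x : ℝ => K ^ x * Real.exp (x ^ 2)) (Icc a b) := by
      apply Continuous.continuousOn
      exact (Real.continuous_const_rpow hK.ne').mul (by fun_prop)
    obtain ⟨E, hE⟩ := isCompact_Icc.exists_bound_of_continuousOn hc
    refine ⟨E, fun x hx => ?_⟩
    have := hE x hx
    rw [Real.norm_of_nonneg (by positivity)] at this
    exact this
  refine ⟨D * Real.exp (3 * T) * E * Real.exp 5, fun x hx y => ?_⟩
  rw [norm_mul, norm_ker hK]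
  have h1 := hg x hx y
  have h2 := hE x hx
  have h3 := gauss_dom y
  have e : Real.exp (3 * (T + |y|)) = Real.exp (3 * T) * Real.exp (3 * |y|) := by
    rw [← Real.exp_add]; congr 1; ring
  rw [e] at h1
  have hE0 : 0 ≤ E := le_trans (by positivity) h2
  calc ‖g ⟨x, y⟩‖ * (K ^ x * Real.exp (x ^ 2) * Real.exp (-(y ^ 2)))
      ≤ (D * (Real.exp (3 * T) * Real.exp (3 * |y|))) * (E * Real.exp (-(y ^ 2))) := by
        gcongr
    _ = D * Real.exp (3 * T) * E * (Real.exp (3 * |y|) * Real.exp (-(y ^ 2))) := by ring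
    _ ≤ D * Real.exp (3 * T) * E * (Real.exp 5 * Real.exp (-(y ^ 2 / 2))) := by gcongr
    _ = _ := by ring

lemma add_mk (s : ℂ) (x y : ℝ) : s + ⟨x, y⟩ = ⟨s.re + x, s.im + y⟩ := rfl

lemma abs_exp_le {t y : ℝ} : Real.exp (3 * |t + y|) ≤ Real.exp (3 * (|t| + |y|)) := by
  apply Real.exp_le_exp.mpr
  have := abs_add_le t y
  linarith

/-- The contour identity, in the form of an inequality. -/
theorem contour_ineq {q : ℕ} [NeZero q] (hq : 2 ≤ q) {χ : DirichletCharacter ℂ q}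
    (hχ : χ.IsPrimitive) {X Y K a b c : ℝ} (hX : 1 ≤ X) (hXY : X ≤ Y) (hK : 0 < K) (ha : 0 < a)
    (hc : 0 < c) (hcb : c ≤ b) (s : ℂ) :
    2 * Real.pi * ‖deriv χ.LFunction s + χ.LFunction s * Pol χ (Finset.Icc 1 ⌊X⌋₊) s‖ ≤
      (∫ y : ℝ, ‖(deriv χ.LFunction (s + ⟨b, y⟩) + χ.LFunction (s + ⟨b, y⟩) *
          Pol χ (Finset.Icc 1 ⌊Y⌋₊) (s + ⟨b, y⟩)) * ker K ⟨b, y⟩ / (⟨b, y⟩ : ℂ)‖) +
      (∫ y : ℝ, ‖χ.LFunction (s + ⟨c, y⟩) *
          Pol χ (Finset.Ioc ⌊X⌋₊ ⌊Y⌋₊) (s + ⟨c, y⟩) * ker K ⟨c, y⟩ / (⟨c, y⟩ : ℂ)‖) +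
      (∫ y : ℝ, ‖(deriv χ.LFunction (s + ⟨-a, y⟩) + χ.LFunction (s + ⟨-a, y⟩) *
          Pol χ (Finset.Icc 1 ⌊X⌋₊) (s + ⟨-a, y⟩)) * ker K ⟨-a, y⟩ / (⟨-a, y⟩ : ℂ)‖) := by
  have hne := ne_one_of_prim hq hχ
  have hL : Differentiable ℂ χ.LFunction := DirichletCharacter.differentiable_LFunction hne
  have hL' : Differentiable ℂ (deriv χ.LFunction) := by
    intro z
    exact ((hL.analyticAt z).deriv).differentiableAt
  have hX0 : 0 < X := by linarith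
  have hb : 0 < b := lt_of_lt_of_le hc hcb
  set SX := Finset.Icc 1 ⌊X⌋₊ with hSX
  set SY := Finset.Icc 1 ⌊Y⌋₊ with hSY
  set SW := Finset.Ioc ⌊X⌋₊ ⌊Y⌋₊ with hSW
  have hPX := Pol_differentiable χ (S := SX) (by simp [hSX])
  have hPW := Pol_differentiable χ (S := SW) (by simp [hSW])
  have hPadd : ∀ w, Pol χ SY w = Pol χ SX w + Pol χ SW w := by
    intro w
    unfold Pol
    have h1 : SY = SX ∪ SW := by
      have := Nat.floor_mono hXY
      ext x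
      simp only [hSX, hSY, hSW, Finset.mem_union, Finset.mem_Icc, Finset.mem_Ioc]
      omega
    have h2 : Disjoint SX SW := by
      rw [Finset.disjoint_left]
      intro x hx hx'
      simp only [hSX, hSW, Finset.mem_Icc, Finset.mem_Ioc] at hx hx'
      omega
    rw [h1, Finset.sum_union h2]
  set g1 : ℂ → ℂ := fun z => deriv χ.LFunction (s + z) + χ.LFunction (s + z) * Pol χ SX (s + z)
    with hg1
  set g2 : ℂ → ℂ := fun z => χ.LFunction (s + z) * Pol χ SW (s + z) with hg2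
  have hadd : Differentiable ℂ (fun z : ℂ => s + z) := by fun_prop
  have hd1 : Differentiable ℂ g1 :=
    (hL'.comp hadd).add ((hL.comp hadd).mul (hPX.comp hadd))
  have hd2 : Differentiable ℂ g2 := (hL.comp hadd).mul (hPW.comp hadd)
  set f1 : ℂ → ℂ := fun z => g1 z * ker K z with hf1
  set f2 : ℂ → ℂ := fun z => g2 z * ker K z with hf2
  have hD1 : Differentiable ℂ f1 := hd1.mul (ker_diff K)
  have hD2 : Differentiable ℂ f2 := hd2.mul (ker_diff K)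
  -- growth
  obtain ⟨B, hB⟩ : ∃ B : ℝ, B = 1 + |s.re| + a + b := ⟨_, rfl⟩
  have hsr := neg_abs_le s.re
  have hsr' := le_abs_self s.re
  have hB1 : 1 ≤ B := by rw [hB]; have := abs_nonneg s.re; linarith
  obtain ⟨C1, hC1, hS1⟩ := L_strip B hB1
  obtain ⟨C2, hC2, hS2⟩ := dL_strip B hB1
  have hq0 : (0 : ℝ) < q := by exact_mod_cast NeZero.pos q
  have hY1 : 1 ≤ Y := hX.trans hXY
  have gr1 : ∀ x ∈ Icc (-a) b, ∀ y : ℝ, ‖χ.LFunction (s + ⟨x, y⟩)‖ ≤
      (C1 * (q : ℝ) ^ (2 + B)) * Real.exp (3 * (|s.im| + |y|)) := by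
    intro x hx y
    rw [add_mk]
    refine (hS1 q χ hq hχ ⟨s.re + x, s.im + y⟩ (by simp only; linarith [hx.1]) (by
      simp only; linarith [hx.2])).trans ?_
    simp only
    have := abs_exp_le (t := s.im) (y := y)
    gcongr
  have gr2 : ∀ x ∈ Icc (-a) b, ∀ y : ℝ, ‖deriv χ.LFunction (s + ⟨x, y⟩)‖ ≤
      (C2 * (q : ℝ) ^ (3 + B)) * Real.exp (3 * (|s.im| + |y|)) := by
    intro x hx y
    rw [add_mk]
    refine (hS2 q χ hq hχ ⟨s.re + x, s.im + y⟩ (by simp only; linarith [hx.1]) (by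
      simp only; linarith [hx.2])).trans ?_
    simp only
    have := abs_exp_le (t := s.im) (y := y)
    gcongr
  have gr3 : ∀ S ⊆ Finset.Icc 1 ⌊Y⌋₊, ∀ x ∈ Icc (-a) b, ∀ y : ℝ, ‖Pol χ S (s + ⟨x, y⟩)‖ ≤ Y ^ (2 + B) := by
    intro S hS x hx y
    apply Pol_le χ hY1 (by linarith) hS
    rw [add_mk]
    simp only
    linarith [hx.1]
  have hsub1 : SX ⊆ Finset.Icc 1 ⌊Y⌋₊ := Finset.Icc_subset_Icc_right (Nat.floor_mono hXY)
  have hsub2 : SW ⊆ Finset.Icc 1 ⌊Y⌋₊ := by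
    intro x hx
    simp only [hSW, Finset.mem_Ioc] at hx
    rw [Finset.mem_Icc]; omega
  have hY0 : 0 < Y := by linarith
  obtain ⟨D1, hD1'⟩ := strip_decay (g := g1) (K := K) (a := -a) (b := b)
    (D := C2 * (q : ℝ) ^ (3 + B) + C1 * (q : ℝ) ^ (2 + B) * Y ^ (2 + B)) (T := |s.im|) hK
    (by positivity) (by
      intro x hx y
      simp only [hg1]
      refine (norm_add_le _ _).trans ?_
      rw [norm_mul, add_mul]
      have h1 := gr1 x hx y
      have h2 := gr2 x hx y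
      have h3 := gr3 SX hsub1 x hx y
      refine add_le_add h2 ?_
      calc _ ≤ (C1 * (q : ℝ) ^ (2 + B)) * Real.exp (3 * (|s.im| + |y|)) * Y ^ (2 + B) := by gcongr
        _ = _ := by ring)
  obtain ⟨D2, hD2'⟩ := strip_decay (g := g2) (K := K) (a := -a) (b := b)
    (D := C1 * (q : ℝ) ^ (2 + B) * Y ^ (2 + B)) (T := |s.im|) hK
    (by positivity) (by
      intro x hx y
      simp only [hg2]
      rw [norm_mul]
      have h1 := gr1 x hx y
      have h3 := gr3 SW hsub2 x hx y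
      calc _ ≤ (C1 * (q : ℝ) ^ (2 + B)) * Real.exp (3 * (|s.im| + |y|)) * Y ^ (2 + B) := by gcongr
        _ = _ := by ring)
  have hr1 := shift_res hD1 (a := -a) (b := b) (C := D1) (by linarith) hb (fun x hx y => hD1' x hx y)
  have hr2 := shift_right hD2 (a := c) (b := b) (C := D2) hc hcb
    (fun x hx y => hD2' x ⟨by linarith [hx.1], hx.2⟩ y)
  have hi1b := int_line hD1.continuous hb.ne' (fun y => hD1' b ⟨by linarith, le_rfl⟩ y)
  have hi2b := int_line hD2.continuous hb.ne' (fun y => hD2' b ⟨by linarith, le_rfl⟩ y)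
  have hsplit : (∫ y : ℝ, f1 ⟨b, y⟩ / (⟨b, y⟩ : ℂ)) =
      (∫ y : ℝ, (f1 ⟨b, y⟩ / (⟨b, y⟩ : ℂ) + f2 ⟨b, y⟩ / (⟨b, y⟩ : ℂ))) -
        ∫ y : ℝ, f2 ⟨c, y⟩ / (⟨c, y⟩ : ℂ) := by
    rw [integral_add hi1b hi2b, hr2]
    ring
  have hker0 : ker K 0 = 1 := by simp [ker]
  have hf10 : f1 0 = deriv χ.LFunction s + χ.LFunction s * Pol χ SX s := by
    simp only [hf1, hg1, add_zero, hker0, mul_one]
  rw [hf10, hsplit] at hr1
  have h6 := congrArg norm hr1
  have hpi : ‖(2 * Real.pi : ℂ)‖ = 2 * Real.pi := by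
    rw [norm_mul, norm_real, Real.norm_of_nonneg Real.pi_pos.le]; norm_num
  rw [norm_mul, hpi] at h6
  rw [h6]
  refine (norm_sub_le _ _).trans (add_le_add ((norm_sub_le _ _).trans (add_le_add ?_ ?_)) ?_)
  · refine (norm_integral_le_integral_norm _).trans (le_of_eq ?_)
    congr 1
    funext y
    congr 1
    simp only [hf1, hf2, hg1, hg2]
    rw [hPadd]
    ring
  · exact norm_integral_le_integral_norm _
  · exact norm_integral_le_integral_norm _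

end Pool.Agent.NH13
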