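import Pool.Agent.NH13.PerChar

/-!
# Summing over characters: few characters have small `ψ(x, χ)` on a long window
-/

set_option autoImplicit false

open Complex MeasureTheory Set Filter Topology

namespace Pool.Agent.NH13

open ArithmeticFunction (vonMangoldt)

lemma ww_exp_le (t : ℝ) : ww t * Real.exp (3 * |t|) ≤ Real.exp 324 * Real.exp (-(1 / 144) * t ^ 2) := by
  unfold ww
  rw [← Real.exp_add, ← Real.exp_add]
  apply Real.exp_le_exp.mpr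
  have : t ^ 2 = |t| ^ 2 := (sq_abs t).symm
  rw [this]
  nlinarith [sq_nonneg (|t| / 12 - 18)]

lemma int_ww_exp : Integrable (fun t : ℝ => ww t * Real.exp (3 * |t|)) := by
  refine ((integrable_exp_neg_mul_sq (b := 1 / 144) (by norm_num)).const_mul (Real.exp 324)).mono'
    ((ww_cont.mul (by fun_prop)).aestronglyMeasurable) (Eventually.of_forall fun t => ?_)
  rw [Real.norm_of_nonneg (mul_nonneg (ww_pos t).le (Real.exp_pos _).le)]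
  exact ww_exp_le t

lemma sq_le_exp (t : ℝ) : (1 + |t|) ^ 2 ≤ Real.exp (3 * |t|) := by
  have h2 := Real.add_one_le_exp |t|
  have h3 : 0 ≤ |t| := abs_nonneg t
  calc (1 + |t|) ^ 2 ≤ (Real.exp |t|) ^ 2 := by gcongr; linarith
    _ = Real.exp (2 * |t|) := by rw [← Real.exp_nat_mul]; norm_num
    _ ≤ _ := Real.exp_le_exp.mpr (by linarith)

lemma int_ww_sq : Integrable (fun t : ℝ => ww t * (1 + |t|) ^ 2) := by
  refine int_ww_exp.mono' ((ww_cont.mul (by fun_prop)).aestronglyMeasurable)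
    (Eventually.of_forall fun t => ?_)
  have := ww_pos t
  rw [Real.norm_of_nonneg (by positivity)]
  have := sq_le_exp t
  gcongr

lemma circ_le {q : ℕ} [NeZero q] {χ : DirichletCharacter ℂ q} (hχ : χ ≠ 1) {κ : ℝ} (hκ : 0 < κ)
    (hκ1 : κ ≤ 1 / 16) (t φ : ℝ) : circ χ κ t φ ≤ (1 + 4 * q) * (2 * (1 + |t|)) := by
  have hcos1 := Real.cos_le_one φ
  have hcos2 := Real.neg_one_le_cos φ
  have hsin : |Real.sin φ| ≤ 1 := Real.abs_sin_le_one φ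
  unfold circ
  refine (L_line_le hχ (by nlinarith) (by nlinarith) _).trans ?_
  have h3 := abs_add_le t (κ / 2 * Real.sin φ)
  rw [abs_mul, abs_of_pos (by linarith : 0 < κ / 2)] at h3
  have h4 : κ / 2 * |Real.sin φ| ≤ 1 := by
    have := abs_nonneg (Real.sin φ)
    nlinarith
  have := abs_nonneg t
  gcongr
  linarith

lemma CC_nonneg {q : ℕ} [NeZero q] (χ : DirichletCharacter ℂ q) (κ t : ℝ) : 0 ≤ CC χ κ t :=
  intervalIntegral.integral_nonneg (by positivity) (fun φ _ => norm_nonneg _)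

lemma JJ_nonneg {q : ℕ} [NeZero q] (χ : DirichletCharacter ℂ q) (κ t : ℝ) : 0 ≤ JJ χ κ t :=
  integral_nonneg fun y => by positivity

lemma CC_le {q : ℕ} [NeZero q] {χ : DirichletCharacter ℂ q} (hχ : χ ≠ 1) {κ : ℝ} (hκ : 0 < κ)
    (hκ1 : κ ≤ 1 / 16) (t : ℝ) : CC χ κ t ≤ 2 * Real.pi * ((1 + 4 * q) * (2 * (1 + |t|))) := by
  have hpi := Real.pi_pos
  have h : CC χ κ t ≤ ∫ _ in (0 : ℝ)..2 * Real.pi, (1 + 4 * (q : ℝ)) * (2 * (1 + |t|)) := by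
    unfold CC
    apply intervalIntegral.integral_mono_on (by positivity)
      ((circ_line hχ κ t).intervalIntegrable _ _) intervalIntegrable_const
    intro φ _
    exact circ_le hχ hκ hκ1 t φ
  rw [intervalIntegral.integral_const, smul_eq_mul, sub_zero] at h
  exact h

lemma int_CC {q : ℕ} [NeZero q] {χ : DirichletCharacter ℂ q} (hχ : χ ≠ 1) {κ : ℝ} (hκ : 0 < κ)
    (hκ1 : κ ≤ 1 / 16) : Integrable (fun t : ℝ => ww t * ((1 + |t|) * CC χ κ t)) := by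
  have hpi := Real.pi_pos
  refine (int_ww_sq.const_mul (2 * Real.pi * ((1 + 4 * q) * 2))).mono' ?_
    (Eventually.of_forall fun t => ?_)
  · exact (ww_cont.mul ((by fun_prop : Continuous (fun t : ℝ => 1 + |t|)).mul
      (CC_cont hχ κ))).aestronglyMeasurable
  · have h1 := (ww_pos t).le
    have h2 := CC_nonneg χ κ t
    rw [Real.norm_of_nonneg (by positivity)]
    calc ww t * ((1 + |t|) * CC χ κ t)
        ≤ ww t * ((1 + |t|) * (2 * Real.pi * ((1 + 4 * q) * (2 * (1 + |t|))))) := by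
          gcongr
          exact CC_le hχ hκ hκ1 t
      _ = _ := by ring

lemma JJ_meas {q : ℕ} [NeZero q] {χ : DirichletCharacter ℂ q} (hχ : χ ≠ 1) (κ : ℝ) :
    StronglyMeasurable (JJ χ κ) := by
  have hL : Continuous χ.LFunction := (DirichletCharacter.differentiable_LFunction hχ).continuous
  have h : Continuous (fun p : ℝ × ℝ => (⟨1 / 2 + κ, p.1 + p.2⟩ : ℂ)) := by
    have e : (fun p : ℝ × ℝ => (⟨1 / 2 + κ, p.1 + p.2⟩ : ℂ)) = fun p : ℝ × ℝ =>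
      ((1 / 2 + κ : ℝ) : ℂ) + ((p.1 + p.2 : ℝ) : ℂ) * I := by
      funext p; exact mk_re_im _ _
    rw [e]; fun_prop
  have h2 : Continuous (fun p : ℝ × ℝ => (1 + |p.2|) * Real.exp (-(p.2 ^ 2)) *
      ‖χ.LFunction ⟨1 / 2 + κ, p.1 + p.2⟩‖) :=
    (by fun_prop : Continuous (fun p : ℝ × ℝ => (1 + |p.2|) * Real.exp (-(p.2 ^ 2)))).mul
      (hL.comp h).norm
  exact StronglyMeasurable.integral_prod_right (f := fun t y : ℝ => (1 + |y|) *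
    Real.exp (-(y ^ 2)) * ‖χ.LFunction ⟨1 / 2 + κ, t + y⟩‖) h2.stronglyMeasurable

lemma JJ_le {q : ℕ} [NeZero q] {χ : DirichletCharacter ℂ q} (hχ : χ ≠ 1) {κ : ℝ} (hκ : 0 < κ)
    (hκ1 : κ ≤ 1 / 16) (t : ℝ) : JJ χ κ t ≤
      ((1 + 4 * q) * (1 + |t|)) * ∫ y : ℝ, (1 + |y|) ^ 2 * Real.exp (-(y ^ 2)) := by
  rw [← integral_const_mul]
  unfold JJ
  apply integral_mono (int_JJ hχ hκ (by linarith) t) (int_poly_gauss.const_mul _)
  intro y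
  have h1 := L_line_le hχ (σ := 1 / 2 + κ) (by linarith) (by linarith) (t + y)
  have h2 := one_add_abs_add t y
  show (1 + |y|) * Real.exp (-(y ^ 2)) * ‖χ.LFunction ⟨1 / 2 + κ, t + y⟩‖ ≤ _
  calc (1 + |y|) * Real.exp (-(y ^ 2)) * ‖χ.LFunction ⟨1 / 2 + κ, t + y⟩‖
      ≤ (1 + |y|) * Real.exp (-(y ^ 2)) * ((1 + 4 * q) * ((1 + |t|) * (1 + |y|))) := by
        gcongr
        refine h1.trans ?_
        gcongr
    _ = _ := by ring

lemma int_JJ2 {q : ℕ} [NeZero q] {χ : DirichletCharacter ℂ q} (hχ : χ ≠ 1) {κ : ℝ} (hκ : 0 < κ)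
    (hκ1 : κ ≤ 1 / 16) : Integrable (fun t : ℝ => ww t * ((1 + |t|) * JJ χ κ t)) := by
  obtain ⟨G, hG⟩ : ∃ G : ℝ, G = ∫ y : ℝ, (1 + |y|) ^ 2 * Real.exp (-(y ^ 2)) := ⟨_, rfl⟩
  refine (int_ww_sq.const_mul ((1 + 4 * q) * G)).mono' ?_ (Eventually.of_forall fun t => ?_)
  · exact ww_cont.aestronglyMeasurable.mul
      ((by fun_prop : Continuous (fun t : ℝ => 1 + |t|)).aestronglyMeasurable.mul
      (JJ_meas hχ κ).aestronglyMeasurable)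
  · have h1 := (ww_pos t).le
    have h2 := JJ_nonneg χ κ t
    rw [Real.norm_of_nonneg (by positivity)]
    have h3 := JJ_le hχ hκ hκ1 t
    rw [← hG] at h3
    calc ww t * ((1 + |t|) * JJ χ κ t)
        ≤ ww t * ((1 + |t|) * (((1 + 4 * q) * (1 + |t|)) * G)) := by
          gcongr
      _ = _ := by ring

/-- The hypothesis: `ψ(·, χ)` is small on `[X, Y]` in mean square, and at both ends. -/
def SmallOn {q : ℕ} (χ : DirichletCharacter ℂ q) (X Y θ : ℝ) : Prop :=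
  ‖psi χ X‖ ≤ θ * Real.sqrt X ∧ ‖psi χ Y‖ ≤ θ * Real.sqrt Y ∧
    ∫ x in Ioc X Y, ‖psi χ x‖ ^ 2 / x ^ 2 ≤ θ ^ 2

theorem per_char (A δ : ℝ) (hA : 1 ≤ A) (hδ : 0 < δ) : ∃ C : ℝ, 1 ≤ C ∧ ∀ (q : ℕ) [NeZero q]
    (χ : DirichletCharacter ℂ q), 3 ≤ q → χ.IsPrimitive → ∀ κ X Y θ : ℝ, 0 < κ → κ ≤ 1 / 16 →
    1 ≤ X → X * (q : ℝ) ^ (1 + δ) ≤ Y → Y ≤ (q : ℝ) ^ A → 0 < θ → SmallOn χ X Y θ →
    Real.log q ≤ C * (κ⁻¹ * (∫ t : ℝ, ww t * ((1 + |t|) * CC χ κ t)) + (q : ℝ)⁻¹ +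
      θ * (q : ℝ) ^ (2 * A * κ) / (κ * Real.sqrt κ) * ∫ t : ℝ, ww t * ((1 + |t|) * JJ χ κ t)) := by
  obtain ⟨C1, hC1, hFE⟩ := FE_bounds
  obtain ⟨C2, hC2, hll⟩ := left_line
  obtain ⟨C3, hC3, hphi⟩ := phi_bound A δ hA hδ
  obtain ⟨E0, hE0⟩ : ∃ E : ℝ, E = ∫ t : ℝ, ww t * Real.exp (3 * |t|) := ⟨_, rfl⟩
  have hE0' : 0 ≤ E0 := by
    rw [hE0]; exact integral_nonneg fun t => mul_nonneg (ww_pos t).le (Real.exp_pos _).le
  refine ⟨2 * C1 * (C2 + C3 + C3 * E0), ?_, ?_⟩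
  · have : 0 ≤ C3 * E0 := by positivity
    nlinarith
  intro q _ χ hq hχ κ X Y θ hκ hκ1 hX hXY hYA hθ hsm
  obtain ⟨hp1, hp2, hp3⟩ := hsm
  have hq2 : 2 ≤ q := by omega
  have hne := ne_one_of_prim hq2 hχ
  have hq0 : (0 : ℝ) < q := by exact_mod_cast NeZero.pos q
  have hq1 : (1 : ℝ) ≤ q := by exact_mod_cast NeZero.one_le
  have hlog : 1 ≤ Real.log q := by
    rw [Real.le_log_iff_exp_le hq0]
    have h1 := Real.exp_one_lt_d9
    have h2 : (3 : ℝ) ≤ q := by exact_mod_cast hq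
    linarith
  set ℓ := Real.log q with hℓ
  have hℓ0 : 0 < ℓ := by linarith
  have hgl := gauss_lower hne (κ := κ) (ℓ := ℓ) hκ (by linarith) hlog ⌊X⌋₊
    (fun n => (vonMangoldt n : ℂ) * χ (n : ZMod q)) (fun m => norm_coef_le χ m)
  obtain ⟨U, hU⟩ : ∃ U : ℝ, U = θ * (q : ℝ) ^ (2 * A * κ) / (κ * Real.sqrt κ) := ⟨_, rfl⟩
  have hsκ : 0 < Real.sqrt κ := Real.sqrt_pos.mpr hκ
  have hU0 : 0 ≤ U := by rw [hU]; positivity
  -- pointwise bound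
  have hpt : ∀ t : ℝ, ww t * (‖χ.LFunction ⟨1 / 2 + κ, t⟩‖ *
      ‖1 - (∑ m ∈ Finset.Icc 1 ⌊X⌋₊, (vonMangoldt m : ℂ) * χ (m : ZMod q) *
        (m : ℂ) ^ (-(⟨1 / 2 - κ, t⟩ : ℂ))) / ℓ‖) ≤
      (C1 / ℓ) * ((C2 / κ) * (ww t * ((1 + |t|) * CC χ κ t)) +
        (C3 * (q : ℝ)⁻¹) * (ww t * Real.exp (3 * |t|)) +
        (C3 * U) * (ww t * ((1 + |t|) * JJ χ κ t))) := by
    intro t
    have h1 := (hFE q χ hq2 hχ (1 / 2 - κ) t (by linarith) (by linarith)).2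
    have e1 : (1 - (1 / 2 - κ) : ℝ) = 1 / 2 + κ := by ring
    have e2 : (-(1 / 2 - (1 / 2 - κ)) : ℝ) = -κ := by ring
    rw [e1, e2] at h1
    have h2 := hll q χ hq2 hχ κ t hκ hκ1
    have h3 := hphi q χ hq2 hχ κ X Y θ hκ hκ1 hX hXY hYA hθ hp1 hp2 hp3 t
    rw [← hU] at h3
    have hPdef : (∑ m ∈ Finset.Icc 1 ⌊X⌋₊, (vonMangoldt m : ℂ) * χ (m : ZMod q) *
        (m : ℂ) ^ (-(⟨1 / 2 - κ, t⟩ : ℂ))) = Pol χ (Finset.Icc 1 ⌊X⌋₊) ⟨1 / 2 - κ, t⟩ := rfl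
    rw [hPdef]
    set s : ℂ := ⟨1 / 2 - κ, t⟩ with hs
    set P := Pol χ (Finset.Icc 1 ⌊X⌋₊) s with hP
    have h4 : ℓ * (‖χ.LFunction s‖ * ‖1 - P / ℓ‖) ≤
        C2 / κ * (q : ℝ) ^ κ * (1 + |t|) * CC χ κ t +
        C3 * ((q : ℝ)⁻¹ * Real.exp (3 * |t|) + U * (1 + |t|) * JJ χ κ t) := by
      have e3 : ℓ * (‖χ.LFunction s‖ * ‖1 - P / ℓ‖) = ‖(χ.LFunction s * (ℓ : ℂ) +
          deriv χ.LFunction s) - (deriv χ.LFunction s + χ.LFunction s * P)‖ := by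
        have : (χ.LFunction s * (ℓ : ℂ) + deriv χ.LFunction s) -
            (deriv χ.LFunction s + χ.LFunction s * P) = (ℓ : ℂ) * (χ.LFunction s * (1 - P / ℓ)) := by
          have hℓc : (ℓ : ℂ) ≠ 0 := by exact_mod_cast hℓ0.ne'
          field_simp
          ring
        rw [this, norm_mul, norm_mul, norm_real, Real.norm_of_nonneg hℓ0.le]
      rw [e3]
      exact (norm_sub_le _ _).trans (add_le_add h2 h3)
    have hww := (ww_pos t).le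
    have hqκ : (q : ℝ) ^ (-κ) * (q : ℝ) ^ κ = 1 := by rw [← Real.rpow_add hq0]; simp
    have hqκ1 : (q : ℝ) ^ (-κ) ≤ 1 := Real.rpow_le_one_of_one_le_of_nonpos hq1 (by linarith)
    have hCC := CC_nonneg χ κ t
    have hJJ := JJ_nonneg χ κ t
    have h5 : ‖χ.LFunction ⟨1 / 2 + κ, t⟩‖ * ‖1 - P / ℓ‖ ≤
        C1 / ℓ * (C2 / κ * (1 + |t|) * CC χ κ t +
        C3 * ((q : ℝ)⁻¹ * Real.exp (3 * |t|) + U * (1 + |t|) * JJ χ κ t)) := by
      calc ‖χ.LFunction ⟨1 / 2 + κ, t⟩‖ * ‖1 - P / ℓ‖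
          ≤ (C1 * (q : ℝ) ^ (-κ) * ‖χ.LFunction s‖) * ‖1 - P / ℓ‖ := by gcongr
        _ = C1 / ℓ * (q : ℝ) ^ (-κ) * (ℓ * (‖χ.LFunction s‖ * ‖1 - P / ℓ‖)) := by
            field_simp
        _ ≤ C1 / ℓ * (q : ℝ) ^ (-κ) * (C2 / κ * (q : ℝ) ^ κ * (1 + |t|) * CC χ κ t +
            C3 * ((q : ℝ)⁻¹ * Real.exp (3 * |t|) + U * (1 + |t|) * JJ χ κ t)) := by gcongr
        _ = C1 / ℓ * (C2 / κ * ((q : ℝ) ^ (-κ) * (q : ℝ) ^ κ) * (1 + |t|) * CC χ κ t +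
            (q : ℝ) ^ (-κ) * (C3 * ((q : ℝ)⁻¹ * Real.exp (3 * |t|) +
              U * (1 + |t|) * JJ χ κ t))) := by ring
        _ ≤ C1 / ℓ * (C2 / κ * 1 * (1 + |t|) * CC χ κ t +
            1 * (C3 * ((q : ℝ)⁻¹ * Real.exp (3 * |t|) +
              U * (1 + |t|) * JJ χ κ t))) := by
            rw [hqκ]; gcongr
        _ = _ := by ring
    calc _ ≤ ww t * (C1 / ℓ * (C2 / κ * (1 + |t|) * CC χ κ t +
        C3 * ((q : ℝ)⁻¹ * Real.exp (3 * |t|) + U * (1 + |t|) * JJ χ κ t))) := by gcongr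
      _ = _ := by ring
  have hi1 := (int_CC hne hκ hκ1).const_mul (C2 / κ)
  have hi2 := int_ww_exp.const_mul (C3 * (q : ℝ)⁻¹)
  have hi3 := (int_JJ2 hne hκ hκ1).const_mul (C3 * U)
  have hint := integral_mono_of_nonneg (μ := volume) (Eventually.of_forall fun t =>
    mul_nonneg (ww_pos t).le (mul_nonneg (norm_nonneg _) (norm_nonneg _)))
    (((hi1.add hi2).add hi3).const_mul (C1 / ℓ)) (Eventually.of_forall hpt)
  have h6 := hgl.trans hint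
  simp only [Pi.add_apply] at h6
  have j1 := integral_add (hi1.add hi2) hi3
  have j2 := integral_add hi1 hi2
  simp only [Pi.add_apply] at j1 j2
  rw [integral_const_mul, j1, j2, integral_const_mul,
    integral_const_mul, integral_const_mul, ← hE0] at h6
  set I1 := ∫ t : ℝ, ww t * ((1 + |t|) * CC χ κ t) with hI1
  set I2 := ∫ t : ℝ, ww t * ((1 + |t|) * JJ χ κ t) with hI2
  have hI1' : 0 ≤ I1 := integral_nonneg fun t =>
    mul_nonneg (ww_pos t).le (mul_nonneg (by positivity) (CC_nonneg χ κ t))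
  have hI2' : 0 ≤ I2 := integral_nonneg fun t =>
    mul_nonneg (ww_pos t).le (mul_nonneg (by positivity) (JJ_nonneg χ κ t))
  rw [← hU]
  have h7 : ℓ ≤ 2 * C1 * (C2 / κ * I1 + C3 * (q : ℝ)⁻¹ * E0 + C3 * U * I2) := by
    have h8 : ℓ * (1 / 2) ≤ ℓ * (C1 / ℓ * (C2 / κ * I1 + C3 * (q : ℝ)⁻¹ * E0 + C3 * U * I2)) := by
      gcongr
    have h9 : ℓ * (C1 / ℓ * (C2 / κ * I1 + C3 * (q : ℝ)⁻¹ * E0 + C3 * U * I2)) =
        C1 * (C2 / κ * I1 + C3 * (q : ℝ)⁻¹ * E0 + C3 * U * I2) := by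
      field_simp
    linarith
  have hqi : 0 ≤ (q : ℝ)⁻¹ := by positivity
  have hκi : 0 ≤ κ⁻¹ := by positivity
  have a1 : C2 / κ * I1 ≤ (C2 + C3 + C3 * E0) * (κ⁻¹ * I1) := by
    have e : C2 / κ * I1 = C2 * (κ⁻¹ * I1) := by rw [div_eq_mul_inv]; ring
    rw [e]
    have : 0 ≤ κ⁻¹ * I1 := by positivity
    have h10 : 0 ≤ C3 * E0 := by positivity
    nlinarith
  have a2 : C3 * (q : ℝ)⁻¹ * E0 ≤ (C2 + C3 + C3 * E0) * (q : ℝ)⁻¹ := by nlinarith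
  have a3 : C3 * U * I2 ≤ (C2 + C3 + C3 * E0) * (U * I2) := by
    have : 0 ≤ U * I2 := by positivity
    have h10 : 0 ≤ C3 * E0 := by positivity
    nlinarith
  calc ℓ ≤ 2 * C1 * (C2 / κ * I1 + C3 * (q : ℝ)⁻¹ * E0 + C3 * U * I2) := h7
    _ ≤ 2 * C1 * ((C2 + C3 + C3 * E0) * (κ⁻¹ * I1) + (C2 + C3 + C3 * E0) * (q : ℝ)⁻¹ +
        (C2 + C3 + C3 * E0) * (U * I2)) := by gcongr
    _ = _ := by ring

/-- Cauchy's inequality over a set of primitive characters -/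
lemma sum_norm_le {q : ℕ} [NeZero q] (hq : 2 ≤ q) {κ κ' : ℝ} (hκ : 0 < κ) (hκ' : κ / 2 ≤ κ')
    (hκ2 : κ' ≤ 1 / 2) (hlog : (1 + Real.log q) * (q : ℝ) ^ (-(κ / 2)) ≤ 1)
    (S : Finset (DirichletCharacter ℂ q)) (hS : S ⊆ Prim q) (t : ℝ) :
    ∑ χ ∈ S, ‖χ.LFunction ⟨1 / 2 + κ', t⟩‖ ≤
      6 * Real.sqrt ((S.card : ℝ) * q.totient / κ) * (1 + |t|) := by
  have hq1 : (1 : ℝ) ≤ q := by exact_mod_cast NeZero.one_le
  have hlog0 : 0 ≤ Real.log q := Real.log_natCast_nonneg q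
  have h1 := mean_sq hq (κ := κ') (by linarith) hκ2 (by
    refine le_trans ?_ hlog
    have : (q : ℝ) ^ (-κ') ≤ (q : ℝ) ^ (-(κ / 2)) :=
      Real.rpow_le_rpow_of_exponent_le hq1 (by linarith)
    gcongr) t
  have h2 : ∑ χ ∈ S, ‖χ.LFunction ⟨1 / 2 + κ', t⟩‖ ^ 2 ≤ 36 * (q.totient : ℝ) * (1 + |t|) ^ 2 / κ := by
    calc _ ≤ ∑ χ ∈ Prim q, ‖χ.LFunction ⟨1 / 2 + κ', t⟩‖ ^ 2 :=
          Finset.sum_le_sum_of_subset_of_nonneg hS fun _ _ _ => by positivity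
      _ ≤ 18 * (q.totient : ℝ) * (1 + |t|) ^ 2 / κ' := h1
      _ ≤ 18 * (q.totient : ℝ) * (1 + |t|) ^ 2 / (κ / 2) := by gcongr
      _ = _ := by field_simp; norm_num
  have h3 : (∑ χ ∈ S, ‖χ.LFunction ⟨1 / 2 + κ', t⟩‖) ^ 2 ≤
      (S.card : ℝ) * ∑ χ ∈ S, ‖χ.LFunction ⟨1 / 2 + κ', t⟩‖ ^ 2 := sq_sum_le_card_mul_sum_sq
  have h4 : (∑ χ ∈ S, ‖χ.LFunction ⟨1 / 2 + κ', t⟩‖) ^ 2 ≤
      (6 * Real.sqrt ((S.card : ℝ) * q.totient / κ) * (1 + |t|)) ^ 2 := by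
    rw [mul_pow, mul_pow, Real.sq_sqrt (by positivity)]
    calc _ ≤ (S.card : ℝ) * (36 * (q.totient : ℝ) * (1 + |t|) ^ 2 / κ) := by
          refine h3.trans ?_
          gcongr
      _ = _ := by ring
  exact (pow_le_pow_iff_left₀ (Finset.sum_nonneg fun _ _ => norm_nonneg _) (by positivity)
    two_ne_zero).mp h4

/-- the first family of integrals, summed -/
lemma sum_CC_le {q : ℕ} [NeZero q] (hq : 2 ≤ q) {κ : ℝ} (hκ : 0 < κ)
    (hκ1 : κ ≤ 1 / 16) (hlog : (1 + Real.log q) * (q : ℝ) ^ (-(κ / 2)) ≤ 1)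
    (S : Finset (DirichletCharacter ℂ q)) (hS : S ⊆ Prim q) :
    ∑ χ ∈ S, ∫ t : ℝ, ww t * ((1 + |t|) * CC χ κ t) ≤
      (12 * (2 * Real.pi) * ∫ t : ℝ, ww t * (1 + |t|) ^ 2) *
        Real.sqrt ((S.card : ℝ) * q.totient / κ) := by
  have hpi := Real.pi_pos
  have hne : ∀ χ ∈ S, χ ≠ 1 := fun χ hχ => ne_one_of_prim hq (mem_Prim.mp (hS hχ))
  rw [← integral_finsetSum _ (fun χ hχ => int_CC (hne χ hχ) hκ hκ1)]
  set R := Real.sqrt ((S.card : ℝ) * q.totient / κ) with hR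
  have hR0 : 0 ≤ R := Real.sqrt_nonneg _
  have e : (12 * (2 * Real.pi) * ∫ t : ℝ, ww t * (1 + |t|) ^ 2) * R =
      ∫ t : ℝ, (12 * (2 * Real.pi) * R) * (ww t * (1 + |t|) ^ 2) := by
    rw [integral_const_mul]; ring
  rw [e]
  apply integral_mono (integrable_finsetSum _ fun χ hχ => int_CC (hne χ hχ) hκ hκ1)
    (int_ww_sq.const_mul _)
  intro t
  show ∑ χ ∈ S, ww t * ((1 + |t|) * CC χ κ t) ≤ _
  rw [← Finset.mul_sum, ← Finset.mul_sum]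
  have h1 : ∑ χ ∈ S, CC χ κ t ≤ 2 * Real.pi * (12 * R * (1 + |t|)) := by
    unfold CC
    rw [← intervalIntegral.integral_finset_sum
      (fun χ hχ => (circ_line (hne χ hχ) κ t).intervalIntegrable _ _)]
    have h2 : ∫ φ in (0 : ℝ)..2 * Real.pi, ∑ χ ∈ S, circ χ κ t φ ≤
        ∫ _ in (0 : ℝ)..2 * Real.pi, 12 * R * (1 + |t|) := by
      apply intervalIntegral.integral_mono_on (by positivity)
      · apply Continuous.intervalIntegrable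
        exact continuous_finset_sum _ fun χ hχ => circ_line (hne χ hχ) κ t
      · exact intervalIntegrable_const
      · intro φ _
        have hcos1 := Real.cos_le_one φ
        have hcos2 := Real.neg_one_le_cos φ
        have hsin : |Real.sin φ| ≤ 1 := Real.abs_sin_le_one φ
        have h3 := sum_norm_le hq hκ (κ' := κ - κ / 2 * Real.cos φ) (by nlinarith) (by nlinarith)
          hlog S hS (t + κ / 2 * Real.sin φ)
        have e2 : (1 / 2 + (κ - κ / 2 * Real.cos φ) : ℝ) = 1 / 2 + κ - κ / 2 * Real.cos φ := by ring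
        rw [e2] at h3
        refine h3.trans ?_
        have h4 := abs_add_le t (κ / 2 * Real.sin φ)
        rw [abs_mul, abs_of_pos (by linarith : 0 < κ / 2)] at h4
        have h5 : κ / 2 * |Real.sin φ| ≤ 1 := by
          have := abs_nonneg (Real.sin φ)
          nlinarith
        have h6 := abs_nonneg t
        have h7 : 1 + |t + κ / 2 * Real.sin φ| ≤ 2 * (1 + |t|) := by linarith
        calc 6 * R * (1 + |t + κ / 2 * Real.sin φ|) ≤ 6 * R * (2 * (1 + |t|)) := by gcongr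
          _ = _ := by ring
    rw [intervalIntegral.integral_const, smul_eq_mul, sub_zero] at h2
    exact h2
  have h8 := (ww_pos t).le
  calc ww t * ((1 + |t|) * ∑ χ ∈ S, CC χ κ t)
      ≤ ww t * ((1 + |t|) * (2 * Real.pi * (12 * R * (1 + |t|)))) := by gcongr
    _ = _ := by ring

/-- the second family of integrals, summed -/
lemma sum_JJ_le {q : ℕ} [NeZero q] (hq : 2 ≤ q) {κ : ℝ} (hκ : 0 < κ)
    (hκ1 : κ ≤ 1 / 16) (hlog : (1 + Real.log q) * (q : ℝ) ^ (-(κ / 2)) ≤ 1)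
    (S : Finset (DirichletCharacter ℂ q)) (hS : S ⊆ Prim q) :
    ∑ χ ∈ S, ∫ t : ℝ, ww t * ((1 + |t|) * JJ χ κ t) ≤
      (6 * (∫ y : ℝ, (1 + |y|) ^ 2 * Real.exp (-(y ^ 2))) * ∫ t : ℝ, ww t * (1 + |t|) ^ 2) *
        Real.sqrt ((S.card : ℝ) * q.totient / κ) := by
  have hne : ∀ χ ∈ S, χ ≠ 1 := fun χ hχ => ne_one_of_prim hq (mem_Prim.mp (hS hχ))
  rw [← integral_finsetSum _ (fun χ hχ => int_JJ2 (hne χ hχ) hκ hκ1)]
  set R := Real.sqrt ((S.card : ℝ) * q.totient / κ) with hR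
  have hR0 : 0 ≤ R := Real.sqrt_nonneg _
  obtain ⟨G, hG⟩ : ∃ G : ℝ, G = ∫ y : ℝ, (1 + |y|) ^ 2 * Real.exp (-(y ^ 2)) := ⟨_, rfl⟩
  rw [← hG]
  have e : (6 * G * ∫ t : ℝ, ww t * (1 + |t|) ^ 2) * R =
      ∫ t : ℝ, (6 * G * R) * (ww t * (1 + |t|) ^ 2) := by
    rw [integral_const_mul]; ring
  rw [e]
  apply integral_mono (integrable_finsetSum _ fun χ hχ => int_JJ2 (hne χ hχ) hκ hκ1)
    (int_ww_sq.const_mul _)
  intro t
  show ∑ χ ∈ S, ww t * ((1 + |t|) * JJ χ κ t) ≤ _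
  rw [← Finset.mul_sum, ← Finset.mul_sum]
  have h1 : ∑ χ ∈ S, JJ χ κ t ≤ 6 * R * (1 + |t|) * G := by
    unfold JJ
    rw [← integral_finsetSum _ (fun χ hχ => int_JJ (hne χ hχ) hκ (by linarith) t), hG,
      ← integral_const_mul]
    apply integral_mono (integrable_finsetSum _ fun χ hχ => int_JJ (hne χ hχ) hκ (by linarith) t)
      (int_poly_gauss.const_mul _)
    intro y
    show ∑ χ ∈ S, (1 + |y|) * Real.exp (-(y ^ 2)) * ‖χ.LFunction ⟨1 / 2 + κ, t + y⟩‖ ≤ _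
    rw [← Finset.mul_sum]
    have h3 := sum_norm_le hq hκ (κ' := κ) (by linarith) (by linarith) hlog S hS (t + y)
    have h4 := one_add_abs_add t y
    calc (1 + |y|) * Real.exp (-(y ^ 2)) * ∑ χ ∈ S, ‖χ.LFunction ⟨1 / 2 + κ, t + y⟩‖
        ≤ (1 + |y|) * Real.exp (-(y ^ 2)) * (6 * R * ((1 + |t|) * (1 + |y|))) := by
          gcongr
          exact h3.trans (by gcongr)
      _ = _ := by ring
  have h8 := (ww_pos t).le
  calc ww t * ((1 + |t|) * ∑ χ ∈ S, JJ χ κ t)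
      ≤ ww t * ((1 + |t|) * (6 * R * (1 + |t|) * G)) := by gcongr
    _ = _ := by ring

/-- **Few characters are small on a long window.** -/
theorem count_bound (A δ : ℝ) (hA : 1 ≤ A) (hδ : 0 < δ) : ∃ C : ℝ, 1 ≤ C ∧ ∀ (q : ℕ) [NeZero q],
    3 ≤ q → ∀ κ θ : ℝ, 0 < κ → κ ≤ 1 / 16 → (1 + Real.log q) * (q : ℝ) ^ (-(κ / 2)) ≤ 1 → 0 < θ →
    θ * (q : ℝ) ^ (2 * A * κ) ≤ Real.sqrt κ →
    ∀ S : Finset (DirichletCharacter ℂ q), S ⊆ Prim q →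
    (∀ χ ∈ S, ∃ X Y : ℝ, 1 ≤ X ∧ X * (q : ℝ) ^ (1 + δ) ≤ Y ∧ Y ≤ (q : ℝ) ^ A ∧ SmallOn χ X Y θ) →
    (S.card : ℝ) ≤ C * q.totient / (κ ^ 3 * Real.log q ^ 2) := by
  obtain ⟨C, hC, hpc⟩ := per_char A δ hA hδ
  obtain ⟨W, hW⟩ : ∃ W : ℝ, W = ∫ t : ℝ, ww t * (1 + |t|) ^ 2 := ⟨_, rfl⟩
  obtain ⟨G, hG⟩ : ∃ G : ℝ, G = ∫ y : ℝ, (1 + |y|) ^ 2 * Real.exp (-(y ^ 2)) := ⟨_, rfl⟩
  have hW0 : 0 ≤ W := by
    rw [hW]; exact integral_nonneg fun t => mul_nonneg (ww_pos t).le (by positivity)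
  have hG0 : 0 ≤ G := by
    rw [hG]; exact integral_nonneg fun t => by positivity
  have hpi := Real.pi_pos
  obtain ⟨D, hD⟩ : ∃ D : ℝ, D = C * (12 * (2 * Real.pi) * W + 6 * G * W) := ⟨_, rfl⟩
  have hD0 : 0 ≤ D := by rw [hD]; positivity
  refine ⟨4 * C ^ 2 + 4 * D ^ 2, by nlinarith, ?_⟩
  intro q _ hq κ θ hκ hκ1 hlog hθ hθκ S hS hex
  have hq2 : 2 ≤ q := by omega
  have hq0 : (0 : ℝ) < q := by exact_mod_cast NeZero.pos q
  have hq1 : (1 : ℝ) ≤ q := by exact_mod_cast NeZero.one_le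
  have hℓ1 : 1 ≤ Real.log q := by
    rw [Real.le_log_iff_exp_le hq0]
    have h1 := Real.exp_one_lt_d9
    have h2 : (3 : ℝ) ≤ q := by exact_mod_cast hq
    linarith
  obtain ⟨ℓ, hℓ⟩ : ∃ ℓ : ℝ, ℓ = Real.log q := ⟨_, rfl⟩
  rw [← hℓ] at hℓ1
  have hℓ0 : 0 < ℓ := by linarith
  obtain ⟨n, hn⟩ : ∃ n : ℝ, n = (S.card : ℝ) := ⟨_, rfl⟩
  obtain ⟨F, hF⟩ : ∃ F : ℝ, F = (q.totient : ℝ) := ⟨_, rfl⟩
  have hn0 : 0 ≤ n := by rw [hn]; positivity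
  have hF0 : 0 ≤ F := by rw [hF]; positivity
  have hnF : n ≤ F := by
    rw [hn, hF]
    have : (S.card : ℝ) ≤ (Prim q).card := by exact_mod_cast Finset.card_le_card hS
    exact this.trans (card_Prim_le q)
  rw [← hℓ, ← hn, ← hF]
  have hκ3 : κ ^ 3 ≤ 1 := by
    have : κ ≤ 1 := by linarith
    exact pow_le_one₀ hκ.le this
  have hκ30 : 0 < κ ^ 3 := by positivity
  rcases lt_or_ge ℓ (2 * C) with hcase | hcase
  · -- small `q`: the trivial bound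
    rw [le_div_iff₀ (by positivity)]
    have h1 : ℓ ^ 2 ≤ 4 * C ^ 2 := by nlinarith
    have h2 : κ ^ 3 * ℓ ^ 2 ≤ 4 * C ^ 2 + 4 * D ^ 2 := by
      have h3 : κ ^ 3 * ℓ ^ 2 ≤ 1 * (4 * C ^ 2) := by gcongr
      nlinarith [sq_nonneg D]
    calc n * (κ ^ 3 * ℓ ^ 2) ≤ F * (4 * C ^ 2 + 4 * D ^ 2) := by gcongr
      _ = _ := by ring
  · -- sum the inequality over `S`
    have hsκ : 0 < Real.sqrt κ := Real.sqrt_pos.mpr hκ
    have h1 : ∀ χ ∈ S, ℓ ≤ C * (κ⁻¹ * (∫ t : ℝ, ww t * ((1 + |t|) * CC χ κ t)) + (q : ℝ)⁻¹ +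
        κ⁻¹ * ∫ t : ℝ, ww t * ((1 + |t|) * JJ χ κ t)) := by
      intro χ hχ
      obtain ⟨X, Y, hX, hXY, hYA, hsm⟩ := hex χ hχ
      have h2 := hpc q χ hq (mem_Prim.mp (hS hχ)) κ X Y θ hκ hκ1 hX hXY hYA hθ hsm
      rw [← hℓ] at h2
      refine h2.trans ?_
      have h3 : θ * (q : ℝ) ^ (2 * A * κ) / (κ * Real.sqrt κ) ≤ κ⁻¹ := by
        rw [div_le_iff₀ (by positivity)]
        calc _ ≤ Real.sqrt κ := hθκ
          _ = κ⁻¹ * (κ * Real.sqrt κ) := by field_simp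
      have h4 : 0 ≤ ∫ t : ℝ, ww t * ((1 + |t|) * JJ χ κ t) := integral_nonneg fun t =>
        mul_nonneg (ww_pos t).le (mul_nonneg (by positivity) (JJ_nonneg χ κ t))
      gcongr
    have h2 := Finset.sum_le_sum h1
    rw [Finset.sum_const, nsmul_eq_mul, ← Finset.mul_sum, Finset.sum_add_distrib,
      Finset.sum_add_distrib, ← Finset.mul_sum, ← Finset.mul_sum, Finset.sum_const, nsmul_eq_mul,
      ← hn] at h2
    have h3 := sum_CC_le hq2 hκ hκ1 hlog S hS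
    have h4 := sum_JJ_le hq2 hκ hκ1 hlog S hS
    rw [← hW, ← hn, ← hF] at h3
    rw [← hW, ← hG, ← hn, ← hF] at h4
    obtain ⟨R, hR⟩ : ∃ R : ℝ, R = Real.sqrt (n * F / κ) := ⟨_, rfl⟩
    rw [← hR] at h3 h4
    have hR0 : 0 ≤ R := by rw [hR]; exact Real.sqrt_nonneg _
    have hqi : (q : ℝ)⁻¹ ≤ 1 := inv_le_one_of_one_le₀ hq1
    have hκi : 0 < κ⁻¹ := inv_pos.mpr hκ
    have h5 : n * ℓ ≤ κ⁻¹ * (D * R) + C * n := by
      calc n * ℓ ≤ C * (κ⁻¹ * ∑ χ ∈ S, (∫ t : ℝ, ww t * ((1 + |t|) * CC χ κ t)) + n * (q : ℝ)⁻¹ +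
            κ⁻¹ * ∑ χ ∈ S, ∫ t : ℝ, ww t * ((1 + |t|) * JJ χ κ t)) := h2
        _ ≤ C * (κ⁻¹ * (12 * (2 * Real.pi) * W * R) + n * 1 + κ⁻¹ * (6 * G * W * R)) := by gcongr
        _ = _ := by rw [hD]; ring
    have h6 : n * ℓ / 2 ≤ κ⁻¹ * (D * R) := by nlinarith
    have h7 : n * ℓ * κ ≤ 2 * D * R := by
      have := mul_le_mul_of_nonneg_right h6 (by linarith : 0 ≤ 2 * κ)
      have e : κ⁻¹ * (D * R) * (2 * κ) = 2 * D * R := by field_simp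
      rw [e] at this
      linarith
    have h8 : (n * ℓ * κ) ^ 2 ≤ (2 * D * R) ^ 2 := pow_le_pow_left₀ (by positivity) h7 2
    have hR2 : R ^ 2 = n * F / κ := by rw [hR]; exact Real.sq_sqrt (by positivity)
    have h9 : n * (n * (κ ^ 3 * ℓ ^ 2)) ≤ n * (4 * D ^ 2 * F) := by
      have e1 : n * (n * (κ ^ 3 * ℓ ^ 2)) = (n * ℓ * κ) ^ 2 * κ := by ring
      have e2 : (2 * D * R) ^ 2 * κ = n * (4 * D ^ 2 * F) := by
        rw [mul_pow, hR2]; field_simp; ring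
      rw [e1, ← e2]
      gcongr
    rw [le_div_iff₀ (by positivity)]
    rcases hn0.eq_or_lt with h0 | h0
    · rw [← h0, zero_mul]; positivity
    · have h10 := le_of_mul_le_mul_left h9 h0
      nlinarith [sq_nonneg C]

end Pool.Agent.NH13
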