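import Pool.Agent.NH13.PerChar2

/-!
# Few characters are small on a long window: the sharp form
-/

set_option autoImplicit false

open Complex MeasureTheory Set Filter Topology

namespace Pool.Agent.NH13

open ArithmeticFunction (vonMangoldt)

lemma pow35_le_exp (t : ℝ) : (1 + |t|) ^ 35 ≤ 12 ^ 35 * Real.exp (3 * |t|) := by
  have h2 := Real.add_one_le_exp (|t| / 12)
  have h3 : 0 ≤ |t| := abs_nonneg t
  calc (1 + |t|) ^ 35 ≤ (12 * Real.exp (|t| / 12)) ^ 35 := by gcongr; linarith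
    _ = 12 ^ 35 * Real.exp (35 * (|t| / 12)) := by
        rw [mul_pow, ← Real.exp_nat_mul]; norm_num
    _ ≤ _ := by
        have : 35 * (|t| / 12) ≤ 3 * |t| := by linarith
        gcongr

lemma int_ww_35 : Integrable (fun t : ℝ => ww t * (1 + |t|) ^ 35) := by
  apply ww_int_of (F := fun t => (1 + |t|) ^ 35) (C := 12 ^ 35)
  · exact (by fun_prop : Continuous (fun t : ℝ => (1 + |t|) ^ 35)).aestronglyMeasurable
  · intro t
    rw [abs_of_nonneg (by positivity)]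
    exact pow35_le_exp t

lemma sum_sq_le_BB {q : ℕ} [NeZero q] {S : Finset (DirichletCharacter ℂ q)} (hS : S ⊆ Prim q)
    (κ κ' t y : ℝ) : ∑ χ ∈ S, LM χ κ κ' t y ^ 2 ≤ BB q κ κ' t y :=
  Finset.sum_le_sum_of_subset_of_nonneg hS fun _ _ _ => sq_nonneg _

lemma sum_CC2_le {q : ℕ} [NeZero q] (hq : 2 ≤ q) {κ C : ℝ} (hκ : 0 < κ) (hκ1 : κ ≤ 1 / 16)
    (hC : 0 ≤ C)
    (hm : ∀ κ' t y : ℝ, κ / 2 ≤ κ' → κ' ≤ 3 * κ / 2 →
      BB q κ κ' t y ≤ C * Ph q * ((1 + |t|) * uu κ y) ^ 34)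
    (S : Finset (DirichletCharacter ℂ q)) (hS : S ⊆ Prim q) :
    ∑ χ ∈ S, ∫ t : ℝ, ww t * ((1 + |t|) * CC2 χ κ t) ≤
      (2 * Real.pi * C * (3 / 2) ^ 34 * ∫ t : ℝ, ww t * (1 + |t|) ^ 35) * Ph q := by
  have hpi := Real.pi_pos
  have hP : 1 ≤ Ph q := one_le_Ph q
  have hne : ∀ χ ∈ S, χ ≠ 1 := fun χ hχ => ne_one_of_prim hq (mem_Prim.mp (hS hχ))
  rw [← integral_finsetSum _ (fun χ hχ => int_CC2 (hne χ hχ) hκ hκ1)]
  have e : (2 * Real.pi * C * (3 / 2) ^ 34 * ∫ t : ℝ, ww t * (1 + |t|) ^ 35) * Ph q =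
      ∫ t : ℝ, (2 * Real.pi * C * (3 / 2) ^ 34 * Ph q) * (ww t * (1 + |t|) ^ 35) := by
    rw [integral_const_mul]; ring
  rw [e]
  apply integral_mono (integrable_finsetSum _ fun χ hχ => int_CC2 (hne χ hχ) hκ hκ1)
    (int_ww_35.const_mul _)
  intro t
  show ∑ χ ∈ S, ww t * ((1 + |t|) * CC2 χ κ t) ≤ _
  rw [← Finset.mul_sum, ← Finset.mul_sum]
  have h1 : ∑ χ ∈ S, CC2 χ κ t ≤ 2 * Real.pi * (C * Ph q * (3 / 2) ^ 34 * (1 + |t|) ^ 34) := by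
    unfold CC2
    rw [← intervalIntegral.integral_finsetSum
      (fun χ hχ => (circ_line2 (hne χ hχ) κ t).intervalIntegrable _ _)]
    have h2 : ∫ φ in (0 : ℝ)..2 * Real.pi, ∑ χ ∈ S, (circ χ κ t φ * Mt χ κ t) ^ 2 ≤
        ∫ _ in (0 : ℝ)..2 * Real.pi, C * Ph q * (3 / 2) ^ 34 * (1 + |t|) ^ 34 := by
      apply intervalIntegral.integral_mono_on (by positivity)
      · apply Continuous.intervalIntegrable
        exact continuous_finsetSum _ fun χ hχ => circ_line2 (hne χ hχ) κ t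
      · exact intervalIntegrable_const
      · intro φ _
        have hcos1 := Real.cos_le_one φ
        have hcos2 := Real.neg_one_le_cos φ
        have hsin : |Real.sin φ| ≤ 1 := Real.abs_sin_le_one φ
        have h3 := sum_sq_le_BB hS κ (κ - κ / 2 * Real.cos φ) t (κ / 2 * Real.sin φ)
        have h4 := hm (κ - κ / 2 * Real.cos φ) t (κ / 2 * Real.sin φ) (by nlinarith) (by nlinarith)
        have e2 : ∀ χ : DirichletCharacter ℂ q, LM χ κ (κ - κ / 2 * Real.cos φ) t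
            (κ / 2 * Real.sin φ) = circ χ κ t φ * Mt χ κ t := by
          intro χ
          unfold LM circ Mt
          have : (1 / 2 + (κ - κ / 2 * Real.cos φ) : ℝ) = 1 / 2 + κ - κ / 2 * Real.cos φ := by ring
          rw [this]
        simp only [e2] at h3
        refine (h3.trans h4).trans ?_
        have h5 : uu κ (κ / 2 * Real.sin φ) ≤ 3 / 2 := by
          unfold uu
          rw [abs_mul, abs_of_pos (by linarith : 0 < κ / 2)]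
          have : κ / 2 * |Real.sin φ| / κ ≤ 1 / 2 := by
            rw [div_le_iff₀ hκ]; nlinarith
          linarith
        have h6 : 0 ≤ uu κ (κ / 2 * Real.sin φ) := by unfold uu; positivity
        have h7 := abs_nonneg t
        calc C * Ph q * ((1 + |t|) * uu κ (κ / 2 * Real.sin φ)) ^ 34
            ≤ C * Ph q * ((1 + |t|) * (3 / 2)) ^ 34 := by gcongr
          _ = _ := by rw [mul_pow]; ring
    rw [intervalIntegral.integral_const, smul_eq_mul, sub_zero] at h2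
    exact h2
  have h8 := (ww_pos t).le
  calc ww t * ((1 + |t|) * ∑ χ ∈ S, CC2 χ κ t)
      ≤ ww t * ((1 + |t|) * (2 * Real.pi * (C * Ph q * (3 / 2) ^ 34 * (1 + |t|) ^ 34))) := by gcongr
    _ = _ := by ring

lemma int_ww_34 : Integrable (fun t : ℝ => ww t * (1 + |t|) ^ 34) ∧
    ∫ t : ℝ, ww t * (1 + |t|) ^ 34 ≤ ∫ t : ℝ, ww t * (1 + |t|) ^ 35 := by
  have h : ∀ t : ℝ, (1 + |t|) ^ 34 ≤ (1 + |t|) ^ 35 := fun t =>
    pow_le_pow_right₀ (by have := abs_nonneg t; linarith) (by norm_num)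
  have hi : Integrable (fun t : ℝ => ww t * (1 + |t|) ^ 34) := by
    apply ww_int_of (F := fun t => (1 + |t|) ^ 34) (C := 12 ^ 35)
    · exact (by fun_prop : Continuous (fun t : ℝ => (1 + |t|) ^ 34)).aestronglyMeasurable
    · intro t
      rw [abs_of_nonneg (by positivity)]
      exact (h t).trans (pow35_le_exp t)
  refine ⟨hi, integral_mono hi int_ww_35 fun t => ?_⟩
  show ww t * (1 + |t|) ^ 34 ≤ ww t * (1 + |t|) ^ 35
  have := (ww_pos t).le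
  have := h t
  gcongr

lemma sum_J2_le {q : ℕ} [NeZero q] (hq : 2 ≤ q) {κ C h : ℝ} (hκ : 0 < κ) (hκ1 : κ ≤ 1 / 16)
    (hC : 0 ≤ C) (hh : 1 / κ ≤ h)
    (hm : ∀ κ' t y : ℝ, κ / 2 ≤ κ' → κ' ≤ 3 * κ / 2 →
      BB q κ κ' t y ≤ C * Ph q * ((1 + |t|) * uu κ y) ^ 34)
    (S : Finset (DirichletCharacter ℂ q)) (hS : S ⊆ Prim q) :
    ∑ χ ∈ S, ∫ t : ℝ, ww t * J2 χ κ h t ≤
      (C * Real.pi * ∫ t : ℝ, ww t * (1 + |t|) ^ 35) * Ph q / h := by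
  have hpi := Real.pi_pos
  have hP : 1 ≤ Ph q := one_le_Ph q
  have hh0 : 0 < h := by
    have : 0 < 1 / κ := by positivity
    linarith
  have hne : ∀ χ ∈ S, χ ≠ 1 := fun χ hχ => ne_one_of_prim hq (mem_Prim.mp (hS hχ))
  rw [← integral_finsetSum _ (fun χ hχ => int_J2 (hne χ hχ) hκ hκ1 hh0)]
  have h34 := int_ww_34
  have e : (C * Real.pi * ∫ t : ℝ, ww t * (1 + |t|) ^ 34) * Ph q / h =
      ∫ t : ℝ, (C * Real.pi * Ph q / h) * (ww t * (1 + |t|) ^ 34) := by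
    rw [integral_const_mul]; ring
  have e2 : ∫ t : ℝ, ∑ χ ∈ S, ww t * J2 χ κ h t ≤
      ∫ t : ℝ, (C * Real.pi * Ph q / h) * (ww t * (1 + |t|) ^ 34) := by
    apply integral_mono (integrable_finsetSum _ fun χ hχ => int_J2 (hne χ hχ) hκ hκ1 hh0)
      (h34.1.const_mul _)
    intro t
    show ∑ χ ∈ S, ww t * J2 χ κ h t ≤ _
    rw [← Finset.mul_sum]
    have h1 : ∑ χ ∈ S, J2 χ κ h t ≤ C * Ph q * (1 + |t|) ^ 34 * (Real.pi / h) := by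
      unfold J2
      rw [← integral_finsetSum _ (fun χ hχ => LM_int (hne χ hχ) hκ hκ1 hh0 t)]
      have hw := Wt_pow_int hh0 (n := 40) (j := 34) (by norm_num)
      refine le_trans ?_ (mul_le_mul_of_nonneg_left hw.2 (by positivity))
      rw [← integral_const_mul]
      apply integral_mono (integrable_finsetSum _ fun χ hχ => LM_int (hne χ hχ) hκ hκ1 hh0 t)
        (hw.1.const_mul _)
      intro y
      show ∑ χ ∈ S, LM χ κ κ t y ^ 2 * Wt h 40 y ≤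
        C * Ph q * (1 + |t|) ^ 34 * ((1 + h * |y|) ^ 34 * Wt h 40 y)
      rw [← Finset.sum_mul]
      have h3 := (sum_sq_le_BB hS κ κ t y).trans (hm κ t y (by linarith) (by linarith))
      have h4 := (Wt_pos hh0 40 y).le
      have h5 : uu κ y ≤ 1 + h * |y| := by
        unfold uu
        have : |y| / κ ≤ h * |y| := by
          rw [div_eq_mul_one_div, mul_comm]
          gcongr
        linarith
      have h6 : 0 ≤ uu κ y := by unfold uu; positivity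
      calc (∑ χ ∈ S, LM χ κ κ t y ^ 2) * Wt h 40 y
          ≤ (C * Ph q * ((1 + |t|) * (1 + h * |y|)) ^ 34) * Wt h 40 y := by
            gcongr
            exact h3.trans (by gcongr)
        _ = _ := by rw [mul_pow]; ring
    have h8 := (ww_pos t).le
    calc ww t * ∑ χ ∈ S, J2 χ κ h t ≤ ww t * (C * Ph q * (1 + |t|) ^ 34 * (Real.pi / h)) := by
          gcongr
      _ = _ := by ring
  rw [← e] at e2
  refine e2.trans ?_
  have := h34.2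
  gcongr

lemma int_P2_le {q : ℕ} (χ : DirichletCharacter ℂ q) {κ X Y h D : ℝ} (hκ : 0 < κ)
    (hY : 1 ≤ Y) (hh : 1 ≤ h) (hD : 0 ≤ D)
    (hp : ∀ y : ℝ, ∫ t : ℝ, ww t * PWn χ κ X Y (t + y) ^ 2 ≤ D * (1 + |y|) ^ 2) :
    ∫ t : ℝ, ww t * P2 χ κ X Y h t ≤ D * (Real.pi / h) := by
  have hh0 : 0 < h := by linarith
  have hc : Continuous (fun p : ℝ × ℝ => PWn χ κ X Y (p.1 + p.2)) :=
    (PWn_cont χ κ X Y).comp (by fun_prop)
  have hi : Integrable (Function.uncurry (fun t y : ℝ =>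
      ww t * (PWn χ κ X Y (t + y) ^ 2 * Wt h 40 y))) (volume.prod volume) := by
    have h1 : Integrable (fun p : ℝ × ℝ => ww p.1 * Wt h 40 p.2) (volume.prod volume) :=
      integrable_ww.mul_prod (Wt_int hh0 40)
    refine (h1.const_mul ((Y ^ (2 : ℝ)) ^ 2)).mono' ?_ (Eventually.of_forall fun p => ?_)
    · have h2 : Continuous (fun p : ℝ × ℝ => ww p.1 * (PWn χ κ X Y (p.1 + p.2) ^ 2 * Wt h 40 p.2)) :=
        (ww_cont.comp continuous_fst).mul ((hc.pow 2).mul ((Wt_cont hh0 40).comp continuous_snd))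
      exact h2.aestronglyMeasurable
    · have h3 := (ww_pos p.1).le
      have h4 := (Wt_pos hh0 40 p.2).le
      have h5 := PW_le χ (X := X) hκ hY (p.1 + p.2)
      show ‖ww p.1 * (PWn χ κ X Y (p.1 + p.2) ^ 2 * Wt h 40 p.2)‖ ≤ _
      rw [Real.norm_of_nonneg (by positivity)]
      calc ww p.1 * (PWn χ κ X Y (p.1 + p.2) ^ 2 * Wt h 40 p.2)
          ≤ ww p.1 * ((Y ^ (2 : ℝ)) ^ 2 * Wt h 40 p.2) := by
            unfold PWn
            gcongr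
        _ = _ := by ring
  have e1 : ∫ t : ℝ, ww t * P2 χ κ X Y h t =
      ∫ t : ℝ, ∫ y : ℝ, ww t * (PWn χ κ X Y (t + y) ^ 2 * Wt h 40 y) := by
    congr 1
    funext t
    unfold P2
    rw [integral_const_mul]
  rw [e1, integral_integral_swap hi]
  have e2 : ∀ y : ℝ, ∫ t : ℝ, ww t * (PWn χ κ X Y (t + y) ^ 2 * Wt h 40 y) =
      (∫ t : ℝ, ww t * PWn χ κ X Y (t + y) ^ 2) * Wt h 40 y := by
    intro y
    rw [← integral_mul_const]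
    congr 1
    funext t
    ring
  simp_rw [e2]
  have hw := Wt_pow_int hh0 (n := 40) (j := 2) (by norm_num)
  refine le_trans ?_ (mul_le_mul_of_nonneg_left hw.2 hD)
  rw [← integral_const_mul]
  apply integral_mono_of_nonneg (Eventually.of_forall fun y => mul_nonneg
    (integral_nonneg fun t => mul_nonneg (ww_pos t).le (sq_nonneg _)) (Wt_pos hh0 40 y).le)
    (hw.1.const_mul D) (Eventually.of_forall fun y => ?_)
  show (∫ t : ℝ, ww t * PWn χ κ X Y (t + y) ^ 2) * Wt h 40 y ≤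
    D * ((1 + h * |y|) ^ 2 * Wt h 40 y)
  have h4 := (Wt_pos hh0 40 y).le
  have h6 : 1 + |y| ≤ 1 + h * |y| := by
    have := abs_nonneg y
    nlinarith
  calc (∫ t : ℝ, ww t * PWn χ κ X Y (t + y) ^ 2) * Wt h 40 y
      ≤ (D * (1 + h * |y|) ^ 2) * Wt h 40 y := by
        gcongr
        refine (hp y).trans ?_
        gcongr
    _ = _ := by ring

/-- **Few characters are small on a long window**, with the true order of magnitude. -/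
theorem count2 (A δ : ℝ) (hA : 1 ≤ A) (hδ : 0 < δ) : ∃ C U₀ : ℝ, 1 ≤ C ∧ 640 ≤ U₀ ∧
    ∀ (q : ℕ) [NeZero q], 3 ≤ q → ∀ κ θ : ℝ, U₀ ≤ κ * Real.log q → κ ≤ 1 / 16 → 0 < θ →
    θ * (q : ℝ) ^ ((2 * A + δ) * κ) ≤ Real.log q →
    ∀ S : Finset (DirichletCharacter ℂ q), S ⊆ Prim q →
    (∀ χ ∈ S, ∃ X Y : ℝ, 1 ≤ X ∧ X * (q : ℝ) ^ (1 + δ) ≤ Y ∧ Y ≤ (q : ℝ) ^ A ∧ SmallOn χ X Y θ) →
    (S.card : ℝ) ≤ C * Ph q / (κ * Real.log q) ^ 2 := by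
  obtain ⟨C, hC, hpc⟩ := per_char2 A δ hA hδ
  obtain ⟨C1, U1, hC1, hU1, hms⟩ := moll_sq
  obtain ⟨C2, hC2, hpw⟩ := pwin_sq
  obtain ⟨W, hW⟩ : ∃ W : ℝ, W = ∫ t : ℝ, ww t * (1 + |t|) ^ 35 := ⟨_, rfl⟩
  have hW0 : 0 ≤ W := by
    rw [hW]; exact integral_nonneg fun t => mul_nonneg (ww_pos t).le (by positivity)
  have hpi := Real.pi_pos
  obtain ⟨D1, hD1⟩ : ∃ D : ℝ, D = 2 * Real.pi * C1 * (3 / 2) ^ 34 * W := ⟨_, rfl⟩
  obtain ⟨D2, hD2⟩ : ∃ D : ℝ, D = C1 * Real.pi * W * 160 / δ := ⟨_, rfl⟩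
  obtain ⟨D3, hD3⟩ : ∃ D : ℝ, D = C2 * Real.pi * 160 / δ := ⟨_, rfl⟩
  have hD10 : 0 ≤ D1 := by rw [hD1]; positivity
  have hD20 : 0 ≤ D2 := by rw [hD2]; positivity
  have hD30 : 0 < D3 := by rw [hD3]; positivity
  refine ⟨16 * C ^ 2 * D1 + 16 * C ^ 2 * D2 * D3 + 1, max (max U1 (160 / δ)) C, by
    have : 0 ≤ 16 * C ^ 2 * D1 + 16 * C ^ 2 * D2 * D3 := by positivity
    linarith, hU1.trans ((le_max_left _ _).trans (le_max_left _ _)), ?_⟩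
  intro q _ hq κ θ hU hκ1 hθ hθE S hS hex
  have hUU1 : U1 ≤ κ * Real.log q := ((le_max_left _ _).trans (le_max_left _ _)).trans hU
  have hUδ : 160 / δ ≤ κ * Real.log q := ((le_max_right _ _).trans (le_max_left _ _)).trans hU
  have hUC : C ≤ κ * Real.log q := (le_max_right _ _).trans hU
  have hκℓ : 640 ≤ κ * Real.log q := hU1.trans hUU1
  have hq2 : 2 ≤ q := by omega
  have hq0 : (0 : ℝ) < q := by exact_mod_cast NeZero.pos q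
  have hq1 : (1 : ℝ) ≤ q := by exact_mod_cast NeZero.one_le
  have hℓ1 : 1 ≤ Real.log q := by
    rw [Real.le_log_iff_exp_le hq0]
    have h1 := Real.exp_one_lt_d9
    have h2 : (3 : ℝ) ≤ q := by exact_mod_cast hq
    linarith
  obtain ⟨ℓ, hℓ⟩ : ∃ ℓ : ℝ, ℓ = Real.log q := ⟨_, rfl⟩
  have hms' := hms q hq κ
  rw [← hℓ] at hℓ1 hUU1 hUδ hUC hκℓ hθE hms'
  have hℓ0 : 0 < ℓ := by linarith
  have hκ : 0 < κ := by
    by_contra hc
    push Not at hc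
    nlinarith
  obtain ⟨h, hh⟩ : ∃ h : ℝ, h = δ * ℓ / 160 := ⟨_, rfl⟩
  have hhκ : 1 / κ ≤ h := by
    rw [hh, div_le_div_iff₀ hκ (by norm_num)]
    rw [div_le_iff₀ hδ] at hUδ
    linarith
  have hh1 : 1 ≤ h := by
    refine le_trans ?_ hhκ
    rw [le_div_iff₀ hκ]; linarith
  have hh0 : 0 < h := by linarith
  obtain ⟨n, hn⟩ : ∃ n : ℝ, n = (S.card : ℝ) := ⟨_, rfl⟩
  have hn0 : 0 ≤ n := by rw [hn]; positivity
  obtain ⟨P, hP⟩ : ∃ P : ℝ, P = Ph q := ⟨_, rfl⟩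
  have hP1 : 1 ≤ P := by rw [hP]; exact one_le_Ph q
  obtain ⟨E, hE⟩ : ∃ E : ℝ, E = (q : ℝ) ^ ((2 * A + δ) * κ) := ⟨_, rfl⟩
  have hE1 : 1 ≤ E := by rw [hE]; exact Real.one_le_rpow hq1 (by positivity)
  rw [← hE] at hθE
  have hm' : ∀ κ' t y : ℝ, κ / 2 ≤ κ' → κ' ≤ 3 * κ / 2 →
      BB q κ κ' t y ≤ C1 * Ph q * ((1 + |t|) * uu κ y) ^ 34 := fun κ' t y h1 h2 =>
    hms' κ' t y hUU1 hκ1 h1 h2
  have s1 := sum_CC2_le hq2 hκ hκ1 (by linarith) hm' S hS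
  have s2 := sum_J2_le hq2 hκ hκ1 (by linarith) hhκ hm' S hS
  rw [← hW, ← hD1, ← hP] at s1
  rw [← hW, ← hP] at s2
  obtain ⟨m, hmd⟩ : ∃ m : ℝ, m = 4 * C / (κ * ℓ) := ⟨_, rfl⟩
  obtain ⟨l, hld⟩ : ∃ l : ℝ, l = 4 * C * D3 * E * θ ^ 2 / (κ * ℓ ^ 2) := ⟨_, rfl⟩
  have hC0 : 0 < C := by linarith
  have hm0 : 0 < m := by rw [hmd]; positivity
  have hl0 : 0 < l := by rw [hld]; positivity
  have hqh : (q : ℝ) ^ (-(1 / 2) : ℝ) ≤ 1 := Real.rpow_le_one_of_one_le_of_nonpos hq1 (by norm_num)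
  -- the inequality for each character
  have h1 : ∀ χ ∈ S, ℓ ≤ C * κ⁻¹ * m * (∫ t : ℝ, ww t * ((1 + |t|) * CC2 χ κ t)) +
      C * E * κ⁻¹ * l * (∫ t : ℝ, ww t * J2 χ κ h t) + 3 * (ℓ / 4) := by
    intro χ hχ
    obtain ⟨X, Y, hX, hXY, hYA, hsm⟩ := hex χ hχ
    have h2 := hpc q χ hq (mem_Prim.mp (hS hχ)) κ X Y (by rw [← hℓ]; exact hκℓ) hκ1 hX hXY hYA m l
      hm0 hl0
    rw [← hℓ, ← hE, ← hh] at h2
    have hXY' : X ≤ Y := by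
      refine le_trans ?_ hXY
      have : 1 ≤ (q : ℝ) ^ (1 + δ) := Real.one_le_rpow hq1 (by linarith)
      nlinarith
    have h3 : ∀ y : ℝ, ∫ t : ℝ, ww t * PWn χ κ X Y (t + y) ^ 2 ≤ C2 * θ ^ 2 * (1 + |y|) ^ 2 :=
      fun y => hpw q χ κ X Y θ y hκ (by linarith) hX hXY' hθ hsm
    have h4 := int_P2_le χ hκ (hX.trans hXY') hh1 (by positivity : 0 ≤ C2 * θ ^ 2) h3
    have h5 : C2 * θ ^ 2 * (Real.pi / h) = D3 * θ ^ 2 / ℓ := by
      rw [hD3, hh]; field_simp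
    rw [h5] at h4
    have t1 : C * (κ⁻¹ * m⁻¹) = ℓ / 4 := by rw [hmd]; field_simp
    have t2 : C * (q : ℝ) ^ (-(1 / 2) : ℝ) ≤ ℓ / 4 := by
      have h6 : 16 * C ≤ ℓ := by nlinarith
      nlinarith
    have t3 : C * (E * κ⁻¹ * (l⁻¹ * (D3 * θ ^ 2 / ℓ))) = ℓ / 4 := by
      rw [hld]
      have hE0 : 0 < E := by linarith
      field_simp
    have t4 : C * (E * κ⁻¹ * (l⁻¹ * ∫ t : ℝ, ww t * P2 χ κ X Y h t)) ≤ ℓ / 4 := by
      rw [← t3]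
      gcongr
    calc ℓ ≤ C * (κ⁻¹ * (m * (∫ t : ℝ, ww t * ((1 + |t|) * CC2 χ κ t)) + m⁻¹) +
          (q : ℝ) ^ (-(1 / 2) : ℝ) + E * κ⁻¹ * (l * (∫ t : ℝ, ww t * J2 χ κ h t) +
          l⁻¹ * ∫ t : ℝ, ww t * P2 χ κ X Y h t)) := h2
      _ = C * κ⁻¹ * m * (∫ t : ℝ, ww t * ((1 + |t|) * CC2 χ κ t)) +
          C * E * κ⁻¹ * l * (∫ t : ℝ, ww t * J2 χ κ h t) + C * (κ⁻¹ * m⁻¹) +
          C * (q : ℝ) ^ (-(1 / 2) : ℝ) +
          C * (E * κ⁻¹ * (l⁻¹ * ∫ t : ℝ, ww t * P2 χ κ X Y h t)) := by ring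
      _ ≤ C * κ⁻¹ * m * (∫ t : ℝ, ww t * ((1 + |t|) * CC2 χ κ t)) +
          C * E * κ⁻¹ * l * (∫ t : ℝ, ww t * J2 χ κ h t) + ℓ / 4 + ℓ / 4 + ℓ / 4 := by
          rw [t1]; linarith
      _ = _ := by ring
  have h2 := Finset.sum_le_sum h1
  rw [Finset.sum_const, nsmul_eq_mul, Finset.sum_add_distrib, Finset.sum_add_distrib,
    ← Finset.mul_sum, ← Finset.mul_sum, Finset.sum_const, nsmul_eq_mul, ← hn] at h2
  have hκi : 0 < κ⁻¹ := inv_pos.mpr hκ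
  have hE0 : 0 < E := by linarith
  have h3 : n * (ℓ / 4) ≤ C * κ⁻¹ * m * (D1 * P) + C * E * κ⁻¹ * l * (D2 * P / ℓ) := by
    have h4 : C1 * Real.pi * W * P / h = D2 * P / ℓ := by
      rw [hD2, hh]; field_simp
    rw [h4] at s2
    have h5 : C * κ⁻¹ * m * ∑ χ ∈ S, (∫ t : ℝ, ww t * ((1 + |t|) * CC2 χ κ t)) ≤
        C * κ⁻¹ * m * (D1 * P) := by gcongr
    have h6 : C * E * κ⁻¹ * l * ∑ χ ∈ S, (∫ t : ℝ, ww t * J2 χ κ h t) ≤
        C * E * κ⁻¹ * l * (D2 * P / ℓ) := by gcongr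
    linarith
  have h4 : C * κ⁻¹ * m * (D1 * P) = (4 * C ^ 2 * D1 * P) * (κ * ℓ)⁻¹ ^ 2 * ℓ := by
    rw [hmd]; field_simp
  have h5 : C * E * κ⁻¹ * l * (D2 * P / ℓ) ≤ (4 * C ^ 2 * D2 * D3 * P) * (κ * ℓ)⁻¹ ^ 2 * ℓ := by
    have e1 : C * E * κ⁻¹ * l * (D2 * P / ℓ) = (4 * C ^ 2 * D2 * D3 * P) * (θ * E) ^ 2 *
        (κ * ℓ)⁻¹ ^ 2 * ℓ⁻¹ := by
      rw [hld]; field_simp
    rw [e1]
    have e2 : (θ * E) ^ 2 ≤ ℓ ^ 2 := by gcongr
    calc (4 * C ^ 2 * D2 * D3 * P) * (θ * E) ^ 2 * (κ * ℓ)⁻¹ ^ 2 * ℓ⁻¹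
        ≤ (4 * C ^ 2 * D2 * D3 * P) * ℓ ^ 2 * (κ * ℓ)⁻¹ ^ 2 * ℓ⁻¹ := by gcongr
      _ = _ := by field_simp
  rw [← hn, ← hℓ, ← hP, le_div_iff₀ (by positivity)]
  have h6 : n * (ℓ / 4) ≤ (4 * C ^ 2 * D1 + 4 * C ^ 2 * D2 * D3) * P * (κ * ℓ)⁻¹ ^ 2 * ℓ := by
    calc _ ≤ _ := h3
      _ ≤ (4 * C ^ 2 * D1 * P) * (κ * ℓ)⁻¹ ^ 2 * ℓ + (4 * C ^ 2 * D2 * D3 * P) * (κ * ℓ)⁻¹ ^ 2 * ℓ := by
          rw [h4]; linarith
      _ = _ := by ring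
  have h7 : n * (κ * ℓ) ^ 2 * (ℓ / 4) ≤ (4 * C ^ 2 * D1 + 4 * C ^ 2 * D2 * D3) * P * ℓ := by
    have h8 := mul_le_mul_of_nonneg_right h6 (by positivity : 0 ≤ (κ * ℓ) ^ 2)
    have e1 : (4 * C ^ 2 * D1 + 4 * C ^ 2 * D2 * D3) * P * (κ * ℓ)⁻¹ ^ 2 * ℓ * (κ * ℓ) ^ 2 =
        (4 * C ^ 2 * D1 + 4 * C ^ 2 * D2 * D3) * P * ℓ := by field_simp
    rw [e1] at h8
    linarith
  have h9 : n * (κ * ℓ) ^ 2 ≤ (16 * C ^ 2 * D1 + 16 * C ^ 2 * D2 * D3) * P := by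
    have e1 : (4 * C ^ 2 * D1 + 4 * C ^ 2 * D2 * D3) * P * ℓ =
        ((16 * C ^ 2 * D1 + 16 * C ^ 2 * D2 * D3) * P) * (ℓ / 4) := by ring
    rw [e1] at h7
    exact le_of_mul_le_mul_right h7 (by positivity)
  linarith

end Pool.Agent.NH13
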