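import Pool.Agent.NH13.MeanSq
import Pool.Agent.H385R2.PrimMass

/-!
# The mean square of a Dirichlet polynomial over the primitive characters
-/

set_option autoImplicit false

open Finset

namespace Pool.Agent.NH13

open ComplexConjugate
open H385 (phs)

/-- the restricted coefficients -/
noncomputable def rc (d : ℕ) (c : ℕ → ℂ) (n : ℕ) : ℂ := if n.Coprime d then c n else 0

lemma rc_zero {d : ℕ} {c : ℕ → ℂ} {n : ℕ} (h : ¬ n.Coprime d) : rc d c n = 0 := if_neg h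

/-- the mean square over all characters mod `e` -/
lemma all_sq (d e : ℕ) [NeZero e] (hed : e ∣ d) (c : ℕ → ℂ) (N : ℕ) :
    ∑ χ : DirichletCharacter ℂ e, ‖∑ n ∈ Icc 1 N, rc d c n * χ (n : ZMod e)‖ ^ 2 =
      (e.totient : ℝ) * ∑ m ∈ Icc 1 N, ∑ n ∈ Icc 1 N,
        if (m : ZMod e) = (n : ZMod e) then (rc d c m * conj (rc d c n)).re else 0 := by
  have h1 : ∀ χ : DirichletCharacter ℂ e, ((‖∑ n ∈ Icc 1 N, rc d c n * χ (n : ZMod e)‖ ^ 2 : ℝ) : ℂ) =
      ∑ m ∈ Icc 1 N, ∑ n ∈ Icc 1 N, (rc d c m * conj (rc d c n)) *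
        (χ (m : ZMod e) * conj (χ (n : ZMod e))) := by
    intro χ
    rw [Complex.ofReal_pow, ← Complex.mul_conj', map_sum, Finset.sum_mul_sum]
    refine Finset.sum_congr rfl fun a _ => Finset.sum_congr rfl fun b _ => ?_
    rw [map_mul]
    ring
  have h2 : ((∑ χ : DirichletCharacter ℂ e, ‖∑ n ∈ Icc 1 N, rc d c n * χ (n : ZMod e)‖ ^ 2 : ℝ) : ℂ) =
      ∑ m ∈ Icc 1 N, ∑ n ∈ Icc 1 N, (rc d c m * conj (rc d c n)) *
        (if (m : ZMod e) = (n : ZMod e) then (e.totient : ℂ) else 0) := by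
    rw [Complex.ofReal_sum, Finset.sum_congr rfl (fun χ _ => h1 χ), Finset.sum_comm]
    refine Finset.sum_congr rfl fun m _ => ?_
    rw [Finset.sum_comm]
    refine Finset.sum_congr rfl fun n _ => ?_
    rw [← Finset.mul_sum, Pool.Agent.H442R2.TSM.TaskQJ.orth]
    by_cases hn : n.Coprime d
    · have hu : IsUnit (n : ZMod e) := by
        rw [ZMod.isUnit_iff_coprime]
        exact hn.coprime_dvd_right hed
      congr 1
      by_cases hmn : (m : ZMod e) = (n : ZMod e)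
      · rw [if_pos hmn, if_pos ⟨hmn, hu⟩]
      · rw [if_neg hmn, if_neg (fun h => hmn h.1)]
    · rw [rc_zero hn]; simp
  have h3 := congrArg Complex.re h2
  rw [Complex.ofReal_re] at h3
  rw [h3, Complex.re_sum, Finset.mul_sum]
  refine Finset.sum_congr rfl fun m _ => ?_
  rw [Complex.re_sum, Finset.mul_sum]
  refine Finset.sum_congr rfl fun n _ => ?_
  split_ifs
  · rw [← Complex.ofReal_natCast, Complex.re_mul_ofReal]; ring
  · simp

/-- the off-diagonal part -/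
noncomputable def offd (d e : ℕ) (c : ℕ → ℂ) (N : ℕ) : ℝ := ∑ m ∈ Icc 1 N, ∑ n ∈ Icc 1 N,
  if (m : ZMod e) = (n : ZMod e) ∧ m ≠ n then (rc d c m * conj (rc d c n)).re else 0

lemma split_diag (d e : ℕ) (c : ℕ → ℂ) (N : ℕ) :
    (∑ m ∈ Icc 1 N, ∑ n ∈ Icc 1 N,
        if (m : ZMod e) = (n : ZMod e) then (rc d c m * conj (rc d c n)).re else 0) =
      ∑ n ∈ Icc 1 N, ‖rc d c n‖ ^ 2 + offd d e c N := by
  unfold offd
  rw [← Finset.sum_add_distrib]
  refine Finset.sum_congr rfl fun m hm => ?_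
  have h1 : ‖rc d c m‖ ^ 2 = ∑ n ∈ Icc 1 N, if m = n then (rc d c m * conj (rc d c n)).re else 0 := by
    rw [Finset.sum_ite_eq, if_pos hm, Complex.mul_conj, Complex.ofReal_re, Complex.normSq_eq_norm_sq]
  rw [h1, ← Finset.sum_add_distrib]
  refine Finset.sum_congr rfl fun n _ => ?_
  by_cases hmn : m = n
  · subst hmn
    simp
  · rw [if_neg hmn, zero_add]
    by_cases h : (m : ZMod e) = (n : ZMod e)
    · rw [if_pos h, if_pos ⟨h, hmn⟩]
    · rw [if_neg h, if_neg (fun h' => h h'.1)]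

lemma offd_le (d e : ℕ) [NeZero e] (c : ℕ → ℂ) (N : ℕ) :
    (e.totient : ℝ) * |offd d e c N| ≤ N * ∑ n ∈ Icc 1 N, ‖rc d c n‖ ^ 2 := by
  have he : 0 < e := NeZero.pos e
  have he0 : (0 : ℝ) < e := by exact_mod_cast he
  obtain ⟨D, hD⟩ : ∃ D : ℝ, D = ∑ n ∈ Icc 1 N, ‖rc d c n‖ ^ 2 := ⟨_, rfl⟩
  rw [← hD]
  have hc1 : ∀ m ∈ Icc 1 N, ∑ n ∈ Icc 1 N, (if (m : ZMod e) = (n : ZMod e) ∧ m ≠ n then (1 : ℝ) else 0) ≤
      N / e := by
    intro m hm
    rw [← Finset.sum_filter, Finset.sum_const, nsmul_eq_mul, mul_one, le_div_iff₀ he0]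
    have h1 := Pool.Agent.H442R2.TSM.TaskQJ.count e N (m : ZMod e)
    have h2 : insert m ((Icc 1 N).filter (fun n : ℕ => (m : ZMod e) = (n : ZMod e) ∧ m ≠ n)) ⊆
        (Icc 1 N).filter fun n : ℕ => (n : ZMod e) = (m : ZMod e) := by
      intro n hn
      rw [mem_insert, mem_filter] at hn
      rw [mem_filter]
      rcases hn with rfl | hn
      · exact ⟨hm, rfl⟩
      · exact ⟨hn.1, hn.2.1.symm⟩
    have h3 := Finset.card_le_card h2
    rw [Finset.card_insert_of_notMem (by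
      rw [mem_filter]
      rintro ⟨_, _, h⟩
      exact h rfl)] at h3
    have h4 : e * (((Icc 1 N).filter (fun n : ℕ => (m : ZMod e) = (n : ZMod e) ∧ m ≠ n)).card + 1) ≤
        e + N := (Nat.mul_le_mul_left _ h3).trans h1
    have h5 : e * ((Icc 1 N).filter (fun n : ℕ => (m : ZMod e) = (n : ZMod e) ∧ m ≠ n)).card ≤ N := by
      rw [mul_add, mul_one] at h4; omega
    rw [mul_comm]
    exact_mod_cast h5
  have h1 : |offd d e c N| ≤ ∑ m ∈ Icc 1 N, ∑ n ∈ Icc 1 N,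
      (if (m : ZMod e) = (n : ZMod e) ∧ m ≠ n then (1 : ℝ) else 0) *
        ((‖rc d c m‖ ^ 2 + ‖rc d c n‖ ^ 2) / 2) := by
    unfold offd
    refine (Finset.abs_sum_le_sum_abs _ _).trans (Finset.sum_le_sum fun m _ => ?_)
    refine (Finset.abs_sum_le_sum_abs _ _).trans (Finset.sum_le_sum fun n _ => ?_)
    split_ifs with h
    · rw [one_mul]
      refine (Complex.abs_re_le_norm _).trans ?_
      rw [norm_mul, Complex.norm_conj]
      nlinarith [sq_nonneg (‖rc d c m‖ - ‖rc d c n‖)]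
    · simp
  have h2 : (∑ m ∈ Icc 1 N, ∑ n ∈ Icc 1 N,
      (if (m : ZMod e) = (n : ZMod e) ∧ m ≠ n then (1 : ℝ) else 0) *
        ((‖rc d c m‖ ^ 2 + ‖rc d c n‖ ^ 2) / 2)) = ∑ m ∈ Icc 1 N, ‖rc d c m‖ ^ 2 *
        ∑ n ∈ Icc 1 N, (if (m : ZMod e) = (n : ZMod e) ∧ m ≠ n then (1 : ℝ) else 0) := by
    have h3 : ∀ m n : ℕ, (if (m : ZMod e) = (n : ZMod e) ∧ m ≠ n then (1 : ℝ) else 0) *
        ((‖rc d c m‖ ^ 2 + ‖rc d c n‖ ^ 2) / 2) =
        (1 / 2) * (‖rc d c m‖ ^ 2 * (if (m : ZMod e) = (n : ZMod e) ∧ m ≠ n then (1 : ℝ) else 0)) +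
        (1 / 2) * (‖rc d c n‖ ^ 2 * (if (m : ZMod e) = (n : ZMod e) ∧ m ≠ n then (1 : ℝ) else 0)) := by
      intro m n; ring
    simp_rw [h3, Finset.sum_add_distrib]
    have h4 : ∑ m ∈ Icc 1 N, ∑ n ∈ Icc 1 N, (1 / 2 : ℝ) * (‖rc d c n‖ ^ 2 *
        (if (m : ZMod e) = (n : ZMod e) ∧ m ≠ n then (1 : ℝ) else 0)) =
        ∑ m ∈ Icc 1 N, ∑ n ∈ Icc 1 N, (1 / 2 : ℝ) * (‖rc d c m‖ ^ 2 *
        (if (m : ZMod e) = (n : ZMod e) ∧ m ≠ n then (1 : ℝ) else 0)) := by
      rw [Finset.sum_comm]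
      refine Finset.sum_congr rfl fun m _ => Finset.sum_congr rfl fun n _ => ?_
      by_cases h : (n : ZMod e) = (m : ZMod e) ∧ n ≠ m
      · rw [if_pos h, if_pos ⟨h.1.symm, h.2.symm⟩]
      · rw [if_neg h, if_neg (fun h' => h ⟨h'.1.symm, h'.2.symm⟩)]
    rw [h4, ← Finset.sum_add_distrib]
    refine Finset.sum_congr rfl fun m _ => ?_
    rw [← Finset.mul_sum, ← Finset.mul_sum]
    ring
  have h5 : |offd d e c N| ≤ D * (N / e) := by
    refine h1.trans ?_
    rw [h2, hD, Finset.sum_mul]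
    exact Finset.sum_le_sum fun m hm => mul_le_mul_of_nonneg_left (hc1 m hm) (by positivity)
  have hφ : (e.totient : ℝ) ≤ e := by exact_mod_cast Nat.totient_le e
  have hD0 : 0 ≤ D := by rw [hD]; positivity
  calc (e.totient : ℝ) * |offd d e c N| ≤ e * (D * (N / e)) := by gcongr
    _ = N * D := by field_simp

open Classical in
/-- the mean square over the primitive characters mod `f` -/
noncomputable def PS (d : ℕ) (c : ℕ → ℂ) (N f : ℕ) : ℝ :=
  ∑ χ ∈ (univ : Finset (DirichletCharacter ℂ f)).filter (fun χ => χ.IsPrimitive),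
    ‖∑ n ∈ Icc 1 N, rc d c n * χ (n : ZMod f)‖ ^ 2

open Classical in
lemma fiber_sum (d e : ℕ) (hd : d ≠ 0) (hed : e ∣ d) (c : ℕ → ℂ) (N : ℕ) :
    ∑ f ∈ e.divisors, PS d c N f =
      ∑ χ : DirichletCharacter ℂ e, ‖∑ n ∈ Icc 1 N, rc d c n * χ (n : ZMod e)‖ ^ 2 := by
  have he0 : e ≠ 0 := fun h => hd (Nat.eq_zero_of_zero_dvd (h ▸ hed))
  have : NeZero e := ⟨he0⟩
  have h1 : ∀ χ ∈ (univ : Finset (DirichletCharacter ℂ e)), χ.conductor ∈ e.divisors := by
    intro χ _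
    exact Nat.mem_divisors.mpr ⟨χ.conductor_dvd_level, he0⟩
  rw [← sum_fiberwise_of_maps_to h1]
  apply sum_congr rfl
  intro f hf
  rw [Nat.mem_divisors] at hf
  have hfe := hf.1
  have h2 : ((univ : Finset (DirichletCharacter ℂ e)).filter (fun χ => χ.conductor = f)) =
      ((univ : Finset (DirichletCharacter ℂ f)).filter (fun χ => χ.IsPrimitive)).image
        (DirichletCharacter.changeLevel hfe) := by
    ext χ
    constructor
    · intro hχ
      rw [mem_filter] at hχ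
      obtain ⟨_, hc⟩ := hχ
      subst hc
      rw [mem_image]
      exact ⟨χ.primitiveCharacter, by
        rw [mem_filter]; exact ⟨mem_univ _, χ.primitiveCharacter_isPrimitive⟩,
        χ.changeLevel_primitiveCharacter⟩
    · intro h
      obtain ⟨ψ, hψ, rfl⟩ := mem_image.1 h
      have hc : (DirichletCharacter.changeLevel hfe ψ).conductor = f := by
        rw [DirichletCharacter.conductor_changeLevel]
        exact (mem_filter.1 hψ).2
      exact (@mem_filter _ _ (_) _ _).2 ⟨mem_univ _, hc⟩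
  rw [h2, sum_image]
  · unfold PS
    refine sum_congr rfl fun ψ _ => ?_
    congr 2
    refine sum_congr rfl fun n _ => ?_
    by_cases hn : n.Coprime d
    · congr 1
      have h3 := DirichletCharacter.changeLevel_eq_cast_of_dvd' ψ hfe (a := (n : ℤ))
        (by exact_mod_cast Nat.isCoprime_iff_coprime.mpr (hn.coprime_dvd_right hed))
      push_cast at h3
      exact h3.symm
    · rw [rc_zero hn]; simp
  · intro x _ y _ hxy
    exact DirichletCharacter.changeLevel_injective hfe hxy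

theorem prim_orth (d : ℕ) [NeZero d] (c : ℕ → ℂ) (N : ℕ) :
    ∑ χ ∈ Prim d, ‖∑ n ∈ Icc 1 N, c n * χ (n : ZMod d)‖ ^ 2 ≤
      ((phs d : ℝ) + N * d.divisors.card) * ∑ n ∈ Icc 1 N, ‖c n‖ ^ 2 := by
  classical
  have hd0 : d ≠ 0 := NeZero.ne d
  obtain ⟨D, hD⟩ : ∃ D : ℝ, D = ∑ n ∈ Icc 1 N, ‖rc d c n‖ ^ 2 := ⟨_, rfl⟩
  have hD0 : 0 ≤ D := by rw [hD]; positivity
  have hDle : D ≤ ∑ n ∈ Icc 1 N, ‖c n‖ ^ 2 := by
    rw [hD]
    refine Finset.sum_le_sum fun n _ => ?_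
    unfold rc
    split_ifs
    · exact le_rfl
    · simp
  -- inversion
  have hinv := (ArithmeticFunction.sum_eq_iff_sum_mul_moebius_eq_on (f := fun f => PS d c N f)
    (g := fun e => (e.totient : ℝ) * (D + offd d e c N)) {n | n ∣ d}
    (fun m n hmn hn => hmn.trans hn)).1 (by
      intro n hn hnd
      have : NeZero n := ⟨hn.ne'⟩
      rw [fiber_sum d n hd0 hnd, all_sq d n hnd, split_diag, ← hD]) d (NeZero.pos d) (dvd_refl d)
  have hL : ∑ χ ∈ Prim d, ‖∑ n ∈ Icc 1 N, c n * χ (n : ZMod d)‖ ^ 2 = PS d c N d := by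
    unfold PS Prim
    refine sum_congr ?_ fun χ _ => ?_
    · ext χ; simp
    congr 2
    refine sum_congr rfl fun n _ => ?_
    by_cases hn : n.Coprime d
    · unfold rc; rw [if_pos hn]
    · rw [rc_zero hn, χ.map_nonunit (by rwa [ZMod.isUnit_iff_coprime])]; simp
  rw [hL, ← hinv]
  have h1 : ∑ x ∈ d.divisorsAntidiagonal, ((ArithmeticFunction.moebius x.1 : ℤ) : ℝ) *
      ((x.2.totient : ℝ) * (D + offd d x.2 c N)) =
      (∑ x ∈ d.divisorsAntidiagonal, ((ArithmeticFunction.moebius x.1 : ℤ) : ℝ) * (x.2.totient : ℝ)) * D +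
      ∑ x ∈ d.divisorsAntidiagonal, ((ArithmeticFunction.moebius x.1 : ℤ) : ℝ) *
        ((x.2.totient : ℝ) * offd d x.2 c N) := by
    rw [Finset.sum_mul, ← Finset.sum_add_distrib]
    refine sum_congr rfl fun x _ => ?_
    ring
  rw [h1, H385.phs_moebius d (NeZero.pos d)]
  have h2 : ∑ x ∈ d.divisorsAntidiagonal, ((ArithmeticFunction.moebius x.1 : ℤ) : ℝ) *
        ((x.2.totient : ℝ) * offd d x.2 c N) ≤ ∑ x ∈ d.divisorsAntidiagonal, N * D := by
    refine Finset.sum_le_sum fun x hx => ?_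
    rw [Nat.mem_divisorsAntidiagonal] at hx
    have hx2 : x.2 ≠ 0 := by
      intro h
      rw [h, mul_zero] at hx
      exact hx.2 hx.1.symm
    have : NeZero x.2 := ⟨hx2⟩
    have h3 := offd_le d x.2 c N
    rw [← hD] at h3
    refine (le_abs_self _).trans ?_
    rw [abs_mul, abs_mul, abs_of_nonneg (Nat.cast_nonneg _ : (0 : ℝ) ≤ (x.2.totient : ℝ))]
    have h4 : |((ArithmeticFunction.moebius x.1 : ℤ) : ℝ)| ≤ 1 := by
      exact_mod_cast ArithmeticFunction.abs_moebius_le_one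
    calc _ ≤ 1 * ((x.2.totient : ℝ) * |offd d x.2 c N|) := by gcongr
      _ = _ := one_mul _
      _ ≤ _ := h3
  rw [Finset.sum_const, nsmul_eq_mul] at h2
  have h5 : d.divisorsAntidiagonal.card = d.divisors.card := by
    rw [← Nat.map_div_right_divisors, Finset.card_map]
  rw [h5] at h2
  calc (phs d : ℝ) * D + _ ≤ (phs d : ℝ) * D + (d.divisors.card : ℝ) * (N * D) := by gcongr
    _ = ((phs d : ℝ) + N * d.divisors.card) * D := by ring
    _ ≤ _ := by gcongr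

end Pool.Agent.NH13
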