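import Mathlib

/-!
# The three lines theorem with a Gaussian weight, and the three circles theorem
-/

set_option autoImplicit false

open Complex MeasureTheory Set Filter Topology Metric

namespace Pool.Agent.NH13

lemma norm_gauss_factor (x y σ t : ℝ) :
    ‖cexp (((⟨x, y⟩ : ℂ) - ⟨σ, t⟩) ^ 2)‖ = Real.exp ((x - σ) ^ 2) * Real.exp (-(y - t) ^ 2) := by
  rw [norm_exp, ← Real.exp_add]
  congr 1
  rw [pow_two, Complex.mul_re]
  simp
  ring

/-- three lines, with a Gaussian weight -/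
theorem three_lines {f : ℂ → ℂ} (hf : Differentiable ℂ f) {a b σ t D A B : ℝ} (hab : a < b)
    (h1 : a ≤ σ) (h2 : σ ≤ b) (hD : 0 ≤ D)
    (hg : ∀ x ∈ Icc a b, ∀ y : ℝ, ‖f ⟨x, y⟩‖ ≤ D * Real.exp (4 * |y|))
    (hA : ∀ y : ℝ, ‖f ⟨a, y⟩‖ * Real.exp (-(y - t) ^ 2) ≤ A)
    (hB : ∀ y : ℝ, ‖f ⟨b, y⟩‖ * Real.exp (-(y - t) ^ 2) ≤ B) :
    ‖f ⟨σ, t⟩‖ ≤ Real.exp ((b - a) ^ 2) *
      (A ^ (1 - (σ - a) / (b - a)) * B ^ ((σ - a) / (b - a))) := by
  set g : ℂ → ℂ := fun z => f z * cexp ((z - ⟨σ, t⟩) ^ 2) with hgdef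
  have hgd : Differentiable ℂ g := by
    apply hf.mul
    fun_prop
  have hng : ∀ x y : ℝ, ‖g ⟨x, y⟩‖ = ‖f ⟨x, y⟩‖ * (Real.exp ((x - σ) ^ 2) * Real.exp (-(y - t) ^ 2)) := by
    intro x y
    simp only [hgdef]
    rw [norm_mul, norm_gauss_factor]
  have hA0 : 0 ≤ A := le_trans (by positivity) (hA 0)
  have hB0 : 0 ≤ B := le_trans (by positivity) (hB 0)
  have hsq : ∀ x ∈ Icc a b, Real.exp ((x - σ) ^ 2) ≤ Real.exp ((b - a) ^ 2) := by
    intro x hx
    apply Real.exp_le_exp.mpr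
    apply sq_le_sq'
    · linarith [hx.1]
    · linarith [hx.2]
  set E : ℝ := Real.exp ((b - a) ^ 2) with hE
  have hE0 : 0 < E := Real.exp_pos _
  have hbdd : BddAbove ((norm ∘ g) '' HadamardThreeLines.verticalClosedStrip a b) := by
    refine ⟨D * E * Real.exp (4 * |t| + 4), ?_⟩
    rintro _ ⟨z, hz, rfl⟩
    have hz' : z.re ∈ Icc a b := hz
    have e : z = ⟨z.re, z.im⟩ := rfl
    simp only [Function.comp_apply]
    rw [e, hng]
    have h3 := hg z.re hz' z.im
    have h4 := hsq z.re hz'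
    have h5 : Real.exp (4 * |z.im|) * Real.exp (-(z.im - t) ^ 2) ≤ Real.exp (4 * |t| + 4) := by
      rw [← Real.exp_add]
      apply Real.exp_le_exp.mpr
      have h6 : |z.im| ≤ |z.im - t| + |t| := by
        have := abs_add_le (z.im - t) t
        simpa using this
      have h7 : (z.im - t) ^ 2 = |z.im - t| ^ 2 := (sq_abs _).symm
      rw [h7]
      nlinarith [sq_nonneg (|z.im - t| - 2)]
    calc ‖f ⟨z.re, z.im⟩‖ * (Real.exp ((z.re - σ) ^ 2) * Real.exp (-(z.im - t) ^ 2))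
        ≤ (D * Real.exp (4 * |z.im|)) * (E * Real.exp (-(z.im - t) ^ 2)) := by gcongr
      _ = D * E * (Real.exp (4 * |z.im|) * Real.exp (-(z.im - t) ^ 2)) := by ring
      _ ≤ D * E * Real.exp (4 * |t| + 4) := by gcongr
  have hres := HadamardThreeLines.norm_le_interp_of_mem_verticalClosedStrip' (f := g) (z := ⟨σ, t⟩)
    (a := E * A) (b := E * B) hab (show (⟨σ, t⟩ : ℂ).re ∈ Icc a b from ⟨h1, h2⟩) hgd.diffContOnCl hbdd
    (by
      intro z hz
      have hz' : z.re = a := hz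
      have e : z = ⟨a, z.im⟩ := by rw [← hz']
      rw [e, hng]
      have h3 := hA z.im
      have h4 := hsq a ⟨le_rfl, hab.le⟩
      calc ‖f ⟨a, z.im⟩‖ * (Real.exp ((a - σ) ^ 2) * Real.exp (-(z.im - t) ^ 2))
          = Real.exp ((a - σ) ^ 2) * (‖f ⟨a, z.im⟩‖ * Real.exp (-(z.im - t) ^ 2)) := by ring
        _ ≤ E * A := by gcongr)
    (by
      intro z hz
      have hz' : z.re = b := hz
      have e : z = ⟨b, z.im⟩ := by rw [← hz']
      rw [e, hng]
      have h3 := hB z.im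
      have h4 := hsq b ⟨hab.le, le_rfl⟩
      calc ‖f ⟨b, z.im⟩‖ * (Real.exp ((b - σ) ^ 2) * Real.exp (-(z.im - t) ^ 2))
          = Real.exp ((b - σ) ^ 2) * (‖f ⟨b, z.im⟩‖ * Real.exp (-(z.im - t) ^ 2)) := by ring
        _ ≤ E * B := by gcongr)
  rw [hng] at hres
  simp only [sub_self] at hres
  have e0 : (0 : ℝ) ^ 2 = 0 := by norm_num
  rw [e0, neg_zero, Real.exp_zero, mul_one, mul_one] at hres
  refine hres.trans (le_of_eq ?_)
  set θ : ℝ := (σ - a) / (b - a) with hθ
  rw [Real.mul_rpow hE0.le hA0, Real.mul_rpow hE0.le hB0]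
  have h8 : E ^ (1 - θ) * E ^ θ = E := by
    rw [← Real.rpow_add hE0, show 1 - θ + θ = 1 by ring, Real.rpow_one]
  calc E ^ (1 - θ) * A ^ (1 - θ) * (E ^ θ * B ^ θ) = (E ^ (1 - θ) * E ^ θ) * (A ^ (1 - θ) * B ^ θ) := by
        ring
    _ = E * (A ^ (1 - θ) * B ^ θ) := by rw [h8]

/-- three circles -/
theorem three_circles {h : ℂ → ℂ} {c : ℂ} {r1 r2 r3 M1 M2 : ℝ} (hr1 : 0 < r1) (h12 : r1 < r2)
    (h23 : r2 < r3) (hh : DifferentiableOn ℂ h (ball c r3))
    (hM1 : ∀ w ∈ closedBall c r1, ‖h w‖ ≤ M1) (hM2 : ∀ w ∈ closedBall c r2, ‖h w‖ ≤ M2)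
    {r : ℝ} (h1 : r1 ≤ r) (h2 : r ≤ r2) {w : ℂ} (hw : ‖w - c‖ = r) :
    ‖h w‖ ≤ M1 ^ (1 - Real.log (r / r1) / Real.log (r2 / r1)) *
      M2 ^ (Real.log (r / r1) / Real.log (r2 / r1)) := by
  have hr0 : 0 < r := lt_of_lt_of_le hr1 h1
  have hr2 : 0 < r2 := hr1.trans h12
  set a : ℝ := Real.log r1 with ha
  set b : ℝ := Real.log r2 with hb
  have hab : a < b := Real.log_lt_log hr1 h12
  set g : ℂ → ℂ := fun z => h (c + cexp z) with hg
  have hmem : ∀ z : ℂ, z.re ≤ b → c + cexp z ∈ closedBall c r2 := by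
    intro z hz
    rw [mem_closedBall, dist_eq_norm, add_sub_cancel_left, norm_exp]
    calc Real.exp z.re ≤ Real.exp b := Real.exp_le_exp.mpr hz
      _ = r2 := Real.exp_log hr2
  have hball : ∀ z : ℂ, z.re ≤ b → c + cexp z ∈ ball c r3 := fun z hz =>
    closedBall_subset_ball h23 (hmem z hz)
  have hdiff : ∀ z : ℂ, z.re ≤ b → DifferentiableAt ℂ g z := by
    intro z hz
    have h3 : DifferentiableAt ℂ h (c + cexp z) :=
      (hh _ (hball z hz)).differentiableAt (isOpen_ball.mem_nhds (hball z hz))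
    have h4 : DifferentiableAt ℂ (fun z => c + cexp z) z := by fun_prop
    exact DifferentiableAt.comp (g := h) (f := fun z => c + cexp z) z h3 h4
  have hd : DiffContOnCl ℂ g (HadamardThreeLines.verticalStrip a b) := by
    constructor
    · intro z hz
      have hz' : z.re ∈ Ioo a b := hz
      exact (hdiff z hz'.2.le).differentiableWithinAt
    · intro z hz
      have hz' : z.re ≤ b := by
        have hcl : IsClosed {z : ℂ | z.re ≤ b} := isClosed_le continuous_re continuous_const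
        have hsub : HadamardThreeLines.verticalStrip a b ⊆ {z : ℂ | z.re ≤ b} := by
          intro z hz
          have hz' : z.re ∈ Ioo a b := hz
          exact hz'.2.le
        exact hcl.closure_subset_iff.mpr hsub hz
      exact (hdiff z hz').continuousAt.continuousWithinAt
  have hbdd : BddAbove ((norm ∘ g) '' HadamardThreeLines.verticalClosedStrip a b) := by
    refine ⟨M2, ?_⟩
    rintro _ ⟨z, hz, rfl⟩
    have hz' : z.re ∈ Icc a b := hz
    exact hM2 _ (hmem z hz'.2)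
  -- the point
  have hwc : w - c ≠ 0 := by
    intro h0
    rw [h0, norm_zero] at hw
    linarith
  have hlog : cexp (Complex.log (w - c)) = w - c := Complex.exp_log hwc
  have hre : (Complex.log (w - c)).re = Real.log r := by rw [Complex.log_re, hw]
  have hgw : g (Complex.log (w - c)) = h w := by
    simp only [hg]
    rw [hlog]
    congr 1
    ring
  have hra : a ≤ Real.log r := Real.log_le_log hr1 h1
  have hrb : Real.log r ≤ b := Real.log_le_log hr0 h2
  have hres := HadamardThreeLines.norm_le_interp_of_mem_verticalClosedStrip' (f := g)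
    (z := Complex.log (w - c)) (a := M1) (b := M2) hab
    (show (Complex.log (w - c)).re ∈ Icc a b from by rw [hre]; exact ⟨hra, hrb⟩) hd hbdd
    (by
      intro z hz
      have hz' : z.re = a := hz
      apply hM1
      rw [mem_closedBall, dist_eq_norm, add_sub_cancel_left, norm_exp, hz', ha, Real.exp_log hr1])
    (by
      intro z hz
      have hz' : z.re = b := hz
      exact hM2 _ (hmem z hz'.le))
  rw [hgw, hre] at hres
  rw [Real.log_div hr0.ne' hr1.ne', Real.log_div hr2.ne' hr1.ne']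
  exact hres

end Pool.Agent.NH13
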