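import Pool.Agent.NH13.PWinSq
import Pool.Agent.NH13.EThree

/-!
# The entire functions `D_Y` and `G_Y = L' + L D_Y`
-/

set_option autoImplicit false

open Complex MeasureTheory Set Filter Topology

namespace Pool.Agent.NH13.EC

/-- `D_Y(s) = sum_{n <= Y} Λ(n) χ(n) n^{-s} - ψ(Y,χ) Y^{-s}` -/
noncomputable def DD {q : ℕ} (χ : DirichletCharacter ℂ q) (Y : ℝ) (s : ℂ) : ℂ :=
  Pol χ (Finset.Icc 1 ⌊Y⌋₊) s - (Y : ℂ) ^ (-s) * psi χ Y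

/-- `G_Y = L' + L D_Y` -/
noncomputable def GG {q : ℕ} [NeZero q] (χ : DirichletCharacter ℂ q) (Y : ℝ) (s : ℂ) : ℂ :=
  deriv χ.LFunction s + χ.LFunction s * DD χ Y s

lemma psi_eq_Pol {q : ℕ} (χ : DirichletCharacter ℂ q) (Y : ℝ) :
    psi χ Y = Pol χ (Finset.Icc 1 ⌊Y⌋₊) 0 := by
  unfold psi Pol
  simp

lemma psi_le_sq {q : ℕ} (χ : DirichletCharacter ℂ q) {Y : ℝ} (hY : 1 ≤ Y) : ‖psi χ Y‖ ≤ Y ^ (2 : ℝ) := by
  rw [psi_eq_Pol]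
  have := Pol_le χ hY (b := 0) le_rfl (Finset.Subset.refl _) (w := 0) (by simp)
  simpa using this

lemma DD_differentiable {q : ℕ} (χ : DirichletCharacter ℂ q) {Y : ℝ} (hY : 1 ≤ Y) :
    Differentiable ℂ (DD χ Y) := by
  unfold DD
  have hY0 : (Y : ℂ) ≠ 0 := by
    have : Y ≠ 0 := by linarith
    exact_mod_cast this
  apply (Pol_differentiable χ (by simp)).sub
  apply Differentiable.mul_const
  intro s
  exact DifferentiableAt.const_cpow (by fun_prop) (Or.inl hY0)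

lemma DD_le {q : ℕ} (χ : DirichletCharacter ℂ q) {Y b : ℝ} (hY : 1 ≤ Y) (hb : 0 ≤ b) {w : ℂ}
    (hw : -b ≤ w.re) : ‖DD χ Y w‖ ≤ 2 * Y ^ (2 + b) := by
  have hY0 : 0 < Y := by linarith
  unfold DD
  refine (norm_sub_le _ _).trans ?_
  have h1 := Pol_le χ hY hb (Finset.Subset.refl _) hw
  have h2 : ‖(Y : ℂ) ^ (-w) * psi χ Y‖ ≤ Y ^ (2 + b) := by
    rw [norm_mul, norm_cpow_eq_rpow_re_of_pos hY0, neg_re, Real.rpow_add hY0, mul_comm]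
    apply mul_le_mul (psi_le_sq χ hY) _ (by positivity) (by positivity)
    exact Real.rpow_le_rpow_of_exponent_le hY (by linarith)
  linarith

lemma DD_four {q : ℕ} (χ : DirichletCharacter ℂ q) {Y : ℝ} (hY : 1 ≤ Y) {w : ℂ}
    (hw : w.re = 4) : ‖DD χ Y w‖ ≤ 5 := by
  have hY0 : 0 < Y := by linarith
  unfold DD
  refine (norm_sub_le _ _).trans ?_
  set f : ℕ → ℂ := fun n => (ArithmeticFunction.vonMangoldt n : ℂ) * χ (n : ZMod q) * (n : ℂ) ^ (-w) with hf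
  have hf0 : f 0 = 0 := by simp [hf]
  have h2 := tail_sum_le (f := f) (σ := w.re) (by linarith) hY (fun n hn => norm_term_le χ hn w) hf0
  have h3 := tail_sum_le (f := f) (σ := w.re) (by linarith) (Y := 1) le_rfl
    (fun n hn => norm_term_le χ hn w) hf0
  have h4 : ∑ n ∈ Finset.Icc 1 ⌊(1 : ℝ)⌋₊, f n = 0 := by simp [hf]
  rw [h4, sub_zero, Real.one_rpow] at h3
  have h5 : Y ^ (3 - w.re) ≤ 1 := Real.rpow_le_one_of_one_le_of_nonpos hY (by linarith)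
  have h6 : ‖Pol χ (Finset.Icc 1 ⌊Y⌋₊) w‖ ≤ 4 := by
    have e : Pol χ (Finset.Icc 1 ⌊Y⌋₊) w = (∑' n, f n) -
        ((∑' n, f n) - ∑ n ∈ Finset.Icc 1 ⌊Y⌋₊, f n) := by
      unfold Pol; ring
    rw [e]
    refine (norm_sub_le _ _).trans ?_
    linarith [h3.2, h2.2]
  have h7 : ‖(Y : ℂ) ^ (-w) * psi χ Y‖ ≤ 1 := by
    rw [norm_mul, norm_cpow_eq_rpow_re_of_pos hY0, neg_re, hw]
    calc Y ^ (-4 : ℝ) * ‖psi χ Y‖ ≤ Y ^ (-4 : ℝ) * Y ^ (2 : ℝ) := by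
          gcongr
          exact psi_le_sq χ hY
      _ = Y ^ (-2 : ℝ) := by rw [← Real.rpow_add hY0]; norm_num
      _ ≤ 1 := Real.rpow_le_one_of_one_le_of_nonpos hY (by norm_num)
  linarith

lemma Pol_add {q : ℕ} (χ : DirichletCharacter ℂ q) {X Z : ℝ} (hXZ : X ≤ Z) (w : ℂ) :
    Pol χ (Finset.Icc 1 ⌊Z⌋₊) w = Pol χ (Finset.Icc 1 ⌊X⌋₊) w + Pol χ (Finset.Ioc ⌊X⌋₊ ⌊Z⌋₊) w := by
  unfold Pol
  have h1 : Finset.Icc 1 ⌊Z⌋₊ = Finset.Icc 1 ⌊X⌋₊ ∪ Finset.Ioc ⌊X⌋₊ ⌊Z⌋₊ := by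
    have := Nat.floor_mono hXZ
    ext x
    simp only [Finset.mem_union, Finset.mem_Icc, Finset.mem_Ioc]
    omega
  have h2 : Disjoint (Finset.Icc 1 ⌊X⌋₊) (Finset.Ioc ⌊X⌋₊ ⌊Z⌋₊) := by
    rw [Finset.disjoint_left]
    intro x hx hx'
    simp only [Finset.mem_Icc, Finset.mem_Ioc] at hx hx'
    omega
  rw [h1, Finset.sum_union h2]

lemma DD_sub {q : ℕ} (χ : DirichletCharacter ℂ q) {X Z : ℝ} (hX : 1 ≤ X) (hXZ : X ≤ Z) {w : ℂ}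
    (hw : w ≠ 0) :
    DD χ Z w - DD χ X w = w * ∫ x in Ioc X Z, (x : ℂ) ^ (-w - 1) * psi χ x := by
  unfold DD
  rw [Pol_add χ hXZ w, pol_abel χ hX hXZ hw]
  ring

/-- the mean value of `|ψ(x,χ)|` over the window -/
noncomputable def eta {q : ℕ} (χ : DirichletCharacter ℂ q) (X Z : ℝ) : ℝ :=
  ∫ x in Ioc X Z, ‖psi χ x‖ * x ^ (-(3 / 2) : ℝ)

lemma eta_nonneg {q : ℕ} (χ : DirichletCharacter ℂ q) {X : ℝ} (Z : ℝ) (hX : 1 ≤ X) : 0 ≤ eta χ X Z := by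
  unfold eta
  apply setIntegral_nonneg measurableSet_Ioc
  intro x hx
  have : 0 < x := by linarith [hx.1]
  positivity

lemma eta_int {q : ℕ} (χ : DirichletCharacter ℂ q) {X : ℝ} (Z : ℝ) (hX : 1 ≤ X) :
    IntegrableOn (fun x => ‖psi χ x‖ * x ^ (-(3 / 2) : ℝ)) (Ioc X Z) := by
  obtain ⟨B, hB⟩ : ∃ B : ℝ, B = ∑ n ∈ Finset.Icc 1 ⌊Z⌋₊, ArithmeticFunction.vonMangoldt n := ⟨_, rfl⟩
  have hB0 : 0 ≤ B := by
    rw [hB]; exact Finset.sum_nonneg fun n _ => ArithmeticFunction.vonMangoldt_nonneg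
  have hc : IntegrableOn (fun _ : ℝ => B) (Ioc X Z) := by
    apply integrableOn_const
    · rw [Real.volume_Ioc]; exact ENNReal.ofReal_ne_top
    · exact enorm_ne_top
  refine Integrable.mono' hc ?_ ?_
  · apply Measurable.aestronglyMeasurable
    exact (psi_measurable χ).norm.mul (measurable_id.pow_const _)
  · refine (ae_restrict_iff' measurableSet_Ioc).mpr (Eventually.of_forall fun x hx => ?_)
    have hx1 : 1 ≤ x := by linarith [hx.1]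
    have h1 := psi_norm_le χ hx.2
    rw [← hB] at h1
    have h2 : x ^ (-(3 / 2) : ℝ) ≤ 1 := Real.rpow_le_one_of_one_le_of_nonpos hx1 (by norm_num)
    rw [Real.norm_of_nonneg (by positivity)]
    calc ‖psi χ x‖ * x ^ (-(3 / 2) : ℝ) ≤ B * 1 := by gcongr
      _ = B := mul_one B

lemma DD_sub_le {q : ℕ} (χ : DirichletCharacter ℂ q) {X Z : ℝ} (hX : 1 ≤ X) (hXZ : X ≤ Z) {w : ℂ}
    (hw : 1 / 2 ≤ w.re) : ‖DD χ Z w - DD χ X w‖ ≤ ‖w‖ * eta χ X Z := by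
  have hw0 : w ≠ 0 := by
    intro h; rw [h] at hw; simp at hw; linarith
  rw [DD_sub χ hX hXZ hw0, norm_mul]
  apply mul_le_mul_of_nonneg_left _ (norm_nonneg _)
  unfold eta
  apply norm_integral_le_of_norm_le (eta_int χ Z hX)
  refine (ae_restrict_iff' measurableSet_Ioc).mpr (Eventually.of_forall fun x hx => ?_)
  have hx1 : 1 ≤ x := by linarith [hx.1]
  have hx0 : 0 < x := by linarith
  rw [norm_mul, norm_cpow_eq_rpow_re_of_pos hx0, mul_comm]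
  apply mul_le_mul_of_nonneg_left _ (norm_nonneg _)
  apply Real.rpow_le_rpow_of_exponent_le hx1
  simp
  linarith

lemma GG_differentiable {q : ℕ} [NeZero q] {χ : DirichletCharacter ℂ q} (hχ : χ ≠ 1) {Y : ℝ}
    (hY : 1 ≤ Y) : Differentiable ℂ (GG χ Y) := by
  have hL : Differentiable ℂ χ.LFunction := DirichletCharacter.differentiable_LFunction hχ
  have hL' : Differentiable ℂ (deriv χ.LFunction) := by
    intro z
    exact ((hL.analyticAt z).deriv).differentiableAt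
  exact hL'.add (hL.mul (DD_differentiable χ hY))

lemma norm_le_exp {σ t : ℝ} (h0 : 0 ≤ σ) (h1 : σ ≤ 4) : ‖(⟨σ, t⟩ : ℂ)‖ ≤ 4 * Real.exp |t| := by
  have h2 := Complex.norm_le_abs_re_add_abs_im (⟨σ, t⟩ : ℂ)
  simp only at h2
  rw [abs_of_nonneg h0] at h2
  have h3 := Real.add_one_le_exp |t|
  have h4 := abs_nonneg t
  linarith

/-- the constants of the strip -/
theorem strip_const : ∃ C : ℝ, 1 ≤ C ∧ ∀ (q : ℕ) [NeZero q] (χ : DirichletCharacter ℂ q), 2 ≤ q →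
    χ.IsPrimitive → ∀ σ t : ℝ, -5 ≤ σ → σ ≤ 5 →
      ‖χ.LFunction ⟨σ, t⟩‖ ≤ C * (q : ℝ) ^ (8 : ℝ) * Real.exp (3 * |t|) ∧
      ‖deriv χ.LFunction ⟨σ, t⟩‖ ≤ C * (q : ℝ) ^ (8 : ℝ) * Real.exp (3 * |t|) := by
  obtain ⟨C1, hC1, h1⟩ := L_strip 5 (by norm_num)
  obtain ⟨C2, hC2, h2⟩ := dL_strip 5 (by norm_num)
  refine ⟨max C1 C2, hC1.trans (le_max_left _ _), ?_⟩
  intro q _ χ hq hχ σ t hs1 hs2
  have hq1 : (1 : ℝ) ≤ q := by exact_mod_cast NeZero.one_le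
  constructor
  · refine (h1 q χ hq hχ ⟨σ, t⟩ hs1 hs2).trans ?_
    have : (q : ℝ) ^ (2 + 5 : ℝ) ≤ (q : ℝ) ^ (8 : ℝ) :=
      Real.rpow_le_rpow_of_exponent_le hq1 (by norm_num)
    gcongr
    exact le_max_left _ _
  · refine (h2 q χ hq hχ ⟨σ, t⟩ hs1 hs2).trans ?_
    have : (q : ℝ) ^ (3 + 5 : ℝ) ≤ (q : ℝ) ^ (8 : ℝ) :=
      Real.rpow_le_rpow_of_exponent_le hq1 (by norm_num)
    gcongr
    exact le_max_right _ _

theorem GG_strip : ∃ C : ℝ, 1 ≤ C ∧ ∀ (q : ℕ) [NeZero q] (χ : DirichletCharacter ℂ q), 2 ≤ q →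
    χ.IsPrimitive → ∀ Y b σ t : ℝ, 1 ≤ Y → 0 ≤ b → b ≤ 5 → -b ≤ σ → σ ≤ 5 →
      ‖GG χ Y ⟨σ, t⟩‖ ≤ C * (q : ℝ) ^ (8 : ℝ) * Y ^ (2 + b) * Real.exp (3 * |t|) := by
  obtain ⟨C, hC, h⟩ := strip_const
  refine ⟨3 * C, by linarith, ?_⟩
  intro q _ χ hq hχ Y b σ t hY hb hb5 h1 h2
  obtain ⟨h3, h4⟩ := h q χ hq hχ σ t (by linarith) h2
  have h5 := DD_le χ hY hb (w := ⟨σ, t⟩) h1
  have h6 : 1 ≤ Y ^ (2 + b) := Real.one_le_rpow hY (by linarith)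
  unfold GG
  refine (norm_add_le _ _).trans ?_
  rw [norm_mul]
  obtain ⟨E, hE⟩ : ∃ E : ℝ, E = C * (q : ℝ) ^ (8 : ℝ) * Real.exp (3 * |t|) := ⟨_, rfl⟩
  have hE0 : 0 ≤ E := by rw [hE]; positivity
  rw [← hE] at h3 h4
  calc ‖deriv χ.LFunction ⟨σ, t⟩‖ + ‖χ.LFunction ⟨σ, t⟩‖ * ‖DD χ Y ⟨σ, t⟩‖
      ≤ E + E * (2 * Y ^ (2 + b)) := by gcongr
    _ ≤ E * Y ^ (2 + b) + E * (2 * Y ^ (2 + b)) := by nlinarith
    _ = 3 * C * (q : ℝ) ^ (8 : ℝ) * Y ^ (2 + b) * Real.exp (3 * |t|) := by rw [hE]; ring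

/-- the value at `Re s >= 3/2` -/
lemma L_three_halves : ∃ S : ℝ, 1 ≤ S ∧ ∀ (q : ℕ) [NeZero q] (χ : DirichletCharacter ℂ q) (w : ℂ),
    3 / 2 ≤ w.re → ‖χ.LFunction w‖ ≤ S := by
  have hsum : Summable (fun n : ℕ => 1 / (n : ℝ) ^ (3 / 2 : ℝ)) :=
    Real.summable_one_div_nat_rpow.mpr (by norm_num)
  refine ⟨max 1 (∑' n : ℕ, 1 / (n : ℝ) ^ (3 / 2 : ℝ)), le_max_left _ _, ?_⟩
  intro q _ χ w hw
  refine le_trans ?_ (le_max_right _ _)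
  rw [DirichletCharacter.LFunction_eq_LSeries χ (by linarith)]
  unfold LSeries
  refine tsum_of_norm_bounded hsum.hasSum fun n => ?_
  rcases Nat.eq_zero_or_pos n with rfl | hn
  · simp
  · rw [LSeries.term_of_ne_zero (by omega), norm_div, norm_natCast_cpow_of_pos hn]
    have hn1 : (1 : ℝ) ≤ n := by exact_mod_cast hn
    have hn0 : (0 : ℝ) < n := by linarith
    have h5 := χ.norm_le_one (n : ZMod q)
    have h6 : (n : ℝ) ^ (3 / 2 : ℝ) ≤ (n : ℝ) ^ w.re := Real.rpow_le_rpow_of_exponent_le hn1 hw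
    exact div_le_div₀ zero_le_one h5 (by positivity) h6

/-- lower bound at `Re s = 2` -/
lemma L_two_lower : ∃ c : ℝ, 0 < c ∧ c ≤ 1 ∧ ∀ (q : ℕ) [NeZero q] (χ : DirichletCharacter ℂ q) (t : ℝ),
    c ≤ ‖χ.LFunction ⟨2, t⟩‖ := by
  have hsum : Summable (fun n : ℕ => 1 / (n : ℝ) ^ 2) :=
    Real.summable_one_div_nat_pow.mpr (by norm_num)
  have hZ : 0 < ∑' n : ℕ, 1 / (n : ℝ) ^ 2 := by
    refine hsum.tsum_pos (fun n => by positivity) 1 (by norm_num)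
  refine ⟨min 1 (1 / (∑' n : ℕ, 1 / (n : ℝ) ^ 2)), by positivity, min_le_left _ _, fun q _ χ t => ?_⟩
  refine (min_le_right _ _).trans ?_
  have hre : (1 : ℝ) < (⟨2, t⟩ : ℂ).re := by norm_num
  rw [DirichletCharacter.LFunction_eq_LSeries χ hre]
  have h1 := DirichletCharacter.LSeries.mul_mu_eq_one χ hre
  have h2 : ‖LSeries ((fun n : ℕ => χ n) * fun n : ℕ => (ArithmeticFunction.moebius n : ℂ))
      (⟨2, t⟩ : ℂ)‖ ≤ ∑' n : ℕ, 1 / (n : ℝ) ^ 2 := by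
    unfold LSeries
    refine tsum_of_norm_bounded hsum.hasSum fun n => ?_
    rcases eq_or_ne n 0 with rfl | hn
    · simp
    · rw [LSeries.term_of_ne_zero hn, norm_div, norm_natCast_cpow_of_pos (Nat.pos_of_ne_zero hn)]
      simp only [Pi.mul_apply, norm_mul]
      rw [show ((2 : ℝ) : ℝ) = ((2 : ℕ) : ℝ) by norm_num, Real.rpow_natCast]
      apply div_le_div_of_nonneg_right _ (by positivity)
      have a1 := DirichletCharacter.norm_le_one χ (n : ZMod q)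
      have a2 : ‖(ArithmeticFunction.moebius n : ℂ)‖ ≤ 1 := by
        have := ArithmeticFunction.abs_moebius_le_one (n := n)
        rw [Complex.norm_intCast]
        exact_mod_cast this
      calc _ ≤ (1 : ℝ) * 1 := mul_le_mul a1 a2 (norm_nonneg _) zero_le_one
        _ = 1 := one_mul 1
  have h3 : ‖LSeries (fun n : ℕ => χ n) (⟨2, t⟩ : ℂ)‖ *
      ‖LSeries ((fun n : ℕ => χ n) * fun n : ℕ => (ArithmeticFunction.moebius n : ℂ))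
      (⟨2, t⟩ : ℂ)‖ = 1 := by
    rw [← norm_mul, h1, norm_one]
  rw [div_le_iff₀ hZ]
  calc (1 : ℝ) = _ := h3.symm
    _ ≤ _ := mul_le_mul_of_nonneg_left h2 (norm_nonneg _)

/-- at `Re s = 4` -/
theorem GG_four : ∃ C : ℝ, 1 ≤ C ∧ ∀ (q : ℕ) [NeZero q] (χ : DirichletCharacter ℂ q),
    ∀ Z t : ℝ, 1 ≤ Z → ‖GG χ Z ⟨4, t⟩‖ ≤ C * Z⁻¹ := by
  obtain ⟨S, hS, h⟩ := L_three_halves
  refine ⟨8 + S, by linarith, ?_⟩
  intro q _ χ Z t hZ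
  have hZ0 : 0 < Z := by linarith
  have h1 := far_right χ hZ (w := ⟨4, t⟩) (by norm_num)
  have h2 := h q χ ⟨4, t⟩ (by norm_num)
  have e : GG χ Z ⟨4, t⟩ = (deriv χ.LFunction ⟨4, t⟩ + χ.LFunction ⟨4, t⟩ *
      Pol χ (Finset.Icc 1 ⌊Z⌋₊) ⟨4, t⟩) - χ.LFunction ⟨4, t⟩ * ((Z : ℂ) ^ (-(⟨4, t⟩ : ℂ)) * psi χ Z) := by
    unfold GG DD; ring
  rw [e]
  refine (norm_sub_le _ _).trans ?_
  have e1 : Z ^ (3 - (⟨4, t⟩ : ℂ).re) = Z⁻¹ := by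
    simp only
    rw [show (3 : ℝ) - 4 = -1 by norm_num, Real.rpow_neg_one]
  rw [e1] at h1
  have h3 : ‖(Z : ℂ) ^ (-(⟨4, t⟩ : ℂ)) * psi χ Z‖ ≤ Z⁻¹ := by
    rw [norm_mul, norm_cpow_eq_rpow_re_of_pos hZ0, neg_re]
    simp only
    calc Z ^ (-4 : ℝ) * ‖psi χ Z‖ ≤ Z ^ (-4 : ℝ) * Z ^ (2 : ℝ) := by
          gcongr
          exact psi_le_sq χ hZ
      _ = Z ^ (-2 : ℝ) := by rw [← Real.rpow_add hZ0]; norm_num
      _ ≤ Z ^ (-1 : ℝ) := Real.rpow_le_rpow_of_exponent_le hZ (by norm_num)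
      _ = Z⁻¹ := Real.rpow_neg_one Z
  rw [norm_mul]
  calc _ ≤ 8 * Z⁻¹ + S * Z⁻¹ := by
        apply add_le_add h1
        exact mul_le_mul h2 h3 (norm_nonneg _) (by linarith)
    _ = (8 + S) * Z⁻¹ := by ring

end Pool.Agent.NH13.EC
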