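import Pool.Agent.NH13.EStepD
import Pool.Agent.NH13.AllChars

/-!
# All non-principal characters
-/

set_option autoImplicit false

open Complex MeasureTheory Set Filter Topology Metric

namespace Pool.Agent.NH13.EC

lemma int_log_32 {X : ℝ} (hX : 1 ≤ X) (Z : ℝ) :
    IntegrableOn (fun x : ℝ => Real.log x * x ^ (-(3 / 2) : ℝ)) (Ioc X Z) ∧
    ∫ x in Ioc X Z, Real.log x * x ^ (-(3 / 2) : ℝ) ≤ 16 * X ^ (-(1 / 4) : ℝ) := by
  have hX0 : 0 < X := by linarith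
  have hb : ∀ x : ℝ, X < x → Real.log x * x ^ (-(3 / 2) : ℝ) ≤ 4 * x ^ (-(5 / 4) : ℝ) := by
    intro x hx
    have hx1 : 1 < x := by linarith
    have hx0 : 0 < x := by linarith
    have h1 : Real.log x ≤ x ^ (1 / 4 : ℝ) / (1 / 4) := Real.log_le_rpow_div hx0.le (by norm_num)
    calc Real.log x * x ^ (-(3 / 2) : ℝ) ≤ (x ^ (1 / 4 : ℝ) / (1 / 4)) * x ^ (-(3 / 2) : ℝ) := by gcongr
      _ = 4 * (x ^ (1 / 4 : ℝ) * x ^ (-(3 / 2) : ℝ)) := by ring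
      _ = 4 * x ^ (-(5 / 4) : ℝ) := by rw [← Real.rpow_add hx0]; norm_num
  have hi : IntegrableOn (fun x : ℝ => 4 * x ^ (-(5 / 4) : ℝ)) (Ioi X) :=
    (integrableOn_Ioi_rpow_of_lt (by norm_num) hX0).const_mul 4
  have hi2 : IntegrableOn (fun x : ℝ => Real.log x * x ^ (-(3 / 2) : ℝ)) (Ioc X Z) := by
    refine (hi.mono_set Ioc_subset_Ioi_self).mono' ?_ ?_
    · exact (Real.measurable_log.mul (measurable_id.pow_const _)).aestronglyMeasurable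
    · refine (ae_restrict_mem measurableSet_Ioc).mono fun x hx => ?_
      have hx1 : 1 < x := by linarith [hx.1]
      have hx0 : 0 < x := by linarith
      have := Real.log_nonneg hx1.le
      rw [Real.norm_of_nonneg (by positivity)]
      exact hb x hx.1
  refine ⟨hi2, ?_⟩
  calc ∫ x in Ioc X Z, Real.log x * x ^ (-(3 / 2) : ℝ) ≤ ∫ x in Ioc X Z, 4 * x ^ (-(5 / 4) : ℝ) :=
        setIntegral_mono_on hi2 (hi.mono_set Ioc_subset_Ioi_self) measurableSet_Ioc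
          fun x hx => hb x hx.1
    _ ≤ ∫ x in Ioi X, 4 * x ^ (-(5 / 4) : ℝ) := by
        apply setIntegral_mono_set hi
        · refine (ae_restrict_mem measurableSet_Ioi).mono fun t ht => ?_
          have ht' : X < t := ht
          have ht0 : 0 < t := lt_trans hX0 ht'
          simp only [Pi.zero_apply]
          positivity
        · exact Ioc_subset_Ioi_self.eventuallyLE
    _ = 16 * X ^ (-(1 / 4) : ℝ) := by
        rw [integral_const_mul, integral_Ioi_rpow_of_lt (by norm_num) hX0]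
        norm_num
        ring

lemma two_le_conductor {q : ℕ} [NeZero q] {χ : DirichletCharacter ℂ q} (hχ : χ ≠ 1) :
    2 ≤ χ.conductor := by
  have h0 : χ.conductor ≠ 0 := DirichletCharacter.conductor_ne_zero χ
  have h1 : χ.conductor ≠ 1 := by
    intro h
    exact hχ (DirichletCharacter.eq_one_iff_conductor_eq_one.mpr h)
  omega

/-- The mean of `|ψ(x,χ)|` over a window is not small, for every non-principal character. -/
theorem all_main (ε : ℝ) (hε : 0 < ε) : ∃ A ℓ₀ : ℝ, 1 ≤ A ∧ 1 ≤ ℓ₀ ∧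
    ∀ (q : ℕ) [NeZero q] (χ : DirichletCharacter ℂ q), χ ≠ 1 → ∀ ℓ X : ℝ, ℓ₀ ≤ ℓ →
      (q : ℝ) ≤ Real.exp ℓ → 1 ≤ X → X ≤ Real.exp ℓ →
      Real.exp (-(ε * ℓ)) ≤ eta χ X (Real.exp (A * ℓ)) := by
  obtain ⟨e, he⟩ : ∃ e : ℝ, e = min ε (1 / 2) := ⟨_, rfl⟩
  have he0 : 0 < e := by rw [he]; positivity
  have he1 : e ≤ 1 / 2 := by rw [he]; exact min_le_right _ _
  have heε : e ≤ ε := by rw [he]; exact min_le_left _ _
  obtain ⟨A, ℓ1, hA, hℓ1, hmain⟩ := prim_main 2 (e / 2) (by norm_num) (by positivity) (by linarith)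
  obtain ⟨ℓ2, hℓ2, hlp⟩ := large_params (e / 12) 0 0 1 (by positivity) one_pos
  refine ⟨A + 2, max ℓ1 ℓ2, by linarith, hℓ1.trans (le_max_left _ _), ?_⟩
  intro q _ χ hχ ℓ X hℓ hqℓ hX hXℓ
  have hl1 : ℓ1 ≤ ℓ := (le_max_left _ _).trans hℓ
  have hl2 : ℓ2 ≤ ℓ := (le_max_right _ _).trans hℓ
  have hℓ1' : 1 ≤ ℓ := hℓ1.trans hl1
  have hℓ0 : 0 < ℓ := by linarith
  have hc2 := two_le_conductor hχ
  have : NeZero χ.conductor := ⟨by omega⟩
  have hcq : χ.conductor ≤ q := Nat.le_of_dvd (NeZero.pos q) χ.conductor_dvd_level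
  obtain ⟨X', hX'⟩ : ∃ X' : ℝ, X' = max X (Real.exp (4 * e * ℓ)) := ⟨_, rfl⟩
  have hXX' : X ≤ X' := by rw [hX']; exact le_max_left _ _
  have hX'1 : 1 ≤ X' := hX.trans hXX'
  have hX'0 : 0 < X' := by linarith
  have hX'e : Real.exp (4 * e * ℓ) ≤ X' := by rw [hX']; exact le_max_right _ _
  have hX'2 : X' ≤ Real.exp (2 * ℓ) := by
    rw [hX']
    apply max_le
    · exact hXℓ.trans (Real.exp_le_exp.mpr (by linarith))
    · apply Real.exp_le_exp.mpr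
      apply mul_le_mul_of_nonneg_right _ hℓ0.le
      linarith
  obtain ⟨Z, hZ⟩ : ∃ Z : ℝ, Z = Real.exp ((A + 2) * ℓ) := ⟨_, rfl⟩
  have hZA : Real.exp (A * ℓ) ≤ Z := by
    rw [hZ]; apply Real.exp_le_exp.mpr
    apply mul_le_mul_of_nonneg_right _ hℓ0.le
    linarith
  have hX'Z : X' ≤ Z := by
    refine hX'2.trans ?_
    rw [hZ]; apply Real.exp_le_exp.mpr
    apply mul_le_mul_of_nonneg_right _ hℓ0.le
    linarith
  have h1 := hmain χ.conductor χ.primitiveCharacter hc2 χ.primitiveCharacter_isPrimitive ℓ X' Z hl1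
    (le_trans (by exact_mod_cast hcq) hqℓ) hX'1 hX'2 hZA hX'Z
  -- comparison
  obtain ⟨i1, i2⟩ := int_log_32 hX'1 Z
  have hlq : Real.log q ≤ ℓ := by
    rw [← Real.log_exp ℓ]
    exact Real.log_le_log (by exact_mod_cast NeZero.pos q) hqℓ
  have hcomp : eta χ.primitiveCharacter X' Z ≤ eta χ X' Z + 32 * ℓ * Real.exp (-(e * ℓ)) := by
    have hi0 := eta_int χ.primitiveCharacter Z hX'1
    have hi := eta_int χ Z hX'1
    have h2 : eta χ.primitiveCharacter X' Z ≤ ∫ x in Ioc X' Z, (‖psi χ x‖ * x ^ (-(3 / 2) : ℝ) +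
        2 * ℓ * (Real.log x * x ^ (-(3 / 2) : ℝ))) := by
      unfold eta
      apply setIntegral_mono_on hi0 (hi.add (i1.const_mul _)) measurableSet_Ioc
      intro x hx
      have hx1 : 1 ≤ x := by linarith [hx.1]
      have hx0 : 0 < x := by linarith
      have h3 := psi_diff χ.conductor_dvd_level χ.primitiveCharacter hx1
      rw [χ.changeLevel_primitiveCharacter] at h3
      have h4 : ‖psi χ.primitiveCharacter x‖ ≤ ‖psi χ x‖ + 2 * ℓ * Real.log x := by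
        have h5 := norm_sub_norm_le (psi χ.primitiveCharacter x) (psi χ x)
        have h6 : 2 * Real.log q * Real.log x ≤ 2 * ℓ * Real.log x := by
          have := Real.log_nonneg hx1
          gcongr
        linarith
      calc ‖psi χ.primitiveCharacter x‖ * x ^ (-(3 / 2) : ℝ)
          ≤ (‖psi χ x‖ + 2 * ℓ * Real.log x) * x ^ (-(3 / 2) : ℝ) := by gcongr
        _ = ‖psi χ x‖ * x ^ (-(3 / 2) : ℝ) + 2 * ℓ * (Real.log x * x ^ (-(3 / 2) : ℝ)) := by ring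
    refine h2.trans ?_
    rw [integral_add hi (i1.const_mul _), integral_const_mul]
    have h3 : X' ^ (-(1 / 4) : ℝ) ≤ Real.exp (-(e * ℓ)) := by
      calc X' ^ (-(1 / 4) : ℝ) ≤ (Real.exp (4 * e * ℓ)) ^ (-(1 / 4) : ℝ) :=
            Real.rpow_le_rpow_of_nonpos (Real.exp_pos _) hX'e (by norm_num)
        _ = Real.exp (-(e * ℓ)) := by rw [← Real.exp_mul]; congr 1; ring
    have h4 : 2 * ℓ * ∫ x in Ioc X' Z, Real.log x * x ^ (-(3 / 2) : ℝ) ≤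
        32 * ℓ * Real.exp (-(e * ℓ)) := by
      calc 2 * ℓ * ∫ x in Ioc X' Z, Real.log x * x ^ (-(3 / 2) : ℝ)
          ≤ 2 * ℓ * (16 * Real.exp (-(e * ℓ))) := by
            apply mul_le_mul_of_nonneg_left _ (by positivity)
            linarith
        _ = 32 * ℓ * Real.exp (-(e * ℓ)) := by ring
    unfold eta
    linarith
  have hmono : eta χ X' Z ≤ eta χ X Z := by
    unfold eta
    apply setIntegral_mono_set (eta_int χ Z hX)
    · refine (ae_restrict_mem measurableSet_Ioc).mono fun x hx => ?_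
      have hx0 : 0 < x := by linarith [hx.1]
      simp only [Pi.zero_apply]
      positivity
    · exact (Ioc_subset_Ioc_left hXX').eventuallyLE
  rw [← hZ]
  have hexp : 1 + 32 * ℓ ≤ Real.exp (e / 2 * ℓ) := by
    have h2 := (hlp ℓ hl2).1
    have h3 : Real.exp (e / 2 * ℓ) = (Real.exp (e / 12 * ℓ)) ^ 6 := by
      rw [← Real.exp_nat_mul]; congr 1; push_cast; ring
    rw [h3]
    have h4 : (1 + 6 * ℓ) ^ 6 ≤ (Real.exp (e / 12 * ℓ)) ^ 6 := by gcongr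
    refine le_trans ?_ h4
    have h5 : 7 ≤ 1 + 6 * ℓ := by linarith
    have h6 : (1 + 6 * ℓ) ^ 6 = (1 + 6 * ℓ) * (1 + 6 * ℓ) ^ 5 := by ring
    have h7 : (7 : ℝ) ^ 5 ≤ (1 + 6 * ℓ) ^ 5 := by gcongr
    rw [h6]
    nlinarith
  have hprod : Real.exp (-(e * ℓ)) * (1 + 32 * ℓ) ≤ Real.exp (-(e / 2 * ℓ)) := by
    calc Real.exp (-(e * ℓ)) * (1 + 32 * ℓ) ≤ Real.exp (-(e * ℓ)) * Real.exp (e / 2 * ℓ) := by gcongr
      _ = Real.exp (-(e / 2 * ℓ)) := by rw [← Real.exp_add]; congr 1; ring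
  have hle : Real.exp (-(ε * ℓ)) ≤ Real.exp (-(e * ℓ)) := by
    apply Real.exp_le_exp.mpr
    have : e * ℓ ≤ ε * ℓ := mul_le_mul_of_nonneg_right heε hℓ0.le
    linarith
  linarith

/-- some large value in the window -/
theorem all_sup (ε : ℝ) (hε : 0 < ε) : ∃ A ℓ₀ : ℝ, 1 ≤ A ∧ 1 ≤ ℓ₀ ∧
    ∀ (q : ℕ) [NeZero q] (χ : DirichletCharacter ℂ q), χ ≠ 1 → ∀ ℓ X : ℝ, ℓ₀ ≤ ℓ →
      (q : ℝ) ≤ Real.exp ℓ → 1 ≤ X → X ≤ Real.exp ℓ →
      Real.exp (-(ε * ℓ)) ≤ eta χ X (Real.exp (A * ℓ)) ∧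
      ∃ x : ℝ, X < x ∧ x ≤ Real.exp (A * ℓ) ∧ Real.exp (-(ε * ℓ)) * Real.sqrt x ≤ ‖psi χ x‖ := by
  obtain ⟨A, ℓ1, hA, hℓ1, hmain⟩ := all_main (ε / 2) (by positivity)
  obtain ⟨ℓ2, hℓ2, hlp⟩ := large_params (ε / 4) A 0 1 (by positivity) one_pos
  refine ⟨A, max ℓ1 ℓ2, hA, hℓ1.trans (le_max_left _ _), ?_⟩
  intro q _ χ hχ ℓ X hℓ hqℓ hX hXℓ
  have hl1 : ℓ1 ≤ ℓ := (le_max_left _ _).trans hℓ
  have hl2 : ℓ2 ≤ ℓ := (le_max_right _ _).trans hℓ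
  have hℓ1' : 1 ≤ ℓ := hℓ1.trans hl1
  have hℓ0 : 0 < ℓ := by linarith
  have hX0 : 0 < X := by linarith
  have h1 := hmain q χ hχ ℓ X hl1 hqℓ hX hXℓ
  have h12 : Real.exp (-(ε * ℓ)) ≤ Real.exp (-(ε / 2 * ℓ)) := by
    apply Real.exp_le_exp.mpr
    have : 0 ≤ ε / 2 * ℓ := by positivity
    linarith
  refine ⟨h12.trans h1, ?_⟩
  by_contra hcon
  push Not at hcon
  set Z : ℝ := Real.exp (A * ℓ) with hZ
  have hXZ : X ≤ Z := by
    refine hXℓ.trans ?_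
    rw [hZ]; apply Real.exp_le_exp.mpr
    nlinarith
  have hii : IntegrableOn (fun x : ℝ => Real.exp (-(ε * ℓ)) * x⁻¹) (Ioc X Z) := by
    have h2 : IntervalIntegrable (fun x : ℝ => x⁻¹) volume X Z := by
      rw [intervalIntegrable_inv_iff]
      right
      rw [uIcc_of_le hXZ]
      intro h; linarith [h.1]
    exact ((intervalIntegrable_iff_integrableOn_Ioc_of_le hXZ).mp h2).const_mul _
  have h2 : eta χ X Z ≤ ∫ x in Ioc X Z, Real.exp (-(ε * ℓ)) * x⁻¹ := by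
    unfold eta
    apply setIntegral_mono_on (eta_int χ Z hX) hii measurableSet_Ioc
    intro x hx
    have hx0 : 0 < x := by linarith [hx.1]
    have h3 := hcon x hx.1 hx.2
    calc ‖psi χ x‖ * x ^ (-(3 / 2) : ℝ) ≤ (Real.exp (-(ε * ℓ)) * Real.sqrt x) * x ^ (-(3 / 2) : ℝ) := by
          gcongr
      _ = Real.exp (-(ε * ℓ)) * (x ^ (1 / 2 : ℝ) * x ^ (-(3 / 2) : ℝ)) := by
          rw [Real.sqrt_eq_rpow]; ring
      _ = Real.exp (-(ε * ℓ)) * x⁻¹ := by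
          rw [← Real.rpow_add hx0, ← Real.rpow_neg_one]; norm_num
  rw [integral_const_mul, ← intervalIntegral.integral_of_le hXZ, integral_inv_of_pos hX0 (by linarith)] at h2
  have h3 : Real.log (Z / X) ≤ A * ℓ := by
    calc Real.log (Z / X) ≤ Real.log Z := by
          apply Real.log_le_log (by positivity)
          exact div_le_self (by linarith) hX
      _ = A * ℓ := by rw [hZ, Real.log_exp]
  have h4 : Real.exp (-(ε * ℓ)) * Real.log (Z / X) ≤ Real.exp (-(ε * ℓ)) * ℓ ^ 2 := by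
    apply mul_le_mul_of_nonneg_left _ (Real.exp_pos _).le
    exact h3.trans (hlp ℓ hl2).2.1
  have h5 : ℓ ^ 2 < Real.exp (ε / 2 * ℓ) := by
    have h6 := (hlp ℓ hl2).1
    have h7 : Real.exp (ε / 2 * ℓ) = (Real.exp (ε / 4 * ℓ)) ^ 2 := by
      rw [← Real.exp_nat_mul]; congr 1; push_cast; ring
    rw [h7]
    have h8 : ℓ < Real.exp (ε / 4 * ℓ) := by linarith
    gcongr
  have h6 : Real.exp (-(ε * ℓ)) * ℓ ^ 2 < Real.exp (-(ε / 2 * ℓ)) := by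
    calc Real.exp (-(ε * ℓ)) * ℓ ^ 2 < Real.exp (-(ε * ℓ)) * Real.exp (ε / 2 * ℓ) := by
          apply mul_lt_mul_of_pos_left h5 (Real.exp_pos _)
      _ = Real.exp (-(ε / 2 * ℓ)) := by rw [← Real.exp_add]; congr 1; ring
  linarith

/-- powers of `Q` -/
theorem all_Q (ε : ℝ) (hε : 0 < ε) : ∃ A Q₀ : ℝ, 1 ≤ A ∧ 1 < Q₀ ∧
    ∀ (q : ℕ) [NeZero q] (χ : DirichletCharacter ℂ q), χ ≠ 1 → ∀ Q X : ℝ, Q₀ ≤ Q →
      (q : ℝ) ≤ Q → 1 ≤ X → X ≤ Q →
      Q ^ (-ε) ≤ eta χ X (Q ^ A) ∧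
      ∃ x : ℝ, X < x ∧ x ≤ Q ^ A ∧ Q ^ (-ε) * Real.sqrt x ≤ ‖psi χ x‖ := by
  obtain ⟨A, ℓ₀, hA, hℓ₀, h⟩ := all_sup ε hε
  refine ⟨A, Real.exp ℓ₀, hA, Real.one_lt_exp_iff.mpr (by linarith), ?_⟩
  intro q _ χ hχ Q X hQ hqQ hX hXQ
  have hQ0 : 0 < Q := lt_of_lt_of_le (Real.exp_pos _) hQ
  have hlog : Real.exp (Real.log Q) = Q := Real.exp_log hQ0
  have hp : ∀ a : ℝ, Real.exp (a * Real.log Q) = Q ^ a := by
    intro a; rw [Real.rpow_def_of_pos hQ0, mul_comm]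
  have hres := h q χ hχ (Real.log Q) X ((Real.le_log_iff_exp_le hQ0).mpr hQ) (by rw [hlog]; exact hqQ) hX
    (by rw [hlog]; exact hXQ)
  rw [← neg_mul, hp, hp] at hres
  exact hres

/-- no saving in the modulus, for every character -/
theorem no_saving (θ B : ℝ) (hθ : 0 < θ) (hB : 1 ≤ B) : ∃ κ A : ℝ, 0 < κ ∧ ∀ C : ℝ, ∃ q₀ : ℕ,
    ∀ (q : ℕ) [NeZero q] (χ : DirichletCharacter ℂ q), q₀ ≤ q → χ ≠ 1 → ∀ X : ℝ, 1 ≤ X →
      X ≤ (q : ℝ) ^ B → ∃ x : ℝ, X < x ∧ x ≤ (q : ℝ) ^ A ∧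
        C * x ^ (1 / 2 + κ) * (q : ℝ) ^ (-θ) < ‖psi χ x‖ := by
  have hB0 : 0 < B := by linarith
  obtain ⟨A, Q₀, hA, hQ₀, h⟩ := all_Q (θ / (4 * B)) (by positivity)
  have hA0 : 0 < A := by linarith
  refine ⟨θ / (4 * (B * A)), B * A, by positivity, ?_⟩
  intro C
  have ht : Tendsto (fun n : ℕ => (n : ℝ) ^ (θ / 2)) atTop atTop :=
    (tendsto_rpow_atTop (by positivity)).comp tendsto_natCast_atTop_atTop
  obtain ⟨N, hN⟩ := eventually_atTop.mp (ht.eventually_gt_atTop C)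
  refine ⟨max N (max 2 ⌈Q₀⌉₊), ?_⟩
  intro q _ χ hq hχ X hX hXq
  have hqN : N ≤ q := (le_max_left _ _).trans hq
  have hq2 : 2 ≤ q := (le_max_left _ _).trans ((le_max_right _ _).trans hq)
  have hqQ : Q₀ ≤ q := (Nat.le_ceil _).trans (by
    exact_mod_cast (le_max_right 2 ⌈Q₀⌉₊).trans ((le_max_right _ _).trans hq))
  have hq1 : (1 : ℝ) ≤ q := by exact_mod_cast (by omega : 1 ≤ q)
  have hq0 : (0 : ℝ) < q := by linarith
  have hqB : (q : ℝ) ≤ (q : ℝ) ^ B := by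
    nth_rewrite 1 [← Real.rpow_one (q : ℝ)]
    exact Real.rpow_le_rpow_of_exponent_le hq1 hB
  obtain ⟨-, x, hx1, hx2, hx3⟩ := h q χ hχ ((q : ℝ) ^ B) X (hqQ.trans hqB) hqB hX hXq
  have hx0 : 0 < x := by linarith
  rw [← Real.rpow_mul hq0.le] at hx2 hx3
  refine ⟨x, hx1, hx2, ?_⟩
  have e1 : B * -(θ / (4 * B)) = -(θ / 4) := by field_simp
  rw [e1] at hx3
  refine lt_of_lt_of_le ?_ hx3
  have hκ : 0 < θ / (4 * (B * A)) := by positivity
  have h4 : x ^ (θ / (4 * (B * A))) ≤ (q : ℝ) ^ (θ / 4) := by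
    calc x ^ (θ / (4 * (B * A))) ≤ ((q : ℝ) ^ (B * A)) ^ (θ / (4 * (B * A))) :=
          Real.rpow_le_rpow hx0.le hx2 hκ.le
      _ = (q : ℝ) ^ (θ / 4) := by
          rw [← Real.rpow_mul hq0.le]; congr 1; field_simp
  have h5 : x ^ (1 / 2 + θ / (4 * (B * A))) = Real.sqrt x * x ^ (θ / (4 * (B * A))) := by
    rw [Real.rpow_add hx0, Real.sqrt_eq_rpow]
  have h6 := hN q hqN
  have hs : 0 < Real.sqrt x := Real.sqrt_pos.mpr hx0
  rw [h5]
  have hpos : 0 < Real.sqrt x * x ^ (θ / (4 * (B * A))) * (q : ℝ) ^ (-θ) := by positivity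
  calc C * (Real.sqrt x * x ^ (θ / (4 * (B * A)))) * (q : ℝ) ^ (-θ)
      = C * (Real.sqrt x * x ^ (θ / (4 * (B * A))) * (q : ℝ) ^ (-θ)) := by ring
    _ < (q : ℝ) ^ (θ / 2) * (Real.sqrt x * x ^ (θ / (4 * (B * A))) * (q : ℝ) ^ (-θ)) :=
        mul_lt_mul_of_pos_right h6 hpos
    _ ≤ (q : ℝ) ^ (θ / 2) * (Real.sqrt x * (q : ℝ) ^ (θ / 4) * (q : ℝ) ^ (-θ)) := by gcongr
    _ = ((q : ℝ) ^ (θ / 2) * (q : ℝ) ^ (θ / 4) * (q : ℝ) ^ (-θ)) * Real.sqrt x := by ring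
    _ = (q : ℝ) ^ (-(θ / 4)) * Real.sqrt x := by
        rw [← Real.rpow_add hq0, ← Real.rpow_add hq0]
        congr 2
        ring

end Pool.Agent.NH13.EC
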