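import Pool.Agent.H370R2.Local

/-!
# No zeros where `f' + f D` is very small
-/

set_option autoImplicit false

open Complex MeasureTheory Set Filter Topology Metric

namespace Pool.Agent.NH13

open H370 H370.Loc

/-- logarithm of a zero free function on a ball -/
lemma exists_log {g : ℂ → ℂ} {c : ℂ} {r : ℝ} (hr : 0 < r)
    (hg : DifferentiableOn ℂ g (ball c r)) (hg0 : ∀ z ∈ ball c r, g z ≠ 0) :
    ∃ h : ℂ → ℂ, DifferentiableOn ℂ h (ball c r) ∧ h c = 0 ∧ ∀ w ∈ ball c r, g w = g c * cexp (h w) := by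
  have hcr : c ∈ ball c r := mem_ball_self hr
  have hgan : AnalyticOnNhd ℂ g (ball c r) := hg.analyticOnNhd isOpen_ball
  have hd : DifferentiableOn ℂ (logDeriv g) (ball c r) := by
    intro w hw
    have h1 : AnalyticAt ℂ (logDeriv g) w := (hgan w hw).deriv.div (hgan w hw) (hg0 w hw)
    exact h1.differentiableAt.differentiableWithinAt
  obtain ⟨h, hhc, hh⟩ := hd.isExactOn_ball.with_val_at c 0
  refine ⟨h, fun w hw => (hh w hw).differentiableAt.differentiableWithinAt, hhc, ?_⟩
  intro w hw
  have hderiv : ∀ x ∈ ball c r, HasDerivAt (fun y => g y * cexp (-h y)) 0 x := by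
    intro x hx
    have e1 : HasDerivAt g (deriv g x) x := (hgan x hx).differentiableAt.hasDerivAt
    have e2 : HasDerivAt (fun y => cexp (-h y)) (cexp (-h x) * (-(logDeriv g x))) x :=
      ((hh x hx).neg).cexp
    have e3 : HasDerivAt (fun y => g y * cexp (-h y))
        (deriv g x * cexp (-h x) + g x * (cexp (-h x) * (-(logDeriv g x)))) x := e1.mul e2
    have e4 : deriv g x * cexp (-h x) + g x * (cexp (-h x) * (-(logDeriv g x))) = 0 := by
      have := hg0 x hx
      rw [logDeriv_apply]
      field_simp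
      ring
    rwa [e4] at e3
  have hcv : Convex ℝ (ball c r) := convex_ball c r
  have := hcv.is_const_of_fderivWithin_eq_zero (𝕜 := ℂ) (f := fun y => g y * cexp (-h y))
    (fun x hx => (hderiv x hx).differentiableAt.differentiableWithinAt)
    (fun x hx => by
      have h5 := (hderiv x hx).hasFDerivAt.hasFDerivWithinAt (s := ball c r)
      rw [h5.fderivWithin (isOpen_ball.uniqueDiffWithinAt hx)]
      ext; simp) hw hcr
  simp only [hhc, neg_zero, Complex.exp_zero, mul_one] at this
  rw [← this, mul_assoc, ← Complex.exp_add]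
  simp

/-- Borel-Caratheodory for the logarithm -/
lemma log_bound {g : ℂ → ℂ} {c : ℂ} {r B : ℝ} (hr : 0 < r) (hB : 0 ≤ B)
    {h : ℂ → ℂ} (hh : DifferentiableOn ℂ h (ball c r)) (hhc : h c = 0) (hgc : g c ≠ 0)
    (hgh : ∀ w ∈ ball c r, g w = g c * cexp (h w))
    (hb : ∀ z ∈ ball c r, ‖g z‖ ≤ Real.exp B * ‖g c‖) {r1 : ℝ} (hr1 : r1 < r) :
    ∀ w ∈ closedBall c r1, ‖h w‖ ≤ 2 * (B + 1) * r1 / (r - r1) := by
  have hgc0 : 0 < ‖g c‖ := norm_pos_iff.2 hgc
  have hre : ∀ w ∈ ball c r, (h w).re ≤ B + 1 := by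
    intro w hw
    have h1 := hb w hw
    rw [hgh w hw, norm_mul, Complex.norm_exp, mul_comm] at h1
    have h2 := le_of_mul_le_mul_right h1 hgc0
    have h3 := Real.exp_le_exp.mp h2
    linarith
  intro w hw
  have hw1 : ‖w - c‖ ≤ r1 := by rwa [mem_closedBall, dist_eq_norm] at hw
  have hr10 : 0 ≤ r1 := (norm_nonneg _).trans hw1
  have hw2 : w - c ∈ ball (0 : ℂ) r := by rw [mem_ball_zero_iff]; linarith
  have hmap : ∀ x : ℂ, x ∈ ball (0 : ℂ) r → c + x ∈ ball c r := by
    intro x hx
    rw [mem_ball_zero_iff] at hx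
    rw [mem_ball, dist_eq_norm, add_sub_cancel_left]
    exact hx
  have hbc := Complex.borelCaratheodory_zero (f := fun x => h (c + x)) (M := B + 1) (R := r)
    (z := w - c) (by linarith)
    (fun x hx => by
      have h1 := (hh (c + x) (hmap x hx)).differentiableAt (isOpen_ball.mem_nhds (hmap x hx))
      have h2 : DifferentiableAt ℂ (fun y : ℂ => c + y) x := by fun_prop
      exact (DifferentiableAt.comp (g := h) (f := fun y : ℂ => c + y) x h1 h2).differentiableWithinAt)
    (fun x hx => hre (c + x) (hmap x hx)) hr hw2 (by simp [hhc])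
  simp only [add_sub_cancel] at hbc
  refine hbc.trans ?_
  have h6 : 0 < r - r1 := by linarith
  have h7 : r - r1 ≤ r - ‖w - c‖ := by linarith
  exact div_le_div₀ (by positivity) (by gcongr) h6 h7

/-- `|x log x| ≤ 2` for `|x| ≤ 2` -/
lemma abs_mul_log_le {x : ℝ} (hx : |x| ≤ 2) : |x * Real.log x| ≤ 2 := by
  rcases eq_or_ne x 0 with rfl | h0
  · simp
  have hpos : 0 < |x| := abs_pos.mpr h0
  rw [abs_mul, ← Real.log_abs x]
  rcases le_or_gt |x| 1 with h1 | h1
  · have := Real.abs_log_mul_self_lt |x| hpos h1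
    rw [abs_mul, abs_of_pos hpos, mul_comm] at this
    linarith
  · have h2 : 0 ≤ Real.log |x| := Real.log_nonneg h1.le
    have h3 : Real.log |x| ≤ |x| - 1 := Real.log_le_sub_one_of_pos hpos
    rw [abs_of_nonneg h2]
    nlinarith

lemma int_log_ge {a b r : ℝ} (ha : |a - r| ≤ 2) (hb : |b - r| ≤ 2) :
    -9 ≤ ∫ u in a..b, Real.log |u - r| := by
  have h1 : ∫ u in a..b, Real.log |u - r| = ∫ u in (a - r)..(b - r), Real.log u := by
    rw [← intervalIntegral.integral_comp_sub_right (fun u => Real.log u) r]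
    congr 1
    funext u
    rw [Real.log_abs]
  rw [h1, integral_log]
  have h2 := abs_le.mp (abs_mul_log_le ha)
  have h3 := abs_le.mp (abs_mul_log_le hb)
  have h4 := abs_le.mp ha
  have h5 := abs_le.mp hb
  linarith [h2.1, h2.2, h3.1, h3.2, h4.1, h4.2, h5.1, h5.2]

/-- choice of a radius which avoids finitely many radii, in the mean -/
lemma choose_radius {u0 u1 : ℝ} (h01 : u0 < u1) (s : Multiset ℝ)
    (hs : ∀ r ∈ s, |u0 - r| ≤ 2 ∧ |u1 - r| ≤ 2) :
    ∃ u ∈ Icc u0 u1, (∀ r ∈ s, u ≠ r) ∧
      -((9 * (Multiset.card s : ℝ) + 1) / (u1 - u0)) ≤ (s.map (fun r => Real.log |u - r|)).sum := by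
  classical
  have hint : ∀ r : ℝ, IntervalIntegrable (fun u => Real.log |u - r|) volume u0 u1 := by
    intro r
    have h1 : IntervalIntegrable Real.log volume (u0 - r) (u1 - r) :=
      intervalIntegral.intervalIntegrable_log'
    have h2 := h1.comp_sub_right (c := r)
    simp only [sub_add_cancel] at h2
    refine h2.congr ?_
    intro u _
    simp only
    rw [Real.log_abs]
  have hsum_int : IntervalIntegrable (fun u => (s.map (fun r => Real.log |u - r|)).sum) volume u0 u1 := by
    clear hs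
    induction s using Multiset.induction_on with
    | empty => simp
    | cons a s ih =>
      simp only [Multiset.map_cons, Multiset.sum_cons]
      exact (hint a).add ih
  have hsum : -(9 * (Multiset.card s : ℝ)) ≤ ∫ u in u0..u1, (s.map (fun r => Real.log |u - r|)).sum := by
    clear hsum_int
    induction s using Multiset.induction_on with
    | empty => simp
    | cons a s ih =>
      simp only [Multiset.map_cons, Multiset.sum_cons, Multiset.card_cons]
      have hI : IntervalIntegrable (fun u => (s.map (fun r => Real.log |u - r|)).sum) volume u0 u1 := by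
        clear ih hs
        induction s using Multiset.induction_on with
        | empty => simp
        | cons a s ih =>
          simp only [Multiset.map_cons, Multiset.sum_cons]
          exact (hint a).add ih
      rw [intervalIntegral.integral_add (hint a) hI]
      have h1 := ih (fun r hr => hs r (Multiset.mem_cons_of_mem hr))
      have h2 := hs a (Multiset.mem_cons_self a s)
      have h3 := int_log_ge (a := u0) (b := u1) h2.1 h2.2
      push_cast
      linarith
  by_contra hcon
  push Not at hcon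
  set K : ℝ := (9 * (Multiset.card s : ℝ) + 1) / (u1 - u0) with hK
  have hd : 0 < u1 - u0 := by linarith
  have hae : ∀ᵐ u : ℝ, u ∉ (s.toFinset : Set ℝ) := by
    have : volume (s.toFinset : Set ℝ) = 0 := (s.toFinset.finite_toSet).measure_zero _
    exact compl_mem_ae_iff.mpr this
  have hle : ∫ u in u0..u1, (s.map (fun r => Real.log |u - r|)).sum ≤ ∫ u in u0..u1, (-K) := by
    rw [intervalIntegral.integral_of_le h01.le, intervalIntegral.integral_of_le h01.le]
    apply integral_mono_ae
    · exact (intervalIntegrable_iff_integrableOn_Ioc_of_le h01.le).mp hsum_int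
    · exact (intervalIntegrable_iff_integrableOn_Ioc_of_le h01.le).mp intervalIntegrable_const
    · filter_upwards [ae_restrict_of_ae hae, ae_restrict_mem measurableSet_Ioc] with u hu hu2
      have := hcon u ⟨hu2.1.le, hu2.2⟩ (by
        intro r hr he
        apply hu
        rw [he]
        exact_mod_cast Multiset.mem_toFinset.mpr hr)
      exact this.le
  rw [intervalIntegral.integral_const, smul_eq_mul] at hle
  have h5 : (u1 - u0) * -K = -(9 * (Multiset.card s : ℝ) + 1) := by
    rw [hK]
    field_simp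
  rw [h5] at hle
  linarith

lemma Pf_norm_eq (s : Multiset ℂ) (z : ℂ) : ‖Pf s z‖ = (s.map (fun ρ => ‖z - ρ‖)).prod := by
  induction s using Multiset.induction_on with
  | empty => simp [Pf_zero]
  | cons ρ s ih => rw [Pf_cons, norm_mul, ih, Multiset.map_cons, Multiset.prod_cons]

lemma prod_ge_exp {s : Multiset ℂ} {z c : ℂ} {u : ℝ} (hz : ‖z - c‖ = u)
    (hne : ∀ ρ ∈ s, u ≠ ‖ρ - c‖) :
    Real.exp ((s.map (fun ρ => Real.log |u - ‖ρ - c‖|)).sum) ≤ (s.map (fun ρ => ‖z - ρ‖)).prod := by
  induction s using Multiset.induction_on with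
  | empty => simp
  | cons ρ s ih =>
    simp only [Multiset.map_cons, Multiset.sum_cons, Multiset.prod_cons]
    rw [Real.exp_add]
    have h1 := ih fun ρ' h' => hne ρ' (Multiset.mem_cons_of_mem h')
    have h2 : 0 < |u - ‖ρ - c‖| := abs_pos.mpr (sub_ne_zero.mpr (hne ρ (Multiset.mem_cons_self ρ s)))
    rw [Real.exp_log h2]
    have h3 : |u - ‖ρ - c‖| ≤ ‖z - ρ‖ := by
      rw [← hz]
      have := abs_norm_sub_norm_le (z - c) (ρ - c)
      rwa [sub_sub_sub_cancel_right] at this
    exact mul_le_mul h3 h1 (Real.exp_pos _).le (norm_nonneg _)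

/-- logarithmic derivative of the product, integrated over a circle -/
lemma circle_logDeriv_Pf {s : Multiset ℂ} {c : ℂ} {u : ℝ} (hu : 0 < u)
    (hne : ∀ ρ ∈ s, u ≠ ‖ρ - c‖) :
    CircleIntegrable (fun z => logDeriv (Pf s) z) c u ∧
    ∃ k : ℕ, (∮ z in C(c, u), logDeriv (Pf s) z) = (k : ℂ) * (2 * Real.pi * I) ∧
      ((∃ ρ ∈ s, ‖ρ - c‖ < u) → 1 ≤ k) := by
  induction s using Multiset.induction_on with
  | empty =>
    have : Pf 0 = fun _ => (1 : ℂ) := funext Pf_zero
    refine ⟨?_, 0, ?_, ?_⟩
    · rw [this]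
      simp [logDeriv]
    · rw [this]
      simp [logDeriv, circleIntegral]
    · rintro ⟨ρ, hρ, -⟩
      simp at hρ
  | cons ρ s ih =>
    obtain ⟨hi, k, hk, hk1⟩ := ih fun ρ' h' => hne ρ' (Multiset.mem_cons_of_mem h')
    have hPf : Pf (ρ ::ₘ s) = fun z => (z - ρ) * Pf s z := funext (Pf_cons ρ s)
    have hsph : ∀ z ∈ sphere c u, logDeriv (Pf (ρ ::ₘ s)) z = (z - ρ)⁻¹ + logDeriv (Pf s) z := by
      intro z hz
      rw [mem_sphere, dist_eq_norm] at hz
      have hz1 : ∀ ρ' ∈ ρ ::ₘ s, z ≠ ρ' := by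
        intro ρ' h' he
        exact hne ρ' h' (by rw [← he, hz])
      have hzρ : z - ρ ≠ 0 := sub_ne_zero.2 (hz1 ρ (Multiset.mem_cons_self ρ s))
      have hP : Pf s z ≠ 0 := Pf_ne_zero fun ρ' h' => hz1 ρ' (Multiset.mem_cons_of_mem h')
      have e1 : logDeriv (fun z => (z - ρ) * Pf s z) z =
          logDeriv (fun z => z - ρ) z + logDeriv (Pf s) z :=
        logDeriv_mul z hzρ hP (differentiableAt_id.sub_const ρ) (Pf_diff s z)
      rw [hPf, e1]
      congr 1
      rw [logDeriv_apply]
      simp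
    have hρu : u ≠ ‖ρ - c‖ := hne ρ (Multiset.mem_cons_self ρ s)
    have hρs : ρ ∉ sphere c |u| := by
      rw [abs_of_pos hu, mem_sphere, dist_eq_norm]
      exact fun h => hρu h.symm
    have hi1 : CircleIntegrable (fun z => (z - ρ)⁻¹) c u := by
      rw [circleIntegrable_sub_inv_iff]
      exact Or.inr hρs
    have hi2 : CircleIntegrable (fun z => (z - ρ)⁻¹ + logDeriv (Pf s) z) c u := hi1.add hi
    refine ⟨?_, ?_⟩
    · refine hi2.congr ?_
      intro θ _
      exact (hsph _ (circleMap_mem_sphere c hu.le θ)).symm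
    · have e1 : (∮ z in C(c, u), logDeriv (Pf (ρ ::ₘ s)) z) =
          ∮ z in C(c, u), ((z - ρ)⁻¹ + logDeriv (Pf s) z) := by
        apply circleIntegral.integral_congr hu.le
        exact hsph
      rw [e1, circleIntegral.integral_add hi1 hi, hk]
      rcases lt_or_gt_of_ne hρu with h | h
      · -- outside
        refine ⟨k, ?_, ?_⟩
        · have : (∮ z in C(c, u), (z - ρ)⁻¹) = 0 := by
            apply Complex.circleIntegral_eq_zero_of_differentiable_on_off_countable hu.le
              countable_empty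
            · apply ContinuousOn.inv₀ (by fun_prop)
              intro z hz he
              rw [sub_eq_zero] at he
              rw [he, mem_closedBall, dist_eq_norm] at hz
              linarith
            · intro z hz
              have hz1 : z - ρ ≠ 0 := by
                intro he
                rw [sub_eq_zero] at he
                have := hz.1
                rw [he, mem_ball, dist_eq_norm] at this
                linarith
              exact (differentiableAt_id.sub_const ρ).inv hz1
          rw [this, zero_add]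
        · rintro ⟨ρ', h', h''⟩
          rw [Multiset.mem_cons] at h'
          rcases h' with rfl | h'
          · linarith
          · exact hk1 ⟨ρ', h', h''⟩
      · refine ⟨k + 1, ?_, fun _ => by omega⟩
        rw [circleIntegral.integral_sub_inv_of_mem_ball (by rw [mem_ball, dist_eq_norm]; exact h)]
        push_cast
        ring

/-- If `f' + f D` is very small on a ball, with `D` entire, then `f` has no zeros in a slightly
smaller ball. -/
theorem no_zeros {f D : ℂ → ℂ} {c : ℂ} {M κ u0 u1 : ℝ} (h0 : 0 < u0) (h01 : u0 < u1)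
    (hu1 : u1 ≤ 3 / 2) (hM : 1 ≤ M) (hMf : ‖f c‖ ≤ M)
    (hf : AnalyticOnNhd ℂ f (closedBall c 3)) (hc : f c ≠ 0)
    (hb : ∀ z ∈ closedBall c 3, ‖f z‖ ≤ M) (hD : Differentiable ℂ D)
    (hκ : ∀ z ∈ closedBall c u1, ‖deriv f z + f z * D z‖ ≤ κ)
    (hsmall : 2 * κ ≤ ‖f c‖ * Real.exp (-(60 * (Real.log (M / ‖f c‖) + 1) / (u1 - u0)))) :
    ∀ z ∈ closedBall c u0, f z ≠ 0 := by
  intro z0 hz0 hfz0
  obtain ⟨s, g, hs, hg, hfg, hg0, hcard⟩ := extract (r := 2) (R := 3) two_pos (by norm_num) hM hf hc hb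
  set n : ℝ := (Multiset.card s : ℝ) with hn
  have hn0 : 0 ≤ n := by rw [hn]; positivity
  have hfc : 0 < ‖f c‖ := norm_pos_iff.2 hc
  set Λ : ℝ := Real.log (M / ‖f c‖) with hΛ
  have hΛ0 : 0 ≤ Λ := Real.log_nonneg (by rw [le_div_iff₀ hfc]; linarith)
  have hl32 : (1 : ℝ) / 3 ≤ Real.log (3 / 2) := by
    have := Real.one_sub_inv_le_log_of_pos (show (0 : ℝ) < 3 / 2 by norm_num)
    refine le_trans ?_ this
    norm_num
  have hn3 : n ≤ 3 * Λ := by
    refine hcard.trans ?_
    rw [div_le_iff₀ (by linarith)]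
    nlinarith
  have hl2 : Real.log 2 ≤ 7 / 10 := by
    have := Real.log_two_lt_d9
    linarith
  have hl20 : 0 ≤ Real.log 2 := Real.log_nonneg (by norm_num)
  have hcr : c ∈ closedBall c 2 := mem_closedBall_self (by norm_num)
  -- bound of g from above
  have hgsphere : ∀ w ∈ sphere c 3, ‖g w‖ ≤ M := by
    intro w hw
    have hwR := sphere_subset_closedBall hw
    have h1 : (1 : ℝ) ^ (Multiset.card s) ≤ ‖Pf s w‖ := Pf_norm_ge zero_le_one fun ρ hρ => by
      have h2 := (hs ρ hρ).1
      rw [mem_closedBall, dist_eq_norm] at h2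
      rw [mem_sphere, dist_eq_norm] at hw
      have h3 : ‖w - c‖ ≤ ‖w - ρ‖ + ‖ρ - c‖ := by
        calc ‖w - c‖ = ‖(w - ρ) + (ρ - c)‖ := by congr 1; ring
          _ ≤ _ := norm_add_le _ _
      linarith
    rw [one_pow] at h1
    calc ‖g w‖ = ‖g w‖ * 1 := by ring
      _ ≤ ‖g w‖ * ‖Pf s w‖ := mul_le_mul_of_nonneg_left h1 (norm_nonneg _)
      _ = ‖f w‖ := by rw [hfg w, norm_mul, mul_comm]
      _ ≤ M := hb w hwR
  have hgball : ∀ w ∈ closedBall c 3, ‖g w‖ ≤ M := by
    intro w hw
    refine Complex.norm_le_of_forall_mem_frontier_norm_le (U := ball c 3) isBounded_ball ?_ ?_ ?_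
    · apply DifferentiableOn.diffContOnCl
      rw [closure_ball c (by norm_num)]
      exact fun x hx => (hg x hx).differentiableAt.differentiableWithinAt
    · intro x hx
      rw [frontier_ball c (by norm_num)] at hx
      exact hgsphere x hx
    · rwa [closure_ball c (by norm_num)]
  have hgc : ‖f c‖ * Real.exp (-(n * Real.log 2)) ≤ ‖g c‖ := by
    have h1 : ‖Pf s c‖ ≤ 2 ^ (Multiset.card s) := Pf_norm_le fun ρ hρ => by
      have h2 := (hs ρ hρ).1
      rw [mem_closedBall, dist_eq_norm, norm_sub_rev] at h2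
      exact h2
    have h2 : (2 : ℝ) ^ (Multiset.card s) = Real.exp (n * Real.log 2) := by
      rw [hn, Real.exp_nat_mul, Real.exp_log two_pos]
    rw [Real.exp_neg, ← h2, ← div_eq_mul_inv, div_le_iff₀ (by positivity)]
    calc ‖f c‖ = ‖g c‖ * ‖Pf s c‖ := by rw [hfg c, norm_mul, mul_comm]
      _ ≤ ‖g c‖ * 2 ^ (Multiset.card s) := mul_le_mul_of_nonneg_left h1 (norm_nonneg _)
  set B : ℝ := Λ + n * Real.log 2 with hB
  have hB0 : 0 ≤ B := by positivity
  have hgb : ∀ w ∈ ball c 2, ‖g w‖ ≤ Real.exp B * ‖g c‖ := by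
    intro w hw
    refine (hgball w ((ball_subset_ball (by norm_num)).trans ball_subset_closedBall hw)).trans ?_
    have h1 : Real.exp B = M / ‖f c‖ * Real.exp (n * Real.log 2) := by
      rw [hB, Real.exp_add, hΛ, Real.exp_log (by positivity)]
    rw [h1]
    have h2 : M = M / ‖f c‖ * Real.exp (n * Real.log 2) * (‖f c‖ * Real.exp (-(n * Real.log 2))) := by
      rw [Real.exp_neg]
      field_simp
    calc M = M / ‖f c‖ * Real.exp (n * Real.log 2) * (‖f c‖ * Real.exp (-(n * Real.log 2))) := h2
      _ ≤ _ := mul_le_mul_of_nonneg_left hgc (by positivity)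
  have hgdiff : DifferentiableOn ℂ g (ball c 2) := fun x hx =>
    (hg x ((ball_subset_ball (by norm_num)).trans ball_subset_closedBall hx)).differentiableAt.differentiableWithinAt
  have hg0' : ∀ z ∈ ball c 2, g z ≠ 0 := fun z hz => hg0 z (ball_subset_closedBall hz)
  obtain ⟨h, hhd, hhc, hgh⟩ := exists_log two_pos hgdiff hg0'
  have hhb := log_bound two_pos hB0 hhd hhc (hg0 c hcr) hgh hgb (r1 := 3 / 2) (by norm_num)
  have hglow : ∀ w ∈ closedBall c (3 / 2), ‖f c‖ * Real.exp (-(n * Real.log 2) - 6 * (B + 1)) ≤ ‖g w‖ := by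
    intro w hw
    have h1 := hhb w hw
    have e1 : 2 * (B + 1) * (3 / 2) / (2 - 3 / 2) = 6 * (B + 1) := by ring
    rw [e1] at h1
    rw [hgh w (closedBall_subset_ball (by norm_num) hw), norm_mul, norm_exp, sub_eq_add_neg,
      Real.exp_add, ← mul_assoc]
    have h2 : -(6 * (B + 1)) ≤ (h w).re := by
      have := (abs_le.mp (Complex.abs_re_le_norm (h w))).1
      linarith
    exact mul_le_mul hgc (Real.exp_le_exp.mpr h2) (Real.exp_pos _).le (norm_nonneg _)
  -- the good radius
  obtain ⟨u, hu, hune, husum⟩ := choose_radius h01 (s.map (fun ρ => ‖ρ - c‖)) (by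
    intro r hr
    rw [Multiset.mem_map] at hr
    obtain ⟨ρ, hρ, rfl⟩ := hr
    have h2 := (hs ρ hρ).1
    rw [mem_closedBall, dist_eq_norm] at h2
    have h3 := norm_nonneg (ρ - c)
    constructor
    · rw [abs_le]; constructor <;> linarith
    · rw [abs_le]; constructor <;> linarith)
  rw [Multiset.card_map, Multiset.map_map] at husum
  have hune' : ∀ ρ ∈ s, u ≠ ‖ρ - c‖ := fun ρ hρ => hune _ (Multiset.mem_map_of_mem _ hρ)
  have hu0 : 0 < u := lt_of_lt_of_le h0 hu.1
  have hu32 : u ≤ 3 / 2 := hu.2.trans hu1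
  -- zero in the multiset
  have hz0s : z0 ∈ s := by
    have h1 : z0 ∈ closedBall c 2 := closedBall_subset_closedBall (by linarith [hu.1]) hz0
    have h2 := hfg z0
    rw [hfz0] at h2
    have h3 : Pf s z0 = 0 := by
      rcases mul_eq_zero.mp h2.symm with h | h
      · exact h
      · exact absurd h (hg0 z0 h1)
    by_contra hcon
    exact (Pf_ne_zero (s := s) (z := z0) fun ρ hρ he => hcon (he ▸ hρ)) h3
  have hz0u : ‖z0 - c‖ < u := by
    have h1 : ‖z0 - c‖ ≤ u0 := by rwa [mem_closedBall, dist_eq_norm] at hz0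
    have h2 : ‖z0 - c‖ ≤ u := h1.trans hu.1
    exact lt_of_le_of_ne h2 (hune' z0 hz0s).symm
  obtain ⟨hcirc, k, hk, hk1⟩ := circle_logDeriv_Pf (s := s) (c := c) hu0 hune'
  have hk1' := hk1 ⟨z0, hz0s, hz0u⟩
  -- lower bound for f on the circle
  have hd : 0 < u1 - u0 := by linarith
  set K : ℝ := 60 * (Λ + 1) / (u1 - u0) with hK
  have hflow : ∀ z ∈ sphere c u, ‖f c‖ * Real.exp (-K) ≤ ‖f z‖ := by
    intro z hz
    have hz' : ‖z - c‖ = u := by rwa [mem_sphere, dist_eq_norm] at hz
    have h1 := prod_ge_exp hz' hune'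
    rw [← Pf_norm_eq] at h1
    have h2 := hglow z (by rw [mem_closedBall, dist_eq_norm, hz']; exact hu32)
    have h3 : Real.exp (-((9 * n + 1) / (u1 - u0))) ≤ ‖Pf s z‖ :=
      (Real.exp_le_exp.mpr husum).trans h1
    rw [hfg z, norm_mul]
    have h4 : -K ≤ -((9 * n + 1) / (u1 - u0)) + (-(n * Real.log 2) - 6 * (B + 1)) := by
      have e1 : n * Real.log 2 ≤ 3 * Λ * (7 / 10) := mul_le_mul hn3 hl2 hl20 (by positivity)
      have e2 : n * Real.log 2 + 6 * (B + 1) ≤ 21 * Λ + 6 := by rw [hB]; linarith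
      have e3 : 21 * Λ + 6 ≤ (32 * Λ + 9) / (u1 - u0) := by
        rw [le_div_iff₀ hd]
        have : u1 - u0 ≤ 3 / 2 := by linarith
        have h5 : (21 * Λ + 6) * (u1 - u0) ≤ (21 * Λ + 6) * (3 / 2) :=
          mul_le_mul_of_nonneg_left this (by positivity)
        linarith
      have e4 : (9 * n + 1) / (u1 - u0) ≤ (27 * Λ + 1) / (u1 - u0) := by
        apply div_le_div_of_nonneg_right _ hd.le
        linarith
      have e5 : (32 * Λ + 9) / (u1 - u0) + (27 * Λ + 1) / (u1 - u0) ≤ K := by
        rw [← add_div, hK]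
        apply div_le_div_of_nonneg_right _ hd.le
        linarith
      linarith
    calc ‖f c‖ * Real.exp (-K) ≤ ‖f c‖ * (Real.exp (-((9 * n + 1) / (u1 - u0))) *
          Real.exp (-(n * Real.log 2) - 6 * (B + 1))) := by
          rw [← Real.exp_add]
          exact mul_le_mul_of_nonneg_left (Real.exp_le_exp.mpr h4) hfc.le
      _ = Real.exp (-((9 * n + 1) / (u1 - u0))) *
          (‖f c‖ * Real.exp (-(n * Real.log 2) - 6 * (B + 1))) := by ring
      _ ≤ ‖Pf s z‖ * ‖g z‖ := mul_le_mul h3 h2 (by positivity) (norm_nonneg _)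
  set m : ℝ := ‖f c‖ * Real.exp (-K) with hm
  have hm0 : 0 < m := by positivity
  -- the circle integral
  have hsub : closedBall c u ⊆ closedBall c 2 := closedBall_subset_closedBall (by linarith)
  have hgn : ∀ z ∈ closedBall c u, DifferentiableAt ℂ (fun z => logDeriv g z + D z) z := by
    intro z hz
    have h1 := hg z (closedBall_subset_closedBall (by norm_num) (hsub hz))
    have h2 : AnalyticAt ℂ (logDeriv g) z := h1.deriv.div h1 (hg0 z (hsub hz))
    exact h2.differentiableAt.add (hD z)
  have hcont : ContinuousOn (fun z => logDeriv g z + D z) (closedBall c u) := fun z hz =>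
    (hgn z hz).continuousAt.continuousWithinAt
  have hzero : (∮ z in C(c, u), (logDeriv g z + D z)) = 0 :=
    Complex.circleIntegral_eq_zero_of_differentiable_on_off_countable hu0.le countable_empty hcont
      (fun z hz => hgn z (ball_subset_closedBall hz.1))
  have hci : CircleIntegrable (fun z => logDeriv g z + D z) c u :=
    (hcont.mono sphere_subset_closedBall).circleIntegrable hu0.le
  have hadd := circleIntegral.integral_add hcirc hci
  rw [hk, hzero, add_zero] at hadd
  have hbound : ‖∮ z in C(c, u), (logDeriv (Pf s) z + (logDeriv g z + D z))‖ ≤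
      2 * Real.pi * u * (κ / m) := by
    apply circleIntegral.norm_integral_le_of_norm_le_const hu0.le
    intro z hz
    have hz' : ‖z - c‖ = u := by rwa [mem_sphere, dist_eq_norm] at hz
    have hzc : z ∈ closedBall c u := sphere_subset_closedBall hz
    have hP : Pf s z ≠ 0 := Pf_ne_zero fun ρ hρ he => hune' ρ hρ (by rw [← he, hz'])
    have hgz : g z ≠ 0 := hg0 z (hsub hzc)
    have hfz : f z ≠ 0 := by rw [hfg z]; exact mul_ne_zero hP hgz
    have hld : logDeriv f z = logDeriv (Pf s) z + logDeriv g z := by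
      have e : f = fun z => Pf s z * g z := funext hfg
      rw [e]
      exact logDeriv_mul z hP hgz (Pf_diff s z)
        (hg z (closedBall_subset_closedBall (by norm_num) (hsub hzc))).differentiableAt
    rw [← add_assoc, ← hld, logDeriv_apply]
    have e1 : deriv f z / f z + D z = (deriv f z + f z * D z) / f z := by field_simp
    rw [e1, norm_div]
    have h1 := hκ z (closedBall_subset_closedBall hu.2 hzc)
    exact div_le_div₀ ((norm_nonneg _).trans h1) h1 hm0 (hflow z hz)
  rw [hadd, norm_mul] at hbound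
  have e2 : ‖(2 * Real.pi * I : ℂ)‖ = 2 * Real.pi := by
    rw [norm_mul, norm_I, mul_one, norm_mul, norm_real, Real.norm_of_nonneg Real.pi_pos.le]
    norm_num
  rw [e2, Complex.norm_natCast] at hbound
  have hk2 : (1 : ℝ) ≤ k := by exact_mod_cast hk1'
  have hpi := Real.pi_pos
  have h5 : κ / m ≤ 1 / 2 := by
    rw [div_le_iff₀ hm0]
    linarith
  have h6 : u * (κ / m) ≤ 3 / 2 * (1 / 2) := by
    rcases le_or_gt 0 (κ / m) with h | h
    · exact mul_le_mul hu32 h5 h (by norm_num)
    · nlinarith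
  have h7 : 2 * Real.pi * u * (κ / m) = 2 * Real.pi * (u * (κ / m)) := by ring
  rw [h7] at hbound
  nlinarith

end Pool.Agent.NH13
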