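import Pool.Agent.NH13.EDef
import Pool.Agent.NH13.EZero

/-!
# No zeros, and small logarithm
-/

set_option autoImplicit false

open Complex MeasureTheory Set Filter Topology Metric

namespace Pool.Agent.NH13.EC

theorem GZ_small : ∃ C : ℝ, 1 ≤ C ∧ ∀ (q : ℕ) [NeZero q] (χ : DirichletCharacter ℂ q), 2 ≤ q →
    χ.IsPrimitive → ∀ X Z σ t : ℝ, 1 ≤ X → X ≤ Z → eta χ X Z ≤ 1 → 1 / 2 ≤ σ → σ ≤ 4 →
      ‖GG χ Z ⟨σ, t⟩‖ ≤ C * (q : ℝ) ^ (8 : ℝ) * X ^ (2 : ℝ) * Real.exp (4 * |t|) *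
        Z ^ (-((σ - 1 / 2) / (7 / 2))) := by
  obtain ⟨C0, hC0, h0⟩ := strip_const
  obtain ⟨C1, hC1, h1⟩ := GG_strip
  obtain ⟨C4, hC4, h4⟩ := GG_four
  refine ⟨Real.exp ((4 - 1 / 2) ^ 2) * C4 * (C1 + 4 * C0) * Real.exp 4, ?_, ?_⟩
  · have e1 : 1 ≤ Real.exp ((4 - 1 / 2 : ℝ) ^ 2) := Real.one_le_exp (by positivity)
    have e2 : 1 ≤ Real.exp (4 : ℝ) := Real.one_le_exp (by norm_num)
    have e3 : 1 ≤ Real.exp ((4 - 1 / 2 : ℝ) ^ 2) * C4 := by nlinarith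
    have e4 : 1 ≤ Real.exp ((4 - 1 / 2 : ℝ) ^ 2) * C4 * (C1 + 4 * C0) := by nlinarith
    nlinarith
  intro q _ χ hq hχ X Z σ t hX hXZ hη hσ1 hσ2
  have hne := ne_one_of_prim hq hχ
  have hZ : 1 ≤ Z := hX.trans hXZ
  have hZ0 : 0 < Z := by linarith
  have hq1 : (1 : ℝ) ≤ q := by exact_mod_cast NeZero.one_le
  have hq8 : 1 ≤ (q : ℝ) ^ (8 : ℝ) := Real.one_le_rpow hq1 (by norm_num)
  have hX2 : 1 ≤ X ^ (2 : ℝ) := Real.one_le_rpow hX (by norm_num)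
  obtain ⟨E, hE⟩ : ∃ E : ℝ, E = (C1 + 4 * C0) * (q : ℝ) ^ (8 : ℝ) * X ^ (2 : ℝ) := ⟨_, rfl⟩
  have hE1 : 1 ≤ E := by
    rw [hE]
    have : 1 ≤ (C1 + 4 * C0) * (q : ℝ) ^ (8 : ℝ) :=
      one_le_mul_of_one_le_of_one_le (by linarith) hq8
    exact one_le_mul_of_one_le_of_one_le this hX2
  have hhalf : ∀ y : ℝ, ‖GG χ Z ⟨1 / 2, y⟩‖ ≤ E * Real.exp (4 * |y|) := by
    intro y
    have a1 := h1 q χ hq hχ X 0 (1 / 2) y hX le_rfl (by norm_num) (by norm_num) (by norm_num)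
    have a2 := (h0 q χ hq hχ (1 / 2) y (by norm_num) (by norm_num)).1
    have a3 := DD_sub_le χ hX hXZ (w := ⟨1 / 2, y⟩) le_rfl
    have a4 : ‖(⟨1 / 2, y⟩ : ℂ)‖ ≤ 4 * Real.exp |y| := norm_le_exp (by norm_num) (by norm_num)
    have a5 : ‖DD χ Z ⟨1 / 2, y⟩ - DD χ X ⟨1 / 2, y⟩‖ ≤ 4 * Real.exp |y| := by
      refine a3.trans ?_
      calc ‖(⟨1 / 2, y⟩ : ℂ)‖ * eta χ X Z ≤ (4 * Real.exp |y|) * 1 := by
            apply mul_le_mul a4 hη (eta_nonneg χ Z hX) (by positivity)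
        _ = _ := mul_one _
    have e : GG χ Z ⟨1 / 2, y⟩ = GG χ X ⟨1 / 2, y⟩ + χ.LFunction ⟨1 / 2, y⟩ *
        (DD χ Z ⟨1 / 2, y⟩ - DD χ X ⟨1 / 2, y⟩) := by unfold GG; ring
    rw [e]
    refine (norm_add_le _ _).trans ?_
    rw [norm_mul]
    rw [add_zero] at a1
    have e1 : Real.exp (3 * |y|) ≤ Real.exp (4 * |y|) := by
      apply Real.exp_le_exp.mpr; linarith [abs_nonneg y]
    have e2 : Real.exp (3 * |y|) * Real.exp |y| = Real.exp (4 * |y|) := by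
      rw [← Real.exp_add]; congr 1; ring
    calc ‖GG χ X ⟨1 / 2, y⟩‖ + ‖χ.LFunction ⟨1 / 2, y⟩‖ * ‖DD χ Z ⟨1 / 2, y⟩ - DD χ X ⟨1 / 2, y⟩‖
        ≤ C1 * (q : ℝ) ^ (8 : ℝ) * X ^ (2 : ℝ) * Real.exp (3 * |y|) +
          (C0 * (q : ℝ) ^ (8 : ℝ) * Real.exp (3 * |y|)) * (4 * Real.exp |y|) := by gcongr
      _ = C1 * (q : ℝ) ^ (8 : ℝ) * X ^ (2 : ℝ) * Real.exp (3 * |y|) +
          4 * C0 * (q : ℝ) ^ (8 : ℝ) * (Real.exp (3 * |y|) * Real.exp |y|) := by ring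
      _ = C1 * (q : ℝ) ^ (8 : ℝ) * X ^ (2 : ℝ) * Real.exp (3 * |y|) +
          4 * C0 * (q : ℝ) ^ (8 : ℝ) * 1 * Real.exp (4 * |y|) := by rw [e2]; ring
      _ ≤ C1 * (q : ℝ) ^ (8 : ℝ) * X ^ (2 : ℝ) * Real.exp (4 * |y|) +
          4 * C0 * (q : ℝ) ^ (8 : ℝ) * X ^ (2 : ℝ) * Real.exp (4 * |y|) := by gcongr
      _ = E * Real.exp (4 * |y|) := by rw [hE]; ring
  have key := three_lines (f := GG χ Z) (GG_differentiable hne hZ) (a := 1 / 2) (b := 4) (σ := σ) (t := t)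
    (D := C1 * (q : ℝ) ^ (8 : ℝ) * Z ^ (2 + 0 : ℝ)) (A := E * Real.exp (4 * |t| + 4)) (B := C4 * Z⁻¹)
    (by norm_num) hσ1 hσ2 (by positivity)
    (by
      intro x hx y
      refine (h1 q χ hq hχ Z 0 x y hZ le_rfl (by norm_num) (by linarith [hx.1]) (by linarith [hx.2])).trans ?_
      have e1 : Real.exp (3 * |y|) ≤ Real.exp (4 * |y|) := by
        apply Real.exp_le_exp.mpr; linarith [abs_nonneg y]
      gcongr)
    (by
      intro y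
      have a1 := hhalf y
      have a2 : Real.exp (4 * |y|) * Real.exp (-(y - t) ^ 2) ≤ Real.exp (4 * |t| + 4) := by
        rw [← Real.exp_add]
        apply Real.exp_le_exp.mpr
        have h6 : |y| ≤ |y - t| + |t| := by
          have := abs_add_le (y - t) t
          simpa using this
        have h7 : (y - t) ^ 2 = |y - t| ^ 2 := (sq_abs _).symm
        rw [h7]
        nlinarith [sq_nonneg (|y - t| - 2)]
      calc ‖GG χ Z ⟨1 / 2, y⟩‖ * Real.exp (-(y - t) ^ 2) ≤ (E * Real.exp (4 * |y|)) *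
            Real.exp (-(y - t) ^ 2) := by gcongr
        _ = E * (Real.exp (4 * |y|) * Real.exp (-(y - t) ^ 2)) := by ring
        _ ≤ E * Real.exp (4 * |t| + 4) := by gcongr)
    (by
      intro y
      have a1 := h4 q χ Z y hZ
      have a2 : Real.exp (-(y - t) ^ 2) ≤ 1 := by
        rw [Real.exp_le_one_iff]
        linarith [sq_nonneg (y - t)]
      calc ‖GG χ Z ⟨4, y⟩‖ * Real.exp (-(y - t) ^ 2) ≤ (C4 * Z⁻¹) * 1 := by
            apply mul_le_mul a1 a2 (Real.exp_pos _).le (by positivity)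
        _ = _ := mul_one _)
  refine key.trans ?_
  have e72 : (4 - 1 / 2 : ℝ) = 7 / 2 := by norm_num
  rw [e72]
  set θ : ℝ := (σ - 1 / 2) / (7 / 2) with hθ
  have hθ0 : 0 ≤ θ := by rw [hθ]; apply div_nonneg <;> linarith
  have hθ1 : θ ≤ 1 := by rw [hθ, div_le_one (by norm_num)]; linarith
  have hA1 : 1 ≤ E * Real.exp (4 * |t| + 4) := by
    have : 1 ≤ Real.exp (4 * |t| + 4) := Real.one_le_exp (by positivity)
    nlinarith
  have b1 : (E * Real.exp (4 * |t| + 4)) ^ (1 - θ) ≤ E * Real.exp (4 * |t| + 4) := by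
    calc (E * Real.exp (4 * |t| + 4)) ^ (1 - θ) ≤ (E * Real.exp (4 * |t| + 4)) ^ (1 : ℝ) :=
          Real.rpow_le_rpow_of_exponent_le hA1 (by linarith)
      _ = _ := Real.rpow_one _
  have b2 : (C4 * Z⁻¹) ^ θ ≤ C4 * Z ^ (-θ) := by
    rw [Real.mul_rpow (by linarith) (by positivity)]
    have c1 : C4 ^ θ ≤ C4 := by
      calc C4 ^ θ ≤ C4 ^ (1 : ℝ) := Real.rpow_le_rpow_of_exponent_le hC4 hθ1
        _ = C4 := Real.rpow_one _
    have c2 : (Z⁻¹) ^ θ = Z ^ (-θ) := by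
      rw [Real.inv_rpow hZ0.le, Real.rpow_neg hZ0.le]
    rw [c2]
    gcongr
  calc Real.exp ((7 / 2) ^ 2) * ((E * Real.exp (4 * |t| + 4)) ^ (1 - θ) * (C4 * Z⁻¹) ^ θ)
      ≤ Real.exp ((7 / 2) ^ 2) * ((E * Real.exp (4 * |t| + 4)) * (C4 * Z ^ (-θ))) := by gcongr
    _ = _ := by
        rw [hE, Real.exp_add]
        ring

/-- parameters: first step -/
theorem stepB1 (B τ : ℝ) (hB : 0 ≤ B) (hτ : 0 < τ) (hτ1 : τ ≤ 1 / 16) :
    ∃ A ℓ₀ C₀ : ℝ, 0 < A ∧ 1 ≤ ℓ₀ ∧ 1 ≤ C₀ ∧ ∀ (q : ℕ) [NeZero q] (χ : DirichletCharacter ℂ q), 2 ≤ q →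
    χ.IsPrimitive → ∀ ℓ X Z : ℝ, ℓ₀ ≤ ℓ → (q : ℝ) ≤ Real.exp ℓ → 1 ≤ X → X ≤ Real.exp (B * ℓ) →
      Real.exp (A * ℓ) ≤ Z → X ≤ Z → eta χ X Z ≤ 1 →
      (∀ σ t : ℝ, 1 / 2 + τ ≤ σ → σ ≤ 4 → |t| ≤ 5 * ℓ + 2 → ‖GG χ Z ⟨σ, t⟩‖ ≤ Real.exp (-ℓ)) ∧
      (∀ t : ℝ, |t| ≤ 5 * ℓ → (∀ z ∈ closedBall (⟨2, t⟩ : ℂ) 3, ‖χ.LFunction z‖ ≤
          C₀ * Real.exp (23 * ℓ)) ∧
        Real.log (C₀ * Real.exp (23 * ℓ) / ‖χ.LFunction ⟨2, t⟩‖) ≤ 24 * ℓ ∧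
        ∀ z ∈ closedBall (⟨2, t⟩ : ℂ) (3 / 2 - 2 * τ), χ.LFunction z ≠ 0) := by
  obtain ⟨C, hC, hG⟩ := GZ_small
  obtain ⟨C0, hC0, hs⟩ := strip_const
  obtain ⟨c0, hc0, hc01, hl⟩ := L_two_lower
  obtain ⟨A, hA⟩ : ∃ A : ℝ, A = (7 / (2 * τ)) * (1500 / τ + 2 * B + 30) := ⟨_, rfl⟩
  obtain ⟨C2, hC2⟩ : ∃ C2 : ℝ, C2 = C0 * Real.exp 9 := ⟨_, rfl⟩
  obtain ⟨C3, hC3⟩ : ∃ C3 : ℝ, C3 = 2 * C * Real.exp 8 / c0 := ⟨_, rfl⟩
  have hA0 : 0 < A := by rw [hA]; positivity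
  have hC2' : 1 ≤ C2 := by
    rw [hC2]
    have : 1 ≤ Real.exp (9 : ℝ) := Real.one_le_exp (by norm_num)
    nlinarith
  have hC3' : 1 ≤ C3 := by
    rw [hC3, le_div_iff₀ hc0]
    have : 1 ≤ Real.exp (8 : ℝ) := Real.one_le_exp (by norm_num)
    nlinarith
  refine ⟨A, max 1 (max (Real.log (C2 / c0)) (Real.log C3)), C2, hA0, le_max_left _ _, hC2', ?_⟩
  intro q _ χ hq hχ ℓ X Z hℓ hqℓ hX hXB hZA hXZ hη
  have hne := ne_one_of_prim hq hχ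
  have hℓ1 : 1 ≤ ℓ := (le_max_left _ _).trans hℓ
  have hℓ2 : Real.log (C2 / c0) ≤ ℓ := (le_max_left _ _).trans ((le_max_right _ _).trans hℓ)
  have hℓ3 : Real.log C3 ≤ ℓ := (le_max_right _ _).trans ((le_max_right _ _).trans hℓ)
  have hZ : 1 ≤ Z := hX.trans hXZ
  have hZ0 : 0 < Z := by linarith
  have hq0 : (0 : ℝ) < q := by exact_mod_cast NeZero.pos q
  have hq8 : (q : ℝ) ^ (8 : ℝ) ≤ Real.exp (8 * ℓ) := by
    calc (q : ℝ) ^ (8 : ℝ) ≤ (Real.exp ℓ) ^ (8 : ℝ) := Real.rpow_le_rpow hq0.le hqℓ (by norm_num)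
      _ = Real.exp (8 * ℓ) := by rw [← Real.exp_mul, mul_comm]
  have hX2 : X ^ (2 : ℝ) ≤ Real.exp (2 * (B * ℓ)) := by
    calc X ^ (2 : ℝ) ≤ (Real.exp (B * ℓ)) ^ (2 : ℝ) := Real.rpow_le_rpow (by linarith) hXB (by norm_num)
      _ = Real.exp (2 * (B * ℓ)) := by rw [← Real.exp_mul, mul_comm]
  -- the bound for G_Z
  have hCe : 2 * C * Real.exp 8 ≤ c0 * Real.exp ℓ := by
    have h1 : C3 ≤ Real.exp ℓ := by
      rw [← Real.exp_log (by linarith : 0 < C3)]; exact Real.exp_le_exp.mpr hℓ3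
    rw [hC3, div_le_iff₀ hc0] at h1
    linarith
  have hGZ : ∀ σ t : ℝ, 1 / 2 + τ ≤ σ → σ ≤ 4 → |t| ≤ 5 * ℓ + 2 →
      2 * ‖GG χ Z ⟨σ, t⟩‖ ≤ c0 * Real.exp (-ℓ - 1500 / τ * ℓ) := by
    intro σ t h1 h2 h3
    have h4 := hG q χ hq hχ X Z σ t hX hXZ hη (by linarith) h2
    have h5 : Z ^ (-((σ - 1 / 2) / (7 / 2))) ≤ Real.exp (-(2 * τ / 7) * (A * ℓ)) := by
      have e1 : 2 * τ / 7 ≤ (σ - 1 / 2) / (7 / 2) := by
        rw [div_le_div_iff₀ (by norm_num) (by norm_num)]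
        linarith
      calc Z ^ (-((σ - 1 / 2) / (7 / 2))) ≤ Z ^ (-(2 * τ / 7)) :=
            Real.rpow_le_rpow_of_exponent_le hZ (by linarith)
        _ ≤ (Real.exp (A * ℓ)) ^ (-(2 * τ / 7)) := by
            apply Real.rpow_le_rpow_of_nonpos (Real.exp_pos _) hZA
            have : 0 ≤ 2 * τ / 7 := by positivity
            linarith
        _ = Real.exp (-(2 * τ / 7) * (A * ℓ)) := by rw [← Real.exp_mul, mul_comm]
    have h6 : Real.exp (4 * |t|) ≤ Real.exp (20 * ℓ + 8) := by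
      apply Real.exp_le_exp.mpr; linarith
    have e2 : (2 * τ / 7) * (A * ℓ) = (1500 / τ + 2 * B + 30) * ℓ := by
      rw [hA]; field_simp
    calc 2 * ‖GG χ Z ⟨σ, t⟩‖ ≤ 2 * (C * (q : ℝ) ^ (8 : ℝ) * X ^ (2 : ℝ) * Real.exp (4 * |t|) *
          Z ^ (-((σ - 1 / 2) / (7 / 2)))) := by linarith
      _ ≤ 2 * (C * Real.exp (8 * ℓ) * Real.exp (2 * (B * ℓ)) * Real.exp (20 * ℓ + 8) *
          Real.exp (-(2 * τ / 7) * (A * ℓ))) := by gcongr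
      _ = (2 * C * Real.exp 8) * Real.exp (-(2 * ℓ) - 1500 / τ * ℓ) := by
          have e3 : Real.exp (8 * ℓ) * Real.exp (2 * (B * ℓ)) * Real.exp (20 * ℓ + 8) *
              Real.exp (-(2 * τ / 7) * (A * ℓ)) = Real.exp 8 * Real.exp (-(2 * ℓ) - 1500 / τ * ℓ) := by
            rw [← Real.exp_add, ← Real.exp_add, ← Real.exp_add, ← Real.exp_add]
            congr 1
            have : -(2 * τ / 7) * (A * ℓ) = -((1500 / τ + 2 * B + 30) * ℓ) := by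
              rw [← e2]; ring
            rw [this]
            ring
          calc _ = 2 * C * (Real.exp (8 * ℓ) * Real.exp (2 * (B * ℓ)) * Real.exp (20 * ℓ + 8) *
              Real.exp (-(2 * τ / 7) * (A * ℓ))) := by ring
            _ = _ := by rw [e3]; ring
      _ ≤ (c0 * Real.exp ℓ) * Real.exp (-(2 * ℓ) - 1500 / τ * ℓ) := by gcongr
      _ = c0 * Real.exp (-ℓ - 1500 / τ * ℓ) := by
          rw [mul_assoc, ← Real.exp_add]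
          congr 2
          ring
  refine ⟨?_, ?_⟩
  · intro σ t h1 h2 h3
    have h4 := hGZ σ t h1 h2 h3
    have h5 : Real.exp (-ℓ - 1500 / τ * ℓ) ≤ Real.exp (-ℓ) := by
      apply Real.exp_le_exp.mpr
      have : 0 ≤ 1500 / τ * ℓ := by positivity
      linarith
    have h6 : c0 * Real.exp (-ℓ - 1500 / τ * ℓ) ≤ 1 * Real.exp (-ℓ) := by gcongr
    have h7 := norm_nonneg (GG χ Z ⟨σ, t⟩)
    linarith
  · intro t ht
    have hM : ∀ z ∈ closedBall (⟨2, t⟩ : ℂ) 3, ‖χ.LFunction z‖ ≤ C2 * Real.exp (23 * ℓ) := by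
      intro z hz
      rw [mem_closedBall, dist_eq_norm] at hz
      have a1 := (Complex.abs_re_le_norm (z - ⟨2, t⟩)).trans hz
      have a2 := (Complex.abs_im_le_norm (z - ⟨2, t⟩)).trans hz
      simp only [sub_re, sub_im] at a1 a2
      rw [abs_le] at a1
      have a3 : |z.im| ≤ 5 * ℓ + 3 := by
        have := abs_add_le (z.im - t) t
        simp only [sub_add_cancel] at this
        linarith
      have e : z = ⟨z.re, z.im⟩ := rfl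
      rw [e]
      refine (hs q χ hq hχ z.re z.im (by linarith [a1.1]) (by linarith [a1.2])).1.trans ?_
      have a4 : Real.exp (3 * |z.im|) ≤ Real.exp (15 * ℓ + 9) := by
        apply Real.exp_le_exp.mpr; linarith
      calc C0 * (q : ℝ) ^ (8 : ℝ) * Real.exp (3 * |z.im|) ≤ C0 * Real.exp (8 * ℓ) *
            Real.exp (15 * ℓ + 9) := by gcongr
        _ = C2 * Real.exp (23 * ℓ) := by
            rw [hC2, mul_assoc, ← Real.exp_add, mul_assoc, ← Real.exp_add]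
            congr 2
            ring
    have hfc := hl q χ t
    have hfc0 : 0 < ‖χ.LFunction ⟨2, t⟩‖ := lt_of_lt_of_le hc0 hfc
    have hΛ : Real.log (C2 * Real.exp (23 * ℓ) / ‖χ.LFunction ⟨2, t⟩‖) ≤ 24 * ℓ := by
      calc Real.log (C2 * Real.exp (23 * ℓ) / ‖χ.LFunction ⟨2, t⟩‖)
          ≤ Real.log (C2 * Real.exp (23 * ℓ) / c0) := by
            apply Real.log_le_log (by positivity)
            gcongr
        _ = Real.log (C2 / c0) + 23 * ℓ := by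
            rw [mul_div_right_comm, Real.log_mul (by positivity) (by positivity), Real.log_exp]
        _ ≤ 24 * ℓ := by linarith
    refine ⟨hM, hΛ, ?_⟩
    have hL : Differentiable ℂ χ.LFunction := DirichletCharacter.differentiable_LFunction hne
    apply no_zeros (f := χ.LFunction) (D := DD χ Z) (c := ⟨2, t⟩) (M := C2 * Real.exp (23 * ℓ))
      (κ := c0 / 2 * Real.exp (-ℓ - 1500 / τ * ℓ)) (u0 := 3 / 2 - 2 * τ) (u1 := 3 / 2 - τ)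
      (by linarith) (by linarith) (by linarith)
    · have : 1 ≤ Real.exp (23 * ℓ) := Real.one_le_exp (by positivity)
      nlinarith
    · exact hM _ (mem_closedBall_self (by norm_num))
    · exact fun z _ => hL.analyticAt z
    · exact norm_pos_iff.mp hfc0
    · exact hM
    · exact DD_differentiable χ hZ
    · intro z hz
      rw [mem_closedBall, dist_eq_norm] at hz
      have a1 := (Complex.abs_re_le_norm (z - ⟨2, t⟩)).trans hz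
      have a2 := (Complex.abs_im_le_norm (z - ⟨2, t⟩)).trans hz
      simp only [sub_re, sub_im] at a1 a2
      rw [abs_le] at a1
      have a3 : |z.im| ≤ 5 * ℓ + 2 := by
        have := abs_add_le (z.im - t) t
        simp only [sub_add_cancel] at this
        linarith
      have a4 := hGZ z.re z.im (by linarith [a1.1]) (by linarith [a1.2]) a3
      have e : deriv χ.LFunction z + χ.LFunction z * DD χ Z z = GG χ Z ⟨z.re, z.im⟩ := rfl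
      rw [e]
      linarith
    · have e1 : 3 / 2 - τ - (3 / 2 - 2 * τ) = τ := by ring
      rw [e1]
      have a1 : 60 * (Real.log (C2 * Real.exp (23 * ℓ) / ‖χ.LFunction ⟨2, t⟩‖) + 1) / τ ≤
          1500 / τ * ℓ := by
        rw [div_mul_eq_mul_div]
        apply div_le_div_of_nonneg_right _ hτ.le
        linarith
      calc 2 * (c0 / 2 * Real.exp (-ℓ - 1500 / τ * ℓ)) = c0 * Real.exp (-ℓ - 1500 / τ * ℓ) := by ring
        _ ≤ ‖χ.LFunction ⟨2, t⟩‖ * Real.exp (-(60 *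
            (Real.log (C2 * Real.exp (23 * ℓ) / ‖χ.LFunction ⟨2, t⟩‖) + 1) / τ)) := by
            apply mul_le_mul hfc _ (Real.exp_pos _).le hfc0.le
            apply Real.exp_le_exp.mpr
            linarith

lemma rpow_small {K θ δ : ℝ} (hK : 0 ≤ K) (hθ1 : θ < 1) (hθ0 : 0 ≤ θ) (hδ : 0 < δ) :
    ∃ ℓ₀ : ℝ, 1 ≤ ℓ₀ ∧ ∀ ℓ : ℝ, ℓ₀ ≤ ℓ → K * ℓ ^ θ + K ≤ δ * ℓ := by
  have h1 := (tendsto_rpow_atTop (y := 1 - θ) (by linarith)).eventually_ge_atTop (2 * K / δ)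
  obtain ⟨a, ha⟩ := eventually_atTop.mp h1
  refine ⟨max 1 a, le_max_left _ _, fun ℓ hℓ => ?_⟩
  have hℓ1 : 1 ≤ ℓ := (le_max_left _ _).trans hℓ
  have hℓ0 : 0 < ℓ := by linarith
  have h2 := ha ℓ ((le_max_right _ _).trans hℓ)
  rw [div_le_iff₀ hδ] at h2
  have h3 : 1 ≤ ℓ ^ θ := Real.one_le_rpow hℓ1 hθ0
  have h4 : ℓ ^ (1 - θ) * ℓ ^ θ = ℓ := by
    rw [← Real.rpow_add hℓ0]; simp
  have h5 : 2 * K * ℓ ^ θ ≤ ℓ ^ (1 - θ) * δ * ℓ ^ θ := mul_le_mul_of_nonneg_right h2 (by positivity)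
  calc K * ℓ ^ θ + K ≤ K * ℓ ^ θ + K * ℓ ^ θ := by nlinarith
    _ = 2 * K * ℓ ^ θ := by ring
    _ ≤ ℓ ^ (1 - θ) * δ * ℓ ^ θ := h5
    _ = δ * (ℓ ^ (1 - θ) * ℓ ^ θ) := by ring
    _ = δ * ℓ := by rw [h4]

/-- parameters: second step -/
theorem stepB2 (C₀ τ δ : ℝ) (hC₀ : 1 ≤ C₀) (hτ : 0 < τ) (hτ1 : τ ≤ 1 / 16) (hδ : 0 < δ) :
    ∃ ℓ₀ : ℝ, 1 ≤ ℓ₀ ∧ ∀ (q : ℕ) [NeZero q] (χ : DirichletCharacter ℂ q), 2 ≤ q →
    χ.IsPrimitive → ∀ ℓ t : ℝ, ℓ₀ ≤ ℓ →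
      (∀ z ∈ closedBall (⟨2, t⟩ : ℂ) 3, ‖χ.LFunction z‖ ≤ C₀ * Real.exp (23 * ℓ)) →
      Real.log (C₀ * Real.exp (23 * ℓ) / ‖χ.LFunction ⟨2, t⟩‖) ≤ 24 * ℓ →
      (∀ z ∈ closedBall (⟨2, t⟩ : ℂ) (3 / 2 - 2 * τ), χ.LFunction z ≠ 0) →
      Real.exp (-(δ * ℓ)) ≤ ‖χ.LFunction ⟨1 / 2 + 4 * τ, t⟩‖ ∧
        ‖χ.LFunction ⟨1 / 2 + 4 * τ, t⟩‖ ≤ Real.exp (δ * ℓ) := by
  obtain ⟨c0, hc0, hc01, hl⟩ := L_two_lower
  obtain ⟨S, hS, hL3⟩ := L_three_halves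
  obtain ⟨r, hr⟩ : ∃ r : ℝ, r = 3 / 2 - 4 * τ := ⟨_, rfl⟩
  obtain ⟨r2, hr2⟩ : ∃ r2 : ℝ, r2 = 3 / 2 - 3 * τ := ⟨_, rfl⟩
  obtain ⟨r3, hr3⟩ : ∃ r3 : ℝ, r3 = 3 / 2 - 2 * τ := ⟨_, rfl⟩
  have hr14 : 1 / 4 < r := by rw [hr]; linarith
  have hrr2 : r < r2 := by rw [hr, hr2]; linarith
  have hr23 : r2 < r3 := by rw [hr2, hr3]; linarith
  obtain ⟨θ, hθ⟩ : ∃ θ : ℝ, θ = Real.log (r / (1 / 4)) / Real.log (r2 / (1 / 4)) := ⟨_, rfl⟩
  have hlogr : 0 < Real.log (r / (1 / 4)) := Real.log_pos (by rw [lt_div_iff₀ (by norm_num)]; linarith)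
  have hlogr2 : Real.log (r / (1 / 4)) < Real.log (r2 / (1 / 4)) := by
    apply Real.log_lt_log (by positivity)
    apply div_lt_div_of_pos_right hrr2 (by norm_num)
  have hθ0 : 0 ≤ θ := by rw [hθ]; apply div_nonneg hlogr.le (hlogr.trans hlogr2).le
  have hθ1 : θ < 1 := by rw [hθ, div_lt_one (hlogr.trans hlogr2)]; exact hlogr2
  obtain ⟨M1, hM1⟩ : ∃ M1 : ℝ, M1 = 2 * (Real.log (S / c0) + 1) := ⟨_, rfl⟩
  have hlSc : 0 ≤ Real.log (S / c0) := Real.log_nonneg (by rw [le_div_iff₀ hc0]; linarith)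
  have hM10 : 0 < M1 := by rw [hM1]; positivity
  obtain ⟨K, hK⟩ : ∃ K : ℝ, K = M1 ^ (1 - θ) * (75 / τ) ^ θ + Real.log (S / c0) := ⟨_, rfl⟩
  have hK0 : 0 ≤ K := by rw [hK]; positivity
  obtain ⟨ℓ₀, hℓ₀, hsm⟩ := rpow_small hK0 hθ1 hθ0 hδ
  refine ⟨ℓ₀, hℓ₀, ?_⟩
  intro q _ χ hq hχ ℓ t hℓ hM hΛ hnz
  have hℓ1 : 1 ≤ ℓ := hℓ₀.trans hℓ
  have hne := ne_one_of_prim hq hχ
  have hL : Differentiable ℂ χ.LFunction := DirichletCharacter.differentiable_LFunction hne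
  have hfc := hl q χ t
  have hfc0 : 0 < ‖χ.LFunction ⟨2, t⟩‖ := lt_of_lt_of_le hc0 hfc
  have hfcS : ‖χ.LFunction ⟨2, t⟩‖ ≤ S := hL3 q χ ⟨2, t⟩ (by norm_num)
  have hr30 : 0 < r3 := by linarith
  have hr3le : r3 ≤ 3 := by rw [hr3]; linarith
  rw [← hr3] at hnz
  obtain ⟨h, hhd, hhc, hgh⟩ := exists_log (g := χ.LFunction) (c := ⟨2, t⟩) hr30 hL.differentiableOn
    (fun z hz => hnz z (ball_subset_closedBall hz))
  have hfne : χ.LFunction ⟨2, t⟩ ≠ 0 := norm_pos_iff.mp hfc0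
  have h23 : 1 ≤ Real.exp (23 * ℓ) := Real.one_le_exp (by linarith)
  -- outer bound
  obtain ⟨Λ, hΛ'⟩ : ∃ Λ : ℝ, Λ = Real.log (C₀ * Real.exp (23 * ℓ) / ‖χ.LFunction ⟨2, t⟩‖) := ⟨_, rfl⟩
  have hfM : ‖χ.LFunction ⟨2, t⟩‖ ≤ C₀ * Real.exp (23 * ℓ) := hM _ (mem_closedBall_self (by norm_num))
  have hΛ0 : 0 ≤ Λ := by
    rw [hΛ']; exact Real.log_nonneg (by rw [le_div_iff₀ hfc0]; linarith)
  rw [← hΛ'] at hΛ
  have hout := log_bound hr30 hΛ0 hhd hhc hfne hgh (by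
    intro z hz
    rw [hΛ', Real.exp_log (by positivity), div_mul_cancel₀ _ hfc0.ne']
    exact hM z (closedBall_subset_closedBall hr3le (ball_subset_closedBall hz))) hr23
  have hout' : ∀ w ∈ closedBall (⟨2, t⟩ : ℂ) r2, ‖h w‖ ≤ 75 / τ * ℓ := by
    intro w hw
    refine (hout w hw).trans ?_
    have e1 : r3 - r2 = τ := by rw [hr2, hr3]; ring
    rw [e1, div_mul_eq_mul_div]
    apply div_le_div_of_nonneg_right _ hτ.le
    have h1 : 2 * (Λ + 1) ≤ 50 * ℓ := by linarith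
    have h2 : r2 ≤ 3 / 2 := by rw [hr2]; linarith
    calc 2 * (Λ + 1) * r2 ≤ (50 * ℓ) * (3 / 2) := by
          apply mul_le_mul h1 h2 (by linarith) (by positivity)
      _ = 75 * ℓ := by ring
  -- inner bound
  have hsub : ball (⟨2, t⟩ : ℂ) (1 / 2) ⊆ ball (⟨2, t⟩ : ℂ) r3 := ball_subset_ball (by linarith)
  have hB' : 0 ≤ Real.log (S / c0) := hlSc
  have hin := log_bound (r := 1 / 2) (by norm_num) hB' (hhd.mono hsub) hhc hfne
    (fun w hw => hgh w (hsub hw)) (by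
    intro z hz
    rw [Real.exp_log (by positivity)]
    have h1 : ‖χ.LFunction z‖ ≤ S := by
      apply hL3
      rw [mem_ball, dist_eq_norm] at hz
      have a1 := (Complex.abs_re_le_norm (z - ⟨2, t⟩)).trans hz.le
      simp only [sub_re] at a1
      rw [abs_le] at a1
      linarith [a1.1]
    refine h1.trans ?_
    rw [div_mul_eq_mul_div, le_div_iff₀ hc0]
    exact mul_le_mul_of_nonneg_left hfc (by linarith)) (r1 := 1 / 4) (by norm_num)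
  have hin' : ∀ w ∈ closedBall (⟨2, t⟩ : ℂ) (1 / 4), ‖h w‖ ≤ M1 := by
    intro w hw
    refine (hin w hw).trans (le_of_eq ?_)
    rw [hM1]; ring
  -- three circles
  have hpt : ‖(⟨1 / 2 + 4 * τ, t⟩ : ℂ) - ⟨2, t⟩‖ = r := by
    have e : (⟨1 / 2 + 4 * τ, t⟩ : ℂ) - ⟨2, t⟩ = ((-r : ℝ) : ℂ) := by
      apply Complex.ext
      · simp [hr]; ring
      · simp
    rw [e, norm_real, norm_neg, Real.norm_of_nonneg (by linarith)]
  have h3c := three_circles (h := h) (c := ⟨2, t⟩) (r1 := 1 / 4) (r2 := r2) (r3 := r3) (M1 := M1)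
    (M2 := 75 / τ * ℓ) (by norm_num) (by linarith) hr23 hhd hin' hout' (r := r) hr14.le hrr2.le hpt
  rw [← hθ] at h3c
  have hmemr : (⟨1 / 2 + 4 * τ, t⟩ : ℂ) ∈ ball (⟨2, t⟩ : ℂ) r3 := by
    rw [mem_ball, dist_eq_norm, hpt]; linarith
  have h4 := hgh _ hmemr
  have h5 : ‖h ⟨1 / 2 + 4 * τ, t⟩‖ + Real.log (S / c0) ≤ δ * ℓ := by
    have e1 : (75 / τ * ℓ) ^ θ = (75 / τ) ^ θ * ℓ ^ θ := Real.mul_rpow (by positivity) (by linarith)
    rw [e1] at h3c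
    have e2 := hsm ℓ hℓ
    have e3 : 1 ≤ ℓ ^ θ := Real.one_le_rpow hℓ1 hθ0
    have e4 : M1 ^ (1 - θ) * ((75 / τ) ^ θ * ℓ ^ θ) ≤ K * ℓ ^ θ := by
      rw [← mul_assoc]
      apply mul_le_mul_of_nonneg_right _ (by positivity)
      rw [hK]; linarith
    have e5 : Real.log (S / c0) ≤ K := by
      rw [hK]
      have : 0 ≤ M1 ^ (1 - θ) * (75 / τ) ^ θ := by positivity
      linarith
    linarith
  have hre := abs_le.mp (Complex.abs_re_le_norm (h ⟨1 / 2 + 4 * τ, t⟩))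
  have hnorm : ‖χ.LFunction ⟨1 / 2 + 4 * τ, t⟩‖ = ‖χ.LFunction ⟨2, t⟩‖ *
      Real.exp (h ⟨1 / 2 + 4 * τ, t⟩).re := by rw [h4, norm_mul, norm_exp]
  have hlogdiv : Real.log (S / c0) = Real.log S - Real.log c0 := Real.log_div (by linarith) hc0.ne'
  have hlogc : Real.log c0 ≤ 0 := Real.log_nonpos hc0.le hc01
  have hlogS : 0 ≤ Real.log S := Real.log_nonneg hS
  rw [hnorm]
  constructor
  · calc Real.exp (-(δ * ℓ)) ≤ Real.exp (Real.log c0 + (h ⟨1 / 2 + 4 * τ, t⟩).re) := by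
          apply Real.exp_le_exp.mpr
          linarith [hre.1]
      _ = c0 * Real.exp (h ⟨1 / 2 + 4 * τ, t⟩).re := by rw [Real.exp_add, Real.exp_log hc0]
      _ ≤ _ := by gcongr
  · calc ‖χ.LFunction ⟨2, t⟩‖ * Real.exp (h ⟨1 / 2 + 4 * τ, t⟩).re
        ≤ S * Real.exp (h ⟨1 / 2 + 4 * τ, t⟩).re := by gcongr
      _ = Real.exp (Real.log S + (h ⟨1 / 2 + 4 * τ, t⟩).re) := by
          rw [Real.exp_add, Real.exp_log (by linarith)]
      _ ≤ Real.exp (δ * ℓ) := by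
          apply Real.exp_le_exp.mpr
          linarith [hre.2]

end Pool.Agent.NH13.EC
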