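import Pool.Agent.NH13.EStepB

/-!
# `L' + L D_X` is small compared with `L` on both sides of the critical line
-/

set_option autoImplicit false

open Complex MeasureTheory Set Filter Topology Metric

namespace Pool.Agent.NH13.EC

lemma large_params (δ K1 K2 κ : ℝ) (hδ : 0 < δ) (hκ : 0 < κ) :
    ∃ ℓ₀ : ℝ, 1 ≤ ℓ₀ ∧ ∀ ℓ : ℝ, ℓ₀ ≤ ℓ → 1 + 6 * ℓ ≤ Real.exp (δ * ℓ) ∧ K1 * ℓ ≤ ℓ ^ 2 ∧
      K2 ≤ κ * ℓ := by
  refine ⟨max 1 (max (14 / δ ^ 2) (max K1 (K2 / κ))), le_max_left _ _, fun ℓ hℓ => ?_⟩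
  have hℓ1 : 1 ≤ ℓ := (le_max_left _ _).trans hℓ
  have hℓ2 : 14 / δ ^ 2 ≤ ℓ := (le_max_left _ _).trans ((le_max_right _ _).trans hℓ)
  have hℓ3 : K1 ≤ ℓ := (le_max_left _ _).trans ((le_max_right _ _).trans ((le_max_right _ _).trans hℓ))
  have hℓ4 : K2 / κ ≤ ℓ := (le_max_right _ _).trans ((le_max_right _ _).trans ((le_max_right _ _).trans hℓ))
  refine ⟨?_, ?_, ?_⟩
  · have h1 := Real.quadratic_le_exp_of_nonneg (show 0 ≤ δ * ℓ by positivity)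
    rw [div_le_iff₀ (by positivity)] at hℓ2
    have h2 : 0 ≤ δ * ℓ := by positivity
    have h3 : 14 * ℓ ≤ (δ * ℓ) ^ 2 := by
      have : 14 * ℓ ≤ ℓ * δ ^ 2 * ℓ := mul_le_mul_of_nonneg_right hℓ2 (by linarith)
      calc 14 * ℓ ≤ ℓ * δ ^ 2 * ℓ := this
        _ = (δ * ℓ) ^ 2 := by ring
    linarith
  · nlinarith
  · rw [div_le_iff₀ hκ] at hℓ4
    linarith

theorem stepC (B ε : ℝ) (hB : 0 ≤ B) (hε : 0 < ε) (hε1 : ε ≤ 1) :
    ∃ η A ℓ₀ : ℝ, 0 < η ∧ η ≤ 1 / 4 ∧ 0 < A ∧ 1 ≤ ℓ₀ ∧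
    ∀ (q : ℕ) [NeZero q] (χ : DirichletCharacter ℂ q), 2 ≤ q →
    χ.IsPrimitive → ∀ ℓ X Z : ℝ, ℓ₀ ≤ ℓ → (q : ℝ) ≤ Real.exp ℓ → 1 ≤ X → X ≤ Real.exp (B * ℓ) →
      Real.exp (A * ℓ) ≤ Z → X ≤ Z → eta χ X Z ≤ Real.exp (-(ε * ℓ)) → ∀ t : ℝ, |t| ≤ 3 * ℓ →
      χ.LFunction ⟨1 / 2 + η, t⟩ ≠ 0 ∧ χ.LFunction ⟨1 / 2 - η, t⟩ ≠ 0 ∧
      ‖GG χ X ⟨1 / 2 + η, t⟩‖ ≤ Real.exp (-(ε / 2 * ℓ)) * ‖χ.LFunction ⟨1 / 2 + η, t⟩‖ ∧
      ‖GG χ X ⟨1 / 2 - η, t⟩‖ ≤ Real.exp (-(ε / 2 * ℓ)) * ‖χ.LFunction ⟨1 / 2 - η, t⟩‖ := by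
  obtain ⟨τ, hτ⟩ : ∃ τ : ℝ, τ = ε / (60 * (21 + 3 * B)) := ⟨_, rfl⟩
  have hτ0 : 0 < τ := by rw [hτ]; positivity
  have hτ1 : τ ≤ 1 / 16 := by
    rw [hτ, div_le_iff₀ (by positivity)]
    nlinarith
  have hτε : 16 * τ / 3 * (21 + 3 * B) ≤ ε / 10 := by
    have : τ * (60 * (21 + 3 * B)) = ε := by rw [hτ]; field_simp
    nlinarith
  obtain ⟨A, ℓ1, C₀, hA, hℓ1, hC₀, hB1⟩ := stepB1 B τ hB hτ0 hτ1
  obtain ⟨ℓ2, hℓ2, hB2⟩ := stepB2 C₀ τ (ε / 20) hC₀ hτ0 hτ1 (by positivity)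
  obtain ⟨C1, hC1, hGs⟩ := GG_strip
  obtain ⟨CF, hCF, hFE⟩ := FE_bounds
  have hlC1 : 0 ≤ Real.log C1 := Real.log_nonneg hC1
  have hlCF : 0 ≤ Real.log CF := Real.log_nonneg hCF
  obtain ⟨ℓ3, hℓ3, hlp⟩ := large_params (ε / 20) (24 + 2 * B + Real.log C1)
    (4 + 4 + Real.log C1 + Real.log CF) (ε / 4) (by positivity) (by positivity)
  refine ⟨4 * τ, A, max ℓ1 (max ℓ2 ℓ3), by positivity, by linarith, hA, hℓ1.trans (le_max_left _ _), ?_⟩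
  intro q _ χ hq hχ ℓ X Z hℓ hqℓ hX hXB hZA hXZ hη t₀ ht₀
  have hne := ne_one_of_prim hq hχ
  have hl1 : ℓ1 ≤ ℓ := (le_max_left _ _).trans hℓ
  have hl2 : ℓ2 ≤ ℓ := (le_max_left _ _).trans ((le_max_right _ _).trans hℓ)
  have hl3 : ℓ3 ≤ ℓ := (le_max_right _ _).trans ((le_max_right _ _).trans hℓ)
  have hℓ1' : 1 ≤ ℓ := hℓ1.trans hl1
  have hℓ0 : 0 < ℓ := by linarith
  obtain ⟨hp1, hp2, hp3⟩ := hlp ℓ hl3
  have hη1 : eta χ X Z ≤ 1 := by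
    refine hη.trans ?_
    rw [Real.exp_le_one_iff]
    have : 0 ≤ ε * ℓ := by positivity
    linarith
  obtain ⟨hGZ, hrest⟩ := hB1 q χ hq hχ ℓ X Z hl1 hqℓ hX hXB hZA hXZ hη1
  have hLb : ∀ t : ℝ, |t| ≤ 5 * ℓ → Real.exp (-(ε / 20 * ℓ)) ≤ ‖χ.LFunction ⟨1 / 2 + 4 * τ, t⟩‖ ∧
        ‖χ.LFunction ⟨1 / 2 + 4 * τ, t⟩‖ ≤ Real.exp (ε / 20 * ℓ) := by
    intro t ht
    obtain ⟨a1, a2, a3⟩ := hrest t ht
    exact hB2 q χ hq hχ ℓ t hl2 a1 a2 a3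
  -- G_X on the right line
  have hGXr : ∀ t : ℝ, |t| ≤ 5 * ℓ → ‖GG χ X ⟨1 / 2 + 4 * τ, t⟩‖ ≤ Real.exp (-(9 / 10 * ε * ℓ)) := by
    intro t ht
    have a1 := hGZ (1 / 2 + 4 * τ) t (by linarith) (by linarith) (by linarith)
    have a2 := (hLb t ht).2
    have a3 := DD_sub_le χ hX hXZ (w := ⟨1 / 2 + 4 * τ, t⟩) (by simp only; linarith)
    have a4 : ‖(⟨1 / 2 + 4 * τ, t⟩ : ℂ)‖ ≤ 6 * ℓ := by
      have h2 := Complex.norm_le_abs_re_add_abs_im (⟨1 / 2 + 4 * τ, t⟩ : ℂ)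
      simp only at h2
      rw [abs_of_nonneg (by linarith : 0 ≤ 1 / 2 + 4 * τ)] at h2
      linarith
    have e : GG χ X ⟨1 / 2 + 4 * τ, t⟩ = GG χ Z ⟨1 / 2 + 4 * τ, t⟩ - χ.LFunction ⟨1 / 2 + 4 * τ, t⟩ *
        (DD χ Z ⟨1 / 2 + 4 * τ, t⟩ - DD χ X ⟨1 / 2 + 4 * τ, t⟩) := by unfold GG; ring
    rw [e]
    refine (norm_sub_le _ _).trans ?_
    rw [norm_mul]
    have h19 : Real.exp (-ℓ) ≤ Real.exp (-(19 / 20 * ε * ℓ)) := by
      apply Real.exp_le_exp.mpr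
      have : 19 / 20 * ε * ℓ ≤ 1 * ℓ := by
        apply mul_le_mul_of_nonneg_right _ hℓ0.le
        linarith
      linarith
    calc ‖GG χ Z ⟨1 / 2 + 4 * τ, t⟩‖ + ‖χ.LFunction ⟨1 / 2 + 4 * τ, t⟩‖ *
          ‖DD χ Z ⟨1 / 2 + 4 * τ, t⟩ - DD χ X ⟨1 / 2 + 4 * τ, t⟩‖
        ≤ Real.exp (-ℓ) + Real.exp (ε / 20 * ℓ) * ((6 * ℓ) * Real.exp (-(ε * ℓ))) := by
          apply add_le_add a1
          apply mul_le_mul a2 _ (norm_nonneg _) (Real.exp_pos _).le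
          refine a3.trans ?_
          apply mul_le_mul a4 hη (eta_nonneg χ Z hX) (by positivity)
      _ = Real.exp (-ℓ) + 6 * ℓ * Real.exp (-(19 / 20 * ε * ℓ)) := by
          have : Real.exp (ε / 20 * ℓ) * Real.exp (-(ε * ℓ)) = Real.exp (-(19 / 20 * ε * ℓ)) := by
            rw [← Real.exp_add]; congr 1; ring
          rw [← this]; ring
      _ ≤ (1 + 6 * ℓ) * Real.exp (-(19 / 20 * ε * ℓ)) := by linarith
      _ ≤ Real.exp (ε / 20 * ℓ) * Real.exp (-(19 / 20 * ε * ℓ)) := by gcongr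
      _ = Real.exp (-(9 / 10 * ε * ℓ)) := by rw [← Real.exp_add]; congr 1; ring
  -- crude bounds
  have hq0 : (0 : ℝ) < q := by exact_mod_cast NeZero.pos q
  have hq8 : (q : ℝ) ^ (8 : ℝ) ≤ Real.exp (8 * ℓ) := by
    calc (q : ℝ) ^ (8 : ℝ) ≤ (Real.exp ℓ) ^ (8 : ℝ) := Real.rpow_le_rpow hq0.le hqℓ (by norm_num)
      _ = Real.exp (8 * ℓ) := by rw [← Real.exp_mul, mul_comm]
  have hXp : ∀ p : ℝ, 0 ≤ p → X ^ p ≤ Real.exp (p * (B * ℓ)) := by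
    intro p hp
    calc X ^ p ≤ (Real.exp (B * ℓ)) ^ p := Real.rpow_le_rpow (by linarith) hXB hp
      _ = Real.exp (p * (B * ℓ)) := by rw [← Real.exp_mul, mul_comm]
  have hexp34 : ∀ y : ℝ, Real.exp (3 * |y|) * Real.exp (-(y - t₀) ^ 2) ≤ Real.exp (12 * ℓ + 4) := by
    intro y
    rw [← Real.exp_add]
    apply Real.exp_le_exp.mpr
    have h6 : |y| ≤ |y - t₀| + |t₀| := by
      have := abs_add_le (y - t₀) t₀
      simpa using this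
    have h7 : (y - t₀) ^ 2 = |y - t₀| ^ 2 := (sq_abs _).symm
    rw [h7]
    nlinarith [sq_nonneg (|y - t₀| - 2), abs_nonneg (y - t₀)]
  have htl := three_lines (f := GG χ X) (GG_differentiable hne hX) (a := -1) (b := 1 / 2 + 4 * τ)
    (σ := 1 / 2 - 4 * τ) (t := t₀) (D := C1 * (q : ℝ) ^ (8 : ℝ) * X ^ (2 + 1 : ℝ))
    (A := Real.exp (Real.log C1 + 4 + (20 + 3 * B) * ℓ)) (B := Real.exp (-(9 / 10 * ε * ℓ)))
    (by linarith) (by linarith) (by linarith) (by positivity)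
    (by
      intro x hx y
      refine (hGs q χ hq hχ X 1 x y hX (by norm_num) (by norm_num) hx.1 (by linarith [hx.2])).trans ?_
      have e1 : Real.exp (3 * |y|) ≤ Real.exp (4 * |y|) := by
        apply Real.exp_le_exp.mpr; linarith [abs_nonneg y]
      gcongr)
    (by
      intro y
      have a1 := hGs q χ hq hχ X 1 (-1) y hX (by norm_num) (by norm_num) (by norm_num) (by norm_num)
      have a2 := hXp (2 + 1) (by norm_num)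
      have a3 := hexp34 y
      calc ‖GG χ X ⟨-1, y⟩‖ * Real.exp (-(y - t₀) ^ 2)
          ≤ (C1 * (q : ℝ) ^ (8 : ℝ) * X ^ (2 + 1 : ℝ) * Real.exp (3 * |y|)) *
            Real.exp (-(y - t₀) ^ 2) := by gcongr
        _ = C1 * (q : ℝ) ^ (8 : ℝ) * X ^ (2 + 1 : ℝ) * (Real.exp (3 * |y|) *
            Real.exp (-(y - t₀) ^ 2)) := by ring
        _ ≤ C1 * Real.exp (8 * ℓ) * Real.exp ((2 + 1) * (B * ℓ)) * Real.exp (12 * ℓ + 4) := by gcongr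
        _ = Real.exp (Real.log C1 + 4 + (20 + 3 * B) * ℓ) := by
          rw [← Real.exp_log (by linarith : 0 < C1), Real.log_exp, ← Real.exp_add, ← Real.exp_add,
            ← Real.exp_add]
          congr 1
          ring)
    (by
      intro y
      rcases le_or_gt |y| (5 * ℓ) with hy | hy
      · have a1 := hGXr y hy
        have a2 : Real.exp (-(y - t₀) ^ 2) ≤ 1 := by
          rw [Real.exp_le_one_iff]
          linarith [sq_nonneg (y - t₀)]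
        calc ‖GG χ X ⟨1 / 2 + 4 * τ, y⟩‖ * Real.exp (-(y - t₀) ^ 2) ≤
              Real.exp (-(9 / 10 * ε * ℓ)) * 1 := by
              apply mul_le_mul a1 a2 (Real.exp_pos _).le (Real.exp_pos _).le
          _ = _ := mul_one _
      · have a1 := hGs q χ hq hχ X 0 (1 / 2 + 4 * τ) y hX le_rfl (by norm_num) (by linarith) (by linarith)
        have a2 := hXp (2 + 0) (by norm_num)
        have h6 : |y| ≤ |y - t₀| + |t₀| := by
          have := abs_add_le (y - t₀) t₀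
          simpa using this
        have h8 : 2 * ℓ ≤ |y - t₀| := by linarith
        have h7 : (y - t₀) ^ 2 = |y - t₀| ^ 2 := (sq_abs _).symm
        have h9 : 3 * |y - t₀| - |y - t₀| ^ 2 ≤ 6 * ℓ - 4 * ℓ ^ 2 := by nlinarith
        have h10 : Real.exp (3 * |y|) * Real.exp (-(y - t₀) ^ 2) ≤ Real.exp (15 * ℓ - 4 * ℓ ^ 2) := by
          rw [← Real.exp_add]
          apply Real.exp_le_exp.mpr
          rw [h7]
          linarith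
        calc ‖GG χ X ⟨1 / 2 + 4 * τ, y⟩‖ * Real.exp (-(y - t₀) ^ 2)
            ≤ (C1 * (q : ℝ) ^ (8 : ℝ) * X ^ (2 + 0 : ℝ) * Real.exp (3 * |y|)) *
              Real.exp (-(y - t₀) ^ 2) := by gcongr
          _ = C1 * (q : ℝ) ^ (8 : ℝ) * X ^ (2 + 0 : ℝ) * (Real.exp (3 * |y|) *
              Real.exp (-(y - t₀) ^ 2)) := by ring
          _ ≤ C1 * Real.exp (8 * ℓ) * Real.exp ((2 + 0) * (B * ℓ)) * Real.exp (15 * ℓ - 4 * ℓ ^ 2) := by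
              gcongr
          _ = Real.exp (Real.log C1 + (8 * ℓ + (2 + 0) * (B * ℓ) + (15 * ℓ - 4 * ℓ ^ 2))) := by
            rw [← Real.exp_log (by linarith : 0 < C1), Real.log_exp, ← Real.exp_add, ← Real.exp_add,
              ← Real.exp_add]
            congr 1
            ring
          _ ≤ Real.exp (-(9 / 10 * ε * ℓ)) := by
            apply Real.exp_le_exp.mpr
            have b1 : Real.log C1 ≤ Real.log C1 * ℓ := le_mul_of_one_le_right hlC1 hℓ1'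
            have b2 : ε * ℓ ≤ 1 * ℓ := mul_le_mul_of_nonneg_right hε1 hℓ0.le
            nlinarith)
  -- evaluate
  obtain ⟨θ, hθ⟩ : ∃ θ : ℝ, θ = (1 / 2 - 4 * τ - -1) / (1 / 2 + 4 * τ - -1) := ⟨_, rfl⟩
  rw [← hθ] at htl
  have hden : 0 < 1 / 2 + 4 * τ - -1 := by linarith
  have hθ1 : θ ≤ 1 := by rw [hθ, div_le_one hden]; linarith
  have hθ2 : 1 - θ ≤ 16 * τ / 3 := by
    have h : θ * (1 / 2 + 4 * τ - -1) = 1 / 2 - 4 * τ - -1 := by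
      rw [hθ]; exact div_mul_cancel₀ _ hden.ne'
    have h' : 0 ≤ (1 - θ) * (4 * τ) := mul_nonneg (by linarith) (by positivity)
    nlinarith
  have hGXl : ‖GG χ X ⟨1 / 2 - 4 * τ, t₀⟩‖ ≤ Real.exp (4 + 4 + Real.log C1 - 8 / 10 * ε * ℓ) := by
    refine htl.trans ?_
    rw [← Real.exp_mul, ← Real.exp_mul, ← Real.exp_add, ← Real.exp_add]
    apply Real.exp_le_exp.mpr
    have c1 : (1 / 2 + 4 * τ - -1) ^ 2 ≤ 4 := by
      have : 1 / 2 + 4 * τ - -1 ≤ 2 := by linarith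
      nlinarith
    have c2 : (Real.log C1 + 4 + (20 + 3 * B) * ℓ) * (1 - θ) ≤
        (Real.log C1 + 4) + (20 + 3 * B) * ℓ * (16 * τ / 3) := by
      have d1 : (Real.log C1 + 4) * (1 - θ) ≤ (Real.log C1 + 4) * 1 := by
        apply mul_le_mul_of_nonneg_left _ (by positivity)
        have : 16 * τ / 3 ≤ 1 := by linarith
        linarith
      have d2 : (20 + 3 * B) * ℓ * (1 - θ) ≤ (20 + 3 * B) * ℓ * (16 * τ / 3) :=
        mul_le_mul_of_nonneg_left hθ2 (by positivity)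
      linarith
    have c3 : -(9 / 10 * ε * ℓ) * θ ≤ -(9 / 10 * ε * ℓ) + ε * ℓ * (16 * τ / 3) := by
      have d1 : (9 / 10 * ε * ℓ) * (1 - θ) ≤ (1 * ε * ℓ) * (16 * τ / 3) := by
        apply mul_le_mul _ hθ2 (by linarith) (by positivity)
        have : 0 ≤ ε * ℓ := by positivity
        linarith
      linarith
    have c4 : (20 + 3 * B) * ℓ * (16 * τ / 3) + ε * ℓ * (16 * τ / 3) ≤ ε / 10 * ℓ := by
      have d1 : (20 + 3 * B) * ℓ * (16 * τ / 3) + ε * ℓ * (16 * τ / 3) ≤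
          (16 * τ / 3 * (21 + 3 * B)) * ℓ := by
        have : 0 ≤ ℓ * (16 * τ / 3) := by positivity
        nlinarith
      exact d1.trans (mul_le_mul_of_nonneg_right hτε hℓ0.le)
    linarith
  have ht5 : |t₀| ≤ 5 * ℓ := by linarith
  obtain ⟨hLlow, -⟩ := hLb t₀ ht5
  have hFE' := (hFE q χ hq hχ (1 / 2 - 4 * τ) t₀ (by linarith) (by linarith)).2
  have e1 : 1 - (1 / 2 - 4 * τ) = 1 / 2 + 4 * τ := by ring
  rw [e1] at hFE'
  have hqn : (q : ℝ) ^ (-(1 / 2 - (1 / 2 - 4 * τ))) ≤ 1 :=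
    Real.rpow_le_one_of_one_le_of_nonpos (by exact_mod_cast NeZero.one_le) (by linarith)
  have hLleft : Real.exp (-(ε / 20 * ℓ)) ≤ CF * ‖χ.LFunction ⟨1 / 2 - 4 * τ, t₀⟩‖ := by
    refine hLlow.trans (hFE'.trans ?_)
    have : CF * (q : ℝ) ^ (-(1 / 2 - (1 / 2 - 4 * τ))) ≤ CF * 1 := by gcongr
    calc _ ≤ CF * 1 * ‖χ.LFunction ⟨1 / 2 - 4 * τ, t₀⟩‖ := by gcongr
      _ = _ := by ring
  have hLr0 : 0 < ‖χ.LFunction ⟨1 / 2 + 4 * τ, t₀⟩‖ := lt_of_lt_of_le (Real.exp_pos _) hLlow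
  have hLl0 : 0 < ‖χ.LFunction ⟨1 / 2 - 4 * τ, t₀⟩‖ := by
    have h := lt_of_lt_of_le (Real.exp_pos _) hLleft
    by_contra hcon
    push Not at hcon
    nlinarith
  refine ⟨norm_pos_iff.mp hLr0, norm_pos_iff.mp hLl0, ?_, ?_⟩
  · calc ‖GG χ X ⟨1 / 2 + 4 * τ, t₀⟩‖ ≤ Real.exp (-(9 / 10 * ε * ℓ)) := hGXr t₀ ht5
      _ ≤ Real.exp (-(ε / 2 * ℓ)) * Real.exp (-(ε / 20 * ℓ)) := by
        rw [← Real.exp_add]
        apply Real.exp_le_exp.mpr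
        have : 0 ≤ ε * ℓ := by positivity
        linarith
      _ ≤ _ := by gcongr
  · calc ‖GG χ X ⟨1 / 2 - 4 * τ, t₀⟩‖ ≤ Real.exp (4 + 4 + Real.log C1 - 8 / 10 * ε * ℓ) := hGXl
      _ ≤ Real.exp (-(ε / 2 * ℓ)) * (Real.exp (-(ε / 20 * ℓ)) * Real.exp (-Real.log CF)) := by
        rw [← Real.exp_add, ← Real.exp_add]
        apply Real.exp_le_exp.mpr
        have : 0 ≤ ε * ℓ := by positivity
        linarith
      _ ≤ Real.exp (-(ε / 2 * ℓ)) * ‖χ.LFunction ⟨1 / 2 - 4 * τ, t₀⟩‖ := by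
        apply mul_le_mul_of_nonneg_left _ (Real.exp_pos _).le
        rw [Real.exp_neg (Real.log CF), Real.exp_log (by linarith), ← div_eq_mul_inv,
          div_le_iff₀ (by linarith)]
        linarith

end Pool.Agent.NH13.EC
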