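import Pool.Agent.NH13.EStepC

/-!
# The window is not small: primitive characters
-/

set_option autoImplicit false

open Complex MeasureTheory Set Filter Topology Metric

namespace Pool.Agent.NH13.EC

open H370 H370.DL

/-- the functional equation for the logarithmic derivative, uniformly in the modulus -/
theorem logFE : ∃ C : ℝ, 0 ≤ C ∧ ∀ (q : ℕ) [NeZero q] (χ : DirichletCharacter ℂ q),
    χ.IsPrimitive → ∀ s : ℂ, -1 / 2 ≤ s.re → s.re ≤ 1 / 2 → 1 ≤ s.im → χ.LFunction s ≠ 0 →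
    ‖deriv χ.LFunction s / χ.LFunction s + (starRingEnd ℂ) (deriv χ.LFunction
      (1 - (starRingEnd ℂ) s) / χ.LFunction (1 - (starRingEnd ℂ) s)) + Real.log q +
        Real.log s.im‖ ≤ C := by
  obtain ⟨C, hC0, hC⟩ := logDeriv_Gammaℝ_bound
  refine ⟨C + C, by positivity, ?_⟩
  intro q _ χ hχ s h1 h2 h3 h4
  have hs : s.im ≠ 0 := by linarith
  have ha : AnalyticAt ℂ (DirichletCharacter.LFunction χ) (1 - (starRingEnd ℂ) s) :=
    analyticAt_L (ne_one_of_im (by rwa [im_osc]))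
  have e1 : DirichletCharacter.LFunction χ =ᶠ[𝓝 s]
      fun z => XX χ z * refl (DirichletCharacter.LFunction χ) z := by
    filter_upwards [eventually_im_ne hs] with z hz
    exact func_eq hχ hz
  have hr : refl (DirichletCharacter.LFunction χ) s ≠ 0 := by
    intro h
    apply h4
    rw [func_eq hχ hs, h, mul_zero]
  have e2 : logDeriv (DirichletCharacter.LFunction χ) s =
      logDeriv (XX χ) s + logDeriv (refl (DirichletCharacter.LFunction χ)) s := by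
    rw [(logDeriv_congr_nhds e1).eq_of_nhds]
    exact logDeriv_mul s (XX_ne_zero hχ hs) hr (analyticAt_XX hs).differentiableAt
      (analyticAt_refl ha).differentiableAt
  rw [logDeriv_refl ha.differentiableAt, logDeriv_XX hχ hs] at e2
  change ‖logDeriv (DirichletCharacter.LFunction χ) s +
    (starRingEnd ℂ) (logDeriv (DirichletCharacter.LFunction χ) (1 - (starRingEnd ℂ) s)) +
    Real.log q + Real.log s.im‖ ≤ _
  rw [e2]
  have ha0 : 0 ≤ (aa χ).re ∧ (aa χ).re ≤ 1 := by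
    unfold aa
    split_ifs <;> simp
  have b1 := hC (1 - s + aa χ) (by simp; linarith [ha0.1]) (by simp; linarith [ha0.2])
    (by simp [aa_im, abs_of_nonneg (by linarith : 0 ≤ s.im)]; exact h3)
  have b2 := hC (s + aa χ) (by simp; linarith [ha0.1]) (by simp; linarith [ha0.2])
    (by simp [aa_im, abs_of_nonneg (by linarith : 0 ≤ s.im)]; exact h3)
  have i1 : |(1 - s + aa χ).im| = s.im := by
    simp [aa_im, abs_of_nonneg (by linarith : 0 ≤ s.im)]
  have i2 : |(s + aa χ).im| = s.im := by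
    simp [aa_im, abs_of_nonneg (by linarith : 0 ≤ s.im)]
  rw [i1] at b1
  rw [i2] at b2
  have e3 : -(Real.log q : ℂ) - logDeriv Gammaℝ (1 - s + aa χ) - logDeriv Gammaℝ (s + aa χ) +
      -(starRingEnd ℂ) (logDeriv (DirichletCharacter.LFunction χ) (1 - (starRingEnd ℂ) s)) +
      (starRingEnd ℂ) (logDeriv (DirichletCharacter.LFunction χ) (1 - (starRingEnd ℂ) s)) +
      Real.log q + Real.log s.im =
      -(logDeriv Gammaℝ (1 - s + aa χ) - 1 / 2 * Real.log s.im) -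
      (logDeriv Gammaℝ (s + aa χ) - 1 / 2 * Real.log s.im) := by ring
  rw [e3]
  refine (norm_sub_le _ _).trans (add_le_add ?_ b2)
  rw [norm_neg]
  exact b1

/-- Gaussian means of `D_X` on vertical lines are bounded -/
theorem DD_mean : ∃ C : ℝ, 0 ≤ C ∧ ∀ (q : ℕ) (χ : DirichletCharacter ℂ q) (X σ T : ℝ), 1 ≤ X →
    0 ≤ σ → σ ≤ 1 →
    Integrable (fun y : ℝ => DD χ X ⟨σ, T + y⟩ * Real.exp (-(y ^ 2))) ∧
    ‖∫ y : ℝ, DD χ X ⟨σ, T + y⟩ * Real.exp (-(y ^ 2))‖ ≤ C := by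
  refine ⟨∫ y : ℝ, 5 * Real.exp 16 * Real.exp (-(y ^ 2 / 2)),
    integral_nonneg fun y => by positivity, ?_⟩
  intro q χ X σ T hX h0 h1
  have hX0 : 0 < X := by linarith
  set G : ℂ → ℂ := fun z => DD χ X (⟨σ, T⟩ + z) * cexp (z ^ 2) with hG
  have hGd : Differentiable ℂ G := by
    apply Differentiable.mul
    · exact (DD_differentiable χ hX).comp (by fun_prop)
    · fun_prop
  have hnG : ∀ x y : ℝ, ‖G ⟨x, y⟩‖ = ‖DD χ X ⟨σ + x, T + y⟩‖ * (Real.exp (x ^ 2) * Real.exp (-(y ^ 2))) := by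
    intro x y
    simp only [hG]
    rw [norm_mul, add_mk, norm_exp]
    congr 1
    rw [← Real.exp_add]
    congr 1
    rw [pow_two, Complex.mul_re]
    ring
  have hgh : ∀ y : ℝ, Real.exp (-(y ^ 2)) ≤ Real.exp (-(y ^ 2 / 2)) := by
    intro y
    apply Real.exp_le_exp.mpr
    linarith [sq_nonneg y]
  set b : ℝ := 4 - σ with hb
  have hb0 : 0 ≤ b := by rw [hb]; linarith
  have hsq : ∀ x ∈ Icc (0 : ℝ) b, Real.exp (x ^ 2) ≤ Real.exp 16 := by
    intro x hx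
    apply Real.exp_le_exp.mpr
    have : x ≤ 4 := by linarith [hx.2]
    nlinarith [hx.1]
  have hbd : ∀ x ∈ Icc (0 : ℝ) b, ∀ y : ℝ, ‖G ⟨x, y⟩‖ ≤ (2 * X ^ (2 + 0 : ℝ) * Real.exp 16) *
      Real.exp (-(y ^ 2 / 2)) := by
    intro x hx y
    rw [hnG]
    have a1 := DD_le χ hX (b := 0) le_rfl (w := ⟨σ + x, T + y⟩) (by simp only; linarith [hx.1])
    have a2 := hsq x hx
    have a3 := hgh y
    calc ‖DD χ X ⟨σ + x, T + y⟩‖ * (Real.exp (x ^ 2) * Real.exp (-(y ^ 2)))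
        ≤ (2 * X ^ (2 + 0 : ℝ)) * (Real.exp 16 * Real.exp (-(y ^ 2 / 2))) := by gcongr
      _ = _ := by ring
  have hint : ∀ x ∈ Icc (0 : ℝ) b, Integrable (fun y : ℝ => G ⟨x, y⟩) := by
    intro x hx
    refine (int_gauss_half.const_mul (2 * X ^ (2 + 0 : ℝ) * Real.exp 16)).mono'
      (cont_line hGd.continuous x).aestronglyMeasurable (Eventually.of_forall fun y => hbd x hx y)
  have h0m : (0 : ℝ) ∈ Icc (0 : ℝ) b := ⟨le_rfl, hb0⟩
  have hbm : b ∈ Icc (0 : ℝ) b := ⟨hb0, le_rfl⟩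
  have htend := RI_tendsto (G := G) (a := 0) (b := b) (C := 2 * X ^ (2 + 0 : ℝ) * Real.exp 16) hb0
    (hint 0 h0m) (hint b hbm) (fun x hx y _ => hbd x hx y)
  have hz : ∀ T' : ℝ, 0 < T' → RI 0 b (-T') T' G = 0 := by
    intro T' hT'
    apply RI_zero hb0 (by linarith)
    exact fun z _ => hGd.differentiableAt.differentiableWithinAt
  have h3 : Tendsto (fun T' : ℝ => RI 0 b (-T') T' G) atTop (𝓝 0) := by
    apply tendsto_const_nhds.congr'
    filter_upwards [eventually_gt_atTop 0] with T' hT'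
    exact (hz T' hT').symm
  have h4 := tendsto_nhds_unique htend h3
  have h5 : (∫ y : ℝ, G ⟨0, y⟩) = ∫ y : ℝ, G ⟨b, y⟩ := by
    have h6 : I * ((∫ y : ℝ, G ⟨b, y⟩) - ∫ y : ℝ, G ⟨0, y⟩) = 0 := by rw [mul_sub]; exact h4
    have h7 := (mul_eq_zero.mp h6).resolve_left I_ne_zero
    exact (sub_eq_zero.mp h7).symm
  have e0 : (fun y : ℝ => DD χ X ⟨σ, T + y⟩ * Real.exp (-(y ^ 2))) = fun y : ℝ => G ⟨0, y⟩ := by
    funext y
    simp only [hG]
    rw [add_mk]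
    simp only [add_zero]
    congr 1
    rw [ofReal_exp]
    congr 1
    rw [pow_two, pow_two]
    apply Complex.ext <;> simp
  rw [e0]
  refine ⟨hint 0 h0m, ?_⟩
  rw [h5]
  apply norm_integral_le_of_norm_le (int_gauss_half.const_mul (5 * Real.exp 16))
  refine Eventually.of_forall fun y => ?_
  rw [hnG]
  have a1 := DD_four χ hX (w := ⟨σ + b, T + y⟩) (by simp only [hb]; ring)
  have a2 := hsq b hbm
  have a3 := hgh y
  calc ‖DD χ X ⟨σ + b, T + y⟩‖ * (Real.exp (b ^ 2) * Real.exp (-(y ^ 2)))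
      ≤ 5 * (Real.exp 16 * Real.exp (-(y ^ 2 / 2))) := by gcongr
    _ = _ := by ring

/-- The main theorem for primitive characters: the mean of `|ψ(x,χ)|` over a window is not small. -/
theorem prim_main (B ε : ℝ) (hB : 0 ≤ B) (hε : 0 < ε) (hε1 : ε ≤ 1) :
    ∃ A ℓ₀ : ℝ, 0 < A ∧ 1 ≤ ℓ₀ ∧
    ∀ (q : ℕ) [NeZero q] (χ : DirichletCharacter ℂ q), 2 ≤ q →
    χ.IsPrimitive → ∀ ℓ X Z : ℝ, ℓ₀ ≤ ℓ → (q : ℝ) ≤ Real.exp ℓ → 1 ≤ X → X ≤ Real.exp (B * ℓ) →
      Real.exp (A * ℓ) ≤ Z → X ≤ Z → Real.exp (-(ε * ℓ)) < eta χ X Z := by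
  obtain ⟨η, A, ℓ1, hη0, hη1, hA, hℓ1, hC⟩ := stepC B ε hB hε hε1
  obtain ⟨C1, hC1, hFE⟩ := logFE
  obtain ⟨C2, hC2, hmean⟩ := DD_mean
  obtain ⟨W, hW⟩ : ∃ W : ℝ, W = ∫ y : ℝ, Real.exp (-(y ^ 2 / 2)) := ⟨_, rfl⟩
  have hW0 : 0 ≤ W := by rw [hW]; exact integral_nonneg fun y => (Real.exp_pos _).le
  obtain ⟨N, hN⟩ : ∃ N : ℝ, N = C1 + 2 + Real.exp 1 / 2 * (2 * C2 + 4 * W + 1) := ⟨_, rfl⟩
  have hN0 : C1 + 2 ≤ N := by
    rw [hN]
    have : 0 ≤ Real.exp 1 / 2 * (2 * C2 + 4 * W + 1) := by positivity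
    linarith
  refine ⟨A, max ℓ1 (max (4 * B) (Real.exp N)), hA, hℓ1.trans (le_max_left _ _), ?_⟩
  intro q _ χ hq hχ ℓ X Z hℓ hqℓ hX hXB hZA hXZ
  by_contra hcon
  push Not at hcon
  have hl1 : ℓ1 ≤ ℓ := (le_max_left _ _).trans hℓ
  have hl2 : 4 * B ≤ ℓ := (le_max_left _ _).trans ((le_max_right _ _).trans hℓ)
  have hl3 : Real.exp N ≤ ℓ := (le_max_right _ _).trans ((le_max_right _ _).trans hℓ)
  have hℓ1' : 1 ≤ ℓ := hℓ1.trans hl1
  have hℓ0 : 0 < ℓ := by linarith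
  have hNℓ : N ≤ Real.log ℓ := by
    rw [← Real.log_exp N]
    exact Real.log_le_log (Real.exp_pos _) hl3
  have hq1 : (1 : ℝ) ≤ q := by exact_mod_cast NeZero.one_le
  have hlq : 0 ≤ Real.log q := Real.log_nonneg hq1
  have hkey := hC q χ hq hχ ℓ X Z hl1 hqℓ hX hXB hZA hXZ hcon
  -- pointwise lower bound in the window of heights
  have hpt : ∀ y : ℝ, |y| ≤ ℓ → Real.log ℓ - C1 - 2 ≤ (DD χ X ⟨1 / 2 - η, 2 * ℓ + y⟩).re +
      (DD χ X ⟨1 / 2 + η, 2 * ℓ + y⟩).re := by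
    intro y hy
    rw [abs_le] at hy
    have ht : |2 * ℓ + y| ≤ 3 * ℓ := by rw [abs_le]; constructor <;> linarith [hy.1, hy.2]
    have htℓ : ℓ ≤ 2 * ℓ + y := by linarith [hy.1]
    obtain ⟨n1, n2, g1, g2⟩ := hkey (2 * ℓ + y) ht
    have hfe := hFE q χ hχ ⟨1 / 2 - η, 2 * ℓ + y⟩ (by simp only; linarith) (by simp only; linarith)
      (by simp only; linarith) n2
    have er : (1 : ℂ) - (starRingEnd ℂ) (⟨1 / 2 - η, 2 * ℓ + y⟩ : ℂ) = ⟨1 / 2 + η, 2 * ℓ + y⟩ := by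
      apply Complex.ext
      · simp; ring
      · simp
    rw [er] at hfe
    simp only at hfe
    have hsm : Real.exp (-(ε / 2 * ℓ)) ≤ 1 := by
      rw [Real.exp_le_one_iff]
      have : 0 ≤ ε / 2 * ℓ := by positivity
      linarith
    -- `D = - L'/L + G/L`
    have d1 : DD χ X ⟨1 / 2 - η, 2 * ℓ + y⟩ = -(deriv χ.LFunction ⟨1 / 2 - η, 2 * ℓ + y⟩ /
        χ.LFunction ⟨1 / 2 - η, 2 * ℓ + y⟩) + GG χ X ⟨1 / 2 - η, 2 * ℓ + y⟩ /
        χ.LFunction ⟨1 / 2 - η, 2 * ℓ + y⟩ := by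
      unfold GG; rw [add_div, mul_div_cancel_left₀ _ n2]; ring
    have d2 : DD χ X ⟨1 / 2 + η, 2 * ℓ + y⟩ = -(deriv χ.LFunction ⟨1 / 2 + η, 2 * ℓ + y⟩ /
        χ.LFunction ⟨1 / 2 + η, 2 * ℓ + y⟩) + GG χ X ⟨1 / 2 + η, 2 * ℓ + y⟩ /
        χ.LFunction ⟨1 / 2 + η, 2 * ℓ + y⟩ := by
      unfold GG; rw [add_div, mul_div_cancel_left₀ _ n1]; ring
    have f1 : ‖GG χ X ⟨1 / 2 - η, 2 * ℓ + y⟩ / χ.LFunction ⟨1 / 2 - η, 2 * ℓ + y⟩‖ ≤ 1 := by
      rw [norm_div, div_le_one (norm_pos_iff.mpr n2)]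
      refine g2.trans ?_
      exact mul_le_of_le_one_left (norm_nonneg _) hsm
    have f2 : ‖GG χ X ⟨1 / 2 + η, 2 * ℓ + y⟩ / χ.LFunction ⟨1 / 2 + η, 2 * ℓ + y⟩‖ ≤ 1 := by
      rw [norm_div, div_le_one (norm_pos_iff.mpr n1)]
      refine g1.trans ?_
      exact mul_le_of_le_one_left (norm_nonneg _) hsm
    have r1 := (abs_le.mp ((Complex.abs_re_le_norm _).trans f1)).1
    have r2 := (abs_le.mp ((Complex.abs_re_le_norm _).trans f2)).1
    have r3 := (abs_le.mp ((Complex.abs_re_le_norm _).trans hfe)).2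
    rw [Complex.add_re, Complex.add_re, Complex.add_re, Complex.conj_re, Complex.ofReal_re,
      Complex.ofReal_re] at r3
    rw [d1, d2, Complex.add_re, Complex.add_re, Complex.neg_re, Complex.neg_re]
    have hlog : Real.log ℓ ≤ Real.log (2 * ℓ + y) := Real.log_le_log hℓ0 htℓ
    linarith
  -- integration
  obtain ⟨i1, m1⟩ := hmean q χ X (1 / 2 - η) (2 * ℓ) hX (by linarith) (by linarith)
  obtain ⟨i2, m2⟩ := hmean q χ X (1 / 2 + η) (2 * ℓ) hX (by linarith) (by linarith)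
  have hre : ∀ σ : ℝ, ∀ y : ℝ, (DD χ X ⟨σ, 2 * ℓ + y⟩ * Real.exp (-(y ^ 2))).re =
      (DD χ X ⟨σ, 2 * ℓ + y⟩).re * Real.exp (-(y ^ 2)) := by
    intro σ y
    rw [Complex.mul_re, Complex.ofReal_re, Complex.ofReal_im, mul_zero, sub_zero]
  have j1 : ∫ y : ℝ, (DD χ X ⟨1 / 2 - η, 2 * ℓ + y⟩).re * Real.exp (-(y ^ 2)) ≤ C2 := by
    have h := integral_re i1
    simp only [RCLike.re_to_complex] at h
    simp only [hre] at h
    rw [h]
    exact (Complex.re_le_norm _).trans m1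
  have j2 : ∫ y : ℝ, (DD χ X ⟨1 / 2 + η, 2 * ℓ + y⟩).re * Real.exp (-(y ^ 2)) ≤ C2 := by
    have h := integral_re i2
    simp only [RCLike.re_to_complex] at h
    simp only [hre] at h
    rw [h]
    exact (Complex.re_le_norm _).trans m2
  have k1 : Integrable (fun y : ℝ => (DD χ X ⟨1 / 2 - η, 2 * ℓ + y⟩).re * Real.exp (-(y ^ 2))) := by
    have h := i1.re
    simp only [RCLike.re_to_complex] at h
    simpa only [hre] using h
  have k2 : Integrable (fun y : ℝ => (DD χ X ⟨1 / 2 + η, 2 * ℓ + y⟩).re * Real.exp (-(y ^ 2))) := by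
    have h := i2.re
    simp only [RCLike.re_to_complex] at h
    simpa only [hre] using h
  have hX2 : X ^ (2 + 0 : ℝ) ≤ Real.exp (2 * (B * ℓ)) := by
    calc X ^ (2 + 0 : ℝ) ≤ (Real.exp (B * ℓ)) ^ (2 + 0 : ℝ) :=
          Real.rpow_le_rpow (by linarith) hXB (by norm_num)
      _ = Real.exp (2 * (B * ℓ)) := by rw [← Real.exp_mul]; congr 1; ring
  have hlow : ∀ y : ℝ, (Icc (-1 : ℝ) 1).indicator (fun _ => (Real.log ℓ - C1 - 2) * Real.exp (-1)) y -
      4 * Real.exp (-(y ^ 2 / 2)) ≤ (DD χ X ⟨1 / 2 - η, 2 * ℓ + y⟩).re * Real.exp (-(y ^ 2)) +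
        (DD χ X ⟨1 / 2 + η, 2 * ℓ + y⟩).re * Real.exp (-(y ^ 2)) := by
    intro y
    have hg0 := Real.exp_pos (-(y ^ 2))
    have hg2 := Real.exp_pos (-(y ^ 2 / 2))
    rcases le_or_gt |y| ℓ with hy | hy
    · have a1 := hpt y hy
      have a2 : (Icc (-1 : ℝ) 1).indicator (fun _ => (Real.log ℓ - C1 - 2) * Real.exp (-1)) y ≤
          (Real.log ℓ - C1 - 2) * Real.exp (-(y ^ 2)) := by
        by_cases h : y ∈ Icc (-1 : ℝ) 1
        · rw [indicator_of_mem h]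
          apply mul_le_mul_of_nonneg_left _ (by linarith)
          apply Real.exp_le_exp.mpr
          nlinarith [h.1, h.2]
        · rw [indicator_of_notMem h]
          apply mul_nonneg (by linarith) hg0.le
      rw [← add_mul]
      have a3 := mul_le_mul_of_nonneg_right a1 hg0.le
      linarith
    · have a1 := DD_le χ hX (b := 0) le_rfl (w := ⟨1 / 2 - η, 2 * ℓ + y⟩) (by simp only; linarith)
      have a2 := DD_le χ hX (b := 0) le_rfl (w := ⟨1 / 2 + η, 2 * ℓ + y⟩) (by simp only; linarith)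
      obtain ⟨P, hP⟩ : ∃ P : ℝ, P = X ^ (2 + 0 : ℝ) := ⟨_, rfl⟩
      rw [← hP] at a1 a2 hX2
      have b1 := (abs_le.mp ((Complex.abs_re_le_norm _).trans a1)).1
      have b2 := (abs_le.mp ((Complex.abs_re_le_norm _).trans a2)).1
      have hyn : y ∉ Icc (-1 : ℝ) 1 := by
        intro h
        have : |y| ≤ 1 := abs_le.mpr ⟨h.1, h.2⟩
        linarith
      rw [indicator_of_notMem hyn, ← add_mul]
      have a3 : -(4 * Real.exp (2 * (B * ℓ))) ≤ (DD χ X ⟨1 / 2 - η, 2 * ℓ + y⟩).re +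
        (DD χ X ⟨1 / 2 + η, 2 * ℓ + y⟩).re := by linarith
      have a4 : Real.exp (2 * (B * ℓ)) * Real.exp (-(y ^ 2)) ≤ Real.exp (-(y ^ 2 / 2)) := by
        rw [← Real.exp_add]
        apply Real.exp_le_exp.mpr
        have h7 : y ^ 2 = |y| ^ 2 := (sq_abs _).symm
        have h8 : ℓ ^ 2 ≤ y ^ 2 := by rw [h7]; nlinarith
        have h9 : 4 * B * ℓ ≤ ℓ ^ 2 := by nlinarith
        linarith
      have a5 := mul_le_mul_of_nonneg_right a3 hg0.le
      linarith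
  have hind : Integrable ((Icc (-1 : ℝ) 1).indicator (fun _ : ℝ => (Real.log ℓ - C1 - 2) * Real.exp (-1))) := by
    rw [integrable_indicator_iff measurableSet_Icc]
    apply integrableOn_const
    · rw [Real.volume_Icc]; exact ENNReal.ofReal_ne_top
    · exact enorm_ne_top
  have hfin := integral_mono (hind.sub (int_gauss_half.const_mul 4)) (k1.add k2) (fun y => hlow y)
  have hl : ∫ y : ℝ, ((Icc (-1 : ℝ) 1).indicator (fun _ : ℝ => (Real.log ℓ - C1 - 2) * Real.exp (-1)) -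
      fun y => 4 * Real.exp (-(y ^ 2 / 2))) y = 2 * ((Real.log ℓ - C1 - 2) * Real.exp (-1)) - 4 * W := by
    simp only [Pi.sub_apply]
    rw [integral_sub hind (int_gauss_half.const_mul 4), integral_const_mul, ← hW,
      integral_indicator measurableSet_Icc, setIntegral_const, smul_eq_mul]
    congr 2
    simp [Measure.real, Real.volume_Icc]
    norm_num
  have hr : ∫ y : ℝ, ((fun y : ℝ => (DD χ X ⟨1 / 2 - η, 2 * ℓ + y⟩).re * Real.exp (-(y ^ 2))) +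
      fun y : ℝ => (DD χ X ⟨1 / 2 + η, 2 * ℓ + y⟩).re * Real.exp (-(y ^ 2))) y ≤ 2 * C2 := by
    simp only [Pi.add_apply]
    rw [integral_add k1 k2]
    linarith
  rw [hl] at hfin
  have h6 : 2 * ((Real.log ℓ - C1 - 2) * Real.exp (-1)) ≤ 2 * C2 + 4 * W := by linarith
  have h7 : Real.exp 1 / 2 * (2 * C2 + 4 * W + 1) ≤ Real.log ℓ - C1 - 2 := by
    rw [hN] at hNℓ; linarith
  have h8 : 2 * ((Real.exp 1 / 2 * (2 * C2 + 4 * W + 1)) * Real.exp (-1)) ≤
      2 * ((Real.log ℓ - C1 - 2) * Real.exp (-1)) := by gcongr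
  have h9 : 2 * ((Real.exp 1 / 2 * (2 * C2 + 4 * W + 1)) * Real.exp (-1)) = 2 * C2 + 4 * W + 1 := by
    have : Real.exp 1 * Real.exp (-1) = 1 := by rw [← Real.exp_add]; simp
    calc _ = (Real.exp 1 * Real.exp (-1)) * (2 * C2 + 4 * W + 1) := by ring
      _ = _ := by rw [this, one_mul]
  linarith

end Pool.Agent.NH13.EC
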