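import Mathlib

/-!
# Comparing Gamma at two points of the same imaginary part
-/

set_option autoImplicit false

open Complex MeasureTheory Set Filter Topology

namespace Pool.Agent.NH13

lemma norm_beta_le {z : ℂ} {k : ℝ} (hz : 0 < z.re) (hk : 0 < k) :
    ‖betaIntegral z k‖ ≤ ‖betaIntegral (z.re : ℂ) k‖ := by
  set g : ℝ → ℝ := fun x => x ^ (z.re - 1) * (1 - x) ^ (k - 1) with hg
  have h1 : ‖betaIntegral z k‖ ≤ ∫ x in (0:ℝ)..1, g x := by
    unfold betaIntegral
    refine (intervalIntegral.norm_integral_le_integral_norm zero_le_one).trans (le_of_eq ?_)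
    rw [intervalIntegral.integral_of_le zero_le_one, intervalIntegral.integral_of_le zero_le_one,
      integral_Ioc_eq_integral_Ioo, integral_Ioc_eq_integral_Ioo]
    apply setIntegral_congr_fun measurableSet_Ioo
    intro x hx
    simp only [hg]
    have hx1 : 0 < 1 - x := by linarith [hx.2]
    rw [norm_mul, norm_cpow_eq_rpow_re_of_pos hx.1]
    have e1 : (1 - (x : ℂ)) = ((1 - x : ℝ) : ℂ) := by push_cast; rfl
    rw [e1, norm_cpow_eq_rpow_re_of_pos hx1]
    simp
  have h2 : betaIntegral (z.re : ℂ) k = ((∫ x in (0:ℝ)..1, g x : ℝ) : ℂ) := by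
    unfold betaIntegral
    rw [← intervalIntegral.integral_ofReal, intervalIntegral.integral_of_le zero_le_one,
      intervalIntegral.integral_of_le zero_le_one,
      integral_Ioc_eq_integral_Ioo, integral_Ioc_eq_integral_Ioo]
    apply setIntegral_congr_fun measurableSet_Ioo
    intro x hx
    simp only [hg]
    have hx1 : 0 ≤ 1 - x := by linarith [hx.2]
    push_cast
    rw [ofReal_cpow hx.1.le, ofReal_cpow hx1]
    push_cast
    rfl
  have h3 : 0 ≤ ∫ x in (0:ℝ)..1, g x := (norm_nonneg _).trans h1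
  rw [h2, norm_real, Real.norm_of_nonneg h3]
  exact h1

/-- `|Γ(z)| Γ(x + k) ≤ Γ(x) |Γ(z + k)|` for `x = Re z > 0`, `k ≥ 0`. -/
theorem gamma_cmp {z : ℂ} {k : ℝ} (hz : 0 < z.re) (hk : 0 ≤ k) :
    ‖Gamma z‖ * Real.Gamma (z.re + k) ≤ Real.Gamma z.re * ‖Gamma (z + k)‖ := by
  rcases hk.eq_or_lt with rfl | hk
  · rw [add_zero, ofReal_zero, add_zero, mul_comm]
  have hk' : 0 < (k : ℂ).re := by simpa using hk
  have h1 := Gamma_mul_Gamma_eq_betaIntegral hz hk'
  have h2 := Gamma_mul_Gamma_eq_betaIntegral (s := (z.re : ℂ)) (by simpa using hz) hk'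
  have h3 := norm_beta_le hz hk
  have hG1 : 0 < Real.Gamma z.re := Real.Gamma_pos_of_pos hz
  have hG2 : 0 < Real.Gamma k := Real.Gamma_pos_of_pos hk
  have hG3 : 0 < Real.Gamma (z.re + k) := Real.Gamma_pos_of_pos (by linarith)
  have e1 : ‖Gamma z‖ * Real.Gamma k = ‖Gamma (z + k)‖ * ‖betaIntegral z k‖ := by
    have := congrArg norm h1
    rw [norm_mul, norm_mul, Complex.Gamma_ofReal, norm_real, Real.norm_of_nonneg hG2.le] at this
    exact this
  have e2 : Real.Gamma z.re * Real.Gamma k =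
      Real.Gamma (z.re + k) * ‖betaIntegral (z.re : ℂ) k‖ := by
    have := congrArg norm h2
    rw [norm_mul, norm_mul, ← ofReal_add, Complex.Gamma_ofReal, Complex.Gamma_ofReal,
      Complex.Gamma_ofReal, norm_real, norm_real, norm_real, Real.norm_of_nonneg hG2.le,
      Real.norm_of_nonneg hG1.le, Real.norm_of_nonneg hG3.le] at this
    exact this
  have e3 : ‖Gamma z‖ * Real.Gamma (z.re + k) * Real.Gamma k ≤
      Real.Gamma z.re * ‖Gamma (z + k)‖ * Real.Gamma k := by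
    calc ‖Gamma z‖ * Real.Gamma (z.re + k) * Real.Gamma k
        = Real.Gamma (z.re + k) * (‖Gamma z‖ * Real.Gamma k) := by ring
      _ = Real.Gamma (z.re + k) * (‖Gamma (z + k)‖ * ‖betaIntegral z k‖) := by rw [e1]
      _ ≤ Real.Gamma (z.re + k) * (‖Gamma (z + k)‖ * ‖betaIntegral (z.re : ℂ) k‖) := by gcongr
      _ = ‖Gamma (z + k)‖ * (Real.Gamma (z.re + k) * ‖betaIntegral (z.re : ℂ) k‖) := by ring
      _ = ‖Gamma (z + k)‖ * (Real.Gamma z.re * Real.Gamma k) := by rw [e2]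
      _ = Real.Gamma z.re * ‖Gamma (z + k)‖ * Real.Gamma k := by ring
  exact le_of_mul_le_mul_right e3 hG2

/-- `|Γ(z + k)| Γ(x + 1) ≤ Γ(x + k) |z| |Γ(z)|` for `x = Re z > 0`, `0 ≤ k ≤ 1`. -/
theorem gamma_cmp' {z : ℂ} {k : ℝ} (hz : 0 < z.re) (hk : 0 ≤ k) (hk1 : k ≤ 1) :
    ‖Gamma (z + k)‖ * Real.Gamma (z.re + 1) ≤ Real.Gamma (z.re + k) * (‖z‖ * ‖Gamma z‖) := by
  have h := gamma_cmp (z := z + k) (k := 1 - k) (by simp; linarith) (by linarith)
  have e1 : (z + k).re = z.re + k := by simp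
  have e2 : z + (k : ℂ) + ((1 - k : ℝ) : ℂ) = z + 1 := by push_cast; ring
  have e3 : z.re + k + (1 - k) = z.re + 1 := by ring
  have hz0 : z ≠ 0 := by rintro rfl; simp at hz
  rw [e1, e2, e3, Gamma_add_one z hz0, norm_mul] at h
  exact h

/-- the real Gamma function is bounded above and below on a compact interval of `(0,∞)` -/
theorem gamma_range {a b : ℝ} (ha : 0 < a) (hab : a ≤ b) : ∃ m M : ℝ, 0 < m ∧ m ≤ M ∧
    ∀ x ∈ Icc a b, m ≤ Real.Gamma x ∧ Real.Gamma x ≤ M := by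
  have hc : ContinuousOn Real.Gamma (Icc a b) := by
    intro x hx
    have hx0 : 0 < x := lt_of_lt_of_le ha hx.1
    exact (Real.differentiableAt_Gamma (fun m => by
      have : (0 : ℝ) ≤ m := Nat.cast_nonneg m
      linarith)).continuousAt.continuousWithinAt
  obtain ⟨x1, h1, h1'⟩ := isCompact_Icc.exists_isMinOn ⟨a, ⟨le_rfl, hab⟩⟩ hc
  obtain ⟨x2, h2, h2'⟩ := isCompact_Icc.exists_isMaxOn ⟨a, ⟨le_rfl, hab⟩⟩ hc
  refine ⟨Real.Gamma x1, Real.Gamma x2, Real.Gamma_pos_of_pos (lt_of_lt_of_le ha h1.1), h1' h2,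
    fun x hx => ⟨h1' hx, h2' hx⟩⟩

end Pool.Agent.NH13
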