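import Pool.Agent.H429R2.GP.XF
import Pool.Agent.NH13.GammaCmp

/-!
# The functional equation as a pair of inequalities
-/

set_option autoImplicit false

open Complex MeasureTheory Set Filter Topology

namespace Pool.Agent.NH13

open H370.DL H429.GP

lemma norm_Gammaℝ (s : ℂ) : ‖Gammaℝ s‖ = Real.pi ^ (-(s.re / 2)) * ‖Gamma (s / 2)‖ := by
  rw [Gammaℝ_def, norm_mul, norm_cpow_eq_rpow_re_of_pos Real.pi_pos]
  congr 2
  simp
  ring

/-- size of the factor of the functional equation -/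
theorem XX_bounds : ∃ c C : ℝ, 0 < c ∧ 0 < C ∧ ∀ (q : ℕ) [NeZero q] (χ : DirichletCharacter ℂ q),
    χ.IsPrimitive → ∀ s : ℂ, 1 / 4 ≤ s.re → s.re ≤ 1 / 2 →
      c * (q : ℝ) ^ (1 / 2 - s.re) ≤ ‖XX χ s‖ ∧
      ‖XX χ s‖ ≤ C * (1 + |s.im|) * (q : ℝ) ^ (1 / 2 - s.re) := by
  obtain ⟨m, M, hm, hmM, hG⟩ := gamma_range (a := 1 / 8) (b := 2) (by norm_num) (by norm_num)
  have hM : 0 < M := lt_of_lt_of_le hm hmM
  refine ⟨Real.pi ^ (-(1 : ℝ)) * (m / M), M / m, by positivity, by positivity, ?_⟩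
  intro q _ χ hχ s h1 h2
  have ha0 : 0 ≤ (aa χ).re := aa_re_nonneg
  have ha1 : (aa χ).re ≤ 1 := aa_re_le
  set k : ℝ := 1 / 2 - s.re with hk
  have hk0 : 0 ≤ k := by rw [hk]; linarith
  have hk1 : k ≤ 1 / 4 := by rw [hk]; linarith
  set z : ℂ := (s + aa χ) / 2 with hz
  have hzre : z.re = (s.re + (aa χ).re) / 2 := by rw [hz]; simp
  have hz0 : 0 < z.re := by rw [hzre]; linarith
  have hqpos : (0 : ℝ) < q := by exact_mod_cast NeZero.pos q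
  -- the conjugated point
  have e1 : (1 : ℂ) - s + aa χ = (starRingEnd ℂ) (1 - (starRingEnd ℂ) s + aa χ) := by
    rw [map_add, map_sub, map_one, Complex.conj_conj, aa_conj]
  have e2 : (1 - (starRingEnd ℂ) s + aa χ) / 2 = z + k := by
    apply Complex.ext
    · simp [hz, hk]; ring
    · simp [hz]
  have n1 : ‖Gammaℝ (1 - s + aa χ)‖ =
      Real.pi ^ (-((z.re + k))) * ‖Gamma (z + k)‖ := by
    rw [e1, Gammaℝ_conj, RCLike.norm_conj, norm_Gammaℝ, e2]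
    congr 2
    have := congrArg Complex.re e2
    simp only [add_re, ofReal_re] at this
    rw [← this]
    simp
  have n2 : ‖Gammaℝ (s + aa χ)‖ = Real.pi ^ (-(z.re)) * ‖Gamma z‖ := by
    rw [norm_Gammaℝ, hzre]
    simp
    left
    ring
  have n3 : ‖(q : ℂ) ^ (1 / 2 - s)‖ = (q : ℝ) ^ k := by
    rw [norm_natCast_cpow_of_pos (NeZero.pos q)]
    congr 1
    simp [hk]
  have hΓ : 0 < ‖Gamma z‖ := by
    rw [norm_pos_iff]
    exact Gamma_ne_zero_of_re_pos hz0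
  have hpi1 : Real.pi ^ (-(z.re + k)) = Real.pi ^ (-z.re) * Real.pi ^ (-k) := by
    rw [← Real.rpow_add Real.pi_pos]; congr 1; ring
  have hX : ‖XX χ s‖ = (q : ℝ) ^ k * Real.pi ^ (-k) * (‖Gamma (z + k)‖ / ‖Gamma z‖) := by
    unfold XX
    rw [norm_div, norm_mul, norm_mul, norm_rootNumber hχ, n1, n2, n3, hpi1]
    have : Real.pi ^ (-z.re) ≠ 0 := (Real.rpow_pos_of_pos Real.pi_pos _).ne'
    field_simp
  have hq0 : 0 < (q : ℝ) ^ k := Real.rpow_pos_of_pos hqpos _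
  have hp0 : 0 < Real.pi ^ (-k) := Real.rpow_pos_of_pos Real.pi_pos _
  have g1 := hG z.re ⟨by rw [hzre]; linarith, by rw [hzre]; linarith⟩
  have g2 := hG (z.re + k) ⟨by rw [hzre]; linarith, by rw [hzre]; linarith⟩
  have g3 := hG (z.re + 1) ⟨by rw [hzre]; linarith, by rw [hzre]; linarith⟩
  have hc1 := gamma_cmp hz0 hk0
  have hc2 := gamma_cmp' hz0 hk0 (by linarith)
  constructor
  · rw [hX]
    have i1 : m / M ≤ ‖Gamma (z + k)‖ / ‖Gamma z‖ := by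
      rw [div_le_div_iff₀ hM hΓ]
      calc m * ‖Gamma z‖ ≤ Real.Gamma (z.re + k) * ‖Gamma z‖ := by gcongr; exact g2.1
        _ ≤ Real.Gamma z.re * ‖Gamma (z + k)‖ := by linarith
        _ ≤ M * ‖Gamma (z + k)‖ := by gcongr; exact g1.2
        _ = ‖Gamma (z + k)‖ * M := mul_comm _ _
    have i2 : Real.pi ^ (-(1 : ℝ)) ≤ Real.pi ^ (-k) :=
      Real.rpow_le_rpow_of_exponent_le (by linarith [Real.pi_gt_three]) (by linarith)
    calc Real.pi ^ (-(1 : ℝ)) * (m / M) * (q : ℝ) ^ k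
        = (q : ℝ) ^ k * Real.pi ^ (-(1 : ℝ)) * (m / M) := by ring
      _ ≤ (q : ℝ) ^ k * Real.pi ^ (-k) * (‖Gamma (z + k)‖ / ‖Gamma z‖) := by gcongr
  · rw [hX]
    have hzn : ‖z‖ ≤ 1 + |s.im| := by
      have h := Complex.norm_le_abs_re_add_abs_im z
      have e : z.im = s.im / 2 := by rw [hz]; simp [aa_im]
      rw [abs_of_pos hz0, e, abs_div] at h
      have : |(2 : ℝ)| = 2 := abs_of_pos (by norm_num)
      rw [this] at h
      have h5 : z.re ≤ 1 := by rw [hzre]; linarith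
      linarith [abs_nonneg s.im]
    have i1 : ‖Gamma (z + k)‖ / ‖Gamma z‖ ≤ M / m * (1 + |s.im|) := by
      rw [div_le_iff₀ hΓ, div_mul_eq_mul_div, div_mul_eq_mul_div, le_div_iff₀ hm]
      calc ‖Gamma (z + k)‖ * m ≤ ‖Gamma (z + k)‖ * Real.Gamma (z.re + 1) := by gcongr; exact g3.1
        _ ≤ Real.Gamma (z.re + k) * (‖z‖ * ‖Gamma z‖) := hc2
        _ ≤ M * ((1 + |s.im|) * ‖Gamma z‖) := by gcongr; exact g2.2
        _ = M * (1 + |s.im|) * ‖Gamma z‖ := by ring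
    have i2 : Real.pi ^ (-k) ≤ 1 :=
      Real.rpow_le_one_of_one_le_of_nonpos (by linarith [Real.pi_gt_three]) (by linarith)
    calc (q : ℝ) ^ k * Real.pi ^ (-k) * (‖Gamma (z + k)‖ / ‖Gamma z‖)
        ≤ (q : ℝ) ^ k * 1 * (M / m * (1 + |s.im|)) := by gcongr
      _ = M / m * (1 + |s.im|) * (q : ℝ) ^ k := by ring

lemma ne_one_of_prim {q : ℕ} [NeZero q] (hq : 2 ≤ q) {χ : DirichletCharacter ℂ q}
    (hχ : χ.IsPrimitive) : χ ≠ 1 := by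
  intro h
  have := eq_one_of_prim hχ h
  omega

/-- an inequality between continuous functions valid off `0` holds at `0` -/
lemma ext_zero {f g : ℝ → ℝ} (hf : Continuous f) (hg : Continuous g)
    (h : ∀ t, t ≠ 0 → f t ≤ g t) (t : ℝ) : f t ≤ g t := by
  have hcl : IsClosed {t | f t ≤ g t} := isClosed_le hf hg
  have hd : Dense {t : ℝ | t ≠ 0} := dense_compl_singleton 0
  have : closure {t : ℝ | t ≠ 0} ⊆ {t | f t ≤ g t} :=
    hcl.closure_subset_iff.mpr (fun t ht => h t ht)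
  exact this (hd t)

theorem FE_bounds : ∃ C : ℝ, 1 ≤ C ∧ ∀ (q : ℕ) [NeZero q] (χ : DirichletCharacter ℂ q),
    2 ≤ q → χ.IsPrimitive → ∀ σ t : ℝ, 1 / 4 ≤ σ → σ ≤ 1 / 2 →
      ‖χ.LFunction ⟨σ, t⟩‖ ≤ C * (1 + |t|) * (q : ℝ) ^ (1 / 2 - σ) * ‖χ.LFunction ⟨1 - σ, t⟩‖ ∧
      ‖χ.LFunction ⟨1 - σ, t⟩‖ ≤ C * (q : ℝ) ^ (-(1 / 2 - σ)) * ‖χ.LFunction ⟨σ, t⟩‖ := by
  obtain ⟨c, C, hc, hC, h⟩ := XX_bounds
  refine ⟨max (max C c⁻¹) 1, le_max_right _ _, ?_⟩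
  intro q _ χ hq hχ σ t h1 h2
  have hL : Continuous χ.LFunction :=
    (DirichletCharacter.differentiable_LFunction (ne_one_of_prim hq hχ)).continuous
  have hqpos : (0 : ℝ) < q := by exact_mod_cast NeZero.pos q
  have hline : ∀ x : ℝ, Continuous (fun y : ℝ => ‖χ.LFunction ⟨x, y⟩‖) := by
    intro x
    have h' : Continuous (fun y : ℝ => (⟨x, y⟩ : ℂ)) := by
      have : (fun y : ℝ => (⟨x, y⟩ : ℂ)) = fun y : ℝ => (x : ℂ) + y * I := by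
        funext y; apply Complex.ext <;> simp
      rw [this]; fun_prop
    exact (hL.comp h').norm
  have key : ∀ t : ℝ, t ≠ 0 → ‖χ.LFunction ⟨σ, t⟩‖ = ‖XX χ ⟨σ, t⟩‖ * ‖χ.LFunction ⟨1 - σ, t⟩‖ := by
    intro t ht
    have h3 := func_eq hχ (s := ⟨σ, t⟩) ht
    have h4 := congrArg norm h3
    rw [norm_mul] at h4
    rw [h4]
    congr 1
    unfold H370.DL.refl
    rw [RCLike.norm_conj]
    congr 2
    apply Complex.ext <;> simp
  constructor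
  · refine ext_zero (f := fun t => ‖χ.LFunction ⟨σ, t⟩‖) (g := fun t =>
      max (max C c⁻¹) 1 * (1 + |t|) * (q : ℝ) ^ (1 / 2 - σ) * ‖χ.LFunction ⟨1 - σ, t⟩‖)
      (hline σ) ?_ ?_ t
    · exact ((continuous_const.mul (continuous_const.add continuous_abs)).mul
        continuous_const).mul (hline (1 - σ))
    · intro t ht
      show ‖χ.LFunction ⟨σ, t⟩‖ ≤ max (max C c⁻¹) 1 * (1 + |t|) * (q : ℝ) ^ (1 / 2 - σ) *
        ‖χ.LFunction ⟨1 - σ, t⟩‖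
      rw [key t ht]
      have := (h q χ hχ ⟨σ, t⟩ h1 h2).2
      simp only at this
      have h6 : C ≤ max (max C c⁻¹) 1 := (le_max_left _ _).trans (le_max_left _ _)
      calc ‖XX χ ⟨σ, t⟩‖ * ‖χ.LFunction ⟨1 - σ, t⟩‖
          ≤ (C * (1 + |t|) * (q : ℝ) ^ (1 / 2 - σ)) * ‖χ.LFunction ⟨1 - σ, t⟩‖ := by gcongr
        _ ≤ _ := by gcongr
  · refine ext_zero (f := fun t => ‖χ.LFunction ⟨1 - σ, t⟩‖) (g := fun t =>
      max (max C c⁻¹) 1 * (q : ℝ) ^ (-(1 / 2 - σ)) * ‖χ.LFunction ⟨σ, t⟩‖)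
      (hline (1 - σ)) (continuous_const.mul (hline σ)) ?_ t
    intro t ht
    show ‖χ.LFunction ⟨1 - σ, t⟩‖ ≤ max (max C c⁻¹) 1 * (q : ℝ) ^ (-(1 / 2 - σ)) *
      ‖χ.LFunction ⟨σ, t⟩‖
    rw [key t ht]
    have h5 := (h q χ hχ ⟨σ, t⟩ h1 h2).1
    simp only at h5
    have h6 : c⁻¹ ≤ max (max C c⁻¹) 1 := (le_max_right _ _).trans (le_max_left _ _)
    have h7 : 0 < (q : ℝ) ^ (1 / 2 - σ) := Real.rpow_pos_of_pos hqpos _
    have h8 : (q : ℝ) ^ (-(1 / 2 - σ)) * (q : ℝ) ^ (1 / 2 - σ) = 1 := by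
      rw [← Real.rpow_add hqpos]; simp
    calc ‖χ.LFunction ⟨1 - σ, t⟩‖
        = c⁻¹ * (q : ℝ) ^ (-(1 / 2 - σ)) * ((c * (q : ℝ) ^ (1 / 2 - σ)) * ‖χ.LFunction ⟨1 - σ, t⟩‖) := by
          have : c⁻¹ * c = 1 := inv_mul_cancel₀ hc.ne'
          calc ‖χ.LFunction ⟨1 - σ, t⟩‖ = (c⁻¹ * c) * ((q : ℝ) ^ (-(1 / 2 - σ)) *
                (q : ℝ) ^ (1 / 2 - σ)) * ‖χ.LFunction ⟨1 - σ, t⟩‖ := by rw [this, h8]; ring
            _ = _ := by ring
      _ ≤ c⁻¹ * (q : ℝ) ^ (-(1 / 2 - σ)) * (‖XX χ ⟨σ, t⟩‖ * ‖χ.LFunction ⟨1 - σ, t⟩‖) := by gcongr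
      _ ≤ _ := by gcongr

end Pool.Agent.NH13
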