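import Pool.Agent.NH13.FE

/-!
# The functional equation with the right power of the height
-/

set_option autoImplicit false

open Complex MeasureTheory Set Filter Topology

namespace Pool.Agent.NH13

open H370.DL H429.GP

lemma geom_le {w : ℂ} {k : ℝ} (hw : 0 < w.re) (hk : 0 ≤ k) (hk1 : k ≤ 1) :
    ‖w‖ ^ (1 - k) * ‖w + 1‖ ^ k ≤ ‖w + k‖ * Real.exp (1 / (8 * w.re ^ 2)) := by
  have h1 := Real.geom_mean_le_arith_mean2_weighted (w₁ := 1 - k) (w₂ := k) (p₁ := ‖w‖ ^ 2)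
    (p₂ := ‖w + 1‖ ^ 2) (by linarith) hk (by positivity) (by positivity) (by ring)
  have e1 : ‖w‖ ^ 2 = w.re ^ 2 + w.im ^ 2 := by
    rw [← Complex.normSq_eq_norm_sq, Complex.normSq_apply]; ring
  have e2 : ‖w + 1‖ ^ 2 = (w.re + 1) ^ 2 + w.im ^ 2 := by
    rw [← Complex.normSq_eq_norm_sq, Complex.normSq_apply]; simp; ring
  have e3 : ‖w + k‖ ^ 2 = (w.re + k) ^ 2 + w.im ^ 2 := by
    rw [← Complex.normSq_eq_norm_sq, Complex.normSq_apply]; simp; ring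
  have h2 : (‖w‖ ^ (1 - k) * ‖w + 1‖ ^ k) ^ 2 ≤ ‖w + k‖ ^ 2 * Real.exp (1 / (4 * w.re ^ 2)) := by
    have h3 : (‖w‖ ^ (1 - k) * ‖w + 1‖ ^ k) ^ 2 = (‖w‖ ^ 2) ^ (1 - k) * (‖w + 1‖ ^ 2) ^ k := by
      rw [mul_pow, ← Real.rpow_natCast, ← Real.rpow_natCast, ← Real.rpow_natCast,
        ← Real.rpow_natCast, ← Real.rpow_mul (norm_nonneg _), ← Real.rpow_mul (norm_nonneg _),
        ← Real.rpow_mul (norm_nonneg _), ← Real.rpow_mul (norm_nonneg _)]
      congr 2 <;> ring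
    rw [h3]
    refine h1.trans ?_
    have h4 : (1 - k) * ‖w‖ ^ 2 + k * ‖w + 1‖ ^ 2 = ‖w + k‖ ^ 2 + k * (1 - k) := by
      rw [e1, e2, e3]; ring
    rw [h4]
    have h5 := Real.add_one_le_exp (1 / (4 * w.re ^ 2))
    have h6 : k * (1 - k) ≤ 1 / 4 := by nlinarith [sq_nonneg (k - 1 / 2)]
    have h7 : w.re ^ 2 ≤ ‖w + k‖ ^ 2 := by
      rw [e3]
      nlinarith [sq_nonneg w.im, mul_nonneg hw.le hk]
    have h8 : 1 / 4 ≤ ‖w + k‖ ^ 2 * (1 / (4 * w.re ^ 2)) := by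
      rw [mul_one_div, div_le_div_iff₀ (by norm_num) (by positivity)]
      linarith
    have h9 : 0 ≤ ‖w + k‖ ^ 2 := by positivity
    nlinarith
  have h3 : Real.exp (1 / (4 * w.re ^ 2)) = Real.exp (1 / (8 * w.re ^ 2)) ^ 2 := by
    rw [← Real.exp_nat_mul]; congr 1; push_cast; field_simp; norm_num
  rw [h3, ← mul_pow] at h2
  exact (pow_le_pow_iff_left₀ (by positivity) (by positivity) two_ne_zero).mp h2

lemma prod_geom {z : ℂ} {k : ℝ} (hz : 1 / 8 ≤ z.re) (hk : 0 ≤ k) (hk1 : k ≤ 1) (n : ℕ) :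
    (∏ j ∈ Finset.range (n + 1), ‖z + j‖) ^ (1 - k) *
      (∏ j ∈ Finset.range (n + 1), ‖z + 1 + j‖) ^ k ≤
    Real.exp 10 * ∏ j ∈ Finset.range (n + 1), ‖z + k + j‖ := by
  have h1 : ∀ j ∈ Finset.range (n + 1), ‖z + j‖ ^ (1 - k) * ‖z + 1 + j‖ ^ k ≤
      ‖z + k + j‖ * Real.exp (1 / (8 * (z.re + j) ^ 2)) := by
    intro j _
    have hj : (0 : ℝ) ≤ j := Nat.cast_nonneg j
    have e0 : (z + (j : ℂ)).re = z.re + j := by simp
    have h := geom_le (w := z + j) (k := k) (by rw [e0]; linarith) hk hk1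
    rw [e0] at h
    have e1 : z + (j : ℂ) + 1 = z + 1 + j := by ring
    have e2 : z + (j : ℂ) + k = z + k + j := by ring
    rw [e1, e2] at h
    exact h
  have h2 := Finset.prod_le_prod (s := Finset.range (n + 1)) (fun j _ => by positivity) h1
  rw [Finset.prod_mul_distrib, Finset.prod_mul_distrib, Real.finsetProd_rpow _ _ (fun i _ => norm_nonneg _),
    Real.finsetProd_rpow _ _ (fun i _ => norm_nonneg _), ← Real.exp_sum] at h2
  refine h2.trans ?_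
  rw [mul_comm]
  apply mul_le_mul_of_nonneg_right _ (Finset.prod_nonneg fun j _ => norm_nonneg _)
  apply Real.exp_le_exp.mpr
  have h3 : ∀ n : ℕ, ∑ j ∈ Finset.range (n + 1), 1 / (8 * (z.re + j) ^ 2) ≤
      10 - 1 / (4 * ((n : ℝ) + 1)) := by
    intro n
    induction n with
    | zero =>
      rw [zero_add, Finset.sum_range_one]
      have h4 : 1 / (8 * (z.re + ((0 : ℕ) : ℝ)) ^ 2) ≤ 8 := by
        rw [Nat.cast_zero, add_zero, div_le_iff₀ (by positivity)]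
        nlinarith
      norm_num at h4 ⊢
      linarith
    | succ n ih =>
      rw [Finset.sum_range_succ]
      have h4 : 1 / (8 * (z.re + ((n + 1 : ℕ) : ℝ)) ^ 2) ≤ 1 / (4 * ((n : ℝ) + 1)) -
          1 / (4 * ((n : ℝ) + 1 + 1)) := by
        push_cast
        have hn : (0 : ℝ) ≤ n := Nat.cast_nonneg n
        have h5 : 1 / (8 * (z.re + ((n : ℝ) + 1)) ^ 2) ≤ 1 / (8 * ((n : ℝ) + 1) ^ 2) := by
          apply one_div_le_one_div_of_le (by positivity)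
          nlinarith
        refine h5.trans ?_
        rw [div_sub_div _ _ (by positivity) (by positivity), div_le_div_iff₀ (by positivity)
          (by positivity)]
        nlinarith
      push_cast at ih h4 ⊢
      linarith
  refine (h3 n).trans ?_
  have : (0 : ℝ) ≤ 1 / (4 * ((n : ℝ) + 1)) := by positivity
  linarith

lemma norm_GammaSeq {s : ℂ} {n : ℕ} (hn : 1 ≤ n) : ‖GammaSeq s n‖ =
    (n : ℝ) ^ s.re * (n.factorial : ℝ) / ∏ j ∈ Finset.range (n + 1), ‖s + j‖ := by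
  unfold GammaSeq
  rw [norm_div, norm_mul, norm_natCast_cpow_of_pos hn, norm_prod, Complex.norm_natCast]

/-- `|Γ(z+k)| ≤ C |Γ(z)|^{1-k} |Γ(z+1)|^k` -/
theorem gamma_cvx {z : ℂ} {k : ℝ} (hz : 1 / 8 ≤ z.re) (hk : 0 ≤ k) (hk1 : k ≤ 1) :
    ‖Gamma (z + k)‖ ≤ Real.exp 10 * (‖Gamma z‖ ^ (1 - k) * ‖Gamma (z + 1)‖ ^ k) := by
  have t0 := (GammaSeq_tendsto_Gamma z).norm.rpow_const (p := 1 - k) (Or.inr (by linarith))
  have t1 := (GammaSeq_tendsto_Gamma (z + 1)).norm.rpow_const (p := k) (Or.inr hk)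
  have tk := (GammaSeq_tendsto_Gamma (z + k)).norm
  refine le_of_tendsto_of_tendsto tk ((t0.mul t1).const_mul (Real.exp 10)) ?_
  filter_upwards [eventually_ge_atTop 1] with n hn
  have hn0 : (0 : ℝ) < n := by exact_mod_cast hn
  have hf : (0 : ℝ) < n.factorial := by exact_mod_cast n.factorial_pos
  rw [norm_GammaSeq hn, norm_GammaSeq hn, norm_GammaSeq hn]
  have hpos : ∀ c : ℂ, 0 ≤ c.re → 0 < ∏ j ∈ Finset.range (n + 1), ‖z + c + j‖ := by
    intro c hc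
    apply Finset.prod_pos
    intro j _
    rw [norm_pos_iff]
    intro h
    have := congrArg Complex.re h
    simp at this
    have hj : (0 : ℝ) ≤ j := Nat.cast_nonneg j
    linarith
  have p0 := hpos 0 (by simp)
  have p1 := hpos 1 (by simp)
  have pk := hpos k (by simpa using hk)
  rw [add_zero] at p0
  have hg := prod_geom hz hk hk1 n
  obtain ⟨P0, hP0⟩ : ∃ P, P = ∏ j ∈ Finset.range (n + 1), ‖z + j‖ := ⟨_, rfl⟩
  obtain ⟨P1, hP1⟩ : ∃ P, P = ∏ j ∈ Finset.range (n + 1), ‖z + 1 + j‖ := ⟨_, rfl⟩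
  obtain ⟨Pk, hPk⟩ : ∃ P, P = ∏ j ∈ Finset.range (n + 1), ‖z + k + j‖ := ⟨_, rfl⟩
  rw [← hP0, ← hP1] at hg
  rw [← hPk] at hg pk ⊢
  rw [← hP0] at p0 ⊢
  rw [← hP1] at p1 ⊢
  have e0 : (z + (k : ℂ)).re = z.re + k := by simp
  have e1 : (z + 1).re = z.re + 1 := by simp
  rw [e0, e1, Real.div_rpow (by positivity) p0.le, Real.div_rpow (by positivity) p1.le,
    Real.mul_rpow (by positivity) hf.le, Real.mul_rpow (by positivity) hf.le,
    ← Real.rpow_mul hn0.le, ← Real.rpow_mul hn0.le]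
  have e2 : (n : ℝ) ^ (z.re * (1 - k)) * (n : ℝ) ^ ((z.re + 1) * k) = (n : ℝ) ^ (z.re + k) := by
    rw [← Real.rpow_add hn0]; congr 1; ring
  have e3 : (n.factorial : ℝ) ^ (1 - k) * (n.factorial : ℝ) ^ k = n.factorial := by
    rw [← Real.rpow_add hf]; simp
  have hP0k : 0 < P0 ^ (1 - k) := Real.rpow_pos_of_pos p0 _
  have hP1k : 0 < P1 ^ k := Real.rpow_pos_of_pos p1 _
  have e4 : Real.exp 10 * ((n : ℝ) ^ (z.re * (1 - k)) * (n.factorial : ℝ) ^ (1 - k) / P0 ^ (1 - k) *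
      ((n : ℝ) ^ ((z.re + 1) * k) * (n.factorial : ℝ) ^ k / P1 ^ k)) =
      Real.exp 10 * (((n : ℝ) ^ (z.re * (1 - k)) * (n : ℝ) ^ ((z.re + 1) * k)) *
        ((n.factorial : ℝ) ^ (1 - k) * (n.factorial : ℝ) ^ k)) / (P0 ^ (1 - k) * P1 ^ k) := by
    field_simp
  rw [e4, e2, e3, div_le_div_iff₀ pk (by positivity)]
  calc (n : ℝ) ^ (z.re + k) * n.factorial * (P0 ^ (1 - k) * P1 ^ k) ≤
      (n : ℝ) ^ (z.re + k) * n.factorial * (Real.exp 10 * Pk) := by gcongr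
    _ = _ := by ring

/-- `|Γ(z+k)| ≤ C |z|^k |Γ(z)|` -/
theorem gamma_fine {z : ℂ} {k : ℝ} (hz : 1 / 8 ≤ z.re) (hk : 0 ≤ k) (hk1 : k ≤ 1) :
    ‖Gamma (z + k)‖ ≤ Real.exp 10 * (‖z‖ ^ k * ‖Gamma z‖) := by
  have hz0 : z ≠ 0 := by rintro rfl; simp at hz; linarith
  have h := gamma_cvx hz hk hk1
  have hΓ : 0 < ‖Gamma z‖ := by
    rw [norm_pos_iff]
    exact Gamma_ne_zero_of_re_pos (by linarith)
  rw [Gamma_add_one z hz0, norm_mul, Real.mul_rpow (norm_nonneg _) (norm_nonneg _)] at h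
  refine h.trans (le_of_eq ?_)
  have e : ‖Gamma z‖ ^ (1 - k) * ‖Gamma z‖ ^ k = ‖Gamma z‖ := by
    rw [← Real.rpow_add hΓ]; simp
  calc _ = Real.exp 10 * (‖z‖ ^ k * (‖Gamma z‖ ^ (1 - k) * ‖Gamma z‖ ^ k)) := by ring
    _ = _ := by rw [e]

/-- size of the factor of the functional equation -/
theorem XX_fine (q : ℕ) [NeZero q] (χ : DirichletCharacter ℂ q) (hχ : χ.IsPrimitive) (s : ℂ)
    (h1 : 1 / 4 ≤ s.re) (h2 : s.re ≤ 1 / 2) :
      ‖XX χ s‖ ≤ Real.exp 10 * ((1 + |s.im|) * q) ^ (1 / 2 - s.re) := by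
  have ha0 : 0 ≤ (aa χ).re := aa_re_nonneg
  have ha1 : (aa χ).re ≤ 1 := aa_re_le
  set k : ℝ := 1 / 2 - s.re with hk
  have hk0 : 0 ≤ k := by rw [hk]; linarith
  have hk1 : k ≤ 1 / 4 := by rw [hk]; linarith
  set z : ℂ := (s + aa χ) / 2 with hz
  have hzre : z.re = (s.re + (aa χ).re) / 2 := by rw [hz]; simp
  have hz0 : 0 < z.re := by rw [hzre]; linarith
  have hqpos : (0 : ℝ) < q := by exact_mod_cast NeZero.pos q
  -- the conjugated point
  have e1 : (1 : ℂ) - s + aa χ = (starRingEnd ℂ) (1 - (starRingEnd ℂ) s + aa χ) := by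
    rw [map_add, map_sub, map_one, Complex.conj_conj, aa_conj]
  have e2 : (1 - (starRingEnd ℂ) s + aa χ) / 2 = z + k := by
    apply Complex.ext
    · simp [hz, hk]; ring
    · simp [hz]
  have n1 : ‖Gammaℝ (1 - s + aa χ)‖ =
      Real.pi ^ (-((z.re + k))) * ‖Gamma (z + k)‖ := by
    rw [e1, Gammaℝ_conj, RCLike.norm_conj, norm_Gammaℝ, e2]
    congr 2
    have := congrArg Complex.re e2
    simp only [add_re, ofReal_re] at this
    rw [← this]
    simp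
  have n2 : ‖Gammaℝ (s + aa χ)‖ = Real.pi ^ (-(z.re)) * ‖Gamma z‖ := by
    rw [norm_Gammaℝ, hzre]
    simp
    left
    ring
  have n3 : ‖(q : ℂ) ^ (1 / 2 - s)‖ = (q : ℝ) ^ k := by
    rw [norm_natCast_cpow_of_pos (NeZero.pos q)]
    congr 1
    simp [hk]
  have hΓ : 0 < ‖Gamma z‖ := by
    rw [norm_pos_iff]
    exact Gamma_ne_zero_of_re_pos hz0
  have hpi1 : Real.pi ^ (-(z.re + k)) = Real.pi ^ (-z.re) * Real.pi ^ (-k) := by
    rw [← Real.rpow_add Real.pi_pos]; congr 1; ring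
  have hX : ‖XX χ s‖ = (q : ℝ) ^ k * Real.pi ^ (-k) * (‖Gamma (z + k)‖ / ‖Gamma z‖) := by
    unfold XX
    rw [norm_div, norm_mul, norm_mul, norm_rootNumber hχ, n1, n2, n3, hpi1]
    have : Real.pi ^ (-z.re) ≠ 0 := (Real.rpow_pos_of_pos Real.pi_pos _).ne'
    field_simp
  have hq0 : 0 < (q : ℝ) ^ k := Real.rpow_pos_of_pos hqpos _
  rw [hX]
  have hzn : ‖z‖ ≤ 1 + |s.im| := by
    have h := Complex.norm_le_abs_re_add_abs_im z
    have e : z.im = s.im / 2 := by rw [hz]; simp [aa_im]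
    rw [abs_of_pos hz0, e, abs_div] at h
    have : |(2 : ℝ)| = 2 := abs_of_pos (by norm_num)
    rw [this] at h
    have h5 : z.re ≤ 1 := by rw [hzre]; linarith
    linarith [abs_nonneg s.im]
  have i1 : ‖Gamma (z + k)‖ / ‖Gamma z‖ ≤ Real.exp 10 * (1 + |s.im|) ^ k := by
    rw [div_le_iff₀ hΓ]
    refine (gamma_fine (by rw [hzre]; linarith) hk0 (by linarith)).trans ?_
    rw [mul_assoc]
    gcongr
  have i2 : Real.pi ^ (-k) ≤ 1 :=
    Real.rpow_le_one_of_one_le_of_nonpos (by linarith [Real.pi_gt_three]) (by linarith)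
  calc (q : ℝ) ^ k * Real.pi ^ (-k) * (‖Gamma (z + k)‖ / ‖Gamma z‖)
      ≤ (q : ℝ) ^ k * 1 * (Real.exp 10 * (1 + |s.im|) ^ k) := by gcongr
    _ = Real.exp 10 * ((1 + |s.im|) * q) ^ k := by
        rw [Real.mul_rpow (by positivity) hqpos.le]; ring

/-- the functional equation, with the right power of the height -/
theorem FE_fine (q : ℕ) [NeZero q] (χ : DirichletCharacter ℂ q) (hq : 2 ≤ q) (hχ : χ.IsPrimitive)
    (σ t : ℝ) (h1 : 1 / 4 ≤ σ) (h2 : σ ≤ 1 / 2) :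
      ‖χ.LFunction ⟨σ, t⟩‖ ≤ Real.exp 10 * ((1 + |t|) * q) ^ (1 / 2 - σ) *
        ‖χ.LFunction ⟨1 - σ, t⟩‖ := by
  have hL : Continuous χ.LFunction :=
    (DirichletCharacter.differentiable_LFunction (ne_one_of_prim hq hχ)).continuous
  have hline : ∀ x : ℝ, Continuous (fun y : ℝ => ‖χ.LFunction ⟨x, y⟩‖) := by
    intro x
    have h' : Continuous (fun y : ℝ => (⟨x, y⟩ : ℂ)) := by
      have : (fun y : ℝ => (⟨x, y⟩ : ℂ)) = fun y : ℝ => (x : ℂ) + y * I := by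
        funext y; apply Complex.ext <;> simp
      rw [this]; fun_prop
    exact (hL.comp h').norm
  refine ext_zero (f := fun t => ‖χ.LFunction ⟨σ, t⟩‖) (g := fun t =>
      Real.exp 10 * ((1 + |t|) * q) ^ (1 / 2 - σ) * ‖χ.LFunction ⟨1 - σ, t⟩‖)
      (hline σ) ?_ ?_ t
  · have h3 : Continuous (fun t : ℝ => ((1 + |t|) * (q : ℝ)) ^ (1 / 2 - σ)) := by
      apply Continuous.rpow_const (by fun_prop)
      intro t
      exact Or.inr (by linarith)
    exact (continuous_const.mul h3).mul (hline (1 - σ))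
  · intro t ht
    show ‖χ.LFunction ⟨σ, t⟩‖ ≤ Real.exp 10 * ((1 + |t|) * q) ^ (1 / 2 - σ) *
      ‖χ.LFunction ⟨1 - σ, t⟩‖
    have h3 := func_eq hχ (s := ⟨σ, t⟩) ht
    have h4 := congrArg norm h3
    rw [norm_mul] at h4
    have h5 : H370.DL.refl χ.LFunction ⟨σ, t⟩ = H370.DL.refl χ.LFunction ⟨σ, t⟩ := rfl
    rw [h4]
    have h6 : ‖H370.DL.refl χ.LFunction ⟨σ, t⟩‖ = ‖χ.LFunction ⟨1 - σ, t⟩‖ := by
      unfold H370.DL.refl
      rw [RCLike.norm_conj]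
      congr 2
      apply Complex.ext <;> simp
    rw [h6]
    have := XX_fine q χ hχ ⟨σ, t⟩ h1 h2
    simp only at this
    gcongr

end Pool.Agent.NH13
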