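import Pool.Agent.NH13.Chars2

/-!
# The sharp lower bounds for characters and for residue classes
-/

set_option autoImplicit false

open Complex MeasureTheory Set Filter Topology

namespace Pool.Agent.NH13

open ArithmeticFunction (vonMangoldt)

/-- windows beginning anywhere in `[1, q ^ A]` -/
theorem all3 (A δ : ℝ) (hA : 0 < A) (hδ : 0 < δ) : ∃ C : ℝ, 1 ≤ C ∧ ∀ (q : ℕ) [NeZero q],
    3 ≤ q → ∀ U : ℝ, 1 ≤ U → U ≤ Real.log q → ∀ S : Finset (DirichletCharacter ℂ q),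
    (∀ χ ∈ S, ∃ X : ℝ, 1 ≤ X ∧ X ≤ (q : ℝ) ^ A ∧
      ∫ x in Ioc X (X * (q : ℝ) ^ (1 + δ)), ‖psi χ x‖ ^ 2 / x ^ 2 ≤
        Real.log q ^ 2 * Real.exp (-(C * U))) →
    (S.card : ℝ) ≤ C * q.totient / U ^ 2 := by
  obtain ⟨C, hC, hall⟩ := all2 (A + δ) (δ / 2) (by linarith) (by linarith)
  refine ⟨C, hC, ?_⟩
  intro q _ hq U hU hUℓ S hex
  have hq0 : (0 : ℝ) < q := by exact_mod_cast NeZero.pos q
  have hq1 : (1 : ℝ) ≤ q := by exact_mod_cast NeZero.one_le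
  apply hall q hq U hU hUℓ S
  intro χ hχ
  obtain ⟨X, hX1, hXA, hint⟩ := hex χ hχ
  have hX0 : 0 < X := by linarith
  rcases le_total X ((q : ℝ) ^ (δ / 2)) with h | h
  · refine ⟨(q : ℝ) ^ (δ / 2), le_rfl, Real.rpow_le_rpow_of_exponent_le hq1 (by linarith), ?_⟩
    refine le_trans ?_ hint
    apply setIntegral_mono_set (int_psi_sq χ hX0 _) (Eventually.of_forall fun x => by positivity)
    refine (Ioc_subset_Ioc h ?_).eventuallyLE
    rw [← Real.rpow_add hq0]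
    calc (q : ℝ) ^ (δ / 2 + (1 + δ / 2)) = 1 * (q : ℝ) ^ (1 + δ) := by rw [one_mul]; congr 1; ring
      _ ≤ X * (q : ℝ) ^ (1 + δ) := by gcongr
  · refine ⟨X, h, hXA.trans (Real.rpow_le_rpow_of_exponent_le hq1 (by linarith)), ?_⟩
    refine le_trans ?_ hint
    apply setIntegral_mono_set (int_psi_sq χ hX0 _) (Eventually.of_forall fun x => by positivity)
    refine (Ioc_subset_Ioc_right ?_).eventuallyLE
    have : (q : ℝ) ^ (1 + δ / 2) ≤ (q : ℝ) ^ (1 + δ) :=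
      Real.rpow_le_rpow_of_exponent_le hq1 (by linarith)
    gcongr

/-- the integral of `T² / x` over the window -/
lemma int_inv {X : ℝ} (hX : 0 < X) (q : ℕ) (hq : 1 ≤ q) {δ : ℝ} (hδ : 0 < δ) (T : ℝ) :
    IntegrableOn (fun x : ℝ => T * x⁻¹) (Ioc X (X * (q : ℝ) ^ (1 + δ))) ∧
    ∫ x in Ioc X (X * (q : ℝ) ^ (1 + δ)), T * x⁻¹ = T * ((1 + δ) * Real.log q) := by
  have hq0 : (0 : ℝ) < q := by exact_mod_cast (by omega : 0 < q)
  have hq1 : (1 : ℝ) ≤ q := by exact_mod_cast hq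
  have hXY : X ≤ X * (q : ℝ) ^ (1 + δ) :=
    le_mul_of_one_le_right hX.le (Real.one_le_rpow hq1 (by linarith))
  constructor
  · have h1 : ContinuousOn (fun x : ℝ => T * x⁻¹) (Icc X (X * (q : ℝ) ^ (1 + δ))) := by
      apply ContinuousOn.mul continuousOn_const
      apply ContinuousOn.inv₀ continuousOn_id
      intro x hx
      exact (lt_of_lt_of_le hX hx.1).ne'
    exact (h1.integrableOn_Icc).mono_set Ioc_subset_Icc_self
  · rw [integral_const_mul, ← intervalIntegral.integral_of_le hXY,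
      integral_inv_of_pos hX (lt_of_lt_of_le hX hXY), mul_div_cancel_left₀ _ hX.ne',
      Real.log_rpow hq0]

theorem sharp_chars (A δ : ℝ) (hA : 0 < A) (hδ : 0 < δ) : ∃ C : ℝ, 0 < C ∧ ∀ (q : ℕ) [NeZero q],
    3 ≤ q → ∀ U : ℝ, 1 ≤ U → U ≤ Real.log q →
    (({χ : DirichletCharacter ℂ q | ∃ X : ℝ, 1 ≤ X ∧ X ≤ (q : ℝ) ^ A ∧
      ((∫ x in Ioc X (X * (q : ℝ) ^ (1 + δ)), ‖psi χ x‖ ^ 2 / x ^ 2 ≤
        Real.exp (-(C * U)) * Real.log q ^ 2) ∨
      ∀ x ∈ Ioc X (X * (q : ℝ) ^ (1 + δ)), ‖psi χ x‖ ≤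
        Real.exp (-(C * U)) * Real.sqrt (x * Real.log q))}.ncard : ℕ) : ℝ) ≤
      C * q.totient / U ^ 2 := by
  obtain ⟨C0, hC0, hall⟩ := all3 A δ hA hδ
  refine ⟨C0 + δ, by positivity, ?_⟩
  intro q _ hq U hU hUℓ
  have hq0 : (0 : ℝ) < q := by exact_mod_cast NeZero.pos q
  obtain ⟨ℓ, hℓ⟩ : ∃ ℓ : ℝ, ℓ = Real.log q := ⟨_, rfl⟩
  have hall' := hall q hq U hU
  have hI := fun X (hX : 0 < X) T => int_inv hX q (by omega) hδ T
  rw [← hℓ] at hUℓ hall' ⊢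
  simp only [← hℓ] at hI
  have hℓ0 : 0 < ℓ := by linarith
  have hU0 : 0 < U := by linarith
  obtain ⟨C, hC⟩ : ∃ C : ℝ, C = C0 + δ := ⟨_, rfl⟩
  rw [← hC]
  have hCC : C0 ≤ C := by linarith
  set B : Set (DirichletCharacter ℂ q) := {χ | ∃ X : ℝ, 1 ≤ X ∧ X ≤ (q : ℝ) ^ A ∧
      ((∫ x in Ioc X (X * (q : ℝ) ^ (1 + δ)), ‖psi χ x‖ ^ 2 / x ^ 2 ≤
        Real.exp (-(C * U)) * ℓ ^ 2) ∨
      ∀ x ∈ Ioc X (X * (q : ℝ) ^ (1 + δ)), ‖psi χ x‖ ≤
        Real.exp (-(C * U)) * Real.sqrt (x * ℓ))} with hB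
  have hfin : B.Finite := Set.toFinite _
  rw [Set.ncard_eq_toFinset_card _ hfin]
  refine (hall' hUℓ hfin.toFinset ?_).trans ?_
  · intro χ hχ
    rw [Set.Finite.mem_toFinset, hB, mem_setOf_eq] at hχ
    obtain ⟨X, hX1, hXA, hor⟩ := hχ
    have hX0 : 0 < X := by linarith
    refine ⟨X, hX1, hXA, ?_⟩
    rcases hor with h | h
    · refine h.trans ?_
      rw [mul_comm]
      gcongr
    · obtain ⟨T, hT⟩ : ∃ T : ℝ, T = Real.exp (-(C * U)) := ⟨_, rfl⟩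
      rw [← hT] at h
      have hT0 : 0 < T := by rw [hT]; exact Real.exp_pos _
      obtain ⟨h1, h2⟩ := hI X hX0 (T ^ 2 * ℓ)
      have h3 : ∫ x in Ioc X (X * (q : ℝ) ^ (1 + δ)), ‖psi χ x‖ ^ 2 / x ^ 2 ≤
          ∫ x in Ioc X (X * (q : ℝ) ^ (1 + δ)), (T ^ 2 * ℓ) * x⁻¹ := by
        apply setIntegral_mono_on (int_psi_sq χ hX0 _) h1 measurableSet_Ioc
        intro x hx
        have hx0 : 0 < x := lt_trans hX0 hx.1
        have h3 := h x hx
        rw [div_le_iff₀ (by positivity)]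
        calc ‖psi χ x‖ ^ 2 ≤ (T * Real.sqrt (x * ℓ)) ^ 2 := by gcongr
          _ = T ^ 2 * (x * ℓ) := by rw [mul_pow, Real.sq_sqrt (by positivity)]
          _ = _ := by field_simp
      rw [h2] at h3
      refine h3.trans ?_
      have h4 : T ^ 2 * (1 + δ) ≤ Real.exp (-(C0 * U)) := by
        have h5 : 1 + δ ≤ Real.exp (δ * U) := by
          have h6 := Real.add_one_le_exp (δ * U)
          have h7 : δ * 1 ≤ δ * U := by gcongr
          linarith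
        calc T ^ 2 * (1 + δ) ≤ T ^ 2 * Real.exp (δ * U) := by gcongr
          _ = Real.exp (-(2 * (C * U)) + δ * U) := by
              rw [hT, ← Real.exp_nat_mul, ← Real.exp_add]; congr 1; push_cast; ring
          _ ≤ _ := by
              apply Real.exp_le_exp.mpr
              rw [hC]
              nlinarith
      calc T ^ 2 * ℓ * ((1 + δ) * ℓ) = ℓ ^ 2 * (T ^ 2 * (1 + δ)) := by ring
        _ ≤ ℓ ^ 2 * Real.exp (-(C0 * U)) := by gcongr
  · have hφ0 : (0 : ℝ) ≤ q.totient := Nat.cast_nonneg _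
    gcongr

theorem sharp_classes (A δ : ℝ) (hA : 0 < A) (hδ : 0 < δ) : ∃ c : ℝ, 0 < c ∧ ∃ q₀ : ℕ, ∀ q : ℕ,
    q₀ ≤ q → ∀ X : ℝ, 1 ≤ X → X ≤ (q : ℝ) ^ A →
    c * Real.log q ^ 2 ≤ (∫ x in Ioc X (X * (q : ℝ) ^ (1 + δ)), VV x q / x ^ 2) ∧
    ∃ x ∈ Ioc X (X * (q : ℝ) ^ (1 + δ)), c * x * Real.log q ≤ VV x q ∧
      ∃ a : ℕ, a < q ∧ a.Coprime q ∧
        c * Real.sqrt (x * Real.log q / q.totient) ≤ |psiAP x q a - x / q.totient| := by
  obtain ⟨C, hC, hall⟩ := all3 A δ hA hδ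
  obtain ⟨C3, hC3, hdom⟩ := tot_dom
  obtain ⟨U, hU⟩ : ∃ U : ℝ, U = 2 * C := ⟨_, rfl⟩
  have hU1 : 1 ≤ U := by linarith
  obtain ⟨c0, hc0⟩ : ∃ c0 : ℝ, c0 = Real.exp (-(C * U)) / 2 := ⟨_, rfl⟩
  have hc0p : 0 < c0 := by rw [hc0]; positivity
  have hc01 : c0 ≤ 1 := by
    rw [hc0]
    have : Real.exp (-(C * U)) ≤ 1 := by
      rw [Real.exp_le_one_iff]
      have : 0 ≤ C * U := by positivity
      linarith
    linarith
  obtain ⟨c, hc⟩ : ∃ c : ℝ, c = c0 / (2 * (1 + δ)) := ⟨_, rfl⟩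
  have hcp : 0 < c := by rw [hc]; positivity
  have hcc0 : c ≤ c0 := by
    rw [hc]; apply div_le_self hc0p.le; linarith
  have hc1 : c ≤ 1 := hcc0.trans hc01
  refine ⟨c, hcp, max (max 16 ⌈(4 * C3) ^ 2⌉₊) ⌈Real.exp U⌉₊, ?_⟩
  intro q hq X hX1 hXA
  have hq16 : 16 ≤ q := ((le_max_left _ _).trans (le_max_left _ _)).trans hq
  have hqC : (4 * C3) ^ 2 ≤ (q : ℝ) :=
    (Nat.le_ceil _).trans (by exact_mod_cast ((le_max_right _ _).trans (le_max_left _ _)).trans hq)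
  have hqe : Real.exp U ≤ q :=
    (Nat.le_ceil _).trans (by exact_mod_cast (le_max_right _ _).trans hq)
  have : NeZero q := ⟨by omega⟩
  have hq0 : (0 : ℝ) < q := by exact_mod_cast (by omega : 0 < q)
  have hq1 : (1 : ℝ) ≤ q := by exact_mod_cast (by omega : 1 ≤ q)
  have hUℓ : U ≤ Real.log q := by rw [Real.le_log_iff_exp_le hq0]; exact hqe
  have hX0 : 0 < X := by linarith
  have hall' := hall q (by omega) U hU1 hUℓ
  have hdom' := hdom q (by omega)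
  obtain ⟨ℓ, hℓ⟩ : ∃ ℓ : ℝ, ℓ = Real.log q := ⟨_, rfl⟩
  have hI := fun T => int_inv hX0 q (by omega) hδ T
  simp only [← hℓ] at hI hUℓ hall' hdom' ⊢
  have hℓ0 : 0 < ℓ := by linarith
  set Y := X * (q : ℝ) ^ (1 + δ) with hY
  obtain ⟨η, hη⟩ : ∃ η : ℝ, η = ℓ ^ 2 * Real.exp (-(C * U)) := ⟨_, rfl⟩
  have hη0 : 0 < η := by rw [hη]; positivity
  have hbad := hall' (BadAll q X Y η) (fun χ hχ => ⟨X, hX1, hXA, by
    rw [mem_BadAll] at hχ
    rw [← hη]; exact hχ⟩)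
  obtain ⟨F, hF⟩ : ∃ F : ℝ, F = (q.totient : ℝ) := ⟨_, rfl⟩
  rw [← hF] at hbad
  have hF4 : 4 ≤ F := by
    have h1 : (1 : ℝ) ≤ q.divisors.card := by
      have : 0 < q.divisors.card := Finset.card_pos.mpr ⟨1, Nat.one_mem_divisors.mpr (by omega)⟩
      exact_mod_cast this
    have h2 : 4 * C3 ≤ (q : ℝ) ^ (31 / 32 : ℝ) := by
      calc 4 * C3 ≤ Real.sqrt q := Real.le_sqrt_of_sq_le hqC
        _ = (q : ℝ) ^ (1 / 2 : ℝ) := Real.sqrt_eq_rpow _
        _ ≤ _ := Real.rpow_le_rpow_of_exponent_le hq1 (by norm_num)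
    have h3 : (1 : ℝ) ≤ ℓ ^ 2 := one_le_pow₀ (hU1.trans hUℓ)
    have h4 : 1 * (4 * C3) * 1 ≤ (q.divisors.card : ℝ) * (q : ℝ) ^ (31 / 32 : ℝ) * ℓ ^ 2 := by
      gcongr
    rw [← hF] at hdom'
    nlinarith
  have hbad2 : ((BadAll q X Y η).card : ℝ) ≤ F / 4 := by
    refine hbad.trans ?_
    rw [div_le_div_iff₀ (by positivity) (by norm_num), hU]
    have h1 : C * 4 ≤ (2 * C) ^ 2 := by nlinarith
    nlinarith
  classical
  set S := (Finset.univ \ BadAll q X Y η).erase (1 : DirichletCharacter ℂ q) with hS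
  have hS1 : (1 : DirichletCharacter ℂ q) ∉ S := by rw [hS]; exact Finset.notMem_erase _ _
  have hScard : F / 2 ≤ (S.card : ℝ) := by
    have h1 : (Finset.univ \ BadAll q X Y η).card ≤ S.card + 1 := by
      rw [hS]
      have := Finset.pred_card_le_card_erase (s := Finset.univ \ BadAll q X Y η)
        (a := (1 : DirichletCharacter ℂ q))
      omega
    have h2 : Fintype.card (DirichletCharacter ℂ q) ≤
        (Finset.univ \ BadAll q X Y η).card + (BadAll q X Y η).card := by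
      rw [← Finset.card_univ]
      exact Finset.card_le_card_sdiff_add_card
    rw [card_chars] at h2
    have h3 : F ≤ (S.card : ℝ) + 1 + ((BadAll q X Y η).card : ℝ) := by
      rw [hF]
      have := h2.trans (Nat.add_le_add_right h1 _)
      exact_mod_cast this
    linarith
  have hSη : ∀ χ ∈ S, η ≤ ∫ x in Ioc X Y, ‖psi χ x‖ ^ 2 / x ^ 2 := by
    intro χ hχ
    rw [hS, Finset.mem_erase, Finset.mem_sdiff, mem_BadAll] at hχ
    exact (not_le.mp hχ.2.2).le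
  have h1 : (S.card : ℝ) * η ≤ ∑ χ ∈ S, ∫ x in Ioc X Y, ‖psi χ x‖ ^ 2 / x ^ 2 := by
    have := Finset.sum_le_sum hSη
    rwa [Finset.sum_const, nsmul_eq_mul] at this
  have h2 : ∑ χ ∈ S, ∫ x in Ioc X Y, ‖psi χ x‖ ^ 2 / x ^ 2 ≤
      F * ∫ x in Ioc X Y, VV x q / x ^ 2 := by
    rw [← integral_finsetSum _ (fun χ _ => int_psi_sq χ hX0 Y), ← integral_const_mul]
    apply setIntegral_mono_on (integrable_finsetSum _ fun χ _ => int_psi_sq χ hX0 Y)
      ((int_VV q hX0 Y).const_mul F) measurableSet_Ioc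
    intro x hx
    show ∑ χ ∈ S, ‖psi χ x‖ ^ 2 / x ^ 2 ≤ F * (VV x q / x ^ 2)
    rw [← Finset.sum_div, ← mul_div_assoc, hF]
    have := bessel_VV x S hS1
    gcongr
  have h3 : F / 2 * η ≤ F * ∫ x in Ioc X Y, VV x q / x ^ 2 := by
    refine le_trans ?_ (h1.trans h2)
    gcongr
  have h4 : c0 * ℓ ^ 2 ≤ ∫ x in Ioc X Y, VV x q / x ^ 2 := by
    have h5 : c0 * ℓ ^ 2 = η / 2 := by rw [hc0, hη]; ring
    rw [h5]
    have : 0 < F := by linarith
    nlinarith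
  have hFp : 0 < F := by linarith
  refine ⟨le_trans (by gcongr) h4, ?_⟩
  rw [← hF]
  -- a point
  have hpt : ∃ x ∈ Ioc X Y, c * x * ℓ ≤ VV x q := by
    by_contra hcon
    push Not at hcon
    obtain ⟨i1, i2⟩ := hI (c * ℓ)
    have h5 : ∫ x in Ioc X Y, VV x q / x ^ 2 ≤ ∫ x in Ioc X Y, (c * ℓ) * x⁻¹ := by
      apply setIntegral_mono_on (int_VV q hX0 Y) i1 measurableSet_Ioc
      intro x hx
      have hx0 : 0 < x := lt_trans hX0 hx.1
      have h3 := (hcon x hx).le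
      rw [div_le_iff₀ (by positivity)]
      calc VV x q ≤ c * x * ℓ := h3
        _ = _ := by field_simp
    rw [i2] at h5
    have h6 : c * ℓ * ((1 + δ) * ℓ) = c0 * ℓ ^ 2 / 2 := by
      rw [hc]; field_simp
    rw [h6] at h5
    have : 0 < c0 * ℓ ^ 2 := by positivity
    linarith
  obtain ⟨x, hx, hVx⟩ := hpt
  have hx0 : 0 < x := lt_trans hX0 hx.1
  refine ⟨x, hx, hVx, ?_⟩
  by_contra hcon
  push Not at hcon
  have hne : ((Finset.range q).filter (fun a => a.Coprime q)).Nonempty :=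
    ⟨1, by rw [Finset.mem_filter, Finset.mem_range]; exact ⟨by omega, Nat.coprime_one_left q⟩⟩
  have h1 : ∀ a ∈ (Finset.range q).filter (fun a => a.Coprime q),
      (psiAP x q a - x / q.totient) ^ 2 < c * (x * ℓ / F) := by
    intro a ha
    rw [Finset.mem_filter, Finset.mem_range] at ha
    have h2 := hcon a ha.1 ha.2
    rw [← hF]
    have h3 : (psiAP x q a - x / F) ^ 2 < (c * Real.sqrt (x * ℓ / F)) ^ 2 := by
      rw [← sq_abs]
      exact pow_lt_pow_left₀ h2 (abs_nonneg _) two_ne_zero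
    rw [mul_pow, Real.sq_sqrt (by positivity)] at h3
    refine h3.trans_le ?_
    have h5 : c ^ 2 ≤ c := by nlinarith
    gcongr
  have h2 := Finset.sum_lt_sum_of_nonempty hne h1
  have hcardφ : (((Finset.range q).filter (fun a => a.Coprime q)).card : ℝ) = F := by
    rw [hF, Nat.totient]
    congr 2
    apply Finset.filter_congr
    intro a _
    exact Nat.coprime_comm
  rw [Finset.sum_const, nsmul_eq_mul, hcardφ] at h2
  have h4 : F * (c * (x * ℓ / F)) = c * x * ℓ := by field_simp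
  rw [h4] at h2
  exact absurd hVx (not_le.mpr h2)

end Pool.Agent.NH13
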