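import Pool.Agent.H370R2.Rect

/-!
# Shifting a vertical line of integration for functions with Gaussian decay
-/

set_option autoImplicit false

open Complex MeasureTheory Set Filter Topology

namespace Pool.Agent.NH13

open H370

lemma RI_tendsto {G : ℂ → ℂ} {a b C : ℝ} (hab : a ≤ b)
    (hia : Integrable (fun y : ℝ => G ⟨a, y⟩)) (hib : Integrable (fun y : ℝ => G ⟨b, y⟩))
    (hC : ∀ x ∈ Icc a b, ∀ y : ℝ, 1 ≤ |y| → ‖G ⟨x, y⟩‖ ≤ C * Real.exp (-(y ^ 2 / 2))) :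
    Tendsto (fun T : ℝ => RI a b (-T) T G) atTop
      (𝓝 (I * (∫ y : ℝ, G ⟨b, y⟩) - I * ∫ y : ℝ, G ⟨a, y⟩)) := by
  have hlim : Tendsto (fun T : ℝ => (C * (b - a)) * Real.exp (-(T ^ 2 / 2))) atTop (𝓝 0) := by
    have h1 : Tendsto (fun T : ℝ => -(T ^ 2 / 2)) atTop atBot := by
      apply tendsto_neg_atTop_atBot.comp
      exact (tendsto_pow_atTop (by norm_num)).atTop_div_const (by norm_num)
    have h2 := (Real.tendsto_exp_atBot.comp h1).const_mul (C * (b - a))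
    rw [mul_zero] at h2
    exact h2
  have hbd : ∀ T : ℝ, 1 ≤ |T| → ‖∫ x in a..b, G ⟨x, T⟩‖ ≤ (C * (b - a)) * Real.exp (-(T ^ 2 / 2)) := by
    intro T hT
    have h := intervalIntegral.norm_integral_le_of_norm_le_const (a := a) (b := b)
      (f := fun x : ℝ => G ⟨x, T⟩) (C := C * Real.exp (-(T ^ 2 / 2))) (by
        intro x hx
        rw [uIoc_of_le hab] at hx
        exact hC x ⟨hx.1.le, hx.2⟩ T hT)
    rw [abs_of_nonneg (by linarith)] at h
    linarith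
  have h1 : Tendsto (fun T : ℝ => ∫ x in a..b, G ⟨x, T⟩) atTop (𝓝 0) := by
    apply squeeze_zero_norm' _ hlim
    filter_upwards [eventually_ge_atTop 1] with T hT
    exact hbd T (le_trans hT (le_abs_self T))
  have h2 : Tendsto (fun T : ℝ => ∫ x in a..b, G ⟨x, -T⟩) atTop (𝓝 0) := by
    apply squeeze_zero_norm' _ hlim
    filter_upwards [eventually_ge_atTop 1] with T hT
    have := hbd (-T) (by rw [abs_neg]; exact le_trans hT (le_abs_self T))
    simpa using this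
  have h3 := intervalIntegral_tendsto_integral hib tendsto_neg_atTop_atBot tendsto_id
  have h4 := intervalIntegral_tendsto_integral hia tendsto_neg_atTop_atBot tendsto_id
  have h5 := ((h2.sub h1).add (h3.const_mul I)).sub (h4.const_mul I)
  simpa [RI] using h5

lemma mk_re_im (x y : ℝ) : (⟨x, y⟩ : ℂ) = (x : ℂ) + y * I := by
  apply Complex.ext <;> simp

lemma cont_line {F : ℂ → ℂ} (hF : Continuous F) (x : ℝ) : Continuous (fun y : ℝ => F ⟨x, y⟩) := by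
  have h : Continuous (fun y : ℝ => (⟨x, y⟩ : ℂ)) := by
    have : (fun y : ℝ => (⟨x, y⟩ : ℂ)) = fun y : ℝ => (x : ℂ) + y * I := by
      funext y; exact mk_re_im x y
    rw [this]; fun_prop
  exact hF.comp h

lemma int_gauss_half : Integrable (fun y : ℝ => Real.exp (-(y ^ 2 / 2))) := by
  have := integrable_exp_neg_mul_sq (b := 1 / 2) (by norm_num)
  refine this.congr (Eventually.of_forall fun y => ?_)
  simp only
  congr 1
  ring

lemma abs_le_norm_mk (x y : ℝ) : |y| ≤ ‖(⟨x, y⟩ : ℂ)‖ := Complex.abs_im_le_norm ⟨x, y⟩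

lemma abs_le_norm_mk' (x y : ℝ) : |x| ≤ ‖(⟨x, y⟩ : ℂ)‖ := Complex.abs_re_le_norm ⟨x, y⟩

lemma mk_ne_zero {x : ℝ} (hx : x ≠ 0) (y : ℝ) : (⟨x, y⟩ : ℂ) ≠ 0 := by
  intro h
  have := congrArg Complex.re h
  exact hx (by simpa using this)

/-- integrability of `F(z)/z` on a vertical line -/
lemma int_line {F : ℂ → ℂ} (hF : Continuous F) {x C : ℝ} (hx : x ≠ 0)
    (hC : ∀ y : ℝ, ‖F ⟨x, y⟩‖ ≤ C * Real.exp (-(y ^ 2 / 2))) :
    Integrable (fun y : ℝ => F ⟨x, y⟩ / (⟨x, y⟩ : ℂ)) := by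
  have hcont : Continuous (fun y : ℝ => F ⟨x, y⟩ / (⟨x, y⟩ : ℂ)) :=
    (cont_line hF x).div (cont_line continuous_id x) (mk_ne_zero hx)
  refine (int_gauss_half.const_mul (C / |x|)).mono' hcont.aestronglyMeasurable
    (Eventually.of_forall fun y => ?_)
  rw [norm_div]
  have hx0 : 0 < |x| := abs_pos.mpr hx
  have h1 := abs_le_norm_mk' x y
  calc ‖F ⟨x, y⟩‖ / ‖(⟨x, y⟩ : ℂ)‖ ≤ (C * Real.exp (-(y ^ 2 / 2))) / |x| :=
        div_le_div₀ ((norm_nonneg _).trans (hC y)) (hC y) hx0 h1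
    _ = C / |x| * Real.exp (-(y ^ 2 / 2)) := by ring

/-- shifting the line of `F(z)/z` to the right of `0` -/
theorem shift_right {F : ℂ → ℂ} (hF : Differentiable ℂ F) {a b C : ℝ} (ha : 0 < a) (hab : a ≤ b)
    (hC : ∀ x ∈ Icc a b, ∀ y : ℝ, ‖F ⟨x, y⟩‖ ≤ C * Real.exp (-(y ^ 2 / 2))) :
    ∫ y : ℝ, F ⟨a, y⟩ / (⟨a, y⟩ : ℂ) = ∫ y : ℝ, F ⟨b, y⟩ / (⟨b, y⟩ : ℂ) := by
  have hia := int_line hF.continuous ha.ne' (hC a ⟨le_rfl, hab⟩)
  have hib := int_line hF.continuous (lt_of_lt_of_le ha hab).ne' (hC b ⟨hab, le_rfl⟩)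
  have h1 := RI_tendsto (G := fun z => F z / z) (C := C) hab hia hib (by
    intro x hx y hy
    rw [norm_div]
    have h2 := abs_le_norm_mk x y
    have h3 : (1 : ℝ) ≤ ‖(⟨x, y⟩ : ℂ)‖ := hy.trans h2
    exact (div_le_self (norm_nonneg _) h3).trans (hC x hx y))
  have h2 : ∀ T : ℝ, 0 < T → RI a b (-T) T (fun z => F z / z) = 0 := by
    intro T hT
    apply RI_zero hab (by linarith)
    intro z hz
    have hz1 := hz.1
    rw [mem_preimage] at hz1
    have hz0 : z ≠ 0 := by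
      rintro rfl
      simp at hz1
      linarith [hz1.1]
    exact (hF.differentiableAt.div differentiableAt_id hz0).differentiableWithinAt
  have h3 : Tendsto (fun T : ℝ => RI a b (-T) T (fun z => F z / z)) atTop (𝓝 0) := by
    apply tendsto_const_nhds.congr'
    filter_upwards [eventually_gt_atTop 0] with T hT
    exact (h2 T hT).symm
  have h4 := tendsto_nhds_unique h1 h3
  have h5 : I * ((∫ y : ℝ, F ⟨b, y⟩ / (⟨b, y⟩ : ℂ)) - ∫ y : ℝ, F ⟨a, y⟩ / (⟨a, y⟩ : ℂ)) = 0 := by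
    rw [mul_sub]; exact h4
  have h6 := (mul_eq_zero.mp h5).resolve_left I_ne_zero
  exact (sub_eq_zero.mp h6).symm

/-- Cauchy's formula on a strip containing `0` -/
theorem shift_res {F : ℂ → ℂ} (hF : Differentiable ℂ F) {a b C : ℝ} (ha : a < 0) (hb : 0 < b)
    (hC : ∀ x ∈ Icc a b, ∀ y : ℝ, ‖F ⟨x, y⟩‖ ≤ C * Real.exp (-(y ^ 2 / 2))) :
    (2 * Real.pi : ℂ) * F 0 =
      (∫ y : ℝ, F ⟨b, y⟩ / (⟨b, y⟩ : ℂ)) - ∫ y : ℝ, F ⟨a, y⟩ / (⟨a, y⟩ : ℂ) := by
  have hab : a < b := ha.trans hb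
  have hia := int_line hF.continuous ha.ne (hC a ⟨le_rfl, hab.le⟩)
  have hib := int_line hF.continuous hb.ne' (hC b ⟨hab.le, le_rfl⟩)
  have h1 := RI_tendsto (G := fun z => F z / z) (C := C) hab.le hia hib (by
    intro x hx y hy
    rw [norm_div]
    have h2 := abs_le_norm_mk x y
    have h3 : (1 : ℝ) ≤ ‖(⟨x, y⟩ : ℂ)‖ := hy.trans h2
    exact (div_le_self (norm_nonneg _) h3).trans (hC x hx y))
  have h2 : ∀ T : ℝ, 0 < T → RI a b (-T) T (fun z => F z / z) = 2 * Real.pi * I * F 0 := by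
    intro T hT
    have := RI_cauchy (a := a) (b := b) (c := -T) (d := T) hab (by linarith) hF (p := 0)
      ⟨⟨ha, hb⟩, ⟨by simpa using hT, by simpa using hT⟩⟩
    rw [← this]
    congr 1
    funext z
    rw [sub_zero, div_eq_mul_inv]
  have h3 : Tendsto (fun T : ℝ => RI a b (-T) T (fun z => F z / z)) atTop
      (𝓝 (2 * Real.pi * I * F 0)) := by
    apply tendsto_const_nhds.congr'
    filter_upwards [eventually_gt_atTop 0] with T hT
    exact (h2 T hT).symm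
  have h4 := tendsto_nhds_unique h1 h3
  have h5 : I * ((∫ y : ℝ, F ⟨b, y⟩ / (⟨b, y⟩ : ℂ)) - ∫ y : ℝ, F ⟨a, y⟩ / (⟨a, y⟩ : ℂ)) =
      I * (2 * Real.pi * F 0) := by
    rw [mul_sub, h4]; ring
  exact (mul_left_cancel₀ I_ne_zero h5).symm

end Pool.Agent.NH13
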