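import Pool.Agent.NH13.MeanSq
import Pool.Agent.NH13.Shift

/-!
# A weighted integral of `L(1/2+κ+it) (1 - P(1/2-κ+it)/ℓ)` is bounded below
-/

set_option autoImplicit false

open Complex MeasureTheory Set Filter Topology

namespace Pool.Agent.NH13

open Pool.Agent.H307R2

/-- the weight -/
noncomputable def ww (t : ℝ) : ℝ := Real.exp (-(1 / 72) * t ^ 2)

lemma ww_pos (t : ℝ) : 0 < ww t := Real.exp_pos _

lemma ww_cont : Continuous ww := by unfold ww; fun_prop

lemma ww_le_one (t : ℝ) : ww t ≤ 1 := by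
  unfold ww
  rw [Real.exp_le_one_iff]
  nlinarith [sq_nonneg t]

/-- the Fourier transform of the weight at `-u` -/
noncomputable def GG (u : ℝ) : ℂ := ∫ t : ℝ, cexp (I * (-(u : ℂ)) * t) * (ww t : ℂ)

/-- its value at `0` -/
noncomputable def K0 : ℂ := (Real.pi / (1 / 72 : ℂ)) ^ (1 / 2 : ℂ)

lemma norm_K0 : 1 ≤ ‖K0‖ := by
  unfold K0
  have e : (Real.pi / (1 / 72 : ℂ)) = ((Real.pi * 72 : ℝ) : ℂ) := by push_cast; ring
  rw [e, norm_cpow_eq_rpow_re_of_pos (by positivity)]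
  apply Real.one_le_rpow
  · nlinarith [Real.pi_gt_three]
  · simp

lemma ww_cexp (t : ℝ) : (ww t : ℂ) = cexp (-(1 / 72 : ℂ) * (t : ℂ) ^ 2) := by
  unfold ww
  push_cast
  rfl

lemma GG_eq (u : ℝ) : GG u = K0 * (Real.exp (-(18 * u ^ 2)) : ℂ) := by
  unfold GG K0
  have h := fourierIntegral_gaussian (b := (1 / 72 : ℂ)) (by norm_num) (-(u : ℂ))
  simp only [ww_cexp]
  rw [h]
  congr 1
  push_cast
  congr 1
  ring

lemma integrable_ww_poly : Integrable (fun t : ℝ => ww t * (1 + |t|)) := by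
  have h1 : Integrable (fun t : ℝ => 2 * Real.exp (-(1 / 144) * t ^ 2) *
      (72 + 1)) := ((integrable_exp_neg_mul_sq (b := 1 / 144) (by norm_num)).const_mul 2).mul_const _
  refine h1.mono' ((ww_cont.mul (by fun_prop)).aestronglyMeasurable) (Eventually.of_forall fun t => ?_)
  have h2 : 0 ≤ ww t * (1 + |t|) := mul_nonneg (ww_pos t).le (by positivity)
  rw [Real.norm_of_nonneg h2]
  unfold ww
  have h3 : Real.exp (-(1 / 72) * t ^ 2) = Real.exp (-(1 / 144) * t ^ 2) *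
      Real.exp (-(1 / 144) * t ^ 2) := by rw [← Real.exp_add]; congr 1; ring
  have h4 : Real.exp (-(1 / 144) * t ^ 2) * (1 + |t|) ≤ 2 * (72 + 1) := by
    have h5 : 1 + |t| ≤ 2 * (72 + 1) * Real.exp ((1 / 144) * t ^ 2) := by
      have h6 := Real.add_one_le_exp ((1 / 144) * t ^ 2)
      have h7 : t ^ 2 = |t| ^ 2 := (sq_abs t).symm
      rw [h7] at h6 ⊢
      nlinarith [sq_nonneg (|t| - 1), abs_nonneg t]
    have h8 : Real.exp (-(1 / 144) * t ^ 2) * Real.exp ((1 / 144) * t ^ 2) = 1 := by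
      rw [← Real.exp_add]; simp
    calc Real.exp (-(1 / 144) * t ^ 2) * (1 + |t|) ≤
        Real.exp (-(1 / 144) * t ^ 2) * (2 * (72 + 1) * Real.exp ((1 / 144) * t ^ 2)) := by gcongr
      _ = 2 * (72 + 1) * (Real.exp (-(1 / 144) * t ^ 2) * Real.exp ((1 / 144) * t ^ 2)) := by ring
      _ = 2 * (72 + 1) := by rw [h8, mul_one]
  calc Real.exp (-(1 / 72) * t ^ 2) * (1 + |t|)
      = Real.exp (-(1 / 144) * t ^ 2) * (Real.exp (-(1 / 144) * t ^ 2) * (1 + |t|)) := by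
        rw [h3]; ring
    _ ≤ Real.exp (-(1 / 144) * t ^ 2) * (2 * (72 + 1)) := by gcongr
    _ = _ := by ring

lemma integrable_ww : Integrable ww := by
  have := integrable_exp_neg_mul_sq (b := 1 / 72) (by norm_num)
  exact this

lemma integrable_ww_cexp (u : ℝ) :
    Integrable (fun t : ℝ => cexp (I * (-(u : ℂ)) * t) * (ww t : ℂ)) := by
  refine integrable_ww.mono' ?_ (Eventually.of_forall fun t => ?_)
  · have : Continuous (fun t : ℝ => cexp (I * (-(u : ℂ)) * t) * (ww t : ℂ)) := by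
      have h := ww_cont
      fun_prop
    exact this.aestronglyMeasurable
  · rw [norm_mul, norm_real, Real.norm_of_nonneg (ww_pos t).le]
    have : ‖cexp (I * (-(u : ℂ)) * t)‖ = 1 := by
      rw [norm_exp]; simp
    rw [this, one_mul]

lemma decay {k : ℕ} (hk : 2 ≤ k) : Real.exp (-(18 * Real.log k ^ 2)) ≤ ((k : ℝ) ^ 12)⁻¹ := by
  have hk0 : (0 : ℝ) < k := by exact_mod_cast (by omega : 0 < k)
  have hl : 2 / 3 ≤ Real.log k := by
    have h1 : Real.log 2 ≤ Real.log k := Real.log_le_log (by norm_num) (by exact_mod_cast hk)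
    have := Real.log_two_gt_d9
    linarith
  have h2 : ((k : ℝ) ^ 12)⁻¹ = Real.exp (-(12 * Real.log k)) := by
    rw [Real.exp_neg]
    congr 1
    have : (12 : ℝ) * Real.log k = Real.log ((k : ℝ) ^ 12) := by
      rw [Real.log_pow]; norm_num
    rw [this, Real.exp_log (by positivity)]
  rw [h2]
  apply Real.exp_le_exp.mpr
  nlinarith

lemma sum_inv_sq (N : ℕ) : ∑ n ∈ Finset.Icc 1 N, ((n : ℝ) ^ 2)⁻¹ ≤ 2 := by
  have h := sum_rpow_le (a := 1) (by norm_num) N
  refine le_trans (le_of_eq ?_) (h.trans (by norm_num))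
  apply Finset.sum_congr rfl
  intro n _
  rw [show (-1 - 1 : ℝ) = -((2 : ℕ) : ℝ) by norm_num, Real.rpow_neg (Nat.cast_nonneg n),
    Real.rpow_natCast]

lemma log_mul_nat {n m : ℕ} (hn : 1 ≤ n) (hm : 1 ≤ m) :
    Real.log n + Real.log m = Real.log ((n * m : ℕ) : ℝ) := by
  push_cast
  rw [Real.log_mul]
  · exact_mod_cast (by omega : n ≠ 0)
  · exact_mod_cast (by omega : m ≠ 0)

/-- near orthogonality -/
theorem near_orth (N M : ℕ) (hN : 1 ≤ N) (hM : 1 ≤ M) (c b : ℕ → ℂ) (hc1 : c 1 = 1) (hb1 : b 1 = 1)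
    (hc : ∀ n ∈ Finset.Icc 1 N, ‖c n‖ ≤ 1) (hb : ∀ m ∈ Finset.Icc 1 M, ‖b m‖ ≤ m) :
    1 / 2 ≤ ‖∫ t : ℝ, (∑ n ∈ Finset.Icc 1 N, c n * cexp (I * (-(Real.log n : ℂ)) * t)) *
      (∑ m ∈ Finset.Icc 1 M, b m * cexp (I * (-(Real.log m : ℂ)) * t)) * (ww t : ℂ)‖ := by
  set f : ℕ → ℕ → ℂ := fun n m => c n * b m * (Real.exp (-(18 * Real.log ((n * m : ℕ) : ℝ) ^ 2)) : ℂ)
    with hf
  have h1 : ∫ t : ℝ, (∑ n ∈ Finset.Icc 1 N, c n * cexp (I * (-(Real.log n : ℂ)) * t)) *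
      (∑ m ∈ Finset.Icc 1 M, b m * cexp (I * (-(Real.log m : ℂ)) * t)) * (ww t : ℂ) =
      K0 * ∑ n ∈ Finset.Icc 1 N, ∑ m ∈ Finset.Icc 1 M, f n m := by
    have h2 : ∀ t : ℝ, (∑ n ∈ Finset.Icc 1 N, c n * cexp (I * (-(Real.log n : ℂ)) * t)) *
      (∑ m ∈ Finset.Icc 1 M, b m * cexp (I * (-(Real.log m : ℂ)) * t)) * (ww t : ℂ) =
      ∑ n ∈ Finset.Icc 1 N, ∑ m ∈ Finset.Icc 1 M, (c n * b m) *
        (cexp (I * (-((Real.log ((n * m : ℕ) : ℝ) : ℝ) : ℂ)) * t) * (ww t : ℂ)) := by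
      intro t
      rw [Finset.sum_mul_sum, Finset.sum_mul]
      apply Finset.sum_congr rfl
      intro n hn
      rw [Finset.sum_mul]
      apply Finset.sum_congr rfl
      intro m hm
      rw [Finset.mem_Icc] at hn hm
      rw [← log_mul_nat hn.1 hm.1]
      have : cexp (I * (-((Real.log n + Real.log m : ℝ) : ℂ)) * t) =
        cexp (I * (-(Real.log n : ℂ)) * t) * cexp (I * (-(Real.log m : ℂ)) * t) := by
        rw [← Complex.exp_add]; congr 1; push_cast; ring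
      rw [this]
      ring
    simp_rw [h2]
    rw [integral_finset_sum]
    · rw [Finset.mul_sum]
      apply Finset.sum_congr rfl
      intro n _
      rw [integral_finset_sum]
      · rw [Finset.mul_sum]
        apply Finset.sum_congr rfl
        intro m _
        rw [integral_const_mul]
        have := GG_eq (Real.log ((n * m : ℕ) : ℝ))
        unfold GG at this
        rw [this, hf]
        ring
      · intro m _
        exact (integrable_ww_cexp _).const_mul _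
    · intro n _
      exact integrable_finset_sum _ fun m _ => (integrable_ww_cexp _).const_mul _
  rw [h1, norm_mul]
  have h3 : ‖∑ n ∈ Finset.Icc 1 N, ∑ m ∈ Finset.Icc 1 M, f n m - 1‖ ≤ 1 / 2 := by
    have h4 : (1 : ℂ) = ∑ n ∈ Finset.Icc 1 N, ∑ m ∈ Finset.Icc 1 M,
        (if n = 1 then (if m = 1 then (1 : ℂ) else 0) else 0) := by
      rw [Finset.sum_eq_single 1]
      · rw [Finset.sum_eq_single 1]
        · simp
        · intro m _ hm; simp [hm]
        · intro h; exact absurd (Finset.mem_Icc.mpr ⟨le_rfl, hM⟩) h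
      · intro n _ hn
        simp [hn]
      · intro h; exact absurd (Finset.mem_Icc.mpr ⟨le_rfl, hN⟩) h
    have h4' : (∑ n ∈ Finset.Icc 1 N, ∑ m ∈ Finset.Icc 1 M, f n m) - 1 =
        (∑ n ∈ Finset.Icc 1 N, ∑ m ∈ Finset.Icc 1 M, f n m) - ∑ n ∈ Finset.Icc 1 N,
        ∑ m ∈ Finset.Icc 1 M, (if n = 1 then (if m = 1 then (1 : ℂ) else 0) else 0) := by
      rw [← h4]
    rw [h4', ← Finset.sum_sub_distrib]
    have h5 : ∀ n ∈ Finset.Icc 1 N, ‖∑ m ∈ Finset.Icc 1 M, f n m - ∑ m ∈ Finset.Icc 1 M,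
        (if n = 1 then (if m = 1 then (1 : ℂ) else 0) else 0)‖ ≤
        ∑ m ∈ Finset.Icc 1 M, (1 / 8) * (((n : ℝ) ^ 2)⁻¹ * ((m : ℝ) ^ 2)⁻¹) := by
      intro n hn
      rw [← Finset.sum_sub_distrib]
      refine norm_sum_le_of_le _ fun m hm => ?_
      have hcn := hc n hn
      have hbm := hb m hm
      rw [Finset.mem_Icc] at hn hm
      have hn0 : (1 : ℝ) ≤ n := by exact_mod_cast hn.1
      have hm0 : (1 : ℝ) ≤ m := by exact_mod_cast hm.1
      by_cases h11 : n = 1 ∧ m = 1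
      · obtain ⟨rfl, rfl⟩ := h11
        simp only [hf, if_true, hc1, hb1]
        norm_num
      · have hnm : 2 ≤ n * m := by
          rcases Nat.lt_or_ge 1 n with h | h
          · nlinarith [hm.1]
          · have : n = 1 := le_antisymm h hn.1
            have hm1 : m ≠ 1 := fun h' => h11 ⟨this, h'⟩
            have : 2 ≤ m := by omega
            nlinarith [hn.1]
        have e0 : (if n = 1 then (if m = 1 then (1 : ℂ) else 0) else 0) = 0 := by
          by_cases h1 : n = 1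
          · have : m ≠ 1 := fun h' => h11 ⟨h1, h'⟩
            simp [this]
          · simp [h1]
        rw [e0, sub_zero]
        simp only [hf]
        rw [norm_mul, norm_mul, norm_real, Real.norm_of_nonneg (Real.exp_pos _).le]
        have hd := decay hnm
        have hnm0 : (2 : ℝ) ≤ ((n * m : ℕ) : ℝ) := by exact_mod_cast hnm
        have hnm1 : (0 : ℝ) < ((n * m : ℕ) : ℝ) := by linarith
        have e1 : (m : ℝ) ≤ ((n * m : ℕ) : ℝ) := by push_cast; nlinarith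
        have e2 : ((n : ℝ) ^ 2)⁻¹ * ((m : ℝ) ^ 2)⁻¹ = (((n * m : ℕ) : ℝ) ^ 2)⁻¹ := by
          push_cast; rw [mul_pow, mul_inv]
        rw [e2]
        have e3 : ((((n * m : ℕ) : ℝ)) ^ 12)⁻¹ * ((n * m : ℕ) : ℝ) ≤
            (1 / 8) * (((n * m : ℕ) : ℝ) ^ 2)⁻¹ := by
          have e4 : (8 : ℝ) ≤ ((n * m : ℕ) : ℝ) ^ 9 := by
            calc (8 : ℝ) ≤ 2 ^ 9 := by norm_num
              _ ≤ _ := pow_le_pow_left₀ (by norm_num) hnm0 9
          rw [inv_mul_eq_div, div_le_iff₀ (by positivity)]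
          have e5 : 1 / 8 * (((n * m : ℕ) : ℝ) ^ 2)⁻¹ * ((n * m : ℕ) : ℝ) ^ 12 =
            ((n * m : ℕ) : ℝ) ^ 9 / 8 * ((n * m : ℕ) : ℝ) := by
            field_simp
          rw [e5]
          have : 1 ≤ ((n * m : ℕ) : ℝ) ^ 9 / 8 := by linarith
          nlinarith
        calc ‖c n‖ * ‖b m‖ * Real.exp (-(18 * Real.log ((n * m : ℕ) : ℝ) ^ 2))
            ≤ 1 * ((n * m : ℕ) : ℝ) * ((((n * m : ℕ) : ℝ)) ^ 12)⁻¹ := by
              gcongr
              exact hbm.trans e1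
          _ = ((((n * m : ℕ) : ℝ)) ^ 12)⁻¹ * ((n * m : ℕ) : ℝ) := by ring
          _ ≤ _ := e3
    refine (norm_sum_le_of_le _ h5).trans ?_
    have h6 : ∑ n ∈ Finset.Icc 1 N, ∑ m ∈ Finset.Icc 1 M,
        (1 / 8 : ℝ) * (((n : ℝ) ^ 2)⁻¹ * ((m : ℝ) ^ 2)⁻¹) =
        (1 / 8) * ((∑ n ∈ Finset.Icc 1 N, ((n : ℝ) ^ 2)⁻¹) * ∑ m ∈ Finset.Icc 1 M, ((m : ℝ) ^ 2)⁻¹) := by
      rw [Finset.sum_mul_sum, Finset.mul_sum]
      apply Finset.sum_congr rfl
      intro n _
      rw [Finset.mul_sum]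
    rw [h6]
    have h7 := sum_inv_sq N
    have h8 := sum_inv_sq M
    have h9 : 0 ≤ ∑ n ∈ Finset.Icc 1 N, ((n : ℝ) ^ 2)⁻¹ := Finset.sum_nonneg fun _ _ => by positivity
    have h10 : 0 ≤ ∑ m ∈ Finset.Icc 1 M, ((m : ℝ) ^ 2)⁻¹ := Finset.sum_nonneg fun _ _ => by positivity
    nlinarith
  have h4 : 1 / 2 ≤ ‖∑ n ∈ Finset.Icc 1 N, ∑ m ∈ Finset.Icc 1 M, f n m‖ := by
    have := norm_sub_norm_le (1 : ℂ) (1 - ∑ n ∈ Finset.Icc 1 N, ∑ m ∈ Finset.Icc 1 M, f n m)
    rw [sub_sub_cancel, norm_one, norm_sub_rev] at this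
    linarith
  have := norm_K0
  nlinarith

/-- `L(s) (1 - P(s')/ℓ)` cannot be small on average -/
theorem gauss_lower {q : ℕ} [NeZero q] {χ : DirichletCharacter ℂ q} (hχ : χ ≠ 1) {κ ℓ : ℝ}
    (hκ : 0 < κ) (hκ2 : κ ≤ 1 / 2) (hℓ : 1 ≤ ℓ) (M : ℕ) (a : ℕ → ℂ)
    (ha : ∀ m, ‖a m‖ ≤ ArithmeticFunction.vonMangoldt m) :
    1 / 2 ≤ ∫ t : ℝ, ww t * (‖χ.LFunction ⟨1 / 2 + κ, t⟩‖ *
      ‖1 - (∑ m ∈ Finset.Icc 1 M, a m * (m : ℂ) ^ (-(⟨1 / 2 - κ, t⟩ : ℂ))) / ℓ‖) := by
  have hL : Continuous χ.LFunction := (DirichletCharacter.differentiable_LFunction hχ).continuous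
  have hmk : ∀ x : ℝ, Continuous (fun y : ℝ => (⟨x, y⟩ : ℂ)) := by
    intro x
    have : (fun y : ℝ => (⟨x, y⟩ : ℂ)) = fun y : ℝ => (x : ℂ) + y * I := by
      funext y; apply Complex.ext <;> simp
    rw [this]; fun_prop
  have hLc : Continuous (fun t : ℝ => χ.LFunction ⟨1 / 2 + κ, t⟩) := hL.comp (hmk _)
  have hcp : ∀ (m : ℕ) (x : ℝ), 1 ≤ m → ∀ t : ℝ, (m : ℂ) ^ (-(⟨x, t⟩ : ℂ)) =
      (((m : ℝ) ^ (-x) : ℝ) : ℂ) * cexp (I * (-(Real.log m : ℂ)) * t) := by
    intro m x hm t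
    have hm0 : (m : ℂ) ≠ 0 := by exact_mod_cast (by omega : m ≠ 0)
    have hm1 : (0 : ℝ) < m := by exact_mod_cast (by omega : 0 < m)
    rw [cpow_def_of_ne_zero hm0, Real.rpow_def_of_pos hm1]
    push_cast
    rw [← Complex.exp_add]
    congr 1
    rw [mk_re_im]
    ring
  -- the polynomial
  set P : ℝ → ℂ := fun t => 1 - (∑ m ∈ Finset.Icc 1 M, a m * (m : ℂ) ^ (-(⟨1 / 2 - κ, t⟩ : ℂ))) / ℓ
    with hP
  have hPc : Continuous P := by
    have h1 : P = fun t : ℝ => 1 - (∑ m ∈ Finset.Icc 1 M, a m *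
        ((((m : ℝ) ^ (-(1 / 2 - κ)) : ℝ) : ℂ) * cexp (I * (-(Real.log m : ℂ)) * t))) / ℓ := by
      funext t
      simp only [hP]
      congr 2
      apply Finset.sum_congr rfl
      intro m hm
      rw [Finset.mem_Icc] at hm
      rw [hcp m _ hm.1]
    rw [h1]
    fun_prop
  obtain ⟨B, hB⟩ : ∃ B : ℝ, B = 1 + ∑ m ∈ Finset.Icc 1 M, ‖a m‖ := ⟨_, rfl⟩
  have hB0 : 0 ≤ B := by rw [hB]; positivity
  have hℓ0 : 0 < ℓ := by linarith
  have hPB : ∀ t, ‖P t‖ ≤ B := by
    intro t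
    simp only [hP]
    refine (norm_sub_le _ _).trans ?_
    rw [norm_one, norm_div, norm_real, Real.norm_of_nonneg hℓ0.le, hB]
    refine add_le_add le_rfl ?_
    refine (div_le_self (norm_nonneg _) hℓ).trans ?_
    refine (norm_sum_le _ _).trans (Finset.sum_le_sum fun m hm => ?_)
    rw [Finset.mem_Icc] at hm
    rw [norm_mul, norm_natCast_cpow_of_pos (by omega)]
    have : (m : ℝ) ^ (-(⟨1 / 2 - κ, t⟩ : ℂ)).re ≤ 1 := by
      apply Real.rpow_le_one_of_one_le_of_nonpos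
      · exact_mod_cast hm.1
      · simp; linarith
    calc ‖a m‖ * _ ≤ ‖a m‖ * 1 := by gcongr
      _ = ‖a m‖ := mul_one _
  have hLB : ∀ t : ℝ, ‖χ.LFunction ⟨1 / 2 + κ, t⟩‖ ≤ (1 + 4 * q) * (1 + |t|) := by
    intro t
    have h := L_right hχ (s := ⟨1 / 2 + κ, t⟩) (by simp only; linarith)
    have h2 : ‖(⟨1 / 2 + κ, t⟩ : ℂ)‖ ≤ 1 + |t| := by
      have h := Complex.norm_le_abs_re_add_abs_im (⟨1 / 2 + κ, t⟩ : ℂ)
      simp only at h
      rw [abs_of_pos (by linarith : 0 < 1 / 2 + κ)] at h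
      linarith
    have hq : (0 : ℝ) ≤ q := Nat.cast_nonneg q
    have h3 : 0 ≤ |t| := abs_nonneg t
    nlinarith
  -- the main inequality for every `N`
  have key : ∀ N : ℕ, 1 ≤ N → 1 / 2 - (2 * q * B * ∫ t : ℝ, ww t * (1 + |t|)) *
      (N : ℝ) ^ (-(1 / 2) : ℝ) ≤ ∫ t : ℝ, ww t * (‖χ.LFunction ⟨1 / 2 + κ, t⟩‖ * ‖P t‖) := by
    intro N hN
    set LN : ℝ → ℂ := fun t => ∑ n ∈ Finset.Icc 1 N, χ (n : ZMod q) * (n : ℂ) ^ (-(⟨1 / 2 + κ, t⟩ : ℂ))
      with hLN
    have hLNd : ∀ t, ‖χ.LFunction ⟨1 / 2 + κ, t⟩ - LN t‖ ≤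
        2 * q * (1 + |t|) * (N : ℝ) ^ (-(1 / 2) : ℝ) := by
      intro t
      have hs0 : 0 < (⟨1 / 2 + κ, t⟩ : ℂ).re := by simp only; linarith
      rw [LFunction_eq hχ (N := N) hN hs0]
      simp only [hLN, add_sub_cancel_left]
      have h1 := TM_norm_le hN (Ech_norm_le hχ N) hs0
      have h2 : ‖(⟨1 / 2 + κ, t⟩ : ℂ)‖ ≤ 1 + |t| := by
        have h := Complex.norm_le_abs_re_add_abs_im (⟨1 / 2 + κ, t⟩ : ℂ)
        simp only at h
        rw [abs_of_pos (by linarith : 0 < 1 / 2 + κ)] at h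
        linarith
      have hN1 : (1 : ℝ) ≤ N := by exact_mod_cast hN
      have h3 : (q : ℝ) * ((N : ℝ) ^ (-(⟨1 / 2 + κ, t⟩ : ℂ).re) / (⟨1 / 2 + κ, t⟩ : ℂ).re) ≤
          2 * q * (N : ℝ) ^ (-(1 / 2) : ℝ) := by
        simp only
        have h4 : (N : ℝ) ^ (-(1 / 2 + κ)) ≤ (N : ℝ) ^ (-(1 / 2) : ℝ) :=
          Real.rpow_le_rpow_of_exponent_le hN1 (by linarith)
        have h5 : (N : ℝ) ^ (-(1 / 2 + κ)) / (1 / 2 + κ) ≤ 2 * (N : ℝ) ^ (-(1 / 2) : ℝ) := by
          rw [div_le_iff₀ (by linarith)]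
          have : 0 ≤ (N : ℝ) ^ (-(1 / 2) : ℝ) := by positivity
          nlinarith
        have hq : (0 : ℝ) ≤ q := Nat.cast_nonneg q
        calc _ ≤ (q : ℝ) * (2 * (N : ℝ) ^ (-(1 / 2) : ℝ)) := by gcongr
          _ = _ := by ring
      rw [norm_mul]
      calc _ ≤ (1 + |t|) * (2 * q * (N : ℝ) ^ (-(1 / 2) : ℝ)) :=
            mul_le_mul h2 (h1.trans h3) (norm_nonneg _) (by positivity)
        _ = _ := by ring
    -- near orthogonality applies to `LN * P`
    have hno : 1 / 2 ≤ ‖∫ t : ℝ, LN t * P t * (ww t : ℂ)‖ ∨ M = 0 := by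
      rcases Nat.eq_zero_or_pos M with hM | hM
      · exact Or.inr hM
      left
      let c : ℕ → ℂ := fun n => χ (n : ZMod q) * (((n : ℝ) ^ (-(1 / 2 + κ)) : ℝ) : ℂ)
      let b : ℕ → ℂ := fun m => if m = 1 then 1 else
        -(a m * (((m : ℝ) ^ (-(1 / 2 - κ)) : ℝ) : ℂ) / ℓ)
      have h := near_orth N M hN hM c b (by simp [c]) (by simp [b]) (by
        intro n hn
        rw [Finset.mem_Icc] at hn
        simp only [c]
        rw [norm_mul, norm_real, Real.norm_of_nonneg (by positivity)]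
        have h1 := χ.norm_le_one (n : ZMod q)
        have h2 : (n : ℝ) ^ (-(1 / 2 + κ)) ≤ 1 := by
          apply Real.rpow_le_one_of_one_le_of_nonpos
          · exact_mod_cast hn.1
          · linarith
        have h3 : 0 ≤ (n : ℝ) ^ (-(1 / 2 + κ)) := by positivity
        nlinarith [norm_nonneg (χ (n : ZMod q))]) (by
        intro m hm
        rw [Finset.mem_Icc] at hm
        simp only [b]
        split_ifs with h1
        · rw [norm_one, h1, Nat.cast_one]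
        · rw [norm_neg, norm_div, norm_mul, norm_real, norm_real, Real.norm_of_nonneg hℓ0.le,
            Real.norm_of_nonneg (by positivity : (0 : ℝ) ≤ (m : ℝ) ^ (-(1 / 2 - κ)))]
          have h2 : (m : ℝ) ^ (-(1 / 2 - κ)) ≤ 1 := by
            apply Real.rpow_le_one_of_one_le_of_nonpos
            · exact_mod_cast hm.1
            · linarith
          have h3 : ‖a m‖ ≤ m := by
            refine (ha m).trans (ArithmeticFunction.vonMangoldt_le_log.trans ?_)
            have hm0 : (0 : ℝ) < m := by exact_mod_cast (by omega : 0 < m)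
            have := Real.log_le_sub_one_of_pos hm0
            linarith
          have h4 : ‖a m‖ * (m : ℝ) ^ (-(1 / 2 - κ)) ≤ m * 1 := by gcongr
          refine (div_le_self (by positivity) hℓ).trans (by linarith))
      have e1 : ∀ t : ℝ, LN t = ∑ n ∈ Finset.Icc 1 N, c n * cexp (I * (-(Real.log n : ℂ)) * t) := by
        intro t
        simp only [hLN, c]
        apply Finset.sum_congr rfl
        intro n hn
        rw [Finset.mem_Icc] at hn
        rw [hcp n _ hn.1]; ring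
      have e2 : ∀ t : ℝ, P t = ∑ m ∈ Finset.Icc 1 M, b m * cexp (I * (-(Real.log m : ℂ)) * t) := by
        intro t
        simp only [hP]
        have hs : Finset.Icc 1 M = insert 1 (Finset.Icc 2 M) := by
          ext x; simp only [Finset.mem_Icc, Finset.mem_insert]; omega
        have ha1 : a 1 = 0 := by
          have := ha 1
          rw [ArithmeticFunction.vonMangoldt_apply_one] at this
          exact norm_le_zero_iff.mp this
        rw [hs, Finset.sum_insert (by simp), Finset.sum_insert (by simp), ha1]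
        simp only [b, if_true]
        have e3 : ∑ m ∈ Finset.Icc 2 M, (if m = 1 then (1 : ℂ) else
            -(a m * (((m : ℝ) ^ (-(1 / 2 - κ)) : ℝ) : ℂ) / ℓ)) * cexp (I * (-(Real.log m : ℂ)) * t) =
            -(∑ m ∈ Finset.Icc 2 M, a m * (m : ℂ) ^ (-(⟨1 / 2 - κ, t⟩ : ℂ))) / ℓ := by
          rw [neg_div, Finset.sum_div, ← Finset.sum_neg_distrib]
          apply Finset.sum_congr rfl
          intro m hm
          rw [Finset.mem_Icc] at hm
          rw [if_neg (by omega), hcp m _ (by omega)]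
          ring
        rw [e3]
        simp
        ring
      simp only [e1, e2]
      exact h
    have hno' : 1 / 2 ≤ ‖∫ t : ℝ, LN t * P t * (ww t : ℂ)‖ := by
      rcases hno with h | h
      · exact h
      · subst h
        have hP1 : ∀ t, P t = 1 := by intro t; simp [hP]
        let c : ℕ → ℂ := fun n => χ (n : ZMod q) * (((n : ℝ) ^ (-(1 / 2 + κ)) : ℝ) : ℂ)
        let b : ℕ → ℂ := fun _ => 1
        have h := near_orth N 1 hN le_rfl c b (by simp [c]) rfl (by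
          intro n hn
          rw [Finset.mem_Icc] at hn
          simp only [c]
          rw [norm_mul, norm_real, Real.norm_of_nonneg (by positivity)]
          have h1 := χ.norm_le_one (n : ZMod q)
          have h2 : (n : ℝ) ^ (-(1 / 2 + κ)) ≤ 1 := by
            apply Real.rpow_le_one_of_one_le_of_nonpos
            · exact_mod_cast hn.1
            · linarith
          have h3 : 0 ≤ (n : ℝ) ^ (-(1 / 2 + κ)) := by positivity
          nlinarith [norm_nonneg (χ (n : ZMod q))]) (by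
          intro m hm
          rw [Finset.mem_Icc] at hm
          have : m = 1 := by omega
          subst this
          simp [b])
        have e1 : ∀ t : ℝ, LN t = ∑ n ∈ Finset.Icc 1 N, c n * cexp (I * (-(Real.log n : ℂ)) * t) := by
          intro t
          simp only [hLN, c]
          apply Finset.sum_congr rfl
          intro n hn
          rw [Finset.mem_Icc] at hn
          rw [hcp n _ hn.1]; ring
        have e2 : ∀ t : ℝ, P t = ∑ m ∈ Finset.Icc 1 1, b m * cexp (I * (-(Real.log m : ℂ)) * t) := by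
          intro t
          rw [hP1]
          simp [b]
        simp only [e1, e2]
        exact h
    have hLNc : Continuous LN := by
      have h1 : LN = fun t : ℝ => ∑ n ∈ Finset.Icc 1 N, χ (n : ZMod q) *
          ((((n : ℝ) ^ (-(1 / 2 + κ)) : ℝ) : ℂ) * cexp (I * (-(Real.log n : ℂ)) * t)) := by
        funext t
        simp only [hLN]
        apply Finset.sum_congr rfl
        intro m hm
        rw [Finset.mem_Icc] at hm
        rw [hcp m _ hm.1]
      rw [h1]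
      fun_prop
    -- compare
    have hi1 : Integrable (fun t : ℝ => ww t * (‖χ.LFunction ⟨1 / 2 + κ, t⟩‖ * ‖P t‖)) := by
      refine ((integrable_ww_poly.const_mul ((1 + 4 * q) * B))).mono'
        (ww_cont.mul (hLc.norm.mul hPc.norm)).aestronglyMeasurable (Eventually.of_forall fun t => ?_)
      have h0 : 0 ≤ ww t * (‖χ.LFunction ⟨1 / 2 + κ, t⟩‖ * ‖P t‖) :=
        mul_nonneg (ww_pos t).le (by positivity)
      rw [Real.norm_of_nonneg h0]
      calc ww t * (‖χ.LFunction ⟨1 / 2 + κ, t⟩‖ * ‖P t‖)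
          ≤ ww t * (((1 + 4 * q) * (1 + |t|)) * B) := by
            have := (ww_pos t).le
            gcongr
            · exact hLB t
            · exact hPB t
        _ = _ := by ring
    have hi2 : Integrable (fun t : ℝ => (2 * q * B * (N : ℝ) ^ (-(1 / 2) : ℝ)) *
        (ww t * (1 + |t|))) := integrable_ww_poly.const_mul _
    have h5 : ‖∫ t : ℝ, LN t * P t * (ww t : ℂ)‖ ≤
        ∫ t : ℝ, (ww t * (‖χ.LFunction ⟨1 / 2 + κ, t⟩‖ * ‖P t‖) +
          (2 * q * B * (N : ℝ) ^ (-(1 / 2) : ℝ)) * (ww t * (1 + |t|))) := by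
      refine norm_integral_le_of_norm_le (hi1.add hi2) (Eventually.of_forall fun t => ?_)
      rw [norm_mul, norm_mul, norm_real, Real.norm_of_nonneg (ww_pos t).le]
      have h6 : ‖LN t‖ ≤ ‖χ.LFunction ⟨1 / 2 + κ, t⟩‖ + 2 * q * (1 + |t|) * (N : ℝ) ^ (-(1 / 2) : ℝ) := by
        have := norm_sub_le (χ.LFunction ⟨1 / 2 + κ, t⟩) (χ.LFunction ⟨1 / 2 + κ, t⟩ - LN t)
        rw [sub_sub_cancel] at this
        linarith [hLNd t]
      have h7 := hPB t
      have h8 := (ww_pos t).le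
      have h9 : 0 ≤ 2 * q * (1 + |t|) * (N : ℝ) ^ (-(1 / 2) : ℝ) := by positivity
      calc ‖LN t‖ * ‖P t‖ * ww t
          ≤ (‖χ.LFunction ⟨1 / 2 + κ, t⟩‖ + 2 * q * (1 + |t|) * (N : ℝ) ^ (-(1 / 2) : ℝ)) *
            ‖P t‖ * ww t := by gcongr
        _ = ww t * (‖χ.LFunction ⟨1 / 2 + κ, t⟩‖ * ‖P t‖) +
            (2 * q * (1 + |t|) * (N : ℝ) ^ (-(1 / 2) : ℝ)) * ‖P t‖ * ww t := by ring
        _ ≤ ww t * (‖χ.LFunction ⟨1 / 2 + κ, t⟩‖ * ‖P t‖) +
            (2 * q * (1 + |t|) * (N : ℝ) ^ (-(1 / 2) : ℝ)) * B * ww t := by gcongr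
        _ = _ := by ring
    rw [integral_add hi1 hi2, integral_const_mul] at h5
    have h10 : (2 * q * B * (N : ℝ) ^ (-(1 / 2) : ℝ)) * ∫ t : ℝ, ww t * (1 + |t|) =
      (2 * q * B * ∫ t : ℝ, ww t * (1 + |t|)) * (N : ℝ) ^ (-(1 / 2) : ℝ) := by ring
    rw [h10] at h5
    linarith
  -- limit
  have hlim : Tendsto (fun N : ℕ => 1 / 2 - (2 * q * B * ∫ t : ℝ, ww t * (1 + |t|)) *
      (N : ℝ) ^ (-(1 / 2) : ℝ)) atTop (𝓝 (1 / 2 - (2 * q * B * ∫ t : ℝ, ww t * (1 + |t|)) * 0)) := by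
    apply Tendsto.sub tendsto_const_nhds
    apply Tendsto.mul tendsto_const_nhds
    exact (tendsto_rpow_neg_atTop (by norm_num)).comp tendsto_natCast_atTop_atTop
  rw [mul_zero, sub_zero] at hlim
  refine le_of_tendsto hlim ?_
  filter_upwards [eventually_ge_atTop 1] with N hN
  exact key N hN

end Pool.Agent.NH13
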