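import Pool.Agent.NH13.Core

/-!
# Bounding `L' + L P` on the left line
-/

set_option autoImplicit false

open Complex MeasureTheory Set Filter Topology

namespace Pool.Agent.NH13

open ArithmeticFunction (vonMangoldt)

/-- `∫ (1+|y|) e^{-y²} |L(1/2+κ+i(t+y))| dy` -/
noncomputable def JJ {q : ℕ} [NeZero q] (χ : DirichletCharacter ℂ q) (κ t : ℝ) : ℝ :=
  ∫ y : ℝ, (1 + |y|) * Real.exp (-(y ^ 2)) * ‖χ.LFunction ⟨1 / 2 + κ, t + y⟩‖

lemma int_gauss_one : Integrable (fun y : ℝ => Real.exp (-(y ^ 2))) := by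
  have := integrable_exp_neg_mul_sq (b := 1) one_pos
  simpa using this

lemma poly_gauss (y : ℝ) : (1 + |y|) ^ 2 * Real.exp (-(y ^ 2)) ≤ Real.exp 5 * Real.exp (-(y ^ 2 / 2)) := by
  have h1 : (1 + |y|) ^ 2 ≤ Real.exp (3 * |y|) := by
    have h2 := Real.add_one_le_exp |y|
    have h3 : 0 ≤ |y| := abs_nonneg y
    calc (1 + |y|) ^ 2 ≤ (Real.exp |y|) ^ 2 := by gcongr; linarith
      _ = Real.exp (2 * |y|) := by rw [← Real.exp_nat_mul]; norm_num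
      _ ≤ _ := Real.exp_le_exp.mpr (by linarith)
  calc _ ≤ Real.exp (3 * |y|) * Real.exp (-(y ^ 2)) := by gcongr
    _ ≤ _ := gauss_dom y

lemma int_poly_gauss : Integrable (fun y : ℝ => (1 + |y|) ^ 2 * Real.exp (-(y ^ 2))) := by
  refine (int_gauss_half.const_mul (Real.exp 5)).mono' (by
    have : Continuous (fun y : ℝ => (1 + |y|) ^ 2 * Real.exp (-(y ^ 2))) := by fun_prop
    exact this.aestronglyMeasurable) (Eventually.of_forall fun y => ?_)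
  rw [Real.norm_of_nonneg (by positivity)]
  exact poly_gauss y

lemma L_line_le {q : ℕ} [NeZero q] {χ : DirichletCharacter ℂ q} (hχ : χ ≠ 1) {σ : ℝ}
    (h1 : 1 / 4 ≤ σ) (h2 : σ ≤ 1) (t : ℝ) : ‖χ.LFunction ⟨σ, t⟩‖ ≤ (1 + 4 * q) * (1 + |t|) := by
  have h := L_right hχ (s := ⟨σ, t⟩) (by simp only; linarith)
  have h2 : ‖(⟨σ, t⟩ : ℂ)‖ ≤ 1 + |t| := by
    have h := Complex.norm_le_abs_re_add_abs_im (⟨σ, t⟩ : ℂ)
    simp only at h
    rw [abs_of_pos (by linarith : 0 < σ)] at h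
    linarith
  have hq : (0 : ℝ) ≤ q := Nat.cast_nonneg q
  have h3 : 0 ≤ |t| := abs_nonneg t
  nlinarith

lemma one_add_abs_add (t y : ℝ) : 1 + |t + y| ≤ (1 + |t|) * (1 + |y|) := by
  have h1 := abs_add_le t y
  have h2 := abs_nonneg t
  have h3 := abs_nonneg y
  nlinarith

lemma L_line_cont {q : ℕ} [NeZero q] {χ : DirichletCharacter ℂ q} (hχ : χ ≠ 1) (σ : ℝ) :
    Continuous (fun t : ℝ => χ.LFunction ⟨σ, t⟩) :=
  cont_line (DirichletCharacter.differentiable_LFunction hχ).continuous σ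

lemma int_JJ {q : ℕ} [NeZero q] {χ : DirichletCharacter ℂ q} (hχ : χ ≠ 1) {κ : ℝ} (hκ : 0 < κ)
    (hκ2 : κ ≤ 1 / 2) (t : ℝ) :
    Integrable (fun y : ℝ => (1 + |y|) * Real.exp (-(y ^ 2)) * ‖χ.LFunction ⟨1 / 2 + κ, t + y⟩‖) := by
  have hc : Continuous (fun y : ℝ => χ.LFunction ⟨1 / 2 + κ, t + y⟩) :=
    (L_line_cont hχ (1 / 2 + κ)).comp (by fun_prop : Continuous (fun y : ℝ => t + y))
  have hc' : Continuous (fun y : ℝ => (1 + |y|) * Real.exp (-(y ^ 2)) *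
      ‖χ.LFunction ⟨1 / 2 + κ, t + y⟩‖) := by
    have h2 := hc.norm
    exact (by fun_prop : Continuous (fun y : ℝ => (1 + |y|) * Real.exp (-(y ^ 2)))).mul h2
  refine (int_poly_gauss.const_mul ((1 + 4 * q) * (1 + |t|))).mono' hc'.aestronglyMeasurable
    (Eventually.of_forall fun y => ?_)
  rw [Real.norm_of_nonneg (by positivity)]
  have h1 := L_line_le hχ (σ := 1 / 2 + κ) (by linarith) (by linarith) (t + y)
  have h2 := one_add_abs_add t y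
  calc (1 + |y|) * Real.exp (-(y ^ 2)) * ‖χ.LFunction ⟨1 / 2 + κ, t + y⟩‖
      ≤ (1 + |y|) * Real.exp (-(y ^ 2)) * ((1 + 4 * q) * ((1 + |t|) * (1 + |y|))) := by
        gcongr
        refine h1.trans ?_
        gcongr
    _ = _ := by ring

theorem phi_bound (A δ : ℝ) (hA : 1 ≤ A) (hδ : 0 < δ) : ∃ C : ℝ, 1 ≤ C ∧ ∀ (q : ℕ) [NeZero q]
    (χ : DirichletCharacter ℂ q), 2 ≤ q → χ.IsPrimitive → ∀ κ X Y θ : ℝ, 0 < κ → κ ≤ 1 / 16 →
    1 ≤ X → X * (q : ℝ) ^ (1 + δ) ≤ Y → Y ≤ (q : ℝ) ^ A → 0 < θ →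
    ‖psi χ X‖ ≤ θ * Real.sqrt X → ‖psi χ Y‖ ≤ θ * Real.sqrt Y →
    ∫ x in Ioc X Y, ‖psi χ x‖ ^ 2 / x ^ 2 ≤ θ ^ 2 → ∀ t : ℝ,
    ‖deriv χ.LFunction ⟨1 / 2 - κ, t⟩ + χ.LFunction ⟨1 / 2 - κ, t⟩ *
        Pol χ (Finset.Icc 1 ⌊X⌋₊) ⟨1 / 2 - κ, t⟩‖ ≤
      C * ((q : ℝ)⁻¹ * Real.exp (3 * |t|) +
        θ * (q : ℝ) ^ (2 * A * κ) / (κ * Real.sqrt κ) * (1 + |t|) * JJ χ κ t) := by
  obtain ⟨a, ha⟩ : ∃ a : ℝ, a = 3 + (8 + 6 * A) / δ := ⟨_, rfl⟩
  have ha3 : 3 ≤ a := by rw [ha]; have : 0 ≤ (8 + 6 * A) / δ := by positivity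
                         linarith
  have haδ : 4 + 3 * A ≤ δ / 2 * a := by
    rw [ha]
    have : δ / 2 * (3 + (8 + 6 * A) / δ) = δ / 2 * 3 + (4 + 3 * A) := by field_simp; ring
    rw [this]; nlinarith
  obtain ⟨C1, hC1, hL1⟩ := L_left a (by linarith)
  obtain ⟨C2, hC2, hL2⟩ := dL_left a (by linarith)
  obtain ⟨G1, hG1⟩ : ∃ G : ℝ, G = ∫ y : ℝ, Real.exp (-(y ^ 2)) := ⟨_, rfl⟩
  obtain ⟨G2, hG2⟩ : ∃ G : ℝ, G = ∫ y : ℝ, Real.exp (-(y ^ 2 / 2)) := ⟨_, rfl⟩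
  have hG1' : 0 ≤ G1 := by rw [hG1]; exact integral_nonneg fun y => (Real.exp_pos _).le
  have hG2' : 0 ≤ G2 := by rw [hG2]; exact integral_nonneg fun y => (Real.exp_pos _).le
  refine ⟨1 + 8 * Real.exp (a ^ 2) * G1 + (C1 + C2) * Real.exp (a ^ 2) * Real.exp 5 * G2 +
    3 * Real.exp 1, ?_, ?_⟩
  · have : 0 ≤ 8 * Real.exp (a ^ 2) * G1 + (C1 + C2) * Real.exp (a ^ 2) * Real.exp 5 * G2 +
      3 * Real.exp 1 := by positivity
    linarith
  intro q _ χ hq hχ κ X Y θ hκ hκ1 hX hXY hYA hθ hp1 hp2 hp3 t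
  have hne := ne_one_of_prim hq hχ
  have hq0 : (0 : ℝ) < q := by exact_mod_cast NeZero.pos q
  have hq1 : (1 : ℝ) ≤ q := by exact_mod_cast NeZero.one_le
  have hX0 : 0 < X := by linarith
  obtain ⟨K, hKdef⟩ : ∃ K : ℝ, K = X * (q : ℝ) ^ (1 + δ / 2) := ⟨_, rfl⟩
  have hK0 : 0 < K := by rw [hKdef]; positivity
  have hXY' : X ≤ Y := by
    refine le_trans ?_ hXY
    have : 1 ≤ (q : ℝ) ^ (1 + δ) := Real.one_le_rpow hq1 (by linarith)
    nlinarith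
  have hY1 : 1 ≤ Y := hX.trans hXY'
  have hY0 : 0 < Y := by linarith
  have hKY : K ≤ Y * (q : ℝ) ^ (-(δ / 2)) := by
    rw [hKdef]
    have : (q : ℝ) ^ (1 + δ / 2) = (q : ℝ) ^ (1 + δ) * (q : ℝ) ^ (-(δ / 2)) := by
      rw [← Real.rpow_add hq0]; congr 1; ring
    rw [this, ← mul_assoc]
    gcongr
  have hKY' : K ≤ Y := by
    refine hKY.trans ?_
    have : (q : ℝ) ^ (-(δ / 2)) ≤ 1 := Real.rpow_le_one_of_one_le_of_nonpos hq1 (by linarith)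
    nlinarith
  set s : ℂ := ⟨1 / 2 - κ, t⟩ with hs
  have hc := contour_ineq hq hχ (X := X) (Y := Y) (K := K) (a := a) (b := a) (c := 2 * κ) hX hXY' hK0
    (by linarith) (by linarith) (by linarith) s
  have hnorm1 : ∀ y : ℝ, 1 ≤ ‖(⟨a, y⟩ : ℂ)‖ := fun y => by
    have := abs_le_norm_mk' a y
    rw [abs_of_pos (by linarith : 0 < a)] at this
    linarith
  have hnorm2 : ∀ y : ℝ, 1 ≤ ‖(⟨-a, y⟩ : ℂ)‖ := fun y => by
    have := abs_le_norm_mk' (-a) y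
    rw [abs_neg, abs_of_pos (by linarith : 0 < a)] at this
    linarith
  have hqm1 : ∀ u : ℝ, u ≤ -1 → (q : ℝ) ^ u ≤ (q : ℝ)⁻¹ := by
    intro u hu
    rw [← Real.rpow_neg_one]
    exact Real.rpow_le_rpow_of_exponent_le hq1 hu
  -- right line
  have T1 : (∫ y : ℝ, ‖(deriv χ.LFunction (s + ⟨a, y⟩) + χ.LFunction (s + ⟨a, y⟩) *
          Pol χ (Finset.Icc 1 ⌊Y⌋₊) (s + ⟨a, y⟩)) * ker K ⟨a, y⟩ / (⟨a, y⟩ : ℂ)‖) ≤
      8 * Real.exp (a ^ 2) * G1 * (q : ℝ)⁻¹ := by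
    have hb : ∀ y : ℝ, ‖(deriv χ.LFunction (s + ⟨a, y⟩) + χ.LFunction (s + ⟨a, y⟩) *
          Pol χ (Finset.Icc 1 ⌊Y⌋₊) (s + ⟨a, y⟩)) * ker K ⟨a, y⟩ / (⟨a, y⟩ : ℂ)‖ ≤
          (8 * Real.exp (a ^ 2) * (q : ℝ)⁻¹) * Real.exp (-(y ^ 2)) := by
      intro y
      rw [norm_div, norm_mul, norm_ker hK0]
      have e1 : (s + ⟨a, y⟩).re = 1 / 2 - κ + a := rfl
      have h1 := far_right χ hY1 (w := s + ⟨a, y⟩) (by rw [e1]; linarith)
      rw [e1] at h1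
      have h2 : Y ^ (3 - (1 / 2 - κ + a)) ≤ Y ^ (3 - a) :=
        Real.rpow_le_rpow_of_exponent_le hY1 (by linarith)
      have h3 : Y ^ (3 - a) * K ^ a ≤ (q : ℝ)⁻¹ := by
        have h4 : K ^ a ≤ (Y * (q : ℝ) ^ (-(δ / 2))) ^ a :=
          Real.rpow_le_rpow hK0.le hKY (by linarith)
        calc Y ^ (3 - a) * K ^ a ≤ Y ^ (3 - a) * (Y * (q : ℝ) ^ (-(δ / 2))) ^ a := by gcongr
          _ = Y ^ (3 : ℝ) * (q : ℝ) ^ (-(δ / 2) * a) := by
              rw [Real.mul_rpow hY0.le (by positivity), ← Real.rpow_mul hq0.le, ← mul_assoc,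
                ← Real.rpow_add hY0]
              congr 2; ring
          _ ≤ ((q : ℝ) ^ A) ^ (3 : ℝ) * (q : ℝ) ^ (-(δ / 2) * a) := by gcongr
          _ = (q : ℝ) ^ (A * 3 + (-(δ / 2) * a)) := by
              rw [← Real.rpow_mul hq0.le, ← Real.rpow_add hq0]
          _ ≤ (q : ℝ)⁻¹ := hqm1 _ (by linarith)
      calc _ ≤ ‖deriv χ.LFunction (s + ⟨a, y⟩) + χ.LFunction (s + ⟨a, y⟩) *
            Pol χ (Finset.Icc 1 ⌊Y⌋₊) (s + ⟨a, y⟩)‖ *
            (K ^ a * Real.exp (a ^ 2) * Real.exp (-(y ^ 2))) := div_le_self (by positivity) (hnorm1 y)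
        _ ≤ (8 * Y ^ (3 - a)) * (K ^ a * Real.exp (a ^ 2) * Real.exp (-(y ^ 2))) := by
            gcongr
            exact h1.trans (by gcongr)
        _ = 8 * Real.exp (a ^ 2) * (Y ^ (3 - a) * K ^ a) * Real.exp (-(y ^ 2)) := by ring
        _ ≤ _ := by gcongr
    refine (integral_mono_of_nonneg (Eventually.of_forall fun y => norm_nonneg _)
      (int_gauss_one.const_mul _) (Eventually.of_forall hb)).trans (le_of_eq ?_)
    rw [integral_const_mul, ← hG1]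
    ring
  -- left line
  have T3 : (∫ y : ℝ, ‖(deriv χ.LFunction (s + ⟨-a, y⟩) + χ.LFunction (s + ⟨-a, y⟩) *
          Pol χ (Finset.Icc 1 ⌊X⌋₊) (s + ⟨-a, y⟩)) * ker K ⟨-a, y⟩ / (⟨-a, y⟩ : ℂ)‖) ≤
      (C1 + C2) * Real.exp (a ^ 2) * Real.exp 5 * G2 * ((q : ℝ)⁻¹ * Real.exp (3 * |t|)) := by
    have hb : ∀ y : ℝ, ‖(deriv χ.LFunction (s + ⟨-a, y⟩) + χ.LFunction (s + ⟨-a, y⟩) *
          Pol χ (Finset.Icc 1 ⌊X⌋₊) (s + ⟨-a, y⟩)) * ker K ⟨-a, y⟩ / (⟨-a, y⟩ : ℂ)‖ ≤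
          ((C1 + C2) * Real.exp (a ^ 2) * Real.exp 5 * ((q : ℝ)⁻¹ * Real.exp (3 * |t|))) *
            Real.exp (-(y ^ 2 / 2)) := by
      intro y
      rw [norm_div, norm_mul, norm_ker hK0]
      have e1 : (s + ⟨-a, y⟩).re = 1 / 2 - κ - a := rfl
      have e2 : (s + ⟨-a, y⟩).im = t + y := rfl
      have h1 := hL1 q χ hq hχ (s + ⟨-a, y⟩) (by rw [e1]; linarith) (by rw [e1]; linarith)
      have h2 := hL2 q χ hq hχ (s + ⟨-a, y⟩) (by rw [e1]; linarith) (by rw [e1]; linarith)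
      have h3 := Pol_le χ hX (b := a) (by linarith) (S := Finset.Icc 1 ⌊X⌋₊) subset_rfl
        (w := s + ⟨-a, y⟩) (by rw [e1]; linarith)
      rw [e1, e2] at h1 h2
      have h4 : Real.exp (3 * |t + y|) ≤ Real.exp (3 * |t|) * Real.exp (3 * |y|) := by
        rw [← Real.exp_add]
        refine (abs_exp_le).trans (le_of_eq ?_)
        congr 1; ring
      have h5 : (q : ℝ) ^ (2 - (1 / 2 - κ - a)) ≤ (q : ℝ) ^ (3 + a) :=
        Real.rpow_le_rpow_of_exponent_le hq1 (by linarith)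
      have h6 : (q : ℝ) ^ (3 - (1 / 2 - κ - a)) ≤ (q : ℝ) ^ (3 + a) :=
        Real.rpow_le_rpow_of_exponent_le hq1 (by linarith)
      have hX2 : 1 ≤ X ^ (2 + a) := Real.one_le_rpow hX (by linarith)
      have h7 : ‖deriv χ.LFunction (s + ⟨-a, y⟩) + χ.LFunction (s + ⟨-a, y⟩) *
          Pol χ (Finset.Icc 1 ⌊X⌋₊) (s + ⟨-a, y⟩)‖ ≤
          (C1 + C2) * ((q : ℝ) ^ (3 + a) * X ^ (2 + a)) * (Real.exp (3 * |t|) * Real.exp (3 * |y|)) := by
        refine (norm_add_le _ _).trans ?_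
        rw [norm_mul]
        have i1 : ‖deriv χ.LFunction (s + ⟨-a, y⟩)‖ ≤
            C2 * ((q : ℝ) ^ (3 + a) * X ^ (2 + a)) * (Real.exp (3 * |t|) * Real.exp (3 * |y|)) := by
          refine h2.trans ?_
          have : (q : ℝ) ^ (3 + a) ≤ (q : ℝ) ^ (3 + a) * X ^ (2 + a) :=
            le_mul_of_one_le_right (by positivity) hX2
          have j := h6.trans this
          gcongr
        have i2 : ‖χ.LFunction (s + ⟨-a, y⟩)‖ * ‖Pol χ (Finset.Icc 1 ⌊X⌋₊) (s + ⟨-a, y⟩)‖ ≤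
            C1 * ((q : ℝ) ^ (3 + a) * X ^ (2 + a)) * (Real.exp (3 * |t|) * Real.exp (3 * |y|)) := by
          calc _ ≤ (C1 * (q : ℝ) ^ (3 + a) * (Real.exp (3 * |t|) * Real.exp (3 * |y|))) *
                X ^ (2 + a) := by
                gcongr
                refine h1.trans ?_
                gcongr
            _ = _ := by ring
        calc _ ≤ C2 * ((q : ℝ) ^ (3 + a) * X ^ (2 + a)) * (Real.exp (3 * |t|) * Real.exp (3 * |y|)) +
            C1 * ((q : ℝ) ^ (3 + a) * X ^ (2 + a)) * (Real.exp (3 * |t|) * Real.exp (3 * |y|)) :=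
              add_le_add i1 i2
          _ = _ := by ring
      have h8 : ((q : ℝ) ^ (3 + a) * X ^ (2 + a)) * K ^ (-a) ≤ (q : ℝ)⁻¹ := by
        have e3 : K ^ (-a) = X ^ (-a) * (q : ℝ) ^ ((1 + δ / 2) * (-a)) := by
          rw [hKdef, Real.mul_rpow hX0.le (by positivity), ← Real.rpow_mul hq0.le]
        calc ((q : ℝ) ^ (3 + a) * X ^ (2 + a)) * K ^ (-a)
            = (X ^ (2 + a) * X ^ (-a)) * ((q : ℝ) ^ (3 + a) * (q : ℝ) ^ ((1 + δ / 2) * (-a))) := by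
              rw [e3]; ring
          _ = X ^ (2 : ℝ) * (q : ℝ) ^ (3 - δ / 2 * a) := by
              rw [← Real.rpow_add hX0, ← Real.rpow_add hq0]
              congr 2 <;> ring
          _ ≤ ((q : ℝ) ^ A) ^ (2 : ℝ) * (q : ℝ) ^ (3 - δ / 2 * a) := by
              have := hXY'.trans hYA
              gcongr
          _ = (q : ℝ) ^ (A * 2 + (3 - δ / 2 * a)) := by
              rw [← Real.rpow_mul hq0.le, ← Real.rpow_add hq0]
          _ ≤ (q : ℝ)⁻¹ := hqm1 _ (by linarith)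
      have e5 : Real.exp ((-a) ^ 2) = Real.exp (a ^ 2) := by congr 1; ring
      rw [e5]
      have h9 := gauss_dom y
      calc _ ≤ ‖deriv χ.LFunction (s + ⟨-a, y⟩) + χ.LFunction (s + ⟨-a, y⟩) *
            Pol χ (Finset.Icc 1 ⌊X⌋₊) (s + ⟨-a, y⟩)‖ *
            (K ^ (-a) * Real.exp (a ^ 2) * Real.exp (-(y ^ 2))) := div_le_self (by positivity) (hnorm2 y)
        _ ≤ ((C1 + C2) * ((q : ℝ) ^ (3 + a) * X ^ (2 + a)) *
            (Real.exp (3 * |t|) * Real.exp (3 * |y|))) *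
            (K ^ (-a) * Real.exp (a ^ 2) * Real.exp (-(y ^ 2))) := by gcongr
        _ = (C1 + C2) * Real.exp (a ^ 2) * (((q : ℝ) ^ (3 + a) * X ^ (2 + a)) * K ^ (-a)) *
            Real.exp (3 * |t|) * (Real.exp (3 * |y|) * Real.exp (-(y ^ 2))) := by ring
        _ ≤ (C1 + C2) * Real.exp (a ^ 2) * (q : ℝ)⁻¹ *
            Real.exp (3 * |t|) * (Real.exp 5 * Real.exp (-(y ^ 2 / 2))) := by gcongr
        _ = _ := by ring
    refine (integral_mono_of_nonneg (Eventually.of_forall fun y => norm_nonneg _)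
      (int_gauss_half.const_mul _) (Eventually.of_forall hb)).trans (le_of_eq ?_)
    rw [integral_const_mul, ← hG2]
    ring
  -- middle line
  have T2 : (∫ y : ℝ, ‖χ.LFunction (s + ⟨2 * κ, y⟩) *
          Pol χ (Finset.Ioc ⌊X⌋₊ ⌊Y⌋₊) (s + ⟨2 * κ, y⟩) * ker K ⟨2 * κ, y⟩ / (⟨2 * κ, y⟩ : ℂ)‖) ≤
      3 * Real.exp 1 * (θ * (q : ℝ) ^ (2 * A * κ) / (κ * Real.sqrt κ) * (1 + |t|) * JJ χ κ t) := by
    have hb : ∀ y : ℝ, ‖χ.LFunction (s + ⟨2 * κ, y⟩) *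
          Pol χ (Finset.Ioc ⌊X⌋₊ ⌊Y⌋₊) (s + ⟨2 * κ, y⟩) * ker K ⟨2 * κ, y⟩ / (⟨2 * κ, y⟩ : ℂ)‖ ≤
          (3 * Real.exp 1 * (θ * (q : ℝ) ^ (2 * A * κ) / (κ * Real.sqrt κ) * (1 + |t|))) *
            ((1 + |y|) * Real.exp (-(y ^ 2)) * ‖χ.LFunction ⟨1 / 2 + κ, t + y⟩‖) := by
      intro y
      have e1 : s + ⟨2 * κ, y⟩ = ⟨1 / 2 + κ, t + y⟩ := by
        rw [hs]
        apply Complex.ext
        · simp; ring
        · simp
      rw [e1, norm_div, norm_mul, norm_mul, norm_ker hK0]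
      have h1 := pwin_bound χ hκ hX hXY' hθ hp1 hp2 hp3 (w := ⟨1 / 2 + κ, t + y⟩) rfl
      have h2 : ‖(⟨1 / 2 + κ, t + y⟩ : ℂ)‖ ≤ (1 + |t|) * (1 + |y|) := by
        have h := Complex.norm_le_abs_re_add_abs_im (⟨1 / 2 + κ, t + y⟩ : ℂ)
        simp only at h
        rw [abs_of_pos (by linarith : 0 < 1 / 2 + κ)] at h
        have := one_add_abs_add t y
        linarith
      have hsκ : 0 < Real.sqrt κ := Real.sqrt_pos.mpr hκ
      have hsκ1 : Real.sqrt κ ≤ 1 := by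
        exact Real.sqrt_le_one.mpr (by linarith)
      have h3 : ‖(⟨1 / 2 + κ, t + y⟩ : ℂ)‖ / Real.sqrt (2 * κ) ≤ (1 + |t|) * (1 + |y|) / Real.sqrt κ := by
        have : Real.sqrt κ ≤ Real.sqrt (2 * κ) := Real.sqrt_le_sqrt (by linarith)
        gcongr
      have h4 : (2 : ℝ) ≤ 2 * ((1 + |t|) * (1 + |y|) / Real.sqrt κ) := by
        have h5 : 1 ≤ (1 + |t|) * (1 + |y|) := by
          have := abs_nonneg t
          have := abs_nonneg y
          nlinarith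
        have h6 : 1 ≤ (1 + |t|) * (1 + |y|) / Real.sqrt κ := by
          rw [le_div_iff₀ hsκ]; linarith
        linarith
      have h7 : ‖Pol χ (Finset.Ioc ⌊X⌋₊ ⌊Y⌋₊) ⟨1 / 2 + κ, t + y⟩‖ ≤
          θ * (3 * ((1 + |t|) * (1 + |y|) / Real.sqrt κ)) := by
        refine h1.trans ?_
        gcongr
        linarith
      have h8 : K ^ (2 * κ) ≤ (q : ℝ) ^ (2 * A * κ) := by
        calc K ^ (2 * κ) ≤ ((q : ℝ) ^ A) ^ (2 * κ) :=
              Real.rpow_le_rpow hK0.le (hKY'.trans hYA) (by linarith)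
          _ = (q : ℝ) ^ (2 * A * κ) := by rw [← Real.rpow_mul hq0.le]; congr 1; ring
      have h9 : Real.exp ((2 * κ) ^ 2) ≤ Real.exp 1 := Real.exp_le_exp.mpr (by nlinarith)
      have h10 : κ ≤ ‖(⟨2 * κ, y⟩ : ℂ)‖ := by
        have := abs_le_norm_mk' (2 * κ) y
        rw [abs_of_pos (by linarith : 0 < 2 * κ)] at this
        linarith
      calc _ ≤ ‖χ.LFunction ⟨1 / 2 + κ, t + y⟩‖ * (θ * (3 * ((1 + |t|) * (1 + |y|) / Real.sqrt κ))) *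
            ((q : ℝ) ^ (2 * A * κ) * Real.exp 1 * Real.exp (-(y ^ 2))) / κ := by gcongr
        _ = _ := by field_simp
    refine (integral_mono_of_nonneg (Eventually.of_forall fun y => norm_nonneg _)
      ((int_JJ hne hκ (by linarith) t).const_mul _) (Eventually.of_forall hb)).trans (le_of_eq ?_)
    rw [integral_const_mul]
    unfold JJ
    ring
  -- collect
  have hJ0 : 0 ≤ JJ χ κ t := integral_nonneg fun y => by positivity
  set U := (q : ℝ)⁻¹ * Real.exp (3 * |t|) with hU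
  set V := θ * (q : ℝ) ^ (2 * A * κ) / (κ * Real.sqrt κ) * (1 + |t|) * JJ χ κ t with hV
  have hU0 : 0 ≤ U := by positivity
  have hV0 : 0 ≤ V := by positivity
  have hU1 : (q : ℝ)⁻¹ ≤ U := by
    rw [hU]
    have : 1 ≤ Real.exp (3 * |t|) := Real.one_le_exp (by positivity)
    exact le_mul_of_one_le_right (by positivity) this
  set N := ‖deriv χ.LFunction s + χ.LFunction s * Pol χ (Finset.Icc 1 ⌊X⌋₊) s‖ with hN
  have hN0 : 0 ≤ N := norm_nonneg _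
  have hpi : N ≤ 2 * Real.pi * N := by nlinarith [Real.pi_gt_three]
  have T1' : 8 * Real.exp (a ^ 2) * G1 * (q : ℝ)⁻¹ ≤ 8 * Real.exp (a ^ 2) * G1 * U := by gcongr
  have h1 : 0 ≤ 8 * Real.exp (a ^ 2) * G1 * V := by positivity
  have h2 : 0 ≤ (C1 + C2) * Real.exp (a ^ 2) * Real.exp 5 * G2 * V := by positivity
  have h3 : 0 ≤ 3 * Real.exp 1 * U := by positivity
  have e : (1 + 8 * Real.exp (a ^ 2) * G1 + (C1 + C2) * Real.exp (a ^ 2) * Real.exp 5 * G2 +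
    3 * Real.exp 1) * (U + V) = (U + V) + 8 * Real.exp (a ^ 2) * G1 * U + 8 * Real.exp (a ^ 2) * G1 * V
      + (C1 + C2) * Real.exp (a ^ 2) * Real.exp 5 * G2 * U +
      (C1 + C2) * Real.exp (a ^ 2) * Real.exp 5 * G2 * V + 3 * Real.exp 1 * U + 3 * Real.exp 1 * V := by
    ring
  rw [e]
  linarith

end Pool.Agent.NH13
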