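import Pool.Agent.NH13.Moll
import Pool.Agent.NH13.GaussId
import Pool.Agent.NH13.Phi

/-!
# The lower bound with the mollifier
-/

set_option autoImplicit false

open Complex MeasureTheory Set Filter Topology

namespace Pool.Agent.NH13

open Pool.Agent.H307R2

theorem near_orth_gen {ι : Type*} [DecidableEq ι] (S : Finset ι) (i₀ : ι) (hi : i₀ ∈ S) (n : ι → ℕ)
    (g : ι → ℂ) (h1 : n i₀ = 1) (hg : g i₀ = 1) (hn : ∀ i ∈ S, i ≠ i₀ → 2 ≤ n i)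
    (hs : ∑ i ∈ S.erase i₀, ‖g i‖ * ((n i : ℝ) ^ 12)⁻¹ ≤ 1 / 2) :
    1 / 2 ≤ ‖∫ t : ℝ, (∑ i ∈ S, g i * cexp (I * (-((Real.log (n i) : ℝ) : ℂ)) * t)) * (ww t : ℂ)‖ := by
  have h2 : ∫ t : ℝ, (∑ i ∈ S, g i * cexp (I * (-((Real.log (n i) : ℝ) : ℂ)) * t)) * (ww t : ℂ) =
      K0 * ∑ i ∈ S, g i * (Real.exp (-(18 * Real.log (n i) ^ 2)) : ℂ) := by
    have h3 : ∀ t : ℝ, (∑ i ∈ S, g i * cexp (I * (-((Real.log (n i) : ℝ) : ℂ)) * t)) * (ww t : ℂ) =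
        ∑ i ∈ S, g i * (cexp (I * (-((Real.log (n i) : ℝ) : ℂ)) * t) * (ww t : ℂ)) := by
      intro t
      rw [Finset.sum_mul]
      exact Finset.sum_congr rfl fun i _ => by ring
    simp_rw [h3]
    rw [integral_finsetSum, Finset.mul_sum]
    · refine Finset.sum_congr rfl fun i _ => ?_
      rw [integral_const_mul]
      have := GG_eq (Real.log (n i))
      unfold GG at this
      rw [this]
      ring
    · intro i _
      exact (integrable_ww_cexp _).const_mul _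
  rw [h2, norm_mul, ← Finset.add_sum_erase S _ hi, h1, hg]
  have h4 : ‖∑ i ∈ S.erase i₀, g i * (Real.exp (-(18 * Real.log (n i) ^ 2)) : ℂ)‖ ≤ 1 / 2 := by
    refine (norm_sum_le_of_le _ fun i hi' => ?_).trans hs
    rw [Finset.mem_erase] at hi'
    rw [norm_mul, norm_real, Real.norm_of_nonneg (Real.exp_pos _).le]
    have := decay (hn i hi'.2 hi'.1)
    gcongr
  have e1 : (1 : ℂ) * (Real.exp (-(18 * Real.log ((1 : ℕ) : ℝ) ^ 2)) : ℂ) = 1 := by simp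
  rw [e1]
  have h5 := norm_sub_norm_le (1 : ℂ)
    (-(∑ i ∈ S.erase i₀, g i * (Real.exp (-(18 * Real.log (n i) ^ 2)) : ℂ)))
  rw [sub_neg_eq_add, norm_neg, norm_one] at h5
  have := norm_K0
  nlinarith

lemma triple_sum (A B C : ℕ) : ∑ x ∈ ((Finset.Icc 1 A) ×ˢ (Finset.Icc 1 B) ×ˢ (Finset.Icc 1 C)),
    ((((x.1 : ℕ) : ℝ) ^ 2)⁻¹ * (((x.2.1 : ℕ) : ℝ) ^ 2)⁻¹ * (((x.2.2 : ℕ) : ℝ) ^ 2)⁻¹) ≤ 8 := by
  rw [Finset.sum_product]
  have h1 : ∀ a ∈ Finset.Icc 1 A, ∑ y ∈ ((Finset.Icc 1 B) ×ˢ (Finset.Icc 1 C)),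
      (((a : ℝ) ^ 2)⁻¹ * (((y.1 : ℕ) : ℝ) ^ 2)⁻¹ * (((y.2 : ℕ) : ℝ) ^ 2)⁻¹) =
      ((a : ℝ) ^ 2)⁻¹ * ((∑ b ∈ Finset.Icc 1 B, ((b : ℝ) ^ 2)⁻¹) *
        (∑ c ∈ Finset.Icc 1 C, ((c : ℝ) ^ 2)⁻¹)) := by
    intro a _
    rw [Finset.sum_product, Finset.sum_mul_sum, Finset.mul_sum]
    refine Finset.sum_congr rfl fun b _ => ?_
    rw [Finset.mul_sum]
    exact Finset.sum_congr rfl fun c _ => by ring
  rw [Finset.sum_congr rfl h1, ← Finset.sum_mul]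
  have h6 := sum_inv_sq A
  have h7 := sum_inv_sq B
  have h8 := sum_inv_sq C
  have h9 : 0 ≤ ∑ n ∈ Finset.Icc 1 A, ((n : ℝ) ^ 2)⁻¹ := Finset.sum_nonneg fun _ _ => by positivity
  have h10 : 0 ≤ ∑ n ∈ Finset.Icc 1 B, ((n : ℝ) ^ 2)⁻¹ := Finset.sum_nonneg fun _ _ => by positivity
  have h11 : 0 ≤ ∑ n ∈ Finset.Icc 1 C, ((n : ℝ) ^ 2)⁻¹ := Finset.sum_nonneg fun _ _ => by positivity
  calc _ ≤ (2 : ℝ) * (2 * 2) := by gcongr
    _ = 8 := by norm_num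

/-- near orthogonality for three factors -/
theorem near_orth3 (A B C : ℕ) (hA : 1 ≤ A) (hB : 1 ≤ B) (hC : 1 ≤ C) (a b c : ℕ → ℂ)
    (ha1 : a 1 = 1) (hb1 : b 1 = 1) (hc1 : c 1 = 1)
    (ha : ∀ n ∈ Finset.Icc 1 A, ‖a n‖ ≤ 1) (hb : ∀ n ∈ Finset.Icc 1 B, ‖b n‖ ≤ 1)
    (hc : ∀ m ∈ Finset.Icc 1 C, ‖c m‖ ≤ m) :
    1 / 2 ≤ ‖∫ t : ℝ, (∑ n ∈ Finset.Icc 1 A, a n * cexp (I * (-((Real.log n : ℝ) : ℂ)) * t)) *
      (∑ n ∈ Finset.Icc 1 B, b n * cexp (I * (-((Real.log n : ℝ) : ℂ)) * t)) *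
      (∑ m ∈ Finset.Icc 1 C, c m * cexp (I * (-((Real.log m : ℝ) : ℂ)) * t)) * (ww t : ℂ)‖ := by
  set S : Finset (ℕ × ℕ × ℕ) := (Finset.Icc 1 A) ×ˢ (Finset.Icc 1 B) ×ˢ (Finset.Icc 1 C) with hS
  have hmem : ∀ x ∈ S, 1 ≤ x.1 ∧ 1 ≤ x.2.1 ∧ 1 ≤ x.2.2 ∧ x.1 ≤ A ∧ x.2.1 ≤ B ∧ x.2.2 ≤ C := by
    intro x hx
    rw [hS, Finset.mem_product, Finset.mem_product, Finset.mem_Icc, Finset.mem_Icc,
      Finset.mem_Icc] at hx
    exact ⟨hx.1.1, hx.2.1.1, hx.2.2.1, hx.1.2, hx.2.1.2, hx.2.2.2⟩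
  have h2 : ∀ x ∈ S, x ≠ (1, 1, 1) → 2 ≤ x.1 * (x.2.1 * x.2.2) := by
    intro x hx hne
    obtain ⟨h3, h4, h5, _⟩ := hmem x hx
    by_contra h
    push Not at h
    have h6 : x.1 * (x.2.1 * x.2.2) = 1 := by
      have : 0 < x.1 * (x.2.1 * x.2.2) := by positivity
      omega
    rw [mul_eq_one, mul_eq_one] at h6
    exact hne (Prod.ext h6.1 (Prod.ext h6.2.1 h6.2.2))
  have h := near_orth_gen S (1, 1, 1) (by
    rw [hS, Finset.mem_product, Finset.mem_product, Finset.mem_Icc, Finset.mem_Icc,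
      Finset.mem_Icc]
    exact ⟨⟨le_rfl, hA⟩, ⟨le_rfl, hB⟩, ⟨le_rfl, hC⟩⟩) (fun x => x.1 * (x.2.1 * x.2.2))
    (fun x => a x.1 * b x.2.1 * c x.2.2) (by simp) (by simp [ha1, hb1, hc1]) h2 (by
      have h3 : ∀ x ∈ S.erase (1, 1, 1), ‖a x.1 * b x.2.1 * c x.2.2‖ *
          ((((x.1 * (x.2.1 * x.2.2) : ℕ)) : ℝ) ^ 12)⁻¹ ≤
          (1 / 512) * ((((x.1 : ℕ) : ℝ) ^ 2)⁻¹ * (((x.2.1 : ℕ) : ℝ) ^ 2)⁻¹ *
            (((x.2.2 : ℕ) : ℝ) ^ 2)⁻¹) := by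
        intro x hx
        rw [Finset.mem_erase] at hx
        obtain ⟨g1, g2, g3, g4, g5, g6⟩ := hmem x hx.2
        have hk := h2 x hx.2 hx.1
        have r1 : (1 : ℝ) ≤ x.1 := by exact_mod_cast g1
        have r2 : (1 : ℝ) ≤ x.2.1 := by exact_mod_cast g2
        have r3 : (1 : ℝ) ≤ x.2.2 := by exact_mod_cast g3
        obtain ⟨k, hkdef⟩ : ∃ k : ℝ, k = ((x.1 * (x.2.1 * x.2.2) : ℕ) : ℝ) := ⟨_, rfl⟩
        have hk2 : (2 : ℝ) ≤ k := by rw [hkdef]; exact_mod_cast hk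
        have hkm : k = (x.1 : ℝ) * ((x.2.1 : ℝ) * (x.2.2 : ℝ)) := by rw [hkdef]; push_cast; rfl
        have hck : (x.2.2 : ℝ) ≤ k := by
          rw [hkm]
          have : 1 ≤ (x.1 : ℝ) * (x.2.1 : ℝ) := by nlinarith
          nlinarith
        have e1 : (((x.1 : ℕ) : ℝ) ^ 2)⁻¹ * (((x.2.1 : ℕ) : ℝ) ^ 2)⁻¹ *
            (((x.2.2 : ℕ) : ℝ) ^ 2)⁻¹ = (k ^ 2)⁻¹ := by
          rw [hkm]; rw [← mul_inv, ← mul_inv]; congr 1; ring
        rw [e1, ← hkdef, norm_mul, norm_mul]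
        have b1 := ha x.1 (Finset.mem_Icc.2 ⟨g1, g4⟩)
        have b2 := hb x.2.1 (Finset.mem_Icc.2 ⟨g2, g5⟩)
        have b3 := hc x.2.2 (Finset.mem_Icc.2 ⟨g3, g6⟩)
        have hk0 : 0 < k := by linarith
        have e2 : (k ^ 12)⁻¹ * k ≤ (1 / 512) * (k ^ 2)⁻¹ := by
          have e4 : (512 : ℝ) ≤ k ^ 9 := by
            calc (512 : ℝ) = 2 ^ 9 := by norm_num
              _ ≤ _ := pow_le_pow_left₀ (by norm_num) hk2 9
          rw [inv_mul_eq_div, div_le_iff₀ (by positivity)]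
          have e5 : 1 / 512 * (k ^ 2)⁻¹ * k ^ 12 = k ^ 9 / 512 * k := by
            field_simp
          rw [e5]
          have : 1 ≤ k ^ 9 / 512 := by linarith
          nlinarith
        calc ‖a x.1‖ * ‖b x.2.1‖ * ‖c x.2.2‖ * (k ^ 12)⁻¹ ≤ 1 * 1 * k * (k ^ 12)⁻¹ := by
              gcongr
              exact b3.trans hck
          _ = (k ^ 12)⁻¹ * k := by ring
          _ ≤ _ := e2
      refine (Finset.sum_le_sum h3).trans ?_
      rw [← Finset.mul_sum]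
      have h4 : ∑ x ∈ S.erase (1, 1, 1), ((((x.1 : ℕ) : ℝ) ^ 2)⁻¹ * (((x.2.1 : ℕ) : ℝ) ^ 2)⁻¹ *
            (((x.2.2 : ℕ) : ℝ) ^ 2)⁻¹) ≤ 8 := by
        refine le_trans (Finset.sum_le_sum_of_subset_of_nonneg (Finset.erase_subset _ _)
          fun _ _ _ => by positivity) (triple_sum A B C)
      linarith)
  refine h.trans (le_of_eq ?_)
  congr 2
  funext t
  congr 1
  rw [Finset.sum_product, Finset.sum_mul_sum, Finset.sum_mul]
  refine Finset.sum_congr rfl fun n hn => ?_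
  rw [Finset.sum_product, Finset.sum_mul]
  refine Finset.sum_congr rfl fun m hm => ?_
  rw [Finset.mul_sum]
  refine Finset.sum_congr rfl fun k hk => ?_
  rw [Finset.mem_Icc] at hn hm hk
  simp only
  have hn0 : (n : ℝ) ≠ 0 := by exact_mod_cast (by omega : n ≠ 0)
  have hm0 : (m : ℝ) ≠ 0 := by exact_mod_cast (by omega : m ≠ 0)
  have hk0 : (k : ℝ) ≠ 0 := by exact_mod_cast (by omega : k ≠ 0)
  have e : Real.log ((n * (m * k) : ℕ) : ℝ) = Real.log n + Real.log m + Real.log k := by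
    push_cast
    rw [Real.log_mul hn0 (mul_ne_zero hm0 hk0), Real.log_mul hm0 hk0]; ring
  rw [e]
  have e2 : cexp (I * (-((Real.log n + Real.log m + Real.log k : ℝ) : ℂ)) * t) =
      cexp (I * (-((Real.log n : ℝ) : ℂ)) * t) * cexp (I * (-((Real.log m : ℝ) : ℂ)) * t) *
        cexp (I * (-((Real.log k : ℝ) : ℂ)) * t) := by
    rw [← Complex.exp_add, ← Complex.exp_add]; congr 1; push_cast; ring
  rw [e2]
  ring

/-- trigonometric polynomials are continuous and bounded -/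
lemma trig_cont (A : ℕ) (a : ℕ → ℂ) :
    Continuous (fun t : ℝ => ∑ n ∈ Finset.Icc 1 A, a n * cexp (I * (-((Real.log n : ℝ) : ℂ)) * t)) := by
  fun_prop

lemma trig_bdd (A : ℕ) (a : ℕ → ℂ) (t : ℝ) :
    ‖∑ n ∈ Finset.Icc 1 A, a n * cexp (I * (-((Real.log n : ℝ) : ℂ)) * t)‖ ≤
      ∑ n ∈ Finset.Icc 1 A, ‖a n‖ := by
  refine norm_sum_le_of_le _ fun n _ => ?_
  rw [norm_mul]
  have : ‖cexp (I * (-((Real.log n : ℝ) : ℂ)) * t)‖ = 1 := by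
    have e : I * (-((Real.log n : ℝ) : ℂ)) * t = ((-(Real.log n) * t : ℝ) : ℂ) * I := by
      push_cast; ring
    rw [e, norm_exp_ofReal_mul_I]
  rw [this, mul_one]

lemma cpow_line {m : ℕ} (hm : 1 ≤ m) (x t : ℝ) : (m : ℂ) ^ (-(⟨x, t⟩ : ℂ)) =
    (((m : ℝ) ^ (-x) : ℝ) : ℂ) * cexp (I * (-((Real.log m : ℝ) : ℂ)) * t) := by
  have hm0 : (m : ℂ) ≠ 0 := by exact_mod_cast (by omega : m ≠ 0)
  have hm1 : (0 : ℝ) < m := by exact_mod_cast (by omega : 0 < m)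
  rw [cpow_def_of_ne_zero hm0, Real.rpow_def_of_pos hm1]
  push_cast
  rw [← Complex.exp_add]
  congr 1
  rw [mk_re_im]
  ring

/-- the lower bound -/
theorem gauss_lower_M {q : ℕ} [NeZero q] {χ : DirichletCharacter ℂ q} (hχ : χ ≠ 1) {κ ℓ X : ℝ}
    (hκ : 0 < κ) (hκ2 : κ ≤ 1 / 2) (hℓ : 1 ≤ ℓ) (hX : 1 ≤ X) (M : ℕ) (a : ℕ → ℂ)
    (ha : ∀ m, ‖a m‖ ≤ ArithmeticFunction.vonMangoldt m) :
    1 / 2 ≤ ∫ t : ℝ, ww t * (‖χ.LFunction ⟨1 / 2 + κ, t⟩‖ * (‖MM χ X ⟨1 / 2 + κ, t⟩‖ *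
      ‖1 - (∑ m ∈ Finset.Icc 1 M, a m * (m : ℂ) ^ (-(⟨1 / 2 - κ, t⟩ : ℂ))) / ℓ‖)) := by
  have hL : Continuous χ.LFunction := (DirichletCharacter.differentiable_LFunction hχ).continuous
  have hLc : Continuous (fun t : ℝ => χ.LFunction ⟨1 / 2 + κ, t⟩) := L_line_cont hχ _
  have hℓ0 : 0 < ℓ := by linarith
  have hX0 : 0 < X := by linarith
  -- coefficients
  obtain ⟨eb, heb⟩ : ∃ e : ℕ → ℂ, e = fun m : ℕ => ((ArithmeticFunction.moebius m : ℝ) : ℂ) *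
    ((1 - Real.log m / X : ℝ) : ℂ) * ((Real.exp (-(1 / 2 + κ) * Real.log m) : ℝ) : ℂ) *
      χ (m : ZMod q) := ⟨_, rfl⟩
  obtain ⟨ec, hec⟩ : ∃ e : ℕ → ℂ, e = fun m : ℕ => if m = 1 then (1 : ℂ) else if m ≤ M then
    -(a m * (((m : ℝ) ^ (-(1 / 2 - κ)) : ℝ) : ℂ) / ℓ) else 0 := ⟨_, rfl⟩
  obtain ⟨Mx, hMx⟩ : ∃ n : ℕ, n = ⌊Real.exp X⌋₊ := ⟨_, rfl⟩
  have hMx1 : 1 ≤ Mx := by
    rw [hMx, Nat.one_le_floor_iff]; exact Real.one_le_exp hX0.le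
  have eM : ∀ t : ℝ, MM χ X ⟨1 / 2 + κ, t⟩ =
      ∑ n ∈ Finset.Icc 1 Mx, eb n * cexp (I * (-((Real.log n : ℝ) : ℂ)) * t) := by
    intro t
    unfold MM ac
    rw [← hMx]
    refine Finset.sum_congr rfl fun m _ => ?_
    rw [heb]
    simp only
    have e1 : cexp (-(⟨1 / 2 + κ, t⟩ : ℂ) * Real.log m) =
        ((Real.exp (-(1 / 2 + κ) * Real.log m) : ℝ) : ℂ) *
          cexp (I * (-((Real.log m : ℝ) : ℂ)) * t) := by
      rw [mk_re_im, Complex.ofReal_exp, ← Complex.exp_add]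
      congr 1
      generalize Real.log (m : ℝ) = l
      push_cast
      ring
    rw [e1]
    ring
  have eP : ∀ t : ℝ, 1 - (∑ m ∈ Finset.Icc 1 M, a m * (m : ℂ) ^ (-(⟨1 / 2 - κ, t⟩ : ℂ))) / ℓ =
      ∑ n ∈ Finset.Icc 1 (M + 1), ec n * cexp (I * (-((Real.log n : ℝ) : ℂ)) * t) := by
    intro t
    have ha1 : a 1 = 0 := by
      have := ha 1
      rw [ArithmeticFunction.vonMangoldt_apply_one] at this
      exact norm_le_zero_iff.mp this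
    have hs : Finset.Icc 1 (M + 1) = insert 1 (Finset.Icc 2 (M + 1)) := by
      ext x; simp only [Finset.mem_Icc, Finset.mem_insert]; omega
    rw [hs, Finset.sum_insert (by simp)]
    have e1 : ec 1 * cexp (I * (-((Real.log ((1 : ℕ) : ℝ) : ℝ) : ℂ)) * t) = 1 := by
      rw [hec]; simp
    have e2 : ∑ x ∈ Finset.Icc 2 (M + 1), ec x * cexp (I * (-((Real.log x : ℝ) : ℂ)) * t) =
        ∑ x ∈ Finset.Icc 2 M, ec x * cexp (I * (-((Real.log x : ℝ) : ℂ)) * t) := by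
      symm
      apply Finset.sum_subset (Finset.Icc_subset_Icc_right (by omega))
      intro x hx hx2
      rw [Finset.mem_Icc] at hx hx2
      rw [hec]
      simp only
      rw [if_neg (by omega), if_neg (by omega), zero_mul]
    have e3 : ∑ m ∈ Finset.Icc 1 M, a m * (m : ℂ) ^ (-(⟨1 / 2 - κ, t⟩ : ℂ)) =
        ∑ m ∈ Finset.Icc 2 M, a m * (m : ℂ) ^ (-(⟨1 / 2 - κ, t⟩ : ℂ)) := by
      symm
      apply Finset.sum_subset (Finset.Icc_subset_Icc_left (by omega))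
      intro x hx hx2
      rw [Finset.mem_Icc] at hx hx2
      have : x = 1 := by omega
      rw [this, ha1, zero_mul]
    rw [e1, e2, e3, Finset.sum_div, sub_eq_add_neg, ← Finset.sum_neg_distrib]
    congr 1
    refine Finset.sum_congr rfl fun m hm => ?_
    rw [Finset.mem_Icc] at hm
    rw [hec]
    simp only
    rw [if_neg (by omega), if_pos hm.2, cpow_line (by omega)]
    ring
  have hb1 : eb 1 = 1 := by rw [heb]; simp
  have hc1 : ec 1 = 1 := by rw [hec]; simp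
  have hbn : ∀ n ∈ Finset.Icc 1 Mx, ‖eb n‖ ≤ 1 := by
    intro n hn
    have h1 := ac_norm_le hX (m := n) (by rw [← hMx]; exact hn) ((-(1 / 2 + κ) : ℝ) : ℂ)
    have h2 : eb n = ac X ((-(1 / 2 + κ) : ℝ) : ℂ) n * χ (n : ZMod q) := by
      rw [heb]; unfold ac
      simp only
      rw [Complex.ofReal_exp]
      push_cast
      rfl
    rw [h2, norm_mul]
    have h3 := χ.norm_le_one (n : ZMod q)
    have h4 : Real.exp ((((-(1 / 2 + κ) : ℝ) : ℂ)).re * Real.log n) ≤ 1 := by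
      rw [Real.exp_le_one_iff, Complex.ofReal_re]
      have := Real.log_natCast_nonneg n
      nlinarith
    calc _ ≤ (1 : ℝ) * 1 := by gcongr; exact h1.trans h4
      _ = 1 := one_mul _
  have hcn : ∀ m ∈ Finset.Icc 1 (M + 1), ‖ec m‖ ≤ m := by
    intro m hm
    rw [Finset.mem_Icc] at hm
    rw [hec]
    simp only
    split_ifs with h1 h2
    · rw [norm_one, h1, Nat.cast_one]
    · rw [norm_neg, norm_div, norm_mul, norm_real, norm_real, Real.norm_of_nonneg hℓ0.le,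
        Real.norm_of_nonneg (by positivity : (0 : ℝ) ≤ (m : ℝ) ^ (-(1 / 2 - κ)))]
      have h2 : (m : ℝ) ^ (-(1 / 2 - κ)) ≤ 1 := by
        apply Real.rpow_le_one_of_one_le_of_nonpos
        · exact_mod_cast hm.1
        · linarith
      have h3 : ‖a m‖ ≤ m := by
        refine (ha m).trans (ArithmeticFunction.vonMangoldt_le_log.trans ?_)
        have hm0 : (0 : ℝ) < m := by exact_mod_cast (by omega : 0 < m)
        have := Real.log_le_sub_one_of_pos hm0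
        linarith
      have h4 : ‖a m‖ * (m : ℝ) ^ (-(1 / 2 - κ)) ≤ m * 1 := by gcongr
      refine (div_le_self (by positivity) hℓ).trans (by linarith)
    · rw [norm_zero]; positivity
  simp_rw [eM, eP]
  set Q : ℝ → ℂ := fun t => (∑ n ∈ Finset.Icc 1 Mx, eb n * cexp (I * (-((Real.log n : ℝ) : ℂ)) * t)) *
    (∑ n ∈ Finset.Icc 1 (M + 1), ec n * cexp (I * (-((Real.log n : ℝ) : ℂ)) * t)) with hQ
  have hQc : Continuous Q := (trig_cont Mx eb).mul (trig_cont (M + 1) ec)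
  obtain ⟨B, hB⟩ : ∃ B : ℝ, B = (∑ n ∈ Finset.Icc 1 Mx, ‖eb n‖) *
    (∑ n ∈ Finset.Icc 1 (M + 1), ‖ec n‖) := ⟨_, rfl⟩
  have hB0 : 0 ≤ B := by rw [hB]; positivity
  have hQB : ∀ t, ‖Q t‖ ≤ B := by
    intro t
    simp only [hQ]
    rw [norm_mul, hB]
    exact mul_le_mul (trig_bdd Mx eb t) (trig_bdd (M + 1) ec t) (norm_nonneg _) (by positivity)
  have hQn : ∀ t : ℝ, ‖∑ n ∈ Finset.Icc 1 Mx, eb n * cexp (I * (-((Real.log n : ℝ) : ℂ)) * t)‖ *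
      ‖∑ n ∈ Finset.Icc 1 (M + 1), ec n * cexp (I * (-((Real.log n : ℝ) : ℂ)) * t)‖ = ‖Q t‖ := by
    intro t
    simp only [hQ]
    rw [norm_mul]
  simp_rw [hQn]
  have hLB : ∀ t : ℝ, ‖χ.LFunction ⟨1 / 2 + κ, t⟩‖ ≤ (1 + 4 * q) * (1 + |t|) := fun t =>
    L_line_le hχ (by linarith) (by linarith) t
  have key : ∀ N : ℕ, 1 ≤ N → 1 / 2 - (2 * q * B * ∫ t : ℝ, ww t * (1 + |t|)) *
      (N : ℝ) ^ (-(1 / 2) : ℝ) ≤ ∫ t : ℝ, ww t * (‖χ.LFunction ⟨1 / 2 + κ, t⟩‖ * ‖Q t‖) := by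
    intro N hN
    obtain ⟨ea, hea⟩ : ∃ e : ℕ → ℂ, e = fun n : ℕ => χ (n : ZMod q) *
      (((n : ℝ) ^ (-(1 / 2 + κ)) : ℝ) : ℂ) := ⟨_, rfl⟩
    set LN : ℝ → ℂ := fun t => ∑ n ∈ Finset.Icc 1 N,
      ea n * cexp (I * (-((Real.log n : ℝ) : ℂ)) * t) with hLN
    have hLNe : ∀ t, LN t = ∑ n ∈ Finset.Icc 1 N, χ (n : ZMod q) * (n : ℂ) ^ (-(⟨1 / 2 + κ, t⟩ : ℂ)) := by
      intro t
      simp only [hLN]
      refine Finset.sum_congr rfl fun n hn => ?_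
      rw [Finset.mem_Icc] at hn
      rw [hea, cpow_line hn.1]
      ring
    have hLNd : ∀ t, ‖χ.LFunction ⟨1 / 2 + κ, t⟩ - LN t‖ ≤
        2 * q * (1 + |t|) * (N : ℝ) ^ (-(1 / 2) : ℝ) := by
      intro t
      have hs0 : 0 < (⟨1 / 2 + κ, t⟩ : ℂ).re := by simp only; linarith
      rw [LFunction_eq hχ (N := N) hN hs0, hLNe]
      simp only [add_sub_cancel_left]
      have h1 := TM_norm_le hN (Ech_norm_le hχ N) hs0
      have h2 : ‖(⟨1 / 2 + κ, t⟩ : ℂ)‖ ≤ 1 + |t| := by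
        have h := Complex.norm_le_abs_re_add_abs_im (⟨1 / 2 + κ, t⟩ : ℂ)
        simp only at h
        rw [abs_of_pos (by linarith : 0 < 1 / 2 + κ)] at h
        linarith
      have hN1 : (1 : ℝ) ≤ N := by exact_mod_cast hN
      have h3 : (q : ℝ) * ((N : ℝ) ^ (-(⟨1 / 2 + κ, t⟩ : ℂ).re) / (⟨1 / 2 + κ, t⟩ : ℂ).re) ≤
          2 * q * (N : ℝ) ^ (-(1 / 2) : ℝ) := by
        simp only
        have h4 : (N : ℝ) ^ (-(1 / 2 + κ)) ≤ (N : ℝ) ^ (-(1 / 2) : ℝ) :=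
          Real.rpow_le_rpow_of_exponent_le hN1 (by linarith)
        have h5 : (N : ℝ) ^ (-(1 / 2 + κ)) / (1 / 2 + κ) ≤ 2 * (N : ℝ) ^ (-(1 / 2) : ℝ) := by
          rw [div_le_iff₀ (by linarith)]
          have : 0 ≤ (N : ℝ) ^ (-(1 / 2) : ℝ) := by positivity
          nlinarith
        have hq : (0 : ℝ) ≤ q := Nat.cast_nonneg q
        calc _ ≤ (q : ℝ) * (2 * (N : ℝ) ^ (-(1 / 2) : ℝ)) := by gcongr
          _ = _ := by ring
      rw [norm_mul]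
      calc _ ≤ (1 + |t|) * (2 * q * (N : ℝ) ^ (-(1 / 2) : ℝ)) :=
            mul_le_mul h2 (h1.trans h3) (norm_nonneg _) (by positivity)
        _ = _ := by ring
    have hno := near_orth3 N Mx (M + 1) hN hMx1 (by omega) ea eb ec (by rw [hea]; simp) hb1 hc1 (by
      intro n hn
      rw [Finset.mem_Icc] at hn
      rw [hea]
      simp only
      rw [norm_mul, norm_real, Real.norm_of_nonneg (by positivity)]
      have h1 := χ.norm_le_one (n : ZMod q)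
      have h2 : (n : ℝ) ^ (-(1 / 2 + κ)) ≤ 1 := by
        apply Real.rpow_le_one_of_one_le_of_nonpos
        · exact_mod_cast hn.1
        · linarith
      have h3 : 0 ≤ (n : ℝ) ^ (-(1 / 2 + κ)) := by positivity
      nlinarith [norm_nonneg (χ (n : ZMod q))]) hbn hcn
    have hno' : 1 / 2 ≤ ‖∫ t : ℝ, LN t * Q t * (ww t : ℂ)‖ := by
      refine hno.trans (le_of_eq ?_)
      congr 2
      funext t
      simp only [hLN, hQ]
      ring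
    have hLNc : Continuous LN := trig_cont N ea
    have hi1 : Integrable (fun t : ℝ => ww t * (‖χ.LFunction ⟨1 / 2 + κ, t⟩‖ * ‖Q t‖)) := by
      refine ((integrable_ww_poly.const_mul ((1 + 4 * q) * B))).mono'
        (ww_cont.mul (hLc.norm.mul hQc.norm)).aestronglyMeasurable (Eventually.of_forall fun t => ?_)
      have h0 : 0 ≤ ww t * (‖χ.LFunction ⟨1 / 2 + κ, t⟩‖ * ‖Q t‖) :=
        mul_nonneg (ww_pos t).le (by positivity)
      rw [Real.norm_of_nonneg h0]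
      calc ww t * (‖χ.LFunction ⟨1 / 2 + κ, t⟩‖ * ‖Q t‖)
          ≤ ww t * (((1 + 4 * q) * (1 + |t|)) * B) := by
            have := (ww_pos t).le
            gcongr
            · exact hLB t
            · exact hQB t
        _ = _ := by ring
    have hi2 : Integrable (fun t : ℝ => (2 * q * B * (N : ℝ) ^ (-(1 / 2) : ℝ)) *
        (ww t * (1 + |t|))) := integrable_ww_poly.const_mul _
    have h5 : ‖∫ t : ℝ, LN t * Q t * (ww t : ℂ)‖ ≤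
        ∫ t : ℝ, (ww t * (‖χ.LFunction ⟨1 / 2 + κ, t⟩‖ * ‖Q t‖) +
          (2 * q * B * (N : ℝ) ^ (-(1 / 2) : ℝ)) * (ww t * (1 + |t|))) := by
      refine norm_integral_le_of_norm_le (hi1.add hi2) (Eventually.of_forall fun t => ?_)
      rw [norm_mul, norm_mul, norm_real, Real.norm_of_nonneg (ww_pos t).le]
      have h6 : ‖LN t‖ ≤ ‖χ.LFunction ⟨1 / 2 + κ, t⟩‖ + 2 * q * (1 + |t|) * (N : ℝ) ^ (-(1 / 2) : ℝ) := by
        have := norm_sub_le (χ.LFunction ⟨1 / 2 + κ, t⟩) (χ.LFunction ⟨1 / 2 + κ, t⟩ - LN t)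
        rw [sub_sub_cancel] at this
        linarith [hLNd t]
      have h7 := hQB t
      have h8 := (ww_pos t).le
      have h9 : 0 ≤ 2 * q * (1 + |t|) * (N : ℝ) ^ (-(1 / 2) : ℝ) := by positivity
      calc ‖LN t‖ * ‖Q t‖ * ww t
          ≤ (‖χ.LFunction ⟨1 / 2 + κ, t⟩‖ + 2 * q * (1 + |t|) * (N : ℝ) ^ (-(1 / 2) : ℝ)) *
            ‖Q t‖ * ww t := by gcongr
        _ = ww t * (‖χ.LFunction ⟨1 / 2 + κ, t⟩‖ * ‖Q t‖) +
            (2 * q * (1 + |t|) * (N : ℝ) ^ (-(1 / 2) : ℝ)) * ‖Q t‖ * ww t := by ring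
        _ ≤ ww t * (‖χ.LFunction ⟨1 / 2 + κ, t⟩‖ * ‖Q t‖) +
            (2 * q * (1 + |t|) * (N : ℝ) ^ (-(1 / 2) : ℝ)) * B * ww t := by gcongr
        _ = _ := by ring
    rw [integral_add hi1 hi2, integral_const_mul] at h5
    have h10 : (2 * q * B * (N : ℝ) ^ (-(1 / 2) : ℝ)) * ∫ t : ℝ, ww t * (1 + |t|) =
      (2 * q * B * ∫ t : ℝ, ww t * (1 + |t|)) * (N : ℝ) ^ (-(1 / 2) : ℝ) := by ring
    rw [h10] at h5
    linarith
  -- limit
  have hlim : Tendsto (fun N : ℕ => 1 / 2 - (2 * q * B * ∫ t : ℝ, ww t * (1 + |t|)) *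
      (N : ℝ) ^ (-(1 / 2) : ℝ)) atTop (𝓝 (1 / 2 - (2 * q * B * ∫ t : ℝ, ww t * (1 + |t|)) * 0)) := by
    apply Tendsto.sub tendsto_const_nhds
    apply Tendsto.mul tendsto_const_nhds
    exact (tendsto_rpow_neg_atTop (by norm_num)).comp tendsto_natCast_atTop_atTop
  rw [mul_zero, sub_zero] at hlim
  refine le_of_tendsto hlim ?_
  filter_upwards [eventually_ge_atTop 1] with N hN
  exact key N hN

end Pool.Agent.NH13
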