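import Pool.Agent.NH13.FE
import Pool.Agent.H307R2.LU

/-!
# Growth of `L(s, χ)` in vertical strips
-/

set_option autoImplicit false

open Complex MeasureTheory Set Filter Topology

namespace Pool.Agent.NH13

open H370.DL H429.GP Pool.Agent.H307R2

/-- for `Re s ≥ 1/4` -/
theorem L_right {q : ℕ} [NeZero q] {χ : DirichletCharacter ℂ q} (hχ : χ ≠ 1) {s : ℂ}
    (hs : 1 / 4 ≤ s.re) : ‖χ.LFunction s‖ ≤ 1 + 4 * q * ‖s‖ := by
  have hs0 : 0 < s.re := by linarith
  rw [LFunction_eq hχ (N := 1) le_rfl hs0]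
  have h1 := TM_norm_le (N := 1) le_rfl (Ech_norm_le hχ 1) hs0
  have h2 : ‖∑ n ∈ Finset.Icc (1 : ℕ) 1, χ (n : ZMod q) * (n : ℂ) ^ (-s)‖ ≤ 1 := by
    simp
  refine (norm_add_le _ _).trans ?_
  rw [norm_mul]
  have h3 : (q : ℝ) * (((1 : ℕ) : ℝ) ^ (-s.re) / s.re) ≤ 4 * q := by
    rw [Nat.cast_one, Real.one_rpow]
    have : 1 / s.re ≤ 4 := by
      rw [div_le_iff₀ hs0]; linarith
    have hq : (0 : ℝ) ≤ q := Nat.cast_nonneg q
    nlinarith
  have h4 := mul_le_mul_of_nonneg_left (h1.trans h3) (norm_nonneg s)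
  linarith

lemma LF_dft {q : ℕ} [NeZero q] {χ : DirichletCharacter ℂ q} (hχ : χ.IsPrimitive) (s : ℂ) :
    ZMod.LFunction (ZMod.dft (χ : ZMod q → ℂ)) s =
      χ⁻¹ (-1) * gaussSum χ ZMod.stdAddChar * χ⁻¹.LFunction s := by
  have h : ZMod.dft (χ : ZMod q → ℂ) = fun j => χ⁻¹ (-1) * gaussSum χ ZMod.stdAddChar * χ⁻¹ j := by
    funext j
    rw [hχ.fourierTransform_eq_inv_mul_gaussSum, ← neg_one_mul j, map_mul, mul_right_comm]
  rw [h]
  unfold DirichletCharacter.LFunction ZMod.LFunction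
  rw [Finset.mul_sum, Finset.mul_sum, Finset.mul_sum]
  apply Finset.sum_congr rfl
  intro j _
  ring

lemma LF_dft' {q : ℕ} [NeZero q] {χ : DirichletCharacter ℂ q} (hχ : χ.IsPrimitive) (s : ℂ) :
    ZMod.LFunction (ZMod.dft (fun x : ZMod q => χ (-x))) s =
      χ (-1) * (χ⁻¹ (-1) * gaussSum χ ZMod.stdAddChar * χ⁻¹.LFunction s) := by
  have h0 : (fun x : ZMod q => χ (-x)) = χ (-1) • (χ : ZMod q → ℂ) := by
    funext x
    rw [Pi.smul_apply, smul_eq_mul, ← neg_one_mul x, map_mul]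
  rw [h0, map_smul, ← LF_dft hχ]
  unfold ZMod.LFunction
  rw [Finset.mul_sum, Finset.mul_sum, Finset.mul_sum]
  apply Finset.sum_congr rfl
  intro j _
  rw [Pi.smul_apply, smul_eq_mul]
  ring

lemma norm_gauss_le {q : ℕ} [NeZero q] (χ : DirichletCharacter ℂ q) :
    ‖gaussSum χ ZMod.stdAddChar‖ ≤ q := by
  unfold gaussSum
  refine (norm_sum_le _ _).trans ?_
  have : ∀ a ∈ (Finset.univ : Finset (ZMod q)), ‖χ a * ZMod.stdAddChar a‖ ≤ 1 := by
    intro a _
    rw [norm_mul]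
    have h1 := χ.norm_le_one a
    have h2 : ‖ZMod.stdAddChar (N := q) a‖ = 1 := AddChar.norm_apply _ _
    rw [h2, mul_one]
    exact h1
  refine (Finset.sum_le_sum this).trans ?_
  simp

/-- to the left of the critical strip, with the dependence on `q` -/
theorem L_left (B : ℝ) (hB : 1 ≤ B) : ∃ C : ℝ, 1 ≤ C ∧ ∀ (q : ℕ) [NeZero q]
    (χ : DirichletCharacter ℂ q), 2 ≤ q → χ.IsPrimitive → ∀ w : ℂ, -B ≤ w.re → w.re ≤ 3 / 4 →
      ‖χ.LFunction w‖ ≤ C * (q : ℝ) ^ (2 - w.re) * Real.exp (3 * |w.im|) := by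
  obtain ⟨m, M, hm, hmM, hG⟩ := gamma_range (a := 1 / 4) (b := 1 + B) (by norm_num) (by linarith)
  have hM : 0 < M := lt_of_lt_of_le hm hmM
  refine ⟨max 1 (2 * M * (9 * (1 + B))), le_max_left _ _, ?_⟩
  intro q _ χ hq hχ w h1 h2
  set s : ℂ := 1 - w with hs
  have hsre : s.re = 1 - w.re := by simp [hs]
  have hsim : s.im = -w.im := by simp [hs]
  have hs0 : 0 < s.re := by rw [hsre]; linarith
  have hq0 : (0 : ℝ) < q := by exact_mod_cast NeZero.pos q
  have hq1 : (2 : ℝ) ≤ q := by exact_mod_cast hq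
  have hne1 : χ ≠ 1 := ne_one_of_prim hq hχ
  have hinv : χ⁻¹ ≠ 1 := by
    intro h; exact hne1 (inv_eq_one.mp h)
  have hχ0 : (χ : ZMod q → ℂ) 0 = 0 := χ.map_zero' (by omega)
  have hfe := ZMod.LFunction_one_sub (N := q) (χ : ZMod q → ℂ) (s := s)
    (fun n h => by
      have := congrArg Complex.re h
      simp at this
      have hn : (0 : ℝ) ≤ n := Nat.cast_nonneg n
      linarith) (Or.inl hχ0)
  have hw : w = 1 - s := by rw [hs]; ring
  have e0 : χ.LFunction w = ZMod.LFunction (χ : ZMod q → ℂ) (1 - s) := by rw [hw]; rfl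
  rw [e0, hfe, LF_dft hχ, LF_dft' hχ]
  -- norms
  have n1 : ‖(q : ℂ) ^ (s - 1)‖ = (q : ℝ) ^ (s.re - 1) := by
    rw [norm_natCast_cpow_of_pos (NeZero.pos q)]; simp
  have n2 : ‖(2 * Real.pi : ℂ) ^ (-s)‖ ≤ 1 := by
    have e : (2 * Real.pi : ℂ) = ((2 * Real.pi : ℝ) : ℂ) := by push_cast; rfl
    rw [e, norm_cpow_eq_rpow_re_of_pos (by positivity)]
    apply Real.rpow_le_one_of_one_le_of_nonpos
    · linarith [Real.pi_gt_three]
    · simp; linarith
  have n3 : ‖Gamma s‖ ≤ M := by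
    have h3 := gamma_cmp (z := s) (k := 0) hs0 le_rfl
    have h4 : ‖Gamma s‖ ≤ Real.Gamma s.re := by
      have h5 := Complex.Gamma_eq_integral hs0
      rw [h5, Real.Gamma_eq_integral hs0]
      unfold Complex.GammaIntegral
      refine (norm_integral_le_integral_norm _).trans (le_of_eq ?_)
      apply setIntegral_congr_fun measurableSet_Ioi
      intro x hx
      have hx' : (0 : ℝ) < x := hx
      simp only
      rw [norm_mul, norm_cpow_eq_rpow_re_of_pos hx', norm_real, Real.norm_of_nonneg (Real.exp_pos _).le]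
      simp
    refine h4.trans (hG s.re ⟨by rw [hsre]; linarith, by rw [hsre]; linarith⟩).2
  have n4 : ‖cexp (Real.pi * I * s / 2)‖ ≤ Real.exp (2 * |w.im|) := by
    rw [norm_exp]
    apply Real.exp_le_exp.mpr
    have : (Real.pi * I * s / 2).re = -(Real.pi / 2 * s.im) := by
      simp
      ring
    rw [this, hsim]
    have h3 : w.im ≤ |w.im| := le_abs_self _
    have h4 : Real.pi / 2 ≤ 2 := by linarith [Real.pi_le_four]
    have h5 : 0 ≤ |w.im| := abs_nonneg _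
    nlinarith [Real.pi_pos]
  have n5 : ‖cexp (-Real.pi * I * s / 2)‖ ≤ Real.exp (2 * |w.im|) := by
    rw [norm_exp]
    apply Real.exp_le_exp.mpr
    have : (-Real.pi * I * s / 2).re = (Real.pi / 2 * s.im) := by
      simp
      ring
    rw [this, hsim]
    have h3 : -w.im ≤ |w.im| := neg_le_abs _
    have h4 : Real.pi / 2 ≤ 2 := by linarith [Real.pi_le_four]
    have h5 : 0 ≤ |w.im| := abs_nonneg _
    nlinarith [Real.pi_pos]
  have n6 : ‖χ⁻¹ (-1) * gaussSum χ ZMod.stdAddChar * χ⁻¹.LFunction s‖ ≤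
      q * (9 * (1 + B) * q * Real.exp |w.im|) := by
    rw [norm_mul, norm_mul]
    have a1 := χ⁻¹.norm_le_one (-1)
    have a2 := norm_gauss_le χ
    have a3 := L_right hinv (s := s) (by rw [hsre]; linarith)
    have a4 : ‖s‖ ≤ 1 + B + |w.im| := by
      have h := Complex.norm_le_abs_re_add_abs_im s
      rw [abs_of_pos hs0, hsim, abs_neg] at h
      linarith [hsre]
    have a5 : |w.im| + 1 ≤ Real.exp |w.im| := Real.add_one_le_exp _
    have a6 : 1 + 4 * (q : ℝ) * ‖s‖ ≤ 9 * (1 + B) * q * Real.exp |w.im| := by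
      have b1 : ‖s‖ ≤ (1 + B) * Real.exp |w.im| := by
        have : 0 ≤ |w.im| := abs_nonneg _
        nlinarith
      have b2 : 1 ≤ Real.exp |w.im| := Real.one_le_exp (abs_nonneg _)
      have b3 : 4 * (q : ℝ) * ‖s‖ ≤ 4 * q * ((1 + B) * Real.exp |w.im|) := by gcongr
      have b4 : 1 ≤ (q : ℝ) * ((1 + B) * Real.exp |w.im|) := by
        have c1 : 1 ≤ (1 + B) * Real.exp |w.im| := by nlinarith
        nlinarith
      nlinarith
    calc ‖χ⁻¹ (-1)‖ * ‖gaussSum χ ZMod.stdAddChar‖ * ‖χ⁻¹.LFunction s‖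
        ≤ 1 * q * (9 * (1 + B) * q * Real.exp |w.im|) := by
          gcongr
          exact a3.trans a6
      _ = _ := by ring
  have n7 : ‖χ (-1) * (χ⁻¹ (-1) * gaussSum χ ZMod.stdAddChar * χ⁻¹.LFunction s)‖ ≤
      q * (9 * (1 + B) * q * Real.exp |w.im|) := by
    rw [norm_mul]
    have a1 := χ.norm_le_one (-1)
    calc _ ≤ 1 * (q * (9 * (1 + B) * q * Real.exp |w.im|)) := by gcongr
      _ = _ := one_mul _
  have hE : Real.exp (2 * |w.im|) * Real.exp |w.im| = Real.exp (3 * |w.im|) := by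
    rw [← Real.exp_add]; congr 1; ring
  have hqq : (q : ℝ) ^ (s.re - 1) * (q * q) = (q : ℝ) ^ (2 - w.re) := by
    have : (q : ℝ) * q = (q : ℝ) ^ (2 : ℝ) := by
      rw [Real.rpow_two]; ring
    rw [this, ← Real.rpow_add hq0, hsre]
    congr 1
    ring
  calc ‖(q : ℂ) ^ (s - 1) * (2 * Real.pi : ℂ) ^ (-s) * Gamma s *
        (cexp (Real.pi * I * s / 2) * (χ⁻¹ (-1) * gaussSum χ ZMod.stdAddChar * χ⁻¹.LFunction s)
        + cexp (-Real.pi * I * s / 2) *
          (χ (-1) * (χ⁻¹ (-1) * gaussSum χ ZMod.stdAddChar * χ⁻¹.LFunction s)))‖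
      ≤ (q : ℝ) ^ (s.re - 1) * 1 * M *
        (Real.exp (2 * |w.im|) * (q * (9 * (1 + B) * q * Real.exp |w.im|)) +
         Real.exp (2 * |w.im|) * (q * (9 * (1 + B) * q * Real.exp |w.im|))) := by
        rw [norm_mul, norm_mul, norm_mul, n1]
        refine mul_le_mul (by gcongr) ?_ (norm_nonneg _) (by positivity)
        refine (norm_add_le _ _).trans (add_le_add ?_ ?_)
        · rw [norm_mul]; gcongr
        · rw [norm_mul]; gcongr
    _ = (2 * M * (9 * (1 + B))) * ((q : ℝ) ^ (s.re - 1) * (q * q)) *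
        (Real.exp (2 * |w.im|) * Real.exp |w.im|) := by ring
    _ = (2 * M * (9 * (1 + B))) * (q : ℝ) ^ (2 - w.re) * Real.exp (3 * |w.im|) := by
        rw [hE, hqq]
    _ ≤ _ := by
        gcongr
        exact le_max_right _ _

/-- a crude bound in a strip -/
theorem L_strip (B : ℝ) (hB : 1 ≤ B) : ∃ C : ℝ, 1 ≤ C ∧ ∀ (q : ℕ) [NeZero q]
    (χ : DirichletCharacter ℂ q), 2 ≤ q → χ.IsPrimitive → ∀ w : ℂ, -B ≤ w.re → w.re ≤ B →
      ‖χ.LFunction w‖ ≤ C * (q : ℝ) ^ (2 + B) * Real.exp (3 * |w.im|) := by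
  obtain ⟨C, hC, h⟩ := L_left B hB
  refine ⟨max C (9 * B), hC.trans (le_max_left _ _), ?_⟩
  intro q _ χ hq hχ w h1 h2
  have hq0 : (0 : ℝ) < q := by exact_mod_cast NeZero.pos q
  have hq1 : (1 : ℝ) ≤ q := by exact_mod_cast NeZero.one_le
  rcases le_total w.re (3 / 4) with h3 | h3
  · refine (h q χ hq hχ w h1 h3).trans ?_
    have : (q : ℝ) ^ (2 - w.re) ≤ (q : ℝ) ^ (2 + B) :=
      Real.rpow_le_rpow_of_exponent_le hq1 (by linarith)
    gcongr
    exact le_max_left _ _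
  · have a3 := L_right (ne_one_of_prim hq hχ) (s := w) (by linarith)
    refine a3.trans ?_
    have a4 : ‖w‖ ≤ B + |w.im| := by
      have h := Complex.norm_le_abs_re_add_abs_im w
      rw [abs_of_pos (by linarith : 0 < w.re)] at h
      linarith
    have a5 : |w.im| + 1 ≤ Real.exp |w.im| := Real.add_one_le_exp _
    have a7 : Real.exp |w.im| ≤ Real.exp (3 * |w.im|) := by
      apply Real.exp_le_exp.mpr
      have : 0 ≤ |w.im| := abs_nonneg _
      linarith
    have a8 : (q : ℝ) ≤ (q : ℝ) ^ (2 + B) := by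
      nth_rewrite 1 [← Real.rpow_one (q : ℝ)]
      exact Real.rpow_le_rpow_of_exponent_le hq1 (by linarith)
    have a6 : 1 + 4 * (q : ℝ) * ‖w‖ ≤ 9 * B * q * Real.exp |w.im| := by
      have b1 : ‖w‖ ≤ B * Real.exp |w.im| := by
        have : 0 ≤ |w.im| := abs_nonneg _
        nlinarith
      have b2 : 1 ≤ Real.exp |w.im| := Real.one_le_exp (abs_nonneg _)
      have b3 : 4 * (q : ℝ) * ‖w‖ ≤ 4 * q * (B * Real.exp |w.im|) := by gcongr
      have b4 : 1 ≤ (q : ℝ) * (B * Real.exp |w.im|) := by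
        have c1 : 1 ≤ B * Real.exp |w.im| := by nlinarith
        nlinarith
      nlinarith
    refine a6.trans ?_
    have h9 : 9 * B ≤ max C (9 * B) := le_max_right _ _
    gcongr

end Pool.Agent.NH13
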