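import Pool.Agent.NH13.Core

/-!
# The kernel `K^z e^{z²} ((e^{hz} - 1)/(hz))^m` and the contour inequality
-/

set_option autoImplicit false

open Complex MeasureTheory Set Filter Topology

namespace Pool.Agent.NH13

/-- `(e^z - 1)/z` -/
noncomputable def ee (z : ℂ) : ℂ := dslope cexp 0 z

lemma ee_diff : Differentiable ℂ ee := by
  unfold ee
  rw [← differentiableOn_univ]
  exact (Complex.differentiableOn_dslope Filter.univ_mem).2 Complex.differentiable_exp.differentiableOn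

lemma ee_zero : ee 0 = 1 := by
  unfold ee
  rw [dslope_same]
  simp

lemma ee_of_ne {z : ℂ} (hz : z ≠ 0) : ee z = (cexp z - 1) / z := by
  unfold ee
  rw [dslope_of_ne _ hz, slope_def_field]
  simp

lemma ee_le1 (z : ℂ) : ‖ee z‖ ≤ Real.exp (max z.re 0) := by
  rcases eq_or_ne z 0 with rfl | hz
  · rw [ee_zero]; simp
  have h : ‖cexp z - cexp 0‖ ≤ Real.exp (max z.re 0) * ‖z - 0‖ := by
    apply Convex.norm_image_sub_le_of_norm_deriv_le (s := {w : ℂ | w.re ≤ max z.re 0}) (f := cexp)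
    · intro x _
      exact Complex.differentiableAt_exp
    · intro x hx
      rw [Complex.deriv_exp, Complex.norm_exp]
      exact Real.exp_le_exp.mpr hx
    · exact convex_halfSpace_re_le _
    · simp
    · simp
  rw [ee_of_ne hz, norm_div]
  rw [Complex.exp_zero, sub_zero] at h
  rw [div_le_iff₀ (norm_pos_iff.mpr hz)]
  exact h

lemma ee_le2 (z : ℂ) : ‖z‖ * ‖ee z‖ ≤ 1 + Real.exp (max z.re 0) := by
  rcases eq_or_ne z 0 with rfl | hz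
  · simp
  rw [ee_of_ne hz, norm_div, mul_div_cancel₀ _ (norm_pos_iff.mpr hz).ne']
  refine (norm_sub_le _ _).trans ?_
  rw [norm_one, Complex.norm_exp, add_comm]
  have := Real.exp_le_exp.mpr (le_max_left z.re 0)
  linarith

lemma ee_le (z : ℂ) : ‖ee z‖ ≤ 3 * Real.exp (max z.re 0) / (1 + ‖z‖) := by
  rw [le_div_iff₀ (by positivity)]
  have h1 := ee_le1 z
  have h2 := ee_le2 z
  have h3 : 1 ≤ Real.exp (max z.re 0) := Real.one_le_exp (le_max_right _ _)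
  calc ‖ee z‖ * (1 + ‖z‖) = ‖ee z‖ + ‖z‖ * ‖ee z‖ := by ring
    _ ≤ _ := by linarith

/-- the kernel -/
noncomputable def kk (K h : ℝ) (m : ℕ) (z : ℂ) : ℂ := ker K z * ee (h * z) ^ m

lemma kk_diff (K h : ℝ) (m : ℕ) : Differentiable ℂ (kk K h m) := by
  unfold kk
  have h1 : Differentiable ℂ (fun z : ℂ => ee (h * z)) := ee_diff.comp (by fun_prop)
  exact (ker_diff K).mul (h1.pow m)

lemma kk_zero (K h : ℝ) (m : ℕ) : kk K h m 0 = 1 := by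
  unfold kk
  rw [mul_zero, ee_zero]
  simp [ker]

lemma norm_kk {K h : ℝ} (hK : 0 < K) (hh : 0 < h) (m : ℕ) (x y : ℝ) :
    ‖kk K h m ⟨x, y⟩‖ ≤ K ^ x * Real.exp (x ^ 2) * Real.exp (-(y ^ 2)) *
      (3 * Real.exp (max (h * x) 0) / (1 + h * |y|)) ^ m := by
  unfold kk
  rw [norm_mul, norm_ker hK, norm_pow]
  have h1 := ee_le (h * (⟨x, y⟩ : ℂ))
  have e1 : ((h : ℂ) * (⟨x, y⟩ : ℂ)).re = h * x := by simp
  have e2 : h * |y| ≤ ‖(h : ℂ) * (⟨x, y⟩ : ℂ)‖ := by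
    rw [norm_mul, norm_real, Real.norm_of_nonneg hh.le]
    have : |y| ≤ ‖(⟨x, y⟩ : ℂ)‖ := Complex.abs_im_le_norm (⟨x, y⟩ : ℂ)
    gcongr
  rw [e1] at h1
  have h2 : ‖ee (h * (⟨x, y⟩ : ℂ))‖ ≤ 3 * Real.exp (max (h * x) 0) / (1 + h * |y|) := by
    refine h1.trans ?_
    gcongr
  gcongr

lemma strip_decay2 {g : ℂ → ℂ} {K h a b D T : ℝ} (m : ℕ) (hK : 0 < K) (hh : 0 < h) (hD : 0 ≤ D)
    (hg : ∀ x ∈ Icc a b, ∀ y : ℝ, ‖g ⟨x, y⟩‖ ≤ D * Real.exp (3 * (T + |y|))) :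
    ∃ C : ℝ, ∀ x ∈ Icc a b, ∀ y : ℝ, ‖g ⟨x, y⟩ * kk K h m ⟨x, y⟩‖ ≤ C * Real.exp (-(y ^ 2 / 2)) := by
  obtain ⟨C, hC⟩ := strip_decay hK hD hg
  refine ⟨C * (3 * Real.exp (max (h * b) 0)) ^ m, fun x hx y => ?_⟩
  have h1 := hC x hx y
  unfold kk
  rw [← mul_assoc, norm_mul (g ⟨x, y⟩ * ker K ⟨x, y⟩), norm_pow]
  have h2 : ‖ee (h * (⟨x, y⟩ : ℂ))‖ ≤ 3 * Real.exp (max (h * b) 0) := by
    refine (ee_le1 _).trans ?_
    have e1 : ((h : ℂ) * (⟨x, y⟩ : ℂ)).re = h * x := by simp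
    rw [e1]
    have h3 : Real.exp (max (h * x) 0) ≤ Real.exp (max (h * b) 0) := by
      apply Real.exp_le_exp.mpr
      apply max_le_max _ le_rfl
      exact mul_le_mul_of_nonneg_left hx.2 hh.le
    have := Real.exp_pos (max (h * b) 0)
    linarith
  have hC0 : 0 ≤ C * Real.exp (-(y ^ 2 / 2)) := (norm_nonneg _).trans h1
  calc _ ≤ (C * Real.exp (-(y ^ 2 / 2))) * (3 * Real.exp (max (h * b) 0)) ^ m := by gcongr
    _ = _ := by ring

/-- the contour inequality -/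
theorem contour_gen {R D : ℂ → ℂ} (hR : Differentiable ℂ R) (hD : Differentiable ℂ D)
    {K h a b c E T : ℝ} (m : ℕ) (hK : 0 < K) (hh : 0 < h) (ha : 0 < a) (hc : 0 < c) (hcb : c ≤ b)
    (hE : 0 ≤ E)
    (gR : ∀ x ∈ Icc (-a) b, ∀ y : ℝ, ‖R ⟨x, y⟩‖ ≤ E * Real.exp (3 * (T + |y|)))
    (gD : ∀ x ∈ Icc (-a) b, ∀ y : ℝ, ‖D ⟨x, y⟩‖ ≤ E * Real.exp (3 * (T + |y|))) :
    2 * Real.pi * ‖R 0‖ ≤
      (∫ y : ℝ, ‖(R ⟨b, y⟩ - D ⟨b, y⟩) * kk K h m ⟨b, y⟩ / (⟨b, y⟩ : ℂ)‖) +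
      (∫ y : ℝ, ‖D ⟨c, y⟩ * kk K h m ⟨c, y⟩ / (⟨c, y⟩ : ℂ)‖) +
      (∫ y : ℝ, ‖R ⟨-a, y⟩ * kk K h m ⟨-a, y⟩ / (⟨-a, y⟩ : ℂ)‖) := by
  have hb : 0 < b := lt_of_lt_of_le hc hcb
  set f1 : ℂ → ℂ := fun z => R z * kk K h m z with hf1
  set f2 : ℂ → ℂ := fun z => D z * kk K h m z with hf2
  have hD1 : Differentiable ℂ f1 := hR.mul (kk_diff K h m)
  have hD2 : Differentiable ℂ f2 := hD.mul (kk_diff K h m)
  obtain ⟨C1, hC1⟩ := strip_decay2 (g := R) (a := -a) (b := b) m hK hh hE gR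
  obtain ⟨C2, hC2⟩ := strip_decay2 (g := D) (a := -a) (b := b) m hK hh hE gD
  have hr1 := shift_res hD1 (a := -a) (b := b) (C := C1) (by linarith) hb (fun x hx y => hC1 x hx y)
  have hr2 := shift_right hD2 (a := c) (b := b) (C := C2) hc hcb
    (fun x hx y => hC2 x ⟨by linarith [hx.1], hx.2⟩ y)
  have hi1b := int_line hD1.continuous hb.ne' (fun y => hC1 b ⟨by linarith, le_rfl⟩ y)
  have hi2b := int_line hD2.continuous hb.ne' (fun y => hC2 b ⟨by linarith, le_rfl⟩ y)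
  have hsplit : (∫ y : ℝ, f1 ⟨b, y⟩ / (⟨b, y⟩ : ℂ)) =
      (∫ y : ℝ, (f1 ⟨b, y⟩ / (⟨b, y⟩ : ℂ) - f2 ⟨b, y⟩ / (⟨b, y⟩ : ℂ))) +
        ∫ y : ℝ, f2 ⟨c, y⟩ / (⟨c, y⟩ : ℂ) := by
    rw [integral_sub hi1b hi2b, hr2]
    ring
  have hf10 : f1 0 = R 0 := by
    simp only [hf1, kk_zero, mul_one]
  rw [hf10, hsplit] at hr1
  have h6 := congrArg norm hr1
  have hpi : ‖(2 * Real.pi : ℂ)‖ = 2 * Real.pi := by
    rw [norm_mul, norm_real, Real.norm_of_nonneg Real.pi_pos.le]; norm_num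
  rw [norm_mul, hpi] at h6
  rw [h6]
  refine (norm_sub_le _ _).trans (add_le_add ((norm_add_le _ _).trans (add_le_add ?_ ?_)) ?_)
  · refine (norm_integral_le_integral_norm _).trans (le_of_eq ?_)
    congr 1
    funext y
    congr 1
    simp only [hf1, hf2]
    ring
  · exact norm_integral_le_integral_norm _
  · exact norm_integral_le_integral_norm _

end Pool.Agent.NH13
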