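import Pool.Agent.NH13.Growth
import Pool.Agent.H442R2.TSM.QShort
import Pool.Agent.H343R2.PV

/-!
# Mean square of `L(1/2 + κ + it, χ)` over the primitive characters of one modulus
-/

set_option autoImplicit false

open Complex MeasureTheory Set Filter Topology

namespace Pool.Agent.NH13

open Pool.Agent.H307R2

lemma rpow_step {a : ℝ} (ha : 0 < a) {N : ℕ} (hN : 1 ≤ N) :
    ((N : ℝ) + 1) ^ (-1 - a) ≤ ((N : ℝ) ^ (-a) - ((N : ℝ) + 1) ^ (-a)) / a := by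
  have hN0 : (0 : ℝ) < N := by exact_mod_cast hN
  have hN1 : (0 : ℝ) < (N : ℝ) + 1 := by linarith
  rw [le_div_iff₀ ha]
  have h1 : ((N : ℝ) + 1) ^ (-1 - a) = ((N : ℝ) + 1) ^ (-a) * (1 / ((N : ℝ) + 1)) := by
    rw [show -1 - a = -a + (-1) by ring, Real.rpow_add hN1, Real.rpow_neg_one, one_div]
  have h2 : (N : ℝ) ^ (-a) = ((N : ℝ) + 1) ^ (-a) * ((N : ℝ) / (N + 1)) ^ (-a) := by
    rw [← Real.mul_rpow hN1.le (by positivity)]
    congr 1
    field_simp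
  have h3 : 1 + a * (1 / ((N : ℝ) + 1)) ≤ ((N : ℝ) / (N + 1)) ^ (-a) := by
    rw [Real.rpow_def_of_pos (by positivity)]
    have h4 := Real.add_one_le_exp (Real.log ((N : ℝ) / (N + 1)) * -a)
    have h5 := Real.log_le_sub_one_of_pos (show 0 < (N : ℝ) / (N + 1) by positivity)
    have h6 : (N : ℝ) / (N + 1) - 1 = -(1 / ((N : ℝ) + 1)) := by
      field_simp; ring
    rw [h6] at h5
    nlinarith
  have h7 : 0 < ((N : ℝ) + 1) ^ (-a) := Real.rpow_pos_of_pos hN1 _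
  rw [h1, h2]
  nlinarith

lemma sum_rpow_le {a : ℝ} (ha : 0 < a) (N : ℕ) :
    ∑ n ∈ Finset.Icc 1 N, (n : ℝ) ^ (-1 - a) ≤ 1 + 1 / a := by
  have h : ∀ N : ℕ, 1 ≤ N → ∑ n ∈ Finset.Icc 1 N, (n : ℝ) ^ (-1 - a) ≤
      1 + (1 - (N : ℝ) ^ (-a)) / a := by
    intro N hN
    induction N, hN using Nat.le_induction with
    | base => simp
    | succ n hn ih =>
      rw [Finset.sum_Icc_succ_top (by omega)]
      have := rpow_step ha hn
      push_cast
      have e : (1 - ((n : ℝ) + 1) ^ (-a)) / a =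
        (1 - (n : ℝ) ^ (-a)) / a + ((n : ℝ) ^ (-a) - ((n : ℝ) + 1) ^ (-a)) / a := by ring
      rw [e]
      linarith
  rcases Nat.eq_zero_or_pos N with rfl | hN
  · simp; positivity
  · refine (h N hN).trans ?_
    have : 0 ≤ (N : ℝ) ^ (-a) := by positivity
    gcongr
    linarith

/-- Bessel's inequality for one period -/
theorem bessel (q : ℕ) [NeZero q] (hq : 2 ≤ q) (c : ℕ → ℂ) :
    ∑ χ : DirichletCharacter ℂ q, ‖∑ n ∈ Finset.Icc 1 q, χ (n : ZMod q) * c n‖ ^ 2 ≤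
      (q.totient : ℝ) * ∑ n ∈ Finset.Icc 1 q, ‖c n‖ ^ 2 := by
  have h0 : Finset.Icc 1 q = insert q (Finset.Ico 1 q) := by
    ext x; simp only [Finset.mem_Icc, Finset.mem_insert, Finset.mem_Ico]; omega
  have hr : Finset.range q = insert 0 (Finset.Ico 1 q) := by
    ext x; simp only [Finset.mem_range, Finset.mem_insert, Finset.mem_Ico]; omega
  let C : ZMod q → ℂ := fun a => if a.val = 0 then 0 else c a.val
  have hsum : ∀ g : ZMod q → ℂ, ∑ a : ZMod q, g a = ∑ n ∈ Finset.range q, g (n : ZMod q) :=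
    fun g => (H343.Gauss.sum_range_eq q g).symm
  have h1 : ∀ χ : DirichletCharacter ℂ q, ∑ n ∈ Finset.Icc 1 q, χ (n : ZMod q) * c n =
      ∑ a, χ a * C a := by
    intro χ
    have hχ0 : χ ((0 : ℕ) : ZMod q) = 0 := by
      rw [Nat.cast_zero]; exact χ.map_zero' (by omega)
    rw [hsum, hr, h0, Finset.sum_insert (by simp), Finset.sum_insert (by simp), hχ0,
      ZMod.natCast_self, ← Nat.cast_zero, hχ0, zero_mul, zero_mul, zero_add, zero_add]
    apply Finset.sum_congr rfl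
    intro n hn
    rw [Finset.mem_Ico] at hn
    simp only [C]
    rw [ZMod.val_cast_of_lt hn.2, if_neg (by omega)]
  have h2 : ∑ a : ZMod q, ‖C a‖ ^ 2 ≤ ∑ n ∈ Finset.Icc 1 q, ‖c n‖ ^ 2 := by
    have h3 := hsum (fun a => ((‖C a‖ ^ 2 : ℝ) : ℂ))
    have h4 : ∑ a : ZMod q, ‖C a‖ ^ 2 = ∑ n ∈ Finset.range q, ‖C (n : ZMod q)‖ ^ 2 := by
      exact_mod_cast h3
    rw [h4, hr, Finset.sum_insert (by simp), h0, Finset.sum_insert (by simp)]
    have h5 : ‖C ((0 : ℕ) : ZMod q)‖ ^ 2 = 0 := by simp [C]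
    rw [h5]
    have h6 : ∑ n ∈ Finset.Ico 1 q, ‖C (n : ZMod q)‖ ^ 2 = ∑ n ∈ Finset.Ico 1 q, ‖c n‖ ^ 2 := by
      apply Finset.sum_congr rfl
      intro n hn
      rw [Finset.mem_Ico] at hn
      simp only [C]
      rw [ZMod.val_cast_of_lt hn.2, if_neg (by omega)]
    rw [h6]
    have : 0 ≤ ‖c q‖ ^ 2 := by positivity
    linarith
  calc _ = ∑ χ : DirichletCharacter ℂ q, ‖∑ a, χ a * C a‖ ^ 2 :=
        Finset.sum_congr rfl fun χ _ => by rw [h1]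
    _ ≤ (q.totient : ℝ) * ∑ a, ‖C a‖ ^ 2 := Pool.Agent.H442R2.TSM.TaskQJ.planch q C
    _ ≤ _ := by gcongr

/-- pointwise: `L` against the sum up to `q` -/
lemma L_approx {q : ℕ} [NeZero q] (hq : 2 ≤ q) {χ : DirichletCharacter ℂ q} (hχ : χ.IsPrimitive)
    {κ : ℝ} (hκ : 0 < κ) (hκ2 : κ ≤ 1 / 2) (hlog : (1 + Real.log q) * (q : ℝ) ^ (-κ) ≤ 1) (t : ℝ) :
    ‖χ.LFunction ⟨1 / 2 + κ, t⟩ -
      ∑ n ∈ Finset.Icc 1 q, χ (n : ZMod q) * (n : ℂ) ^ (-(⟨1 / 2 + κ, t⟩ : ℂ))‖ ≤ 4 * (1 + |t|) := by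
  have hne := ne_one_of_prim hq hχ
  set s : ℂ := ⟨1 / 2 + κ, t⟩ with hs
  have hsre : s.re = 1 / 2 + κ := rfl
  have hs0 : 0 < s.re := by rw [hsre]; linarith
  rw [LFunction_eq hne (N := q) (by omega) hs0, add_sub_cancel_left]
  have hq0 : (0 : ℝ) < q := by exact_mod_cast NeZero.pos q
  have hE : ∀ t, ‖Ech χ q t‖ ≤ 2 * (Real.sqrt q * (1 + Real.log q)) := by
    intro t
    unfold Ech
    rcases le_total ⌊t⌋₊ q with h | h
    · rw [Finset.Ioc_eq_empty_of_le h, Finset.sum_empty, norm_zero]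
      have : 0 ≤ Real.log q := Real.log_natCast_nonneg q
      positivity
    · have h1 := H343.PVaux.PV_plain q ⌊t⌋₊ hq χ hχ
      have h2 := H343.PVaux.PV_plain q q hq χ hχ
      have h3 : ∑ k ∈ Finset.Ioc q ⌊t⌋₊, χ (k : ZMod q) = ∑ k ∈ Finset.Icc 1 ⌊t⌋₊, χ (k : ZMod q) -
          ∑ k ∈ Finset.Icc 1 q, χ (k : ZMod q) := by
        have h4 : Finset.Icc 1 ⌊t⌋₊ = Finset.Icc 1 q ∪ Finset.Ioc q ⌊t⌋₊ := by
          ext x; simp only [Finset.mem_Icc, Finset.mem_union, Finset.mem_Ioc]; omega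
        have h5 : Disjoint (Finset.Icc 1 q) (Finset.Ioc q ⌊t⌋₊) := by
          rw [Finset.disjoint_left]
          intro x hx hx'
          rw [Finset.mem_Icc] at hx
          rw [Finset.mem_Ioc] at hx'
          omega
        rw [h4, Finset.sum_union h5]
        ring
      rw [h3]
      refine (norm_sub_le _ _).trans ?_
      linarith
  have h1 := TM_norm_le (N := q) (by omega) hE hs0
  rw [norm_mul]
  have h2 : ‖s‖ ≤ 1 + |t| := by
    have h := Complex.norm_le_abs_re_add_abs_im s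
    rw [hsre, abs_of_pos (by linarith : 0 < 1 / 2 + κ)] at h
    have : s.im = t := rfl
    rw [this] at h
    linarith
  have h3 : 2 * (Real.sqrt q * (1 + Real.log q)) * ((q : ℝ) ^ (-s.re) / s.re) ≤ 4 := by
    have e1 : Real.sqrt q = (q : ℝ) ^ (1 / 2 : ℝ) := Real.sqrt_eq_rpow _
    have e2 : (q : ℝ) ^ (-s.re) = (q : ℝ) ^ (-(1 / 2) : ℝ) * (q : ℝ) ^ (-κ) := by
      rw [← Real.rpow_add hq0, hsre]; congr 1; ring
    have e3 : (q : ℝ) ^ (1 / 2 : ℝ) * (q : ℝ) ^ (-(1 / 2) : ℝ) = 1 := by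
      rw [← Real.rpow_add hq0]; simp
    have e4 : 1 / s.re ≤ 2 := by
      rw [div_le_iff₀ hs0, hsre]; linarith
    have e5 : 0 ≤ (1 + Real.log q) * (q : ℝ) ^ (-κ) := by
      have : 0 ≤ Real.log q := Real.log_natCast_nonneg q
      positivity
    calc 2 * (Real.sqrt q * (1 + Real.log q)) * ((q : ℝ) ^ (-s.re) / s.re)
        = 2 * ((q : ℝ) ^ (1 / 2 : ℝ) * (q : ℝ) ^ (-(1 / 2) : ℝ)) *
          ((1 + Real.log q) * (q : ℝ) ^ (-κ)) * (1 / s.re) := by rw [e1, e2]; ring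
      _ = 2 * ((1 + Real.log q) * (q : ℝ) ^ (-κ)) * (1 / s.re) := by rw [e3]; ring
      _ ≤ 2 * 1 * 2 := by
          have : 0 ≤ 1 / s.re := by positivity
          gcongr
      _ = 4 := by norm_num
  calc ‖s‖ * ‖TM q (Ech χ q) s‖ ≤ (1 + |t|) * 4 := by
        apply mul_le_mul h2 (h1.trans h3) (norm_nonneg _) (by positivity)
    _ = _ := by ring

open Classical in
/-- the set of primitive characters -/
noncomputable def Prim (q : ℕ) [NeZero q] : Finset (DirichletCharacter ℂ q) :=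
  Finset.univ.filter (fun χ => χ.IsPrimitive)

lemma mem_Prim {q : ℕ} [NeZero q] {χ : DirichletCharacter ℂ q} : χ ∈ Prim q ↔ χ.IsPrimitive := by
  unfold Prim
  simp

lemma card_Prim_le (q : ℕ) [NeZero q] : ((Prim q).card : ℝ) ≤ q.totient := by
  have h1 : (Prim q).card ≤ Fintype.card (DirichletCharacter ℂ q) := Finset.card_le_univ _
  have h2 : Fintype.card (DirichletCharacter ℂ q) = q.totient := by
    rw [← Nat.card_eq_fintype_card]
    exact DirichletCharacter.card_eq_totient_of_hasEnoughRootsOfUnity ℂ q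
  rw [h2] at h1
  exact_mod_cast h1

theorem mean_sq {q : ℕ} [NeZero q] (hq : 2 ≤ q) {κ : ℝ} (hκ : 0 < κ) (hκ2 : κ ≤ 1 / 2)
    (hlog : (1 + Real.log q) * (q : ℝ) ^ (-κ) ≤ 1) (t : ℝ) :
    ∑ χ ∈ Prim q, ‖χ.LFunction ⟨1 / 2 + κ, t⟩‖ ^ 2 ≤ 18 * (q.totient : ℝ) * (1 + |t|) ^ 2 / κ := by
  set s : ℂ := ⟨1 / 2 + κ, t⟩ with hs
  have h1 : ∀ χ ∈ Prim q, ‖χ.LFunction s‖ ^ 2 ≤
      2 * ‖∑ n ∈ Finset.Icc 1 q, χ (n : ZMod q) * (n : ℂ) ^ (-s)‖ ^ 2 + 32 * (1 + |t|) ^ 2 := by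
    intro χ hχ
    have h := L_approx hq (mem_Prim.mp hχ) hκ hκ2 hlog t
    rw [← hs] at h
    set S := ∑ n ∈ Finset.Icc 1 q, χ (n : ZMod q) * (n : ℂ) ^ (-s) with hS
    have h2 : ‖χ.LFunction s‖ ≤ ‖S‖ + 4 * (1 + |t|) := by
      have := norm_add_le (χ.LFunction s - S) S
      rw [sub_add_cancel] at this
      linarith
    have h3 : 0 ≤ ‖S‖ := norm_nonneg _
    have h4 : 0 ≤ 4 * (1 + |t|) := by positivity
    calc ‖χ.LFunction s‖ ^ 2 ≤ (‖S‖ + 4 * (1 + |t|)) ^ 2 := by gcongr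
      _ ≤ 2 * ‖S‖ ^ 2 + 2 * (4 * (1 + |t|)) ^ 2 := by nlinarith [sq_nonneg (‖S‖ - 4 * (1 + |t|))]
      _ = _ := by ring
  have h2 := Finset.sum_le_sum h1
  rw [Finset.sum_add_distrib, ← Finset.mul_sum, Finset.sum_const, nsmul_eq_mul] at h2
  have h3 : ∑ χ ∈ Prim q, ‖∑ n ∈ Finset.Icc 1 q, χ (n : ZMod q) * (n : ℂ) ^ (-s)‖ ^ 2 ≤
      (q.totient : ℝ) * (1 + 1 / (2 * κ)) := by
    calc _ ≤ ∑ χ : DirichletCharacter ℂ q,
          ‖∑ n ∈ Finset.Icc 1 q, χ (n : ZMod q) * (n : ℂ) ^ (-s)‖ ^ 2 :=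
          Finset.sum_le_sum_of_subset_of_nonneg (Finset.subset_univ _) fun _ _ _ => by positivity
      _ ≤ (q.totient : ℝ) * ∑ n ∈ Finset.Icc 1 q, ‖(n : ℂ) ^ (-s)‖ ^ 2 :=
          bessel q hq (fun n => (n : ℂ) ^ (-s))
      _ ≤ (q.totient : ℝ) * (1 + 1 / (2 * κ)) := by
          gcongr
          refine le_trans (le_of_eq ?_) (sum_rpow_le (a := 2 * κ) (by linarith) q)
          apply Finset.sum_congr rfl
          intro n hn
          rw [Finset.mem_Icc] at hn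
          have hn0 : (0 : ℝ) < n := by exact_mod_cast (by omega : 0 < n)
          rw [norm_natCast_cpow_of_pos (by omega), ← Real.rpow_natCast, ← Real.rpow_mul hn0.le]
          congr 1
          simp [hs]
          ring
  have hc := card_Prim_le q
  have hφ : (0 : ℝ) ≤ q.totient := Nat.cast_nonneg _
  have hk : 1 / 2 ≤ 1 / κ * (1 / 4) := by
    rw [← mul_div_assoc, mul_one, div_div, div_le_div_iff₀ (by norm_num) (by positivity)]
    linarith
  have hk2 : 2 ≤ 1 / κ := by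
    rw [le_div_iff₀ hκ]; linarith
  have hA : 1 ≤ (1 + |t|) ^ 2 := by
    have : 0 ≤ |t| := abs_nonneg t
    nlinarith
  calc ∑ χ ∈ Prim q, ‖χ.LFunction s‖ ^ 2
      ≤ 2 * ((q.totient : ℝ) * (1 + 1 / (2 * κ))) + (q.totient : ℝ) * (32 * (1 + |t|) ^ 2) := by
        refine h2.trans ?_
        gcongr
    _ = (q.totient : ℝ) * (2 + 1 / κ + 32 * (1 + |t|) ^ 2) := by
        field_simp
    _ ≤ (q.totient : ℝ) * (18 * (1 + |t|) ^ 2 * (1 / κ)) := by
        apply mul_le_mul_of_nonneg_left _ hφ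
        have h5 : 32 * (1 + |t|) ^ 2 ≤ 16 * (1 + |t|) ^ 2 * (1 / κ) := by nlinarith
        have h6 : 2 + 1 / κ ≤ 2 * (1 + |t|) ^ 2 * (1 / κ) := by nlinarith
        linarith
    _ = _ := by ring

end Pool.Agent.NH13
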