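import Pool.Agent.NH13.PWin

/-!
# Bounds for `L'`, for the prime polynomial, and the tail far to the right
-/

set_option autoImplicit false

open Complex MeasureTheory Set Filter Topology

namespace Pool.Agent.NH13

open ArithmeticFunction (vonMangoldt)

/-- Cauchy's estimate with radius `1` -/
lemma cauchy_one {f : ℂ → ℂ} (hf : Differentiable ℂ f) {w : ℂ} {D : ℝ}
    (h : ∀ z : ℂ, |z.re - w.re| ≤ 1 → |z.im| ≤ |w.im| + 1 → ‖f z‖ ≤ D) : ‖deriv f w‖ ≤ D := by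
  have h1 := Complex.norm_deriv_le_of_forall_mem_sphere_norm_le (c := w) (R := 1) (C := D) (f := f)
    one_pos hf.diffContOnCl (by
      intro z hz
      rw [Metric.mem_sphere, dist_eq_norm] at hz
      apply h
      · have := Complex.abs_re_le_norm (z - w)
        rw [Complex.sub_re] at this
        linarith
      · have h2 := Complex.abs_im_le_norm (z - w)
        rw [Complex.sub_im, hz] at h2
        have h3 : |z.im| = |w.im + (z.im - w.im)| := by congr 1; ring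
        rw [h3]
        exact (abs_add_le _ _).trans (by linarith))
  simpa using h1

lemma exp_shift {x y : ℝ} (h : x ≤ y + 1) : Real.exp (3 * x) ≤ Real.exp 3 * Real.exp (3 * y) := by
  rw [← Real.exp_add]
  apply Real.exp_le_exp.mpr
  linarith

theorem dL_left (B : ℝ) (hB : 1 ≤ B) : ∃ C : ℝ, 1 ≤ C ∧ ∀ (q : ℕ) [NeZero q]
    (χ : DirichletCharacter ℂ q), 2 ≤ q → χ.IsPrimitive → ∀ w : ℂ, -B ≤ w.re → w.re ≤ -1 / 4 →
      ‖deriv χ.LFunction w‖ ≤ C * (q : ℝ) ^ (3 - w.re) * Real.exp (3 * |w.im|) := by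
  obtain ⟨C, hC, h⟩ := L_left (B + 1) (by linarith)
  refine ⟨C * Real.exp 3, ?_, ?_⟩
  · have := Real.one_le_exp (show (0 : ℝ) ≤ 3 by norm_num)
    nlinarith
  intro q _ χ hq hχ w h1 h2
  have hq1 : (1 : ℝ) ≤ q := by exact_mod_cast NeZero.one_le
  refine cauchy_one (DirichletCharacter.differentiable_LFunction (ne_one_of_prim hq hχ)) ?_
  intro z hz1 hz2
  rw [abs_le] at hz1
  refine (h q χ hq hχ z (by linarith) (by linarith)).trans ?_
  have h3 : (q : ℝ) ^ (2 - z.re) ≤ (q : ℝ) ^ (3 - w.re) :=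
    Real.rpow_le_rpow_of_exponent_le hq1 (by linarith)
  have h4 := exp_shift hz2
  calc C * (q : ℝ) ^ (2 - z.re) * Real.exp (3 * |z.im|)
      ≤ C * (q : ℝ) ^ (3 - w.re) * (Real.exp 3 * Real.exp (3 * |w.im|)) := by gcongr
    _ = _ := by ring

theorem dL_strip (B : ℝ) (hB : 1 ≤ B) : ∃ C : ℝ, 1 ≤ C ∧ ∀ (q : ℕ) [NeZero q]
    (χ : DirichletCharacter ℂ q), 2 ≤ q → χ.IsPrimitive → ∀ w : ℂ, -B ≤ w.re → w.re ≤ B →
      ‖deriv χ.LFunction w‖ ≤ C * (q : ℝ) ^ (3 + B) * Real.exp (3 * |w.im|) := by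
  obtain ⟨C, hC, h⟩ := L_strip (B + 1) (by linarith)
  refine ⟨C * Real.exp 3, ?_, ?_⟩
  · have := Real.one_le_exp (show (0 : ℝ) ≤ 3 by norm_num)
    nlinarith
  intro q _ χ hq hχ w h1 h2
  refine cauchy_one (DirichletCharacter.differentiable_LFunction (ne_one_of_prim hq hχ)) ?_
  intro z hz1 hz2
  rw [abs_le] at hz1
  refine (h q χ hq hχ z (by linarith) (by linarith)).trans ?_
  have h4 := exp_shift hz2
  have e : (2 : ℝ) + (B + 1) = 3 + B := by ring
  rw [e]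
  calc C * (q : ℝ) ^ (3 + B) * Real.exp (3 * |z.im|)
      ≤ C * (q : ℝ) ^ (3 + B) * (Real.exp 3 * Real.exp (3 * |w.im|)) := by gcongr
    _ = _ := by ring

/-- the prime polynomial -/
noncomputable def Pol {q : ℕ} (χ : DirichletCharacter ℂ q) (S : Finset ℕ) (w : ℂ) : ℂ :=
  ∑ n ∈ S, (vonMangoldt n : ℂ) * χ (n : ZMod q) * (n : ℂ) ^ (-w)

lemma vm_le (n : ℕ) : vonMangoldt n ≤ n := by
  rcases Nat.eq_zero_or_pos n with rfl | hn
  · simp
  · have hn0 : (0 : ℝ) < n := by exact_mod_cast hn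
    have := Real.log_le_sub_one_of_pos hn0
    exact ArithmeticFunction.vonMangoldt_le_log.trans (by linarith)

lemma norm_coef_le {q : ℕ} (χ : DirichletCharacter ℂ q) (n : ℕ) :
    ‖(vonMangoldt n : ℂ) * χ (n : ZMod q)‖ ≤ vonMangoldt n := by
  rw [norm_mul, norm_real, Real.norm_of_nonneg ArithmeticFunction.vonMangoldt_nonneg]
  have := χ.norm_le_one (n : ZMod q)
  have h0 : (0 : ℝ) ≤ vonMangoldt n := ArithmeticFunction.vonMangoldt_nonneg
  nlinarith

lemma norm_term_le {q : ℕ} (χ : DirichletCharacter ℂ q) {n : ℕ} (hn : 1 ≤ n) (w : ℂ) :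
    ‖(vonMangoldt n : ℂ) * χ (n : ZMod q) * (n : ℂ) ^ (-w)‖ ≤ (n : ℝ) ^ (1 - w.re) := by
  have hn0 : (0 : ℝ) < n := by exact_mod_cast hn
  rw [norm_mul, norm_natCast_cpow_of_pos hn]
  have e : (n : ℝ) ^ (1 - w.re) = n * (n : ℝ) ^ ((-w).re) := by
    rw [Complex.neg_re]
    rw [show 1 - w.re = 1 + (-w.re) by ring, Real.rpow_add hn0, Real.rpow_one]
  rw [e]
  have := (norm_coef_le χ n).trans (vm_le n)
  gcongr

lemma Pol_differentiable {q : ℕ} (χ : DirichletCharacter ℂ q) {S : Finset ℕ} (hS : 0 ∉ S) :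
    Differentiable ℂ (Pol χ S) := by
  unfold Pol
  apply Differentiable.fun_sum
  intro n hn w
  have hn0 : (n : ℂ) ≠ 0 := by
    have : n ≠ 0 := fun h => hS (h ▸ hn)
    exact_mod_cast this
  exact (differentiableAt_id.neg.const_cpow (Or.inl hn0)).const_mul _

/-- bound to the left -/
lemma Pol_le {q : ℕ} (χ : DirichletCharacter ℂ q) {X b : ℝ} (hX : 1 ≤ X) (hb : 0 ≤ b) {S : Finset ℕ}
    (hS : S ⊆ Finset.Icc 1 ⌊X⌋₊) {w : ℂ} (hw : -b ≤ w.re) : ‖Pol χ S w‖ ≤ X ^ (2 + b) := by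
  unfold Pol
  have hX0 : 0 < X := by linarith
  have h1 : ∀ n ∈ S, ‖(vonMangoldt n : ℂ) * χ (n : ZMod q) * (n : ℂ) ^ (-w)‖ ≤ X ^ (1 + b) := by
    intro n hn
    have hn' := Finset.mem_Icc.mp (hS hn)
    refine (norm_term_le χ hn'.1 w).trans ?_
    have hn1 : (1 : ℝ) ≤ n := by exact_mod_cast hn'.1
    have hn2 : (n : ℝ) ≤ X := (Nat.le_floor_iff hX0.le).mp hn'.2
    calc (n : ℝ) ^ (1 - w.re) ≤ (n : ℝ) ^ (1 + b) :=
          Real.rpow_le_rpow_of_exponent_le hn1 (by linarith)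
      _ ≤ X ^ (1 + b) := Real.rpow_le_rpow (by linarith) hn2 (by linarith)
  refine (norm_sum_le_of_le _ h1).trans ?_
  rw [Finset.sum_const, nsmul_eq_mul]
  have h2 : (S.card : ℝ) ≤ X := by
    have h3 := Finset.card_le_card hS
    rw [Nat.card_Icc, Nat.add_sub_cancel] at h3
    calc (S.card : ℝ) ≤ (⌊X⌋₊ : ℝ) := by exact_mod_cast h3
      _ ≤ X := Nat.floor_le hX0.le
  have e : X ^ (2 + b) = X * X ^ (1 + b) := by
    rw [show 2 + b = 1 + (1 + b) by ring, Real.rpow_add hX0 1, Real.rpow_one]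
  rw [e]
  gcongr

lemma tail_sum_le {f : ℕ → ℂ} {σ Y : ℝ} (hσ : 3 ≤ σ) (hY : 1 ≤ Y)
    (hf : ∀ n : ℕ, 1 ≤ n → ‖f n‖ ≤ (n : ℝ) ^ (1 - σ)) (hf0 : f 0 = 0) :
    Summable f ∧ ‖(∑' n, f n) - ∑ n ∈ Finset.Icc 1 ⌊Y⌋₊, f n‖ ≤ 2 * Y ^ (3 - σ) := by
  have hY0 : 0 < Y := by linarith
  have hsq : ∀ n : ℕ, 1 ≤ n → (n : ℝ) ^ (1 - σ) = (n : ℝ) ^ (3 - σ) * ((n : ℝ) ^ 2)⁻¹ := by
    intro n hn
    have hn0 : (0 : ℝ) < n := by exact_mod_cast hn
    rw [show 1 - σ = (3 - σ) + -((2 : ℕ) : ℝ) by push_cast; ring, Real.rpow_add hn0, Real.rpow_neg hn0.le,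
      Real.rpow_natCast]
  have hs2 : Summable (fun n : ℕ => ((n : ℝ) ^ 2)⁻¹) := Real.summable_nat_pow_inv.mpr (by norm_num)
  have hbd : ∀ n : ℕ, ‖f n‖ ≤ ((n : ℝ) ^ 2)⁻¹ := by
    intro n
    rcases Nat.eq_zero_or_pos n with rfl | hn
    · rw [hf0]; simp
    · refine (hf n hn).trans ?_
      rw [hsq n hn]
      have h1 : (n : ℝ) ^ (3 - σ) ≤ 1 := by
        apply Real.rpow_le_one_of_one_le_of_nonpos
        · exact_mod_cast hn
        · linarith
      have h2 : 0 ≤ ((n : ℝ) ^ 2)⁻¹ := by positivity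
      nlinarith
  have hsum : Summable f := Summable.of_norm_bounded hs2 hbd
  refine ⟨hsum, ?_⟩
  set M := ⌊Y⌋₊ with hM
  have h1 : ∑ n ∈ Finset.Icc 1 M, f n = ∑ n ∈ Finset.range (M + 1), f n := by
    have : Finset.range (M + 1) = insert 0 (Finset.Icc 1 M) := by
      ext x; simp only [Finset.mem_range, Finset.mem_insert, Finset.mem_Icc]; omega
    rw [this, Finset.sum_insert (by simp), hf0, zero_add]
  rw [h1, ← hsum.sum_add_tsum_nat_add (M + 1), add_sub_cancel_left]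
  have h2 : ∀ n : ℕ, ‖f (n + (M + 1))‖ ≤ Y ^ (3 - σ) * (((n + (M + 1) : ℕ) : ℝ) ^ 2)⁻¹ := by
    intro n
    refine (hf _ (by omega)).trans ?_
    rw [hsq _ (by omega)]
    have h3 : Y ≤ ((n + (M + 1) : ℕ) : ℝ) := by
      have := Nat.lt_floor_add_one Y
      rw [← hM] at this
      push_cast
      have hn : (0 : ℝ) ≤ n := Nat.cast_nonneg n
      linarith
    have h4 : ((n + (M + 1) : ℕ) : ℝ) ^ (3 - σ) ≤ Y ^ (3 - σ) :=
      Real.rpow_le_rpow_of_nonpos hY0 h3 (by linarith)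
    gcongr
  have hs3 : Summable (fun n : ℕ => (((n + (M + 1) : ℕ) : ℝ) ^ 2)⁻¹) :=
    (summable_nat_add_iff (f := fun n : ℕ => ((n : ℝ) ^ 2)⁻¹) (M + 1)).mpr hs2
  have h5 : ∑' n : ℕ, (((n + (M + 1) : ℕ) : ℝ) ^ 2)⁻¹ ≤ 2 := by
    apply Real.tsum_le_of_sum_range_le (fun n => by positivity)
    intro N
    have h6 : ∑ i ∈ Finset.range N, (((i + (M + 1) : ℕ) : ℝ) ^ 2)⁻¹ ≤
        ∑ i ∈ Finset.Icc 1 (N + M + 1), ((i : ℝ) ^ 2)⁻¹ := by
      have h7 : ∑ i ∈ Finset.range N, (((i + (M + 1) : ℕ) : ℝ) ^ 2)⁻¹ =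
          ∑ i ∈ (Finset.range N).image (fun i => i + (M + 1)), ((i : ℝ) ^ 2)⁻¹ := by
        rw [Finset.sum_image (by intro a _ b _ h; simpa using h)]
      rw [h7]
      apply Finset.sum_le_sum_of_subset_of_nonneg
      · intro x hx
        simp only [Finset.mem_image, Finset.mem_range] at hx
        obtain ⟨a, ha, rfl⟩ := hx
        rw [Finset.mem_Icc]
        omega
      · intro i _ _; positivity
    exact h6.trans (sum_inv_sq _)
  refine (tsum_of_norm_bounded ((hs3.mul_left (Y ^ (3 - σ))).hasSum) h2).trans ?_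
  rw [tsum_mul_left]
  have : 0 ≤ Y ^ (3 - σ) := by positivity
  nlinarith

/-- far to the right -/
theorem far_right {q : ℕ} [NeZero q] (χ : DirichletCharacter ℂ q) {Y : ℝ}
    (hY : 1 ≤ Y) {w : ℂ} (hw : 3 ≤ w.re) :
    ‖deriv χ.LFunction w + χ.LFunction w * Pol χ (Finset.Icc 1 ⌊Y⌋₊) w‖ ≤ 8 * Y ^ (3 - w.re) := by
  have hw1 : 1 < w.re := by linarith
  have hne : LSeries (fun n => χ (n : ZMod q)) w ≠ 0 := by
    rw [← DirichletCharacter.LFunction_eq_LSeries χ hw1]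
    exact DirichletCharacter.LFunction_ne_zero_of_one_le_re χ (Or.inr (by
      intro h; rw [h] at hw1; simp at hw1)) (by linarith)
  have h1 := DirichletCharacter.LSeries_twist_vonMangoldt_eq χ hw1
  have e0 : ∀ n : ℕ, n ≠ 0 → LSeries.term (fun n : ℕ => χ (n : ZMod q) * (vonMangoldt n : ℂ)) w n =
      (vonMangoldt n : ℂ) * χ (n : ZMod q) * (n : ℂ) ^ (-w) := by
    intro n hn
    rw [LSeries.term_of_ne_zero hn, cpow_neg]
    ring
  set f : ℕ → ℂ := fun n => (vonMangoldt n : ℂ) * χ (n : ZMod q) * (n : ℂ) ^ (-w) with hf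
  have hf0 : f 0 = 0 := by simp [hf]
  have h2 := tail_sum_le (f := f) hw hY (fun n hn => norm_term_le χ hn w) hf0
  have e1 : LSeries ((fun n : ℕ => χ (n : ZMod q)) * (fun n : ℕ => (vonMangoldt n : ℂ))) w =
      ∑' n, f n := by
    unfold LSeries
    apply tsum_congr
    intro n
    rcases Nat.eq_zero_or_pos n with rfl | hn
    · rw [LSeries.term_zero, hf0]
    · exact e0 n hn.ne'
  rw [e1] at h1
  have e2 : deriv χ.LFunction w = -(χ.LFunction w * ∑' n, f n) := by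
    rw [h1, DirichletCharacter.LFunction_eq_LSeries χ hw1,
      DirichletCharacter.deriv_LFunction_eq_deriv_LSeries χ hw1]
    field_simp
  have e3 : deriv χ.LFunction w + χ.LFunction w * Pol χ (Finset.Icc 1 ⌊Y⌋₊) w =
      -(χ.LFunction w * ((∑' n, f n) - ∑ n ∈ Finset.Icc 1 ⌊Y⌋₊, f n)) := by
    rw [e2]; unfold Pol; ring
  have h3 : ‖χ.LFunction w‖ ≤ 4 := by
    set g : ℕ → ℂ := fun n => LSeries.term (fun n : ℕ => χ (n : ZMod q)) w n with hg
    have h4 := tail_sum_le (f := g) hw (Y := 1) le_rfl (by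
      intro n hn
      simp only [hg]
      rw [LSeries.term_of_ne_zero (by omega), norm_div, norm_natCast_cpow_of_pos hn]
      have hn1 : (1 : ℝ) ≤ n := by exact_mod_cast hn
      have hn0 : (0 : ℝ) < n := by linarith
      rw [div_le_iff₀ (by positivity), ← Real.rpow_add hn0]
      have h5 := χ.norm_le_one (n : ZMod q)
      have h6 : (1 : ℝ) ≤ (n : ℝ) ^ (1 - w.re + w.re) := by
        rw [sub_add_cancel, Real.rpow_one]; exact hn1
      linarith) (by simp [hg])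
    have h5 : χ.LFunction w = ∑' n, g n := by
      rw [DirichletCharacter.LFunction_eq_LSeries χ hw1]; rfl
    rw [h5]
    have h6 : ∑ n ∈ Finset.Icc 1 ⌊(1 : ℝ)⌋₊, g n = 1 := by
      simp [hg, LSeries.term_of_ne_zero]
    have h7 := h4.2
    rw [h6, Real.one_rpow] at h7
    have h8 := norm_add_le ((∑' n, g n) - 1) 1
    rw [sub_add_cancel, norm_one] at h8
    linarith
  rw [e3, norm_neg, norm_mul]
  have := h2.2
  calc _ ≤ 4 * (2 * Y ^ (3 - w.re)) := by gcongr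
    _ = _ := by ring

end Pool.Agent.NH13
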