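import Pool.Agent.NH13.Quad
import Pool.Agent.NH13.PrimOrth
import Pool.Agent.NH13.Poly

/-!
# The mollifier
-/

set_option autoImplicit false

open Finset

namespace Pool.Agent.NH13

open ArithmeticFunction (moebius)
open H385 (phs)

/-- the mollifier -/
noncomputable def MM {q : ℕ} (χ : DirichletCharacter ℂ q) (X : ℝ) (w : ℂ) : ℂ :=
  ∑ m ∈ Icc 1 ⌊Real.exp X⌋₊, ac X (-w) m * χ (m : ZMod q)

/-- the truncation of `L(u) M(w₀)` -/
noncomputable def DD {q : ℕ} (χ : DirichletCharacter ℂ q) (X : ℝ) (w₀ : ℂ) (N : ℕ) (u : ℂ) : ℂ :=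
  ∑ k ∈ Icc 1 N, (Complex.exp (-u * Real.log k) *
    ∑ m ∈ (Icc 1 ⌊Real.exp X⌋₊).filter (fun m => m ∣ k), ac X (u - w₀) m) * χ (k : ZMod q)

lemma ac_diff (X : ℝ) (w₀ : ℂ) (m : ℕ) : Differentiable ℂ (fun u : ℂ => ac X (u - w₀) m) := by
  unfold ac; fun_prop

lemma DD_diff {q : ℕ} (χ : DirichletCharacter ℂ q) (X : ℝ) (w₀ : ℂ) (N : ℕ) :
    Differentiable ℂ (DD χ X w₀ N) := by
  unfold DD
  apply Differentiable.fun_sum
  intro k _
  apply Differentiable.mul_const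
  apply Differentiable.mul (by fun_prop)
  apply Differentiable.fun_sum
  intro m _
  exact ac_diff X w₀ m

lemma ac_norm_le {X : ℝ} (hX : 1 ≤ X) {m : ℕ} (hm : m ∈ Icc 1 ⌊Real.exp X⌋₊) (w : ℂ) :
    ‖ac X w m‖ ≤ Real.exp (w.re * Real.log m) := by
  rw [mem_Icc] at hm
  have hm0 : (0 : ℝ) < m := by exact_mod_cast hm.1
  have hX0 : 0 < X := by linarith
  have h1 : Real.log m ≤ X := by
    rw [Real.log_le_iff_le_exp hm0]
    exact (Nat.le_floor_iff (Real.exp_pos _).le).1 hm.2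
  have h2 : 0 ≤ Real.log m := Real.log_natCast_nonneg m
  unfold ac
  rw [norm_mul, norm_mul, Complex.norm_real, Complex.norm_real, Complex.norm_exp,
    Complex.re_mul_ofReal, Real.norm_eq_abs]
  have h3 := abs_moebius_le m
  have h4 : ‖(1 - Real.log m / X : ℝ)‖ ≤ 1 := by
    rw [Real.norm_eq_abs, abs_le]
    have h5 : Real.log m / X ≤ 1 := by rw [div_le_one hX0]; exact h1
    have h6 : 0 ≤ Real.log m / X := by positivity
    constructor <;> linarith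
  calc |(moebius m : ℝ)| * ‖(1 - Real.log m / X : ℝ)‖ * Real.exp (w.re * Real.log m)
      ≤ 1 * 1 * Real.exp (w.re * Real.log m) := by gcongr
    _ = _ := by ring

lemma card_M_le {X : ℝ} : ((Icc 1 ⌊Real.exp X⌋₊).card : ℝ) ≤ Real.exp X := by
  rw [Nat.card_Icc, Nat.add_sub_cancel]
  exact Nat.floor_le (Real.exp_pos _).le

lemma MM_norm_le {q : ℕ} (χ : DirichletCharacter ℂ q) {X : ℝ} (hX : 1 ≤ X) {w : ℂ} (hw : 0 ≤ w.re) :
    ‖MM χ X w‖ ≤ Real.exp X := by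
  unfold MM
  have h1 : ∀ m ∈ Icc 1 ⌊Real.exp X⌋₊, ‖ac X (-w) m * χ (m : ZMod q)‖ ≤ 1 := by
    intro m hm
    rw [norm_mul]
    have h2 := ac_norm_le hX hm (-w)
    have h3 := χ.norm_le_one (m : ZMod q)
    have h4 : Real.exp ((-w).re * Real.log m) ≤ 1 := by
      rw [Real.exp_le_one_iff, Complex.neg_re]
      have := Real.log_natCast_nonneg m
      nlinarith
    calc ‖ac X (-w) m‖ * ‖χ (m : ZMod q)‖ ≤ 1 * 1 := by
          gcongr
          exact h2.trans h4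
      _ = 1 := one_mul _
  refine (norm_sum_le_of_le _ h1).trans ?_
  rw [Finset.sum_const, nsmul_eq_mul, mul_one]
  exact card_M_le

/-- the truncation as a product -/
lemma DD_eq {q : ℕ} (χ : DirichletCharacter ℂ q) (X : ℝ) (w₀ : ℂ) (N : ℕ) (u : ℂ) :
    DD χ X w₀ N u = ∑ m ∈ Icc 1 ⌊Real.exp X⌋₊, ac X (-w₀) m * χ (m : ZMod q) *
      ∑ n ∈ Icc 1 (N / m), Complex.exp (-u * Real.log n) * χ (n : ZMod q) := by
  have h1 : DD χ X w₀ N u = ∑ m ∈ Icc 1 ⌊Real.exp X⌋₊, ∑ k ∈ (Icc 1 N).filter (fun k => m ∣ k),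
      Complex.exp (-u * Real.log k) * ac X (u - w₀) m * χ (k : ZMod q) := by
    unfold DD
    have h2 : ∀ k ∈ Icc 1 N, (Complex.exp (-u * Real.log k) *
        ∑ m ∈ (Icc 1 ⌊Real.exp X⌋₊).filter (fun m => m ∣ k), ac X (u - w₀) m) * χ (k : ZMod q) =
        ∑ m ∈ Icc 1 ⌊Real.exp X⌋₊, if m ∣ k then
          Complex.exp (-u * Real.log k) * ac X (u - w₀) m * χ (k : ZMod q) else 0 := by
      intro k _
      rw [Finset.sum_filter, Finset.mul_sum, Finset.sum_mul]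
      apply Finset.sum_congr rfl
      intro m _
      split_ifs <;> simp
    rw [Finset.sum_congr rfl h2, Finset.sum_comm]
    apply Finset.sum_congr rfl
    intro m _
    rw [Finset.sum_filter]
  rw [h1]
  apply Finset.sum_congr rfl
  intro m hm
  rw [mem_Icc] at hm
  rw [sum_mult _ N m hm.1, Finset.mul_sum]
  apply Finset.sum_congr rfl
  intro n hn
  rw [mem_Icc] at hn
  have hm0 : (0 : ℝ) < m := by exact_mod_cast hm.1
  have hn0 : (0 : ℝ) < n := by exact_mod_cast hn.1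
  have e1 : Real.log ((m * n : ℕ) : ℝ) = Real.log m + Real.log n := by
    push_cast
    rw [Real.log_mul hm0.ne' hn0.ne']
  rw [e1]
  unfold ac
  generalize Real.log (m : ℝ) = a
  generalize Real.log (n : ℝ) = b
  push_cast
  rw [map_mul]
  have e2 : Complex.exp (-u * ((a : ℂ) + b)) * Complex.exp ((u - w₀) * a) =
      Complex.exp (-w₀ * a) * Complex.exp (-u * b) := by
    rw [← Complex.exp_add, ← Complex.exp_add]; congr 1; ring
  linear_combination ((moebius m : ℂ) * (1 - (a : ℂ) / X) * χ (m : ZMod q) *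
    χ (n : ZMod q)) * e2

lemma L_tail {q : ℕ} [NeZero q] (χ : DirichletCharacter ℂ q) {Y : ℝ} (hY : 1 ≤ Y) {u : ℂ}
    (hu : 3 ≤ u.re) :
    ‖χ.LFunction u - ∑ n ∈ Icc 1 ⌊Y⌋₊, Complex.exp (-u * Real.log n) * χ (n : ZMod q)‖ ≤
      2 * Y ^ (3 - u.re) := by
  have hu1 : 1 < u.re := by linarith
  set g : ℕ → ℂ := fun n => LSeries.term (fun n : ℕ => χ (n : ZMod q)) u n with hg
  have h4 := tail_sum_le (f := g) hu hY (by
    intro n hn
    simp only [hg]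
    rw [LSeries.term_of_ne_zero (by omega), norm_div, Complex.norm_natCast_cpow_of_pos hn]
    have hn1 : (1 : ℝ) ≤ n := by exact_mod_cast hn
    have hn0 : (0 : ℝ) < n := by linarith
    rw [div_le_iff₀ (by positivity), ← Real.rpow_add hn0]
    have h5 := χ.norm_le_one (n : ZMod q)
    have h6 : (1 : ℝ) ≤ (n : ℝ) ^ (1 - u.re + u.re) := by
      rw [sub_add_cancel, Real.rpow_one]; exact hn1
    linarith) (by simp [hg])
  have h5 : χ.LFunction u = ∑' n, g n := by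
    rw [DirichletCharacter.LFunction_eq_LSeries χ hu1]; rfl
  rw [h5]
  have h6 : ∑ n ∈ Icc 1 ⌊Y⌋₊, Complex.exp (-u * Real.log n) * χ (n : ZMod q) =
      ∑ n ∈ Icc 1 ⌊Y⌋₊, g n := by
    apply Finset.sum_congr rfl
    intro n hn
    rw [mem_Icc] at hn
    have hn0 : (n : ℂ) ≠ 0 := by exact_mod_cast (by omega : n ≠ 0)
    simp only [hg]
    rw [LSeries.term_of_ne_zero (by omega), Complex.cpow_def_of_ne_zero hn0, ← Complex.natCast_log,
      neg_mul, Complex.exp_neg, div_eq_mul_inv, mul_comm u, mul_comm]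
  rw [h6]
  exact h4.2

/-- far to the right -/
theorem DD_far {q : ℕ} [NeZero q] (χ : DirichletCharacter ℂ q) {X Y : ℝ} (hX : 1 ≤ X)
    (hY : Real.exp X ≤ Y) {w₀ u : ℂ} (hw : 0 ≤ w₀.re) (hu : 3 ≤ u.re) :
    ‖χ.LFunction u * MM χ X w₀ - DD χ X w₀ ⌊Y⌋₊ u‖ ≤
      2 * Real.exp X * (Y / Real.exp X) ^ (3 - u.re) := by
  rw [DD_eq]
  unfold MM
  rw [Finset.mul_sum, ← Finset.sum_sub_distrib]
  have h1 : ∀ m ∈ Icc 1 ⌊Real.exp X⌋₊, ‖χ.LFunction u * (ac X (-w₀) m * χ (m : ZMod q)) -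
      ac X (-w₀) m * χ (m : ZMod q) *
      ∑ n ∈ Icc 1 (⌊Y⌋₊ / m), Complex.exp (-u * Real.log n) * χ (n : ZMod q)‖ ≤
      2 * (Y / Real.exp X) ^ (3 - u.re) := by
    intro m hm
    have hm' := mem_Icc.1 hm
    have hm0 : (0 : ℝ) < m := by exact_mod_cast hm'.1
    have hmX : (m : ℝ) ≤ Real.exp X := (Nat.le_floor_iff (Real.exp_pos _).le).1 hm'.2
    have e1 : χ.LFunction u * (ac X (-w₀) m * χ (m : ZMod q)) - ac X (-w₀) m * χ (m : ZMod q) *
        ∑ n ∈ Icc 1 (⌊Y⌋₊ / m), Complex.exp (-u * Real.log n) * χ (n : ZMod q) =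
        ac X (-w₀) m * χ (m : ZMod q) * (χ.LFunction u - ∑ n ∈ Icc 1 ⌊Y / m⌋₊,
          Complex.exp (-u * Real.log n) * χ (n : ZMod q)) := by
      rw [Nat.floor_div_natCast]; ring
    rw [e1, norm_mul, norm_mul]
    have hYm : 1 ≤ Y / m := by rw [le_div_iff₀ hm0]; linarith
    have h2 := L_tail χ hYm hu
    have h3 : ‖ac X (-w₀) m‖ ≤ 1 := by
      refine (ac_norm_le hX hm (-w₀)).trans ?_
      rw [Real.exp_le_one_iff, Complex.neg_re]
      have := Real.log_natCast_nonneg m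
      nlinarith
    have h4 := χ.norm_le_one (m : ZMod q)
    have h5 : (Y / m) ^ (3 - u.re) ≤ (Y / Real.exp X) ^ (3 - u.re) := by
      apply Real.rpow_le_rpow_of_nonpos
      · have := Real.exp_pos X
        have : 0 < Y := by linarith
        positivity
      · have := Real.exp_pos X
        have hY0 : 0 < Y := by linarith
        gcongr
      · linarith
    calc ‖ac X (-w₀) m‖ * ‖χ (m : ZMod q)‖ * _ ≤ 1 * 1 * (2 * (Y / m) ^ (3 - u.re)) := by gcongr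
      _ ≤ 1 * 1 * (2 * (Y / Real.exp X) ^ (3 - u.re)) := by gcongr
      _ = _ := by ring
  refine (norm_sum_le_of_le _ h1).trans ?_
  rw [Finset.sum_const, nsmul_eq_mul]
  have h2 := card_M_le (X := X)
  have h3 : 0 ≤ (Y / Real.exp X) ^ (3 - u.re) := by
    have := Real.exp_pos X
    have hY0 : 0 < Y := by linarith
    positivity
  calc _ ≤ Real.exp X * (2 * (Y / Real.exp X) ^ (3 - u.re)) := by gcongr
    _ = _ := by ring

/-- the mean square of the truncation -/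
theorem DD_sq : ∃ C : ℝ, 1 ≤ C ∧ ∀ (q : ℕ) [NeZero q] (X : ℝ) (w₀ u : ℂ) (N : ℕ), 1 ≤ X →
    1 / 2 < u.re → |(u - w₀).re| * X ≤ 1 →
    ∑ χ ∈ Prim q, ‖DD χ X w₀ N u‖ ^ 2 ≤ ((phs q : ℝ) + N * q.divisors.card) *
      (C * (1 + 1 / (2 * u.re - 1)) / X * (1 + (‖u - w₀‖ + (2 * u.re - 1)) * X) ^ 4) := by
  obtain ⟨C, hC, h⟩ := quad_form
  refine ⟨C, hC, ?_⟩
  intro q _ X w₀ u N hX hu hw
  have h1 := prim_orth q (fun k => Complex.exp (-u * Real.log k) *
    ∑ m ∈ (Icc 1 ⌊Real.exp X⌋₊).filter (fun m => m ∣ k), ac X (u - w₀) m) N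
  refine h1.trans ?_
  have h2 := h (2 * u.re - 1) X (u - w₀) N (by linarith) hX hw
  have h3 : ∑ n ∈ Icc 1 N, ‖Complex.exp (-u * Real.log n) *
      ∑ m ∈ (Icc 1 ⌊Real.exp X⌋₊).filter (fun m => m ∣ n), ac X (u - w₀) m‖ ^ 2 =
      ∑ k ∈ Icc 1 N, (k : ℝ) ^ (-(1 + (2 * u.re - 1))) *
      ‖∑ m ∈ (Icc 1 ⌊Real.exp X⌋₊).filter (fun m => m ∣ k), ac X (u - w₀) m‖ ^ 2 := by
    apply Finset.sum_congr rfl
    intro k hk
    rw [mem_Icc] at hk
    have hk0 : (0 : ℝ) < k := by exact_mod_cast hk.1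
    rw [norm_mul, mul_pow, Complex.norm_exp, Complex.re_mul_ofReal, ← Real.exp_nat_mul,
      Real.rpow_def_of_pos hk0]
    congr 2
    simp
    ring
  rw [h3]
  gcongr

end Pool.Agent.NH13
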