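import Pool.Agent.NH13.Wt
import Pool.Agent.NH13.Moll
import Pool.Agent.NH13.FEfine

/-!
# The mollified `L`-function: the pointwise inequality
-/

set_option autoImplicit false

open Complex MeasureTheory Set Filter Topology

namespace Pool.Agent.NH13

open H385 (phs)

/-- the mollified `L` -/
noncomputable def LM {q : ℕ} [NeZero q] (χ : DirichletCharacter ℂ q) (κ κ' t y : ℝ) : ℝ :=
  ‖χ.LFunction ⟨1 / 2 + κ', t + y⟩‖ * ‖MM χ (1 / κ) ⟨1 / 2 + κ, t⟩‖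

lemma LM_nonneg {q : ℕ} [NeZero q] (χ : DirichletCharacter ℂ q) (κ κ' t y : ℝ) :
    0 ≤ LM χ κ κ' t y := mul_nonneg (norm_nonneg _) (norm_nonneg _)

/-- a crude bound for the truncation -/
lemma DD_bdd {q : ℕ} (χ : DirichletCharacter ℂ q) {X : ℝ} (hX : 1 ≤ X) (w₀ : ℂ) (N : ℕ) (B : ℝ) :
    ∃ E : ℝ, 0 ≤ E ∧ ∀ u : ℂ, |u.re| ≤ B → ‖DD χ X w₀ N u‖ ≤ E := by
  refine ⟨∑ k ∈ Finset.Icc 1 N, (Real.exp (B * Real.log k) *
    ∑ m ∈ (Finset.Icc 1 ⌊Real.exp X⌋₊).filter (fun m => m ∣ k),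
      Real.exp ((B + |w₀.re|) * Real.log m)), by positivity, ?_⟩
  intro u hu
  unfold DD
  refine norm_sum_le_of_le _ fun k _ => ?_
  rw [norm_mul, norm_mul]
  have h1 := χ.norm_le_one (k : ZMod q)
  have hlk : 0 ≤ Real.log k := Real.log_natCast_nonneg k
  rw [abs_le] at hu
  have h2 : ‖Complex.exp (-u * Real.log k)‖ ≤ Real.exp (B * Real.log k) := by
    rw [Complex.norm_exp, Complex.re_mul_ofReal]
    apply Real.exp_le_exp.mpr
    rw [Complex.neg_re]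
    apply mul_le_mul_of_nonneg_right _ hlk
    linarith
  have h3 : ‖∑ m ∈ (Finset.Icc 1 ⌊Real.exp X⌋₊).filter (fun m => m ∣ k), ac X (u - w₀) m‖ ≤
      ∑ m ∈ (Finset.Icc 1 ⌊Real.exp X⌋₊).filter (fun m => m ∣ k),
      Real.exp ((B + |w₀.re|) * Real.log m) := by
    refine norm_sum_le_of_le _ fun m hm => ?_
    refine (ac_norm_le hX (Finset.mem_filter.1 hm).1 _).trans ?_
    apply Real.exp_le_exp.mpr
    have hlm : 0 ≤ Real.log m := Real.log_natCast_nonneg m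
    apply mul_le_mul_of_nonneg_right _ hlm
    have := neg_abs_le w₀.re
    rw [Complex.sub_re]
    linarith
  calc _ ≤ Real.exp (B * Real.log k) * (∑ m ∈ (Finset.Icc 1 ⌊Real.exp X⌋₊).filter
      (fun m => m ∣ k), Real.exp ((B + |w₀.re|) * Real.log m)) * 1 := by gcongr
    _ = _ := mul_one _

/-- the truncation on a shifted line -/
noncomputable def DL {q : ℕ} (χ : DirichletCharacter ℂ q) (κ κ' t y v : ℝ) : ℝ :=
  ‖DD χ (1 / κ) ⟨1 / 2 + κ, t⟩ ⌊(q : ℝ) ^ (15 / 16 : ℝ)⌋₊ ⟨1 / 2 + κ' + 1 / Real.log q, t + y + v⟩‖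

theorem LM_point : ∃ A : ℝ, 1 ≤ A ∧ ∀ (q : ℕ) [NeZero q] (χ : DirichletCharacter ℂ q),
    3 ≤ q → χ.IsPrimitive → ∀ κ κ' t y : ℝ, 640 ≤ κ * Real.log q → κ ≤ 1 / 16 → κ / 2 ≤ κ' →
    κ' ≤ 3 * κ / 2 →
    LM χ κ κ' t y ≤ A * (q : ℝ) ^ (-(3 : ℝ)) +
      A * Real.log q * (∫ v : ℝ, DL χ κ κ' t y v * Wt (Real.log q / 640) 40 v) +
      A * (q : ℝ) ^ (-(3 / 2) * κ') * κ⁻¹ * (∫ v : ℝ,
        (‖χ.LFunction ⟨1 / 2 - κ', t + y + v⟩‖ * ‖MM χ (1 / κ) ⟨1 / 2 + κ, t⟩‖) *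
          Wt (Real.log q / 640) 40 v) := by
  obtain ⟨C1, hC1, hLs⟩ := L_strip 66 (by norm_num)
  obtain ⟨G1, hG1⟩ : ∃ G : ℝ, G = ∫ y : ℝ, Real.exp (-(y ^ 2)) := ⟨_, rfl⟩
  have hG1' : 0 ≤ G1 := by rw [hG1]; exact integral_nonneg fun y => (Real.exp_pos _).le
  obtain ⟨A1, hA1⟩ : ∃ A : ℝ, A = 2 * Real.exp 4096 * 3 ^ 40 * G1 := ⟨_, rfl⟩
  obtain ⟨A2, hA2⟩ : ∃ A : ℝ, A = Real.exp 1 * Real.exp 1 * (3 * Real.exp 1) ^ 40 := ⟨_, rfl⟩
  obtain ⟨A3, hA3⟩ : ∃ A : ℝ, A = Real.exp 1 * 3 ^ 40 := ⟨_, rfl⟩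
  have hA1' : 0 ≤ A1 := by rw [hA1]; positivity
  have hA2' : 0 ≤ A2 := by rw [hA2]; positivity
  have hA3' : 0 ≤ A3 := by rw [hA3]; positivity
  refine ⟨1 + A1 + A2 + A3, by linarith, ?_⟩
  intro q _ χ hq hχ κ κ' t y hκℓ hκ1 hκ' hκ''
  have hq2 : 2 ≤ q := by omega
  have hne := ne_one_of_prim hq2 hχ
  have hq0 : (0 : ℝ) < q := by exact_mod_cast NeZero.pos q
  have hq1 : (1 : ℝ) ≤ q := by exact_mod_cast NeZero.one_le
  have hℓ1 : 1 ≤ Real.log q := by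
    rw [Real.le_log_iff_exp_le hq0]
    have h1 := Real.exp_one_lt_d9
    have h2 : (3 : ℝ) ≤ q := by exact_mod_cast hq
    linarith
  obtain ⟨ℓ, hℓ⟩ : ∃ ℓ : ℝ, ℓ = Real.log q := ⟨_, rfl⟩
  have hexpℓ : Real.exp ℓ = q := by rw [hℓ, Real.exp_log hq0]
  rw [← hℓ] at hκℓ hℓ1 ⊢
  have hℓ0 : 0 < ℓ := by linarith
  have hκ : 0 < κ := by
    by_contra h
    push Not at h
    nlinarith
  have hκ'0 : 0 < κ' := by linarith
  have hX1 : 1 ≤ 1 / κ := by rw [le_div_iff₀ hκ]; linarith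
  have hXℓ : 1 / κ ≤ ℓ / 640 := by
    rw [div_le_div_iff₀ hκ (by norm_num)]; linarith
  obtain ⟨h, hh⟩ : ∃ h : ℝ, h = ℓ / 640 := ⟨_, rfl⟩
  have hh0 : 0 < h := by rw [hh]; positivity
  rw [← hh]
  set s : ℂ := ⟨1 / 2 + κ', t + y⟩ with hs
  set w₀ : ℂ := ⟨1 / 2 + κ, t⟩ with hw₀
  obtain ⟨Y0, hY0⟩ : ∃ Y : ℝ, Y = (q : ℝ) ^ (15 / 16 : ℝ) := ⟨_, rfl⟩
  set Mv := MM χ (1 / κ) w₀ with hMv
  have hL : Differentiable ℂ χ.LFunction := DirichletCharacter.differentiable_LFunction hne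
  have hadd : Differentiable ℂ (fun z : ℂ => s + z) := by fun_prop
  set R : ℂ → ℂ := fun z => χ.LFunction (s + z) * Mv with hR
  set D : ℂ → ℂ := fun z => DD χ (1 / κ) w₀ ⌊Y0⌋₊ (s + z) with hD
  have hRd : Differentiable ℂ R := (hL.comp hadd).mul_const _
  have hDd : Differentiable ℂ D := (DD_diff χ (1 / κ) w₀ ⌊Y0⌋₊).comp hadd
  obtain ⟨E, hE0, hE⟩ := DD_bdd χ hX1 w₀ ⌊Y0⌋₊ 66
  obtain ⟨K, hK⟩ : ∃ K : ℝ, K = (q : ℝ) ^ (3 / 4 : ℝ) := ⟨_, rfl⟩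
  have hK0 : 0 < K := by rw [hK]; positivity
  have hsre : s.re = 1 / 2 + κ' := rfl
  have hsim : s.im = t + y := rfl
  have hc := contour_gen hRd hDd (K := K) (h := h) (a := 2 * κ') (b := 64) (c := 1 / ℓ)
    (E := C1 * (q : ℝ) ^ (2 + 66 : ℝ) * ‖Mv‖ + E) (T := |s.im|) 40 hK0 hh0 (by linarith)
    (by positivity) (by
      rw [div_le_iff₀ hℓ0]; linarith) (by positivity) (by
      intro x hx y'
      simp only [hR]
      rw [norm_mul, add_mk]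
      have h1 := hLs q χ hq2 hχ ⟨s.re + x, s.im + y'⟩ (by
        simp only; rw [hsre]; linarith [hx.1]) (by simp only; rw [hsre]; linarith [hx.2])
      simp only at h1
      have h2 := abs_exp_le (t := s.im) (y := y')
      calc _ ≤ (C1 * (q : ℝ) ^ (2 + 66 : ℝ) * Real.exp (3 * (|s.im| + |y'|))) * ‖Mv‖ := by
            gcongr
            exact h1.trans (by gcongr)
        _ ≤ (C1 * (q : ℝ) ^ (2 + 66 : ℝ) * ‖Mv‖) * Real.exp (3 * (|s.im| + |y'|)) +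
            E * Real.exp (3 * (|s.im| + |y'|)) := by
            have : 0 ≤ E * Real.exp (3 * (|s.im| + |y'|)) := by positivity
            linarith
        _ = _ := by ring) (by
      intro x hx y'
      simp only [hD]
      rw [add_mk]
      have h1 := hE ⟨s.re + x, s.im + y'⟩ (by
        simp only
        rw [hsre, abs_le]
        constructor <;> linarith [hx.1, hx.2])
      refine h1.trans ?_
      have h2 : 1 ≤ Real.exp (3 * (|s.im| + |y'|)) := Real.one_le_exp (by positivity)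
      have h3 : 0 ≤ C1 * (q : ℝ) ^ (2 + 66 : ℝ) * ‖Mv‖ := by positivity
      nlinarith)
  have hR0 : ‖R 0‖ = LM χ κ κ' t y := by
    simp only [hR, add_zero]
    rw [norm_mul]
    rfl
  rw [hR0] at hc
  have hpi : LM χ κ κ' t y ≤ 2 * Real.pi * LM χ κ κ' t y := by
    have := LM_nonneg χ κ κ' t y
    nlinarith [Real.pi_gt_three]
  -- first integral
  have hexpX : Real.exp (1 / κ) ≤ (q : ℝ) ^ (1 / 32 : ℝ) := by
    have h1 : (q : ℝ) ^ (1 / 32 : ℝ) = Real.exp (ℓ / 32) := by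
      rw [Real.rpow_def_of_pos hq0, ← hℓ]; congr 1; ring
    rw [h1]
    apply Real.exp_le_exp.mpr
    linarith
  have hYX : (q : ℝ) ^ (29 / 32 : ℝ) ≤ Y0 / Real.exp (1 / κ) := by
    rw [le_div_iff₀ (Real.exp_pos _), hY0]
    calc (q : ℝ) ^ (29 / 32 : ℝ) * Real.exp (1 / κ) ≤ (q : ℝ) ^ (29 / 32 : ℝ) * (q : ℝ) ^ (1 / 32 : ℝ) := by
          gcongr
      _ = (q : ℝ) ^ (15 / 16 : ℝ) := by rw [← Real.rpow_add hq0]; norm_num
  have I1 : (∫ v : ℝ, ‖(R ⟨64, v⟩ - D ⟨64, v⟩) * kk K h 40 ⟨64, v⟩ / (⟨64, v⟩ : ℂ)‖) ≤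
      A1 * (q : ℝ) ^ (-(3 : ℝ)) := by
    have hb : ∀ v : ℝ, ‖(R ⟨64, v⟩ - D ⟨64, v⟩) * kk K h 40 ⟨64, v⟩ / (⟨64, v⟩ : ℂ)‖ ≤
        (2 * Real.exp 4096 * 3 ^ 40 * (q : ℝ) ^ (-(3 : ℝ))) * Real.exp (-(v ^ 2)) := by
      intro v
      rw [norm_div, norm_mul]
      have hn1 : 1 ≤ ‖(⟨64, v⟩ : ℂ)‖ := by
        have := abs_le_norm_mk' 64 v
        rw [abs_of_pos (by norm_num : (0 : ℝ) < 64)] at this
        linarith
      have hre : (s + ⟨64, v⟩).re = 1 / 2 + κ' + 64 := rfl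
      have h1 := DD_far χ hX1 (Y := Y0) (w₀ := w₀) (u := s + ⟨64, v⟩) (by
        have h2 : (1 : ℝ) ≤ (q : ℝ) ^ (29 / 32 : ℝ) := Real.one_le_rpow hq1 (by norm_num)
        have h3 := h2.trans hYX
        rw [le_div_iff₀ (Real.exp_pos _)] at h3
        linarith) (by
        have : w₀.re = 1 / 2 + κ := rfl
        rw [this]; linarith) (by rw [hre]; linarith)
      have h4 : (Y0 / Real.exp (1 / κ)) ^ (3 - (s + ⟨64, v⟩).re) ≤ (q : ℝ) ^ (-(1769 / 32) : ℝ) := by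
        rw [hre]
        have h5 : 1 ≤ Y0 / Real.exp (1 / κ) := by
          refine le_trans ?_ hYX
          exact Real.one_le_rpow hq1 (by norm_num)
        calc (Y0 / Real.exp (1 / κ)) ^ (3 - (1 / 2 + κ' + 64)) ≤
              (Y0 / Real.exp (1 / κ)) ^ (-(61 : ℝ)) :=
              Real.rpow_le_rpow_of_exponent_le h5 (by linarith)
          _ ≤ ((q : ℝ) ^ (29 / 32 : ℝ)) ^ (-(61 : ℝ)) := by
              apply Real.rpow_le_rpow_of_nonpos (by positivity) hYX (by norm_num)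
          _ = (q : ℝ) ^ (-(1769 / 32) : ℝ) := by
              rw [← Real.rpow_mul hq0.le]; norm_num
      have h6 := norm_kk hK0 hh0 40 64 v
      have h7 : (3 * Real.exp (max (h * 64) 0) / (1 + h * |v|)) ^ 40 ≤ 3 ^ 40 * (q : ℝ) ^ (4 : ℝ) := by
        have h8 : max (h * 64) 0 = ℓ / 10 := by
          rw [max_eq_left (by positivity), hh]; ring
        rw [h8]
        have h9 : 3 * Real.exp (ℓ / 10) / (1 + h * |v|) ≤ 3 * Real.exp (ℓ / 10) := by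
          apply div_le_self (by positivity)
          have : 0 ≤ h * |v| := by positivity
          linarith
        calc (3 * Real.exp (ℓ / 10) / (1 + h * |v|)) ^ 40 ≤ (3 * Real.exp (ℓ / 10)) ^ 40 := by gcongr
          _ = 3 ^ 40 * Real.exp (ℓ / 10) ^ 40 := by rw [mul_pow]
          _ = 3 ^ 40 * (q : ℝ) ^ (4 : ℝ) := by
              rw [← Real.exp_nat_mul, Real.rpow_def_of_pos hq0, ← hℓ]
              congr 2
              push_cast; ring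
      have h10 : K ^ (64 : ℝ) = (q : ℝ) ^ (48 : ℝ) := by
        rw [hK, ← Real.rpow_mul hq0.le]; norm_num
      have h11 : Real.exp ((64 : ℝ) ^ 2) = Real.exp 4096 := by norm_num
      rw [h10, h11] at h6
      have h12 : (q : ℝ) ^ (1 / 32 : ℝ) * (q : ℝ) ^ (-(1769 / 32) : ℝ) * ((q : ℝ) ^ (48 : ℝ) *
          (q : ℝ) ^ (4 : ℝ)) ≤ (q : ℝ) ^ (-(3 : ℝ)) := by
        rw [← Real.rpow_add hq0, ← Real.rpow_add hq0, ← Real.rpow_add hq0]
        exact Real.rpow_le_rpow_of_exponent_le hq1 (by norm_num)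
      have h14 : 0 ≤ (Y0 / Real.exp (1 / κ)) ^ (3 - (s + ⟨64, v⟩).re) := by
        have : 0 < Y0 := by rw [hY0]; positivity
        positivity
      have h13 : ‖R ⟨64, v⟩ - D ⟨64, v⟩‖ ≤ 2 * (q : ℝ) ^ (1 / 32 : ℝ) * (q : ℝ) ^ (-(1769 / 32) : ℝ) := by
        simp only [hR, hD]
        refine h1.trans ?_
        gcongr
      calc _ ≤ ‖R ⟨64, v⟩ - D ⟨64, v⟩‖ * ‖kk K h 40 ⟨64, v⟩‖ := div_le_self (by positivity) hn1
        _ ≤ (2 * (q : ℝ) ^ (1 / 32 : ℝ) * (q : ℝ) ^ (-(1769 / 32) : ℝ)) *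
            ((q : ℝ) ^ (48 : ℝ) * Real.exp 4096 * Real.exp (-(v ^ 2)) *
              (3 ^ 40 * (q : ℝ) ^ (4 : ℝ))) := by
            gcongr
            exact h6.trans (by gcongr)
        _ = 2 * Real.exp 4096 * 3 ^ 40 * ((q : ℝ) ^ (1 / 32 : ℝ) * (q : ℝ) ^ (-(1769 / 32) : ℝ) *
            ((q : ℝ) ^ (48 : ℝ) * (q : ℝ) ^ (4 : ℝ))) * Real.exp (-(v ^ 2)) := by ring
        _ ≤ _ := by gcongr
    refine (integral_mono_of_nonneg (Eventually.of_forall fun y => norm_nonneg _)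
      (int_gauss_one.const_mul _) (Eventually.of_forall hb)).trans (le_of_eq ?_)
    rw [integral_const_mul, ← hG1, hA1]
    ring
  -- second integral
  have I2 : (∫ v : ℝ, ‖D ⟨1 / ℓ, v⟩ * kk K h 40 ⟨1 / ℓ, v⟩ / (⟨1 / ℓ, v⟩ : ℂ)‖) ≤
      A2 * ℓ * ∫ v : ℝ, DL χ κ κ' t y v * Wt h 40 v := by
    have hb : ∀ v : ℝ, ‖D ⟨1 / ℓ, v⟩ * kk K h 40 ⟨1 / ℓ, v⟩ / (⟨1 / ℓ, v⟩ : ℂ)‖ ≤
        (A2 * ℓ) * (DL χ κ κ' t y v * Wt h 40 v) := by
      intro v
      rw [norm_div, norm_mul]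
      have hDL : ‖D ⟨1 / ℓ, v⟩‖ = DL χ κ κ' t y v := by
        simp only [hD]
        unfold DL
        rw [← hY0, ← hℓ, add_mk]
      rw [hDL]
      have hn1 : 1 / ℓ ≤ ‖(⟨1 / ℓ, v⟩ : ℂ)‖ := by
        have := abs_le_norm_mk' (1 / ℓ) v
        rwa [abs_of_pos (by positivity : (0 : ℝ) < 1 / ℓ)] at this
      have h6 := norm_kk hK0 hh0 40 (1 / ℓ) v
      have h10 : K ^ (1 / ℓ) ≤ Real.exp 1 := by
        rw [hK, ← Real.rpow_mul hq0.le, Real.rpow_def_of_pos hq0, ← hℓ]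
        apply Real.exp_le_exp.mpr
        have : ℓ * (3 / 4 * (1 / ℓ)) = 3 / 4 := by field_simp
        rw [this]; norm_num
      have h11 : Real.exp ((1 / ℓ) ^ 2) ≤ Real.exp 1 := by
        apply Real.exp_le_exp.mpr
        have : 1 / ℓ ≤ 1 := by rw [div_le_one hℓ0]; exact hℓ1
        have h0 : 0 ≤ 1 / ℓ := by positivity
        nlinarith
      have h12 : Real.exp (max (h * (1 / ℓ)) 0) ≤ Real.exp 1 := by
        apply Real.exp_le_exp.mpr
        rw [hh]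
        have : ℓ / 640 * (1 / ℓ) = 1 / 640 := by field_simp
        rw [this, max_eq_left (by norm_num)]; norm_num
      have hDL0 : 0 ≤ DL χ κ κ' t y v := norm_nonneg _
      have h13 : ‖kk K h 40 ⟨1 / ℓ, v⟩‖ ≤ A2 * Wt h 40 v := by
        refine h6.trans ?_
        calc _ ≤ Real.exp 1 * Real.exp 1 * Real.exp (-(v ^ 2)) *
              (3 * Real.exp 1 / (1 + h * |v|)) ^ 40 := by gcongr
          _ = A2 * Wt h 40 v := by
              rw [hA2]; unfold Wt; rw [div_pow]; ring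
      have hWt := (Wt_pos hh0 40 v).le
      calc DL χ κ κ' t y v * ‖kk K h 40 ⟨1 / ℓ, v⟩‖ / ‖(⟨1 / ℓ, v⟩ : ℂ)‖ ≤
          DL χ κ κ' t y v * (A2 * Wt h 40 v) / (1 / ℓ) := by gcongr
        _ = _ := by field_simp
    refine (integral_mono_of_nonneg (Eventually.of_forall fun y => norm_nonneg _) ?_
      (Eventually.of_forall hb)).trans (le_of_eq ?_)
    · apply Integrable.const_mul
      have hcont : Continuous (fun v : ℝ => DL χ κ κ' t y v) := by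
        unfold DL
        have h1 : Continuous (fun v : ℝ => (⟨1 / 2 + κ' + 1 / Real.log q, t + y + v⟩ : ℂ)) := by
          have : (fun v : ℝ => (⟨1 / 2 + κ' + 1 / Real.log q, t + y + v⟩ : ℂ)) = fun v : ℝ =>
            ((1 / 2 + κ' + 1 / Real.log q : ℝ) : ℂ) + ((t + y + v : ℝ) : ℂ) * I := by
            funext v; exact mk_re_im _ _
          rw [this]; fun_prop
        exact ((DD_diff χ (1 / κ) _ _).continuous.comp h1).norm
      apply Wt_int_of hh0 40 hcont.aestronglyMeasurable (C := E)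
      intro v
      have h1 : |DL χ κ κ' t y v| ≤ E := by
        unfold DL
        rw [abs_of_nonneg (norm_nonneg _), ← hY0, ← hℓ]
        apply hE
        simp only
        have h2 : 1 / ℓ ≤ 1 := by rw [div_le_one hℓ0]; exact hℓ1
        have h0 : 0 ≤ 1 / ℓ := by positivity
        rw [abs_le]; constructor <;> linarith
      have h2 : 1 ≤ Real.exp (3 * |v|) := Real.one_le_exp (by positivity)
      nlinarith
    · rw [integral_const_mul]
  -- third integral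
  have I3 : (∫ v : ℝ, ‖R ⟨-(2 * κ'), v⟩ * kk K h 40 ⟨-(2 * κ'), v⟩ / (⟨-(2 * κ'), v⟩ : ℂ)‖) ≤
      A3 * (q : ℝ) ^ (-(3 / 2) * κ') * κ⁻¹ * ∫ v : ℝ,
        (‖χ.LFunction ⟨1 / 2 - κ', t + y + v⟩‖ * ‖Mv‖) * Wt h 40 v := by
    have hb : ∀ v : ℝ, ‖R ⟨-(2 * κ'), v⟩ * kk K h 40 ⟨-(2 * κ'), v⟩ / (⟨-(2 * κ'), v⟩ : ℂ)‖ ≤
        (A3 * (q : ℝ) ^ (-(3 / 2) * κ') * κ⁻¹) *
          ((‖χ.LFunction ⟨1 / 2 - κ', t + y + v⟩‖ * ‖Mv‖) * Wt h 40 v) := by
      intro v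
      rw [norm_div, norm_mul]
      have hRL : ‖R ⟨-(2 * κ'), v⟩‖ = ‖χ.LFunction ⟨1 / 2 - κ', t + y + v⟩‖ * ‖Mv‖ := by
        simp only [hR]
        rw [add_mk, norm_mul, hsre, hsim]
        have : 1 / 2 + κ' + -(2 * κ') = 1 / 2 - κ' := by ring
        rw [this]
      rw [hRL]
      have hn1 : κ ≤ ‖(⟨-(2 * κ'), v⟩ : ℂ)‖ := by
        have := abs_le_norm_mk' (-(2 * κ')) v
        rw [abs_neg, abs_of_pos (by linarith : (0 : ℝ) < 2 * κ')] at this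
        linarith
      have h6 := norm_kk hK0 hh0 40 (-(2 * κ')) v
      have h10 : K ^ (-(2 * κ')) = (q : ℝ) ^ (-(3 / 2) * κ') := by
        rw [hK, ← Real.rpow_mul hq0.le]; congr 1; ring
      have h11 : Real.exp ((-(2 * κ')) ^ 2) ≤ Real.exp 1 := by
        apply Real.exp_le_exp.mpr
        nlinarith
      have h12 : Real.exp (max (h * (-(2 * κ'))) 0) = 1 := by
        rw [max_eq_right (by nlinarith), Real.exp_zero]
      rw [h10, h12, mul_one] at h6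
      have h13 : ‖kk K h 40 ⟨-(2 * κ'), v⟩‖ ≤ A3 * (q : ℝ) ^ (-(3 / 2) * κ') * Wt h 40 v := by
        refine h6.trans ?_
        calc _ ≤ (q : ℝ) ^ (-(3 / 2) * κ') * Real.exp 1 * Real.exp (-(v ^ 2)) *
              (3 / (1 + h * |v|)) ^ 40 := by gcongr
          _ = A3 * (q : ℝ) ^ (-(3 / 2) * κ') * Wt h 40 v := by
              rw [hA3]; unfold Wt; rw [div_pow]; ring
      have hWt := (Wt_pos hh0 40 v).le
      have hqκ : 0 < (q : ℝ) ^ (-(3 / 2) * κ') := Real.rpow_pos_of_pos hq0 _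
      calc ‖χ.LFunction ⟨1 / 2 - κ', t + y + v⟩‖ * ‖Mv‖ * ‖kk K h 40 ⟨-(2 * κ'), v⟩‖ /
            ‖(⟨-(2 * κ'), v⟩ : ℂ)‖ ≤ ‖χ.LFunction ⟨1 / 2 - κ', t + y + v⟩‖ * ‖Mv‖ *
              (A3 * (q : ℝ) ^ (-(3 / 2) * κ') * Wt h 40 v) / κ := by gcongr
        _ = _ := by rw [div_eq_mul_inv]; ring
    refine (integral_mono_of_nonneg (Eventually.of_forall fun y => norm_nonneg _) ?_
      (Eventually.of_forall hb)).trans (le_of_eq ?_)
    · apply Integrable.const_mul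
      have hcont : Continuous (fun v : ℝ => ‖χ.LFunction ⟨1 / 2 - κ', t + y + v⟩‖ * ‖Mv‖) := by
        have h1 := (L_line_cont hne (1 / 2 - κ')).comp
          (by fun_prop : Continuous (fun v : ℝ => t + y + v))
        exact h1.norm.mul continuous_const
      apply Wt_int_of hh0 40 hcont.aestronglyMeasurable
        (C := (1 + 4 * q) * (1 + |t + y|) * ‖Mv‖)
      intro v
      rw [abs_of_nonneg (by positivity)]
      have h1 := L_line_le hne (σ := 1 / 2 - κ') (by linarith) (by linarith) (t + y + v)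
      have h2 := one_add_abs_add (t + y) v
      have h3 : 1 + |v| ≤ Real.exp (3 * |v|) := by
        have h4 := Real.add_one_le_exp (3 * |v|)
        have := abs_nonneg v
        linarith
      calc ‖χ.LFunction ⟨1 / 2 - κ', t + y + v⟩‖ * ‖Mv‖ ≤
          ((1 + 4 * q) * ((1 + |t + y|) * Real.exp (3 * |v|))) * ‖Mv‖ := by
            gcongr
            refine h1.trans ?_
            gcongr
            exact h2.trans (by gcongr)
        _ = _ := by ring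
    · rw [integral_const_mul]
  -- collect
  have n2 : 0 ≤ ∫ v : ℝ, DL χ κ κ' t y v * Wt h 40 v :=
    integral_nonneg fun v => mul_nonneg (norm_nonneg _) (Wt_pos hh0 40 v).le
  have n3 : 0 ≤ ∫ v : ℝ, (‖χ.LFunction ⟨1 / 2 - κ', t + y + v⟩‖ * ‖Mv‖) * Wt h 40 v :=
    integral_nonneg fun v => mul_nonneg (by positivity) (Wt_pos hh0 40 v).le
  have hqκ : 0 < (q : ℝ) ^ (-(3 / 2) * κ') := Real.rpow_pos_of_pos hq0 _
  have hq3 : 0 < (q : ℝ) ^ (-(3 : ℝ)) := Real.rpow_pos_of_pos hq0 _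
  calc LM χ κ κ' t y ≤ A1 * (q : ℝ) ^ (-(3 : ℝ)) +
        A2 * ℓ * (∫ v : ℝ, DL χ κ κ' t y v * Wt h 40 v) +
        A3 * (q : ℝ) ^ (-(3 / 2) * κ') * κ⁻¹ * ∫ v : ℝ,
        (‖χ.LFunction ⟨1 / 2 - κ', t + y + v⟩‖ * ‖Mv‖) * Wt h 40 v :=
        hpi.trans (hc.trans (add_le_add (add_le_add I1 I2) I3))
    _ ≤ _ := by
        have hκi : 0 < κ⁻¹ := inv_pos.mpr hκ
        gcongr <;> linarith

end Pool.Agent.NH13
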