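import Pool.Agent.NH13.MollPt

/-!
# The mean square of the mollified `L`-function
-/

set_option autoImplicit false

open Complex MeasureTheory Set Filter Topology

namespace Pool.Agent.NH13

open H385 (phs)

/-- the mass of the primitive characters, with a small error -/
noncomputable def Ph (q : ℕ) : ℝ := (phs q : ℝ) + (q : ℝ) ^ (31 / 32 : ℝ)

/-- the mean square of the mollified `L` -/
noncomputable def BB (q : ℕ) [NeZero q] (κ κ' t y : ℝ) : ℝ := ∑ χ ∈ Prim q, LM χ κ κ' t y ^ 2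

lemma BB_nonneg (q : ℕ) [NeZero q] (κ κ' t y : ℝ) : 0 ≤ BB q κ κ' t y :=
  Finset.sum_nonneg fun _ _ => sq_nonneg _

lemma one_le_Ph (q : ℕ) [NeZero q] : 1 ≤ Ph q := by
  unfold Ph
  have hq1 : (1 : ℝ) ≤ q := by exact_mod_cast NeZero.one_le
  have h1 : (1 : ℝ) ≤ (q : ℝ) ^ (31 / 32 : ℝ) := Real.one_le_rpow hq1 (by norm_num)
  have h2 : (0 : ℝ) ≤ phs q := Nat.cast_nonneg _
  linarith

lemma sq3 (a b c : ℝ) : (a + b + c) ^ 2 ≤ 3 * a ^ 2 + 3 * b ^ 2 + 3 * c ^ 2 := by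
  nlinarith [sq_nonneg (a - b), sq_nonneg (b - c), sq_nonneg (a - c)]

lemma uu_mul {κ h : ℝ} (hκ : 0 < κ) (hh : 1 / κ ≤ h) (y v : ℝ) :
    1 + |y + v| / κ ≤ (1 + |y| / κ) * (1 + h * |v|) := by
  have h1 : |y + v| / κ ≤ |y| / κ + |v| / κ := by
    rw [← add_div]; gcongr; exact abs_add_le y v
  have h2 : |v| / κ ≤ h * |v| := by
    rw [div_eq_mul_one_div, mul_comm]
    gcongr
  have h3 : 0 ≤ |y| / κ := by positivity
  have h4 : 0 ≤ h * |v| := by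
    have : 0 < 1 / κ := by positivity
    have : 0 < h := by linarith
    positivity
  nlinarith

lemma LM_cont {q : ℕ} [NeZero q] {χ : DirichletCharacter ℂ q} (hχ : χ ≠ 1) (κ κ' t y : ℝ) :
    Continuous (fun v : ℝ => LM χ κ κ' t (y + v)) := by
  unfold LM
  have h1 := (L_line_cont hχ (1 / 2 + κ')).comp (by fun_prop : Continuous (fun v : ℝ => t + (y + v)))
  exact h1.norm.mul continuous_const

lemma sq_le_exp' (v : ℝ) : (1 + |v|) ^ 2 ≤ Real.exp (3 * |v|) := by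
  refine le_trans ?_ (pow3_le_exp v)
  have := abs_nonneg v
  exact pow_le_pow_right₀ (by linarith) (by norm_num)

theorem BB_rec : ∃ C : ℝ, 1 ≤ C ∧ ∀ (q : ℕ) [NeZero q], 3 ≤ q → ∀ κ κ' t y : ℝ,
    640 ≤ κ * Real.log q → κ ≤ 1 / 16 → κ / 2 ≤ κ' → κ' ≤ 3 * κ / 2 →
    BB q κ κ' t y ≤ C * Ph q * (1 + |y| / κ) ^ 4 + C * (q : ℝ) ^ (-κ') * κ⁻¹ *
      ∫ v : ℝ, ((1 + |t + y + v|) ^ (2 * κ') * BB q κ κ' t (y + v)) * Wt (Real.log q / 640) 40 v := by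
  obtain ⟨A, hA, hpt⟩ := LM_point
  obtain ⟨C2, hC2, hDD⟩ := DD_sq
  obtain ⟨C3, hC3, hτ⟩ := tau_le
  have hpi := Real.pi_pos
  refine ⟨3 * A ^ 2 + 3 * A ^ 2 * (640 * Real.pi) ^ 2 * (C3 * (2 * C2 * 6 ^ 4)) +
    3 * A ^ 2 * Real.pi * Real.exp 20, ?_, ?_⟩
  · have : 0 ≤ 3 * A ^ 2 * (640 * Real.pi) ^ 2 * (C3 * (2 * C2 * 6 ^ 4)) +
      3 * A ^ 2 * Real.pi * Real.exp 20 := by positivity
    nlinarith
  intro q _ hq κ κ' t y hκℓ hκ1 hκ' hκ''
  have hq2 : 2 ≤ q := by omega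
  have hq0 : (0 : ℝ) < q := by exact_mod_cast NeZero.pos q
  have hq1 : (1 : ℝ) ≤ q := by exact_mod_cast NeZero.one_le
  have hℓ1 : 1 ≤ Real.log q := by
    rw [Real.le_log_iff_exp_le hq0]
    have h1 := Real.exp_one_lt_d9
    have h2 : (3 : ℝ) ≤ q := by exact_mod_cast hq
    linarith
  have hℓ0 : 0 < Real.log q := by linarith
  have hκ : 0 < κ := by
    by_contra h
    push Not at h
    nlinarith
  obtain ⟨h, hh⟩ : ∃ h : ℝ, h = Real.log q / 640 := ⟨_, rfl⟩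
  have hh0 : 0 < h := by rw [hh]; positivity
  have hhκ : 1 / κ ≤ h := by
    rw [hh, div_le_div_iff₀ hκ (by norm_num)]; linarith
  have hlogh : Real.log q = 640 * h := by rw [hh]; ring
  have hne : ∀ χ ∈ Prim q, χ ≠ 1 := fun χ hχ => ne_one_of_prim hq2 (mem_Prim.mp hχ)
  rw [← hh]
  have hX1 : 1 ≤ 1 / κ := by rw [le_div_iff₀ hκ]; linarith
  -- the three parts for one character
  have hW0 := Wt_pow_int hh0 (n := 40) (j := 0) (by norm_num)
  simp only [pow_zero, one_mul] at hW0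
  have hDLc : ∀ χ : DirichletCharacter ℂ q, Continuous (fun v : ℝ => DL χ κ κ' t y v) := by
    intro χ
    unfold DL
    have h1 : Continuous (fun v : ℝ => (⟨1 / 2 + κ' + 1 / Real.log q, t + y + v⟩ : ℂ)) := by
      have : (fun v : ℝ => (⟨1 / 2 + κ' + 1 / Real.log q, t + y + v⟩ : ℂ)) = fun v : ℝ =>
        ((1 / 2 + κ' + 1 / Real.log q : ℝ) : ℂ) + ((t + y + v : ℝ) : ℂ) * I := by
        funext v; exact mk_re_im _ _
      rw [this]; fun_prop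
    exact ((DD_diff χ (1 / κ) _ _).continuous.comp h1).norm
  have hDLb : ∀ χ : DirichletCharacter ℂ q, ∃ E : ℝ, 0 ≤ E ∧ ∀ v, DL χ κ κ' t y v ≤ E := by
    intro χ
    obtain ⟨E, hE0, hE⟩ := DD_bdd χ hX1 (⟨1 / 2 + κ, t⟩ : ℂ) ⌊(q : ℝ) ^ (15 / 16 : ℝ)⌋₊ 66
    refine ⟨E, hE0, fun v => hE _ ?_⟩
    simp only
    have h2 : 1 / Real.log q ≤ 1 := by rw [div_le_one hℓ0]; exact hℓ1
    have h0 : 0 ≤ 1 / Real.log q := by positivity
    rw [abs_le]; constructor <;> linarith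
  have hDL0 : ∀ (χ : DirichletCharacter ℂ q) v, 0 ≤ DL χ κ κ' t y v := fun χ v => norm_nonneg _
  have iD1 : ∀ χ : DirichletCharacter ℂ q, Integrable (fun v => DL χ κ κ' t y v * Wt h 40 v) := by
    intro χ
    obtain ⟨E, hE0, hE⟩ := hDLb χ
    apply Wt_int_of hh0 40 (hDLc χ).aestronglyMeasurable (C := E)
    intro v
    rw [abs_of_nonneg (hDL0 χ v)]
    have h2 : 1 ≤ Real.exp (3 * |v|) := Real.one_le_exp (by positivity)
    have := hE v
    nlinarith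
  have iD2 : ∀ χ : DirichletCharacter ℂ q, Integrable (fun v => DL χ κ κ' t y v ^ 2 * Wt h 40 v) := by
    intro χ
    obtain ⟨E, hE0, hE⟩ := hDLb χ
    apply Wt_int_of (F := fun v => DL χ κ κ' t y v ^ 2) hh0 40
      ((hDLc χ).pow 2).aestronglyMeasurable (C := E ^ 2)
    intro v
    have h2 : 1 ≤ Real.exp (3 * |v|) := Real.one_le_exp (by positivity)
    have h3 := hE v
    have h4 := hDL0 χ v
    rw [abs_of_nonneg (by positivity)]
    have h5 : DL χ κ κ' t y v ^ 2 ≤ E ^ 2 := by gcongr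
    nlinarith [sq_nonneg E]
  obtain ⟨LL, hLL⟩ : ∃ LL : DirichletCharacter ℂ q → ℝ → ℝ, LL = fun χ v =>
    ‖χ.LFunction ⟨1 / 2 - κ', t + y + v⟩‖ * ‖MM χ (1 / κ) ⟨1 / 2 + κ, t⟩‖ := ⟨_, rfl⟩
  have hLL0 : ∀ χ v, 0 ≤ LL χ v := fun χ v => by rw [hLL]; positivity
  have hLLc : ∀ χ ∈ Prim q, Continuous (LL χ) := by
    intro χ hχ
    rw [hLL]
    have h1 := (L_line_cont (hne χ hχ) (1 / 2 - κ')).comp
      (by fun_prop : Continuous (fun v : ℝ => t + y + v))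
    exact h1.norm.mul continuous_const
  have hLLb : ∀ χ ∈ Prim q, ∃ E : ℝ, 0 ≤ E ∧ ∀ v, LL χ v ≤ E * (1 + |v|) := by
    intro χ hχ
    refine ⟨(1 + 4 * q) * (1 + |t + y|) * ‖MM χ (1 / κ) ⟨1 / 2 + κ, t⟩‖, by positivity, fun v => ?_⟩
    rw [hLL]
    have h1 := L_line_le (hne χ hχ) (σ := 1 / 2 - κ') (by linarith) (by linarith) (t + y + v)
    have h2 := one_add_abs_add (t + y) v
    calc ‖χ.LFunction ⟨1 / 2 - κ', t + y + v⟩‖ * ‖MM χ (1 / κ) ⟨1 / 2 + κ, t⟩‖ ≤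
        ((1 + 4 * q) * ((1 + |t + y|) * (1 + |v|))) * ‖MM χ (1 / κ) ⟨1 / 2 + κ, t⟩‖ := by
          gcongr
          exact h1.trans (by gcongr)
      _ = _ := by ring
  have iL1 : ∀ χ ∈ Prim q, Integrable (fun v => LL χ v * Wt h 40 v) := by
    intro χ hχ
    obtain ⟨E, hE0, hE⟩ := hLLb χ hχ
    apply Wt_int_of hh0 40 (hLLc χ hχ).aestronglyMeasurable (C := E)
    intro v
    rw [abs_of_nonneg (hLL0 χ v)]
    have h2 := pow3_le_exp v
    have h3 : 1 + |v| ≤ (1 + |v|) ^ 3 := by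
      have := abs_nonneg v
      nlinarith [sq_nonneg (|v|)]
    calc LL χ v ≤ E * (1 + |v|) := hE v
      _ ≤ E * Real.exp (3 * |v|) := by gcongr; exact h3.trans h2
  have iL2 : ∀ χ ∈ Prim q, Integrable (fun v => LL χ v ^ 2 * Wt h 40 v) := by
    intro χ hχ
    obtain ⟨E, hE0, hE⟩ := hLLb χ hχ
    apply Wt_int_of (F := fun v => LL χ v ^ 2) hh0 40
      ((hLLc χ hχ).pow 2).aestronglyMeasurable (C := E ^ 2)
    intro v
    have h2 := sq_le_exp' v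
    have h4 := hLL0 χ v
    rw [abs_of_nonneg (by positivity)]
    calc LL χ v ^ 2 ≤ (E * (1 + |v|)) ^ 2 := by gcongr; exact hE v
      _ = E ^ 2 * (1 + |v|) ^ 2 := by ring
      _ ≤ E ^ 2 * Real.exp (3 * |v|) := by gcongr
  obtain ⟨q3, hq3⟩ : ∃ x : ℝ, x = (q : ℝ) ^ (-(3 : ℝ)) := ⟨_, rfl⟩
  obtain ⟨qk, hqk⟩ : ∃ x : ℝ, x = (q : ℝ) ^ (-(3 / 2) * κ') := ⟨_, rfl⟩
  have hq30 : 0 < q3 := by rw [hq3]; exact Real.rpow_pos_of_pos hq0 _
  have hqk0 : 0 < qk := by rw [hqk]; exact Real.rpow_pos_of_pos hq0 _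
  have hκi : 0 < κ⁻¹ := inv_pos.mpr hκ
  have hA0 : 0 < A := by linarith
  have hsq : ∀ χ ∈ Prim q, LM χ κ κ' t y ^ 2 ≤ 3 * (A * q3) ^ 2 +
      3 * (A * Real.log q) ^ 2 * (Real.pi / h * ∫ v, DL χ κ κ' t y v ^ 2 * Wt h 40 v) +
      3 * (A * qk * κ⁻¹) ^ 2 * (Real.pi / h * ∫ v, LL χ v ^ 2 * Wt h 40 v) := by
    intro χ hχ
    have h1 := hpt q χ hq (mem_Prim.mp hχ) κ κ' t y hκℓ hκ1 hκ' hκ''
    rw [← hh, ← hq3, ← hqk] at h1
    have e1 : ∫ v : ℝ, (‖χ.LFunction ⟨1 / 2 - κ', t + y + v⟩‖ *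
        ‖MM χ (1 / κ) ⟨1 / 2 + κ, t⟩‖) * Wt h 40 v = ∫ v, LL χ v * Wt h 40 v := by rw [hLL]
    rw [e1] at h1
    have n1 : 0 ≤ ∫ v, DL χ κ κ' t y v * Wt h 40 v :=
      integral_nonneg fun v => mul_nonneg (hDL0 χ v) (Wt_pos hh0 40 v).le
    have n2 : 0 ≤ ∫ v, LL χ v * Wt h 40 v :=
      integral_nonneg fun v => mul_nonneg (hLL0 χ v) (Wt_pos hh0 40 v).le
    have c1 := cs_int (Wt_int hh0 40) (iD1 χ) (iD2 χ) (fun v => (Wt_pos hh0 40 v).le)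
    have c2 := cs_int (Wt_int hh0 40) (iL1 χ hχ) (iL2 χ hχ) (fun v => (Wt_pos hh0 40 v).le)
    have m1 : 0 ≤ ∫ v, DL χ κ κ' t y v ^ 2 * Wt h 40 v :=
      integral_nonneg fun v => mul_nonneg (sq_nonneg _) (Wt_pos hh0 40 v).le
    have m2 : 0 ≤ ∫ v, LL χ v ^ 2 * Wt h 40 v :=
      integral_nonneg fun v => mul_nonneg (sq_nonneg _) (Wt_pos hh0 40 v).le
    have d1 := c1.trans (mul_le_mul_of_nonneg_right hW0.2 m1)
    have d2 := c2.trans (mul_le_mul_of_nonneg_right hW0.2 m2)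
    calc LM χ κ κ' t y ^ 2 ≤ (A * q3 + A * Real.log q * (∫ v, DL χ κ κ' t y v * Wt h 40 v) +
          A * qk * κ⁻¹ * ∫ v, LL χ v * Wt h 40 v) ^ 2 :=
          pow_le_pow_left₀ (LM_nonneg χ κ κ' t y) h1 2
      _ ≤ _ := sq3 _ _ _
      _ = 3 * (A * q3) ^ 2 + 3 * (A * Real.log q) ^ 2 * (∫ v, DL χ κ κ' t y v * Wt h 40 v) ^ 2 +
          3 * (A * qk * κ⁻¹) ^ 2 * (∫ v, LL χ v * Wt h 40 v) ^ 2 := by ring
      _ ≤ _ := by gcongr
  have hsum := Finset.sum_le_sum hsq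
  rw [Finset.sum_add_distrib, Finset.sum_add_distrib, Finset.sum_const, nsmul_eq_mul,
    ← Finset.mul_sum, ← Finset.mul_sum, ← Finset.mul_sum, ← Finset.mul_sum] at hsum
  have hPh := one_le_Ph q
  obtain ⟨U, hU⟩ : ∃ U : ℝ, U = 1 + |y| / κ := ⟨_, rfl⟩
  have hU1 : 1 ≤ U := by
    rw [hU]; have : 0 ≤ |y| / κ := by positivity
    linarith
  -- first part
  have S1 : ((Prim q).card : ℝ) * (3 * (A * q3) ^ 2) ≤ 3 * A ^ 2 * (Ph q * U ^ 4) := by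
    have h1 : ((Prim q).card : ℝ) ≤ q := (card_Prim_le q).trans (by exact_mod_cast Nat.totient_le q)
    have h2 : (q : ℝ) * q3 ^ 2 ≤ 1 := by
      rw [hq3, ← Real.rpow_natCast, ← Real.rpow_mul hq0.le]
      nth_rewrite 1 [← Real.rpow_one (q : ℝ)]
      rw [← Real.rpow_add hq0]
      exact Real.rpow_le_one_of_one_le_of_nonpos hq1 (by norm_num)
    have h3 : 1 ≤ Ph q * U ^ 4 := by
      have : 1 ≤ U ^ 4 := one_le_pow₀ hU1
      nlinarith
    calc ((Prim q).card : ℝ) * (3 * (A * q3) ^ 2) ≤ (q : ℝ) * (3 * (A * q3) ^ 2) := by gcongr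
      _ = 3 * A ^ 2 * ((q : ℝ) * q3 ^ 2) := by ring
      _ ≤ 3 * A ^ 2 * (Ph q * U ^ 4) := mul_le_mul_of_nonneg_left (h2.trans h3) (by positivity)
  -- second part
  have S2 : ∑ χ ∈ Prim q, ∫ v, DL χ κ κ' t y v ^ 2 * Wt h 40 v ≤
      (C3 * (2 * C2 * 6 ^ 4)) * (Ph q * U ^ 4) * (Real.pi / h) := by
    rw [← integral_finsetSum _ (fun χ _ => iD2 χ)]
    have hW4 := Wt_pow_int hh0 (n := 40) (j := 4) (by norm_num)
    have hb : ∀ v, ∑ χ ∈ Prim q, DL χ κ κ' t y v ^ 2 * Wt h 40 v ≤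
        ((C3 * (2 * C2 * 6 ^ 4)) * (Ph q * U ^ 4)) * ((1 + h * |v|) ^ 4 * Wt h 40 v) := by
      intro v
      rw [← Finset.sum_mul, ← mul_assoc]
      apply mul_le_mul_of_nonneg_right _ (Wt_pos hh0 40 v).le
      obtain ⟨η, hη⟩ : ∃ η : ℝ, η = 2 * κ' + 2 / Real.log q := ⟨_, rfl⟩
      have hinv : 1 / Real.log q ≤ κ / 640 := by
        rw [div_le_div_iff₀ hℓ0 (by norm_num)]; linarith
      have hinv0 : 0 ≤ 1 / Real.log q := by positivity
      have hη1 : κ ≤ η := by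
        rw [hη]; have : 0 ≤ 2 / Real.log q := by positivity
        linarith
      have hη2 : η ≤ 4 * κ := by
        rw [hη]; have : 2 / Real.log q = 2 * (1 / Real.log q) := by ring
        rw [this]; linarith
      have h1 := hDD q (1 / κ) ⟨1 / 2 + κ, t⟩ ⟨1 / 2 + κ' + 1 / Real.log q, t + y + v⟩
        ⌊(q : ℝ) ^ (15 / 16 : ℝ)⌋₊ hX1 (by simp only; linarith) (by
          have e1 : ((⟨1 / 2 + κ' + 1 / Real.log q, t + y + v⟩ : ℂ) - ⟨1 / 2 + κ, t⟩).re =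
            κ' - κ + 1 / Real.log q := by
            simp only [Complex.sub_re]; ring
          rw [e1, mul_one_div, div_le_one hκ, abs_le]
          constructor <;> linarith)
      have e2 : 2 * (⟨1 / 2 + κ' + 1 / Real.log q, t + y + v⟩ : ℂ).re - 1 = η := by
        simp only; rw [hη]; ring
      rw [e2] at h1
      have e3 : ‖(⟨1 / 2 + κ' + 1 / Real.log q, t + y + v⟩ : ℂ) - ⟨1 / 2 + κ, t⟩‖ ≤
          κ + |y + v| := by
        refine (Complex.norm_le_abs_re_add_abs_im _).trans ?_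
        simp only [Complex.sub_re, Complex.sub_im]
        have e4 : t + y + v - t = y + v := by ring
        have e5 : 1 / 2 + κ' + 1 / Real.log q - (1 / 2 + κ) = κ' - κ + 1 / Real.log q := by ring
        rw [e4, e5]
        have : |κ' - κ + 1 / Real.log q| ≤ κ := by
          rw [abs_le]; constructor <;> linarith
        linarith
      have h2 : ∑ χ ∈ Prim q, DL χ κ κ' t y v ^ 2 = ∑ χ ∈ Prim q,
          ‖DD χ (1 / κ) ⟨1 / 2 + κ, t⟩ ⌊(q : ℝ) ^ (15 / 16 : ℝ)⌋₊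
            ⟨1 / 2 + κ' + 1 / Real.log q, t + y + v⟩‖ ^ 2 := rfl
      rw [h2]
      refine h1.trans ?_
      have h3 : (phs q : ℝ) + (⌊(q : ℝ) ^ (15 / 16 : ℝ)⌋₊ : ℝ) * q.divisors.card ≤ C3 * Ph q := by
        unfold Ph
        have h4 : (⌊(q : ℝ) ^ (15 / 16 : ℝ)⌋₊ : ℝ) ≤ (q : ℝ) ^ (15 / 16 : ℝ) :=
          Nat.floor_le (by positivity)
        have h5 := hτ q (by omega)
        have h6 : (q : ℝ) ^ (15 / 16 : ℝ) * (q : ℝ) ^ (1 / 32 : ℝ) = (q : ℝ) ^ (31 / 32 : ℝ) := by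
          rw [← Real.rpow_add hq0]; norm_num
        have h7 : (0 : ℝ) ≤ phs q := Nat.cast_nonneg _
        have h8 : (phs q : ℝ) ≤ C3 * (phs q : ℝ) := le_mul_of_one_le_left h7 hC3
        calc _ ≤ C3 * (phs q : ℝ) + (q : ℝ) ^ (15 / 16 : ℝ) * (C3 * (q : ℝ) ^ (1 / 32 : ℝ)) :=
              add_le_add h8 (mul_le_mul h4 h5 (Nat.cast_nonneg _) (by positivity))
          _ = C3 * ((phs q : ℝ) + (q : ℝ) ^ (15 / 16 : ℝ) * (q : ℝ) ^ (1 / 32 : ℝ)) := by ring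
          _ = _ := by rw [h6]
      have h4 : C2 * (1 + 1 / η) / (1 / κ) ≤ 2 * C2 := by
        have h5 : 1 / η ≤ 1 / κ := one_div_le_one_div_of_le hκ hη1
        have h6 : 0 < 1 / κ := by positivity
        rw [div_le_iff₀ h6]
        nlinarith
      have h5 : 1 + (‖(⟨1 / 2 + κ' + 1 / Real.log q, t + y + v⟩ : ℂ) - ⟨1 / 2 + κ, t⟩‖ + η) *
          (1 / κ) ≤ 6 * (U * (1 + h * |v|)) := by
        have h6 := uu_mul hκ hhκ y v
        rw [← hU] at h6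
        have h7 : (‖(⟨1 / 2 + κ' + 1 / Real.log q, t + y + v⟩ : ℂ) - ⟨1 / 2 + κ, t⟩‖ + η) *
            (1 / κ) ≤ (κ + |y + v| + 4 * κ) * (1 / κ) := by
          gcongr
        have h8 : (κ + |y + v| + 4 * κ) * (1 / κ) = 5 + |y + v| / κ := by
          field_simp; ring
        have h9 : 0 ≤ |y + v| / κ := by positivity
        linarith
      have hη0 : 0 < η := lt_of_lt_of_le hκ hη1
      calc _ ≤ (C3 * Ph q) * (2 * C2 * (6 * (U * (1 + h * |v|))) ^ 4) := by gcongr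
        _ = _ := by ring
    refine (integral_mono (integrable_finsetSum _ fun χ _ => iD2 χ)
      (hW4.1.const_mul ((C3 * (2 * C2 * 6 ^ 4)) * (Ph q * U ^ 4))) hb).trans ?_
    rw [integral_const_mul]
    have : 0 ≤ (C3 * (2 * C2 * 6 ^ 4)) * (Ph q * U ^ 4) := by positivity
    exact mul_le_mul_of_nonneg_left hW4.2 this
  -- third part
  obtain ⟨JJ', hJJ⟩ : ∃ J : ℝ, J = ∫ v : ℝ, ((1 + |t + y + v|) ^ (2 * κ') * BB q κ κ' t (y + v)) *
    Wt h 40 v := ⟨_, rfl⟩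
  have S3 : ∑ χ ∈ Prim q, ∫ v, LL χ v ^ 2 * Wt h 40 v ≤ Real.exp 20 * (q : ℝ) ^ (2 * κ') * JJ' := by
    rw [← integral_finsetSum _ iL2, hJJ, ← integral_const_mul]
    have hiB : Integrable (fun v => ((1 + |t + y + v|) ^ (2 * κ') * BB q κ κ' t (y + v)) *
        Wt h 40 v) := by
      have e : (fun v => ((1 + |t + y + v|) ^ (2 * κ') * BB q κ κ' t (y + v)) * Wt h 40 v) =
          fun v => ∑ χ ∈ Prim q, ((1 + |t + y + v|) ^ (2 * κ') * LM χ κ κ' t (y + v) ^ 2) *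
            Wt h 40 v := by
        funext v
        unfold BB
        rw [Finset.mul_sum, Finset.sum_mul]
      rw [e]
      apply integrable_finsetSum
      intro χ hχ
      have hcp : Continuous (fun v : ℝ => (1 + |t + y + v|) ^ (2 * κ')) := by
        apply Continuous.rpow_const (by fun_prop)
        intro v
        exact Or.inr (by linarith)
      have hc : Continuous (fun v : ℝ => (1 + |t + y + v|) ^ (2 * κ') * LM χ κ κ' t (y + v) ^ 2) :=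
        hcp.mul ((LM_cont (hne χ hχ) κ κ' t y).pow 2)
      apply Wt_int_of hh0 40 hc.aestronglyMeasurable
        (C := (1 + |t + y|) * ((1 + 4 * q) * (1 + |t + y|) * ‖MM χ (1 / κ) ⟨1 / 2 + κ, t⟩‖) ^ 2)
      intro v
      rw [abs_of_nonneg (by positivity)]
      have h1 := L_line_le (hne χ hχ) (σ := 1 / 2 + κ') (by linarith) (by linarith) (t + (y + v))
      have h2 := one_add_abs_add (t + y) v
      have e4 : t + (y + v) = t + y + v := by ring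
      rw [e4] at h1
      have h3 : LM χ κ κ' t (y + v) ≤
          ((1 + 4 * q) * (1 + |t + y|) * ‖MM χ (1 / κ) ⟨1 / 2 + κ, t⟩‖) * (1 + |v|) := by
        unfold LM
        rw [e4]
        calc _ ≤ ((1 + 4 * q) * ((1 + |t + y|) * (1 + |v|))) * ‖MM χ (1 / κ) ⟨1 / 2 + κ, t⟩‖ := by
              gcongr
              exact h1.trans (by gcongr)
          _ = _ := by ring
      have h5 : (1 + |t + y + v|) ^ (2 * κ') ≤ (1 + |t + y|) * (1 + |v|) := by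
        refine le_trans ?_ h2
        have h6 : 1 ≤ 1 + |t + y + v| := by have := abs_nonneg (t + y + v); linarith
        calc (1 + |t + y + v|) ^ (2 * κ') ≤ (1 + |t + y + v|) ^ (1 : ℝ) :=
              Real.rpow_le_rpow_of_exponent_le h6 (by linarith)
          _ = _ := Real.rpow_one _
      have h7 := LM_nonneg χ κ κ' t (y + v)
      calc _ ≤ ((1 + |t + y|) * (1 + |v|)) *
            (((1 + 4 * q) * (1 + |t + y|) * ‖MM χ (1 / κ) ⟨1 / 2 + κ, t⟩‖) * (1 + |v|)) ^ 2 := by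
            gcongr
        _ = ((1 + |t + y|) * ((1 + 4 * q) * (1 + |t + y|) * ‖MM χ (1 / κ) ⟨1 / 2 + κ, t⟩‖) ^ 2) *
            (1 + |v|) ^ 3 := by ring
        _ ≤ _ := by
            gcongr
            exact pow3_le_exp v
    apply integral_mono (integrable_finsetSum _ iL2) (hiB.const_mul _)
    intro v
    show ∑ χ ∈ Prim q, LL χ v ^ 2 * Wt h 40 v ≤ Real.exp 20 * (q : ℝ) ^ (2 * κ') *
      (((1 + |t + y + v|) ^ (2 * κ') * BB q κ κ' t (y + v)) * Wt h 40 v)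
    rw [← Finset.sum_mul, ← mul_assoc]
    apply mul_le_mul_of_nonneg_right _ (Wt_pos hh0 40 v).le
    unfold BB
    rw [Finset.mul_sum, Finset.mul_sum]
    apply Finset.sum_le_sum
    intro χ hχ
    have h1 := FE_fine q χ hq2 (mem_Prim.mp hχ) (1 / 2 - κ') (t + y + v) (by linarith) (by linarith)
    have e1 : (1 - (1 / 2 - κ') : ℝ) = 1 / 2 + κ' := by ring
    have e2 : (1 / 2 - (1 / 2 - κ') : ℝ) = κ' := by ring
    rw [e1, e2] at h1
    have h2 : LL χ v ≤ Real.exp 10 * ((1 + |t + y + v|) * q) ^ κ' * LM χ κ κ' t (y + v) := by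
      rw [hLL]
      unfold LM
      have e4 : t + (y + v) = t + y + v := by ring
      rw [e4, ← mul_assoc]
      exact mul_le_mul_of_nonneg_right h1 (norm_nonneg _)
    have h3 : (((1 + |t + y + v|) * q) ^ κ') ^ 2 = (1 + |t + y + v|) ^ (2 * κ') * (q : ℝ) ^ (2 * κ') := by
      rw [← Real.rpow_natCast, ← Real.rpow_mul (by positivity), Real.mul_rpow (by positivity) hq0.le]
      congr 2 <;> · push_cast; ring
    calc LL χ v ^ 2 ≤ (Real.exp 10 * ((1 + |t + y + v|) * q) ^ κ' * LM χ κ κ' t (y + v)) ^ 2 :=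
          pow_le_pow_left₀ (hLL0 χ v) h2 2
      _ = Real.exp 10 ^ 2 * (((1 + |t + y + v|) * q) ^ κ') ^ 2 * LM χ κ κ' t (y + v) ^ 2 := by ring
      _ = Real.exp 20 * (q : ℝ) ^ (2 * κ') * ((1 + |t + y + v|) ^ (2 * κ') *
          LM χ κ κ' t (y + v) ^ 2) := by
          rw [h3, ← Real.exp_nat_mul]
          have : Real.exp ((2 : ℕ) * 10) = Real.exp 20 := by norm_num
          rw [this]; ring
  -- collect
  have hJ0 : 0 ≤ JJ' := by
    rw [hJJ]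
    exact integral_nonneg fun v => mul_nonneg (mul_nonneg (by positivity) (BB_nonneg _ _ _ _ _))
      (Wt_pos hh0 40 v).le
  have hPU : 0 ≤ Ph q * U ^ 4 := by positivity
  have T2 : 3 * (A * Real.log q) ^ 2 * (Real.pi / h * ∑ χ ∈ Prim q,
      ∫ v, DL χ κ κ' t y v ^ 2 * Wt h 40 v) ≤
      3 * A ^ 2 * (640 * Real.pi) ^ 2 * (C3 * (2 * C2 * 6 ^ 4)) * (Ph q * U ^ 4) := by
    calc _ ≤ 3 * (A * Real.log q) ^ 2 * (Real.pi / h *
          ((C3 * (2 * C2 * 6 ^ 4)) * (Ph q * U ^ 4) * (Real.pi / h))) := by gcongr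
      _ = _ := by rw [hlogh]; field_simp
  have T3 : 3 * (A * qk * κ⁻¹) ^ 2 * (Real.pi / h * ∑ χ ∈ Prim q, ∫ v, LL χ v ^ 2 * Wt h 40 v) ≤
      3 * A ^ 2 * Real.pi * Real.exp 20 * ((q : ℝ) ^ (-κ') * κ⁻¹ * JJ') := by
    have e1 : qk ^ 2 * (q : ℝ) ^ (2 * κ') = (q : ℝ) ^ (-κ') := by
      rw [hqk, ← Real.rpow_natCast, ← Real.rpow_mul hq0.le, ← Real.rpow_add hq0]
      congr 1; push_cast; ring
    have e2 : κ⁻¹ * (1 / h) ≤ 1 := by
      have h1 : 1 / h ≤ κ := by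
        rw [div_le_iff₀ hh0]
        rw [div_le_iff₀ hκ] at hhκ
        linarith
      calc κ⁻¹ * (1 / h) ≤ κ⁻¹ * κ := by gcongr
        _ = 1 := inv_mul_cancel₀ hκ.ne'
    calc _ ≤ 3 * (A * qk * κ⁻¹) ^ 2 * (Real.pi / h * (Real.exp 20 * (q : ℝ) ^ (2 * κ') * JJ')) := by
          gcongr
      _ = 3 * A ^ 2 * Real.pi * Real.exp 20 * ((qk ^ 2 * (q : ℝ) ^ (2 * κ')) * κ⁻¹ * JJ') *
          (κ⁻¹ * (1 / h)) := by ring
      _ ≤ 3 * A ^ 2 * Real.pi * Real.exp 20 * ((qk ^ 2 * (q : ℝ) ^ (2 * κ')) * κ⁻¹ * JJ') * 1 := by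
          gcongr
      _ = _ := by rw [e1]; ring
  rw [← hU, ← hJJ]
  have hqκ : 0 < (q : ℝ) ^ (-κ') := Real.rpow_pos_of_pos hq0 _
  obtain ⟨V, hV⟩ : ∃ V : ℝ, V = (q : ℝ) ^ (-κ') * κ⁻¹ * JJ' := ⟨_, rfl⟩
  have hV0 : 0 ≤ V := by rw [hV]; positivity
  rw [← hV] at T3
  have hfin : BB q κ κ' t y ≤ 3 * A ^ 2 * (Ph q * U ^ 4) +
      3 * A ^ 2 * (640 * Real.pi) ^ 2 * (C3 * (2 * C2 * 6 ^ 4)) * (Ph q * U ^ 4) +
      3 * A ^ 2 * Real.pi * Real.exp 20 * V :=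
    hsum.trans (add_le_add (add_le_add S1 T2) T3)
  obtain ⟨a, ha⟩ : ∃ a : ℝ, a = 3 * A ^ 2 := ⟨_, rfl⟩
  obtain ⟨b, hb⟩ : ∃ b : ℝ, b = 3 * A ^ 2 * (640 * Real.pi) ^ 2 * (C3 * (2 * C2 * 6 ^ 4)) := ⟨_, rfl⟩
  obtain ⟨c, hc⟩ : ∃ c : ℝ, c = 3 * A ^ 2 * Real.pi * Real.exp 20 := ⟨_, rfl⟩
  have ha0 : 0 ≤ a := by rw [ha]; positivity
  have hb0 : 0 ≤ b := by rw [hb]; positivity
  have hc0 : 0 ≤ c := by rw [hc]; positivity
  rw [← hc, ← hb, ← ha] at hfin ⊢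
  have e5 : (a + b + c) * (q : ℝ) ^ (-κ') * κ⁻¹ * JJ' = (a + b + c) * V := by rw [hV]; ring
  rw [e5]
  have h5 : 0 ≤ c * (Ph q * U ^ 4) := by positivity
  have h6 : 0 ≤ (a + b) * V := by positivity
  calc BB q κ κ' t y ≤ a * (Ph q * U ^ 4) + b * (Ph q * U ^ 4) + c * V := hfin
    _ ≤ (a * (Ph q * U ^ 4) + b * (Ph q * U ^ 4) + c * V) + c * (Ph q * U ^ 4) + (a + b) * V := by
        linarith
    _ = _ := by ring

end Pool.Agent.NH13
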