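import Pool.Agent.NH13.MollSq

/-!
# The mean square of the mollified `L`-function: the bound
-/

set_option autoImplicit false

open Complex MeasureTheory Set Filter Topology

namespace Pool.Agent.NH13

open H385 (phs)

/-- the trivial bound -/
lemma BB_triv {q : ℕ} [NeZero q] (hq : 3 ≤ q) {κ κ' t y : ℝ} (hκℓ : 640 ≤ κ * Real.log q)
    (hκ1 : κ ≤ 1 / 16) (hκ' : κ / 2 ≤ κ') (hκ'' : κ' ≤ 3 * κ / 2) :
    BB q κ κ' t y ≤ 25 * (q : ℝ) ^ (49 / 16 : ℝ) * (1 + |t|) ^ 2 * (1 + |y|) ^ 2 := by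
  have hq2 : 2 ≤ q := by omega
  have hq0 : (0 : ℝ) < q := by exact_mod_cast NeZero.pos q
  have hq1 : (1 : ℝ) ≤ q := by exact_mod_cast NeZero.one_le
  have hℓ1 : 1 ≤ Real.log q := by
    rw [Real.le_log_iff_exp_le hq0]
    have h1 := Real.exp_one_lt_d9
    have h2 : (3 : ℝ) ≤ q := by exact_mod_cast hq
    linarith
  have hℓ0 : 0 < Real.log q := by linarith
  have hκ : 0 < κ := by
    by_contra h
    push Not at h
    nlinarith
  have hX1 : 1 ≤ 1 / κ := by rw [le_div_iff₀ hκ]; linarith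
  have hexp : Real.exp (1 / κ) ≤ (q : ℝ) ^ (1 / 32 : ℝ) := by
    rw [Real.rpow_def_of_pos hq0]
    apply Real.exp_le_exp.mpr
    rw [div_le_iff₀ hκ]
    nlinarith
  have h1 : ∀ χ ∈ Prim q, LM χ κ κ' t y ^ 2 ≤
      (5 * q * ((1 + |t|) * (1 + |y|)) * (q : ℝ) ^ (1 / 32 : ℝ)) ^ 2 := by
    intro χ hχ
    apply pow_le_pow_left₀ (LM_nonneg _ _ _ _ _)
    unfold LM
    have h2 := L_line_le (ne_one_of_prim hq2 (mem_Prim.mp hχ)) (σ := 1 / 2 + κ') (by linarith)
      (by linarith) (t + y)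
    have h3 := one_add_abs_add t y
    have h4 := MM_norm_le χ hX1 (w := ⟨1 / 2 + κ, t⟩) (by simp only; linarith)
    have h5 : (1 + 4 * (q : ℝ)) ≤ 5 * q := by linarith
    calc _ ≤ (5 * q * ((1 + |t|) * (1 + |y|))) * (q : ℝ) ^ (1 / 32 : ℝ) := by
          gcongr
          · exact h2.trans (by gcongr)
          · exact h4.trans hexp
      _ = _ := rfl
  unfold BB
  refine (Finset.sum_le_sum h1).trans ?_
  rw [Finset.sum_const, nsmul_eq_mul]
  have h6 : ((Prim q).card : ℝ) ≤ q := (card_Prim_le q).trans (by exact_mod_cast Nat.totient_le q)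
  have h7 : (q : ℝ) * (q : ℝ) ^ 2 * ((q : ℝ) ^ (1 / 32 : ℝ)) ^ 2 = (q : ℝ) ^ (49 / 16 : ℝ) := by
    have e1 : (q : ℝ) * (q : ℝ) ^ 2 = (q : ℝ) ^ (3 : ℝ) := by
      rw [show (3 : ℝ) = ((3 : ℕ) : ℝ) by norm_num, Real.rpow_natCast]; ring
    rw [e1, ← Real.rpow_natCast ((q : ℝ) ^ (1 / 32 : ℝ)), ← Real.rpow_mul hq0.le, ← Real.rpow_add hq0]
    congr 1; norm_num
  calc _ ≤ (q : ℝ) * (5 * q * ((1 + |t|) * (1 + |y|)) * (q : ℝ) ^ (1 / 32 : ℝ)) ^ 2 := by gcongr
    _ = 25 * ((q : ℝ) * (q : ℝ) ^ 2 * ((q : ℝ) ^ (1 / 32 : ℝ)) ^ 2) * (1 + |t|) ^ 2 * (1 + |y|) ^ 2 := by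
        ring
    _ = _ := by rw [h7]

lemma rpow_le_pow_of {q x a : ℝ} {n : ℕ} {b : ℝ} (hq : 1 ≤ q) (hx : q ^ a ≤ x)
    (hn : b ≤ a * n) : q ^ b ≤ x ^ n := by
  have hq0 : 0 < q := by linarith
  calc q ^ b ≤ q ^ (a * n) := Real.rpow_le_rpow_of_exponent_le hq hn
    _ = (q ^ a) ^ n := by rw [Real.rpow_mul hq0.le, Real.rpow_natCast]
    _ ≤ x ^ n := pow_le_pow_left₀ (by positivity) hx n

/-- the weight in the shift -/
noncomputable def uu (κ y : ℝ) : ℝ := 1 + |y| / κ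

theorem moll_sq : ∃ C U₀ : ℝ, 1 ≤ C ∧ 640 ≤ U₀ ∧ ∀ (q : ℕ) [NeZero q], 3 ≤ q → ∀ κ κ' t y : ℝ,
    U₀ ≤ κ * Real.log q → κ ≤ 1 / 16 → κ / 2 ≤ κ' → κ' ≤ 3 * κ / 2 →
    BB q κ κ' t y ≤ C * Ph q * ((1 + |t|) * uu κ y) ^ 34 := by
  obtain ⟨C, hC, hrec⟩ := BB_rec
  have hpi := Real.pi_pos
  have hC0 : 0 < C := by linarith
  refine ⟨2 * (C + 25 * C * Real.pi) + 25, max 640 (16 * Real.pi * C), by
    have : 0 ≤ 25 * C * Real.pi := by positivity
    linarith, le_max_left _ _, ?_⟩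
  intro q _ hq κ κ' t y hU hκ1 hκ' hκ''
  have hκℓ : 640 ≤ κ * Real.log q := (le_max_left _ _).trans hU
  have hU2 : 16 * Real.pi * C ≤ κ * Real.log q := (le_max_right _ _).trans hU
  have hq2 : 2 ≤ q := by omega
  have hq0 : (0 : ℝ) < q := by exact_mod_cast NeZero.pos q
  have hq1 : (1 : ℝ) ≤ q := by exact_mod_cast NeZero.one_le
  have hℓ1 : 1 ≤ Real.log q := by
    rw [Real.le_log_iff_exp_le hq0]
    have h1 := Real.exp_one_lt_d9
    have h2 : (3 : ℝ) ≤ q := by exact_mod_cast hq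
    linarith
  have hℓ0 : 0 < Real.log q := by linarith
  have hκ : 0 < κ := by
    by_contra h
    push Not at h
    nlinarith
  have hκ'0 : 0 < κ' := by linarith
  have hPh := one_le_Ph q
  have hu1 : ∀ y : ℝ, 1 ≤ uu κ y := fun y => by
    have : 0 ≤ |y| / κ := by positivity
    unfold uu
    linarith
  have hu2 : ∀ y : ℝ, 1 + |y| ≤ uu κ y := fun y => by
    unfold uu
    have : |y| ≤ |y| / κ := by
      rw [le_div_iff₀ hκ]
      have := abs_nonneg y
      nlinarith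
    linarith
  have ht1 : 1 ≤ 1 + |t| := by have := abs_nonneg t; linarith
  rcases lt_or_ge ((q : ℝ) ^ (1 / 8 : ℝ)) (1 + |t|) with ht | ht
  · -- large `t`
    refine (BB_triv hq hκℓ hκ1 hκ' hκ'').trans ?_
    have h1 : (q : ℝ) ^ (49 / 16 : ℝ) ≤ (1 + |t|) ^ 32 :=
      rpow_le_pow_of hq1 ht.le (by norm_num)
    have h2 : (1 + |y|) ^ 2 ≤ uu κ y ^ 34 := by
      calc (1 + |y|) ^ 2 ≤ uu κ y ^ 2 := pow_le_pow_left₀ (by positivity) (hu2 y) 2
        _ ≤ _ := pow_le_pow_right₀ (hu1 y) (by norm_num)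
    have h9 : ∀ T : ℝ, 25 * T ^ 32 * T ^ 2 * uu κ y ^ 34 = 25 * 1 * (T * uu κ y) ^ 34 := by
      intro T; ring
    calc 25 * (q : ℝ) ^ (49 / 16 : ℝ) * (1 + |t|) ^ 2 * (1 + |y|) ^ 2
        ≤ 25 * (1 + |t|) ^ 32 * (1 + |t|) ^ 2 * uu κ y ^ 34 := by gcongr
      _ = 25 * 1 * ((1 + |t|) * uu κ y) ^ 34 := h9 _
      _ ≤ (2 * (C + 25 * C * Real.pi) + 25) * Ph q * ((1 + |t|) * uu κ y) ^ 34 := by
          have : 0 ≤ 2 * (C + 25 * C * Real.pi) := by positivity
          gcongr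
          linarith
  · -- the main case
    obtain ⟨h, hh⟩ : ∃ h : ℝ, h = Real.log q / 640 := ⟨_, rfl⟩
    have hh0 : 0 < h := by rw [hh]; positivity
    have hhκ : 1 / κ ≤ h := by
      rw [hh, div_le_div_iff₀ hκ (by norm_num)]; linarith
    have hW := Wt_pow_int hh0 (n := 40) (j := 34) (by norm_num)
    have hstep : ∀ β : ℝ, 0 ≤ β → (∀ y, BB q κ κ' t y ≤ β * uu κ y ^ 34) →
        ∀ y, BB q κ κ' t y ≤ ((C + 25 * C * Real.pi) * Ph q + β / 2) * uu κ y ^ 34 := by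
      intro β hβ hall y
      have h1 := hrec q hq κ κ' t y hκℓ hκ1 hκ' hκ''
      rw [← hh] at h1
      -- the pointwise bound
      have h2 : ∀ y' : ℝ, (1 + |t + y'|) ^ (2 * κ') * BB q κ κ' t y' ≤
          ((q : ℝ) ^ (3 / 4 * κ') * β + 25 * (q : ℝ) ^ (κ' / 4)) * uu κ y' ^ 34 := by
        intro y'
        have hB0 := BB_nonneg q κ κ' t y'
        have h3 : (1 + |t + y'|) ^ (2 * κ') ≤ (1 + |t|) ^ (2 * κ') * (1 + |y'|) ^ (2 * κ') := by
          rw [← Real.mul_rpow (by positivity) (by positivity)]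
          exact Real.rpow_le_rpow (by positivity) (one_add_abs_add t y') (by linarith)
        have h4 : (1 + |t|) ^ (2 * κ') ≤ (q : ℝ) ^ (κ' / 4) := by
          calc (1 + |t|) ^ (2 * κ') ≤ ((q : ℝ) ^ (1 / 8 : ℝ)) ^ (2 * κ') :=
                Real.rpow_le_rpow (by positivity) ht (by linarith)
            _ = (q : ℝ) ^ (κ' / 4) := by
                rw [← Real.rpow_mul hq0.le]; congr 1; ring
        have hy1 : 1 ≤ 1 + |y'| := by have := abs_nonneg y'; linarith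
        have hqk : 0 < (q : ℝ) ^ (κ' / 4) := Real.rpow_pos_of_pos hq0 _
        have hqk3 : 0 < (q : ℝ) ^ (3 / 4 * κ') := Real.rpow_pos_of_pos hq0 _
        rcases le_or_gt (1 + |y'|) ((q : ℝ) ^ (1 / 4 : ℝ)) with hy | hy
        · have h5 : (1 + |y'|) ^ (2 * κ') ≤ (q : ℝ) ^ (κ' / 2) := by
            calc (1 + |y'|) ^ (2 * κ') ≤ ((q : ℝ) ^ (1 / 4 : ℝ)) ^ (2 * κ') :=
                  Real.rpow_le_rpow (by positivity) hy (by linarith)
              _ = (q : ℝ) ^ (κ' / 2) := by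
                  rw [← Real.rpow_mul hq0.le]; congr 1; ring
          have h6 : (q : ℝ) ^ (κ' / 4) * (q : ℝ) ^ (κ' / 2) = (q : ℝ) ^ (3 / 4 * κ') := by
            rw [← Real.rpow_add hq0]; congr 1; ring
          calc (1 + |t + y'|) ^ (2 * κ') * BB q κ κ' t y'
              ≤ ((q : ℝ) ^ (κ' / 4) * (q : ℝ) ^ (κ' / 2)) * (β * uu κ y' ^ 34) := by
                gcongr
                · exact h3.trans (by gcongr)
                · exact hall y'
            _ = ((q : ℝ) ^ (3 / 4 * κ') * β) * uu κ y' ^ 34 := by rw [h6]; ring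
            _ ≤ _ := by
                gcongr
                linarith
        · have h5 : (1 + |y'|) ^ (2 * κ') ≤ 1 + |y'| := by
            calc (1 + |y'|) ^ (2 * κ') ≤ (1 + |y'|) ^ (1 : ℝ) :=
                  Real.rpow_le_rpow_of_exponent_le hy1 (by linarith)
              _ = _ := Real.rpow_one _
          have h6 := BB_triv (t := t) (y := y') hq hκℓ hκ1 hκ' hκ''
          have h7 : (q : ℝ) ^ (49 / 16 : ℝ) * (1 + |t|) ^ 2 ≤ (1 + |y'|) ^ 31 := by
            calc (q : ℝ) ^ (49 / 16 : ℝ) * (1 + |t|) ^ 2 ≤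
                  (q : ℝ) ^ (49 / 16 : ℝ) * ((q : ℝ) ^ (1 / 8 : ℝ)) ^ 2 := by gcongr
              _ = (q : ℝ) ^ (53 / 16 : ℝ) := by
                  rw [← Real.rpow_natCast ((q : ℝ) ^ (1 / 8 : ℝ)), ← Real.rpow_mul hq0.le,
                    ← Real.rpow_add hq0]
                  congr 1; norm_num
              _ ≤ _ := rpow_le_pow_of hq1 hy.le (by norm_num)
          calc (1 + |t + y'|) ^ (2 * κ') * BB q κ κ' t y'
              ≤ ((q : ℝ) ^ (κ' / 4) * (1 + |y'|)) *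
                (25 * (q : ℝ) ^ (49 / 16 : ℝ) * (1 + |t|) ^ 2 * (1 + |y'|) ^ 2) := by
                gcongr
                exact h3.trans (by gcongr)
            _ = 25 * (q : ℝ) ^ (κ' / 4) * (((q : ℝ) ^ (49 / 16 : ℝ) * (1 + |t|) ^ 2) *
                (1 + |y'|) ^ 3) := by ring
            _ ≤ 25 * (q : ℝ) ^ (κ' / 4) * ((1 + |y'|) ^ 31 * (1 + |y'|) ^ 3) := by gcongr
            _ = 25 * (q : ℝ) ^ (κ' / 4) * (1 + |y'|) ^ 34 := by rw [← pow_add]
            _ ≤ 25 * (q : ℝ) ^ (κ' / 4) * uu κ y' ^ 34 := by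
                gcongr 25 * (q : ℝ) ^ (κ' / 4) * ?_
                exact pow_le_pow_left₀ (by positivity) (hu2 y') 34
            _ ≤ _ := by
                have : 0 ≤ (q : ℝ) ^ (3 / 4 * κ') * β := by positivity
                gcongr
                linarith
      obtain ⟨G, hG⟩ : ∃ G : ℝ, G = (q : ℝ) ^ (3 / 4 * κ') * β + 25 * (q : ℝ) ^ (κ' / 4) := ⟨_, rfl⟩
      have hG0 : 0 ≤ G := by rw [hG]; positivity
      rw [← hG] at h2
      have h3 : ∫ v : ℝ, ((1 + |t + y + v|) ^ (2 * κ') * BB q κ κ' t (y + v)) * Wt h 40 v ≤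
          G * uu κ y ^ 34 * (Real.pi / h) := by
        have h4 : ∀ v : ℝ, ((1 + |t + y + v|) ^ (2 * κ') * BB q κ κ' t (y + v)) * Wt h 40 v ≤
            (G * uu κ y ^ 34) * ((1 + h * |v|) ^ 34 * Wt h 40 v) := by
          intro v
          rw [← mul_assoc]
          apply mul_le_mul_of_nonneg_right _ (Wt_pos hh0 40 v).le
          have h5 := h2 (y + v)
          rw [← add_assoc] at h5
          refine h5.trans ?_
          have h6 := uu_mul hκ hhκ y v
          calc G * uu κ (y + v) ^ 34 ≤ G * (uu κ y * (1 + h * |v|)) ^ 34 := by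
                gcongr
                · exact (lt_of_lt_of_le one_pos (hu1 _)).le
                · exact h6
            _ = _ := by rw [mul_pow, ← mul_assoc]
        refine (integral_mono_of_nonneg (Eventually.of_forall fun v => ?_) (hW.1.const_mul _)
          (Eventually.of_forall h4)).trans ?_
        · exact mul_nonneg (mul_nonneg (by positivity) (BB_nonneg _ _ _ _ _)) (Wt_pos hh0 40 v).le
        · rw [integral_const_mul]
          exact mul_le_mul_of_nonneg_left hW.2 (by positivity)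
      have hκi : 0 < κ⁻¹ := inv_pos.mpr hκ
      have h5 : κ⁻¹ * (Real.pi / h) ≤ Real.pi := by
        have h6 : 1 / h ≤ κ := by
          rw [div_le_iff₀ hh0]
          rw [div_le_iff₀ hκ] at hhκ
          linarith
        calc κ⁻¹ * (Real.pi / h) = Real.pi * (κ⁻¹ * (1 / h)) := by ring
          _ ≤ Real.pi * (κ⁻¹ * κ) := by gcongr
          _ = Real.pi := by rw [inv_mul_cancel₀ hκ.ne', mul_one]
      have hqκ : 0 < (q : ℝ) ^ (-κ') := Real.rpow_pos_of_pos hq0 _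
      have h6 : C * (q : ℝ) ^ (-κ') * κ⁻¹ * (G * uu κ y ^ 34 * (Real.pi / h)) ≤
          (25 * C * Real.pi + β / 2) * uu κ y ^ 34 := by
        have e1 : (q : ℝ) ^ (-κ') * (q : ℝ) ^ (3 / 4 * κ') = (q : ℝ) ^ (-(κ' / 4)) := by
          rw [← Real.rpow_add hq0]; congr 1; ring
        have e2 : (q : ℝ) ^ (-κ') * (q : ℝ) ^ (κ' / 4) ≤ 1 := by
          rw [← Real.rpow_add hq0]
          exact Real.rpow_le_one_of_one_le_of_nonpos hq1 (by linarith)
        have e3 : C * Real.pi * (q : ℝ) ^ (-(κ' / 4)) ≤ 1 / 2 := by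
          have h7 : (q : ℝ) ^ (-(κ' / 4)) = Real.exp (-(κ' * Real.log q / 4)) := by
            rw [Real.rpow_def_of_pos hq0]; congr 1; ring
          have h8 : 2 * Real.pi * C ≤ κ' * Real.log q / 4 := by nlinarith
          have h9 : κ' * Real.log q / 4 ≤ Real.exp (κ' * Real.log q / 4) := by
            have := Real.add_one_le_exp (κ' * Real.log q / 4)
            linarith
          rw [h7, Real.exp_neg, ← div_eq_mul_inv, div_le_iff₀ (Real.exp_pos _)]
          linarith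
        calc _ = C * (q : ℝ) ^ (-κ') * G * (κ⁻¹ * (Real.pi / h)) * uu κ y ^ 34 := by ring
          _ ≤ C * (q : ℝ) ^ (-κ') * G * Real.pi * uu κ y ^ 34 := by gcongr
          _ = ((C * Real.pi * ((q : ℝ) ^ (-κ') * (q : ℝ) ^ (3 / 4 * κ'))) * β +
              25 * C * Real.pi * ((q : ℝ) ^ (-κ') * (q : ℝ) ^ (κ' / 4))) * uu κ y ^ 34 := by
              rw [hG]; ring
          _ ≤ ((1 / 2) * β + 25 * C * Real.pi * 1) * uu κ y ^ 34 := by
              rw [e1]; gcongr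
          _ = _ := by ring
      have h7 : uu κ y ^ 4 ≤ uu κ y ^ 34 := pow_le_pow_right₀ (hu1 y) (by norm_num)
      calc BB q κ κ' t y ≤ C * Ph q * uu κ y ^ 4 + C * (q : ℝ) ^ (-κ') * κ⁻¹ *
            ∫ v : ℝ, ((1 + |t + y + v|) ^ (2 * κ') * BB q κ κ' t (y + v)) * Wt h 40 v := h1
        _ ≤ C * Ph q * uu κ y ^ 34 + C * (q : ℝ) ^ (-κ') * κ⁻¹ *
            (G * uu κ y ^ 34 * (Real.pi / h)) := by gcongr
        _ ≤ C * Ph q * uu κ y ^ 34 + (25 * C * Real.pi + β / 2) * uu κ y ^ 34 := by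
            gcongr
        _ ≤ C * Ph q * uu κ y ^ 34 + (25 * C * Real.pi * Ph q + β / 2) *
            uu κ y ^ 34 := by
            have : 25 * C * Real.pi ≤ 25 * C * Real.pi * Ph q := le_mul_of_one_le_right (by positivity) hPh
            gcongr
        _ = _ := by ring
    -- the infimum
    let S : Set ℝ := {β | 0 ≤ β ∧ ∀ y, BB q κ κ' t y ≤ β * uu κ y ^ 34}
    have hSne : S.Nonempty := by
      refine ⟨25 * (q : ℝ) ^ (49 / 16 : ℝ) * (1 + |t|) ^ 2, by positivity, fun y => ?_⟩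
      refine (BB_triv hq hκℓ hκ1 hκ' hκ'').trans ?_
      gcongr 25 * (q : ℝ) ^ (49 / 16 : ℝ) * (1 + |t|) ^ 2 * ?_
      calc (1 + |y|) ^ 2 ≤ uu κ y ^ 2 := pow_le_pow_left₀ (by positivity) (hu2 y) 2
        _ ≤ _ := pow_le_pow_right₀ (hu1 y) (by norm_num)
    have hSb : BddBelow S := ⟨0, fun β hβ => hβ.1⟩
    obtain ⟨m, hm⟩ : ∃ m : ℝ, m = sInf S := ⟨_, rfl⟩
    obtain ⟨C1, hC1⟩ : ∃ C1 : ℝ, C1 = (C + 25 * C * Real.pi) * Ph q := ⟨_, rfl⟩
    have hC10 : 0 ≤ C1 := by rw [hC1]; positivity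
    have h1 : ∀ β ∈ S, m ≤ C1 + β / 2 := by
      intro β hβ
      rw [hm]
      apply csInf_le hSb
      refine ⟨by have := hβ.1; linarith, ?_⟩
      rw [hC1]
      exact hstep β hβ.1 hβ.2
    have h2 : m ≤ 2 * C1 := by
      have h3 : 2 * (m - C1) ≤ m := by
        rw [hm]
        apply le_csInf hSne
        intro β hβ
        rw [← hm]
        have := h1 β hβ
        linarith
      linarith
    have h3 : BB q κ κ' t y ≤ m * uu κ y ^ 34 := by
      have hp : 0 < uu κ y ^ 34 := by have := hu1 y; positivity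
      rw [← div_le_iff₀ hp, hm]
      apply le_csInf hSne
      intro β hβ
      rw [div_le_iff₀ hp]
      exact hβ.2 y
    have h4 : uu κ y ^ 34 ≤ ((1 + |t|) * uu κ y) ^ 34 := by
      apply pow_le_pow_left₀ (by have := hu1 y; positivity)
      exact le_mul_of_one_le_left (by have := hu1 y; positivity) ht1
    calc BB q κ κ' t y ≤ m * uu κ y ^ 34 := h3
      _ ≤ (2 * C1) * ((1 + |t|) * uu κ y) ^ 34 := by gcongr
      _ ≤ _ := by
          apply mul_le_mul_of_nonneg_right _ (by positivity)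
          rw [hC1]
          nlinarith

end Pool.Agent.NH13
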