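import Mathlib

/-!
# The sums `∑ μ(m)/m log(x/m)` over `m ≤ x` prime to `d`
-/

set_option autoImplicit false

open Finset

namespace Pool.Agent.NH13

open ArithmeticFunction (moebius)

/-- the indicator of the integers all of whose prime factors divide `d` -/
def smo (d n : ℕ) : Prop := n.primeFactors ⊆ d.primeFactors

instance (d n : ℕ) : Decidable (smo d n) := by unfold smo; infer_instance

/-- `∑ μ(m)` over the divisors of `n` prime to `d` -/
lemma sum_mu_coprime (d n : ℕ) (hd : d ≠ 0) (hn : n ≠ 0) :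
    ∑ m ∈ n.divisors.filter (fun m => m.Coprime d), (moebius m : ℤ) = if smo d n then 1 else 0 := by
  -- the divisors prime to `d` are the divisors of the part prime to `d`
  classical
  obtain ⟨a, b, hab, hb, ha⟩ : ∃ a b : ℕ, n = a * b ∧ b.Coprime d ∧ a.primeFactors ⊆ d.primeFactors := by
    refine ⟨∏ p ∈ n.primeFactors.filter (fun p => p ∣ d), p ^ n.factorization p,
      ∏ p ∈ n.primeFactors.filter (fun p => ¬ p ∣ d), p ^ n.factorization p, ?_, ?_, ?_⟩
    · rw [Finset.prod_filter_mul_prod_filter_not]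
      exact (Nat.prod_factorization_pow_eq_self hn).symm
    · apply Nat.Coprime.prod_left
      intro p hp
      rw [Finset.mem_filter] at hp
      apply Nat.Coprime.pow_left
      exact (Nat.Prime.coprime_iff_not_dvd (Nat.prime_of_mem_primeFactors hp.1)).2 hp.2
    · intro p hp
      have hpp := Nat.prime_of_mem_primeFactors hp
      have hpd := Nat.dvd_of_mem_primeFactors hp
      rw [Prime.dvd_finsetProd_iff hpp.prime] at hpd
      obtain ⟨r, hr, hpr⟩ := hpd
      rw [Finset.mem_filter] at hr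
      have hrp := Nat.prime_of_mem_primeFactors hr.1
      have : p = r := (Nat.prime_dvd_prime_iff_eq hpp hrp).1 (hpp.dvd_of_dvd_pow hpr)
      rw [this]
      exact Nat.mem_primeFactors.2 ⟨hrp, hr.2, hd⟩
  have ha0 : a ≠ 0 := by rintro rfl; simp at hab; exact hn hab
  have hb0 : b ≠ 0 := by rintro rfl; simp at hab; exact hn hab
  have hset : n.divisors.filter (fun m => m.Coprime d) = b.divisors := by
    ext m
    rw [Finset.mem_filter, Nat.mem_divisors, Nat.mem_divisors]
    constructor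
    · rintro ⟨⟨h1, -⟩, h2⟩
      refine ⟨?_, hb0⟩
      have h3 : m.Coprime a := by
        rw [Nat.coprime_comm]
        by_contra hcon
        obtain ⟨p, hp, hpa, hpm⟩ := Nat.Prime.not_coprime_iff_dvd.1 hcon
        have h4 : p ∈ d.primeFactors := ha (Nat.mem_primeFactors.2 ⟨hp, hpa, ha0⟩)
        have h5 := Nat.dvd_of_mem_primeFactors h4
        exact Nat.not_coprime_of_dvd_of_dvd hp.one_lt hpm h5 h2
      rw [hab] at h1
      exact h3.dvd_of_dvd_mul_left h1
    · rintro ⟨h1, -⟩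
      refine ⟨⟨?_, hn⟩, ?_⟩
      · rw [hab]; exact Dvd.dvd.mul_left h1 a
      · exact Nat.Coprime.coprime_dvd_left h1 hb
  rw [hset]
  have h2 : ∑ m ∈ b.divisors, (moebius m : ℤ) = if b = 1 then 1 else 0 := by
    have h3 := congrArg (fun f : ArithmeticFunction ℤ => f b) ArithmeticFunction.moebius_mul_coe_zeta
    simp only [ArithmeticFunction.coe_mul_zeta_apply, ArithmeticFunction.one_apply] at h3
    exact h3
  rw [h2]
  congr 1
  apply propext
  unfold smo
  constructor
  · rintro rfl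
    rw [hab, mul_one]; exact ha
  · intro h
    by_contra hb1
    obtain ⟨p, hp, hpb⟩ := Nat.exists_prime_and_dvd hb1
    have h4 : p ∈ n.primeFactors := Nat.mem_primeFactors.2 ⟨hp, hab ▸ Dvd.dvd.mul_left hpb a, hn⟩
    have h5 := Nat.dvd_of_mem_primeFactors (h h4)
    exact Nat.not_coprime_of_dvd_of_dvd hp.one_lt hpb h5 hb

/-- Summation over multiples -/
lemma sum_swap (d N : ℕ) (hd : d ≠ 0) (f : ℕ → ℝ) :
    ∑ m ∈ (Icc 1 N).filter (fun m => m.Coprime d), (moebius m : ℝ) *
      (∑ j ∈ Icc 1 (N / m), f (m * j)) = ∑ k ∈ (Icc 1 N).filter (fun k => smo d k), f k := by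
  classical
  have h1 : ∀ k ∈ Icc 1 N, (if smo d k then f k else 0) =
      ∑ m ∈ (Icc 1 N).filter (fun m => m.Coprime d), (if m ∣ k then (moebius m : ℝ) * f k else 0) := by
    intro k hk
    rw [mem_Icc] at hk
    rw [← Finset.sum_filter]
    have h2 : ((Icc 1 N).filter (fun m => m.Coprime d)).filter (fun m => m ∣ k) =
        k.divisors.filter (fun m => m.Coprime d) := by
      ext m
      simp only [Finset.mem_filter, mem_Icc, Nat.mem_divisors]
      constructor
      · rintro ⟨⟨_, h3⟩, h4⟩; exact ⟨⟨h4, by omega⟩, h3⟩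
      · rintro ⟨⟨h3, _⟩, h4⟩
        exact ⟨⟨⟨Nat.pos_of_dvd_of_pos h3 (by omega), (Nat.le_of_dvd (by omega) h3).trans hk.2⟩, h4⟩, h3⟩
    rw [h2, ← Finset.sum_mul]
    have h3 := sum_mu_coprime d k hd (by omega)
    have h4 : (∑ m ∈ k.divisors.filter (fun m => m.Coprime d), (moebius m : ℝ)) =
        ((∑ m ∈ k.divisors.filter (fun m => m.Coprime d), (moebius m : ℤ) : ℤ) : ℝ) := by push_cast; rfl
    rw [h4, h3]
    split_ifs <;> simp
  rw [Finset.sum_filter (fun k => smo d k), Finset.sum_congr rfl h1, Finset.sum_comm]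
  apply Finset.sum_congr rfl
  intro m hm
  rw [Finset.mem_filter, mem_Icc] at hm
  rw [Finset.mul_sum, ← Finset.sum_filter]
  symm
  refine Finset.sum_bij' (fun k _ => k / m) (fun j _ => m * j) ?_ ?_ ?_ ?_ ?_
  · intro k hk
    rw [Finset.mem_filter, mem_Icc] at hk
    obtain ⟨⟨h2, h3⟩, j, rfl⟩ := hk
    rw [Nat.mul_div_cancel_left _ (by omega), mem_Icc]
    refine ⟨Nat.pos_of_ne_zero (by rintro rfl; simp at h2), ?_⟩
    rw [Nat.le_div_iff_mul_le (by omega), mul_comm]
    exact h3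
  · intro j hj
    rw [mem_Icc] at hj
    rw [Finset.mem_filter, mem_Icc]
    refine ⟨⟨Nat.mul_pos (by omega) (by omega), ?_⟩, dvd_mul_right _ _⟩
    have := (Nat.le_div_iff_mul_le (by omega : 0 < m)).1 hj.2
    rw [mul_comm]; exact this
  · intro k hk
    rw [Finset.mem_filter] at hk
    exact Nat.mul_div_cancel' hk.2
  · intro j _
    exact Nat.mul_div_cancel_left _ (by omega)
  · intro k hk
    rw [Finset.mem_filter] at hk
    rw [Nat.mul_div_cancel' hk.2]

lemma abs_moebius_le (m : ℕ) : |(moebius m : ℝ)| ≤ 1 := by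
  exact_mod_cast ArithmeticFunction.abs_moebius_le_one

/-- the sum of `1/k` over `k` composed of primes dividing `d` -/
lemma sum_smo (d N : ℕ) (hd : d ≠ 0) :
    ∑ k ∈ (Icc 1 N).filter (fun k => smo d k), (1 : ℝ) / k ≤ d / d.totient := by
  classical
  have h2 : HasSum (fun m : Nat.factoredNumbers d.primeFactors => (((m : ℕ) : ℝ))⁻¹)
        (∏ p ∈ d.primeFactors, (1 - ((p : ℕ) : ℝ)⁻¹)⁻¹) := by
    let f : ℕ →* ℝ := ⟨⟨fun n : ℕ => ((n : ℝ))⁻¹, by simp⟩, fun a b => by
      simp [mul_comm]⟩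
    have h := EulerProduct.summable_and_hasSum_factoredNumbers_prod_filter_prime_geometric
      (f := f) (fun {p} hp => by
        have : f p = ((p : ℝ))⁻¹ := rfl
        rw [this, norm_inv, Real.norm_natCast]
        exact inv_lt_one_of_one_lt₀ (by exact_mod_cast hp.one_lt)) d.primeFactors
    obtain ⟨-, h2⟩ := h
    have h3 : (d.primeFactors.filter Nat.Prime) = d.primeFactors := by
      apply Finset.filter_true_of_mem
      intro p hp; exact Nat.prime_of_mem_primeFactors hp
    rw [h3] at h2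
    exact h2
  have h3 : (∏ p ∈ d.primeFactors, (1 - ((p : ℕ) : ℝ)⁻¹)⁻¹) = d / d.totient := by
    have h4 := Nat.totient_eq_mul_prod_factors d
    have h5 : (d.totient : ℝ) = d * ∏ p ∈ d.primeFactors, (1 - ((p : ℕ) : ℝ)⁻¹) := by
      have := congrArg (fun x : ℚ => (x : ℝ)) h4
      push_cast at this
      exact this
    rw [Finset.prod_inv_distrib, h5]
    have hd0 : (d : ℝ) ≠ 0 := by exact_mod_cast hd
    have h6 : ∏ p ∈ d.primeFactors, (1 - ((p : ℕ) : ℝ)⁻¹) ≠ 0 := by
      intro h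
      rw [h, mul_zero] at h5
      have : 0 < d.totient := Nat.totient_pos.2 (Nat.pos_of_ne_zero hd)
      rw [← Nat.cast_pos (α := ℝ)] at this
      linarith
    field_simp
  rw [← h3]
  have h4 : HasSum ((Nat.factoredNumbers d.primeFactors).indicator (fun m : ℕ => ((m : ℝ))⁻¹))
      (∏ p ∈ d.primeFactors, (1 - ((p : ℕ) : ℝ)⁻¹)⁻¹) := by
    rw [← hasSum_subtype_iff_indicator]
    exact h2
  have h5 : ∀ k ∈ (Icc 1 N).filter (fun k => smo d k), (1 : ℝ) / k =
      (Nat.factoredNumbers d.primeFactors).indicator (fun m : ℕ => ((m : ℝ))⁻¹) k := by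
    intro k hk
    rw [Finset.mem_filter, mem_Icc] at hk
    rw [Set.indicator_of_mem, one_div]
    rw [Nat.mem_factoredNumbers_iff_primeFactors_subset]
    exact ⟨by omega, hk.2⟩
  rw [Finset.sum_congr rfl h5]
  apply sum_le_hasSum _ _ h4
  intro k _
  apply Set.indicator_nonneg
  intro m _
  positivity

/-- `∑ μ(m)/m` over `m ≤ N` prime to `d` -/
lemma mu_div_le (d N : ℕ) (hd : d ≠ 0) :
    |∑ m ∈ (Icc 1 N).filter (fun m => m.Coprime d), (moebius m : ℝ) / m| ≤ 2 := by
  rcases Nat.eq_zero_or_pos N with rfl | hN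
  · simp
  have h1 := sum_swap d N hd (fun _ => 1)
  simp only [Finset.sum_const, Nat.card_Icc, Nat.add_sub_cancel, nsmul_eq_mul, mul_one] at h1
  have hN0 : (0 : ℝ) < N := by exact_mod_cast hN
  have h2 : |∑ m ∈ (Icc 1 N).filter (fun m => m.Coprime d), (moebius m : ℝ) / m| * N =
      |∑ m ∈ (Icc 1 N).filter (fun m => m.Coprime d), (moebius m : ℝ) * ((N : ℝ) / m)| := by
    rw [← abs_of_pos hN0, ← abs_mul, abs_of_pos hN0, Finset.sum_mul]
    congr 1
    apply Finset.sum_congr rfl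
    intro m _
    ring
  have h3 : ∑ m ∈ (Icc 1 N).filter (fun m => m.Coprime d), (moebius m : ℝ) * ((N : ℝ) / m) =
      (∑ m ∈ (Icc 1 N).filter (fun m => m.Coprime d), (moebius m : ℝ) * ((N / m : ℕ) : ℝ)) +
      ∑ m ∈ (Icc 1 N).filter (fun m => m.Coprime d), (moebius m : ℝ) *
        ((N : ℝ) / m - ((N / m : ℕ) : ℝ)) := by
    rw [← Finset.sum_add_distrib]
    apply Finset.sum_congr rfl
    intro m _
    ring
  have h4 : |∑ m ∈ (Icc 1 N).filter (fun m => m.Coprime d), (moebius m : ℝ) *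
        ((N : ℝ) / m - ((N / m : ℕ) : ℝ))| ≤ N := by
    refine (Finset.abs_sum_le_sum_abs _ _).trans ?_
    have h5 : ∀ m ∈ (Icc 1 N).filter (fun m => m.Coprime d), |(moebius m : ℝ) *
        ((N : ℝ) / m - ((N / m : ℕ) : ℝ))| ≤ 1 := by
      intro m hm
      rw [Finset.mem_filter, mem_Icc] at hm
      rw [abs_mul]
      have h6 : |(N : ℝ) / m - ((N / m : ℕ) : ℝ)| ≤ 1 := by
        have h7 : ((N / m : ℕ) : ℝ) ≤ (N : ℝ) / m := Nat.cast_div_le
        have h8 : (N : ℝ) / m < ((N / m : ℕ) : ℝ) + 1 := by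
          rw [← Nat.floor_div_eq_div (K := ℝ)]
          exact Nat.lt_floor_add_one _
        rw [abs_le]; constructor <;> linarith
      calc _ ≤ (1 : ℝ) * 1 := by
            gcongr
            exact abs_moebius_le m
        _ = 1 := by ring
    refine (Finset.sum_le_sum h5).trans ?_
    rw [Finset.sum_const, nsmul_eq_mul, mul_one]
    have := Finset.card_filter_le (Icc 1 N) (fun m => m.Coprime d)
    rw [Nat.card_Icc, Nat.add_sub_cancel] at this
    exact_mod_cast this
  have h5 : |∑ m ∈ (Icc 1 N).filter (fun m => m.Coprime d), (moebius m : ℝ) * ((N / m : ℕ) : ℝ)| ≤ N := by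
    rw [h1, abs_of_nonneg (by positivity)]
    have := Finset.card_filter_le (Icc 1 N) (fun k => smo d k)
    rw [Nat.card_Icc, Nat.add_sub_cancel] at this
    exact_mod_cast this
  have h6 : |∑ m ∈ (Icc 1 N).filter (fun m => m.Coprime d), (moebius m : ℝ) / m| * N ≤ 2 * N := by
    rw [h2, h3]
    refine (abs_add_le _ _).trans ?_
    linarith
  exact le_of_mul_le_mul_right h6 hN0

lemma harm_near (y : ℝ) (hy : 1 ≤ y) :
    |(∑ j ∈ Icc 1 ⌊y⌋₊, (1 : ℝ) / j) - Real.log y - Real.eulerMascheroniConstant| ≤ 2 / y := by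
  have hn : 1 ≤ ⌊y⌋₊ := (Nat.one_le_floor_iff y).2 hy
  obtain ⟨n, hnn⟩ : ∃ n : ℕ, n = ⌊y⌋₊ := ⟨_, rfl⟩
  rw [← hnn] at hn ⊢
  have hn0 : (0 : ℝ) < n := by exact_mod_cast hn
  have h1 := Real.eulerMascheroniSeq_lt_eulerMascheroniConstant n
  have h2 := Real.eulerMascheroniConstant_lt_eulerMascheroniSeq' n
  have h3 : ((harmonic n : ℚ) : ℝ) = ∑ j ∈ Icc 1 n, (1 : ℝ) / j := by
    rw [harmonic_eq_sum_Icc]
    push_cast
    apply Finset.sum_congr rfl
    intro j _
    rw [one_div]
  rw [Real.eulerMascheroniSeq, h3] at h1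
  rw [Real.eulerMascheroniSeq', if_neg (by omega), h3] at h2
  have h4 : (n : ℝ) ≤ y := by rw [hnn]; exact Nat.floor_le (by linarith)
  have h5 : y < n + 1 := by rw [hnn]; exact Nat.lt_floor_add_one y
  have h6 : Real.log n ≤ Real.log y := Real.log_le_log hn0 h4
  have h7 : Real.log y ≤ Real.log (n + 1) := Real.log_le_log (by linarith) h5.le
  have h8 : Real.log (n + 1) - Real.log n ≤ 1 / n := by
    rw [← Real.log_div (by positivity) hn0.ne']
    have : ((n : ℝ) + 1) / n = 1 + 1 / n := by field_simp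
    rw [this]
    have := Real.log_le_sub_one_of_pos (show (0 : ℝ) < 1 + 1 / n by positivity)
    linarith
  have h9 : 1 / (n : ℝ) ≤ 2 / y := by
    rw [div_le_div_iff₀ hn0 (by linarith)]
    have : (1 : ℝ) ≤ n := by exact_mod_cast hn
    linarith
  rw [abs_le]
  constructor <;> linarith

/-- `∑ μ(m)/m log(x/m)` over `m ≤ x` prime to `d` is at most `6 d/φ(d)` -/
theorem mu_log_le (d : ℕ) (hd : d ≠ 0) (x : ℝ) :
    |∑ m ∈ (Icc 1 ⌊x⌋₊).filter (fun m => m.Coprime d), (moebius m : ℝ) / m * Real.log (x / m)| ≤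
      6 * (d / d.totient) := by
  have hφ : (0 : ℝ) < d.totient := by exact_mod_cast Nat.totient_pos.2 (Nat.pos_of_ne_zero hd)
  have hd1 : (1 : ℝ) ≤ d / d.totient := by
    rw [le_div_iff₀ hφ, one_mul]
    exact_mod_cast Nat.totient_le d
  rcases lt_or_ge x 1 with hx | hx
  · have : ⌊x⌋₊ = 0 := Nat.floor_eq_zero.2 hx
    rw [this]
    simp
    positivity
  set N := ⌊x⌋₊ with hN
  have hx0 : 0 < x := by linarith
  have h1 := sum_swap d N hd (fun k => 1 / (k : ℝ))
  have h2 : ∀ m ∈ (Icc 1 N).filter (fun m => m.Coprime d), (moebius m : ℝ) *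
      (∑ j ∈ Icc 1 (N / m), 1 / (((m * j : ℕ)) : ℝ)) = (moebius m : ℝ) / m *
        ∑ j ∈ Icc 1 ⌊x / m⌋₊, (1 : ℝ) / j := by
    intro m hm
    rw [Finset.mem_filter, mem_Icc] at hm
    have h3 : ⌊x / (m : ℝ)⌋₊ = N / m := by
      rw [Nat.floor_div_natCast]
    rw [h3, div_mul_eq_mul_div, mul_div_assoc, Finset.sum_div]
    congr 1
    apply Finset.sum_congr rfl
    intro j _
    push_cast
    rw [div_div, mul_comm (m : ℝ)]
  rw [Finset.sum_congr rfl h2] at h1
  have h3 : ∑ m ∈ (Icc 1 N).filter (fun m => m.Coprime d), (moebius m : ℝ) / m * Real.log (x / m) =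
      (∑ k ∈ (Icc 1 N).filter (fun k => smo d k), (1 : ℝ) / k) -
      Real.eulerMascheroniConstant * (∑ m ∈ (Icc 1 N).filter (fun m => m.Coprime d),
        (moebius m : ℝ) / m) -
      ∑ m ∈ (Icc 1 N).filter (fun m => m.Coprime d), (moebius m : ℝ) / m *
        ((∑ j ∈ Icc 1 ⌊x / m⌋₊, (1 : ℝ) / j) - Real.log (x / m) - Real.eulerMascheroniConstant) := by
    rw [← h1, Finset.mul_sum, ← Finset.sum_sub_distrib, ← Finset.sum_sub_distrib]
    apply Finset.sum_congr rfl
    intro m _
    ring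
  have h4 : |∑ m ∈ (Icc 1 N).filter (fun m => m.Coprime d), (moebius m : ℝ) / m *
        ((∑ j ∈ Icc 1 ⌊x / m⌋₊, (1 : ℝ) / j) - Real.log (x / m) - Real.eulerMascheroniConstant)| ≤ 2 := by
    refine (Finset.abs_sum_le_sum_abs _ _).trans ?_
    have h5 : ∀ m ∈ (Icc 1 N).filter (fun m => m.Coprime d), |(moebius m : ℝ) / m *
        ((∑ j ∈ Icc 1 ⌊x / m⌋₊, (1 : ℝ) / j) - Real.log (x / m) - Real.eulerMascheroniConstant)| ≤
        2 / x := by
      intro m hm
      rw [Finset.mem_filter, mem_Icc] at hm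
      have hm0 : (0 : ℝ) < m := by exact_mod_cast (by omega : 0 < m)
      have h6 : 1 ≤ x / m := by
        rw [le_div_iff₀ hm0, one_mul]
        exact (Nat.le_floor_iff hx0.le).1 hm.1.2
      rw [abs_mul, abs_div, abs_of_pos hm0]
      calc |(moebius m : ℝ)| / m * _ ≤ 1 / m * (2 / (x / m)) := by
            gcongr
            · exact abs_moebius_le m
            · exact harm_near _ h6
        _ = 2 / x := by field_simp
    refine (Finset.sum_le_sum h5).trans ?_
    rw [Finset.sum_const, nsmul_eq_mul]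
    have h6 : (((Icc 1 N).filter (fun m => m.Coprime d)).card : ℝ) ≤ x := by
      have := Finset.card_filter_le (Icc 1 N) (fun m => m.Coprime d)
      rw [Nat.card_Icc, Nat.add_sub_cancel] at this
      have h7 : ((N : ℕ) : ℝ) ≤ x := Nat.floor_le hx0.le
      have h8 : (((Icc 1 N).filter (fun m => m.Coprime d)).card : ℝ) ≤ N := by exact_mod_cast this
      linarith
    calc _ ≤ x * (2 / x) := by gcongr
      _ = 2 := by field_simp
  have h5 := mu_div_le d N hd
  have h6 := sum_smo d N hd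
  have h7 : 0 ≤ ∑ k ∈ (Icc 1 N).filter (fun k => smo d k), (1 : ℝ) / k := by positivity
  have h8 : 0 < Real.eulerMascheroniConstant := by
    have := Real.one_half_lt_eulerMascheroniConstant; linarith
  have h9 := Real.eulerMascheroniConstant_lt_two_thirds
  have h10 : |Real.eulerMascheroniConstant * (∑ m ∈ (Icc 1 N).filter (fun m => m.Coprime d),
        (moebius m : ℝ) / m)| ≤ 2 := by
    rw [abs_mul, abs_of_pos h8]
    nlinarith [abs_nonneg (∑ m ∈ (Icc 1 N).filter (fun m => m.Coprime d), (moebius m : ℝ) / m)]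
  rw [h3]
  rw [abs_le] at h4 h10 ⊢
  constructor <;> linarith [h4.1, h4.2, h10.1, h10.2]

end Pool.Agent.NH13
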