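import Pool.Agent.NH13.MuSum

/-!
# Twisted sums `∑ μ(m)/m (Y - log m)^+ m^w` over `m` prime to `d`
-/

set_option autoImplicit false

open Finset MeasureTheory

namespace Pool.Agent.NH13

open ArithmeticFunction (moebius)

/-- the ramp representation of `e^{w v} (Y - v)` -/
lemma ramp_repr (w : ℂ) {Y v : ℝ} (hv : 0 ≤ v) (hvY : v ≤ Y) :
    Complex.exp (w * v) * ((Y - v : ℝ) : ℂ) = Complex.exp (w * Y) * ((Y - v : ℝ) : ℂ) +
      ∫ τ in (0 : ℝ)..Y, (w ^ 2 * ((Y - τ : ℝ) : ℂ) - 2 * w) * Complex.exp (w * τ) *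
        ((max (τ - v) 0 : ℝ) : ℂ) := by
  have h1 : ∫ τ in (0 : ℝ)..v, (w ^ 2 * ((Y - τ : ℝ) : ℂ) - 2 * w) * Complex.exp (w * τ) *
        ((max (τ - v) 0 : ℝ) : ℂ) = 0 := by
    rw [intervalIntegral.integral_congr (g := fun _ => (0 : ℂ))]
    · simp
    · intro τ hτ
      rw [Set.uIcc_of_le hv] at hτ
      simp only
      rw [max_eq_right (by linarith [hτ.2])]
      simp
  have hc : Continuous (fun τ : ℝ => (w ^ 2 * ((Y - τ : ℝ) : ℂ) - 2 * w) * Complex.exp (w * τ) *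
        ((max (τ - v) 0 : ℝ) : ℂ)) := by fun_prop
  have h2 : ∫ τ in v..Y, (w ^ 2 * ((Y - τ : ℝ) : ℂ) - 2 * w) * Complex.exp (w * τ) *
        ((max (τ - v) 0 : ℝ) : ℂ) = ∫ τ in v..Y, (w ^ 2 * ((Y - τ : ℝ) : ℂ) - 2 * w) *
        Complex.exp (w * τ) * ((τ - v : ℝ) : ℂ) := by
    apply intervalIntegral.integral_congr
    intro τ hτ
    rw [Set.uIcc_of_le hvY] at hτ
    simp only
    rw [max_eq_left (by linarith [hτ.1])]
  have h3 : ∀ τ ∈ Set.uIcc v Y, HasDerivAt (fun τ : ℝ =>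
      ((w * ((Y - τ : ℝ) : ℂ) - 1) * ((τ - v : ℝ) : ℂ) - ((Y - τ : ℝ) : ℂ)) * Complex.exp (w * τ))
      ((w ^ 2 * ((Y - τ : ℝ) : ℂ) - 2 * w) * Complex.exp (w * τ) * ((τ - v : ℝ) : ℂ)) τ := by
    intro τ _
    have e1 : HasDerivAt (fun τ : ℝ => (τ : ℂ)) 1 τ := Complex.ofRealCLM.hasDerivAt
    have e2 : HasDerivAt (fun τ : ℝ => ((Y - τ : ℝ) : ℂ)) (-1) τ := by
      have : (fun τ : ℝ => ((Y - τ : ℝ) : ℂ)) = fun τ : ℝ => (Y : ℂ) - (τ : ℂ) := by
        funext τ; push_cast; rfl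
      rw [this]
      simpa using e1.const_sub (Y : ℂ)
    have e3 : HasDerivAt (fun τ : ℝ => ((τ - v : ℝ) : ℂ)) 1 τ := by
      have : (fun τ : ℝ => ((τ - v : ℝ) : ℂ)) = fun τ : ℝ => (τ : ℂ) - (v : ℂ) := by
        funext τ; push_cast; rfl
      rw [this]
      exact e1.sub_const _
    have e4 : HasDerivAt (fun τ : ℝ => Complex.exp (w * τ)) (Complex.exp (w * τ) * (w * 1)) τ :=
      (e1.const_mul w).cexp
    have e5 := ((((e2.const_mul w).sub_const 1).mul e3).sub e2).mul e4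
    refine e5.congr_deriv ?_
    simp only [Pi.mul_apply, Pi.sub_apply]
    ring
  rw [← intervalIntegral.integral_add_adjacent_intervals (hc.intervalIntegrable 0 v)
    (hc.intervalIntegrable v Y), h1, h2, zero_add,
    intervalIntegral.integral_eq_sub_of_hasDerivAt h3 (by
      apply Continuous.intervalIntegrable; fun_prop)]
  simp only [sub_self, Complex.ofReal_zero, mul_zero, zero_sub, sub_zero, neg_mul]
  push_cast
  ring

/-- the twisted sum -/
theorem twist_le (d : ℕ) (hd : d ≠ 0) (w : ℂ) {Y E : ℝ} (hY : 0 ≤ Y) (hE : 1 ≤ E)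
    (hwE : Real.exp (w.re * Y) ≤ E) :
    ‖∑ m ∈ (Icc 1 ⌊Real.exp Y⌋₊).filter (fun m => m.Coprime d), ((moebius m : ℝ) : ℂ) / m *
      (Complex.exp (w * Real.log m) * ((Y - Real.log m : ℝ) : ℂ))‖ ≤
      6 * (d / d.totient) * E * (1 + ‖w‖ * Y) ^ 2 := by
  set S := (Icc 1 ⌊Real.exp Y⌋₊).filter (fun m => m.Coprime d) with hS
  have hφ : (0 : ℝ) < d.totient := by exact_mod_cast Nat.totient_pos.2 (Nat.pos_of_ne_zero hd)
  set B : ℝ := 6 * (d / d.totient) with hB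
  have hB0 : 0 ≤ B := by positivity
  have hmem : ∀ m ∈ S, 1 ≤ m ∧ 0 ≤ Real.log m ∧ Real.log m ≤ Y := by
    intro m hm
    rw [hS, Finset.mem_filter, mem_Icc] at hm
    have hm0 : (0 : ℝ) < m := by exact_mod_cast hm.1.1
    refine ⟨hm.1.1, Real.log_natCast_nonneg m, ?_⟩
    rw [Real.log_le_iff_le_exp hm0]
    exact (Nat.le_floor_iff (Real.exp_pos _).le).1 hm.1.2
  have hGn : ∀ τ : ℝ, τ ≤ Y → ‖∑ m ∈ S, ((moebius m : ℝ) : ℂ) / m *
      ((max (τ - Real.log m) 0 : ℝ) : ℂ)‖ ≤ B := by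
    intro τ hτ
    have h1 : ∑ m ∈ S, ((moebius m : ℝ) : ℂ) / m * ((max (τ - Real.log m) 0 : ℝ) : ℂ) =
        ((∑ m ∈ (Icc 1 ⌊Real.exp τ⌋₊).filter (fun m => m.Coprime d), (moebius m : ℝ) / m *
          Real.log (Real.exp τ / m) : ℝ) : ℂ) := by
      push_cast
      symm
      rw [← Finset.sum_subset (s₁ := (Icc 1 ⌊Real.exp τ⌋₊).filter (fun m => m.Coprime d)) (s₂ := S)]
      · apply Finset.sum_congr rfl
        intro m hm
        rw [Finset.mem_filter, mem_Icc] at hm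
        have hm0 : (0 : ℝ) < m := by exact_mod_cast hm.1.1
        have h2 : Real.log m ≤ τ := by
          rw [Real.log_le_iff_le_exp hm0]
          exact (Nat.le_floor_iff (Real.exp_pos _).le).1 hm.1.2
        rw [max_eq_left (by linarith), Real.log_div (Real.exp_pos _).ne' hm0.ne', Real.log_exp]
      · intro m hm
        rw [Finset.mem_filter, mem_Icc] at hm
        rw [hS, Finset.mem_filter, mem_Icc]
        refine ⟨⟨hm.1.1, hm.1.2.trans (Nat.floor_mono (Real.exp_le_exp.2 hτ))⟩, hm.2⟩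
      · intro m hm hm2
        have h3 := hmem m hm
        have hm0 : (0 : ℝ) < m := by exact_mod_cast h3.1
        have h4 : ¬ m ≤ ⌊Real.exp τ⌋₊ := by
          intro h5
          apply hm2
          rw [Finset.mem_filter, mem_Icc]
          rw [hS, Finset.mem_filter] at hm
          exact ⟨⟨h3.1, h5⟩, hm.2⟩
        rw [Nat.le_floor_iff (Real.exp_pos _).le, ← Real.log_le_iff_le_exp hm0] at h4
        push Not at h4
        rw [max_eq_right (by linarith)]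
        simp
    rw [h1, Complex.norm_real, Real.norm_eq_abs]
    exact mu_log_le d hd (Real.exp τ)
  have h1 : ∑ m ∈ S, ((moebius m : ℝ) : ℂ) / m *
      (Complex.exp (w * Real.log m) * ((Y - Real.log m : ℝ) : ℂ)) =
      Complex.exp (w * Y) * (∑ m ∈ S, ((moebius m : ℝ) : ℂ) / m * ((max (Y - Real.log m) 0 : ℝ) : ℂ)) +
      ∫ τ in (0 : ℝ)..Y, (w ^ 2 * ((Y - τ : ℝ) : ℂ) - 2 * w) * Complex.exp (w * τ) *
        (∑ m ∈ S, ((moebius m : ℝ) : ℂ) / m * ((max (τ - Real.log m) 0 : ℝ) : ℂ)) := by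
    have h2 : ∀ τ : ℝ, (w ^ 2 * ((Y - τ : ℝ) : ℂ) - 2 * w) * Complex.exp (w * τ) *
        (∑ m ∈ S, ((moebius m : ℝ) : ℂ) / m * ((max (τ - Real.log m) 0 : ℝ) : ℂ)) =
        ∑ m ∈ S, ((moebius m : ℝ) : ℂ) / m * ((w ^ 2 * ((Y - τ : ℝ) : ℂ) - 2 * w) *
          Complex.exp (w * τ) * ((max (τ - Real.log m) 0 : ℝ) : ℂ)) := by
      intro τ
      rw [Finset.mul_sum]
      apply Finset.sum_congr rfl
      intro m _
      ring
    simp_rw [h2]
    rw [intervalIntegral.integral_finsetSum, Finset.mul_sum, ← Finset.sum_add_distrib]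
    · apply Finset.sum_congr rfl
      intro m hm
      obtain ⟨_, h4, h5⟩ := hmem m hm
      rw [ramp_repr w h4 h5, intervalIntegral.integral_const_mul, max_eq_left (by linarith)]
      ring
    · intro m _
      apply Continuous.intervalIntegrable
      fun_prop
  rw [h1]
  refine (norm_add_le _ _).trans ?_
  have hre : ∀ τ : ℝ, 0 ≤ τ → τ ≤ Y → ‖Complex.exp (w * τ)‖ ≤ E := by
    intro τ h0 hτ
    rw [Complex.norm_exp]
    have e : (w * (τ : ℂ)).re = w.re * τ := by simp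
    rw [e]
    rcases le_or_gt 0 w.re with h | h
    · refine (Real.exp_le_exp.2 ?_).trans hwE
      gcongr
    · refine le_trans ?_ hE
      rw [Real.exp_le_one_iff]
      exact mul_nonpos_of_nonpos_of_nonneg h.le h0
  have h3 : ‖Complex.exp (w * Y) * (∑ m ∈ S, ((moebius m : ℝ) : ℂ) / m *
      ((max (Y - Real.log m) 0 : ℝ) : ℂ))‖ ≤ E * B := by
    rw [norm_mul]
    gcongr
    · exact hre Y hY le_rfl
    · exact hGn Y le_rfl
  have h4 : ‖∫ τ in (0 : ℝ)..Y, (w ^ 2 * ((Y - τ : ℝ) : ℂ) - 2 * w) * Complex.exp (w * τ) *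
        (∑ m ∈ S, ((moebius m : ℝ) : ℂ) / m * ((max (τ - Real.log m) 0 : ℝ) : ℂ))‖ ≤
      ((‖w‖ ^ 2 * Y + 2 * ‖w‖) * E * B) * |Y - 0| := by
    apply intervalIntegral.norm_integral_le_of_norm_le_const
    intro τ hτ
    rw [Set.uIoc_of_le hY] at hτ
    rw [norm_mul, norm_mul]
    have h5 : ‖w ^ 2 * ((Y - τ : ℝ) : ℂ) - 2 * w‖ ≤ ‖w‖ ^ 2 * Y + 2 * ‖w‖ := by
      refine (norm_sub_le _ _).trans ?_
      rw [norm_mul, norm_mul, norm_pow, Complex.norm_real, Real.norm_eq_abs,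
        abs_of_nonneg (by linarith [hτ.2])]
      have h6 : Y - τ ≤ Y := by linarith [hτ.1]
      have h7 : ‖(2 : ℂ)‖ = 2 := by simp
      rw [h7]
      gcongr
    gcongr
    · exact hre τ hτ.1.le hτ.2
    · exact hGn τ hτ.2
  rw [sub_zero, abs_of_nonneg hY] at h4
  calc _ ≤ E * B + (‖w‖ ^ 2 * Y + 2 * ‖w‖) * E * B * Y := add_le_add h3 h4
    _ = B * E * (1 + ‖w‖ * Y) ^ 2 := by ring

end Pool.Agent.NH13
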