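import Pool.Agent.NH13.GaussId

/-!
# The Dirichlet polynomial over a window where `ψ(x, χ)` is small
-/

set_option autoImplicit false

open Complex MeasureTheory Set Filter Topology

namespace Pool.Agent.NH13

open ArithmeticFunction (vonMangoldt)

/-- `ψ(x, χ)` -/
noncomputable def psi {q : ℕ} (χ : DirichletCharacter ℂ q) (x : ℝ) : ℂ :=
  ∑ n ∈ Finset.Icc 1 ⌊x⌋₊, (vonMangoldt n : ℂ) * χ (n : ZMod q)

lemma psi_eq0 {q : ℕ} (χ : DirichletCharacter ℂ q) (x : ℝ) :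
    psi χ x = ∑ n ∈ Finset.Icc 0 ⌊x⌋₊, (vonMangoldt n : ℂ) * χ (n : ZMod q) := by
  unfold psi
  have h : Finset.Icc 0 ⌊x⌋₊ = insert 0 (Finset.Icc 1 ⌊x⌋₊) := by
    ext y; simp only [Finset.mem_Icc, Finset.mem_insert]; omega
  rw [h, Finset.sum_insert (by simp)]
  simp

lemma psi_measurable {q : ℕ} (χ : DirichletCharacter ℂ q) : Measurable (psi χ) := by
  have h : Measurable (fun m : ℕ => ∑ n ∈ Finset.Icc 1 m, (vonMangoldt n : ℂ) * χ (n : ZMod q)) :=
    measurable_from_nat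
  exact h.comp Nat.measurable_floor

lemma psi_norm_le {q : ℕ} (χ : DirichletCharacter ℂ q) {x Y : ℝ} (hx : x ≤ Y) :
    ‖psi χ x‖ ≤ ∑ n ∈ Finset.Icc 1 ⌊Y⌋₊, vonMangoldt n := by
  unfold psi
  refine (norm_sum_le _ _).trans ?_
  have h1 : ∀ n ∈ Finset.Icc 1 ⌊x⌋₊, ‖(vonMangoldt n : ℂ) * χ (n : ZMod q)‖ ≤ vonMangoldt n := by
    intro n _
    rw [norm_mul, norm_real, Real.norm_of_nonneg ArithmeticFunction.vonMangoldt_nonneg]
    have := χ.norm_le_one (n : ZMod q)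
    have h0 : (0 : ℝ) ≤ vonMangoldt n := ArithmeticFunction.vonMangoldt_nonneg
    nlinarith
  refine (Finset.sum_le_sum h1).trans ?_
  apply Finset.sum_le_sum_of_subset_of_nonneg
  · exact Finset.Icc_subset_Icc_right (Nat.floor_mono hx)
  · intro n _ _
    exact ArithmeticFunction.vonMangoldt_nonneg

theorem pwin_bound {q : ℕ} (χ : DirichletCharacter ℂ q) {κ X Y θ : ℝ} (hκ : 0 < κ) (hX : 1 ≤ X)
    (hXY : X ≤ Y) (hθ : 0 < θ) (h1 : ‖psi χ X‖ ≤ θ * Real.sqrt X) (h2 : ‖psi χ Y‖ ≤ θ * Real.sqrt Y)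
    (h3 : ∫ x in Ioc X Y, ‖psi χ x‖ ^ 2 / x ^ 2 ≤ θ ^ 2) {w : ℂ} (hw : w.re = 1 / 2 + κ) :
    ‖∑ n ∈ Finset.Ioc ⌊X⌋₊ ⌊Y⌋₊, (vonMangoldt n : ℂ) * χ (n : ZMod q) * (n : ℂ) ^ (-w)‖ ≤
      θ * (2 + ‖w‖ / Real.sqrt (2 * κ)) := by
  have hX0 : 0 < X := by linarith
  have hY0 : 0 < Y := by linarith
  set f : ℝ → ℂ := fun t => (t : ℂ) ^ (-w) with hf
  have hw0 : -w ≠ 0 := by
    intro h
    have := congrArg Complex.re h
    simp at this
    rw [hw] at this
    linarith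
  have hder : ∀ t : ℝ, 0 < t → HasDerivAt f (-w * (t : ℂ) ^ (-w - 1)) t := by
    intro t ht
    exact hasDerivAt_ofReal_cpow_const (x := t) ht.ne' (r := -w) hw0
  have habel := sum_mul_eq_sub_sub_integral_mul (fun n : ℕ => (vonMangoldt n : ℂ) * χ (n : ZMod q))
    (f := f) hX0.le hXY (fun t ht => (hder t (lt_of_lt_of_le hX0 ht.1)).differentiableAt) (by
      have hc : ContinuousOn (fun t : ℝ => -w * (t : ℂ) ^ (-w - 1)) (Icc X Y) := by
        apply ContinuousOn.mul continuousOn_const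
        intro t ht
        exact (Complex.continuousAt_ofReal_cpow_const _ _
          (Or.inr (lt_of_lt_of_le hX0 ht.1).ne')).continuousWithinAt
      refine (hc.integrableOn_Icc).congr_fun (fun t ht => ?_) measurableSet_Icc
      exact (hder t (lt_of_lt_of_le hX0 ht.1)).deriv.symm)
  have e0 : ∑ n ∈ Finset.Ioc ⌊X⌋₊ ⌊Y⌋₊, (vonMangoldt n : ℂ) * χ (n : ZMod q) * (n : ℂ) ^ (-w) =
      ∑ k ∈ Finset.Ioc ⌊X⌋₊ ⌊Y⌋₊, f k * ((vonMangoldt k : ℂ) * χ (k : ZMod q)) := by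
    apply Finset.sum_congr rfl
    intro n _
    simp only [hf]
    push_cast
    ring
  rw [e0, habel]
  simp only [← psi_eq0]
  have nf : ∀ t : ℝ, 0 < t → ‖f t‖ = t ^ (-(1 / 2 + κ)) := by
    intro t ht
    simp only [hf]
    rw [norm_cpow_eq_rpow_re_of_pos ht]
    congr 1
    simp [hw]
  have hend : ∀ t : ℝ, 1 ≤ t → ‖psi χ t‖ ≤ θ * Real.sqrt t → ‖f t * psi χ t‖ ≤ θ := by
    intro t ht hp
    have ht0 : 0 < t := by linarith
    rw [norm_mul, nf t ht0]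
    have e1 : Real.sqrt t = t ^ (1 / 2 : ℝ) := Real.sqrt_eq_rpow _
    have e2 : t ^ (-(1 / 2 + κ)) * t ^ (1 / 2 : ℝ) = t ^ (-κ) := by
      rw [← Real.rpow_add ht0]; congr 1; ring
    have e3 : t ^ (-κ) ≤ 1 := Real.rpow_le_one_of_one_le_of_nonpos ht (by linarith)
    have e4 : 0 ≤ t ^ (-(1 / 2 + κ)) := by positivity
    calc t ^ (-(1 / 2 + κ)) * ‖psi χ t‖ ≤ t ^ (-(1 / 2 + κ)) * (θ * Real.sqrt t) := by gcongr
      _ = θ * (t ^ (-(1 / 2 + κ)) * t ^ (1 / 2 : ℝ)) := by rw [e1]; ring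
      _ = θ * t ^ (-κ) := by rw [e2]
      _ ≤ θ * 1 := by gcongr
      _ = θ := mul_one _
  have b1 := hend Y (by linarith) h2
  have b2 := hend X hX h1
  -- the integral
  set lam : ℝ := θ * Real.sqrt (2 * κ) with hlam
  have hs0 : 0 < Real.sqrt (2 * κ) := Real.sqrt_pos.mpr (by linarith)
  have hlam0 : 0 < lam := by positivity
  have hi1 : IntegrableOn (fun t : ℝ => t ^ (-1 - 2 * κ)) (Ioc X Y) :=
    (integrableOn_Ioi_rpow_of_lt (by linarith) hX0).mono_set Ioc_subset_Ioi_self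
  have hi2 : IntegrableOn (fun t : ℝ => ‖psi χ t‖ ^ 2 / t ^ 2) (Ioc X Y) := by
    obtain ⟨D, hD⟩ : ∃ D, D = ∑ n ∈ Finset.Icc 1 ⌊Y⌋₊, vonMangoldt n := ⟨_, rfl⟩
    refine Measure.integrableOn_of_bounded (M := D ^ 2 / X ^ 2) (by simp) ?_ ?_
    · exact (((psi_measurable χ).norm.pow_const 2).div (measurable_id.pow_const 2)).aestronglyMeasurable
    · refine (ae_restrict_mem measurableSet_Ioc).mono fun t ht => ?_
      have ht0 : 0 < t := lt_trans hX0 ht.1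
      rw [Real.norm_of_nonneg (by positivity)]
      have h5 := psi_norm_le χ ht.2
      rw [← hD] at h5
      have := ht.1.le
      gcongr
  have b3 : ‖∫ t in Ioc X Y, deriv f t * psi χ t‖ ≤ θ * (‖w‖ / Real.sqrt (2 * κ)) := by
    have hb : ∀ t ∈ Ioc X Y, ‖deriv f t * psi χ t‖ ≤
        ‖w‖ * (lam / 2 * t ^ (-1 - 2 * κ) + 1 / (2 * lam) * (‖psi χ t‖ ^ 2 / t ^ 2)) := by
      intro t ht
      have ht0 : 0 < t := lt_trans hX0 ht.1
      rw [(hder t ht0).deriv, norm_mul, norm_mul, norm_neg, norm_cpow_eq_rpow_re_of_pos ht0, mul_assoc]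
      apply mul_le_mul_of_nonneg_left _ (norm_nonneg _)
      have e1 : (-w - 1).re = -(1 / 2 + κ) - 1 := by simp [hw]
      rw [e1]
      have e2 : t ^ (-(1 / 2 + κ) - 1) = t ^ (-(1 / 2 + κ)) * t⁻¹ := by
        rw [Real.rpow_sub ht0, Real.rpow_one, div_eq_mul_inv]
      have e3 : t ^ (-1 - 2 * κ) = (t ^ (-(1 / 2 + κ))) ^ 2 := by
        rw [← Real.rpow_natCast, ← Real.rpow_mul ht0.le]; congr 1; push_cast; ring
      rw [e2, e3]
      set u := t ^ (-(1 / 2 + κ)) with hu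
      have hu0 : 0 ≤ u := by positivity
      set v := t⁻¹ * ‖psi χ t‖ with hv
      have hv0 : 0 ≤ v := by positivity
      have e4 : u * t⁻¹ * ‖psi χ t‖ = u * v := by rw [hv]; ring
      have e5 : ‖psi χ t‖ ^ 2 / t ^ 2 = v ^ 2 := by rw [hv]; field_simp
      rw [e4, e5]
      have h6 : 0 ≤ (lam * u - v) ^ 2 := sq_nonneg _
      have h7 : u * v * (2 * lam) ≤ (lam / 2 * u ^ 2 + 1 / (2 * lam) * v ^ 2) * (2 * lam) := by
        have : (lam / 2 * u ^ 2 + 1 / (2 * lam) * v ^ 2) * (2 * lam) = lam ^ 2 * u ^ 2 + v ^ 2 := by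
          field_simp
        rw [this]
        nlinarith
      exact le_of_mul_le_mul_right h7 (by positivity)
    have hi : IntegrableOn (fun t : ℝ => ‖w‖ * (lam / 2 * t ^ (-1 - 2 * κ) +
        1 / (2 * lam) * (‖psi χ t‖ ^ 2 / t ^ 2))) (Ioc X Y) :=
      ((hi1.const_mul _).add (hi2.const_mul _)).const_mul _
    refine (norm_integral_le_of_norm_le hi ((ae_restrict_mem measurableSet_Ioc).mono hb)).trans ?_
    rw [integral_const_mul, integral_add (hi1.const_mul _) (hi2.const_mul _), integral_const_mul,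
      integral_const_mul]
    have h8 : ∫ t in Ioc X Y, t ^ (-1 - 2 * κ) ≤ 1 / (2 * κ) := by
      have h9 : ∫ t in Ioc X Y, t ^ (-1 - 2 * κ) ≤ ∫ t in Ioi X, t ^ (-1 - 2 * κ) := by
        apply setIntegral_mono_set (integrableOn_Ioi_rpow_of_lt (by linarith) hX0)
        · refine (ae_restrict_mem measurableSet_Ioi).mono fun t ht => ?_
          have ht' : X < t := ht
          have ht0 : 0 < t := lt_trans hX0 ht'
          simp only [Pi.zero_apply]
          positivity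
        · exact Ioc_subset_Ioi_self.eventuallyLE
      refine h9.trans ?_
      rw [integral_Ioi_rpow_of_lt (by linarith) hX0]
      have e : -1 - 2 * κ + 1 = -(2 * κ) := by ring
      rw [e, neg_div_neg_eq]
      have : X ^ (-(2 * κ)) ≤ 1 := Real.rpow_le_one_of_one_le_of_nonpos hX (by linarith)
      gcongr
    have hsq : Real.sqrt (2 * κ) ^ 2 = 2 * κ := Real.sq_sqrt (by linarith)
    have e9 : lam / 2 * (1 / (2 * κ)) + 1 / (2 * lam) * θ ^ 2 = θ / Real.sqrt (2 * κ) := by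
      rw [hlam]
      nth_rewrite 2 [← hsq]
      field_simp
      norm_num
    calc ‖w‖ * (lam / 2 * (∫ t in Ioc X Y, t ^ (-1 - 2 * κ)) +
          1 / (2 * lam) * ∫ t in Ioc X Y, ‖psi χ t‖ ^ 2 / t ^ 2)
        ≤ ‖w‖ * (lam / 2 * (1 / (2 * κ)) + 1 / (2 * lam) * θ ^ 2) := by gcongr
      _ = θ * (‖w‖ / Real.sqrt (2 * κ)) := by rw [e9]; ring
  calc ‖f Y * psi χ Y - f X * psi χ X - ∫ t in Ioc X Y, deriv f t * psi χ t‖
      ≤ ‖f Y * psi χ Y‖ + ‖f X * psi χ X‖ + ‖∫ t in Ioc X Y, deriv f t * psi χ t‖ := by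
        refine (norm_sub_le _ _).trans ?_
        gcongr
        exact norm_sub_le _ _
    _ ≤ θ + θ + θ * (‖w‖ / Real.sqrt (2 * κ)) := by gcongr
    _ = _ := by ring

end Pool.Agent.NH13
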