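import Pool.Agent.NH13.Kern
import Pool.Agent.NH13.Phi
import Pool.Agent.H353R2.Z2

/-!
# Weights, and Cauchy's inequality for integrals
-/

set_option autoImplicit false

open MeasureTheory Set Filter Topology

namespace Pool.Agent.NH13

/-- the weight `e^{-v²} (1+h|v|)^{-n}` -/
noncomputable def Wt (h : ℝ) (n : ℕ) (v : ℝ) : ℝ := Real.exp (-(v ^ 2)) / (1 + h * |v|) ^ n

lemma Wt_pos {h : ℝ} (hh : 0 < h) (n : ℕ) (v : ℝ) : 0 < Wt h n v := by
  unfold Wt; positivity

lemma Wt_cont {h : ℝ} (hh : 0 < h) (n : ℕ) : Continuous (Wt h n) := by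
  unfold Wt
  apply Continuous.div (by fun_prop) (by fun_prop)
  intro v
  positivity

lemma Wt_le {h : ℝ} (hh : 0 < h) (n : ℕ) (v : ℝ) : Wt h n v ≤ Real.exp (-(v ^ 2)) := by
  unfold Wt
  apply div_le_self (by positivity)
  apply one_le_pow₀
  have : 0 ≤ h * |v| := by positivity
  linarith

lemma Wt_int {h : ℝ} (hh : 0 < h) (n : ℕ) : Integrable (Wt h n) := by
  refine int_gauss_one.mono' (Wt_cont hh n).aestronglyMeasurable (Eventually.of_forall fun v => ?_)
  rw [Real.norm_of_nonneg (Wt_pos hh n v).le]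
  exact Wt_le hh n v

/-- integrability against the weight of functions of moderate growth -/
lemma Wt_int_of {h : ℝ} (hh : 0 < h) (n : ℕ) {F : ℝ → ℝ} {C : ℝ}
    (hF : AEStronglyMeasurable F volume) (hC : ∀ v, |F v| ≤ C * Real.exp (3 * |v|)) :
    Integrable (fun v => F v * Wt h n v) := by
  refine (int_gauss_half.const_mul (C * Real.exp 5)).mono' (hF.mul (Wt_cont hh n).aestronglyMeasurable)
    (Eventually.of_forall fun v => ?_)
  rw [norm_mul, Real.norm_of_nonneg (Wt_pos hh n v).le, Real.norm_eq_abs]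
  have h0 : 0 ≤ C := by
    have h1 := (abs_nonneg _).trans (hC v)
    exact nonneg_of_mul_nonneg_left h1 (Real.exp_pos _)
  calc |F v| * Wt h n v ≤ (C * Real.exp (3 * |v|)) * Real.exp (-(v ^ 2)) := by
        have h1 := hC v
        have h2 := Wt_le hh n v
        have h3 := (Wt_pos hh n v).le
        gcongr
    _ = C * (Real.exp (3 * |v|) * Real.exp (-(v ^ 2))) := by ring
    _ ≤ C * (Real.exp 5 * Real.exp (-(v ^ 2 / 2))) := mul_le_mul_of_nonneg_left (gauss_dom v) h0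
    _ = _ := by ring

lemma pow3_le_exp (v : ℝ) : (1 + |v|) ^ 3 ≤ Real.exp (3 * |v|) := by
  have h2 := Real.add_one_le_exp |v|
  have h3 : 0 ≤ |v| := abs_nonneg v
  calc (1 + |v|) ^ 3 ≤ (Real.exp |v|) ^ 3 := by gcongr; linarith
    _ = _ := by rw [← Real.exp_nat_mul]; norm_num

lemma int_lorentz {h : ℝ} (hh : 0 < h) : Integrable (fun v : ℝ => (1 + (h * v) ^ 2)⁻¹) ∧
    ∫ v : ℝ, (1 + (h * v) ^ 2)⁻¹ = Real.pi / h := by
  constructor
  · exact integrable_inv_one_add_sq.comp_mul_left' hh.ne'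
  · have h1 := Measure.integral_comp_mul_left (fun v : ℝ => (1 + v ^ 2)⁻¹) h
    rw [h1, integral_univ_inv_one_add_sq, abs_of_pos (inv_pos.mpr hh), smul_eq_mul]
    ring

/-- the integral of the weight against a power -/
lemma Wt_pow_int {h : ℝ} (hh : 0 < h) {n j : ℕ} (hj : j + 2 ≤ n) :
    Integrable (fun v => (1 + h * |v|) ^ j * Wt h n v) ∧
    ∫ v, (1 + h * |v|) ^ j * Wt h n v ≤ Real.pi / h := by
  have hb : ∀ v, (1 + h * |v|) ^ j * Wt h n v ≤ (1 + (h * v) ^ 2)⁻¹ := by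
    intro v
    have h0 : 0 ≤ h * |v| := by positivity
    unfold Wt
    have h1 : (1 + h * |v|) ^ n = (1 + h * |v|) ^ j * (1 + h * |v|) ^ (n - j) := by
      rw [← pow_add]; congr 1; omega
    have h2 : 1 + (h * v) ^ 2 ≤ (1 + h * |v|) ^ (n - j) := by
      have h3 : (1 + h * |v|) ^ 2 ≤ (1 + h * |v|) ^ (n - j) :=
        pow_le_pow_right₀ (by linarith) (by omega)
      have h4 : (h * v) ^ 2 = (h * |v|) ^ 2 := by rw [mul_pow, mul_pow, sq_abs]
      rw [h4]
      nlinarith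
    have h5 : Real.exp (-(v ^ 2)) ≤ 1 := by
      rw [Real.exp_le_one_iff]; nlinarith [sq_nonneg v]
    rw [h1]
    have h6 : (1 + h * |v|) ^ j * (Real.exp (-(v ^ 2)) / ((1 + h * |v|) ^ j * (1 + h * |v|) ^ (n - j))) =
        Real.exp (-(v ^ 2)) / (1 + h * |v|) ^ (n - j) := by
      field_simp
    rw [h6, ← one_div]
    exact div_le_div₀ (by norm_num) h5 (by positivity) h2
  have hpos : ∀ v, 0 ≤ (1 + h * |v|) ^ j * Wt h n v := fun v =>
    mul_nonneg (by positivity) (Wt_pos hh n v).le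
  have hint : Integrable (fun v => (1 + h * |v|) ^ j * Wt h n v) := by
    refine (int_lorentz hh).1.mono' ?_ (Eventually.of_forall fun v => ?_)
    · exact (Continuous.mul (by fun_prop) (Wt_cont hh n)).aestronglyMeasurable
    · rw [Real.norm_of_nonneg (hpos v)]
      exact hb v
  refine ⟨hint, ?_⟩
  rw [← (int_lorentz hh).2]
  exact integral_mono hint (int_lorentz hh).1 hb

/-- Cauchy's inequality -/
lemma cs_int {F W : ℝ → ℝ} (hW : Integrable W) (hF : Integrable (fun v => F v * W v))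
    (hF2 : Integrable (fun v => F v ^ 2 * W v)) (hW0 : ∀ v, 0 ≤ W v) :
    (∫ v, F v * W v) ^ 2 ≤ (∫ v, W v) * ∫ v, F v ^ 2 * W v := by
  have h : ∀ x : ℝ, 0 ≤ (∫ v, W v) * (x * x) + (-2 * ∫ v, F v * W v) * x + ∫ v, F v ^ 2 * W v := by
    intro x
    have h1 : ∫ v, (F v - x) ^ 2 * W v = (∫ v, W v) * (x * x) + (-2 * ∫ v, F v * W v) * x +
        ∫ v, F v ^ 2 * W v := by
      have e : ∀ v, (F v - x) ^ 2 * W v = (F v ^ 2 * W v - (2 * x) * (F v * W v)) + (x * x) * W v := by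
        intro v; ring
      simp_rw [e]
      have j1 := integral_add (hF2.sub (hF.const_mul (2 * x))) (hW.const_mul (x * x))
      have j2 := integral_sub hF2 (hF.const_mul (2 * x))
      simp only [Pi.sub_apply] at j1 j2
      rw [j1, j2, integral_const_mul, integral_const_mul]
      ring
    rw [← h1]
    exact integral_nonneg fun v => mul_nonneg (sq_nonneg _) (hW0 v)
  have h2 := discrim_le_zero h
  unfold discrim at h2
  nlinarith

/-- divisor bound -/
lemma tau_le : ∃ C : ℝ, 1 ≤ C ∧ ∀ q : ℕ, 1 ≤ q → (q.divisors.card : ℝ) ≤ C * (q : ℝ) ^ (1 / 32 : ℝ) := by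
  obtain ⟨K, hK⟩ := H353.divisor_bound 32
  refine ⟨((K : ℝ) + 1) ^ (1 / 32 : ℝ), ?_, ?_⟩
  · apply Real.one_le_rpow _ (by norm_num)
    have : (0 : ℝ) ≤ K := Nat.cast_nonneg K
    linarith
  intro q hq
  have h1 := hK q (by omega)
  have hq0 : (0 : ℝ) ≤ q := Nat.cast_nonneg q
  have hK0 : (0 : ℝ) ≤ K := Nat.cast_nonneg K
  have h2 : (q.divisors.card : ℝ) ^ 32 ≤ ((K : ℝ) + 1) * q := by
    have h3 : (q.divisors.card : ℝ) ^ 32 ≤ (K : ℝ) * q := by exact_mod_cast h1
    nlinarith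
  rw [← Real.mul_rpow (by linarith) hq0]
  have h4 := Real.pow_rpow_inv_natCast (x := (q.divisors.card : ℝ)) (n := 32) (Nat.cast_nonneg _)
    (by norm_num)
  have e : (((32 : ℕ) : ℝ))⁻¹ = (1 / 32 : ℝ) := by push_cast; rw [one_div]
  rw [e] at h4
  rw [← h4]
  exact Real.rpow_le_rpow (by positivity) h2 (by norm_num)

end Pool.Agent.NH13
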