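import Pool.Agent.NH13.Count
import Pool.Agent.NH13.Wt
import Pool.Agent.Helper625.Planch

/-!
# The window polynomial in mean square
-/

set_option autoImplicit false

open Complex MeasureTheory Set Filter Topology
open scoped FourierTransform

namespace Pool.Agent.NH13

open ArithmeticFunction (vonMangoldt)

/-- the function whose transform is the window integral -/
noncomputable def gw {q : ℕ} (χ : DirichletCharacter ℂ q) (κ X Y : ℝ) (s : ℝ) : ℂ :=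
  (Ioc (Real.log X) (Real.log Y)).indicator
    (fun s => psi χ (Real.exp s) * ((Real.exp (-(1 / 2 + κ) * s) : ℝ) : ℂ)) s

lemma gw_meas {q : ℕ} (χ : DirichletCharacter ℂ q) (κ X Y : ℝ) : Measurable (gw χ κ X Y) := by
  unfold gw
  apply Measurable.indicator _ measurableSet_Ioc
  exact ((psi_measurable χ).comp Real.measurable_exp).mul (by fun_prop)

lemma gw_bdd {q : ℕ} (χ : DirichletCharacter ℂ q) {κ X Y : ℝ} (hκ : 0 < κ) (hX : 1 ≤ X)
    (hXY : X ≤ Y) (s : ℝ) :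
    ‖gw χ κ X Y s‖ ≤ (Ioc (Real.log X) (Real.log Y)).indicator
      (fun _ => ∑ n ∈ Finset.Icc 1 ⌊Y⌋₊, vonMangoldt n) s := by
  unfold gw
  by_cases hs : s ∈ Ioc (Real.log X) (Real.log Y)
  · rw [indicator_of_mem hs, indicator_of_mem hs, norm_mul, norm_real,
      Real.norm_of_nonneg (Real.exp_pos _).le]
    have h0 : 0 ≤ s := (Real.log_nonneg hX).trans hs.1.le
    have h1 : Real.exp (-(1 / 2 + κ) * s) ≤ 1 := by
      rw [Real.exp_le_one_iff]; nlinarith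
    have h2 : Real.exp s ≤ Y := by
      rw [← Real.exp_log (by linarith : 0 < Y)]
      exact Real.exp_le_exp.mpr hs.2
    have h3 := psi_norm_le χ h2
    have h4 : 0 ≤ ∑ n ∈ Finset.Icc 1 ⌊Y⌋₊, vonMangoldt n :=
      Finset.sum_nonneg fun n _ => ArithmeticFunction.vonMangoldt_nonneg
    calc ‖psi χ (Real.exp s)‖ * Real.exp (-(1 / 2 + κ) * s) ≤
        (∑ n ∈ Finset.Icc 1 ⌊Y⌋₊, vonMangoldt n) * 1 := by gcongr
      _ = _ := mul_one _
  · rw [indicator_of_notMem hs, indicator_of_notMem hs, norm_zero]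

lemma exp_image {X Y : ℝ} (hX : 0 < X) (hY : 0 < Y) :
    Real.exp '' (Ioc (Real.log X) (Real.log Y)) = Ioc X Y := by
  ext x
  constructor
  · rintro ⟨s, hs, rfl⟩
    constructor
    · rw [← Real.exp_log hX]; exact Real.exp_lt_exp.mpr hs.1
    · rw [← Real.exp_log hY]; exact Real.exp_le_exp.mpr hs.2
  · intro hx
    have hx0 : 0 < x := hX.trans hx.1
    exact ⟨Real.log x, ⟨Real.log_lt_log hX hx.1, Real.log_le_log hx0 hx.2⟩, Real.exp_log hx0⟩

/-- the change of variable `x = e^s` -/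
lemma cov {X Y : ℝ} (hX : 0 < X) (hY : 0 < Y) {E : Type*} [NormedAddCommGroup E] [NormedSpace ℝ E]
    (g : ℝ → E) : ∫ x in Ioc X Y, g x = ∫ s in Ioc (Real.log X) (Real.log Y),
      Real.exp s • g (Real.exp s) := by
  have h := integral_image_eq_integral_abs_deriv_smul (s := Ioc (Real.log X) (Real.log Y))
    (f := Real.exp) (f' := Real.exp) measurableSet_Ioc
    (fun x _ => (Real.hasDerivAt_exp x).hasDerivWithinAt) (Real.exp_injective.injOn) g
  rw [exp_image hX hY] at h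
  rw [h]
  apply integral_congr_ae
  refine Eventually.of_forall fun s => ?_
  simp only [abs_of_pos (Real.exp_pos s)]

/-- the window integral as a transform -/
lemma J_eq {q : ℕ} (χ : DirichletCharacter ℂ q) {κ X Y : ℝ} (hX : 1 ≤ X)
    (hXY : X ≤ Y) (τ : ℝ) :
    ∫ x in Ioc X Y, (x : ℂ) ^ (-(⟨1 / 2 + κ, τ⟩ : ℂ) - 1) * psi χ x =
      𝓕 (gw χ κ X Y) (τ / (2 * Real.pi)) := by
  have hX0 : 0 < X := by linarith
  have hY0 : 0 < Y := by linarith
  rw [cov hX0 hY0, Real.fourier_real_eq_integral_exp_smul]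
  have h1 : ∀ v : ℝ, cexp (((-2 * Real.pi * v * (τ / (2 * Real.pi)) : ℝ) : ℂ) * I) • gw χ κ X Y v =
      (Ioc (Real.log X) (Real.log Y)).indicator (fun s => cexp (-((τ * s : ℝ) : ℂ) * I) *
        (psi χ (Real.exp s) * ((Real.exp (-(1 / 2 + κ) * s) : ℝ) : ℂ))) v := by
    intro v
    have e : -2 * Real.pi * v * (τ / (2 * Real.pi)) = -(τ * v) := by
      have := Real.pi_ne_zero
      field_simp
    rw [e]
    unfold gw
    by_cases hv : v ∈ Ioc (Real.log X) (Real.log Y)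
    · rw [indicator_of_mem hv, indicator_of_mem hv, smul_eq_mul]
      push_cast; ring_nf
    · rw [indicator_of_notMem hv, indicator_of_notMem hv, smul_zero]
  simp_rw [h1]
  rw [integral_indicator measurableSet_Ioc]
  apply integral_congr_ae
  refine Eventually.of_forall fun s => ?_
  simp only
  have hne : ((Real.exp s : ℝ) : ℂ) ≠ 0 := by exact_mod_cast (Real.exp_pos s).ne'
  have e2 : ((Real.exp s : ℝ) : ℂ) ^ (-(⟨1 / 2 + κ, τ⟩ : ℂ) - 1) =
      cexp ((s : ℂ) * (-(⟨1 / 2 + κ, τ⟩ : ℂ) - 1)) := by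
    rw [cpow_def_of_ne_zero hne, ← Complex.ofReal_log (Real.exp_pos s).le, Real.log_exp]
  rw [e2]
  have e3 : Real.exp s • (cexp ((s : ℂ) * (-(⟨1 / 2 + κ, τ⟩ : ℂ) - 1)) * psi χ (Real.exp s)) =
      ((Real.exp s : ℝ) : ℂ) * (cexp ((s : ℂ) * (-(⟨1 / 2 + κ, τ⟩ : ℂ) - 1)) * psi χ (Real.exp s)) := by
    rw [Complex.real_smul]
  rw [e3]
  have e4 : ((Real.exp s : ℝ) : ℂ) * cexp ((s : ℂ) * (-(⟨1 / 2 + κ, τ⟩ : ℂ) - 1)) =
      cexp (-((τ * s : ℝ) : ℂ) * I) * ((Real.exp (-(1 / 2 + κ) * s) : ℝ) : ℂ) := by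
    rw [mk_re_im, Complex.ofReal_exp, Complex.ofReal_exp, ← Complex.exp_add, ← Complex.exp_add]
    congr 1
    push_cast
    ring
  linear_combination (psi χ (Real.exp s)) * e4

/-- Plancherel for the window integral -/
lemma J_sq {q : ℕ} (χ : DirichletCharacter ℂ q) {κ X Y : ℝ} (hκ : 0 < κ) (hX : 1 ≤ X)
    (hXY : X ≤ Y) :
    Integrable (fun τ : ℝ => ‖∫ x in Ioc X Y, (x : ℂ) ^ (-(⟨1 / 2 + κ, τ⟩ : ℂ) - 1) * psi χ x‖ ^ 2) ∧
    ∫ τ : ℝ, ‖∫ x in Ioc X Y, (x : ℂ) ^ (-(⟨1 / 2 + κ, τ⟩ : ℂ) - 1) * psi χ x‖ ^ 2 ≤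
      2 * Real.pi * ∫ x in Ioc X Y, ‖psi χ x‖ ^ 2 / x ^ 2 := by
  have hX0 : 0 < X := by linarith
  have hY0 : 0 < Y := by linarith
  obtain ⟨B, hB⟩ : ∃ B : ℝ, B = ∑ n ∈ Finset.Icc 1 ⌊Y⌋₊, vonMangoldt n := ⟨_, rfl⟩
  have hB0 : 0 ≤ B := by
    rw [hB]; exact Finset.sum_nonneg fun n _ => ArithmeticFunction.vonMangoldt_nonneg
  have hbd := gw_bdd χ hκ hX hXY
  rw [← hB] at hbd
  have hm := gw_meas χ κ X Y
  have hi1 : Integrable (gw χ κ X Y) := by
    refine Integrable.mono' (g := (Ioc (Real.log X) (Real.log Y)).indicator (fun _ => B)) ?_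
      hm.aestronglyMeasurable (Eventually.of_forall hbd)
    rw [integrable_indicator_iff measurableSet_Ioc]
    exact integrableOn_const (by simp)
  have hi2 : MemLp (gw χ κ X Y) 2 := by
    rw [memLp_two_iff_integrable_sq_norm hm.aestronglyMeasurable]
    refine Integrable.mono' (g := (Ioc (Real.log X) (Real.log Y)).indicator (fun _ => B ^ 2)) ?_
      (hm.norm.pow_const 2).aestronglyMeasurable (Eventually.of_forall fun s => ?_)
    · rw [integrable_indicator_iff measurableSet_Ioc]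
      exact integrableOn_const (by simp)
    · rw [Real.norm_of_nonneg (by positivity)]
      have h1 := hbd s
      by_cases hs : s ∈ Ioc (Real.log X) (Real.log Y)
      · rw [indicator_of_mem hs] at h1 ⊢
        gcongr
      · rw [indicator_of_notMem hs] at h1 ⊢
        have : ‖gw χ κ X Y s‖ = 0 := le_antisymm h1 (norm_nonneg _)
        rw [this]; simp
  obtain ⟨hmF, heF⟩ := Pool.Agent.Helper625.Planch.plancherel (gw χ κ X Y) hi1 hi2
  have hint : Integrable (fun x => ‖𝓕 (gw χ κ X Y) x‖ ^ 2) :=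
    (memLp_two_iff_integrable_sq_norm hmF.aestronglyMeasurable).1 hmF
  have h2π : (2 * Real.pi) ≠ 0 := by positivity
  have hint' : Integrable (fun ξ : ℝ => ‖𝓕 (gw χ κ X Y) (ξ / (2 * Real.pi))‖ ^ 2) :=
    hint.comp_div h2π
  simp_rw [J_eq χ hX hXY]
  refine ⟨hint', ?_⟩
  rw [Measure.integral_comp_div (fun x => ‖𝓕 (gw χ κ X Y) x‖ ^ 2) (2 * Real.pi), heF, smul_eq_mul,
    abs_of_pos (by positivity)]
  apply mul_le_mul_of_nonneg_left _ (by positivity)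
  rw [cov hX0 hY0]
  have e1 : ∀ s : ℝ, ‖gw χ κ X Y s‖ ^ 2 = (Ioc (Real.log X) (Real.log Y)).indicator
      (fun s => ‖psi χ (Real.exp s)‖ ^ 2 * Real.exp (-(1 + 2 * κ) * s)) s := by
    intro s
    unfold gw
    by_cases hs : s ∈ Ioc (Real.log X) (Real.log Y)
    · rw [indicator_of_mem hs, indicator_of_mem hs, norm_mul, norm_real,
        Real.norm_of_nonneg (Real.exp_pos _).le, mul_pow, ← Real.exp_nat_mul]
      congr 2
      push_cast; ring
    · rw [indicator_of_notMem hs, indicator_of_notMem hs, norm_zero]; simp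
  simp_rw [e1]
  rw [integral_indicator measurableSet_Ioc]
  apply setIntegral_mono_on
  · have hi3 : Integrable (fun s => ‖gw χ κ X Y s‖ ^ 2) :=
      (memLp_two_iff_integrable_sq_norm hi2.aestronglyMeasurable).1 hi2
    simp_rw [e1] at hi3
    rwa [integrable_indicator_iff measurableSet_Ioc] at hi3
  · refine Measure.integrableOn_of_bounded (M := B ^ 2) (by simp) ?_ ?_
    · exact (Real.measurable_exp.smul (((((psi_measurable χ).comp Real.measurable_exp).norm).pow_const 2).div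
        (Real.measurable_exp.pow_const 2))).aestronglyMeasurable
    · refine (ae_restrict_mem measurableSet_Ioc).mono fun s hs => ?_
      have h0 : 0 ≤ s := (Real.log_nonneg hX).trans hs.1.le
      have h2 : Real.exp s ≤ Y := by
        rw [← Real.exp_log hY0]
        exact Real.exp_le_exp.mpr hs.2
      have h3 := psi_norm_le χ h2
      rw [← hB] at h3
      have h4 : 1 ≤ Real.exp s := Real.one_le_exp h0
      rw [smul_eq_mul, Real.norm_of_nonneg (by positivity)]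
      have h5 : Real.exp s * (‖psi χ (Real.exp s)‖ ^ 2 / Real.exp s ^ 2) =
          ‖psi χ (Real.exp s)‖ ^ 2 / Real.exp s := by
        field_simp
      rw [h5]
      refine (div_le_self (by positivity) h4).trans ?_
      gcongr
  · exact measurableSet_Ioc
  · intro s hs
    have h0 : 0 ≤ s := (Real.log_nonneg hX).trans hs.1.le
    rw [smul_eq_mul]
    have h5 : Real.exp s * (‖psi χ (Real.exp s)‖ ^ 2 / Real.exp s ^ 2) =
        ‖psi χ (Real.exp s)‖ ^ 2 * Real.exp (-s) := by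
      rw [Real.exp_neg]
      field_simp
    rw [h5]
    gcongr
    nlinarith

/-- summation by parts -/
lemma pol_abel {q : ℕ} (χ : DirichletCharacter ℂ q) {X Y : ℝ} (hX : 1 ≤ X) (hXY : X ≤ Y) {w : ℂ}
    (hw : w ≠ 0) :
    Pol χ (Finset.Ioc ⌊X⌋₊ ⌊Y⌋₊) w = (Y : ℂ) ^ (-w) * psi χ Y - (X : ℂ) ^ (-w) * psi χ X +
      w * ∫ x in Ioc X Y, (x : ℂ) ^ (-w - 1) * psi χ x := by
  have hX0 : 0 < X := by linarith
  set f : ℝ → ℂ := fun t => (t : ℂ) ^ (-w) with hf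
  have hw0 : -w ≠ 0 := neg_ne_zero.mpr hw
  have hder : ∀ t : ℝ, 0 < t → HasDerivAt f (-w * (t : ℂ) ^ (-w - 1)) t := by
    intro t ht
    exact hasDerivAt_ofReal_cpow_const (x := t) ht.ne' (r := -w) hw0
  have habel := sum_mul_eq_sub_sub_integral_mul (fun n : ℕ => (vonMangoldt n : ℂ) * χ (n : ZMod q))
    (f := f) hX0.le hXY (fun t ht => (hder t (lt_of_lt_of_le hX0 ht.1)).differentiableAt) (by
      have hc : ContinuousOn (fun t : ℝ => -w * (t : ℂ) ^ (-w - 1)) (Icc X Y) := by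
        apply ContinuousOn.mul continuousOn_const
        intro t ht
        exact (Complex.continuousAt_ofReal_cpow_const _ _
          (Or.inr (lt_of_lt_of_le hX0 ht.1).ne')).continuousWithinAt
      refine (hc.integrableOn_Icc).congr_fun (fun t ht => ?_) measurableSet_Icc
      exact (hder t (lt_of_lt_of_le hX0 ht.1)).deriv.symm)
  have e0 : Pol χ (Finset.Ioc ⌊X⌋₊ ⌊Y⌋₊) w =
      ∑ k ∈ Finset.Ioc ⌊X⌋₊ ⌊Y⌋₊, f k * ((vonMangoldt k : ℂ) * χ (k : ZMod q)) := by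
    unfold Pol
    apply Finset.sum_congr rfl
    intro n _
    simp only [hf]
    push_cast
    ring
  rw [e0, habel]
  simp only [← psi_eq0]
  have e1 : ∫ t in Ioc X Y, deriv f t * psi χ t =
      -w * ∫ x in Ioc X Y, (x : ℂ) ^ (-w - 1) * psi χ x := by
    rw [← integral_const_mul]
    apply setIntegral_congr_fun measurableSet_Ioc
    intro t ht
    simp only
    rw [(hder t (lt_trans hX0 ht.1)).deriv]
    ring
  rw [e1]
  simp only [hf]
  ring

theorem pwin_sq : ∃ C : ℝ, 1 ≤ C ∧ ∀ (q : ℕ) [NeZero q] (χ : DirichletCharacter ℂ q)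
    (κ X Y θ y : ℝ), 0 < κ → κ ≤ 1 / 2 → 1 ≤ X → X ≤ Y → 0 < θ → SmallOn χ X Y θ →
    ∫ t : ℝ, ww t * ‖Pol χ (Finset.Ioc ⌊X⌋₊ ⌊Y⌋₊) ⟨1 / 2 + κ, t + y⟩‖ ^ 2 ≤
      C * θ ^ 2 * (1 + |y|) ^ 2 := by
  obtain ⟨W, hW⟩ : ∃ W : ℝ, W = ∫ t : ℝ, ww t := ⟨_, rfl⟩
  have hW0 : 0 ≤ W := by rw [hW]; exact integral_nonneg fun t => (ww_pos t).le
  have hpi := Real.pi_pos
  refine ⟨1 + 6 * W + 6 * Real.pi * Real.exp 324, by
    have : 0 ≤ 6 * Real.pi * Real.exp 324 := by positivity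
    linarith, ?_⟩
  intro q _ χ κ X Y θ y hκ hκ1 hX hXY hθ hsm
  obtain ⟨h1, h2, h3⟩ := hsm
  have hX0 : 0 < X := by linarith
  have hY0 : 0 < Y := by linarith
  have hJ := J_sq χ hκ hX hXY
  obtain ⟨J, hJdef⟩ : ∃ J : ℝ → ℂ, J = fun τ : ℝ =>
    ∫ x in Ioc X Y, (x : ℂ) ^ (-(⟨1 / 2 + κ, τ⟩ : ℂ) - 1) * psi χ x := ⟨_, rfl⟩
  have hJ1 : Integrable (fun τ => ‖J τ‖ ^ 2) := by rw [hJdef]; exact hJ.1
  have hJ2 : ∫ τ, ‖J τ‖ ^ 2 ≤ 2 * Real.pi * θ ^ 2 := by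
    rw [hJdef]
    refine hJ.2.trans ?_
    gcongr
  have hend : ∀ x : ℝ, 1 ≤ x → ‖psi χ x‖ ≤ θ * Real.sqrt x → ∀ τ : ℝ,
      ‖(x : ℂ) ^ (-(⟨1 / 2 + κ, τ⟩ : ℂ)) * psi χ x‖ ≤ θ := by
    intro t ht hp τ
    have ht0 : 0 < t := by linarith
    rw [norm_mul, norm_cpow_eq_rpow_re_of_pos ht0]
    have e0 : (-(⟨1 / 2 + κ, τ⟩ : ℂ)).re = -(1 / 2 + κ) := by simp
    rw [e0]
    have e1 : Real.sqrt t = t ^ (1 / 2 : ℝ) := Real.sqrt_eq_rpow _
    have e2 : t ^ (-(1 / 2 + κ)) * t ^ (1 / 2 : ℝ) = t ^ (-κ) := by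
      rw [← Real.rpow_add ht0]; congr 1; ring
    have e3 : t ^ (-κ) ≤ 1 := Real.rpow_le_one_of_one_le_of_nonpos ht (by linarith)
    have e4 : 0 ≤ t ^ (-(1 / 2 + κ)) := by positivity
    calc t ^ (-(1 / 2 + κ)) * ‖psi χ t‖ ≤ t ^ (-(1 / 2 + κ)) * (θ * Real.sqrt t) := by gcongr
      _ = θ * (t ^ (-(1 / 2 + κ)) * t ^ (1 / 2 : ℝ)) := by rw [e1]; ring
      _ = θ * t ^ (-κ) := by rw [e2]
      _ ≤ θ * 1 := by gcongr
      _ = θ := mul_one _
  have hpt : ∀ t : ℝ, ww t * ‖Pol χ (Finset.Ioc ⌊X⌋₊ ⌊Y⌋₊) ⟨1 / 2 + κ, t + y⟩‖ ^ 2 ≤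
      6 * θ ^ 2 * ww t + 3 * Real.exp 324 * (1 + |y|) ^ 2 * ‖J (t + y)‖ ^ 2 := by
    intro t
    have hw0 : (⟨1 / 2 + κ, t + y⟩ : ℂ) ≠ 0 := mk_ne_zero (by linarith) _
    rw [pol_abel χ hX hXY hw0]
    have hJt : J (t + y) = ∫ x in Ioc X Y, (x : ℂ) ^ (-(⟨1 / 2 + κ, t + y⟩ : ℂ) - 1) * psi χ x := by
      rw [hJdef]
    rw [← hJt]
    have b1 := hend Y (by linarith) h2 (t + y)
    have b2 := hend X hX h1 (t + y)
    have b3 : ‖(⟨1 / 2 + κ, t + y⟩ : ℂ)‖ ≤ (1 + |t|) * (1 + |y|) := by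
      have h := Complex.norm_le_abs_re_add_abs_im (⟨1 / 2 + κ, t + y⟩ : ℂ)
      simp only at h
      rw [abs_of_pos (by linarith : 0 < 1 / 2 + κ)] at h
      have := one_add_abs_add t y
      linarith
    have b4 : ‖(Y : ℂ) ^ (-(⟨1 / 2 + κ, t + y⟩ : ℂ)) * psi χ Y -
        (X : ℂ) ^ (-(⟨1 / 2 + κ, t + y⟩ : ℂ)) * psi χ X + (⟨1 / 2 + κ, t + y⟩ : ℂ) * J (t + y)‖ ^ 2 ≤
        6 * θ ^ 2 + 3 * ((1 + |t|) * (1 + |y|)) ^ 2 * ‖J (t + y)‖ ^ 2 := by
      have b5 : ‖(Y : ℂ) ^ (-(⟨1 / 2 + κ, t + y⟩ : ℂ)) * psi χ Y -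
        (X : ℂ) ^ (-(⟨1 / 2 + κ, t + y⟩ : ℂ)) * psi χ X + (⟨1 / 2 + κ, t + y⟩ : ℂ) * J (t + y)‖ ≤
        θ + θ + ((1 + |t|) * (1 + |y|)) * ‖J (t + y)‖ := by
        refine (norm_add_le _ _).trans (add_le_add ((norm_sub_le _ _).trans (add_le_add b1 b2)) ?_)
        rw [norm_mul]
        gcongr
      calc _ ≤ (θ + θ + ((1 + |t|) * (1 + |y|)) * ‖J (t + y)‖) ^ 2 := by gcongr
        _ ≤ _ := by
            nlinarith [sq_nonneg (θ - ((1 + |t|) * (1 + |y|)) * ‖J (t + y)‖)]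
    have b6 : ww t * (1 + |t|) ^ 2 ≤ Real.exp 324 := by
      have h4 := ww_exp_le t
      have h5 := sq_le_exp t
      have h6 : Real.exp (-(1 / 144) * t ^ 2) ≤ 1 := by
        rw [Real.exp_le_one_iff]; nlinarith [sq_nonneg t]
      have h7 := (ww_pos t).le
      calc ww t * (1 + |t|) ^ 2 ≤ ww t * Real.exp (3 * |t|) := by gcongr
        _ ≤ Real.exp 324 * Real.exp (-(1 / 144) * t ^ 2) := h4
        _ ≤ Real.exp 324 * 1 := by gcongr
        _ = _ := mul_one _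
    have h7 := (ww_pos t).le
    calc _ ≤ ww t * (6 * θ ^ 2 + 3 * ((1 + |t|) * (1 + |y|)) ^ 2 * ‖J (t + y)‖ ^ 2) := by gcongr
      _ = 6 * θ ^ 2 * ww t + 3 * (ww t * (1 + |t|) ^ 2) * (1 + |y|) ^ 2 * ‖J (t + y)‖ ^ 2 := by ring
      _ ≤ _ := by gcongr
  have hJs : Integrable (fun t => ‖J (t + y)‖ ^ 2) := hJ1.comp_add_right y
  have hfin := integral_mono_of_nonneg (μ := volume) (Eventually.of_forall fun t =>
    mul_nonneg (ww_pos t).le (sq_nonneg _))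
    ((integrable_ww.const_mul (6 * θ ^ 2)).add (hJs.const_mul (3 * Real.exp 324 * (1 + |y|) ^ 2)))
    (Eventually.of_forall hpt)
  refine hfin.trans ?_
  have j1 := integral_add (integrable_ww.const_mul (6 * θ ^ 2))
    (hJs.const_mul (3 * Real.exp 324 * (1 + |y|) ^ 2))
  simp only [Pi.add_apply]
  rw [j1, integral_const_mul, integral_const_mul, ← hW,
    integral_add_right_eq_self (fun t => ‖J t‖ ^ 2) y]
  have hy : 1 ≤ (1 + |y|) ^ 2 := by
    have := abs_nonneg y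
    nlinarith
  have hθ2 : 0 < θ ^ 2 := by positivity
  calc 6 * θ ^ 2 * W + 3 * Real.exp 324 * (1 + |y|) ^ 2 * ∫ t, ‖J t‖ ^ 2
      ≤ 6 * θ ^ 2 * W * (1 + |y|) ^ 2 + 3 * Real.exp 324 * (1 + |y|) ^ 2 * (2 * Real.pi * θ ^ 2) := by
        refine add_le_add (le_mul_of_one_le_right (by positivity) hy) ?_
        gcongr
    _ = (6 * W + 6 * Real.pi * Real.exp 324) * θ ^ 2 * (1 + |y|) ^ 2 := by ring
    _ ≤ _ := by
        gcongr
        linarith

end Pool.Agent.NH13
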