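import Pool.Agent.NH13.Phi

/-!
# The inequality for one character
-/

set_option autoImplicit false

open Complex MeasureTheory Set Filter Topology

namespace Pool.Agent.NH13

open ArithmeticFunction (vonMangoldt)

/-- the point of the reflected circle -/
noncomputable def circ {q : ℕ} [NeZero q] (χ : DirichletCharacter ℂ q) (κ t φ : ℝ) : ℝ :=
  ‖χ.LFunction ⟨1 / 2 + κ - κ / 2 * Real.cos φ, t + κ / 2 * Real.sin φ⟩‖

/-- the average over the circle -/
noncomputable def CC {q : ℕ} [NeZero q] (χ : DirichletCharacter ℂ q) (κ t : ℝ) : ℝ :=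
  ∫ φ in (0 : ℝ)..2 * Real.pi, circ χ κ t φ

lemma circ_cont {q : ℕ} [NeZero q] {χ : DirichletCharacter ℂ q} (hχ : χ ≠ 1) (κ : ℝ) :
    Continuous (Function.uncurry (circ χ κ)) := by
  have hL : Continuous χ.LFunction := (DirichletCharacter.differentiable_LFunction hχ).continuous
  have h : Continuous (fun p : ℝ × ℝ =>
      (⟨1 / 2 + κ - κ / 2 * Real.cos p.2, p.1 + κ / 2 * Real.sin p.2⟩ : ℂ)) := by
    have e : (fun p : ℝ × ℝ =>
      (⟨1 / 2 + κ - κ / 2 * Real.cos p.2, p.1 + κ / 2 * Real.sin p.2⟩ : ℂ)) = fun p : ℝ × ℝ =>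
      ((1 / 2 + κ - κ / 2 * Real.cos p.2 : ℝ) : ℂ) + ((p.1 + κ / 2 * Real.sin p.2 : ℝ) : ℂ) * I := by
      funext p; exact mk_re_im _ _
    rw [e]; fun_prop
  exact (hL.comp h).norm

lemma circ_line {q : ℕ} [NeZero q] {χ : DirichletCharacter ℂ q} (hχ : χ ≠ 1) (κ t : ℝ) :
    Continuous (circ χ κ t) := (circ_cont hχ κ).uncurry_left t

lemma CC_cont {q : ℕ} [NeZero q] {χ : DirichletCharacter ℂ q} (hχ : χ ≠ 1) (κ : ℝ) :
    Continuous (CC χ κ) :=
  intervalIntegral.continuous_parametric_intervalIntegral_of_continuous' (circ_cont hχ κ) 0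
    (2 * Real.pi)

/-- `log q L + L'` on the left line -/
theorem left_line : ∃ C : ℝ, 1 ≤ C ∧ ∀ (q : ℕ) [NeZero q] (χ : DirichletCharacter ℂ q), 2 ≤ q →
    χ.IsPrimitive → ∀ κ t : ℝ, 0 < κ → κ ≤ 1 / 16 →
    ‖χ.LFunction ⟨1 / 2 - κ, t⟩ * (Real.log q : ℂ) + deriv χ.LFunction ⟨1 / 2 - κ, t⟩‖ ≤
      C / κ * (q : ℝ) ^ κ * (1 + |t|) * CC χ κ t := by
  obtain ⟨C, hC, hFE⟩ := FE_bounds
  refine ⟨4 * C, by linarith, ?_⟩
  intro q _ χ hq hχ κ t hκ hκ1
  have hne := ne_one_of_prim hq hχ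
  have hL : Differentiable ℂ χ.LFunction := DirichletCharacter.differentiable_LFunction hne
  have hq0 : (0 : ℝ) < q := by exact_mod_cast NeZero.pos q
  have hqc : (q : ℂ) ≠ 0 := by exact_mod_cast NeZero.ne q
  have hpi := Real.pi_pos
  set s : ℂ := ⟨1 / 2 - κ, t⟩ with hs
  set g : ℂ → ℂ := fun w => (q : ℂ) ^ w * χ.LFunction w with hg
  have hlog : Complex.log (q : ℂ) = (Real.log q : ℂ) := by
    rw [← Complex.natCast_log]
  have hgd : ∀ w, HasDerivAt g ((q : ℂ) ^ w * (χ.LFunction w * (Real.log q : ℂ) +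
      deriv χ.LFunction w)) w := by
    intro w
    have h1 : HasDerivAt (fun w : ℂ => (q : ℂ) ^ w) ((q : ℂ) ^ w * Complex.log q) w := by
      have := (hasDerivAt_id w).const_cpow (c := (q : ℂ)) (Or.inl hqc)
      simpa using this
    have h2 := (hL w).hasDerivAt
    have h3 := h1.mul h2
    refine h3.congr_deriv ?_
    rw [hlog]; ring
  have hgdiff : Differentiable ℂ g := fun w => (hgd w).differentiableAt
  have hR : 0 < κ / 2 := by linarith
  have hcauchy := (hgdiff.diffContOnCl (s := Metric.ball s (κ / 2))).deriv_eq_smul_circleIntegral hR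
  rw [(hgd s).deriv] at hcauchy
  have hn := congrArg norm hcauchy
  rw [norm_smul, norm_mul (((q : ℂ)) ^ s)] at hn
  have e1 : ‖(q : ℂ) ^ s‖ = (q : ℝ) ^ (1 / 2 - κ) := by
    rw [norm_natCast_cpow_of_pos (NeZero.pos q)]
  have e2 : ‖(2 * Real.pi * I : ℂ)‖ = 2 * Real.pi := by
    rw [norm_mul, norm_mul, norm_I, norm_real, Real.norm_of_nonneg hpi.le]
    norm_num
  rw [e1, e2] at hn
  -- the circle integral
  have hci : ‖∮ z in C(s, κ / 2), (1 / (z - s) ^ 2) • g z‖ ≤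
      (2 / κ) * (2 * C * (1 + |t|) * (q : ℝ) ^ (1 / 2 : ℝ)) * CC χ κ t := by
    have hcdef : (∮ z in C(s, κ / 2), (1 / (z - s) ^ 2) • g z) = ∫ φ in (0 : ℝ)..2 * Real.pi,
        (circleMap 0 (κ / 2) φ * I) * ((1 / (circleMap s (κ / 2) φ - s) ^ 2) *
          g (circleMap s (κ / 2) φ)) := by
      unfold circleIntegral
      simp only [deriv_circleMap, smul_eq_mul]
    rw [hcdef]
    obtain ⟨E, hE⟩ : ∃ E : ℝ, E = (2 / κ) * (2 * C * (1 + |t|) * (q : ℝ) ^ (1 / 2 : ℝ)) := ⟨_, rfl⟩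
    have hb : ∀ φ : ℝ,
        ‖(circleMap 0 (κ / 2) φ * I) * ((1 / (circleMap s (κ / 2) φ - s) ^ 2) *
          g (circleMap s (κ / 2) φ))‖ ≤ E * circ χ κ t φ := by
      intro φ
      rw [hE]
      have e3 : circleMap s (κ / 2) φ = ⟨1 / 2 - κ + κ / 2 * Real.cos φ, t + κ / 2 * Real.sin φ⟩ := by
        unfold circleMap
        apply Complex.ext
        · simp [hs, Complex.exp_re]
        · simp [hs, Complex.exp_im]
      have e4 : circleMap s (κ / 2) φ - s = circleMap 0 (κ / 2) φ := by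
        simp [circleMap]
      have e5 : ‖circleMap 0 (κ / 2) φ‖ = κ / 2 := by
        rw [norm_circleMap_zero, abs_of_pos hR]
      rw [e4, norm_mul, norm_mul, norm_mul, norm_div, norm_pow, norm_one, e5, norm_I, mul_one]
      set σ' : ℝ := 1 / 2 - κ + κ / 2 * Real.cos φ with hσ'
      set τ : ℝ := t + κ / 2 * Real.sin φ with hτ
      have hcos1 := Real.cos_le_one φ
      have hcos2 := Real.neg_one_le_cos φ
      have hsin : |Real.sin φ| ≤ 1 := Real.abs_sin_le_one φ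
      have i1 : 1 / 4 ≤ σ' := by rw [hσ']; nlinarith
      have i2 : σ' ≤ 1 / 2 := by rw [hσ']; nlinarith
      have h1 := (hFE q χ hq hχ σ' τ i1 i2).1
      have h2 : 1 + |τ| ≤ 2 * (1 + |t|) := by
        have h3 := abs_add_le t (κ / 2 * Real.sin φ)
        rw [abs_mul, abs_of_pos hR] at h3
        have h4 : κ / 2 * |Real.sin φ| ≤ 1 := by
          have := abs_nonneg (Real.sin φ)
          nlinarith
        have := abs_nonneg t
        linarith
      have e6 : (1 - σ' : ℝ) = 1 / 2 + κ - κ / 2 * Real.cos φ := by rw [hσ']; ring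
      have e7 : ‖g (circleMap s (κ / 2) φ)‖ = (q : ℝ) ^ σ' * ‖χ.LFunction ⟨σ', τ⟩‖ := by
        rw [e3]
        simp only [hg]
        rw [norm_mul, norm_natCast_cpow_of_pos (NeZero.pos q)]
      have e8 : (q : ℝ) ^ σ' * (q : ℝ) ^ (1 / 2 - σ') = (q : ℝ) ^ (1 / 2 : ℝ) := by
        rw [← Real.rpow_add hq0]; congr 1; ring
      have h5 : ‖g (circleMap s (κ / 2) φ)‖ ≤
          2 * C * (1 + |t|) * (q : ℝ) ^ (1 / 2 : ℝ) * circ χ κ t φ := by
        rw [e7]
        unfold circ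
        rw [← e6, ← hτ]
        calc (q : ℝ) ^ σ' * ‖χ.LFunction ⟨σ', τ⟩‖ ≤ (q : ℝ) ^ σ' *
              (C * (1 + |τ|) * (q : ℝ) ^ (1 / 2 - σ') * ‖χ.LFunction ⟨1 - σ', τ⟩‖) := by gcongr
          _ ≤ (q : ℝ) ^ σ' *
              (C * (2 * (1 + |t|)) * (q : ℝ) ^ (1 / 2 - σ') * ‖χ.LFunction ⟨1 - σ', τ⟩‖) := by gcongr
          _ = 2 * C * (1 + |t|) * ((q : ℝ) ^ σ' * (q : ℝ) ^ (1 / 2 - σ')) *
              ‖χ.LFunction ⟨1 - σ', τ⟩‖ := by ring
          _ = _ := by rw [e8]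
      have e9 : κ / 2 * (1 / (κ / 2) ^ 2) = 2 / κ := by
        field_simp
      calc κ / 2 * (1 / (κ / 2) ^ 2 * ‖g (circleMap s (κ / 2) φ)‖)
          = (κ / 2 * (1 / (κ / 2) ^ 2)) * ‖g (circleMap s (κ / 2) φ)‖ := by ring
        _ = 2 / κ * ‖g (circleMap s (κ / 2) φ)‖ := by rw [e9]
        _ ≤ 2 / κ * (2 * C * (1 + |t|) * (q : ℝ) ^ (1 / 2 : ℝ) * circ χ κ t φ) := by gcongr
        _ = _ := by ring
    have hint : IntervalIntegrable (fun φ : ℝ => E * circ χ κ t φ) volume 0 (2 * Real.pi) := by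
      apply Continuous.intervalIntegrable
      exact continuous_const.mul (circ_line hne κ t)
    have hfin := intervalIntegral.norm_integral_le_of_norm_le (μ := volume) (a := 0)
      (b := 2 * Real.pi) (f := fun φ : ℝ => (circleMap 0 (κ / 2) φ * I) *
        ((1 / (circleMap s (κ / 2) φ - s) ^ 2) * g (circleMap s (κ / 2) φ)))
      (g := fun φ : ℝ => E * circ χ κ t φ) (by positivity)
      (Eventually.of_forall fun φ _ => hb φ) hint
    rw [intervalIntegral.integral_const_mul] at hfin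
    rw [← hE]
    exact hfin
  have hCC0 : 0 ≤ CC χ κ t := by
    unfold CC
    exact intervalIntegral.integral_nonneg (by positivity) (fun φ _ => norm_nonneg _)
  set N := ‖χ.LFunction s * (Real.log q : ℂ) + deriv χ.LFunction s‖ with hN
  have hq1 : 0 < (q : ℝ) ^ (1 / 2 - κ) := Real.rpow_pos_of_pos hq0 _
  have h1 : (q : ℝ) ^ (1 / 2 - κ) * N ≤
      ((2 / κ) * (2 * C * (1 + |t|) * (q : ℝ) ^ (1 / 2 : ℝ)) * CC χ κ t) := by
    have h2 : (q : ℝ) ^ (1 / 2 - κ) * N ≤ 2 * Real.pi * ((q : ℝ) ^ (1 / 2 - κ) * N) := by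
      have : 0 ≤ (q : ℝ) ^ (1 / 2 - κ) * N := by positivity
      nlinarith [Real.pi_gt_three]
    exact h2.trans (hn.symm.le.trans hci)
  have e10 : (q : ℝ) ^ (1 / 2 : ℝ) = (q : ℝ) ^ (1 / 2 - κ) * (q : ℝ) ^ κ := by
    rw [← Real.rpow_add hq0]; congr 1; ring
  have h3 : (q : ℝ) ^ (1 / 2 - κ) * N ≤ (q : ℝ) ^ (1 / 2 - κ) *
      (4 * C / κ * (q : ℝ) ^ κ * (1 + |t|) * CC χ κ t) := by
    refine h1.trans (le_of_eq ?_)
    rw [e10]; ring
  exact le_of_mul_le_mul_left h3 hq1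

end Pool.Agent.NH13
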