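import Pool.Agent.NH13.Phi2
import Pool.Agent.NH13.GaussM
import Pool.Agent.NH13.MollSup
import Pool.Agent.NH13.PWinSq

/-!
# The inequality for one character, with the mollifier
-/

set_option autoImplicit false

open Complex MeasureTheory Set Filter Topology

namespace Pool.Agent.NH13

open ArithmeticFunction (vonMangoldt)

/-- the size of the mollifier on the line -/
noncomputable def Mt {q : ℕ} (χ : DirichletCharacter ℂ q) (κ t : ℝ) : ℝ :=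
  ‖MM χ (1 / κ) ⟨1 / 2 + κ, t⟩‖

lemma Mt_nonneg {q : ℕ} (χ : DirichletCharacter ℂ q) (κ t : ℝ) : 0 ≤ Mt χ κ t := norm_nonneg _

lemma MM_diff {q : ℕ} (χ : DirichletCharacter ℂ q) (X : ℝ) : Differentiable ℂ (MM χ X) := by
  unfold MM ac
  fun_prop

lemma Mt_cont {q : ℕ} (χ : DirichletCharacter ℂ q) (κ : ℝ) : Continuous (Mt χ κ) :=
  (cont_line (MM_diff χ (1 / κ)).continuous _).norm

lemma Mt_le {q : ℕ} (χ : DirichletCharacter ℂ q) {κ : ℝ} (hκ : 0 < κ) (hκ1 : κ ≤ 1) (t : ℝ) :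
    Mt χ κ t ≤ Real.exp (1 / κ) := by
  unfold Mt
  apply MM_norm_le χ
  · rw [le_div_iff₀ hκ]; linarith
  · simp only; linarith

/-- the circle average of the square -/
noncomputable def CC2 {q : ℕ} [NeZero q] (χ : DirichletCharacter ℂ q) (κ t : ℝ) : ℝ :=
  ∫ φ in (0 : ℝ)..2 * Real.pi, (circ χ κ t φ * Mt χ κ t) ^ 2

/-- the weighted integral of the square -/
noncomputable def J2 {q : ℕ} [NeZero q] (χ : DirichletCharacter ℂ q) (κ h t : ℝ) : ℝ :=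
  ∫ y : ℝ, LM χ κ κ t y ^ 2 * Wt h 40 y

/-- the window polynomial -/
noncomputable def PWn {q : ℕ} (χ : DirichletCharacter ℂ q) (κ X Y τ : ℝ) : ℝ :=
  ‖Pol χ (Finset.Ioc ⌊X⌋₊ ⌊Y⌋₊) ⟨1 / 2 + κ, τ⟩‖

/-- the weighted integral of its square -/
noncomputable def P2 {q : ℕ} (χ : DirichletCharacter ℂ q) (κ X Y h t : ℝ) : ℝ :=
  ∫ y : ℝ, PWn χ κ X Y (t + y) ^ 2 * Wt h 40 y

lemma PWn_cont {q : ℕ} (χ : DirichletCharacter ℂ q) (κ X Y : ℝ) : Continuous (PWn χ κ X Y) :=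
  (PW_cont χ κ X Y).norm

lemma CC2_cont {q : ℕ} [NeZero q] {χ : DirichletCharacter ℂ q} (hχ : χ ≠ 1) (κ : ℝ) :
    Continuous (CC2 χ κ) := by
  have h : Continuous (Function.uncurry (fun t φ => (circ χ κ t φ * Mt χ κ t) ^ 2)) :=
    ((circ_cont hχ κ).mul ((Mt_cont χ κ).comp continuous_fst)).pow 2
  exact intervalIntegral.continuous_parametric_intervalIntegral_of_continuous' h 0 (2 * Real.pi)

lemma LM_cont2 {q : ℕ} [NeZero q] {χ : DirichletCharacter ℂ q} (hχ : χ ≠ 1) (κ : ℝ) :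
    Continuous (fun p : ℝ × ℝ => LM χ κ κ p.1 p.2) := by
  unfold LM
  have h1 := (L_line_cont hχ (1 / 2 + κ)).comp (by fun_prop : Continuous (fun p : ℝ × ℝ => p.1 + p.2))
  exact h1.norm.mul ((Mt_cont χ κ).comp continuous_fst)

lemma J2_meas {q : ℕ} [NeZero q] {χ : DirichletCharacter ℂ q} (hχ : χ ≠ 1) (κ : ℝ) {h : ℝ}
    (hh : 0 < h) : StronglyMeasurable (J2 χ κ h) := by
  have h2 : Continuous (fun p : ℝ × ℝ => LM χ κ κ p.1 p.2 ^ 2 * Wt h 40 p.2) :=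
    ((LM_cont2 hχ κ).pow 2).mul ((Wt_cont hh 40).comp continuous_snd)
  exact StronglyMeasurable.integral_prod_right (f := fun t y : ℝ => LM χ κ κ t y ^ 2 * Wt h 40 y)
    h2.stronglyMeasurable

lemma P2_meas {q : ℕ} (χ : DirichletCharacter ℂ q) (κ X Y : ℝ) {h : ℝ}
    (hh : 0 < h) : StronglyMeasurable (P2 χ κ X Y h) := by
  have h2 : Continuous (fun p : ℝ × ℝ => PWn χ κ X Y (p.1 + p.2) ^ 2 * Wt h 40 p.2) :=
    (((PWn_cont χ κ X Y).comp (by fun_prop : Continuous (fun p : ℝ × ℝ => p.1 + p.2))).pow 2).mul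
      ((Wt_cont hh 40).comp continuous_snd)
  exact StronglyMeasurable.integral_prod_right
    (f := fun t y : ℝ => PWn χ κ X Y (t + y) ^ 2 * Wt h 40 y) h2.stronglyMeasurable

lemma CC2_nonneg {q : ℕ} [NeZero q] (χ : DirichletCharacter ℂ q) (κ t : ℝ) : 0 ≤ CC2 χ κ t :=
  intervalIntegral.integral_nonneg (by positivity) (fun φ _ => sq_nonneg _)

lemma J2_nonneg {q : ℕ} [NeZero q] (χ : DirichletCharacter ℂ q) (κ : ℝ) {h : ℝ} (hh : 0 < h) (t : ℝ) :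
    0 ≤ J2 χ κ h t :=
  integral_nonneg fun y => mul_nonneg (sq_nonneg _) (Wt_pos hh 40 y).le

lemma P2_nonneg {q : ℕ} (χ : DirichletCharacter ℂ q) (κ X Y : ℝ) {h : ℝ} (hh : 0 < h) (t : ℝ) :
    0 ≤ P2 χ κ X Y h t :=
  integral_nonneg fun y => mul_nonneg (sq_nonneg _) (Wt_pos hh 40 y).le

lemma circ_line2 {q : ℕ} [NeZero q] {χ : DirichletCharacter ℂ q} (hχ : χ ≠ 1) (κ t : ℝ) :
    Continuous (fun φ => (circ χ κ t φ * Mt χ κ t) ^ 2) :=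
  ((circ_line hχ κ t).mul continuous_const).pow 2

lemma CC2_le {q : ℕ} [NeZero q] {χ : DirichletCharacter ℂ q} (hχ : χ ≠ 1) {κ : ℝ} (hκ : 0 < κ)
    (hκ1 : κ ≤ 1 / 16) (t : ℝ) : CC2 χ κ t ≤
      (2 * Real.pi * ((1 + 4 * q) * 2 * Real.exp (1 / κ)) ^ 2) * (1 + |t|) ^ 2 := by
  have hpi := Real.pi_pos
  have h : CC2 χ κ t ≤ ∫ _ in (0 : ℝ)..2 * Real.pi,
      ((1 + 4 * (q : ℝ)) * (2 * (1 + |t|)) * Real.exp (1 / κ)) ^ 2 := by
    unfold CC2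
    apply intervalIntegral.integral_mono_on (by positivity)
      ((circ_line2 hχ κ t).intervalIntegrable _ _) intervalIntegrable_const
    intro φ _
    have h1 := circ_le hχ hκ hκ1 t φ
    have h2 := Mt_le χ hκ (by linarith) t
    have h3 := Mt_nonneg χ κ t
    have h4 : 0 ≤ circ χ κ t φ := norm_nonneg _
    gcongr
  rw [intervalIntegral.integral_const, smul_eq_mul, sub_zero] at h
  refine h.trans (le_of_eq (by ring))

lemma LM_le {q : ℕ} [NeZero q] {χ : DirichletCharacter ℂ q} (hχ : χ ≠ 1) {κ : ℝ} (hκ : 0 < κ)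
    (hκ1 : κ ≤ 1 / 16) (t y : ℝ) :
    LM χ κ κ t y ≤ ((1 + 4 * q) * Real.exp (1 / κ) * (1 + |t|)) * (1 + |y|) := by
  unfold LM
  have h1 := L_line_le hχ (σ := 1 / 2 + κ) (by linarith) (by linarith) (t + y)
  have h2 := one_add_abs_add t y
  have h3 : ‖MM χ (1 / κ) ⟨1 / 2 + κ, t⟩‖ ≤ Real.exp (1 / κ) := Mt_le χ hκ (by linarith) t
  calc _ ≤ ((1 + 4 * q) * ((1 + |t|) * (1 + |y|))) * Real.exp (1 / κ) := by
        gcongr
        exact h1.trans (by gcongr)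
    _ = _ := by ring

lemma LM_cont3 {q : ℕ} [NeZero q] {χ : DirichletCharacter ℂ q} (hχ : χ ≠ 1) (κ t : ℝ) :
    Continuous (fun y : ℝ => LM χ κ κ t y) :=
  (LM_cont2 hχ κ).comp (by fun_prop : Continuous (fun y : ℝ => (t, y)))

lemma LM_int {q : ℕ} [NeZero q] {χ : DirichletCharacter ℂ q} (hχ : χ ≠ 1) {κ h : ℝ} (hκ : 0 < κ)
    (hκ1 : κ ≤ 1 / 16) (hh : 0 < h) (t : ℝ) :
    Integrable (fun y : ℝ => LM χ κ κ t y ^ 2 * Wt h 40 y) := by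
  apply Wt_int_of (F := fun y => LM χ κ κ t y ^ 2) hh 40 ((LM_cont3 hχ κ t).pow 2).aestronglyMeasurable
    (C := ((1 + 4 * q) * Real.exp (1 / κ) * (1 + |t|)) ^ 2)
  intro v
  rw [abs_of_nonneg (sq_nonneg _)]
  have h1 := LM_le hχ hκ hκ1 t v
  have h2 := LM_nonneg χ κ κ t v
  calc LM χ κ κ t v ^ 2 ≤ (((1 + 4 * q) * Real.exp (1 / κ) * (1 + |t|)) * (1 + |v|)) ^ 2 := by gcongr
    _ = ((1 + 4 * q) * Real.exp (1 / κ) * (1 + |t|)) ^ 2 * (1 + |v|) ^ 2 := by ring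
    _ ≤ _ := by
        gcongr
        exact sq_le_exp' v

lemma J2_le {q : ℕ} [NeZero q] {χ : DirichletCharacter ℂ q} (hχ : χ ≠ 1) {κ h : ℝ} (hκ : 0 < κ)
    (hκ1 : κ ≤ 1 / 16) (hh : 0 < h) (t : ℝ) : J2 χ κ h t ≤
      (((1 + 4 * q) * Real.exp (1 / κ)) ^ 2 * ∫ y : ℝ, (1 + |y|) ^ 2 * Wt h 40 y) * (1 + |t|) ^ 2 := by
  have hi : Integrable (fun y : ℝ => (1 + |y|) ^ 2 * Wt h 40 y) := by
    apply Wt_int_of (F := fun y => (1 + |y|) ^ 2) hh 40 (by fun_prop) (C := 1)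
    intro v
    rw [abs_of_nonneg (by positivity), one_mul]
    exact sq_le_exp' v
  have h1 : J2 χ κ h t ≤ ∫ y : ℝ, (((1 + 4 * q) * Real.exp (1 / κ)) ^ 2 * (1 + |t|) ^ 2) *
      ((1 + |y|) ^ 2 * Wt h 40 y) := by
    unfold J2
    apply integral_mono (LM_int hχ hκ hκ1 hh t) (hi.const_mul _)
    intro y
    have h1 := LM_le hχ hκ hκ1 t y
    have h2 := LM_nonneg χ κ κ t y
    have h3 := (Wt_pos hh 40 y).le
    show LM χ κ κ t y ^ 2 * Wt h 40 y ≤ _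
    calc LM χ κ κ t y ^ 2 * Wt h 40 y ≤
        (((1 + 4 * q) * Real.exp (1 / κ) * (1 + |t|)) * (1 + |y|)) ^ 2 * Wt h 40 y := by gcongr
      _ = _ := by ring
  rw [integral_const_mul] at h1
  refine h1.trans (le_of_eq (by ring))

lemma PW_int {q : ℕ} (χ : DirichletCharacter ℂ q) {κ X Y h : ℝ} (hκ : 0 < κ)
    (hY : 1 ≤ Y) (hh : 0 < h) (t : ℝ) :
    Integrable (fun y : ℝ => PWn χ κ X Y (t + y) ^ 2 * Wt h 40 y) := by
  have hc : Continuous (fun y : ℝ => PWn χ κ X Y (t + y)) := (PWn_cont χ κ X Y).comp (by fun_prop)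
  apply Wt_int_of (F := fun y => PWn χ κ X Y (t + y) ^ 2) hh 40 (hc.pow 2).aestronglyMeasurable
    (C := (Y ^ (2 : ℝ)) ^ 2)
  intro v
  rw [abs_of_nonneg (sq_nonneg _)]
  have h1 := PW_le χ (X := X) hκ hY (t + v)
  have h2 : 1 ≤ Real.exp (3 * |v|) := Real.one_le_exp (by positivity)
  calc PWn χ κ X Y (t + v) ^ 2 ≤ (Y ^ (2 : ℝ)) ^ 2 := by unfold PWn; gcongr
    _ ≤ _ := le_mul_of_one_le_right (by positivity) h2

lemma P2_le {q : ℕ} (χ : DirichletCharacter ℂ q) {κ X Y h : ℝ} (hκ : 0 < κ)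
    (hY : 1 ≤ Y) (hh : 0 < h) (t : ℝ) : P2 χ κ X Y h t ≤ (Y ^ (2 : ℝ)) ^ 2 * ∫ y : ℝ, Wt h 40 y := by
  rw [← integral_const_mul]
  unfold P2
  apply integral_mono (PW_int χ hκ hY hh t) ((Wt_int hh 40).const_mul _)
  intro y
  have h1 := PW_le χ (X := X) hκ hY (t + y)
  have h3 := (Wt_pos hh 40 y).le
  show PWn χ κ X Y (t + y) ^ 2 * Wt h 40 y ≤ (Y ^ (2 : ℝ)) ^ 2 * Wt h 40 y
  unfold PWn
  gcongr

/-- integrability against `ww` -/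
lemma ww_int_of {F : ℝ → ℝ} {C : ℝ} (hF : AEStronglyMeasurable F volume)
    (hC : ∀ t, |F t| ≤ C * Real.exp (3 * |t|)) : Integrable (fun t => ww t * F t) := by
  refine (int_ww_exp.const_mul C).mono' (ww_cont.aestronglyMeasurable.mul hF)
    (Eventually.of_forall fun t => ?_)
  rw [norm_mul, Real.norm_of_nonneg (ww_pos t).le, Real.norm_eq_abs]
  have h1 := hC t
  have h2 := (ww_pos t).le
  calc ww t * |F t| ≤ ww t * (C * Real.exp (3 * |t|)) := by gcongr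
    _ = _ := by ring

lemma int_CC2 {q : ℕ} [NeZero q] {χ : DirichletCharacter ℂ q} (hχ : χ ≠ 1) {κ : ℝ} (hκ : 0 < κ)
    (hκ1 : κ ≤ 1 / 16) : Integrable (fun t : ℝ => ww t * ((1 + |t|) * CC2 χ κ t)) := by
  have hpi := Real.pi_pos
  have hc : Continuous (fun t : ℝ => (1 + |t|) * CC2 χ κ t) :=
    (by fun_prop : Continuous (fun t : ℝ => 1 + |t|)).mul (CC2_cont hχ κ)
  apply ww_int_of (F := fun t : ℝ => (1 + |t|) * CC2 χ κ t)
    (C := 2 * Real.pi * ((1 + 4 * q) * 2 * Real.exp (1 / κ)) ^ 2) hc.aestronglyMeasurable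
  intro t
  have h1 := CC2_le hχ hκ hκ1 t
  have h2 := CC2_nonneg χ κ t
  show |(1 + |t|) * CC2 χ κ t| ≤ _
  rw [abs_of_nonneg (mul_nonneg (by positivity) h2)]
  calc (1 + |t|) * CC2 χ κ t ≤ (1 + |t|) *
        ((2 * Real.pi * ((1 + 4 * q) * 2 * Real.exp (1 / κ)) ^ 2) * (1 + |t|) ^ 2) := by gcongr
    _ = (2 * Real.pi * ((1 + 4 * q) * 2 * Real.exp (1 / κ)) ^ 2) * (1 + |t|) ^ 3 := by ring
    _ ≤ _ := by
        gcongr
        exact pow3_le_exp t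

lemma int_J2 {q : ℕ} [NeZero q] {χ : DirichletCharacter ℂ q} (hχ : χ ≠ 1) {κ h : ℝ} (hκ : 0 < κ)
    (hκ1 : κ ≤ 1 / 16) (hh : 0 < h) : Integrable (fun t : ℝ => ww t * J2 χ κ h t) := by
  obtain ⟨E, hE⟩ : ∃ E : ℝ, E = ((1 + 4 * q) * Real.exp (1 / κ)) ^ 2 *
    ∫ y : ℝ, (1 + |y|) ^ 2 * Wt h 40 y := ⟨_, rfl⟩
  have hE0 : 0 ≤ E := by
    rw [hE]
    exact mul_nonneg (sq_nonneg _) (integral_nonneg fun y => mul_nonneg (sq_nonneg _) (Wt_pos hh 40 y).le)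
  apply ww_int_of (C := E) (J2_meas hχ κ hh).aestronglyMeasurable
  intro t
  have h1 := J2_le hχ hκ hκ1 hh t
  rw [← hE] at h1
  rw [abs_of_nonneg (J2_nonneg χ κ hh t)]
  refine h1.trans ?_
  gcongr
  exact sq_le_exp' t

lemma int_P2 {q : ℕ} (χ : DirichletCharacter ℂ q) {κ X Y h : ℝ} (hκ : 0 < κ)
    (hY : 1 ≤ Y) (hh : 0 < h) : Integrable (fun t : ℝ => ww t * P2 χ κ X Y h t) := by
  obtain ⟨E, hE⟩ : ∃ E : ℝ, E = (Y ^ (2 : ℝ)) ^ 2 * ∫ y : ℝ, Wt h 40 y := ⟨_, rfl⟩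
  have hE0 : 0 ≤ E := by
    rw [hE]
    exact mul_nonneg (sq_nonneg _) (integral_nonneg fun y => (Wt_pos hh 40 y).le)
  apply ww_int_of (C := E) (P2_meas χ κ X Y hh).aestronglyMeasurable
  intro t
  have h1 := P2_le χ (X := X) hκ hY hh t
  rw [← hE] at h1
  rw [abs_of_nonneg (P2_nonneg χ κ X Y hh t)]
  refine h1.trans ?_
  have : 1 ≤ Real.exp (3 * |t|) := Real.one_le_exp (by positivity)
  exact le_mul_of_one_le_right hE0 this

lemma amgm {a b l : ℝ} (hl : 0 < l) : a * b ≤ (l * a ^ 2 + l⁻¹ * b ^ 2) / 2 := by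
  have h : 0 ≤ (l * a - b) ^ 2 := sq_nonneg _
  have h2 : a * b * (2 * l) ≤ (l * a ^ 2 + l⁻¹ * b ^ 2) / 2 * (2 * l) := by
    have : (l * a ^ 2 + l⁻¹ * b ^ 2) / 2 * (2 * l) = (l * a) ^ 2 + b ^ 2 := by field_simp
    rw [this]; nlinarith
  exact le_of_mul_le_mul_right h2 (by positivity)

theorem per_char2 (A δ : ℝ) (hA : 1 ≤ A) (hδ : 0 < δ) : ∃ C : ℝ, 1 ≤ C ∧ ∀ (q : ℕ) [NeZero q]
    (χ : DirichletCharacter ℂ q), 3 ≤ q → χ.IsPrimitive → ∀ κ X Y : ℝ, 640 ≤ κ * Real.log q →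
    κ ≤ 1 / 16 → 1 ≤ X → X * (q : ℝ) ^ (1 + δ) ≤ Y → Y ≤ (q : ℝ) ^ A → ∀ m l : ℝ, 0 < m → 0 < l →
    Real.log q ≤ C * (κ⁻¹ * (m * (∫ t : ℝ, ww t * ((1 + |t|) * CC2 χ κ t)) + m⁻¹) +
      (q : ℝ) ^ (-(1 / 2) : ℝ) + (q : ℝ) ^ ((2 * A + δ) * κ) * κ⁻¹ *
        (l * (∫ t : ℝ, ww t * J2 χ κ (δ * Real.log q / 160) t) +
          l⁻¹ * ∫ t : ℝ, ww t * P2 χ κ X Y (δ * Real.log q / 160) t)) := by
  obtain ⟨C1, hC1, hFE⟩ := FE_bounds
  obtain ⟨C2, hC2, hll⟩ := left_line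
  obtain ⟨C3, hC3, hphi⟩ := phi2 A δ hA hδ
  obtain ⟨E0, hE0⟩ : ∃ E : ℝ, E = ∫ t : ℝ, ww t * Real.exp (3 * |t|) := ⟨_, rfl⟩
  have hE0' : 0 ≤ E0 := by
    rw [hE0]; exact integral_nonneg fun t => mul_nonneg (ww_pos t).le (Real.exp_pos _).le
  have hpi := Real.pi_pos
  obtain ⟨D1, hD1⟩ : ∃ D : ℝ, D = C2 * (1 + Real.pi * E0) := ⟨_, rfl⟩
  obtain ⟨D2, hD2⟩ : ∃ D : ℝ, D = C3 * E0 := ⟨_, rfl⟩
  have hD1' : 0 ≤ D1 := by rw [hD1]; positivity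
  have hD2' : 0 ≤ D2 := by rw [hD2]; positivity
  refine ⟨2 * C1 * (1 + D1 + D2 + C3), ?_, ?_⟩
  · nlinarith
  intro q _ χ hq hχ κ X Y hκℓ hκ1 hX hXY hYA m l hm hl
  have hq2 : 2 ≤ q := by omega
  have hne := ne_one_of_prim hq2 hχ
  have hq0 : (0 : ℝ) < q := by exact_mod_cast NeZero.pos q
  have hq1 : (1 : ℝ) ≤ q := by exact_mod_cast NeZero.one_le
  have hlog : 1 ≤ Real.log q := by
    rw [Real.le_log_iff_exp_le hq0]
    have h1 := Real.exp_one_lt_d9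
    have h2 : (3 : ℝ) ≤ q := by exact_mod_cast hq
    linarith
  obtain ⟨h, hh⟩ : ∃ h : ℝ, h = δ * Real.log q / 160 := ⟨_, rfl⟩
  have hh0 : 0 < h := by rw [hh]; have : 0 < Real.log q := by linarith
                         positivity
  set ℓ := Real.log q with hℓ
  have hℓ0 : 0 < ℓ := by linarith
  have hκ : 0 < κ := by
    by_contra hc
    push Not at hc
    nlinarith
  have hXY' : X ≤ Y := by
    refine le_trans ?_ hXY
    have : 1 ≤ (q : ℝ) ^ (1 + δ) := Real.one_le_rpow hq1 (by linarith)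
    nlinarith
  have hY1 : 1 ≤ Y := hX.trans hXY'
  have hexp : Real.exp (1 / κ) ≤ (q : ℝ) ^ (1 / 2 : ℝ) := by
    rw [Real.rpow_def_of_pos hq0, ← hℓ]
    apply Real.exp_le_exp.mpr
    rw [div_le_iff₀ hκ]
    nlinarith
  have hgl := gauss_lower_M hne (κ := κ) (ℓ := ℓ) (X := 1 / κ) hκ (by linarith) hlog
    (by rw [le_div_iff₀ hκ]; linarith) ⌊X⌋₊
    (fun n => (vonMangoldt n : ℂ) * χ (n : ZMod q)) (fun m => norm_coef_le χ m)
  obtain ⟨U, hU⟩ : ∃ U : ℝ, U = (q : ℝ) ^ ((2 * A + δ) * κ) * κ⁻¹ := ⟨_, rfl⟩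
  have hκi : 0 < κ⁻¹ := inv_pos.mpr hκ
  have hU0 : 0 ≤ U := by rw [hU]; positivity
  obtain ⟨qh, hqh⟩ : ∃ x : ℝ, x = (q : ℝ) ^ (-(1 / 2) : ℝ) := ⟨_, rfl⟩
  have hqh0 : 0 < qh := by rw [hqh]; positivity
  -- pointwise bound
  have hpt : ∀ t : ℝ, ww t * (‖χ.LFunction ⟨1 / 2 + κ, t⟩‖ * (‖MM χ (1 / κ) ⟨1 / 2 + κ, t⟩‖ *
      ‖1 - (∑ m ∈ Finset.Icc 1 ⌊X⌋₊, (vonMangoldt m : ℂ) * χ (m : ZMod q) *
        (m : ℂ) ^ (-(⟨1 / 2 - κ, t⟩ : ℂ))) / ℓ‖)) ≤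
      (C1 / ℓ) * ((C2 * κ⁻¹ * m) * (ww t * ((1 + |t|) * CC2 χ κ t)) +
        (C2 * κ⁻¹ * (Real.pi * m⁻¹) + C3 * qh) * (ww t * Real.exp (3 * |t|)) +
        (C3 * U * l) * (ww t * J2 χ κ h t) + (C3 * U * l⁻¹) * (ww t * P2 χ κ X Y h t)) := by
    intro t
    have h1 := (hFE q χ hq2 hχ (1 / 2 - κ) t (by linarith) (by linarith)).2
    have e1 : (1 - (1 / 2 - κ) : ℝ) = 1 / 2 + κ := by ring
    have e2 : (-(1 / 2 - (1 / 2 - κ)) : ℝ) = -κ := by ring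
    rw [e1, e2] at h1
    have h2 := hll q χ hq2 hχ κ t hκ hκ1
    have h3 := hphi q χ hq hχ κ X Y hκ hκ1 hX hXY hYA t
    rw [← hU, ← hh] at h3
    have hPdef : (∑ m ∈ Finset.Icc 1 ⌊X⌋₊, (vonMangoldt m : ℂ) * χ (m : ZMod q) *
        (m : ℂ) ^ (-(⟨1 / 2 - κ, t⟩ : ℂ))) = Pol χ (Finset.Icc 1 ⌊X⌋₊) ⟨1 / 2 - κ, t⟩ := rfl
    rw [hPdef]
    have hMt : ‖MM χ (1 / κ) ⟨1 / 2 + κ, t⟩‖ = Mt χ κ t := rfl
    rw [hMt]
    have hMt0 := Mt_nonneg χ κ t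
    have hMt1 := Mt_le χ hκ (by linarith) t
    set s : ℂ := ⟨1 / 2 - κ, t⟩ with hs
    set P := Pol χ (Finset.Icc 1 ⌊X⌋₊) s with hP
    obtain ⟨J, hJ⟩ : ∃ J : ℝ, J = ∫ y : ℝ, LP χ κ X Y (t + y) * Wt h 40 y := ⟨_, rfl⟩
    have hJ0 : 0 ≤ J := by
      rw [hJ]; exact integral_nonneg fun y => mul_nonneg (LP_nonneg _ _ _ _ _) (Wt_pos hh0 40 y).le
    rw [← hJ] at h3
    have h4 : ℓ * (‖χ.LFunction s‖ * ‖1 - P / ℓ‖) ≤
        C2 / κ * (q : ℝ) ^ κ * (1 + |t|) * CC χ κ t +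
        C3 * ((q : ℝ)⁻¹ * Real.exp (3 * |t|) + U * J) := by
      have e3 : ℓ * (‖χ.LFunction s‖ * ‖1 - P / ℓ‖) = ‖(χ.LFunction s * (ℓ : ℂ) +
          deriv χ.LFunction s) - (deriv χ.LFunction s + χ.LFunction s * P)‖ := by
        have : (χ.LFunction s * (ℓ : ℂ) + deriv χ.LFunction s) -
            (deriv χ.LFunction s + χ.LFunction s * P) = (ℓ : ℂ) * (χ.LFunction s * (1 - P / ℓ)) := by
          have hℓc : (ℓ : ℂ) ≠ 0 := by exact_mod_cast hℓ0.ne'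
          field_simp
          ring
        rw [this, norm_mul, norm_mul, norm_real, Real.norm_of_nonneg hℓ0.le]
      rw [e3]
      exact (norm_sub_le _ _).trans (add_le_add h2 h3)
    have hww := (ww_pos t).le
    have hqκ : (q : ℝ) ^ (-κ) * (q : ℝ) ^ κ = 1 := by rw [← Real.rpow_add hq0]; simp
    have hqκ1 : (q : ℝ) ^ (-κ) ≤ 1 := Real.rpow_le_one_of_one_le_of_nonpos hq1 (by linarith)
    have hCC := CC_nonneg χ κ t
    have h5 : ‖χ.LFunction ⟨1 / 2 + κ, t⟩‖ * ‖1 - P / ℓ‖ ≤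
        C1 / ℓ * (C2 * κ⁻¹ * (1 + |t|) * CC χ κ t +
        C3 * ((q : ℝ)⁻¹ * Real.exp (3 * |t|) + U * J)) := by
      calc ‖χ.LFunction ⟨1 / 2 + κ, t⟩‖ * ‖1 - P / ℓ‖
          ≤ (C1 * (q : ℝ) ^ (-κ) * ‖χ.LFunction s‖) * ‖1 - P / ℓ‖ := by gcongr
        _ = C1 / ℓ * (q : ℝ) ^ (-κ) * (ℓ * (‖χ.LFunction s‖ * ‖1 - P / ℓ‖)) := by
            field_simp
        _ ≤ C1 / ℓ * (q : ℝ) ^ (-κ) * (C2 / κ * (q : ℝ) ^ κ * (1 + |t|) * CC χ κ t +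
            C3 * ((q : ℝ)⁻¹ * Real.exp (3 * |t|) + U * J)) := by gcongr
        _ = C1 / ℓ * (C2 * κ⁻¹ * ((q : ℝ) ^ (-κ) * (q : ℝ) ^ κ) * (1 + |t|) * CC χ κ t +
            (q : ℝ) ^ (-κ) * (C3 * ((q : ℝ)⁻¹ * Real.exp (3 * |t|) + U * J))) := by ring
        _ ≤ C1 / ℓ * (C2 * κ⁻¹ * 1 * (1 + |t|) * CC χ κ t +
            1 * (C3 * ((q : ℝ)⁻¹ * Real.exp (3 * |t|) + U * J))) := by
            rw [hqκ]; gcongr
        _ = _ := by ring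
    -- the three products with the mollifier
    have p1 : (1 + |t|) * (CC χ κ t * Mt χ κ t) ≤ m * ((1 + |t|) * CC2 χ κ t) +
        Real.pi * m⁻¹ * Real.exp (3 * |t|) := by
      have h6 : CC χ κ t * Mt χ κ t ≤ (m * CC2 χ κ t + m⁻¹ * (2 * Real.pi)) / 2 := by
        unfold CC CC2
        rw [← intervalIntegral.integral_mul_const]
        have h7 : ∫ φ in (0 : ℝ)..2 * Real.pi, circ χ κ t φ * Mt χ κ t ≤
            ∫ φ in (0 : ℝ)..2 * Real.pi, (m / 2 * (circ χ κ t φ * Mt χ κ t) ^ 2 + m⁻¹ / 2) := by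
          have c1 : Continuous (fun φ : ℝ => circ χ κ t φ * Mt χ κ t) :=
            (circ_line hne κ t).mul continuous_const
          have c2 : Continuous (fun φ : ℝ => m / 2 * (circ χ κ t φ * Mt χ κ t) ^ 2 + m⁻¹ / 2) :=
            (continuous_const.mul (c1.pow 2)).add continuous_const
          apply intervalIntegral.integral_mono_on (by positivity)
            (c1.intervalIntegrable _ _) (c2.intervalIntegrable _ _)
          intro φ _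
          have := amgm (a := circ χ κ t φ * Mt χ κ t) (b := 1) hm
          rw [one_pow, mul_one] at this
          show circ χ κ t φ * Mt χ κ t ≤ m / 2 * (circ χ κ t φ * Mt χ κ t) ^ 2 + m⁻¹ / 2
          linarith
        refine h7.trans (le_of_eq ?_)
        have c3 : Continuous (fun φ : ℝ => m / 2 * (circ χ κ t φ * Mt χ κ t) ^ 2) :=
          continuous_const.mul (circ_line2 hne κ t)
        have j := intervalIntegral.integral_add (μ := volume) (a := 0) (b := 2 * Real.pi)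
          (f := fun φ : ℝ => m / 2 * (circ χ κ t φ * Mt χ κ t) ^ 2) (g := fun _ : ℝ => m⁻¹ / 2)
          (c3.intervalIntegrable _ _) intervalIntegrable_const
        rw [j, intervalIntegral.integral_const_mul,
          intervalIntegral.integral_const, smul_eq_mul]
        ring
      have h8 := le_exp3 t
      have h9 := CC2_nonneg χ κ t
      have hmi : 0 < m⁻¹ := inv_pos.mpr hm
      calc (1 + |t|) * (CC χ κ t * Mt χ κ t) ≤
          (1 + |t|) * ((m * CC2 χ κ t + m⁻¹ * (2 * Real.pi)) / 2) := by gcongr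
        _ = (1 / 2) * (m * ((1 + |t|) * CC2 χ κ t)) + Real.pi * m⁻¹ * (1 + |t|) := by ring
        _ ≤ 1 * (m * ((1 + |t|) * CC2 χ κ t)) + Real.pi * m⁻¹ * Real.exp (3 * |t|) := by
            gcongr
            norm_num
        _ = _ := by ring
    have p2 : (q : ℝ)⁻¹ * Mt χ κ t ≤ qh := by
      calc (q : ℝ)⁻¹ * Mt χ κ t ≤ (q : ℝ)⁻¹ * (q : ℝ) ^ (1 / 2 : ℝ) := by
            gcongr
            exact hMt1.trans hexp
        _ = qh := by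
            rw [hqh, ← Real.rpow_neg_one, ← Real.rpow_add hq0]; norm_num
    have p3 : J * Mt χ κ t ≤ l * J2 χ κ h t + l⁻¹ * P2 χ κ X Y h t := by
      have i1 := (LM_int hne hκ hκ1 hh0 t).const_mul l
      have i2 := (PW_int χ (X := X) hκ hY1 hh0 t).const_mul l⁻¹
      have h6 : J * Mt χ κ t ≤ ∫ y : ℝ, (l * (LM χ κ κ t y ^ 2 * Wt h 40 y) +
          l⁻¹ * (PWn χ κ X Y (t + y) ^ 2 * Wt h 40 y)) := by
        rw [hJ, ← integral_mul_const]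
        apply integral_mono ((LP_int hne hκ (by linarith) hY1 hh0 40 t).mul_const _) (i1.add i2)
        intro y
        show LP χ κ X Y (t + y) * Wt h 40 y * Mt χ κ t ≤
          l * (LM χ κ κ t y ^ 2 * Wt h 40 y) + l⁻¹ * (PWn χ κ X Y (t + y) ^ 2 * Wt h 40 y)
        have e4 : LP χ κ X Y (t + y) * Mt χ κ t = LM χ κ κ t y * PWn χ κ X Y (t + y) := by
          unfold LP LM Mt PWn
          ring
        have h7 := amgm (a := LM χ κ κ t y) (b := PWn χ κ X Y (t + y)) hl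
        have h8 := (Wt_pos hh0 40 y).le
        have h9 : 0 ≤ l * LM χ κ κ t y ^ 2 + l⁻¹ * PWn χ κ X Y (t + y) ^ 2 := by positivity
        calc LP χ κ X Y (t + y) * Wt h 40 y * Mt χ κ t =
            (LP χ κ X Y (t + y) * Mt χ κ t) * Wt h 40 y := by ring
          _ ≤ (l * LM χ κ κ t y ^ 2 + l⁻¹ * PWn χ κ X Y (t + y) ^ 2) * Wt h 40 y := by
              rw [e4]
              gcongr
              linarith
          _ = _ := by ring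
      refine h6.trans (le_of_eq ?_)
      rw [integral_add i1 i2, integral_const_mul, integral_const_mul]
      rfl
    have hEt := Real.exp_pos (3 * |t|)
    calc ww t * (‖χ.LFunction ⟨1 / 2 + κ, t⟩‖ * (Mt χ κ t * ‖1 - P / ℓ‖))
        = ww t * ((‖χ.LFunction ⟨1 / 2 + κ, t⟩‖ * ‖1 - P / ℓ‖) * Mt χ κ t) := by ring
      _ ≤ ww t * ((C1 / ℓ * (C2 * κ⁻¹ * (1 + |t|) * CC χ κ t +
        C3 * ((q : ℝ)⁻¹ * Real.exp (3 * |t|) + U * J))) * Mt χ κ t) := by gcongr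
      _ = (C1 / ℓ) * ww t * (C2 * κ⁻¹ * ((1 + |t|) * (CC χ κ t * Mt χ κ t)) +
        C3 * (((q : ℝ)⁻¹ * Mt χ κ t) * Real.exp (3 * |t|)) + C3 * U * (J * Mt χ κ t)) := by ring
      _ ≤ (C1 / ℓ) * ww t * (C2 * κ⁻¹ * (m * ((1 + |t|) * CC2 χ κ t) +
        Real.pi * m⁻¹ * Real.exp (3 * |t|)) +
        C3 * (qh * Real.exp (3 * |t|)) + C3 * U * (l * J2 χ κ h t + l⁻¹ * P2 χ κ X Y h t)) := by
          gcongr
      _ = _ := by ring
  have hi1 := (int_CC2 hne hκ hκ1).const_mul (C2 * κ⁻¹ * m)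
  have hi2 := int_ww_exp.const_mul (C2 * κ⁻¹ * (Real.pi * m⁻¹) + C3 * qh)
  have hi3 := (int_J2 hne hκ hκ1 hh0).const_mul (C3 * U * l)
  have hi4 := (int_P2 χ (X := X) hκ hY1 hh0).const_mul (C3 * U * l⁻¹)
  have hint := integral_mono_of_nonneg (μ := volume) (Eventually.of_forall fun t =>
    mul_nonneg (ww_pos t).le (mul_nonneg (norm_nonneg _) (mul_nonneg (norm_nonneg _) (norm_nonneg _))))
    ((((hi1.add hi2).add hi3).add hi4).const_mul (C1 / ℓ)) (Eventually.of_forall hpt)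
  have h6 := hgl.trans hint
  simp only [Pi.add_apply] at h6
  have j0 := integral_add ((hi1.add hi2).add hi3) hi4
  have j1 := integral_add (hi1.add hi2) hi3
  have j2 := integral_add hi1 hi2
  simp only [Pi.add_apply] at j0 j1 j2
  rw [integral_const_mul, j0, j1, j2, integral_const_mul, integral_const_mul,
    integral_const_mul, integral_const_mul, ← hE0] at h6
  obtain ⟨I1, hI1⟩ : ∃ I : ℝ, I = ∫ t : ℝ, ww t * ((1 + |t|) * CC2 χ κ t) := ⟨_, rfl⟩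
  obtain ⟨I2, hI2⟩ : ∃ I : ℝ, I = ∫ t : ℝ, ww t * J2 χ κ h t := ⟨_, rfl⟩
  obtain ⟨I3, hI3⟩ : ∃ I : ℝ, I = ∫ t : ℝ, ww t * P2 χ κ X Y h t := ⟨_, rfl⟩
  rw [← hI1, ← hI2, ← hI3] at h6
  rw [← hh, ← hU, ← hI1, ← hI2, ← hI3, ← hqh]
  have hI1' : 0 ≤ I1 := by
    rw [hI1]
    exact integral_nonneg fun t => mul_nonneg (ww_pos t).le (mul_nonneg (by positivity) (CC2_nonneg χ κ t))
  have hI2' : 0 ≤ I2 := by
    rw [hI2]
    exact integral_nonneg fun t => mul_nonneg (ww_pos t).le (J2_nonneg χ κ hh0 t)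
  have hI3' : 0 ≤ I3 := by
    rw [hI3]
    exact integral_nonneg fun t => mul_nonneg (ww_pos t).le (P2_nonneg χ κ X Y hh0 t)
  have hmi : 0 < m⁻¹ := inv_pos.mpr hm
  have hli : 0 < l⁻¹ := inv_pos.mpr hl
  obtain ⟨Z, hZ⟩ : ∃ Z : ℝ, Z = C2 * κ⁻¹ * m * I1 +
    (C2 * κ⁻¹ * (Real.pi * m⁻¹) + C3 * qh) * E0 + C3 * U * l * I2 + C3 * U * l⁻¹ * I3 := ⟨_, rfl⟩
  rw [← hZ] at h6
  have h7 : ℓ ≤ 2 * C1 * Z := by
    have h8 : ℓ * (1 / 2) ≤ ℓ * (C1 / ℓ * Z) := by gcongr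
    have h9 : ℓ * (C1 / ℓ * Z) = C1 * Z := by field_simp
    linarith
  have h8 : Z ≤ (1 + D1 + D2 + C3) * (κ⁻¹ * (m * I1 + m⁻¹) + qh + U * (l * I2 + l⁻¹ * I3)) := by
    have b1 : C2 * κ⁻¹ * m * I1 + C2 * κ⁻¹ * (Real.pi * m⁻¹) * E0 ≤ D1 * (κ⁻¹ * (m * I1 + m⁻¹)) := by
      rw [hD1]
      have g1 : 0 ≤ κ⁻¹ * m * I1 := by positivity
      have g2 : 0 ≤ κ⁻¹ * m⁻¹ := by positivity
      have g3 : 0 ≤ C2 * (Real.pi * E0) * (κ⁻¹ * m * I1) := by positivity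
      have g4 : 0 ≤ C2 * (κ⁻¹ * m⁻¹) := by positivity
      calc _ ≤ C2 * κ⁻¹ * m * I1 + C2 * κ⁻¹ * (Real.pi * m⁻¹) * E0 +
            C2 * (Real.pi * E0) * (κ⁻¹ * m * I1) + C2 * (κ⁻¹ * m⁻¹) := by linarith
        _ = _ := by ring
    have b2 : C3 * qh * E0 = D2 * qh := by rw [hD2]; ring
    have b3 : C3 * U * l * I2 + C3 * U * l⁻¹ * I3 = C3 * (U * (l * I2 + l⁻¹ * I3)) := by ring
    obtain ⟨V1, hV1⟩ : ∃ V : ℝ, V = κ⁻¹ * (m * I1 + m⁻¹) := ⟨_, rfl⟩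
    obtain ⟨V3, hV3⟩ : ∃ V : ℝ, V = U * (l * I2 + l⁻¹ * I3) := ⟨_, rfl⟩
    have hV10 : 0 ≤ V1 := by rw [hV1]; positivity
    have hV30 : 0 ≤ V3 := by rw [hV3]; positivity
    rw [← hV1] at b1
    rw [← hV3] at b3
    rw [← hV1, ← hV3]
    have g1 : 0 ≤ (1 + D2 + C3) * V1 := by positivity
    have g2 : 0 ≤ (1 + D1 + C3) * qh := by positivity
    have g3 : 0 ≤ (1 + D1 + D2) * V3 := by positivity
    calc Z = (C2 * κ⁻¹ * m * I1 + C2 * κ⁻¹ * (Real.pi * m⁻¹) * E0) + C3 * qh * E0 +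
          (C3 * U * l * I2 + C3 * U * l⁻¹ * I3) := by rw [hZ]; ring
      _ ≤ D1 * V1 + D2 * qh + C3 * V3 := by rw [b2, b3]; linarith
      _ ≤ _ := by nlinarith
  calc ℓ ≤ 2 * C1 * Z := h7
    _ ≤ 2 * C1 * ((1 + D1 + D2 + C3) * (κ⁻¹ * (m * I1 + m⁻¹) + qh + U * (l * I2 + l⁻¹ * I3))) := by
        gcongr
    _ = _ := by ring

end Pool.Agent.NH13
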