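import Pool.Agent.NH13.Wt
import Pool.Agent.NH13.Phi

/-!
# Bounding `L' + L P` on the left line, with the sharper kernel
-/

set_option autoImplicit false

open Complex MeasureTheory Set Filter Topology

namespace Pool.Agent.NH13

open ArithmeticFunction (vonMangoldt)

/-- `|L| |P_W|` on the right line -/
noncomputable def LP {q : ℕ} [NeZero q] (χ : DirichletCharacter ℂ q) (κ X Y τ : ℝ) : ℝ :=
  ‖χ.LFunction ⟨1 / 2 + κ, τ⟩‖ * ‖Pol χ (Finset.Ioc ⌊X⌋₊ ⌊Y⌋₊) ⟨1 / 2 + κ, τ⟩‖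

lemma LP_nonneg {q : ℕ} [NeZero q] (χ : DirichletCharacter ℂ q) (κ X Y τ : ℝ) :
    0 ≤ LP χ κ X Y τ := mul_nonneg (norm_nonneg _) (norm_nonneg _)

lemma win_subset (X Y : ℝ) : Finset.Ioc ⌊X⌋₊ ⌊Y⌋₊ ⊆ Finset.Icc 1 ⌊Y⌋₊ := by
  intro x hx
  rw [Finset.mem_Ioc] at hx
  rw [Finset.mem_Icc]; omega

lemma PW_le {q : ℕ} (χ : DirichletCharacter ℂ q) {κ X Y : ℝ} (hκ : 0 < κ) (hY : 1 ≤ Y) (τ : ℝ) :
    ‖Pol χ (Finset.Ioc ⌊X⌋₊ ⌊Y⌋₊) ⟨1 / 2 + κ, τ⟩‖ ≤ Y ^ (2 : ℝ) := by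
  have h := Pol_le χ hY (b := 0) le_rfl (win_subset X Y) (w := ⟨1 / 2 + κ, τ⟩) (by simp only; linarith)
  rwa [add_zero] at h

lemma PW_cont {q : ℕ} (χ : DirichletCharacter ℂ q) (κ X Y : ℝ) :
    Continuous (fun τ : ℝ => Pol χ (Finset.Ioc ⌊X⌋₊ ⌊Y⌋₊) ⟨1 / 2 + κ, τ⟩) :=
  cont_line (Pol_differentiable χ (S := Finset.Ioc ⌊X⌋₊ ⌊Y⌋₊) (by simp)).continuous _

lemma LP_cont {q : ℕ} [NeZero q] {χ : DirichletCharacter ℂ q} (hχ : χ ≠ 1) (κ X Y : ℝ) :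
    Continuous (LP χ κ X Y) := (L_line_cont hχ _).norm.mul (PW_cont χ κ X Y).norm

lemma LP_le {q : ℕ} [NeZero q] {χ : DirichletCharacter ℂ q} (hχ : χ ≠ 1) {κ X Y : ℝ} (hκ : 0 < κ)
    (hκ2 : κ ≤ 1 / 2) (hY : 1 ≤ Y) (t y : ℝ) : LP χ κ X Y (t + y) ≤
      ((1 + 4 * q) * (1 + |t|) * Y ^ (2 : ℝ)) * (1 + |y|) := by
  unfold LP
  have h1 := L_line_le hχ (σ := 1 / 2 + κ) (by linarith) (by linarith) (t + y)
  have h2 := one_add_abs_add t y
  have h3 := PW_le χ (X := X) hκ hY (t + y)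
  calc _ ≤ ((1 + 4 * q) * ((1 + |t|) * (1 + |y|))) * Y ^ (2 : ℝ) := by
        gcongr
        exact h1.trans (by gcongr)
    _ = _ := by ring

lemma le_exp3 (v : ℝ) : 1 + |v| ≤ Real.exp (3 * |v|) := by
  have h4 := Real.add_one_le_exp (3 * |v|)
  have := abs_nonneg v
  linarith

lemma LP_int {q : ℕ} [NeZero q] {χ : DirichletCharacter ℂ q} (hχ : χ ≠ 1) {κ X Y h : ℝ} (hκ : 0 < κ)
    (hκ2 : κ ≤ 1 / 2) (hY : 1 ≤ Y) (hh : 0 < h) (n : ℕ) (t : ℝ) :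
    Integrable (fun y : ℝ => LP χ κ X Y (t + y) * Wt h n y) := by
  have hc : Continuous (fun y : ℝ => LP χ κ X Y (t + y)) := (LP_cont hχ κ X Y).comp (by fun_prop)
  apply Wt_int_of hh n hc.aestronglyMeasurable (C := (1 + 4 * q) * (1 + |t|) * Y ^ (2 : ℝ))
  intro v
  rw [abs_of_nonneg (LP_nonneg _ _ _ _ _)]
  refine (LP_le hχ hκ hκ2 hY t v).trans ?_
  have := le_exp3 v
  gcongr

theorem phi2 (A δ : ℝ) (hA : 1 ≤ A) (hδ : 0 < δ) : ∃ C : ℝ, 1 ≤ C ∧ ∀ (q : ℕ) [NeZero q]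
    (χ : DirichletCharacter ℂ q), 3 ≤ q → χ.IsPrimitive → ∀ κ X Y : ℝ, 0 < κ → κ ≤ 1 / 16 →
    1 ≤ X → X * (q : ℝ) ^ (1 + δ) ≤ Y → Y ≤ (q : ℝ) ^ A → ∀ t : ℝ,
    ‖deriv χ.LFunction ⟨1 / 2 - κ, t⟩ + χ.LFunction ⟨1 / 2 - κ, t⟩ *
        Pol χ (Finset.Icc 1 ⌊X⌋₊) ⟨1 / 2 - κ, t⟩‖ ≤
      C * ((q : ℝ)⁻¹ * Real.exp (3 * |t|) +
        (q : ℝ) ^ ((2 * A + δ) * κ) * κ⁻¹ *
          ∫ y : ℝ, LP χ κ X Y (t + y) * Wt (δ * Real.log q / 160) 40 y) := by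
  obtain ⟨a, ha⟩ : ∃ a : ℝ, a = 3 + (16 + 12 * A) / δ := ⟨_, rfl⟩
  have ha3 : 3 ≤ a := by rw [ha]; have : 0 ≤ (16 + 12 * A) / δ := by positivity
                         linarith
  have haδ : 4 + 3 * A ≤ δ / 4 * a := by
    rw [ha]
    have : δ / 4 * (3 + (16 + 12 * A) / δ) = δ / 4 * 3 + (4 + 3 * A) := by field_simp; ring
    rw [this]; nlinarith
  obtain ⟨C1, hC1, hL1⟩ := L_left a (by linarith)
  obtain ⟨C2, hC2, hL2⟩ := dL_left a (by linarith)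
  obtain ⟨B, hBdef⟩ : ∃ B : ℝ, B = 2 + a := ⟨_, rfl⟩
  obtain ⟨C1', hC1', hS1⟩ := L_strip B (by linarith)
  obtain ⟨C2', hC2', hS2⟩ := dL_strip B (by linarith)
  obtain ⟨G1, hG1⟩ : ∃ G : ℝ, G = ∫ y : ℝ, Real.exp (-(y ^ 2)) := ⟨_, rfl⟩
  obtain ⟨G2, hG2⟩ : ∃ G : ℝ, G = ∫ y : ℝ, Real.exp (-(y ^ 2 / 2)) := ⟨_, rfl⟩
  have hG1' : 0 ≤ G1 := by rw [hG1]; exact integral_nonneg fun y => (Real.exp_pos _).le
  have hG2' : 0 ≤ G2 := by rw [hG2]; exact integral_nonneg fun y => (Real.exp_pos _).le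
  obtain ⟨D1, hD1⟩ : ∃ D : ℝ, D = 8 * Real.exp (a ^ 2) * 3 ^ 40 * G1 := ⟨_, rfl⟩
  obtain ⟨D3, hD3⟩ : ∃ D : ℝ, D = (C1 + C2) * Real.exp (a ^ 2) * 3 ^ 40 * Real.exp 5 * G2 := ⟨_, rfl⟩
  obtain ⟨D2, hD2⟩ : ∃ D : ℝ, D = Real.exp 1 * 3 ^ 40 := ⟨_, rfl⟩
  have hD1' : 0 ≤ D1 := by rw [hD1]; positivity
  have hD2' : 0 ≤ D2 := by rw [hD2]; positivity
  have hD3' : 0 ≤ D3 := by rw [hD3]; positivity
  refine ⟨1 + D1 + D2 + D3, by linarith, ?_⟩
  intro q _ χ hq3 hχ κ X Y hκ hκ1 hX hXY hYA t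
  have hq : 2 ≤ q := by omega
  have hne := ne_one_of_prim hq hχ
  have hq0 : (0 : ℝ) < q := by exact_mod_cast NeZero.pos q
  have hq1 : (1 : ℝ) ≤ q := by exact_mod_cast NeZero.one_le
  have hℓ1 : 1 ≤ Real.log q := by
    rw [Real.le_log_iff_exp_le hq0]
    have h1 := Real.exp_one_lt_d9
    have h2 : (3 : ℝ) ≤ q := by exact_mod_cast hq3
    linarith
  obtain ⟨ℓ, hℓ⟩ : ∃ ℓ : ℝ, ℓ = Real.log q := ⟨_, rfl⟩
  rw [← hℓ] at hℓ1
  have hℓ0 : 0 < ℓ := by linarith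
  obtain ⟨h, hh⟩ : ∃ h : ℝ, h = δ * Real.log q / 160 := ⟨_, rfl⟩
  have hhℓ : h = δ * ℓ / 160 := by rw [hh, hℓ]
  have hh0 : 0 < h := by rw [hhℓ]; positivity
  rw [← hh]
  have hX0 : 0 < X := by linarith
  obtain ⟨K, hKdef⟩ : ∃ K : ℝ, K = X * (q : ℝ) ^ (1 + δ / 2) := ⟨_, rfl⟩
  have hK0 : 0 < K := by rw [hKdef]; positivity
  have hXY' : X ≤ Y := by
    refine le_trans ?_ hXY
    have : 1 ≤ (q : ℝ) ^ (1 + δ) := Real.one_le_rpow hq1 (by linarith)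
    nlinarith
  have hY1 : 1 ≤ Y := hX.trans hXY'
  have hY0 : 0 < Y := by linarith
  have hKY : K ≤ Y * (q : ℝ) ^ (-(δ / 2)) := by
    rw [hKdef]
    have : (q : ℝ) ^ (1 + δ / 2) = (q : ℝ) ^ (1 + δ) * (q : ℝ) ^ (-(δ / 2)) := by
      rw [← Real.rpow_add hq0]; congr 1; ring
    rw [this, ← mul_assoc]
    gcongr
  have hKY' : K ≤ Y := by
    refine hKY.trans ?_
    have : (q : ℝ) ^ (-(δ / 2)) ≤ 1 := Real.rpow_le_one_of_one_le_of_nonpos hq1 (by linarith)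
    nlinarith
  set s : ℂ := ⟨1 / 2 - κ, t⟩ with hs
  have hsre : s.re = 1 / 2 - κ := rfl
  have hsim : s.im = t := rfl
  have hL : Differentiable ℂ χ.LFunction := DirichletCharacter.differentiable_LFunction hne
  have hL' : Differentiable ℂ (deriv χ.LFunction) := by
    intro z
    exact ((hL.analyticAt z).deriv).differentiableAt
  set SX := Finset.Icc 1 ⌊X⌋₊ with hSX
  set SY := Finset.Icc 1 ⌊Y⌋₊ with hSY
  set SW := Finset.Ioc ⌊X⌋₊ ⌊Y⌋₊ with hSW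
  have hPX := Pol_differentiable χ (S := SX) (by simp [hSX])
  have hPW := Pol_differentiable χ (S := SW) (by simp [hSW])
  have hPadd : ∀ w, Pol χ SY w = Pol χ SX w + Pol χ SW w := by
    intro w
    unfold Pol
    have h1 : SY = SX ∪ SW := by
      have := Nat.floor_mono hXY'
      ext x
      simp only [hSX, hSY, hSW, Finset.mem_union, Finset.mem_Icc, Finset.mem_Ioc]
      omega
    have h2 : Disjoint SX SW := by
      rw [Finset.disjoint_left]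
      intro x hx hx'
      simp only [hSX, hSW, Finset.mem_Icc, Finset.mem_Ioc] at hx hx'
      omega
    rw [h1, Finset.sum_union h2]
  set R : ℂ → ℂ := fun z => deriv χ.LFunction (s + z) + χ.LFunction (s + z) * Pol χ SX (s + z)
    with hR
  set D : ℂ → ℂ := fun z => -(χ.LFunction (s + z) * Pol χ SW (s + z)) with hD
  have hadd : Differentiable ℂ (fun z : ℂ => s + z) := by fun_prop
  have hRd : Differentiable ℂ R :=
    (hL'.comp hadd).add ((hL.comp hadd).mul (hPX.comp hadd))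
  have hDd : Differentiable ℂ D := ((hL.comp hadd).mul (hPW.comp hadd)).neg
  have gr1 : ∀ x ∈ Icc (-a) a, ∀ y : ℝ, ‖χ.LFunction (s + ⟨x, y⟩)‖ ≤
      (C1' * (q : ℝ) ^ (2 + B)) * Real.exp (3 * (|s.im| + |y|)) := by
    intro x hx y
    rw [add_mk]
    refine (hS1 q χ hq hχ ⟨s.re + x, s.im + y⟩ (by simp only; linarith [hx.1]) (by
      simp only; linarith [hx.2])).trans ?_
    simp only
    have := abs_exp_le (t := s.im) (y := y)
    gcongr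
  have gr2 : ∀ x ∈ Icc (-a) a, ∀ y : ℝ, ‖deriv χ.LFunction (s + ⟨x, y⟩)‖ ≤
      (C2' * (q : ℝ) ^ (3 + B)) * Real.exp (3 * (|s.im| + |y|)) := by
    intro x hx y
    rw [add_mk]
    refine (hS2 q χ hq hχ ⟨s.re + x, s.im + y⟩ (by simp only; linarith [hx.1]) (by
      simp only; linarith [hx.2])).trans ?_
    simp only
    have := abs_exp_le (t := s.im) (y := y)
    gcongr
  have gr3 : ∀ S ⊆ Finset.Icc 1 ⌊Y⌋₊, ∀ x ∈ Icc (-a) a, ∀ y : ℝ, ‖Pol χ S (s + ⟨x, y⟩)‖ ≤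
      Y ^ (2 + B) := by
    intro S hS x hx y
    apply Pol_le χ hY1 (by linarith) hS
    rw [add_mk]
    simp only
    linarith [hx.1]
  have hsub1 : SX ⊆ Finset.Icc 1 ⌊Y⌋₊ := Finset.Icc_subset_Icc_right (Nat.floor_mono hXY')
  have hsub2 : SW ⊆ Finset.Icc 1 ⌊Y⌋₊ := win_subset X Y
  have hc := contour_gen hRd hDd (K := K) (h := h) (a := a) (b := a) (c := 2 * κ)
    (E := C2' * (q : ℝ) ^ (3 + B) + C1' * (q : ℝ) ^ (2 + B) * Y ^ (2 + B)) (T := |s.im|) 40 hK0 hh0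
    (by linarith) (by linarith) (by linarith) (by positivity) (by
      intro x hx y
      simp only [hR]
      refine (norm_add_le _ _).trans ?_
      rw [norm_mul, add_mul]
      have h1 := gr1 x hx y
      have h2 := gr2 x hx y
      have h3 := gr3 SX hsub1 x hx y
      refine add_le_add h2 ?_
      calc _ ≤ (C1' * (q : ℝ) ^ (2 + B)) * Real.exp (3 * (|s.im| + |y|)) * Y ^ (2 + B) := by gcongr
        _ = _ := by ring) (by
      intro x hx y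
      simp only [hD]
      rw [norm_neg, norm_mul]
      have h1 := gr1 x hx y
      have h3 := gr3 SW hsub2 x hx y
      have h4 : 0 ≤ C2' * (q : ℝ) ^ (3 + B) * Real.exp (3 * (|s.im| + |y|)) := by positivity
      calc _ ≤ (C1' * (q : ℝ) ^ (2 + B)) * Real.exp (3 * (|s.im| + |y|)) * Y ^ (2 + B) := by gcongr
        _ ≤ _ := by rw [add_mul]; linarith)
  have hR0 : R 0 = deriv χ.LFunction s + χ.LFunction s * Pol χ SX s := by
    simp only [hR, add_zero]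
  rw [hR0] at hc
  have hnorm1 : ∀ y : ℝ, 1 ≤ ‖(⟨a, y⟩ : ℂ)‖ := fun y => by
    have := abs_le_norm_mk' a y
    rw [abs_of_pos (by linarith : 0 < a)] at this
    linarith
  have hnorm2 : ∀ y : ℝ, 1 ≤ ‖(⟨-a, y⟩ : ℂ)‖ := fun y => by
    have := abs_le_norm_mk' (-a) y
    rw [abs_neg, abs_of_pos (by linarith : 0 < a)] at this
    linarith
  have hqm1 : ∀ u : ℝ, u ≤ -1 → (q : ℝ) ^ u ≤ (q : ℝ)⁻¹ := by
    intro u hu
    rw [← Real.rpow_neg_one]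
    exact Real.rpow_le_rpow_of_exponent_le hq1 hu
  -- right line
  have T1 : (∫ y : ℝ, ‖(R ⟨a, y⟩ - D ⟨a, y⟩) * kk K h 40 ⟨a, y⟩ / (⟨a, y⟩ : ℂ)‖) ≤
      D1 * (q : ℝ)⁻¹ := by
    have hb : ∀ y : ℝ, ‖(R ⟨a, y⟩ - D ⟨a, y⟩) * kk K h 40 ⟨a, y⟩ / (⟨a, y⟩ : ℂ)‖ ≤
          (8 * Real.exp (a ^ 2) * 3 ^ 40 * (q : ℝ)⁻¹) * Real.exp (-(y ^ 2)) := by
      intro y
      rw [norm_div, norm_mul]
      have e1 : (s + ⟨a, y⟩).re = 1 / 2 - κ + a := rfl
      have e0 : R ⟨a, y⟩ - D ⟨a, y⟩ = deriv χ.LFunction (s + ⟨a, y⟩) + χ.LFunction (s + ⟨a, y⟩) *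
          Pol χ (Finset.Icc 1 ⌊Y⌋₊) (s + ⟨a, y⟩) := by
        simp only [hR, hD]
        rw [← hSY, hPadd]
        ring
      have h1 := far_right χ hY1 (w := s + ⟨a, y⟩) (by rw [e1]; linarith)
      rw [e1, ← e0] at h1
      have h2 : Y ^ (3 - (1 / 2 - κ + a)) ≤ Y ^ (3 - a) :=
        Real.rpow_le_rpow_of_exponent_le hY1 (by linarith)
      have h6 := norm_kk hK0 hh0 40 a y
      have h7 : (3 * Real.exp (max (h * a) 0) / (1 + h * |y|)) ^ 40 ≤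
          3 ^ 40 * (q : ℝ) ^ (δ / 4 * a) := by
        have h8 : max (h * a) 0 = δ * ℓ / 160 * a := by
          rw [max_eq_left (by positivity), hhℓ]
        rw [h8]
        have h9 : 3 * Real.exp (δ * ℓ / 160 * a) / (1 + h * |y|) ≤
            3 * Real.exp (δ * ℓ / 160 * a) := by
          apply div_le_self (by positivity)
          have : 0 ≤ h * |y| := by positivity
          linarith
        calc (3 * Real.exp (δ * ℓ / 160 * a) / (1 + h * |y|)) ^ 40 ≤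
              (3 * Real.exp (δ * ℓ / 160 * a)) ^ 40 := by gcongr
          _ = 3 ^ 40 * Real.exp (δ * ℓ / 160 * a) ^ 40 := by rw [mul_pow]
          _ = 3 ^ 40 * (q : ℝ) ^ (δ / 4 * a) := by
              rw [← Real.exp_nat_mul, Real.rpow_def_of_pos hq0, ← hℓ]
              congr 2
              push_cast; ring
      have h3 : Y ^ (3 - a) * (K ^ a * (q : ℝ) ^ (δ / 4 * a)) ≤ (q : ℝ)⁻¹ := by
        have h4 : K ^ a ≤ (Y * (q : ℝ) ^ (-(δ / 2))) ^ a :=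
          Real.rpow_le_rpow hK0.le hKY (by linarith)
        calc Y ^ (3 - a) * (K ^ a * (q : ℝ) ^ (δ / 4 * a)) ≤
              Y ^ (3 - a) * ((Y * (q : ℝ) ^ (-(δ / 2))) ^ a * (q : ℝ) ^ (δ / 4 * a)) := by gcongr
          _ = Y ^ (3 : ℝ) * (q : ℝ) ^ (-(δ / 4) * a) := by
              rw [Real.mul_rpow hY0.le (by positivity), ← Real.rpow_mul hq0.le]
              have e3 : Y ^ (3 : ℝ) = Y ^ (3 - a) * Y ^ a := by
                rw [← Real.rpow_add hY0]; congr 1; ring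
              have e4 : (q : ℝ) ^ (-(δ / 4) * a) = (q : ℝ) ^ (-(δ / 2) * a) * (q : ℝ) ^ (δ / 4 * a) := by
                rw [← Real.rpow_add hq0]; congr 1; ring
              rw [e3, e4]; ring
          _ ≤ ((q : ℝ) ^ A) ^ (3 : ℝ) * (q : ℝ) ^ (-(δ / 4) * a) := by gcongr
          _ = (q : ℝ) ^ (A * 3 + (-(δ / 4) * a)) := by
              rw [← Real.rpow_mul hq0.le, ← Real.rpow_add hq0]
          _ ≤ (q : ℝ)⁻¹ := hqm1 _ (by linarith)
      calc _ ≤ ‖R ⟨a, y⟩ - D ⟨a, y⟩‖ * ‖kk K h 40 ⟨a, y⟩‖ := div_le_self (by positivity) (hnorm1 y)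
        _ ≤ (8 * Y ^ (3 - a)) * (K ^ a * Real.exp (a ^ 2) * Real.exp (-(y ^ 2)) *
              (3 ^ 40 * (q : ℝ) ^ (δ / 4 * a))) := by
            gcongr
            · exact h1.trans (by gcongr)
            · exact h6.trans (by gcongr)
        _ = 8 * Real.exp (a ^ 2) * 3 ^ 40 * (Y ^ (3 - a) * (K ^ a * (q : ℝ) ^ (δ / 4 * a))) *
            Real.exp (-(y ^ 2)) := by ring
        _ ≤ _ := by gcongr
    refine (integral_mono_of_nonneg (Eventually.of_forall fun y => norm_nonneg _)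
      (int_gauss_one.const_mul _) (Eventually.of_forall hb)).trans (le_of_eq ?_)
    rw [integral_const_mul, ← hG1, hD1]
    ring
  -- left line
  have T3 : (∫ y : ℝ, ‖R ⟨-a, y⟩ * kk K h 40 ⟨-a, y⟩ / (⟨-a, y⟩ : ℂ)‖) ≤
      D3 * ((q : ℝ)⁻¹ * Real.exp (3 * |t|)) := by
    have hb : ∀ y : ℝ, ‖R ⟨-a, y⟩ * kk K h 40 ⟨-a, y⟩ / (⟨-a, y⟩ : ℂ)‖ ≤
          ((C1 + C2) * Real.exp (a ^ 2) * 3 ^ 40 * Real.exp 5 * ((q : ℝ)⁻¹ * Real.exp (3 * |t|))) *
            Real.exp (-(y ^ 2 / 2)) := by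
      intro y
      rw [norm_div, norm_mul]
      have e1 : (s + ⟨-a, y⟩).re = 1 / 2 - κ - a := rfl
      have e2 : (s + ⟨-a, y⟩).im = t + y := rfl
      have h1 := hL1 q χ hq hχ (s + ⟨-a, y⟩) (by rw [e1]; linarith) (by rw [e1]; linarith)
      have h2 := hL2 q χ hq hχ (s + ⟨-a, y⟩) (by rw [e1]; linarith) (by rw [e1]; linarith)
      have h3 := Pol_le χ hX (b := a) (by linarith) (S := Finset.Icc 1 ⌊X⌋₊) subset_rfl
        (w := s + ⟨-a, y⟩) (by rw [e1]; linarith)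
      rw [e1, e2] at h1 h2
      have h4 : Real.exp (3 * |t + y|) ≤ Real.exp (3 * |t|) * Real.exp (3 * |y|) := by
        rw [← Real.exp_add]
        refine (abs_exp_le).trans (le_of_eq ?_)
        congr 1; ring
      have h5 : (q : ℝ) ^ (2 - (1 / 2 - κ - a)) ≤ (q : ℝ) ^ (3 + a) :=
        Real.rpow_le_rpow_of_exponent_le hq1 (by linarith)
      have h6 : (q : ℝ) ^ (3 - (1 / 2 - κ - a)) ≤ (q : ℝ) ^ (3 + a) :=
        Real.rpow_le_rpow_of_exponent_le hq1 (by linarith)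
      have hX2 : 1 ≤ X ^ (2 + a) := Real.one_le_rpow hX (by linarith)
      have h7 : ‖R ⟨-a, y⟩‖ ≤
          (C1 + C2) * ((q : ℝ) ^ (3 + a) * X ^ (2 + a)) * (Real.exp (3 * |t|) * Real.exp (3 * |y|)) := by
        simp only [hR]
        refine (norm_add_le _ _).trans ?_
        rw [norm_mul]
        have i1 : ‖deriv χ.LFunction (s + ⟨-a, y⟩)‖ ≤
            C2 * ((q : ℝ) ^ (3 + a) * X ^ (2 + a)) * (Real.exp (3 * |t|) * Real.exp (3 * |y|)) := by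
          refine h2.trans ?_
          have : (q : ℝ) ^ (3 + a) ≤ (q : ℝ) ^ (3 + a) * X ^ (2 + a) :=
            le_mul_of_one_le_right (by positivity) hX2
          have j := h6.trans this
          gcongr
        have i2 : ‖χ.LFunction (s + ⟨-a, y⟩)‖ * ‖Pol χ SX (s + ⟨-a, y⟩)‖ ≤
            C1 * ((q : ℝ) ^ (3 + a) * X ^ (2 + a)) * (Real.exp (3 * |t|) * Real.exp (3 * |y|)) := by
          calc _ ≤ (C1 * (q : ℝ) ^ (3 + a) * (Real.exp (3 * |t|) * Real.exp (3 * |y|))) *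
                X ^ (2 + a) := by
                gcongr
                refine h1.trans ?_
                gcongr
            _ = _ := by ring
        calc _ ≤ C2 * ((q : ℝ) ^ (3 + a) * X ^ (2 + a)) * (Real.exp (3 * |t|) * Real.exp (3 * |y|)) +
            C1 * ((q : ℝ) ^ (3 + a) * X ^ (2 + a)) * (Real.exp (3 * |t|) * Real.exp (3 * |y|)) :=
              add_le_add i1 i2
          _ = _ := by ring
      have h8 : ((q : ℝ) ^ (3 + a) * X ^ (2 + a)) * K ^ (-a) ≤ (q : ℝ)⁻¹ := by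
        have e3 : K ^ (-a) = X ^ (-a) * (q : ℝ) ^ ((1 + δ / 2) * (-a)) := by
          rw [hKdef, Real.mul_rpow hX0.le (by positivity), ← Real.rpow_mul hq0.le]
        calc ((q : ℝ) ^ (3 + a) * X ^ (2 + a)) * K ^ (-a)
            = (X ^ (2 + a) * X ^ (-a)) * ((q : ℝ) ^ (3 + a) * (q : ℝ) ^ ((1 + δ / 2) * (-a))) := by
              rw [e3]; ring
          _ = X ^ (2 : ℝ) * (q : ℝ) ^ (3 - δ / 2 * a) := by
              rw [← Real.rpow_add hX0, ← Real.rpow_add hq0]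
              congr 2 <;> ring
          _ ≤ ((q : ℝ) ^ A) ^ (2 : ℝ) * (q : ℝ) ^ (3 - δ / 2 * a) := by
              have := hXY'.trans hYA
              gcongr
          _ = (q : ℝ) ^ (A * 2 + (3 - δ / 2 * a)) := by
              rw [← Real.rpow_mul hq0.le, ← Real.rpow_add hq0]
          _ ≤ (q : ℝ)⁻¹ := hqm1 _ (by linarith)
      have e5 : Real.exp ((-a) ^ 2) = Real.exp (a ^ 2) := by congr 1; ring
      have hk := norm_kk hK0 hh0 40 (-a) y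
      have hk2 : (3 * Real.exp (max (h * (-a)) 0) / (1 + h * |y|)) ^ 40 ≤ 3 ^ 40 := by
        have h8 : max (h * (-a)) 0 = 0 := max_eq_right (by nlinarith)
        rw [h8, Real.exp_zero, mul_one]
        have h9 : 3 / (1 + h * |y|) ≤ 3 := by
          apply div_le_self (by positivity)
          have : 0 ≤ h * |y| := by positivity
          linarith
        gcongr
      rw [e5] at hk
      have h9 := gauss_dom y
      calc _ ≤ ‖R ⟨-a, y⟩‖ * ‖kk K h 40 ⟨-a, y⟩‖ := div_le_self (by positivity) (hnorm2 y)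
        _ ≤ ((C1 + C2) * ((q : ℝ) ^ (3 + a) * X ^ (2 + a)) *
            (Real.exp (3 * |t|) * Real.exp (3 * |y|))) *
            (K ^ (-a) * Real.exp (a ^ 2) * Real.exp (-(y ^ 2)) * 3 ^ 40) := by
            gcongr
            exact hk.trans (by gcongr)
        _ = (C1 + C2) * Real.exp (a ^ 2) * 3 ^ 40 * (((q : ℝ) ^ (3 + a) * X ^ (2 + a)) * K ^ (-a)) *
            Real.exp (3 * |t|) * (Real.exp (3 * |y|) * Real.exp (-(y ^ 2))) := by ring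
        _ ≤ (C1 + C2) * Real.exp (a ^ 2) * 3 ^ 40 * (q : ℝ)⁻¹ *
            Real.exp (3 * |t|) * (Real.exp 5 * Real.exp (-(y ^ 2 / 2))) := by gcongr
        _ = _ := by ring
    refine (integral_mono_of_nonneg (Eventually.of_forall fun y => norm_nonneg _)
      (int_gauss_half.const_mul _) (Eventually.of_forall hb)).trans (le_of_eq ?_)
    rw [integral_const_mul, ← hG2, hD3]
    ring
  -- middle line
  have T2 : (∫ y : ℝ, ‖D ⟨2 * κ, y⟩ * kk K h 40 ⟨2 * κ, y⟩ / (⟨2 * κ, y⟩ : ℂ)‖) ≤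
      D2 * ((q : ℝ) ^ ((2 * A + δ) * κ) * κ⁻¹ * ∫ y : ℝ, LP χ κ X Y (t + y) * Wt h 40 y) := by
    have hb : ∀ y : ℝ, ‖D ⟨2 * κ, y⟩ * kk K h 40 ⟨2 * κ, y⟩ / (⟨2 * κ, y⟩ : ℂ)‖ ≤
          (D2 * ((q : ℝ) ^ ((2 * A + δ) * κ) * κ⁻¹)) * (LP χ κ X Y (t + y) * Wt h 40 y) := by
      intro y
      have e1 : s + ⟨2 * κ, y⟩ = ⟨1 / 2 + κ, t + y⟩ := by
        rw [hs]
        apply Complex.ext
        · simp; ring
        · simp
      have e2 : ‖D ⟨2 * κ, y⟩‖ = LP χ κ X Y (t + y) := by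
        simp only [hD]
        rw [norm_neg, norm_mul, e1]
        rfl
      rw [norm_div, norm_mul, e2]
      have hk := norm_kk hK0 hh0 40 (2 * κ) y
      have h8 : K ^ (2 * κ) ≤ (q : ℝ) ^ (2 * A * κ) := by
        calc K ^ (2 * κ) ≤ ((q : ℝ) ^ A) ^ (2 * κ) :=
              Real.rpow_le_rpow hK0.le (hKY'.trans hYA) (by linarith)
          _ = (q : ℝ) ^ (2 * A * κ) := by rw [← Real.rpow_mul hq0.le]; congr 1; ring
      have h9 : Real.exp ((2 * κ) ^ 2) ≤ Real.exp 1 := Real.exp_le_exp.mpr (by nlinarith)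
      have h10 : κ ≤ ‖(⟨2 * κ, y⟩ : ℂ)‖ := by
        have := abs_le_norm_mk' (2 * κ) y
        rw [abs_of_pos (by linarith : 0 < 2 * κ)] at this
        linarith
      have h11 : (3 * Real.exp (max (h * (2 * κ)) 0) / (1 + h * |y|)) ^ 40 =
          3 ^ 40 * (q : ℝ) ^ (δ / 2 * κ) / (1 + h * |y|) ^ 40 := by
        have h12 : max (h * (2 * κ)) 0 = δ * ℓ / 160 * (2 * κ) := by
          rw [max_eq_left (by positivity), hhℓ]
        rw [h12, div_pow, mul_pow, ← Real.exp_nat_mul, Real.rpow_def_of_pos hq0, ← hℓ]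
        congr 3
        push_cast; ring
      rw [h11] at hk
      have h13 : (q : ℝ) ^ (2 * A * κ) * (q : ℝ) ^ (δ / 2 * κ) ≤ (q : ℝ) ^ ((2 * A + δ) * κ) := by
        rw [← Real.rpow_add hq0]
        apply Real.rpow_le_rpow_of_exponent_le hq1
        nlinarith
      have h14 : ‖kk K h 40 ⟨2 * κ, y⟩‖ ≤ D2 * (q : ℝ) ^ ((2 * A + δ) * κ) * Wt h 40 y := by
        refine hk.trans ?_
        calc _ ≤ (q : ℝ) ^ (2 * A * κ) * Real.exp 1 * Real.exp (-(y ^ 2)) *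
              (3 ^ 40 * (q : ℝ) ^ (δ / 2 * κ) / (1 + h * |y|) ^ 40) := by gcongr
          _ = D2 * ((q : ℝ) ^ (2 * A * κ) * (q : ℝ) ^ (δ / 2 * κ)) * Wt h 40 y := by
              rw [hD2]; unfold Wt; ring
          _ ≤ _ := by
              have := (Wt_pos hh0 40 y).le
              gcongr
      have hWt := (Wt_pos hh0 40 y).le
      have hLP := LP_nonneg χ κ X Y (t + y)
      calc LP χ κ X Y (t + y) * ‖kk K h 40 ⟨2 * κ, y⟩‖ / ‖(⟨2 * κ, y⟩ : ℂ)‖ ≤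
          LP χ κ X Y (t + y) * (D2 * (q : ℝ) ^ ((2 * A + δ) * κ) * Wt h 40 y) / κ := by gcongr
        _ = _ := by rw [div_eq_mul_inv]; ring
    refine (integral_mono_of_nonneg (Eventually.of_forall fun y => norm_nonneg _)
      ((LP_int hne hκ (by linarith) hY1 hh0 40 t).const_mul _) (Eventually.of_forall hb)).trans
      (le_of_eq ?_)
    rw [integral_const_mul]
    ring
  -- collect
  have hJ0 : 0 ≤ ∫ y : ℝ, LP χ κ X Y (t + y) * Wt h 40 y :=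
    integral_nonneg fun y => mul_nonneg (LP_nonneg _ _ _ _ _) (Wt_pos hh0 40 y).le
  have hκi : 0 < κ⁻¹ := inv_pos.mpr hκ
  obtain ⟨U, hU⟩ : ∃ U : ℝ, U = (q : ℝ)⁻¹ * Real.exp (3 * |t|) := ⟨_, rfl⟩
  obtain ⟨V, hV⟩ : ∃ V : ℝ, V = (q : ℝ) ^ ((2 * A + δ) * κ) * κ⁻¹ *
    ∫ y : ℝ, LP χ κ X Y (t + y) * Wt h 40 y := ⟨_, rfl⟩
  have hU0 : 0 ≤ U := by rw [hU]; positivity
  have hV0 : 0 ≤ V := by rw [hV]; positivity
  have hU1 : (q : ℝ)⁻¹ ≤ U := by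
    rw [hU]
    have : 1 ≤ Real.exp (3 * |t|) := Real.one_le_exp (by positivity)
    exact le_mul_of_one_le_right (by positivity) this
  rw [← hU] at T3
  rw [← hV] at T2
  rw [← hU, ← hV]
  set N := ‖deriv χ.LFunction s + χ.LFunction s * Pol χ SX s‖ with hN
  have hN0 : 0 ≤ N := norm_nonneg _
  have hpi : N ≤ 2 * Real.pi * N := by nlinarith [Real.pi_gt_three]
  have T1' : D1 * (q : ℝ)⁻¹ ≤ D1 * U := by gcongr
  have h1 : 0 ≤ D1 * V := by positivity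
  have h2 : 0 ≤ D3 * V := by positivity
  have h3 : 0 ≤ D2 * U := by positivity
  have e : (1 + D1 + D2 + D3) * (U + V) = (U + V) + D1 * U + D1 * V + D2 * U + D2 * V +
    D3 * U + D3 * V := by ring
  rw [e]
  linarith

end Pool.Agent.NH13
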