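import Pool.Agent.NH13.MuTwist

/-!
# Weights: `∑ (e/φ(e))²/e` over squarefree `e`, and the function `∏ (p^σ - 1)`
-/

set_option autoImplicit false

open Finset

namespace Pool.Agent.NH13

open ArithmeticFunction (moebius)

/-- the product over the primes of `e` -/
noncomputable def pp (f : ℕ → ℝ) (e : ℕ) : ℝ := ∏ p ∈ e.primeFactors, f p

lemma pp_sum_divisors (f : ℕ → ℝ) {n : ℕ} (hn : Squarefree n) :
    ∑ e ∈ n.divisors, pp f e = ∏ p ∈ n.primeFactors, (1 + f p) := by
  have h := (ArithmeticFunction.IsMultiplicative.prodPrimeFactors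
    f).prodPrimeFactors_one_add_of_squarefree hn
  have e1 : ∏ p ∈ n.primeFactors, (1 + f p) = ∏ p ∈ n.primeFactors,
      (1 + ArithmeticFunction.prodPrimeFactors f p) := by
    apply Finset.prod_congr rfl
    intro p hp
    have hp' := Nat.prime_of_mem_primeFactors hp
    rw [ArithmeticFunction.prodPrimeFactors_apply hp'.ne_zero, hp'.primeFactors,
      Finset.prod_singleton]
  rw [e1, h]
  apply Finset.sum_congr rfl
  intro e he
  have he0 : e ≠ 0 := (Nat.pos_of_mem_divisors he).ne'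
  rw [ArithmeticFunction.prodPrimeFactors_apply he0]
  rfl

lemma pp_nonneg {f : ℕ → ℝ} (hf : ∀ p, p.Prime → 0 ≤ f p) (e : ℕ) : 0 ≤ pp f e :=
  Finset.prod_nonneg fun p hp => hf p (Nat.prime_of_mem_primeFactors hp)

lemma sqf_dvd_primorial {e M : ℕ} (he : Squarefree e) (he0 : 1 ≤ e) (heM : e ≤ M) :
    e ∣ primorial M := by
  rw [← Nat.prod_primeFactors_of_squarefree he, primorial_eq_prod_primesLE]
  apply Finset.prod_dvd_prod_of_subset
  intro p hp
  rw [Nat.mem_primesLE]
  have h1 := Nat.mem_primeFactors.1 hp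
  exact ⟨(Nat.le_of_dvd (by omega) h1.2.1).trans heM, h1.1⟩

/-- sums over squarefree numbers -/
lemma sum_sqf_le {f : ℕ → ℝ} (hf : ∀ p, p.Prime → 0 ≤ f p) (M : ℕ) :
    ∑ e ∈ (Icc 1 M).filter Squarefree, pp f e ≤ ∏ p ∈ Nat.primesLE M, (1 + f p) := by
  have hpr : Squarefree (primorial M) := squarefree_primorial M
  have h1 := pp_sum_divisors f hpr
  rw [primeFactors_primorial] at h1
  rw [← h1]
  apply Finset.sum_le_sum_of_subset_of_nonneg
  · intro e he
    rw [mem_filter, mem_Icc] at he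
    rw [Nat.mem_divisors]
    exact ⟨sqf_dvd_primorial he.2 he.1.1 he.1.2, hpr.ne_zero⟩
  · intro e _ _
    exact pp_nonneg hf e

lemma inv_sq_primes (M : ℕ) : ∑ p ∈ Nat.primesLE M, (1 : ℝ) / (p : ℝ) ^ 2 ≤ 1 := by
  have h1 : ∀ N : ℕ, ∑ n ∈ Icc 2 (N + 1), (1 : ℝ) / (n : ℝ) ^ 2 ≤ 1 - 1 / (N + 1) := by
    intro N
    induction N with
    | zero => simp
    | succ N ih =>
      rw [Finset.sum_Icc_succ_top (by omega)]
      have h2 : (1 : ℝ) / ((N + 1 + 1 : ℕ) : ℝ) ^ 2 ≤ 1 / ((N : ℝ) + 1) - 1 / ((N : ℝ) + 1 + 1) := by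
        push_cast
        have hN : (0 : ℝ) ≤ N := Nat.cast_nonneg N
        rw [div_sub_div _ _ (by positivity) (by positivity), div_le_div_iff₀ (by positivity)
          (by positivity)]
        nlinarith
      push_cast at h2 ih ⊢
      linarith
  have h2 : ∑ p ∈ Nat.primesLE M, (1 : ℝ) / (p : ℝ) ^ 2 ≤ ∑ n ∈ Icc 2 (M + 1), (1 : ℝ) / (n : ℝ) ^ 2 := by
    apply Finset.sum_le_sum_of_subset_of_nonneg
    · intro p hp
      rw [Nat.mem_primesLE] at hp
      rw [mem_Icc]
      exact ⟨hp.2.two_le, by omega⟩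
    · intro i _ _
      positivity
  refine h2.trans ((h1 M).trans ?_)
  have : (0 : ℝ) ≤ 1 / ((M : ℝ) + 1) := by positivity
  linarith

/-- `(2p-1)/(p-1)²` -/
noncomputable def hp (p : ℕ) : ℝ := (2 * p - 1) / ((p : ℝ) - 1) ^ 2

lemma hp_nonneg {p : ℕ} (h : p.Prime) : 0 ≤ hp p := by
  unfold hp
  have : (2 : ℝ) ≤ p := by exact_mod_cast h.two_le
  apply div_nonneg <;> nlinarith

lemma ratio_eq {e : ℕ} (he : Squarefree e) : ((e : ℝ) / e.totient) ^ 2 = ∑ f ∈ e.divisors, pp hp f := by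
  rw [pp_sum_divisors hp he]
  have h1 : (e : ℝ) = ∏ p ∈ e.primeFactors, (p : ℝ) := by
    conv_lhs => rw [← Nat.prod_primeFactors_of_squarefree he]
    push_cast; rfl
  have h2 : (e.totient : ℝ) = ∏ p ∈ e.primeFactors, ((p : ℝ) - 1) := by
    have h3 := Nat.totient_eq_prod_factorization he.ne_zero
    rw [h3, Finsupp.prod, Nat.support_factorization]
    push_cast
    apply Finset.prod_congr rfl
    intro p hp
    have hp' := Nat.prime_of_mem_primeFactors hp
    have h4 : e.factorization p = 1 := by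
      have h5 := (Nat.squarefree_iff_factorization_le_one he.ne_zero).1 he p
      have h6 : 0 < e.factorization p := hp'.factorization_pos_of_dvd he.ne_zero
        (Nat.dvd_of_mem_primeFactors hp)
      omega
    rw [h4]
    have : ((p - 1 : ℕ) : ℝ) = (p : ℝ) - 1 := by
      rw [Nat.cast_sub hp'.one_le]; simp
    rw [← this]
    simp
  rw [h1, h2, ← Finset.prod_div_distrib, ← Finset.prod_pow]
  apply Finset.prod_congr rfl
  intro p hp'
  have hp2 : (2 : ℝ) ≤ p := by exact_mod_cast (Nat.prime_of_mem_primeFactors hp').two_le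
  have : ((p : ℝ) - 1) ≠ 0 := by linarith
  unfold hp
  field_simp
  ring

/-- sums over multiples -/
lemma sum_mult {R : Type*} [AddCommMonoid R] (f : ℕ → R) (M e : ℕ) (he : 1 ≤ e) :
    ∑ m ∈ (Icc 1 M).filter (fun m => e ∣ m), f m = ∑ n ∈ Icc 1 (M / e), f (e * n) := by
  symm
  apply Finset.sum_nbij' (fun n => e * n) (fun m => m / e)
  · intro n hn
    rw [mem_Icc] at hn
    rw [mem_filter, mem_Icc]
    refine ⟨⟨Nat.mul_pos he hn.1, ?_⟩, dvd_mul_right _ _⟩
    calc e * n ≤ e * (M / e) := Nat.mul_le_mul_left _ hn.2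
      _ ≤ M := Nat.mul_div_le M e
  · intro m hm
    rw [mem_filter, mem_Icc] at hm
    obtain ⟨k, rfl⟩ := hm.2
    rw [mem_Icc, Nat.mul_div_cancel_left _ he]
    refine ⟨?_, ?_⟩
    · rcases Nat.eq_zero_or_pos k with h | h
      · subst h; simp at hm
      · exact h
    · rw [Nat.le_div_iff_mul_le he, mul_comm]; exact hm.1.2
  · intro n hn
    exact Nat.mul_div_cancel_left _ he
  · intro m hm
    rw [mem_filter] at hm
    exact Nat.mul_div_cancel' hm.2
  · intro n hn
    rfl

lemma harm_le (M : ℕ) : ∑ n ∈ Icc 1 M, (1 : ℝ) / n ≤ 1 + Real.log M := by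
  have h := harmonic_le_one_add_log M
  rw [harmonic_eq_sum_Icc] at h
  push_cast at h
  simpa [one_div] using h

/-- the weighted sum -/
theorem sum_ratio_le (M : ℕ) :
    ∑ e ∈ (Icc 1 M).filter Squarefree, ((e : ℝ) / e.totient) ^ 2 / e ≤
      Real.exp 6 * (1 + Real.log M) := by
  have h1 : ∑ e ∈ (Icc 1 M).filter Squarefree, ((e : ℝ) / e.totient) ^ 2 / e ≤
      ∑ f ∈ (Icc 1 M).filter Squarefree, ∑ e ∈ (Icc 1 M).filter (fun e => f ∣ e), pp hp f / e := by
    have h2 : ∀ e ∈ (Icc 1 M).filter Squarefree, ((e : ℝ) / e.totient) ^ 2 / e =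
        ∑ f ∈ (Icc 1 M).filter Squarefree, if f ∣ e then pp hp f / e else 0 := by
      intro e he
      rw [mem_filter, mem_Icc] at he
      rw [ratio_eq he.2, Finset.sum_div, ← Finset.sum_filter]
      apply Finset.sum_congr _ (fun _ _ => rfl)
      ext f
      rw [Nat.mem_divisors, mem_filter, mem_filter, mem_Icc]
      constructor
      · rintro ⟨h3, _⟩
        exact ⟨⟨⟨Nat.pos_of_dvd_of_pos h3 he.1.1, (Nat.le_of_dvd he.1.1 h3).trans he.1.2⟩,
          he.2.squarefree_of_dvd h3⟩, h3⟩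
      · rintro ⟨_, h3⟩
        exact ⟨h3, he.2.ne_zero⟩
    rw [Finset.sum_congr rfl h2, Finset.sum_comm]
    apply Finset.sum_le_sum
    intro f _
    rw [← Finset.sum_filter, Finset.filter_filter]
    apply Finset.sum_le_sum_of_subset_of_nonneg
    · intro e he
      rw [mem_filter] at he ⊢
      exact ⟨he.1, he.2.2⟩
    · intro e _ _
      have := pp_nonneg (f := hp) (fun p h => hp_nonneg h) f
      positivity
  refine h1.trans ?_
  have h3 : ∀ f ∈ (Icc 1 M).filter Squarefree, ∑ e ∈ (Icc 1 M).filter (fun e => f ∣ e),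
      pp hp f / e ≤ (1 + Real.log M) * pp (fun p => hp p / p) f := by
    intro f hf
    rw [mem_filter, mem_Icc] at hf
    rw [sum_mult _ M f hf.1.1]
    have hf0 : (0 : ℝ) < f := by exact_mod_cast hf.1.1
    have e1 : pp (fun p => hp p / p) f = pp hp f / f := by
      unfold pp
      rw [Finset.prod_div_distrib]
      congr 1
      conv_rhs => rw [← Nat.prod_primeFactors_of_squarefree hf.2]
      push_cast; rfl
    have h4 : ∑ n ∈ Icc 1 (M / f), pp hp f / ((f * n : ℕ) : ℝ) =
        (pp hp f / f) * ∑ n ∈ Icc 1 (M / f), (1 : ℝ) / n := by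
      rw [Finset.mul_sum]
      apply Finset.sum_congr rfl
      intro n hn
      rw [mem_Icc] at hn
      have : (0 : ℝ) < n := by exact_mod_cast hn.1
      push_cast
      field_simp
    rw [h4, e1, mul_comm]
    have h5 := pp_nonneg (f := hp) (fun p h => hp_nonneg h) f
    apply mul_le_mul_of_nonneg_right _ (by positivity)
    refine (harm_le _).trans ?_
    have h6 : 1 ≤ M / f := Nat.div_pos hf.1.2 hf.1.1
    have h7 : Real.log ((M / f : ℕ) : ℝ) ≤ Real.log M := by
      apply Real.log_le_log (by exact_mod_cast h6)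
      exact_mod_cast Nat.div_le_self M f
    linarith
  refine (Finset.sum_le_sum h3).trans ?_
  rw [← Finset.mul_sum, mul_comm]
  have hlog : 0 ≤ 1 + Real.log M := by
    have := Real.log_natCast_nonneg M
    linarith
  apply mul_le_mul_of_nonneg_right _ hlog
  refine (sum_sqf_le (f := fun p => hp p / p) (fun p h => div_nonneg (hp_nonneg h)
    (Nat.cast_nonneg p)) M).trans ?_
  have h8 : ∀ p ∈ Nat.primesLE M, 1 + hp p / p ≤ Real.exp (6 * (1 / (p : ℝ) ^ 2)) := by
    intro p hp'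
    rw [Nat.mem_primesLE] at hp'
    have hp2 : (2 : ℝ) ≤ p := by exact_mod_cast hp'.2.two_le
    have h9 : hp p / p ≤ 6 * (1 / (p : ℝ) ^ 2) := by
      unfold hp
      have h10 : 0 < (p : ℝ) - 1 := by linarith
      rw [div_div, mul_one_div, div_le_div_iff₀ (by positivity) (by positivity)]
      nlinarith [mul_nonneg (by linarith : (0 : ℝ) ≤ (p : ℝ) - 2) (by linarith : (0 : ℝ) ≤ (p : ℝ)),
        mul_nonneg (mul_nonneg (by linarith : (0 : ℝ) ≤ (p : ℝ) - 2) (by linarith : (0 : ℝ) ≤ (p : ℝ)))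
        (by linarith : (0 : ℝ) ≤ (p : ℝ))]
    have h11 := Real.add_one_le_exp (6 * (1 / (p : ℝ) ^ 2))
    linarith
  refine (Finset.prod_le_prod (fun p hp' => ?_) h8).trans ?_
  · rw [Nat.mem_primesLE] at hp'
    have := hp_nonneg hp'.2
    positivity
  · rw [← Real.exp_sum, ← Finset.mul_sum]
    apply Real.exp_le_exp.mpr
    have := inv_sq_primes M
    linarith

end Pool.Agent.NH13
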