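import Pool.Agent.NH13.QWeight
import Pool.Agent.NH13.MeanSq

/-!
# The quadratic form of the mollified divisor sums
-/

set_option autoImplicit false

open Finset

namespace Pool.Agent.NH13

open ArithmeticFunction (moebius)
open ComplexConjugate

lemma hasSum_mult {σ : ℝ} (hσ : 1 < σ) {L : ℕ} (hL : 1 ≤ L) :
    HasSum (fun k : ℕ => if L ∣ k then (k : ℝ) ^ (-σ) else 0)
      ((L : ℝ) ^ (-σ) * ∑' k : ℕ, (k : ℝ) ^ (-σ)) := by
  have hs : Summable (fun k : ℕ => (k : ℝ) ^ (-σ)) := by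
    rw [Real.summable_nat_rpow]; linarith
  have h1 : HasSum (fun k : ℕ => (L : ℝ) ^ (-σ) * (k : ℝ) ^ (-σ))
      ((L : ℝ) ^ (-σ) * ∑' k : ℕ, (k : ℝ) ^ (-σ)) := hs.hasSum.mul_left _
  have hinj : Function.Injective (fun k : ℕ => L * k) := by
    intro a b hab
    exact Nat.eq_of_mul_eq_mul_left hL hab
  have e : (fun k : ℕ => (L : ℝ) ^ (-σ) * (k : ℝ) ^ (-σ)) =
      (fun k : ℕ => if L ∣ k then (k : ℝ) ^ (-σ) else 0) ∘ (fun k : ℕ => L * k) := by
    funext k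
    simp only [Function.comp, dvd_mul_right, if_true]
    push_cast
    rw [Real.mul_rpow (Nat.cast_nonneg L) (Nat.cast_nonneg k)]
  rw [e] at h1
  exact (hinj.hasSum_iff (by
      intro k hk
      rw [if_neg]
      rintro ⟨j, rfl⟩
      exact hk ⟨j, rfl⟩)).1 h1

lemma normSq_sum (T : Finset ℕ) (a : ℕ → ℂ) :
    ‖∑ m ∈ T, a m‖ ^ 2 = ∑ m ∈ T, ∑ n ∈ T, (a m * conj (a n)).re := by
  have h : (‖∑ m ∈ T, a m‖ ^ 2 : ℝ) = ((∑ m ∈ T, a m) * conj (∑ m ∈ T, a m)).re := by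
    rw [Complex.mul_conj, Complex.ofReal_re, Complex.normSq_eq_norm_sq]
  rw [h, map_sum, Finset.sum_mul_sum, Complex.re_sum]
  apply Finset.sum_congr rfl
  intro m _
  rw [Complex.re_sum]

lemma pp_pow_sum {σ : ℝ} {n : ℕ} (hn : Squarefree n) :
    ∑ e ∈ n.divisors, pp (fun p => (p : ℝ) ^ σ - 1) e = (n : ℝ) ^ σ := by
  rw [pp_sum_divisors _ hn]
  conv_rhs => rw [← Nat.prod_primeFactors_of_squarefree hn]
  push_cast
  rw [← Real.finsetProd_rpow _ _ (fun i _ => Nat.cast_nonneg i)]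
  apply Finset.prod_congr rfl
  intro p _
  ring

/-- diagonalisation -/
theorem quad_diag {σ : ℝ} (hσ : 1 < σ) {S : Finset ℕ} {M : ℕ} (hS : S ⊆ (Icc 1 M).filter Squarefree)
    (a : ℕ → ℂ) (N : ℕ) :
    ∑ k ∈ Icc 1 N, (k : ℝ) ^ (-σ) * ‖∑ m ∈ S.filter (fun m => m ∣ k), a m‖ ^ 2 ≤
      (∑' k : ℕ, (k : ℝ) ^ (-σ)) * ∑ e ∈ (Icc 1 M).filter Squarefree,
        pp (fun p => (p : ℝ) ^ σ - 1) e *
          ‖∑ m ∈ S.filter (fun m => e ∣ m), a m * (((m : ℝ) ^ (-σ) : ℝ) : ℂ)‖ ^ 2 := by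
  obtain ⟨Z, hZ⟩ : ∃ Z : ℝ, Z = ∑' k : ℕ, (k : ℝ) ^ (-σ) := ⟨_, rfl⟩
  rw [← hZ]
  have hmem : ∀ m ∈ S, 1 ≤ m ∧ m ≤ M ∧ Squarefree m := by
    intro m hm
    have := hS hm
    rw [mem_filter, mem_Icc] at this
    exact ⟨this.1.1, this.1.2, this.2⟩
  -- the full sum
  have h1 : HasSum (fun k : ℕ => (k : ℝ) ^ (-σ) * ‖∑ m ∈ S.filter (fun m => m ∣ k), a m‖ ^ 2)
      (∑ m ∈ S, ∑ n ∈ S, (a m * conj (a n)).re * (((Nat.lcm m n : ℕ) : ℝ) ^ (-σ) * Z)) := by
    have h2 : (fun k : ℕ => (k : ℝ) ^ (-σ) * ‖∑ m ∈ S.filter (fun m => m ∣ k), a m‖ ^ 2) =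
        fun k : ℕ => ∑ m ∈ S, ∑ n ∈ S, (a m * conj (a n)).re *
          (if Nat.lcm m n ∣ k then (k : ℝ) ^ (-σ) else 0) := by
      funext k
      rw [normSq_sum, Finset.sum_filter, Finset.mul_sum]
      apply Finset.sum_congr rfl
      intro m _
      by_cases hm : m ∣ k
      · rw [if_pos hm, Finset.sum_filter, Finset.mul_sum]
        apply Finset.sum_congr rfl
        intro n _
        by_cases hn : n ∣ k
        · rw [if_pos hn, if_pos (Nat.lcm_dvd hm hn)]; ring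
        · rw [if_neg hn, if_neg (fun h => hn ((Nat.dvd_lcm_right m n).trans h))]; ring
      · rw [if_neg hm, mul_zero]
        symm
        apply Finset.sum_eq_zero
        intro n _
        rw [if_neg (fun h => hm ((Nat.dvd_lcm_left m n).trans h)), mul_zero]
    rw [h2]
    apply hasSum_sum
    intro m hm
    apply hasSum_sum
    intro n hn
    apply HasSum.mul_left
    rw [hZ]
    apply hasSum_mult hσ
    exact Nat.lcm_pos (hmem m hm).1 (hmem n hn).1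
  have h3 := sum_le_hasSum (Icc 1 N) (fun k _ => by positivity) h1
  refine h3.trans (le_of_eq ?_)
  have h4 : ∀ m ∈ S, ∀ n ∈ S, (a m * conj (a n)).re * (((Nat.lcm m n : ℕ) : ℝ) ^ (-σ) * Z) =
      Z * ∑ e ∈ (Icc 1 M).filter Squarefree, if e ∣ m ∧ e ∣ n then
        pp (fun p => (p : ℝ) ^ σ - 1) e * ((a m * (((m : ℝ) ^ (-σ) : ℝ) : ℂ)) *
          conj (a n * (((n : ℝ) ^ (-σ) : ℝ) : ℂ))).re else 0 := by
    intro m hm n hn
    obtain ⟨hm1, hm2, hm3⟩ := hmem m hm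
    obtain ⟨hn1, hn2, hn3⟩ := hmem n hn
    have hm0 : (0 : ℝ) < m := by exact_mod_cast hm1
    have hn0 : (0 : ℝ) < n := by exact_mod_cast hn1
    have hg1 : 0 < Nat.gcd m n := Nat.gcd_pos_of_pos_left n hm1
    have hg : Squarefree (Nat.gcd m n) := hm3.squarefree_of_dvd (Nat.gcd_dvd_left m n)
    have hgr : (0 : ℝ) < ((Nat.gcd m n : ℕ) : ℝ) := by exact_mod_cast hg1
    have hlr : (0 : ℝ) < ((Nat.lcm m n : ℕ) : ℝ) := by exact_mod_cast Nat.lcm_pos hm1 hn1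
    have e1 : ((a m * (((m : ℝ) ^ (-σ) : ℝ) : ℂ)) * conj (a n * (((n : ℝ) ^ (-σ) : ℝ) : ℂ))).re =
        (m : ℝ) ^ (-σ) * (n : ℝ) ^ (-σ) * (a m * conj (a n)).re := by
      rw [map_mul, Complex.conj_ofReal]
      have : a m * (((m : ℝ) ^ (-σ) : ℝ) : ℂ) * (conj (a n) * (((n : ℝ) ^ (-σ) : ℝ) : ℂ)) =
          (((m : ℝ) ^ (-σ) * (n : ℝ) ^ (-σ) : ℝ) : ℂ) * (a m * conj (a n)) := by
        push_cast; ring
      rw [this, Complex.re_ofReal_mul]
    have e2 : ∑ e ∈ (Icc 1 M).filter Squarefree, (if e ∣ m ∧ e ∣ n then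
        pp (fun p => (p : ℝ) ^ σ - 1) e * ((a m * (((m : ℝ) ^ (-σ) : ℝ) : ℂ)) *
          conj (a n * (((n : ℝ) ^ (-σ) : ℝ) : ℂ))).re else 0) =
        (∑ e ∈ (Nat.gcd m n).divisors, pp (fun p => (p : ℝ) ^ σ - 1) e) *
          ((m : ℝ) ^ (-σ) * (n : ℝ) ^ (-σ) * (a m * conj (a n)).re) := by
      rw [← Finset.sum_filter, Finset.sum_mul, e1]
      apply Finset.sum_congr _ (fun _ _ => rfl)
      ext e
      rw [mem_filter, mem_filter, mem_Icc, Nat.mem_divisors]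
      constructor
      · rintro ⟨_, h5, h6⟩
        exact ⟨Nat.dvd_gcd h5 h6, hg1.ne'⟩
      · rintro ⟨h5, _⟩
        have h6 := h5.trans (Nat.gcd_dvd_left m n)
        have h7 := h5.trans (Nat.gcd_dvd_right m n)
        exact ⟨⟨⟨Nat.pos_of_dvd_of_pos h6 hm1, (Nat.le_of_dvd hm1 h6).trans hm2⟩,
          hm3.squarefree_of_dvd h6⟩, h6, h7⟩
    rw [e2, pp_pow_sum hg]
    have e3 : ((Nat.gcd m n : ℕ) : ℝ) ^ σ * ((m : ℝ) ^ (-σ) * (n : ℝ) ^ (-σ)) =
        ((Nat.lcm m n : ℕ) : ℝ) ^ (-σ) := by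
      have h5 : ((Nat.gcd m n : ℕ) : ℝ) * ((Nat.lcm m n : ℕ) : ℝ) = (m : ℝ) * n := by
        exact_mod_cast Nat.gcd_mul_lcm m n
      rw [← Real.mul_rpow hm0.le hn0.le, ← h5, Real.mul_rpow hgr.le hlr.le, ← mul_assoc,
        ← Real.rpow_add hgr]
      simp
    calc _ = Z * (((Nat.gcd m n : ℕ) : ℝ) ^ σ * ((m : ℝ) ^ (-σ) * (n : ℝ) ^ (-σ)) *
        (a m * conj (a n)).re) := by rw [e3]; ring
      _ = _ := by ring
  rw [Finset.sum_congr rfl (fun m hm => Finset.sum_congr rfl (fun n hn => h4 m hm n hn))]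
  simp_rw [← Finset.mul_sum]
  congr 1
  rw [Finset.sum_congr rfl (fun m _ => Finset.sum_comm), Finset.sum_comm]
  apply Finset.sum_congr rfl
  intro e _
  rw [normSq_sum, Finset.sum_filter, Finset.mul_sum]
  apply Finset.sum_congr rfl
  intro m _
  by_cases hm : e ∣ m
  · rw [if_pos hm, Finset.sum_filter, Finset.mul_sum]
    apply Finset.sum_congr rfl
    intro n _
    by_cases hn : e ∣ n
    · rw [if_pos ⟨hm, hn⟩, if_pos hn]
    · rw [if_neg (fun h => hn h.2), if_neg hn, mul_zero]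
  · rw [if_neg hm, mul_zero]
    apply Finset.sum_eq_zero
    intro n _
    rw [if_neg (fun h => hm h.1)]

/-- the coefficients of the mollifier, twisted -/
noncomputable def ac (X : ℝ) (w : ℂ) (m : ℕ) : ℂ :=
  ((moebius m : ℝ) : ℂ) * ((1 - Real.log m / X : ℝ) : ℂ) * Complex.exp (w * Real.log m)

lemma zsum_le {η : ℝ} (hη : 0 < η) : ∑' k : ℕ, (k : ℝ) ^ (-(1 + η)) ≤ 1 + 1 / η := by
  have hs : Summable (fun k : ℕ => (k : ℝ) ^ (-(1 + η))) := by
    rw [Real.summable_nat_rpow]; linarith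
  apply hs.tsum_le_of_sum_le
  intro T
  obtain ⟨N, hN⟩ : ∃ N, T ⊆ Finset.Icc 0 N := by
    refine ⟨T.sup id, fun x hx => ?_⟩
    rw [mem_Icc]
    exact ⟨Nat.zero_le _, Finset.le_sup (f := id) hx⟩
  refine (Finset.sum_le_sum_of_subset_of_nonneg hN (fun _ _ _ => by positivity)).trans ?_
  have h1 : Finset.Icc 0 N = insert 0 (Finset.Icc 1 N) := by
    ext y; simp only [Finset.mem_Icc, Finset.mem_insert]; omega
  rw [h1, Finset.sum_insert (by simp), Nat.cast_zero, Real.zero_rpow (by linarith), zero_add]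
  refine le_trans (le_of_eq ?_) (sum_rpow_le hη N)
  apply Finset.sum_congr rfl
  intro n _
  congr 1
  ring

lemma ac_not_sqf {X : ℝ} {w : ℂ} {m : ℕ} (h : ¬ Squarefree m) : ac X w m = 0 := by
  unfold ac
  rw [ArithmeticFunction.moebius_eq_zero_of_not_squarefree h]
  simp

lemma pp_pow_le {σ : ℝ} (hσ : 0 ≤ σ) {e : ℕ} (he : Squarefree e) :
    pp (fun p => (p : ℝ) ^ σ - 1) e ≤ (e : ℝ) ^ σ := by
  have h : (e : ℝ) ^ σ = ∏ p ∈ e.primeFactors, (p : ℝ) ^ σ := by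
    conv_lhs => rw [← Nat.prod_primeFactors_of_squarefree he]
    push_cast
    rw [← Real.finsetProd_rpow _ _ (fun i _ => Nat.cast_nonneg i)]
  rw [h]
  unfold pp
  apply Finset.prod_le_prod
  · intro p hp
    have : (1 : ℝ) ≤ p := by exact_mod_cast (Nat.prime_of_mem_primeFactors hp).one_le
    have := Real.one_le_rpow this hσ
    linarith
  · intro p _
    linarith

/-- the inner sum -/
lemma inner_le {η X : ℝ} (hη : 0 < η) (hX : 1 ≤ X) {w : ℂ} (hw : |w.re| * X ≤ 1)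
    {e : ℕ} (he : Squarefree e) (heM : e ≤ ⌊Real.exp X⌋₊) :
    ‖∑ m ∈ ((Icc 1 ⌊Real.exp X⌋₊).filter Squarefree).filter (fun m => e ∣ m),
      ac X w m * (((m : ℝ) ^ (-(1 + η)) : ℝ) : ℂ)‖ ≤
      6 * Real.exp 2 * (e / e.totient) * (e : ℝ) ^ (-(1 + η)) / X * (1 + (‖w‖ + η) * X) ^ 2 := by
  obtain ⟨M, hM⟩ : ∃ M : ℕ, M = ⌊Real.exp X⌋₊ := ⟨_, rfl⟩
  rw [← hM] at heM ⊢
  have he1 : 1 ≤ e := Nat.one_le_iff_ne_zero.2 he.ne_zero
  have he0 : (0 : ℝ) < e := by exact_mod_cast he1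
  have hX0 : 0 < X := by linarith
  have hφ : (0 : ℝ) < e.totient := by exact_mod_cast Nat.totient_pos.2 he1
  obtain ⟨Y, hY⟩ : ∃ Y : ℝ, Y = X - Real.log e := ⟨_, rfl⟩
  have hlog : 0 ≤ Real.log e := Real.log_natCast_nonneg e
  have hlogX : Real.log e ≤ X := by
    rw [Real.log_le_iff_le_exp he0]
    rw [hM] at heM
    exact (Nat.le_floor_iff (Real.exp_pos _).le).1 heM
  have hY0 : 0 ≤ Y := by rw [hY]; linarith
  have hYX : Y ≤ X := by rw [hY]; linarith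
  have hMe : M / e = ⌊Real.exp Y⌋₊ := by
    rw [hY, Real.exp_sub, Real.exp_log he0, Nat.floor_div_natCast, hM]
  have h1 : ∑ m ∈ ((Icc 1 M).filter Squarefree).filter (fun m => e ∣ m),
      ac X w m * (((m : ℝ) ^ (-(1 + η)) : ℝ) : ℂ) =
      (((moebius e : ℝ) : ℂ) * Complex.exp (w * Real.log e) * (((e : ℝ) ^ (-(1 + η)) / X : ℝ) : ℂ)) *
      ∑ n ∈ (Icc 1 ⌊Real.exp Y⌋₊).filter (fun n => n.Coprime e), ((moebius n : ℝ) : ℂ) / n *
      (Complex.exp ((w - η) * Real.log n) * ((Y - Real.log n : ℝ) : ℂ)) := by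
    have h2 : ∑ m ∈ ((Icc 1 M).filter Squarefree).filter (fun m => e ∣ m),
        ac X w m * (((m : ℝ) ^ (-(1 + η)) : ℝ) : ℂ) =
        ∑ m ∈ (Icc 1 M).filter (fun m => e ∣ m), ac X w m * (((m : ℝ) ^ (-(1 + η)) : ℝ) : ℂ) := by
      rw [Finset.filter_filter]
      apply Finset.sum_subset
      · intro m hm
        rw [mem_filter] at hm ⊢
        exact ⟨hm.1, hm.2.2⟩
      · intro m hm hm2
        rw [mem_filter] at hm
        rw [ac_not_sqf, zero_mul]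
        intro h3
        exact hm2 (mem_filter.2 ⟨hm.1, h3, hm.2⟩)
    rw [h2, sum_mult _ M e he1, hMe, Finset.mul_sum, Finset.sum_filter]
    apply Finset.sum_congr rfl
    intro n hn
    rw [mem_Icc] at hn
    have hn0 : (0 : ℝ) < n := by exact_mod_cast hn.1
    by_cases hc : n.Coprime e
    · rw [if_pos hc]
      unfold ac
      have h4 : (moebius (e * n) : ℤ) = moebius e * moebius n :=
        ArithmeticFunction.isMultiplicative_moebius.map_mul_of_coprime hc.symm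
      rw [h4]
      have h5 : Real.log ((e * n : ℕ) : ℝ) = Real.log e + Real.log n := by
        push_cast
        rw [Real.log_mul he0.ne' hn0.ne']
      have h6 : (((e * n : ℕ) : ℝ)) ^ (-(1 + η)) = (e : ℝ) ^ (-(1 + η)) * ((n : ℝ)⁻¹ *
          Real.exp (-η * Real.log n)) := by
        push_cast
        rw [Real.mul_rpow he0.le hn0.le]
        congr 1
        rw [show -(1 + η) = -1 + -η by ring, Real.rpow_add hn0, Real.rpow_neg_one,
          Real.rpow_def_of_pos hn0]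
        congr 2
        ring
      rw [h5, h6]
      have h7 : Complex.exp (w * ((Real.log e + Real.log n : ℝ) : ℂ)) =
          Complex.exp (w * Real.log e) * Complex.exp (w * Real.log n) := by
        rw [← Complex.exp_add]; congr 1; push_cast; ring
      have h8 : Complex.exp ((w - η) * Real.log n) = Complex.exp (w * Real.log n) *
          ((Real.exp (-η * Real.log n) : ℝ) : ℂ) := by
        rw [Complex.ofReal_exp, ← Complex.exp_add]; congr 1; push_cast; ring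
      rw [h7, h8, hY]
      have hXc : (X : ℂ) ≠ 0 := by exact_mod_cast hX0.ne'
      have hnc : (n : ℂ) ≠ 0 := by exact_mod_cast (by omega : n ≠ 0)
      push_cast
      field_simp
      ring
    · rw [if_neg hc]
      have h9 : ¬ Squarefree (e * n) := by
        intro h10
        exact hc (Nat.coprime_of_squarefree_mul h10).symm
      rw [ac_not_sqf h9, zero_mul]
  rw [h1, norm_mul]
  have h3 : (w - (η : ℂ)).re = w.re - η := by simp
  have hwr := le_abs_self w.re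
  have h10 := twist_le e he.ne_zero (w - η) hY0 (E := Real.exp 1) (Real.one_le_exp (by norm_num)) (by
    apply Real.exp_le_exp.2
    rw [h3]
    have h4 : 0 ≤ η * Y := by positivity
    have h5 : w.re * Y ≤ |w.re| * X := by
      calc w.re * Y ≤ |w.re| * Y := by gcongr
        _ ≤ |w.re| * X := by gcongr
    nlinarith)
  have h11 : ‖((moebius e : ℝ) : ℂ) * Complex.exp (w * Real.log e) *
      (((e : ℝ) ^ (-(1 + η)) / X : ℝ) : ℂ)‖ ≤ Real.exp 1 * ((e : ℝ) ^ (-(1 + η)) / X) := by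
    rw [norm_mul, norm_mul, Complex.norm_real, Complex.norm_real, Complex.norm_exp,
      Real.norm_of_nonneg (by positivity : (0 : ℝ) ≤ (e : ℝ) ^ (-(1 + η)) / X), Real.norm_eq_abs]
    have h4 : (w * (Real.log e : ℂ)).re = w.re * Real.log e := Complex.re_mul_ofReal _ _
    rw [h4]
    have h5 := abs_moebius_le e
    have h6 : Real.exp (w.re * Real.log e) ≤ Real.exp 1 := by
      apply Real.exp_le_exp.2
      calc w.re * Real.log e ≤ |w.re| * Real.log e := by gcongr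
        _ ≤ |w.re| * X := by gcongr
        _ ≤ 1 := hw
    calc |(moebius e : ℝ)| * Real.exp (w.re * Real.log e) * ((e : ℝ) ^ (-(1 + η)) / X) ≤
        1 * Real.exp 1 * ((e : ℝ) ^ (-(1 + η)) / X) := by gcongr
      _ = _ := by ring
  have h12 : ‖w - (η : ℂ)‖ ≤ ‖w‖ + η := by
    refine (norm_sub_le _ _).trans ?_
    rw [Complex.norm_real, Real.norm_of_nonneg hη.le]
  have h13 : (1 + ‖w - (η : ℂ)‖ * Y) ^ 2 ≤ (1 + (‖w‖ + η) * X) ^ 2 := by
    gcongr
  calc _ ≤ (Real.exp 1 * ((e : ℝ) ^ (-(1 + η)) / X)) *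
      (6 * (e / e.totient) * Real.exp 1 * (1 + (‖w‖ + η) * X) ^ 2) := by
        gcongr
        refine h10.trans ?_
        gcongr
    _ = 6 * (Real.exp 1 * Real.exp 1) * (e / e.totient) * (e : ℝ) ^ (-(1 + η)) / X *
        (1 + (‖w‖ + η) * X) ^ 2 := by ring
    _ = _ := by rw [← Real.exp_add]; norm_num

/-- **The quadratic form bound.** -/
theorem quad_form : ∃ C : ℝ, 1 ≤ C ∧ ∀ (η X : ℝ) (w : ℂ) (N : ℕ), 0 < η → 1 ≤ X → |w.re| * X ≤ 1 →
    ∑ k ∈ Icc 1 N, (k : ℝ) ^ (-(1 + η)) *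
      ‖∑ m ∈ (Icc 1 ⌊Real.exp X⌋₊).filter (fun m => m ∣ k), ac X w m‖ ^ 2 ≤
      C * (1 + 1 / η) / X * (1 + (‖w‖ + η) * X) ^ 4 := by
  refine ⟨72 * Real.exp 4 * Real.exp 6, ?_, ?_⟩
  · have h1 := Real.one_le_exp (show (0 : ℝ) ≤ 4 by norm_num)
    have h2 := Real.one_le_exp (show (0 : ℝ) ≤ 6 by norm_num)
    nlinarith
  intro η X w N hη hX hw
  have hX0 : 0 < X := by linarith
  obtain ⟨M, hM⟩ : ∃ M : ℕ, M = ⌊Real.exp X⌋₊ := ⟨_, rfl⟩
  rw [← hM]
  have h1 := quad_diag (σ := 1 + η) (by linarith) (S := (Icc 1 M).filter Squarefree) (M := M)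
    subset_rfl (ac X w) N
  have h2 : ∀ k : ℕ, ∑ m ∈ ((Icc 1 M).filter Squarefree).filter (fun m => m ∣ k), ac X w m =
      ∑ m ∈ (Icc 1 M).filter (fun m => m ∣ k), ac X w m := by
    intro k
    rw [Finset.filter_filter]
    apply Finset.sum_subset
    · intro m hm
      rw [mem_filter] at hm ⊢
      exact ⟨hm.1, hm.2.2⟩
    · intro m hm hm2
      rw [mem_filter] at hm
      apply ac_not_sqf
      intro h3
      exact hm2 (mem_filter.2 ⟨hm.1, h3, hm.2⟩)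
  simp only [h2] at h1
  refine h1.trans ?_
  obtain ⟨G, hG⟩ : ∃ G : ℝ, G = (1 + (‖w‖ + η) * X) := ⟨_, rfl⟩
  have hG0 : 0 ≤ G := by rw [hG]; positivity
  have h3 : ∀ e ∈ (Icc 1 M).filter Squarefree, pp (fun p => (p : ℝ) ^ (1 + η) - 1) e *
      ‖∑ m ∈ ((Icc 1 M).filter Squarefree).filter (fun m => e ∣ m),
        ac X w m * (((m : ℝ) ^ (-(1 + η)) : ℝ) : ℂ)‖ ^ 2 ≤
      (36 * Real.exp 4 * G ^ 4 / X ^ 2) * (((e : ℝ) / e.totient) ^ 2 / e) := by
    intro e he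
    rw [mem_filter, mem_Icc] at he
    have h4 := inner_le hη hX hw he.2 (by rw [← hM]; exact he.1.2)
    rw [← hM, ← hG] at h4
    have h5 := pp_pow_le (σ := 1 + η) (by linarith) he.2
    have he0 : (0 : ℝ) < e := by exact_mod_cast he.1.1
    have he1 : (1 : ℝ) ≤ e := by exact_mod_cast he.1.1
    have hφ : (0 : ℝ) < e.totient := by exact_mod_cast Nat.totient_pos.2 he.1.1
    have h6 : (e : ℝ) ^ (1 + η) * ((e : ℝ) ^ (-(1 + η))) ^ 2 ≤ 1 / e := by
      have h7 : (e : ℝ) ^ (1 + η) * ((e : ℝ) ^ (-(1 + η))) ^ 2 = (e : ℝ) ^ (-(1 + η)) := by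
        rw [pow_two, ← mul_assoc, ← Real.rpow_add he0]
        simp
      rw [h7, one_div, ← Real.rpow_neg_one]
      exact Real.rpow_le_rpow_of_exponent_le he1 (by linarith)
    have h8 : Real.exp 2 ^ 2 = Real.exp 4 := by
      rw [← Real.exp_nat_mul]; norm_num
    calc _ ≤ (e : ℝ) ^ (1 + η) * (6 * Real.exp 2 * (e / e.totient) * (e : ℝ) ^ (-(1 + η)) / X *
          G ^ 2) ^ 2 := by gcongr
      _ = (36 * Real.exp 2 ^ 2 * G ^ 4 / X ^ 2) * ((e / e.totient) ^ 2 *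
          ((e : ℝ) ^ (1 + η) * ((e : ℝ) ^ (-(1 + η))) ^ 2)) := by
          field_simp
          ring
      _ ≤ (36 * Real.exp 2 ^ 2 * G ^ 4 / X ^ 2) * ((e / e.totient) ^ 2 * (1 / e)) := by gcongr
      _ = _ := by rw [h8]; ring
  have h9 : ∑ e ∈ (Icc 1 M).filter Squarefree, pp (fun p => (p : ℝ) ^ (1 + η) - 1) e *
      ‖∑ m ∈ ((Icc 1 M).filter Squarefree).filter (fun m => e ∣ m),
        ac X w m * (((m : ℝ) ^ (-(1 + η)) : ℝ) : ℂ)‖ ^ 2 ≤
      (36 * Real.exp 4 * G ^ 4 / X ^ 2) * (Real.exp 6 * (2 * X)) := by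
    refine (Finset.sum_le_sum h3).trans ?_
    rw [← Finset.mul_sum]
    have h10 := sum_ratio_le M
    have h11 : Real.log M ≤ X := by
      rw [hM]
      have h12 : 1 ≤ ⌊Real.exp X⌋₊ := by
        rw [Nat.one_le_floor_iff]
        exact Real.one_le_exp hX0.le
      rw [Real.log_le_iff_le_exp (by exact_mod_cast h12)]
      exact Nat.floor_le (Real.exp_pos _).le
    have h12 : Real.exp 6 * (1 + Real.log M) ≤ Real.exp 6 * (2 * X) := by
      gcongr; linarith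
    exact mul_le_mul_of_nonneg_left (h10.trans h12) (by positivity)
  have h10 := zsum_le hη
  have h11 : 0 ≤ ∑' k : ℕ, (k : ℝ) ^ (-(1 + η)) := tsum_nonneg fun k => by positivity
  have h13 : 0 ≤ ∑ e ∈ (Icc 1 M).filter Squarefree, pp (fun p => (p : ℝ) ^ (1 + η) - 1) e *
      ‖∑ m ∈ ((Icc 1 M).filter Squarefree).filter (fun m => e ∣ m),
        ac X w m * (((m : ℝ) ^ (-(1 + η)) : ℝ) : ℂ)‖ ^ 2 := by
    apply Finset.sum_nonneg
    intro e _
    apply mul_nonneg _ (by positivity)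
    apply pp_nonneg
    intro p hp
    have : (1 : ℝ) ≤ p := by exact_mod_cast hp.one_le
    have := Real.one_le_rpow this (show (0 : ℝ) ≤ 1 + η by linarith)
    linarith
  calc _ ≤ (1 + 1 / η) * ((36 * Real.exp 4 * G ^ 4 / X ^ 2) * (Real.exp 6 * (2 * X))) := by gcongr
    _ = 72 * Real.exp 4 * Real.exp 6 * (1 + 1 / η) / X * G ^ 4 := by
        field_simp
        ring
    _ = _ := by rw [hG]

end Pool.Agent.NH13
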