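import Pool.Agent.NH13.AllChars

/-!
# All windows at once, in mean square and pointwise
-/

set_option autoImplicit false

open Complex MeasureTheory Set Filter Topology

namespace Pool.Agent.NH13

open ArithmeticFunction (vonMangoldt)

theorem all_windows (A δ : ℝ) (hA : 0 < A) (hδ : 0 < δ) : ∃ C : ℝ, 0 < C ∧ ∀ (q : ℕ) [NeZero q],
    3 ≤ q → ∀ κ : ℝ, 0 < κ → κ ≤ 1 →
    (({χ : DirichletCharacter ℂ q | ∃ X : ℝ, (q : ℝ) ^ δ ≤ X ∧ X ≤ (q : ℝ) ^ A ∧
      ∫ x in Ioc X (X * (q : ℝ) ^ (1 + δ)), ‖psi χ x‖ ^ 2 / x ^ 2 ≤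
        Real.exp (-(C * κ * Real.log q))}.ncard : ℕ) : ℝ) ≤ C * q / (κ ^ 3 * Real.log q ^ 2) := by
  obtain ⟨C, hC, hall⟩ := all_chars (A + 2 * δ) (δ / 2) (by linarith) (by linarith)
  obtain ⟨J, hJ⟩ : ∃ J : ℕ, J = ⌈2 * A / δ⌉₊ := ⟨_, rfl⟩
  have hJ' : 2 * A / δ ≤ J := by rw [hJ]; exact Nat.le_ceil _
  refine ⟨C * (J + 1), by positivity, ?_⟩
  intro q _ hq κ hκ hκ1
  have hq0 : (0 : ℝ) < q := by exact_mod_cast NeZero.pos q
  have hq1 : (1 : ℝ) ≤ q := by exact_mod_cast NeZero.one_le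
  have hqlt : (1 : ℝ) < q := by exact_mod_cast (by omega : 1 < q)
  have hℓ0 : 0 < Real.log q := Real.log_pos hqlt
  classical
  set P : ℕ → ℝ := fun j => (q : ℝ) ^ (δ + j * (δ / 2)) with hP
  set T : Finset (DirichletCharacter ℂ q) := (Finset.range (J + 1)).biUnion (fun j =>
    BadAll q (P j) (P j * (q : ℝ) ^ (1 + δ / 2)) (Real.exp (-(C * κ * Real.log q)))) with hT
  have hsub : {χ : DirichletCharacter ℂ q | ∃ X : ℝ, (q : ℝ) ^ δ ≤ X ∧ X ≤ (q : ℝ) ^ A ∧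
      ∫ x in Ioc X (X * (q : ℝ) ^ (1 + δ)), ‖psi χ x‖ ^ 2 / x ^ 2 ≤
        Real.exp (-(C * (J + 1) * κ * Real.log q))} ⊆ (T : Set (DirichletCharacter ℂ q)) := by
    rintro χ ⟨X, hXδ, hXA, hint⟩
    have hX1 : 1 ≤ X := (Real.one_le_rpow hq1 hδ.le).trans hXδ
    have hX0 : 0 < X := by linarith
    -- the index
    obtain ⟨b, hb⟩ : ∃ b : ℝ, b = Real.log X / Real.log q := ⟨_, rfl⟩
    have hXb : X = (q : ℝ) ^ b := by
      rw [Real.rpow_def_of_pos hq0, hb]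
      have : Real.log q * (Real.log X / Real.log q) = Real.log X := by field_simp
      rw [this, Real.exp_log hX0]
    have hbδ : δ ≤ b := by
      rw [hXb] at hXδ
      exact (Real.rpow_le_rpow_left_iff hqlt).mp hXδ
    have hbA : b ≤ A := by
      rw [hXb] at hXA
      exact (Real.rpow_le_rpow_left_iff hqlt).mp hXA
    obtain ⟨j, hj⟩ : ∃ j : ℕ, j = ⌈(b - δ) / (δ / 2)⌉₊ := ⟨_, rfl⟩
    have hj1 : (b - δ) / (δ / 2) ≤ j := by rw [hj]; exact Nat.le_ceil _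
    have hj2 : (j : ℝ) < (b - δ) / (δ / 2) + 1 := by
      rw [hj]; exact Nat.ceil_lt_add_one (div_nonneg (by linarith) (by linarith))
    rw [div_le_iff₀ (by linarith)] at hj1
    have hj3 : (j : ℝ) * (δ / 2) < b - δ + δ / 2 := by
      have := mul_lt_mul_of_pos_right hj2 (by linarith : 0 < δ / 2)
      rwa [add_mul, div_mul_cancel₀ _ (by linarith), one_mul] at this
    have hjJ : j < J + 1 := by
      have h1 : (j : ℝ) < J + 1 := by
        have h2 : (b - δ) / (δ / 2) ≤ 2 * A / δ := by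
          rw [div_le_div_iff₀ (by linarith) hδ]
          nlinarith
        linarith
      exact_mod_cast h1
    rw [hT, Finset.mem_coe, Finset.mem_biUnion]
    refine ⟨j, Finset.mem_range.mpr hjJ, ?_⟩
    rw [mem_BadAll]
    have h1 : X ≤ P j := by
      rw [hXb, hP]
      exact Real.rpow_le_rpow_of_exponent_le hq1 (by linarith)
    have h2 : P j * (q : ℝ) ^ (1 + δ / 2) ≤ X * (q : ℝ) ^ (1 + δ) := by
      rw [hXb, hP, ← Real.rpow_add hq0, ← Real.rpow_add hq0]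
      exact Real.rpow_le_rpow_of_exponent_le hq1 (by linarith)
    refine le_trans ?_ (hint.trans ?_)
    · apply setIntegral_mono_set (int_psi_sq χ hX0 _) (Eventually.of_forall fun x => by positivity)
      exact (Ioc_subset_Ioc h1 h2).eventuallyLE
    · apply Real.exp_le_exp.mpr
      have h3 : C * κ * Real.log q * 1 ≤ C * κ * Real.log q * (J + 1) := by
        have : (0 : ℝ) ≤ J := Nat.cast_nonneg J
        gcongr
        linarith
      linarith
  have h1 := Set.ncard_le_ncard hsub (Finset.finite_toSet T)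
  rw [Set.ncard_coe_finset] at h1
  have h2 : T.card ≤ ∑ j ∈ Finset.range (J + 1), (BadAll q (P j) (P j * (q : ℝ) ^ (1 + δ / 2))
      (Real.exp (-(C * κ * Real.log q)))).card := by
    rw [hT]; exact Finset.card_biUnion_le
  have h3 : ∀ j ∈ Finset.range (J + 1), ((BadAll q (P j) (P j * (q : ℝ) ^ (1 + δ / 2))
      (Real.exp (-(C * κ * Real.log q)))).card : ℝ) ≤ C * q / (κ ^ 3 * Real.log q ^ 2) := by
    intro j hj
    rw [Finset.mem_range] at hj
    apply hall q hq κ (P j) hκ hκ1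
    · rw [hP]
      apply Real.rpow_le_rpow_of_exponent_le hq1
      have : (0 : ℝ) ≤ j := Nat.cast_nonneg j
      nlinarith
    · rw [hP]
      apply Real.rpow_le_rpow_of_exponent_le hq1
      have h4 : (j : ℝ) ≤ J := by exact_mod_cast (by omega : j ≤ J)
      have h5 : (J : ℝ) < 2 * A / δ + 1 := by
        rw [hJ]; exact Nat.ceil_lt_add_one (by positivity)
      have h6 : (j : ℝ) * (δ / 2) ≤ (2 * A / δ + 1) * (δ / 2) := by
        have : (j : ℝ) ≤ 2 * A / δ + 1 := by linarith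
        gcongr
      have h7 : (2 * A / δ + 1) * (δ / 2) = A + δ / 2 := by field_simp
      linarith
  have h4 : (T.card : ℝ) ≤ (J + 1) * (C * q / (κ ^ 3 * Real.log q ^ 2)) := by
    calc (T.card : ℝ) ≤ ∑ j ∈ Finset.range (J + 1), ((BadAll q (P j) (P j * (q : ℝ) ^ (1 + δ / 2))
          (Real.exp (-(C * κ * Real.log q)))).card : ℝ) := by exact_mod_cast h2
      _ ≤ ∑ j ∈ Finset.range (J + 1), C * q / (κ ^ 3 * Real.log q ^ 2) := Finset.sum_le_sum h3
      _ = _ := by rw [Finset.sum_const, Finset.card_range, nsmul_eq_mul]; push_cast; ring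
  have h5 : ((({χ : DirichletCharacter ℂ q | ∃ X : ℝ, (q : ℝ) ^ δ ≤ X ∧ X ≤ (q : ℝ) ^ A ∧
      ∫ x in Ioc X (X * (q : ℝ) ^ (1 + δ)), ‖psi χ x‖ ^ 2 / x ^ 2 ≤
        Real.exp (-(C * (J + 1) * κ * Real.log q))}.ncard : ℕ) : ℝ)) ≤ T.card := by
    exact_mod_cast h1
  refine (h5.trans h4).trans (le_of_eq ?_)
  ring

theorem all_windows_pt (A δ : ℝ) (hA : 0 < A) (hδ : 0 < δ) : ∃ C : ℝ, 0 < C ∧ ∀ (q : ℕ) [NeZero q],
    3 ≤ q → ∀ κ : ℝ, 0 < κ → κ ≤ 1 →
    (({χ : DirichletCharacter ℂ q | ∃ X : ℝ, (q : ℝ) ^ δ ≤ X ∧ X ≤ (q : ℝ) ^ A ∧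
      ((∫ x in Ioc X (X * (q : ℝ) ^ (1 + δ)), ‖psi χ x‖ ^ 2 / x ^ 2 ≤
        Real.exp (-(C * κ * Real.log q))) ∨
      ∀ x ∈ Ioc X (X * (q : ℝ) ^ (1 + δ)), ‖psi χ x‖ ≤
        Real.sqrt x * Real.exp (-(C * κ * Real.log q)))}.ncard : ℕ) : ℝ) ≤
      C * q / (κ ^ 3 * Real.log q ^ 2) := by
  obtain ⟨C0, hC0, hall⟩ := all_windows A δ hA hδ
  refine ⟨C0 + δ + 3, by positivity, ?_⟩
  intro q _ hq κ hκ hκ1
  have hq0 : (0 : ℝ) < q := by exact_mod_cast NeZero.pos q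
  have hq1 : (1 : ℝ) ≤ q := by exact_mod_cast NeZero.one_le
  have hqlt : (1 : ℝ) < q := by exact_mod_cast (by omega : 1 < q)
  obtain ⟨ℓ, hℓ⟩ : ∃ ℓ : ℝ, ℓ = Real.log q := ⟨_, rfl⟩
  have hℓ0 : 0 < ℓ := by rw [hℓ]; exact Real.log_pos hqlt
  have hℓ1 : 1 ≤ ℓ := by
    rw [hℓ, Real.le_log_iff_exp_le hq0]
    have h1 := Real.exp_one_lt_d9
    have h2 : (3 : ℝ) ≤ q := by exact_mod_cast hq
    linarith
  have hmain := hall q hq κ hκ hκ1
  rw [← hℓ] at hmain ⊢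
  obtain ⟨C, hC⟩ : ∃ C : ℝ, C = C0 + δ + 3 := ⟨_, rfl⟩
  rw [← hC]
  have hCp : 0 < C := by linarith
  by_cases hcase : κ ^ 3 * ℓ ^ 2 ≤ C
  · rw [le_div_iff₀ (by positivity)]
    have h1 : ((({χ : DirichletCharacter ℂ q | ∃ X : ℝ, (q : ℝ) ^ δ ≤ X ∧ X ≤ (q : ℝ) ^ A ∧
      ((∫ x in Ioc X (X * (q : ℝ) ^ (1 + δ)), ‖psi χ x‖ ^ 2 / x ^ 2 ≤
        Real.exp (-(C * κ * ℓ))) ∨
      ∀ x ∈ Ioc X (X * (q : ℝ) ^ (1 + δ)), ‖psi χ x‖ ≤
        Real.sqrt x * Real.exp (-(C * κ * ℓ)))}.ncard : ℕ) : ℝ)) ≤ q := by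
      have h2 := Set.ncard_le_ncard (Set.subset_univ {χ : DirichletCharacter ℂ q | ∃ X : ℝ,
        (q : ℝ) ^ δ ≤ X ∧ X ≤ (q : ℝ) ^ A ∧
        ((∫ x in Ioc X (X * (q : ℝ) ^ (1 + δ)), ‖psi χ x‖ ^ 2 / x ^ 2 ≤
          Real.exp (-(C * κ * ℓ))) ∨
        ∀ x ∈ Ioc X (X * (q : ℝ) ^ (1 + δ)), ‖psi χ x‖ ≤
          Real.sqrt x * Real.exp (-(C * κ * ℓ)))})
      rw [Set.ncard_univ, Nat.card_eq_fintype_card, card_chars] at h2
      exact_mod_cast h2.trans (Nat.totient_le q)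
    calc _ ≤ (q : ℝ) * C := by gcongr
      _ = _ := mul_comm _ _
  · push Not at hcase
    -- `κ ℓ ≥ ℓ^{1/3}`
    obtain ⟨u, hu⟩ : ∃ u : ℝ, u = ℓ ^ (1 / 3 : ℝ) := ⟨_, rfl⟩
    have hu0 : 0 < u := by rw [hu]; positivity
    have hu3 : u ^ 3 = ℓ := by
      rw [hu, ← Real.rpow_natCast, ← Real.rpow_mul hℓ0.le]; norm_num
    have hκu : 1 ≤ κ * u ^ 2 := by
      have h1 : 1 ≤ (κ * u ^ 2) ^ 3 := by
        have : (κ * u ^ 2) ^ 3 = κ ^ 3 * ℓ ^ 2 := by rw [mul_pow, ← hu3]; ring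
        rw [this]
        linarith
      by_contra h
      push Not at h
      have h0 : 0 ≤ κ * u ^ 2 := by positivity
      have : (κ * u ^ 2) ^ 3 < 1 := pow_lt_one₀ h0 h (by norm_num)
      linarith
    have hκℓ : u ≤ κ * ℓ := by
      rw [← hu3]
      calc u = 1 * u := (one_mul u).symm
        _ ≤ (κ * u ^ 2) * u := by gcongr
        _ = _ := by ring
    have hu1 : 1 ≤ u := by
      rw [hu]; exact Real.one_le_rpow hℓ1 (by norm_num)
    have hlogs : (1 + δ) * ℓ ≤ Real.exp ((δ + 3) * (κ * ℓ)) := by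
      have h1 : (1 + δ) * u ^ 3 ≤ Real.exp δ * Real.exp u ^ 3 := by
        have h2 := Real.add_one_le_exp δ
        have h3 : u ≤ Real.exp u := by linarith [Real.add_one_le_exp u]
        have h4 : 1 + δ ≤ Real.exp δ := by linarith
        gcongr
      have h2 : Real.exp δ * Real.exp u ^ 3 = Real.exp (δ + 3 * u) := by
        rw [Real.exp_add, ← Real.exp_nat_mul]; norm_num
      rw [← hu3]
      refine (h1.trans_eq h2).trans (Real.exp_le_exp.mpr ?_)
      rw [hu3]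
      nlinarith
    refine le_trans ?_ (hmain.trans ?_)
    · have hsub : {χ : DirichletCharacter ℂ q | ∃ X : ℝ, (q : ℝ) ^ δ ≤ X ∧ X ≤ (q : ℝ) ^ A ∧
          ((∫ x in Ioc X (X * (q : ℝ) ^ (1 + δ)), ‖psi χ x‖ ^ 2 / x ^ 2 ≤
            Real.exp (-(C * κ * ℓ))) ∨
          ∀ x ∈ Ioc X (X * (q : ℝ) ^ (1 + δ)), ‖psi χ x‖ ≤
            Real.sqrt x * Real.exp (-(C * κ * ℓ)))} ⊆
          {χ : DirichletCharacter ℂ q | ∃ X : ℝ, (q : ℝ) ^ δ ≤ X ∧ X ≤ (q : ℝ) ^ A ∧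
            ∫ x in Ioc X (X * (q : ℝ) ^ (1 + δ)), ‖psi χ x‖ ^ 2 / x ^ 2 ≤
              Real.exp (-(C0 * κ * ℓ))} := by
        rintro χ ⟨X, hXδ, hXA, hor⟩
        refine ⟨X, hXδ, hXA, ?_⟩
        have hX1 : 1 ≤ X := (Real.one_le_rpow hq1 hδ.le).trans hXδ
        have hX0 : 0 < X := by linarith
        rcases hor with h | h
        · refine h.trans (Real.exp_le_exp.mpr ?_)
          have : C0 * κ * ℓ ≤ C * κ * ℓ := by gcongr; linarith
          linarith
        · set Y := X * (q : ℝ) ^ (1 + δ) with hY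
          have hXY : X ≤ Y := by
            rw [hY]
            exact le_mul_of_one_le_right hX0.le (Real.one_le_rpow hq1 (by linarith))
          obtain ⟨T, hT⟩ : ∃ T : ℝ, T = Real.exp (-(C * κ * ℓ)) := ⟨_, rfl⟩
          rw [← hT] at h
          have hT0 : 0 < T := by rw [hT]; exact Real.exp_pos _
          have hI : IntegrableOn (fun x : ℝ => T ^ 2 * x⁻¹) (Ioc X Y) := by
            have h1 : ContinuousOn (fun x : ℝ => T ^ 2 * x⁻¹) (Icc X Y) := by
              apply ContinuousOn.mul continuousOn_const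
              apply ContinuousOn.inv₀ continuousOn_id
              intro x hx
              exact (lt_of_lt_of_le hX0 hx.1).ne'
            exact (h1.integrableOn_Icc).mono_set Ioc_subset_Icc_self
          have h2 : ∫ x in Ioc X Y, ‖psi χ x‖ ^ 2 / x ^ 2 ≤ ∫ x in Ioc X Y, T ^ 2 * x⁻¹ := by
            apply setIntegral_mono_on (int_psi_sq χ hX0 Y) hI measurableSet_Ioc
            intro x hx
            have hx0 : 0 < x := lt_trans hX0 hx.1
            have h3 := h x hx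
            rw [div_le_iff₀ (by positivity)]
            calc ‖psi χ x‖ ^ 2 ≤ (Real.sqrt x * T) ^ 2 := by gcongr
              _ = x * T ^ 2 := by rw [mul_pow, Real.sq_sqrt hx0.le]
              _ = _ := by field_simp
          have h3 : ∫ x in Ioc X Y, T ^ 2 * x⁻¹ = T ^ 2 * ((1 + δ) * ℓ) := by
            rw [integral_const_mul, ← intervalIntegral.integral_of_le hXY,
              integral_inv_of_pos hX0 (lt_of_lt_of_le hX0 hXY), hY, mul_div_cancel_left₀ _ hX0.ne',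
              Real.log_rpow hq0, ← hℓ]
          rw [h3] at h2
          refine h2.trans ?_
          calc T ^ 2 * ((1 + δ) * ℓ) ≤ T ^ 2 * Real.exp ((δ + 3) * (κ * ℓ)) := by gcongr
            _ = Real.exp (-(2 * (C * κ * ℓ)) + (δ + 3) * (κ * ℓ)) := by
                rw [hT, ← Real.exp_nat_mul, ← Real.exp_add]; congr 1; push_cast; ring
            _ ≤ _ := by
                apply Real.exp_le_exp.mpr
                have h4 : 0 ≤ κ * ℓ := by positivity
                have h5 : 2 * (C * κ * ℓ) = (2 * C) * (κ * ℓ) := by ring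
                have h6 : C0 * κ * ℓ = C0 * (κ * ℓ) := by ring
                rw [h5, h6]
                have h7 : C0 + (δ + 3) ≤ 2 * C := by linarith
                nlinarith
      have := Set.ncard_le_ncard hsub (Set.toFinite _)
      exact_mod_cast this
    · gcongr
      linarith

end Pool.Agent.NH13
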